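import Pool.Agent.H1.PP.Wrd

/-!
# PP-33 Al: the number with given letters

PROOFS.  Let `ω k ∈ Lt s` for all `k`, `P_k = Pk ω k ∈ Wd s k`.
`Pk_add`: `Pk ω (k + m) = Pk ω k * Pk (fun i => ω (k + i)) m`.
`al_spec`: for `P ∈ Wd s k` let `I_P = {(P 0 0 β + P 0 1)/(P 1 0 β + P 1 1) : 1 ≤ β ≤ 2}`, a compact interval.  A letter maps
`[1, 2]` into `[1, 2]` (`(A β + B)/(C β + D)` lies between `B/D ≥ 1` and `A/C < 2`), so the `I_{P_k}` are nested, and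
there is `α` in all of them: for each `k` there is `β` with `Rep (P_k) β α`.  Moreover
`|α - P 0 1 / P 1 1| = β/((P 1 0 β + P 1 1) P 1 1) ≤ 2/(P 1 1)²`, which tends to `0` (`Wd_lower`), so
`P_k 0 1 / P_k 1 1` tends to `α`, and `al ω = α` (uniqueness of limits, `Filter.Tendsto.limUnder_eq`).
-/

set_option autoImplicit false

open Finset

namespace Pool.Agent.H1.PP

open Pool.Agent.H10.RP (ee nd Lam)

/-- the number whose expansion is given by the letters `ω` -/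
noncomputable def al (ω : ℕ → M2) : ℝ :=
  Filter.limUnder Filter.atTop (fun k => (Pk ω k 0 1 : ℝ) / (Pk ω k 1 1 : ℝ))

theorem Pk_mem (s : ℕ) (ω : ℕ → M2) (hω : ∀ k, ω k ∈ Lt s) (k : ℕ) : Pk ω k ∈ Wd s k := by
  induction k with
  | zero =>
    change (1 : M2) ∈ ({1} : Finset M2)
    simp
  | succ k ih => exact (mem_Wd_succ s k _).2 ⟨Pk ω k, ih, ω k, hω k, rfl⟩

theorem Pk_add (ω : ℕ → M2) (k m : ℕ) : Pk ω (k + m) = Pk ω k * Pk (fun i => ω (k + i)) m := by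
  induction m with
  | zero =>
    change Pk ω k = Pk ω k * 1
    rw [mul_one]
  | succ m ih =>
    change Pk ω (k + m) * ω (k + m) = Pk ω k * (Pk (fun i => ω (k + i)) m * ω (k + m))
    rw [ih, mul_assoc]

theorem Pk_split (s : ℕ) (ω : ℕ → M2) (hω : ∀ k, ω k ∈ Lt s) (k m : ℕ) :
    ∃ G ∈ Wd s m, Pk ω (k + m) = Pk ω k * G :=
  ⟨Pk (fun i => ω (k + i)) m, Pk_mem s _ (fun i => hω (k + i)) m, Pk_add ω k m⟩

/-- the action of a word on real numbers -/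
noncomputable def al_f (P : M2) (β : ℝ) : ℝ :=
  ((P 0 0 : ℝ) * β + P 0 1) / ((P 1 0 : ℝ) * β + P 1 1)

theorem al_pos (s k : ℕ) (P : M2) (hP : P ∈ Wd s k) (β : ℝ) (hβ : 1 ≤ β) :
    0 < (P 1 0 : ℝ) * β + P 1 1 := by
  have h1 : (0 : ℝ) ≤ P 1 0 := by exact_mod_cast Wd_nonneg s k P hP 1 0
  have h2 : (1 : ℝ) ≤ P 1 1 := by exact_mod_cast (Wd_diag s k P hP).2
  have h3 : 0 ≤ (P 1 0 : ℝ) * β := mul_nonneg h1 (by linarith)
  linarith

theorem al_f_cont (s k : ℕ) (P : M2) (hP : P ∈ Wd s k) :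
    ContinuousOn (al_f P) (Set.Icc 1 2) := by
  unfold al_f
  apply ContinuousOn.div
  · fun_prop
  · fun_prop
  · intro β hβ
    exact (al_pos s k P hP β hβ.1).ne'

/-- later quotients lie in the interval of the word -/
theorem al_mem (s : ℕ) (ω : ℕ → M2) (hω : ∀ k, ω k ∈ Lt s) (k m : ℕ) (hm : 1 ≤ m) :
    ∃ β ∈ Set.Icc (1 : ℝ) 2, (Pk ω (k + m) 0 1 : ℝ) / (Pk ω (k + m) 1 1 : ℝ) = al_f (Pk ω k) β := by
  obtain ⟨G, hG, hPG⟩ := Pk_split s ω hω k m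
  obtain ⟨-, -, h3, h4, -, -⟩ := Wd_ratio s m hm G hG
  have hG11 : (1 : ℝ) ≤ G 1 1 := by exact_mod_cast (Wd_diag s m G hG).2
  have h3' : (G 1 1 : ℝ) ≤ G 0 1 := by exact_mod_cast h3
  have h4' : (G 0 1 : ℝ) ≤ 2 * G 1 1 := by exact_mod_cast h4.le
  have hpos : (0 : ℝ) < G 1 1 := by linarith
  refine ⟨(G 0 1 : ℝ) / G 1 1, ⟨?_, ?_⟩, ?_⟩
  · rw [le_div_iff₀ hpos]
    linarith
  · rw [div_le_iff₀ hpos]
    exact h4'
  · rw [hPG, Matrix.mul_apply, Matrix.mul_apply, Fin.sum_univ_two, Fin.sum_univ_two]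
    unfold al_f
    push_cast
    have e1 : (Pk ω k 0 0 : ℝ) * (G 0 1 / G 1 1) + Pk ω k 0 1 =
        ((Pk ω k 0 0 : ℝ) * G 0 1 + Pk ω k 0 1 * G 1 1) / G 1 1 := by
      field_simp
    have e2 : (Pk ω k 1 0 : ℝ) * (G 0 1 / G 1 1) + Pk ω k 1 1 =
        ((Pk ω k 1 0 : ℝ) * G 0 1 + Pk ω k 1 1 * G 1 1) / G 1 1 := by
      field_simp
    rw [e1, e2, div_div_div_cancel_right₀ hpos.ne']

theorem al_dist (s : ℕ) (hs : 1 ≤ s) (ω : ℕ → M2) (hω : ∀ k, ω k ∈ Lt s) (k : ℕ) :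
    dist ((Pk ω k 0 1 : ℝ) / (Pk ω k 1 1 : ℝ)) ((Pk ω (k + 1) 0 1 : ℝ) / (Pk ω (k + 1) 1 1 : ℝ)) ≤
      2 * (1 / 2) ^ k := by
  obtain ⟨β, hβ, he⟩ := al_mem s ω hω k 1 le_rfl
  rw [he]
  have hP := Pk_mem s ω hω k
  set P := Pk ω k with hPd
  have hpos := al_pos s k P hP β hβ.1
  have h10 : (0 : ℝ) ≤ P 1 0 := by exact_mod_cast Wd_nonneg s k P hP 1 0
  have h11 : (1 : ℝ) ≤ P 1 1 := by exact_mod_cast (Wd_diag s k P hP).2
  have hdet : (P 0 0 : ℝ) * P 1 1 - P 0 1 * P 1 0 = 1 := by exact_mod_cast Wd_det s k P hP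
  have e1 : al_f P β - (P 0 1 : ℝ) / P 1 1 = β / (((P 1 0 : ℝ) * β + P 1 1) * P 1 1) := by
    unfold al_f
    have h12 : (0 : ℝ) < P 1 1 := by linarith
    rw [div_sub_div _ _ hpos.ne' h12.ne', div_left_inj' (mul_pos hpos h12).ne']
    linear_combination β * hdet
  have hpow : (2 : ℝ) ^ k ≤ P 1 1 := by
    rcases Nat.eq_zero_or_pos k with h0 | h0
    · rw [h0, pow_zero]
      exact h11
    · have h5 : (2 : ℝ) ^ (10 * s * k) ≤ 8 ^ k * P 1 1 := by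
        exact_mod_cast Wd_lower s k hs h0 P hP 1 1
      have h6 : (16 : ℝ) ^ k ≤ 2 ^ (10 * s * k) := by
        have : (16 : ℝ) ^ k = 2 ^ (4 * k) := by
          rw [pow_mul]
          norm_num
        rw [this]
        apply pow_le_pow_right₀ (by norm_num)
        nlinarith
      have h7 : (16 : ℝ) ^ k = 8 ^ k * 2 ^ k := by
        rw [← mul_pow]
        norm_num
      rw [h7] at h6
      exact le_of_mul_le_mul_left (h6.trans h5) (by positivity)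
  rw [dist_comm, Real.dist_eq, e1, abs_of_nonneg (by
    apply div_nonneg
    · linarith [hβ.1]
    · positivity)]
  rw [div_le_iff₀ (by positivity)]
  have h8 : (1 : ℝ) ≤ ((P 1 0 : ℝ) * β + P 1 1) := by
    have : 0 ≤ (P 1 0 : ℝ) * β := mul_nonneg h10 (by linarith [hβ.1])
    linarith
  have h9 : (1 : ℝ) ≤ (1 / 2) ^ k * P 1 1 := by
    have : (1 / 2 : ℝ) ^ k * 2 ^ k = 1 := by
      rw [← mul_pow]
      norm_num
    have h13 : (1 / 2 : ℝ) ^ k * 2 ^ k ≤ (1 / 2) ^ k * P 1 1 :=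
      mul_le_mul_of_nonneg_left hpow (by positivity)
    linarith
  have h10' : (1 : ℝ) ≤ (((P 1 0 : ℝ) * β + P 1 1)) * ((1 / 2) ^ k * P 1 1) := by
    have := mul_le_mul h8 h9 zero_le_one (by linarith)
    linarith
  have e2 : 2 * (1 / 2 : ℝ) ^ k * (((P 1 0 : ℝ) * β + P 1 1) * P 1 1) =
      2 * (((P 1 0 : ℝ) * β + P 1 1) * ((1 / 2) ^ k * P 1 1)) := by ring
  rw [e2]
  linarith [hβ.2]

theorem al_tendsto (s : ℕ) (hs : 1 ≤ s) (ω : ℕ → M2) (hω : ∀ k, ω k ∈ Lt s) :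
    Filter.Tendsto (fun k => (Pk ω k 0 1 : ℝ) / (Pk ω k 1 1 : ℝ)) Filter.atTop (nhds (al ω)) := by
  have h1 : CauchySeq (fun k => (Pk ω k 0 1 : ℝ) / (Pk ω k 1 1 : ℝ)) :=
    cauchySeq_of_le_geometric (1 / 2) 2 (by norm_num) (fun k => al_dist s hs ω hω k)
  exact tendsto_nhds_limUnder (cauchySeq_tendsto_of_complete h1)

theorem al_rep (s : ℕ) (hs : 1 ≤ s) (ω : ℕ → M2) (hω : ∀ k, ω k ∈ Lt s) (k : ℕ) :
    ∃ β : ℝ, Rep (Pk ω k) β (al ω) := by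
  have hP := Pk_mem s ω hω k
  have h1 : IsClosed (al_f (Pk ω k) '' Set.Icc (1 : ℝ) 2) :=
    (isCompact_Icc.image_of_continuousOn (al_f_cont s k _ hP)).isClosed
  have h2 : al ω ∈ al_f (Pk ω k) '' Set.Icc (1 : ℝ) 2 := by
    apply h1.mem_of_tendsto (al_tendsto s hs ω hω)
    filter_upwards [Filter.eventually_ge_atTop (k + 1)] with m hm
    obtain ⟨β, hβ, he⟩ := al_mem s ω hω k (m - k) (by omega)
    rw [show k + (m - k) = m by omega] at he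
    exact ⟨β, hβ, he.symm⟩
  obtain ⟨β, hβ, he⟩ := h2
  refine ⟨β, hβ.1, hβ.2, ?_⟩
  rw [← he]
  exact div_mul_cancel₀ _ (al_pos s k _ hP β hβ.1).ne'

end Pool.Agent.H1.PP
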