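import Pool.Agent.H1.PP.Al

/-!
# PP-34 AlB: the number is badly approximable

PROOF.  Let `α = al ω`, `n ≥ 1`, `m` any integer.  Let `k` be minimal with `n < min (C_k, D_k)` where `(C_k, D_k)` is the
second row of `P_k = Pk ω k` (exists by `Wd_lower`; `k ≥ 1` because `P_0 = 1` has `C_0 = 0`).  Let `β` be from `al_rep`,
`s0 = C_k β + D_k`.  There are integers `a1, a2` with `n = a1 C_k + a2 D_k`, `m = a1 A_k + a2 B_k` (determinant `-1`), and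
`s0 (n α - m) = a2 β - a1`.  If `a1, a2 ≥ 0` then `n = 0` or `n ≥ min (C_k, D_k)`; if `a1, a2 ≤ 0` then `n ≤ 0`.  So
`a1 a2 < 0` and `|a2 β - a1| = |a2| β + |a1| ≥ 2`.  Hence `|n α - m| ≥ 2/s0`.
Upper bound for `s0 ≤ 2 C_k + D_k`: if `k ≥ 2`, `P_k = P_{k-1} g`, with `c = C_{k-1}`, `d = D_{k-1}`, `min (c, d) ≤ n`,
`d < 2 c`, `c < 4 d` (`Wd_ratio`), so `c + d ≤ 5 min (c,d) ≤ 5 n` and `C_k, D_k ≤ 4 Q (c + d) ≤ 20 Q n`, `s0 ≤ 60 Q n`.  If `k = 1`: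
`s0 ≤ 6 Q ≤ 60 Q n`.  So `n |n α - m| ≥ 1/(30 Q)` for all `n ≥ 1`, `m`.  In particular `α` is irrational (a rational
`α = u/v` has `|v α - u| = 0`).
-/

set_option autoImplicit false

open Finset

namespace Pool.Agent.H1.PP

open Pool.Agent.H10.RP (ee nd Lam)

theorem alB_large (s : ℕ) (hs : 1 ≤ s) (ω : ℕ → M2) (hω : ∀ k, ω k ∈ Lt s) (n : ℕ) :
    ∃ k, (n : ℤ) < Pk ω k 1 0 ∧ (n : ℤ) < Pk ω k 1 1 := by
  have key : ∀ i j, (n : ℤ) < Pk ω (n + 1) i j := by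
    intro i j
    have h1 := Wd_lower s (n + 1) hs (by omega) _ (Pk_mem s ω hω (n + 1)) i j
    have h2 : (16 : ℤ) ^ (n + 1) ≤ 2 ^ (10 * s * (n + 1)) := by
      have : (16 : ℤ) ^ (n + 1) = 2 ^ (4 * (n + 1)) := by
        rw [pow_mul]
        norm_num
      rw [this]
      apply pow_le_pow_right₀ (by norm_num)
      nlinarith
    have h3 : (16 : ℤ) ^ (n + 1) = 8 ^ (n + 1) * 2 ^ (n + 1) := by
      rw [← mul_pow]
      norm_num
    rw [h3] at h2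
    have h4 : (2 : ℤ) ^ (n + 1) ≤ Pk ω (n + 1) i j :=
      le_of_mul_le_mul_left (h2.trans h1) (by positivity)
    have h5 : n + 1 < 2 ^ (n + 1) := Nat.lt_two_pow_self
    have h6 : ((n : ℤ) + 1) < 2 ^ (n + 1) := by exact_mod_cast h5
    omega
  exact ⟨n + 1, key 1 0, key 1 1⟩

theorem alB_size (s : ℕ) (ω : ℕ → M2) (hω : ∀ k, ω k ∈ Lt s) (n : ℕ) (hn : 1 ≤ n)
    (k : ℕ) (hk1 : (n : ℤ) < Pk ω k 1 0)
    (hmin : ∀ j < k, ¬ ((n : ℤ) < Pk ω j 1 0 ∧ (n : ℤ) < Pk ω j 1 1)) :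
    Pk ω k 1 0 ≤ 20 * Qh s * n ∧ Pk ω k 1 1 ≤ 20 * Qh s * n := by
  have hQ : (1 : ℤ) ≤ (Qh s : ℤ) := by exact_mod_cast Qh_pos s
  have hn' : (1 : ℤ) ≤ n := by exact_mod_cast hn
  cases k with
  | zero =>
    have h1 : Pk ω 0 1 0 = 0 := by
      change (1 : M2) 1 0 = 0
      simp
    rw [h1] at hk1
    omega
  | succ k =>
    obtain ⟨a1, a2, a3, a4, a5, a6, a7, a8, a9⟩ := (mem_Lt s (ω k)).1 (hω k)
    have e0 : Pk ω (k + 1) = Pk ω k * ω k := rfl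
    have hsum : 0 ≤ Pk ω k 1 0 ∧ 0 ≤ Pk ω k 1 1 ∧ Pk ω k 1 0 + Pk ω k 1 1 ≤ 5 * n := by
      refine ⟨Wd_nonneg s k _ (Pk_mem s ω hω k) 1 0, Wd_nonneg s k _ (Pk_mem s ω hω k) 1 1, ?_⟩
      rcases Nat.eq_zero_or_pos k with h0 | h0
      · subst h0
        have h1 : Pk ω 0 1 0 = 0 := by
          change (1 : M2) 1 0 = 0
          simp
        have h2 : Pk ω 0 1 1 = 1 := by
          change (1 : M2) 1 1 = 1
          simp
        rw [h1, h2]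
        omega
      · obtain ⟨-, -, -, -, b5, b6⟩ := Wd_ratio s k h0 _ (Pk_mem s ω hω k)
        have h3 := hmin k (Nat.lt_succ_self k)
        by_cases h4 : (n : ℤ) < Pk ω k 1 0
        · have h5 : ¬ (n : ℤ) < Pk ω k 1 1 := fun h => h3 ⟨h4, h⟩
          omega
        · omega
    obtain ⟨c0, d0, cd⟩ := hsum
    rw [e0, Matrix.mul_apply, Matrix.mul_apply, Fin.sum_univ_two, Fin.sum_univ_two]
    have key : ∀ u v : ℤ, u ≤ 4 * Qh s → v ≤ 4 * Qh s →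
        Pk ω k 1 0 * u + Pk ω k 1 1 * v ≤ 20 * Qh s * n := by
      intro u v hu hv
      have h6 := mul_le_mul_of_nonneg_left hu c0
      have h7 := mul_le_mul_of_nonneg_left hv d0
      have h8 : (Pk ω k 1 0 + Pk ω k 1 1) * (4 * Qh s) ≤ 5 * n * (4 * Qh s) :=
        mul_le_mul_of_nonneg_right cd (by omega)
      nlinarith
    exact ⟨key _ _ (by omega) (by omega), key _ _ (by omega) (by omega)⟩

theorem alB_main (s : ℕ) (hs : 1 ≤ s) (ω : ℕ → M2) (hω : ∀ k, ω k ∈ Lt s) (n : ℕ) (hn : 1 ≤ n)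
    (m : ℤ) : 1 / (30 * (Qh s : ℝ)) ≤ n * |n * al ω - m| := by
  classical
  obtain ⟨k, ⟨hk1, hk2⟩, hmin⟩ : ∃ k, ((n : ℤ) < Pk ω k 1 0 ∧ (n : ℤ) < Pk ω k 1 1) ∧
      ∀ j < k, ¬ ((n : ℤ) < Pk ω j 1 0 ∧ (n : ℤ) < Pk ω j 1 1) :=
    ⟨Nat.find (alB_large s hs ω hω n), Nat.find_spec (alB_large s hs ω hω n),
      fun j hj => Nat.find_min (alB_large s hs ω hω n) hj⟩
  obtain ⟨hC, hD⟩ := alB_size s ω hω n hn k hk1 hmin
  obtain ⟨β, hβ1, hβ2, hrep⟩ := al_rep s hs ω hω k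
  have hdet := Wd_det s k _ (Pk_mem s ω hω k)
  set P := Pk ω k with hP
  have hn' : (1 : ℤ) ≤ n := by exact_mod_cast hn
  have hQ : (1 : ℝ) ≤ (Qh s : ℝ) := by exact_mod_cast Qh_pos s
  have hnr : (1 : ℝ) ≤ n := by exact_mod_cast hn
  set a1 : ℤ := m * P 1 1 - n * P 0 1 with ha1
  set a2 : ℤ := n * P 0 0 - m * P 1 0 with ha2
  have e1 : (n : ℤ) = a1 * P 1 0 + a2 * P 1 1 := by
    rw [ha1, ha2]
    linear_combination (-(n : ℤ)) * hdet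
  -- signs
  have hsign : (1 ≤ a1 ∧ a2 ≤ -1) ∨ (a1 ≤ -1 ∧ 1 ≤ a2) := by
    have c1 : (1 : ℤ) ≤ P 1 0 := by omega
    have c2 : (1 : ℤ) ≤ P 1 1 := by omega
    by_contra hc
    rw [not_or] at hc
    obtain ⟨h1, h2⟩ := hc
    by_cases h3 : 1 ≤ a1
    · have h4 : 0 ≤ a2 := by omega
      have h5 : P 1 0 ≤ a1 * P 1 0 := by nlinarith
      have h6 : 0 ≤ a2 * P 1 1 := mul_nonneg h4 (by omega)
      omega
    · by_cases h4 : 1 ≤ a2
      · have h5 : 0 ≤ a1 := by omega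
        have h6 : P 1 1 ≤ a2 * P 1 1 := by nlinarith
        have h7 : 0 ≤ a1 * P 1 0 := mul_nonneg h5 (by omega)
        omega
      · have h5 : a1 * P 1 0 ≤ 0 := mul_nonpos_of_nonpos_of_nonneg (by omega) (by omega)
        have h6 : a2 * P 1 1 ≤ 0 := mul_nonpos_of_nonpos_of_nonneg (by omega) (by omega)
        omega
  have hs0 : 0 < (P 1 0 : ℝ) * β + P 1 1 := by
    have c1 : (1 : ℝ) ≤ P 1 0 := by
      have : (1 : ℤ) ≤ P 1 0 := by omega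
      exact_mod_cast this
    have c2 : (1 : ℝ) ≤ P 1 1 := by
      have : (1 : ℤ) ≤ P 1 1 := by omega
      exact_mod_cast this
    nlinarith
  have e2 : ((n : ℝ) * al ω - m) * ((P 1 0 : ℝ) * β + P 1 1) = (a2 : ℝ) * β - a1 := by
    rw [ha1, ha2]
    push_cast
    linear_combination (n : ℝ) * hrep
  have h2 : (2 : ℝ) ≤ |(a2 : ℝ) * β - a1| := by
    rcases hsign with ⟨h1, h2⟩ | ⟨h1, h2⟩
    · have h1' : (1 : ℝ) ≤ a1 := by exact_mod_cast h1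
      have h2' : (a2 : ℝ) ≤ -1 := by exact_mod_cast h2
      rw [abs_of_nonpos (by nlinarith)]
      nlinarith
    · have h1' : (a1 : ℝ) ≤ -1 := by exact_mod_cast h1
      have h2' : (1 : ℝ) ≤ a2 := by exact_mod_cast h2
      rw [abs_of_nonneg (by nlinarith)]
      nlinarith
  have h3 : (P 1 0 : ℝ) * β + P 1 1 ≤ 60 * Qh s * n := by
    have hC' : (P 1 0 : ℝ) ≤ 20 * Qh s * n := by exact_mod_cast hC
    have hD' : (P 1 1 : ℝ) ≤ 20 * Qh s * n := by exact_mod_cast hD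
    have c1 : (0 : ℝ) ≤ P 1 0 := by
      have : (0 : ℤ) ≤ P 1 0 := by omega
      exact_mod_cast this
    have : (P 1 0 : ℝ) * β ≤ P 1 0 * 2 := mul_le_mul_of_nonneg_left hβ2 c1
    linarith
  have h4 : 2 ≤ |(n : ℝ) * al ω - m| * (60 * Qh s * n) := by
    calc (2 : ℝ) ≤ |(a2 : ℝ) * β - a1| := h2
      _ = |(n : ℝ) * al ω - m| * ((P 1 0 : ℝ) * β + P 1 1) := by
          rw [← e2, abs_mul, abs_of_pos hs0]
      _ ≤ |(n : ℝ) * al ω - m| * (60 * Qh s * n) :=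
          mul_le_mul_of_nonneg_left h3 (abs_nonneg _)
  rw [div_le_iff₀ (by positivity)]
  nlinarith

theorem al_bad (s : ℕ) (hs : 1 ≤ s) (ω : ℕ → M2) (hω : ∀ k, ω k ∈ Lt s) : BadlyApprox (al ω) := by
  have hQ : (1 : ℝ) ≤ (Qh s : ℝ) := by exact_mod_cast Qh_pos s
  have hc : 0 < 1 / (30 * (Qh s : ℝ)) := by positivity
  refine ⟨?_, 1 / (30 * (Qh s : ℝ)), hc, fun n hn => alB_main s hs ω hω n hn _⟩
  rintro ⟨q, hq⟩
  have h1 := alB_main s hs ω hω q.den q.den_pos q.num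
  have h2 : (q.den : ℝ) * al ω - (q.num : ℤ) = 0 := by
    rw [← hq]
    have h3 : (q * q.den : ℚ) = q.num := Rat.mul_den_eq_num q
    have h4 : ((q : ℚ) : ℝ) * (q.den : ℝ) = (q.num : ℝ) := by exact_mod_cast h3
    rw [mul_comm, h4, sub_self]
  rw [h2, abs_zero, mul_zero] at h1
  linarith

end Pool.Agent.H1.PP
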