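import Pool.Agent.H1.PP.MT

/-!
# PP-32 DT: from good shifts to the weighted pair count

PROOF.  `δ = t L/X ≤ 1/2` for large `X`, `L = log X`.  For `1 ≤ h < X`, `Cor Lam X h = ∑_{n ≤ X - h} Λ(n) Λ(n+h)` (complex number
with real value): `VL_eq`.  So `VL α X δ = ∑_{h ∈ HS} Cor Lam X h = ∑_{a ∈ Om P β X (δ s0)} Cor Lam X (lf P a)` (`HS_sum`).
For `a ∈ Om`: `a ≠ 0`, `|a_i| ≤ 2 X/s0 + w ≤ c √L ≤ L` for large `X` (`Om_bound`; bounds for `s0`, `w` as in `MT`), and
`0 < lf P a < X`, so `Good X P` gives `‖Cor Lam X (lf P a) - Cor (LamR (RX X)) X (lf P a)‖ ≤ X/L`.  The number of points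
is `≤ Z² ≤ c1² L` (`Om_card`), so the total error is `≤ c1² X ≤ (ε/2) X L`, and `MT` with `ε/2`.
-/

set_option autoImplicit false

open Finset

namespace Pool.Agent.H1.PP

open Pool.Agent.H10.RP (ee nd Lam)

theorem dt_cor (X h : ℕ) :
    Cor Lam X (h : ℤ) = ∑ n ∈ Icc 1 (X - h), ((ArithmeticFunction.vonMangoldt n *
      ArithmeticFunction.vonMangoldt (n + h) : ℝ) : ℂ) := by
  unfold Cor
  rw [Finset.sum_comm]
  have step : ∀ n ∈ Icc 1 X, (∑ m ∈ Icc 1 X, if (m : ℤ) - n = (h : ℤ) then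
      Lam m * (starRingEnd ℂ) (Lam n) else 0) = if n + h ≤ X then
        ((ArithmeticFunction.vonMangoldt n * ArithmeticFunction.vonMangoldt (n + h) : ℝ) : ℂ)
        else 0 := by
    intro n hn
    have hn1 := (Finset.mem_Icc.1 hn).1
    have e1 : ∀ m ∈ Icc 1 X, (if (m : ℤ) - n = (h : ℤ) then
        Lam m * (starRingEnd ℂ) (Lam n) else 0) = if m = n + h then
        ((ArithmeticFunction.vonMangoldt n * ArithmeticFunction.vonMangoldt (n + h) : ℝ) : ℂ)
        else 0 := by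
      intro m _
      by_cases hm : m = n + h
      · rw [if_pos hm, if_pos (by omega), hm]
        unfold Pool.Agent.H10.RP.Lam
        rw [Complex.conj_ofReal, ← Complex.ofReal_mul, mul_comm]
      · rw [if_neg hm, if_neg (by omega)]
    rw [Finset.sum_congr rfl e1, Finset.sum_ite_eq']
    by_cases hX : n + h ≤ X
    · rw [if_pos (Finset.mem_Icc.2 ⟨by omega, hX⟩), if_pos hX]
    · rw [if_neg (fun hh => hX (Finset.mem_Icc.1 hh).2), if_neg hX]
  rw [Finset.sum_congr rfl step, ← Finset.sum_filter]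
  refine Finset.sum_congr ?_ fun _ _ => rfl
  ext n
  rw [Finset.mem_filter, Finset.mem_Icc, Finset.mem_Icc]
  omega

theorem VL_eq (α : ℝ) (X : ℕ) (δ : ℝ) : ((VL α X δ : ℝ) : ℂ) = ∑ h ∈ HS α X δ, Cor Lam X (h : ℤ) := by
  unfold VL
  rw [Complex.ofReal_sum]
  refine Finset.sum_congr rfl fun h _ => ?_
  rw [dt_cor, Complex.ofReal_sum]

theorem DT (W t ε : ℝ) (hW : 1 ≤ W) (ht : 0 < t) (hε : 0 < ε) : ∃ X0 : ℕ, ∀ X : ℕ, X0 ≤ X →
    ∀ (P : M2) (β α : ℝ), P 0 0 * P 1 1 - P 0 1 * P 1 0 = 1 → 0 < P 1 1 → P 1 1 < 2 * P 1 0 →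
    Rep P β α → X / Real.sqrt (Real.log X) ≤ P 1 0 →
    (P 1 0 : ℝ) ≤ W * (X / Real.sqrt (Real.log X)) → Good X P →
    |VL α X (t * Real.log X / X) - t * X * Real.log X| ≤ ε * X * Real.log X := by
  obtain ⟨X1, hX1⟩ := MT W t (ε / 2) hW ht (by positivity)
  have hlog : Filter.Tendsto (fun X : ℕ => Real.log X) Filter.atTop Filter.atTop :=
    Real.tendsto_log_atTop.comp tendsto_natCast_atTop_atTop
  have hsm : Filter.Tendsto (fun X : ℕ => Real.log X / X) Filter.atTop (nhds 0) :=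
    (Real.isLittleO_log_id_atTop.tendsto_div_nhds_zero).comp tendsto_natCast_atTop_atTop
  have ev1 := hlog.eventually_ge_atTop (1 + (2 + 4 * t * W) ^ 2 + 2 * (5 + 8 * t * W) ^ 2 / ε)
  have ev2 : ∀ᶠ X : ℕ in Filter.atTop, Real.log X / X < 1 / (2 * t) :=
    hsm.eventually_lt_const (by positivity)
  obtain ⟨X2, hX2⟩ := Filter.eventually_atTop.1 (ev1.and (ev2.and (Filter.eventually_gt_atTop 0)))
  refine ⟨max X1 X2, fun X hX P β α hdet hD hDC hR hC1 hC2 hG => ?_⟩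
  obtain ⟨hL, hδ, hX0⟩ := hX2 X (le_trans (le_max_right _ _) hX)
  have hMT := hX1 X (le_trans (le_max_left _ _) hX) P β hdet hD hDC hR.1 hR.2.1 hC1 hC2
  have hWp : 0 < W := by linarith
  have htW : 0 < t * W := by positivity
  set L := Real.log X with hLdef
  have hXr : (0 : ℝ) < X := by exact_mod_cast hX0
  have hpos1 : 0 ≤ 2 * (5 + 8 * t * W) ^ 2 / ε := by positivity
  have hpos2 : 0 ≤ (2 + 4 * t * W) ^ 2 := by positivity
  have hL1 : 1 ≤ L := by linarith
  have hLp : 0 < L := by linarith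
  set S := Real.sqrt L with hSdef
  have hS : 0 < S := Real.sqrt_pos.2 hLp
  have hSS : S * S = L := Real.mul_self_sqrt hLp.le
  have hS1 : 1 ≤ S := by rw [hSdef]; exact Real.one_le_sqrt.2 hL1
  have hCpos : (0 : ℝ) < (P 1 0 : ℝ) := lt_of_lt_of_le (by positivity) hC1
  have hCz : 0 < P 1 0 := by exact_mod_cast hCpos
  have hDr : (0 : ℝ) < (P 1 1 : ℝ) := by exact_mod_cast hD
  have hDr2 : (P 1 1 : ℝ) < 2 * (P 1 0 : ℝ) := by exact_mod_cast hDC
  have hs1 : (P 1 0 : ℝ) ≤ sz P β := by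
    unfold sz
    nlinarith [hR.1, mul_le_mul_of_nonneg_left hR.1 hCpos.le]
  have hs2 : sz P β ≤ 4 * (P 1 0 : ℝ) := by
    unfold sz
    nlinarith [hR.2.1, mul_le_mul_of_nonneg_left hR.2.1 hCpos.le]
  have hs0 : 0 < sz P β := lt_of_lt_of_le hCpos hs1
  have hXs : X / sz P β ≤ S := by
    rw [div_le_iff₀ hs0]
    have h1 : X / S ≤ sz P β := hC1.trans hs1
    rw [div_le_iff₀ hS] at h1
    linarith
  have hw : t * L / X * sz P β ≤ 4 * t * W * S := by
    have h1 : sz P β ≤ 4 * (W * (X / S)) := hs2.trans (by linarith)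
    calc t * L / X * sz P β ≤ t * L / X * (4 * (W * (X / S))) :=
          mul_le_mul_of_nonneg_left h1 (by positivity)
      _ = 4 * t * W * S := by
          rw [← hSS]
          field_simp
  have hw0 : 0 ≤ t * L / X * sz P β := by positivity
  have hδ2 : t * L / X ≤ 1 / 2 := by
    have h1 : t * L / X = t * (L / X) := by ring
    rw [h1]
    have h2 : t * (L / X) ≤ t * (1 / (2 * t)) := mul_le_mul_of_nonneg_left hδ.le ht.le
    have h3 : t * (1 / (2 * t)) = 1 / 2 := by field_simp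
    linarith
  have hδ0 : 0 < t * L / X := by positivity
  -- the coefficients are small
  have hSL : (2 + 4 * t * W) * S ≤ L := by
    have h1 : (2 + 4 * t * W) ≤ S := by
      rw [hSdef]
      apply Real.le_sqrt_of_sq_le
      linarith
    calc (2 + 4 * t * W) * S ≤ S * S := mul_le_mul_of_nonneg_right h1 hS.le
      _ = L := hSS
  have hcoef : ∀ a ∈ Om P β X (t * L / X * sz P β),
      ‖Cor Lam X (lf P a) - Cor (LamR (RX X)) X (lf P a)‖ ≤ X / L := by
    intro a ha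
    obtain ⟨hb1, hb2, hb3⟩ := Om_bound P β X _ hCz hD hR.1 hR.2.1 a ha
    obtain ⟨hm1, hm2, -⟩ := (mem_Om P β X _ hCz hD hR.1 hR.2.1 a).1 ha
    have hb1' : |(a.1 : ℝ)| ≤ L := by
      have h1 : 2 * X / sz P β = 2 * (X / sz P β) := by ring
      rw [h1] at hb1
      linarith
    have hb2' : |(a.2 : ℝ)| ≤ L := by linarith
    refine hG a hb3 hb1' hb2' ?_
    rw [abs_of_pos hm1]
    exact hm2
  have hcard : ((Om P β X (t * L / X * sz P β)).card : ℝ) ≤ (5 + 8 * t * W) ^ 2 * L := by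
    refine (Om_card P β X _ hCz hD hR.1 hR.2.1 hw0).trans ?_
    have h1 : 4 * X / sz P β + 2 * (t * L / X * sz P β) + 1 ≤ (5 + 8 * t * W) * S := by
      have h2 : 4 * X / sz P β = 4 * (X / sz P β) := by ring
      rw [h2]
      linarith
    have h0 : 0 ≤ 4 * X / sz P β + 2 * (t * L / X * sz P β) + 1 := by positivity
    calc (4 * X / sz P β + 2 * (t * L / X * sz P β) + 1) ^ 2 ≤ ((5 + 8 * t * W) * S) ^ 2 :=
          pow_le_pow_left₀ h0 h1 2
      _ = (5 + 8 * t * W) ^ 2 * L := by rw [mul_pow, pow_two S, hSS]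
  have hsum : ((VL α X (t * L / X) : ℝ) : ℂ) =
      ∑ a ∈ Om P β X (t * L / X * sz P β), Cor Lam X (lf P a) := by
    rw [VL_eq]
    exact HS_sum P β α X _ hdet hCz hD hR hδ0 hδ2 (fun h => Cor Lam X h)
  have hdiff : ‖∑ a ∈ Om P β X (t * L / X * sz P β), Cor Lam X (lf P a) -
      ∑ a ∈ Om P β X (t * L / X * sz P β), Cor (LamR (RX X)) X (lf P a)‖ ≤
        (5 + 8 * t * W) ^ 2 * X := by
    rw [← Finset.sum_sub_distrib]
    refine (norm_sum_le_of_le _ hcoef).trans ?_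
    rw [Finset.sum_const, nsmul_eq_mul]
    calc ((Om P β X (t * L / X * sz P β)).card : ℝ) * (X / L)
        ≤ (5 + 8 * t * W) ^ 2 * L * (X / L) := mul_le_mul_of_nonneg_right hcard (by positivity)
      _ = (5 + 8 * t * W) ^ 2 * X := by field_simp
  have hfin : (5 + 8 * t * W) ^ 2 * X ≤ ε / 2 * X * L := by
    have h1 : 2 * (5 + 8 * t * W) ^ 2 / ε ≤ L := by linarith
    rw [div_le_iff₀ hε] at h1
    nlinarith
  have hnorm : |VL α X (t * L / X) - t * X * L| =
      ‖((VL α X (t * L / X) : ℝ) : ℂ) - ((t * X * L : ℝ) : ℂ)‖ := by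
    rw [← Complex.ofReal_sub, Complex.norm_real, Real.norm_eq_abs]
  rw [hnorm, hsum]
  calc ‖∑ a ∈ Om P β X (t * L / X * sz P β), Cor Lam X (lf P a) - ((t * X * L : ℝ) : ℂ)‖
      = ‖(∑ a ∈ Om P β X (t * L / X * sz P β), Cor Lam X (lf P a) -
      ∑ a ∈ Om P β X (t * L / X * sz P β), Cor (LamR (RX X)) X (lf P a)) +
        (∑ a ∈ Om P β X (t * L / X * sz P β), Cor (LamR (RX X)) X (lf P a) -
          ((t * X * L : ℝ) : ℂ))‖ := by
        congr 1
        ring
    _ ≤ _ := norm_add_le _ _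
    _ ≤ ε / 2 * X * L + ε / 2 * X * L := add_le_add (hdiff.trans hfin) hMT
    _ = ε * X * L := by ring

end Pool.Agent.H1.PP
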