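import Pool.Agent.H1.PP.BC
import Pool.Agent.H1.PP.DT

/-!
# PP-37 AsA: the weighted pair count for almost all numbers

PROOF.  Fix `ω` in the set of full measure of `BC`, `α = al (w ω)`.  For large `j` let `X = Xj j`, `L = log X`, `U = X/√L`, and let `K`
be minimal with `C_K := Pk (w ω) (10 K) 1 0 ≥ U` (exists since `C_K → ∞` by `Wd_lower`).  `K ≥ 1`.  Claim `C_K ≤ 2^(102 s) U`.
`Pk (w ω) (10 K) = Pk (w ω) (10 (K-1)) * G` with `G ∈ Wd s 10` (`Pk_split`), entries of `G` are at most `2^(100 s)/2`.  If `K = 1`,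
`C_1 ≤ 2^(100 s) ≤ 2^(102 s) U`.  If `K ≥ 2` then with `c = C_{K-1} < U` and `d = Pk (w ω) (10 (K-1)) 1 1 < 2 c` (`Wd_ratio`),
`C_K ≤ (c + d) 2^(100 s)/2 ≤ 3 U 2^(100 s)`.  So `BC` gives `Good X P` for `P = Pk (w ω) (10 K)`, and `DT` with `W = 2^(102 s)`,
`β` from `al_rep`, applies for every `ε > 0`.  (`Wd_det`, `Wd_ratio`, `Wd_diag` for the side conditions.)
-/

set_option autoImplicit false

open Finset MeasureTheory

namespace Pool.Agent.H1.PP

open Pool.Agent.H10.RP (ee nd Lam)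

theorem asA_lower (s : ℕ) (hs : 1 ≤ s) (ω : ℕ → M2) (hω : ∀ k, ω k ∈ Lt s) (K : ℕ) :
    (2 : ℤ) ^ (K + 1) ≤ Pk ω (10 * (K + 1)) 1 0 := by
  have h1 := Wd_lower s (10 * (K + 1)) hs (by omega) _ (Pk_mem s ω hω (10 * (K + 1))) 1 0
  have h2 : (16 : ℤ) ^ (10 * (K + 1)) ≤ 2 ^ (10 * s * (10 * (K + 1))) := by
    have : (16 : ℤ) ^ (10 * (K + 1)) = 2 ^ (4 * (10 * (K + 1))) := by
      rw [pow_mul 2 4]
      norm_num
    rw [this]
    apply pow_le_pow_right₀ (by norm_num)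
    nlinarith
  have h3 : (16 : ℤ) ^ (10 * (K + 1)) = 8 ^ (10 * (K + 1)) * 2 ^ (10 * (K + 1)) := by
    rw [← mul_pow]
    norm_num
  rw [h3] at h2
  have h4 : (2 : ℤ) ^ (10 * (K + 1)) ≤ Pk ω (10 * (K + 1)) 1 0 :=
    le_of_mul_le_mul_left (h2.trans h1) (by positivity)
  exact (pow_le_pow_right₀ (by norm_num) (by omega)).trans h4

/-- the choice of the prefix -/
theorem asA_K (s : ℕ) (hs : 1 ≤ s) (ω : ℕ → M2) (hω : ∀ k, ω k ∈ Lt s) (U : ℝ) (hU : 1 ≤ U) :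
    ∃ K : ℕ, 1 ≤ K ∧ U ≤ Pk ω (10 * K) 1 0 ∧ (Pk ω (10 * K) 1 0 : ℝ) ≤ 2 ^ (102 * s) * U := by
  classical
  have hex : ∃ K : ℕ, U ≤ (Pk ω (10 * K) 1 0 : ℝ) := by
    obtain ⟨K, hK⟩ := pow_unbounded_of_one_lt U (by norm_num : (1 : ℝ) < 2)
    refine ⟨K + 1, ?_⟩
    have h1 : (2 : ℝ) ^ (K + 1) ≤ Pk ω (10 * (K + 1)) 1 0 := by
      exact_mod_cast asA_lower s hs ω hω K
    have h2 : (2 : ℝ) ^ K ≤ 2 ^ (K + 1) := pow_le_pow_right₀ (by norm_num) (by omega)
    linarith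
  have hspec := Nat.find_spec hex
  have hmin := fun j (hj : j < Nat.find hex) => Nat.find_min hex hj
  set K := Nat.find hex with hK
  have hK1 : 1 ≤ K := by
    by_contra hc
    have h0 : K = 0 := by omega
    rw [h0] at hspec
    have h1 : Pk ω (10 * 0) 1 0 = 0 := by
      change (1 : M2) 1 0 = 0
      simp
    rw [h1] at hspec
    push_cast at hspec
    linarith
  refine ⟨K, hK1, hspec, ?_⟩
  have hpow : (2 : ℝ) ^ (102 * s) = 2 ^ (100 * s) * 2 ^ (2 * s) := by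
    rw [← pow_add]
    congr 1
    ring
  have h2s : (4 : ℝ) ≤ 2 ^ (2 * s) := by
    have : (4 : ℝ) = 2 ^ 2 := by norm_num
    rw [this]
    exact pow_le_pow_right₀ (by norm_num) (by omega)
  have h100 : (0 : ℝ) < 2 ^ (100 * s) := by positivity
  rcases Nat.lt_or_ge 1 K with h1 | h1
  · obtain ⟨G, hG, hPG⟩ := Pk_split s ω hω (10 * (K - 1)) 10
    have e0 : 10 * (K - 1) + 10 = 10 * K := by omega
    rw [e0] at hPG
    have hc := hmin (K - 1) (by omega)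
    rw [not_le] at hc
    obtain ⟨-, -, -, -, b5, -⟩ := Wd_ratio s (10 * (K - 1)) (by omega) _
      (Pk_mem s ω hω (10 * (K - 1)))
    have b5' : (Pk ω (10 * (K - 1)) 1 1 : ℝ) < 2 * Pk ω (10 * (K - 1)) 1 0 := by
      exact_mod_cast b5
    have g0 : 2 * (G 0 0 : ℝ) ≤ 2 ^ (100 * s) := by
      have := Wd_upper s 10 hs (by norm_num) G hG 0 0
      rw [show 10 * s * 10 = 100 * s by ring] at this
      exact_mod_cast this
    have g1 : 2 * (G 1 0 : ℝ) ≤ 2 ^ (100 * s) := by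
      have := Wd_upper s 10 hs (by norm_num) G hG 1 0
      rw [show 10 * s * 10 = 100 * s by ring] at this
      exact_mod_cast this
    have c0 : (0 : ℝ) ≤ Pk ω (10 * (K - 1)) 1 0 := by
      exact_mod_cast Wd_nonneg s _ _ (Pk_mem s ω hω (10 * (K - 1))) 1 0
    have d0 : (0 : ℝ) ≤ Pk ω (10 * (K - 1)) 1 1 := by
      exact_mod_cast Wd_nonneg s _ _ (Pk_mem s ω hω (10 * (K - 1))) 1 1
    have e1 : (Pk ω (10 * K) 1 0 : ℝ) = Pk ω (10 * (K - 1)) 1 0 * G 0 0 +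
        Pk ω (10 * (K - 1)) 1 1 * G 1 0 := by
      rw [hPG, Matrix.mul_apply, Fin.sum_univ_two]
      push_cast
      ring
    rw [e1, hpow]
    set M : ℝ := 2 ^ (100 * s) with hM
    have f1 : (Pk ω (10 * (K - 1)) 1 0 : ℝ) * G 0 0 ≤ U * (M / 2) :=
      (mul_le_mul_of_nonneg_left (by linarith : (G 0 0 : ℝ) ≤ M / 2) c0).trans
        (mul_le_mul_of_nonneg_right hc.le (by positivity))
    have f2 : (Pk ω (10 * (K - 1)) 1 1 : ℝ) * G 1 0 ≤ 2 * U * (M / 2) :=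
      (mul_le_mul_of_nonneg_left (by linarith : (G 1 0 : ℝ) ≤ M / 2) d0).trans
        (mul_le_mul_of_nonneg_right (by linarith) (by positivity))
    have f3 : M * 4 * U ≤ M * 2 ^ (2 * s) * U :=
      mul_le_mul_of_nonneg_right (mul_le_mul_of_nonneg_left h2s h100.le) (by linarith)
    nlinarith
  · have h2 : K = 1 := by omega
    rw [h2]
    have h3 : 2 * (Pk ω (10 * 1) 1 0 : ℝ) ≤ 2 ^ (100 * s) := by
      have := Wd_upper s (10 * 1) hs (by norm_num) _ (Pk_mem s ω hω (10 * 1)) 1 0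
      rw [show 10 * s * (10 * 1) = 100 * s by ring] at this
      exact_mod_cast this
    rw [hpow]
    set M : ℝ := 2 ^ (100 * s) with hM
    have f3 : M * 1 * 1 ≤ M * 2 ^ (2 * s) * U :=
      mul_le_mul (mul_le_mul_of_nonneg_left (by linarith) h100.le) hU zero_le_one (by positivity)
    nlinarith

theorem VL_lim {Ω : Type} [MeasurableSpace Ω] (s : ℕ) (hs : 50 ≤ s) (μ : Measure Ω)
    [IsProbabilityMeasure μ] (w : Ω → ℕ → M2) (hw : IsModel s μ w) :
    ∀ᵐ ω ∂μ, ∀ t : ℝ, 0 < t → Filter.Tendsto (fun j : ℕ =>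
      VL (al (w ω)) (Xj j) (t * Real.log (Xj j) / Xj j) / (Xj j * Real.log (Xj j)))
      Filter.atTop (nhds t) := by
  have hs1 : 1 ≤ s := by omega
  filter_upwards [BC s hs μ w hw] with ω hω t ht
  rw [Metric.tendsto_atTop]
  intro ε hε
  obtain ⟨X0, hX0⟩ := DT (2 ^ (102 * s)) t (ε / 2) (one_le_pow₀ (by norm_num)) ht (by positivity)
  have hev := hω.and (Xj_tendsto.eventually_ge_atTop (max X0 3))
  obtain ⟨j0, hj0⟩ := Filter.eventually_atTop.1 hev
  refine ⟨j0, fun j hj => ?_⟩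
  obtain ⟨h1, h2⟩ := hj0 j hj
  have hX3 : 3 ≤ Xj j := (le_max_right _ _).trans h2
  have hXX0 : X0 ≤ Xj j := (le_max_left _ _).trans h2
  set X := Xj j with hX
  have hXr : (3 : ℝ) ≤ X := by exact_mod_cast hX3
  have hL1 : 1 ≤ Real.log X := by
    rw [Real.le_log_iff_exp_le (by linarith)]
    linarith [Real.exp_one_lt_d9]
  have hLX : Real.log X ≤ X := (Real.log_le_sub_one_of_pos (by linarith)).trans (by linarith)
  have hsq0 : 0 < Real.sqrt (Real.log X) := Real.sqrt_pos.2 (by linarith)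
  have hsqL : Real.sqrt (Real.log X) ≤ Real.log X := by
    rw [Real.sqrt_le_left (by linarith)]
    nlinarith
  have hU : 1 ≤ (X : ℝ) / Real.sqrt (Real.log X) := by
    rw [le_div_iff₀ hsq0]
    linarith
  obtain ⟨K, hK1, hK2, hK3⟩ := asA_K s hs1 (w ω) (hw.1 ω) _ hU
  have hgood := h1 K hK2 hK3
  obtain ⟨β, hβ⟩ := al_rep s hs1 (w ω) (hw.1 ω) (10 * K)
  have hmem := Pk_mem s (w ω) (hw.1 ω) (10 * K)
  obtain ⟨-, -, -, -, b5, -⟩ := Wd_ratio s (10 * K) (by omega) _ hmem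
  have h3 := hX0 X hXX0 (Pk (w ω) (10 * K)) β (al (w ω)) (Wd_det s _ _ hmem)
    (by
      have := (Wd_diag s _ _ hmem).2
      omega) b5 hβ hK2 hK3 hgood
  have hXL : 0 < (X : ℝ) * Real.log X := by positivity
  rw [Real.dist_eq]
  have e1 : VL (al (w ω)) X (t * Real.log X / X) / (X * Real.log X) - t =
      (VL (al (w ω)) X (t * Real.log X / X) - t * X * Real.log X) / (X * Real.log X) := by
    field_simp
  rw [e1, abs_div, abs_of_pos hXL, div_lt_iff₀ hXL]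
  have h4 : ε / 2 * X * Real.log X = ε / 2 * (X * Real.log X) := by ring
  rw [h4] at h3
  have h5 : ε / 2 * (X * Real.log X) < ε * (X * Real.log X) :=
    mul_lt_mul_of_pos_right (by linarith) hXL
  exact h3.trans_lt h5

end Pool.Agent.H1.PP
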