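import Pool.Agent.H1.PP.RowD

/-!
# PP-04 AvL: averages over words

All by induction on the number of letters from the recursion of `Av` (`Av_eq_sum` uses `Wd_inj`).
`Av_split`: `Av (m + (n+1)) f = (1/N) ∑_g Av (m+n) (P ↦ f (P g)) = (1/N) ∑_g Av n (G ↦ Av m (P ↦ f (P G g)))`.
`Av_sq` is Cauchy's inequality (for instance from `Av_eq_sum`), `Av_markov` is Markov's inequality.
-/

set_option autoImplicit false

open Finset

namespace Pool.Agent.H1.PP

open Pool.Agent.H10.RP (ee nd Lam)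

variable {E : Type*} [NormedAddCommGroup E] [NormedSpace ℝ E]

theorem Av_split (s m n : ℕ) (f : M2 → E) :
    Av s (m + n) f = Av s n (fun G => Av s m (fun P => f (P * G))) := by
  induction n generalizing f with
  | zero =>
    show Av s m f = Av s m (fun P => f (P * 1))
    simp only [mul_one]
  | succ n ih =>
    show ((Lt s).card : ℝ)⁻¹ • ∑ g ∈ Lt s, Av s (m + n) (fun P => f (P * g)) =
      ((Lt s).card : ℝ)⁻¹ • ∑ g ∈ Lt s, Av s n (fun G => Av s m (fun P => f (P * (G * g))))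
    congr 1
    refine Finset.sum_congr rfl fun g _ => ?_
    rw [ih]
    simp only [mul_assoc]

theorem Av_congr (s n : ℕ) (f g : M2 → E) (h : ∀ P ∈ Wd s n, f P = g P) : Av s n f = Av s n g := by
  induction n generalizing f g with
  | zero => exact h 1 (by simp [Wd])
  | succ n ih =>
    show ((Lt s).card : ℝ)⁻¹ • ∑ a ∈ Lt s, Av s n (fun P => f (P * a)) =
      ((Lt s).card : ℝ)⁻¹ • ∑ a ∈ Lt s, Av s n (fun P => g (P * a))
    congr 1
    refine Finset.sum_congr rfl fun a ha => ?_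
    exact ih _ _ fun P hP => h _ ((mem_Wd_succ s n _).2 ⟨P, hP, a, ha, rfl⟩)

theorem Av_eq_sum (s n : ℕ) (f : M2 → E) :
    Av s n f = (((Lt s).card : ℝ) ^ n)⁻¹ • ∑ P ∈ Wd s n, f P := by
  induction n generalizing f with
  | zero =>
    show f 1 = _
    simp [Wd]
  | succ n ih =>
    show ((Lt s).card : ℝ)⁻¹ • ∑ a ∈ Lt s, Av s n (fun P => f (P * a)) =
      (((Lt s).card : ℝ) ^ (n + 1))⁻¹ • ∑ P ∈ (Wd s n ×ˢ Lt s).image (fun t => t.1 * t.2), f P
    rw [Finset.sum_image, Finset.sum_product_right]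
    · simp only [ih]
      rw [← Finset.smul_sum, smul_smul, pow_succ, mul_inv, mul_comm]
    · rintro ⟨P, g⟩ h1 ⟨P', g'⟩ h2 h
      have a1 := Finset.mem_product.1 (Finset.mem_coe.1 h1)
      have a2 := Finset.mem_product.1 (Finset.mem_coe.1 h2)
      have := Wd_inj s n P P' g g' a1.1 a2.1 a1.2 a2.2 h
      rw [this.1, this.2]

theorem Av_add (s n : ℕ) (f g : M2 → E) : Av s n (fun P => f P + g P) = Av s n f + Av s n g := by
  rw [Av_eq_sum, Av_eq_sum, Av_eq_sum, Finset.sum_add_distrib, smul_add]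

theorem Av_smul (s n : ℕ) (c : ℝ) (f : M2 → E) : Av s n (fun P => c • f P) = c • Av s n f := by
  rw [Av_eq_sum, Av_eq_sum, ← Finset.smul_sum, smul_comm]

theorem Av_cmul (s n : ℕ) (c : ℂ) (f : M2 → ℂ) : Av s n (fun P => c * f P) = c * Av s n f := by
  rw [Av_eq_sum, Av_eq_sum, ← Finset.mul_sum, mul_smul_comm]

theorem Av_sum {ι : Type*} (s n : ℕ) (S : Finset ι) (f : ι → M2 → E) :
    Av s n (fun P => ∑ i ∈ S, f i P) = ∑ i ∈ S, Av s n (f i) := by
  rw [Av_eq_sum, Finset.sum_comm, Finset.smul_sum]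
  exact Finset.sum_congr rfl fun i _ => (Av_eq_sum s n (f i)).symm

theorem Av_comm (s m n : ℕ) (f : M2 → M2 → E) :
    Av s m (fun P => Av s n (fun G => f P G)) = Av s n (fun G => Av s m (fun P => f P G)) := by
  simp only [Av_eq_sum]
  rw [← Finset.smul_sum, ← Finset.smul_sum, Finset.sum_comm, smul_comm]

theorem norm_Av_le (s n : ℕ) (f : M2 → E) : ‖Av s n f‖ ≤ Av s n (fun P => ‖f P‖) := by
  rw [Av_eq_sum, Av_eq_sum, norm_smul, smul_eq_mul, Real.norm_of_nonneg (by positivity)]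
  exact mul_le_mul_of_nonneg_left (norm_sum_le _ _) (by positivity)

theorem Av_ofReal (s n : ℕ) (f : M2 → ℝ) : Av s n (fun P => (f P : ℂ)) = (Av s n f : ℝ) := by
  rw [Av_eq_sum, Av_eq_sum]
  rw [Complex.real_smul, smul_eq_mul, Complex.ofReal_mul, Complex.ofReal_sum]

theorem Av_mono (s n : ℕ) (f g : M2 → ℝ) (h : ∀ P ∈ Wd s n, f P ≤ g P) : Av s n f ≤ Av s n g := by
  rw [Av_eq_sum, Av_eq_sum, smul_eq_mul, smul_eq_mul]
  exact mul_le_mul_of_nonneg_left (Finset.sum_le_sum h) (by positivity)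

theorem Av_nonneg (s n : ℕ) (f : M2 → ℝ) (h : ∀ P ∈ Wd s n, 0 ≤ f P) : 0 ≤ Av s n f := by
  rw [Av_eq_sum, smul_eq_mul]
  exact mul_nonneg (by positivity) (Finset.sum_nonneg h)

lemma avl_pos (s : ℕ) (hs : 50 ≤ s) : (0 : ℝ) < (Lt s).card :=
  lt_of_lt_of_le (by positivity) (card_Lt_ge s hs)

theorem Av_const (s n : ℕ) (hs : 50 ≤ s) (c : E) : Av s n (fun _ => c) = c := by
  have h := avl_pos s hs
  have h2 : (((Lt s).card : ℝ) ^ n) ≠ 0 := by positivity
  rw [Av_eq_sum, Finset.sum_const, card_Wd, ← Nat.cast_smul_eq_nsmul ℝ, smul_smul]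
  push_cast
  rw [inv_mul_cancel₀ h2, one_smul]

theorem Av_sq (s n : ℕ) (hs : 50 ≤ s) (f : M2 → ℂ) : ‖Av s n f‖ ^ 2 ≤ Av s n (fun P => ‖f P‖ ^ 2) := by
  have h := avl_pos s hs
  have h2 : 0 < (((Lt s).card : ℝ) ^ n) := by positivity
  have h1 := norm_Av_le s n f
  refine (pow_le_pow_left₀ (norm_nonneg _) h1 2).trans ?_
  rw [Av_eq_sum, Av_eq_sum, smul_eq_mul, smul_eq_mul, mul_pow]
  have h3 := sq_sum_le_card_mul_sum_sq (s := Wd s n) (f := fun P => ‖f P‖)
  rw [card_Wd] at h3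
  push_cast at h3
  calc ((((Lt s).card : ℝ) ^ n)⁻¹) ^ 2 * (∑ P ∈ Wd s n, ‖f P‖) ^ 2
      ≤ ((((Lt s).card : ℝ) ^ n)⁻¹) ^ 2 * (((Lt s).card : ℝ) ^ n * ∑ P ∈ Wd s n, ‖f P‖ ^ 2) :=
        mul_le_mul_of_nonneg_left h3 (by positivity)
    _ = _ := by
      rw [pow_two, mul_assoc, ← mul_assoc _ (((Lt s).card : ℝ) ^ n), inv_mul_cancel₀ h2.ne', one_mul]

/-- average of an indicator function -/
theorem Av_card (s n : ℕ) (p : M2 → Prop) [DecidablePred p] :
    Av s n (fun P => if p P then (1 : ℝ) else 0) =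
      (((Wd s n).filter p).card : ℝ) / ((Lt s).card : ℝ) ^ n := by
  rw [Av_eq_sum, Finset.sum_boole, smul_eq_mul, div_eq_inv_mul]

end Pool.Agent.H1.PP
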