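import Pool.Agent.H1.PP.AvL

/-!
# PP-35 Pm: independent uniform letters

PROOF.  Let `N = card (Lt s) ≥ 1` (`card_Lt_ge`), `Ω = ℕ → Fin N` with the product measure of the uniform probability
measures (`MeasureTheory.Measure.infinitePi (fun _ => ProbabilityTheory.uniformOn Set.univ)` or `PMF.uniformOfFintype`),
`w ω k = ((Lt s).equivFin.symm (ω k) : M2)`.  `Pk (w ω) k` depends only on the first `k` coordinates, a random element of the
finite type `Fin k → Fin N` (or use `Finset.range k → Fin N`), so the event `Pk (w ω) k ∈ S` is a cylinder, measurable, and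
its probability is (number of sequences)`/N^k` (`Measure.infinitePi_cylinder`, `Measure.infinitePi_pi`); or by induction
on `k` using the independence of the `k`-th letter from the first ones.  This is `Av s k (indicator S)` by the recursion.
-/

set_option autoImplicit false

open Finset MeasureTheory

namespace Pool.Agent.H1.PP

open Pool.Agent.H10.RP (ee nd Lam)

/-- `w` is a sequence of independent uniform letters -/
def IsModel {Ω : Type} [MeasurableSpace Ω] (s : ℕ) (μ : Measure Ω) (w : Ω → ℕ → M2) : Prop :=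
  (∀ ω k, w ω k ∈ Lt s) ∧ ∀ (k : ℕ) (S : Set M2), MeasurableSet {ω | Pk (w ω) k ∈ S} ∧
    μ {ω | Pk (w ω) k ∈ S} = ENNReal.ofReal (Av s k (Set.indicator S (fun _ => (1 : ℝ))))

section pm

variable (s : ℕ)

instance pmMeas : MeasurableSpace {g : M2 // g ∈ Lt s} := ⊤

instance pmSing : MeasurableSingletonClass {g : M2 // g ∈ Lt s} := ⟨fun _ => trivial⟩

/-- the uniform measure on the letters -/
noncomputable def pmU : Measure {g : M2 // g ∈ Lt s} :=
  ((Lt s).card : ENNReal)⁻¹ • Measure.count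

theorem pmU_prob (h : 0 < (Lt s).card) : IsProbabilityMeasure (pmU s) := by
  constructor
  rw [pmU, Measure.smul_apply, Measure.count_univ]
  have h1 : ENat.card {g : M2 // g ∈ Lt s} = ((Lt s).card : ℕ∞) := by
    rw [ENat.card_eq_coe_fintype_card, Fintype.card_coe]
  rw [h1, smul_eq_mul]
  have h2 : (((Lt s).card : ℕ∞) : ENNReal) = ((Lt s).card : ENNReal) := by simp
  rw [h2]
  exact ENNReal.inv_mul_cancel (by exact_mod_cast h.ne') (ENNReal.natCast_ne_top _)

theorem pmU_single (a : {g : M2 // g ∈ Lt s}) : pmU s {a} = ((Lt s).card : ENNReal)⁻¹ := by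
  rw [pmU, Measure.smul_apply, Measure.count_singleton, smul_eq_mul, mul_one]

theorem pm_coord (k : ℕ) (g : {g : M2 // g ∈ Lt s}) :
    MeasurableSet {ω : ℕ → {g : M2 // g ∈ Lt s} | ω k = g} := by
  have h : {ω : ℕ → {g : M2 // g ∈ Lt s} | ω k = g} = (fun ω => ω k) ⁻¹' {g} := by
    ext ω; simp
  rw [h]
  exact (measurable_pi_apply k) (measurableSet_singleton g)

/-- the letters as a sequence of matrices -/
def pmw (ω : ℕ → {g : M2 // g ∈ Lt s}) (k : ℕ) : M2 := (ω k : M2)

theorem pm_decomp (k : ℕ) (S : Set M2) :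
    {ω : ℕ → {g : M2 // g ∈ Lt s} | Pk (pmw s ω) (k + 1) ∈ S} =
      ⋃ g : {g : M2 // g ∈ Lt s}, ({ω | Pk (pmw s ω) k ∈ {P : M2 | P * (g : M2) ∈ S}} ∩ {ω | ω k = g}) := by
  ext ω
  simp only [Set.mem_setOf_eq, Set.mem_iUnion, Set.mem_inter_iff, Pk, pmw]
  constructor
  · intro h
    exact ⟨ω k, h, rfl⟩
  · rintro ⟨g, h, rfl⟩
    exact h

theorem pm_measurable (k : ℕ) : ∀ S : Set M2,
    MeasurableSet {ω : ℕ → {g : M2 // g ∈ Lt s} | Pk (pmw s ω) k ∈ S} := by
  induction k with
  | zero =>
    intro S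
    simp only [Pk]
    exact MeasurableSet.const _
  | succ k ih =>
    intro S
    rw [pm_decomp]
    exact MeasurableSet.iUnion fun g => (ih _).inter (pm_coord s k g)

theorem pm_av_nonneg (k : ℕ) : ∀ S : Set M2, 0 ≤ Av s k (Set.indicator S (fun _ => (1 : ℝ))) := by
  induction k with
  | zero =>
    intro S
    simp only [Av]
    exact Set.indicator_nonneg (fun _ _ => zero_le_one) _
  | succ k ih =>
    intro S
    simp only [Av, smul_eq_mul]
    refine mul_nonneg (by positivity) (Finset.sum_nonneg fun g _ => ?_)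
    exact ih {P : M2 | P * g ∈ S}

theorem pm_measure (h : 0 < (Lt s).card) [IsProbabilityMeasure (pmU s)] (k : ℕ) :
    ∀ (S : Set M2) (t : Finset ℕ) (a : ℕ → {g : M2 // g ∈ Lt s}), (∀ i ∈ t, k ≤ i) →
    Measure.infinitePi (fun _ : ℕ => pmU s)
      ({ω | Pk (pmw s ω) k ∈ S} ∩ {ω | ∀ i ∈ t, ω i = a i}) =
    ENNReal.ofReal (Av s k (Set.indicator S (fun _ => (1 : ℝ)))) *
      (((Lt s).card : ENNReal)⁻¹) ^ t.card := by
  induction k with
  | zero =>
    intro S t a _
    have e1 : {ω : ℕ → {g : M2 // g ∈ Lt s} | ∀ i ∈ t, ω i = a i} =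
        Set.pi (t : Set ℕ) (fun i => {a i}) := by
      ext ω
      simp [Set.mem_pi]
    have e2 : Measure.infinitePi (fun _ : ℕ => pmU s) (Set.pi (t : Set ℕ) (fun i => {a i})) =
        (((Lt s).card : ENNReal)⁻¹) ^ t.card := by
      rw [Measure.infinitePi_pi (μ := fun _ : ℕ => pmU s) (fun i _ => measurableSet_singleton (a i))]
      rw [Finset.prod_congr rfl (fun i _ => pmU_single s (a i)), Finset.prod_const]
    simp only [Pk, Av]
    by_cases h1 : (1 : M2) ∈ S
    · rw [Set.indicator_of_mem h1]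
      have : {ω : ℕ → {g : M2 // g ∈ Lt s} | (1 : M2) ∈ S} = Set.univ := by
        ext; simp [h1]
      rw [this, Set.univ_inter, e1, e2]
      simp
    · rw [Set.indicator_of_notMem h1]
      have : {ω : ℕ → {g : M2 // g ∈ Lt s} | (1 : M2) ∈ S} = ∅ := by
        ext; simp [h1]
      rw [this, Set.empty_inter]
      simp
  | succ k ih =>
    intro S t a ht
    have hk : k ∉ t := fun hk => by have := ht k hk; omega
    rw [pm_decomp, Set.iUnion_inter]
    have hdisj : Pairwise (Function.onFun Disjoint (fun g : {g : M2 // g ∈ Lt s} =>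
        ({ω : ℕ → {g : M2 // g ∈ Lt s} | Pk (pmw s ω) k ∈ {P : M2 | P * (g : M2) ∈ S}} ∩
          {ω | ω k = g}) ∩ {ω | ∀ i ∈ t, ω i = a i})) := by
      intro g g' hgg
      refine Set.disjoint_left.2 ?_
      rintro ω ⟨⟨-, h1⟩, -⟩ ⟨⟨-, h2⟩, -⟩
      exact hgg (h1.symm.trans h2)
    have hmeas : ∀ g : {g : M2 // g ∈ Lt s}, MeasurableSet
        (({ω : ℕ → {g : M2 // g ∈ Lt s} | Pk (pmw s ω) k ∈ {P : M2 | P * (g : M2) ∈ S}} ∩
          {ω | ω k = g}) ∩ {ω | ∀ i ∈ t, ω i = a i}) := by
      intro g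
      refine ((pm_measurable s k _).inter (pm_coord s k g)).inter ?_
      have e1 : {ω : ℕ → {g : M2 // g ∈ Lt s} | ∀ i ∈ t, ω i = a i} =
          ⋂ i ∈ t, {ω | ω i = a i} := by
        ext ω; simp
      rw [e1]
      exact Finset.measurableSet_biInter t fun i _ => pm_coord s i (a i)
    rw [measure_iUnion hdisj hmeas, tsum_fintype]
    have hterm : ∀ g : {g : M2 // g ∈ Lt s}, Measure.infinitePi (fun _ : ℕ => pmU s)
        (({ω : ℕ → {g : M2 // g ∈ Lt s} | Pk (pmw s ω) k ∈ {P : M2 | P * (g : M2) ∈ S}} ∩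
          {ω | ω k = g}) ∩ {ω | ∀ i ∈ t, ω i = a i}) =
        ENNReal.ofReal (Av s k (fun P => Set.indicator S (fun _ => (1 : ℝ)) (P * (g : M2)))) *
          (((Lt s).card : ENNReal)⁻¹) ^ (t.card + 1) := by
      intro g
      have e1 : ({ω : ℕ → {g : M2 // g ∈ Lt s} | Pk (pmw s ω) k ∈ {P : M2 | P * (g : M2) ∈ S}} ∩
          {ω | ω k = g}) ∩ {ω | ∀ i ∈ t, ω i = a i} =
          {ω | Pk (pmw s ω) k ∈ {P : M2 | P * (g : M2) ∈ S}} ∩
            {ω | ∀ i ∈ insert k t, ω i = Function.update a k g i} := by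
        ext ω
        simp only [Set.mem_inter_iff, Set.mem_setOf_eq, Finset.mem_insert, forall_eq_or_imp,
          Function.update_self, and_assoc]
        refine and_congr_right fun _ => and_congr_right fun _ => ?_
        refine forall_congr' fun i => ?_
        constructor
        · intro h2 h3
          have hne : i ≠ k := by rintro rfl; exact hk h3
          rw [Function.update_of_ne hne]
          exact h2 h3
        · intro h2 h3
          have hne : i ≠ k := by rintro rfl; exact hk h3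
          have h5 := h2 h3
          rwa [Function.update_of_ne hne] at h5
      rw [e1, ih _ (insert k t) (Function.update a k g) (by
        intro i hi
        rcases Finset.mem_insert.1 hi with rfl | hi
        · exact le_rfl
        · exact (Nat.le_succ k).trans (ht i hi))]
      rw [Finset.card_insert_of_notMem hk]
      rfl
    rw [Finset.sum_congr rfl fun g _ => hterm g]
    rw [← Finset.sum_mul]
    have e3 : ∑ g : {g : M2 // g ∈ Lt s},
        ENNReal.ofReal (Av s k (fun P => Set.indicator S (fun _ => (1 : ℝ)) (P * (g : M2)))) =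
        ENNReal.ofReal (∑ g ∈ Lt s, Av s k (fun P => Set.indicator S (fun _ => (1 : ℝ)) (P * g))) := by
      have e4 : ∀ g ∈ Lt s, 0 ≤ Av s k (fun P => Set.indicator S (fun _ => (1 : ℝ)) (P * g)) :=
        fun g _ => pm_av_nonneg s k {P : M2 | P * g ∈ S}
      rw [ENNReal.ofReal_sum_of_nonneg e4]
      exact (Finset.sum_coe_sort (Lt s) (fun g =>
        ENNReal.ofReal (Av s k (fun P => Set.indicator S (fun _ => (1 : ℝ)) (P * g)))))
    rw [e3]
    simp only [Av, smul_eq_mul]
    rw [ENNReal.ofReal_mul (by positivity), ENNReal.ofReal_inv_of_pos (by exact_mod_cast h),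
      ENNReal.ofReal_natCast, pow_succ]
    ring

end pm

theorem exists_model (s : ℕ) (hs : 50 ≤ s) : ∃ (Ω : Type) (_ : MeasurableSpace Ω) (μ : Measure Ω)
    (_ : IsProbabilityMeasure μ) (w : Ω → ℕ → M2), IsModel s μ w := by
  have hc : 0 < (Lt s).card := by
    have h1 := card_Lt_ge s hs
    have h2 : (0 : ℝ) < (Lt s).card := lt_of_lt_of_le (by positivity) h1
    exact_mod_cast h2
  have := pmU_prob s hc
  refine ⟨ℕ → {g : M2 // g ∈ Lt s}, inferInstance, Measure.infinitePi (fun _ : ℕ => pmU s),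
    inferInstance, pmw s, fun ω k => (ω k).2, fun k S => ⟨pm_measurable s k S, ?_⟩⟩
  have : Nonempty {g : M2 // g ∈ Lt s} := by
    obtain ⟨g, hg⟩ := Finset.card_pos.1 hc
    exact ⟨⟨g, hg⟩⟩
  have := pm_measure s hc k S ∅ (fun _ => Classical.arbitrary _) (by simp)
  simpa using this

end Pool.Agent.H1.PP
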