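import Pool.Agent.H1.PP.TSq
import Pool.Agent.H1.PP.Pm
import Pool.Agent.H1.PP.Al

/-!
# PP-36 BC: Borel-Cantelli

`T = 2^s`, `X = Xj j = ⌊exp √j⌋`, `L = log X` (`√j - 1 ≤ L ≤ √j` for large `j`), `U = X/√L`.

PROOF.  Let `E_j` be the event that for some `K` with `U ≤ C ≤ T^102 U` (`C = P 1 0`, `P = Pk (w ω) (10 K)`), `Good X P` fails.
(1) `K ≥ 1` (for `K = 0`, `C = 0`), and `K ≤ L`: `T^(100 K)/8^(10 K) ≤ C ≤ T^102 X` (`Wd_lower`), so
`K (100 s log 2 - 30 log 2) ≤ L + 102 s log 2` and `K ≤ L` for large `X`.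
(2) Cover: `R = ⌊U/16⌋`, so `R ≥ X/L` for large `X`.  `P ∈ Wd s (10 K)`: `U ≤ C`, `U/4 ≤ D ≤ 2 C ≤ 2 T^102 U` (`Wd_ratio`).  There are
integers `i1, i2` with `m1 = i1 R`, `m2 = i2 R`, `2 |C - m1| ≤ R`, `2 |D - m2| ≤ R`, so `bmp R m1 m2 P ≥ 1/4` (`tri_ge_half`), and
`2 ≤ i1, i2 ≤ T^110` (`C, D ≥ 4 R`; `C, D ≤ 2 T^102 * 17 R ≤ T^110 R / 2`).
(3) If `Good X P` fails there is `a ≠ 0`, `|a_i| ≤ L`, `|lf P a| < X` with `‖Cor Lam X (lf P a) - Cor (LamR (RX X)) X (lf P a)‖ > X/L`.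
For fixed `K, i1, i2, a` the probability of this together with `bmp ≥ 1/4` is at most
`4 (L/X)² Av (bmp * ‖...‖²) ≤ 4 (L/X)² C X²/L^8 = 4 C L^(-6)` (Markov, `TSq`, `IsModel`).
(4) Union: `K ≤ L`, `(2 L + 1)²` values of `a`, `T^220` pairs `(i1, i2)`: `μ(E_j) ≤ C' L^(-3) ≤ C'' j^(-3/2)`, summable.
`MeasureTheory.measure_limsup_atTop_eq_zero` or `ae_eventually_notMem`.
-/

set_option autoImplicit false

open Finset MeasureTheory

namespace Pool.Agent.H1.PP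

open Pool.Agent.H10.RP (ee nd Lam)

theorem Xj_tendsto : Filter.Tendsto Xj Filter.atTop Filter.atTop :=
  tendsto_nat_floor_atTop.comp (Real.tendsto_exp_atTop.comp
    (Real.tendsto_sqrt_atTop.comp tendsto_natCast_atTop_atTop))

/-- the bad words -/
def bc_S (s X : ℕ) : Set M2 :=
  {P | (X : ℝ) / Real.sqrt (Real.log X) ≤ P 1 0 ∧
    (P 1 0 : ℝ) ≤ 2 ^ (102 * s) * ((X : ℝ) / Real.sqrt (Real.log X)) ∧ ¬ Good X P}

/-- the coefficients -/
noncomputable def bc_A (L : ℝ) : Finset (ℤ × ℤ) :=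
  ((Icc (-⌊L⌋) ⌊L⌋) ×ˢ (Icc (-⌊L⌋) ⌊L⌋)).erase 0

/-- the squared deviation -/
noncomputable def bc_F (X : ℕ) (a : ℤ × ℤ) (P : M2) : ℝ :=
  if |lf P a| < (X : ℤ) then
    ‖Cor Lam X (lf P a) - Cor (LamR (RX X)) X (lf P a)‖ ^ 2 else 0

theorem bc_F_nonneg (X : ℕ) (a : ℤ × ℤ) (P : M2) : 0 ≤ bc_F X a P := by
  unfold bc_F
  split_ifs
  · positivity
  · exact le_rfl

theorem bc_mem_A (L : ℝ) (a : ℤ × ℤ) : a ∈ bc_A L ↔ a ≠ 0 ∧ |(a.1 : ℝ)| ≤ L ∧ |(a.2 : ℝ)| ≤ L := by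
  have h : ∀ x : ℤ, (x ∈ Icc (-⌊L⌋) ⌊L⌋) ↔ |(x : ℝ)| ≤ L := by
    intro x
    rw [mem_Icc, abs_le, Int.le_floor, neg_le, Int.le_floor, neg_le]
    push_cast
    constructor
    · rintro ⟨h1, h2⟩
      exact ⟨by linarith, h2⟩
    · rintro ⟨h1, h2⟩
      exact ⟨by linarith, h2⟩
  rw [bc_A, mem_erase, mem_product, h, h]

theorem bc_card_A (L : ℝ) (hL : 1 ≤ L) : ((bc_A L).card : ℝ) ≤ 9 * L ^ 2 := by
  have h1 : (bc_A L).card ≤ ((Icc (-⌊L⌋) ⌊L⌋) ×ˢ (Icc (-⌊L⌋) ⌊L⌋)).card := by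
    unfold bc_A
    exact card_erase_le
  have h0 : (1 : ℤ) ≤ ⌊L⌋ := Int.le_floor.2 (by exact_mod_cast hL)
  have h2 : (((Icc (-⌊L⌋) ⌊L⌋).card : ℕ) : ℝ) ≤ 3 * L := by
    rw [Int.card_Icc]
    have h3 : ((⌊L⌋ + 1 - -⌊L⌋).toNat : ℤ) = 2 * ⌊L⌋ + 1 := by
      rw [Int.toNat_of_nonneg (by omega)]
      ring
    have h4 : (((⌊L⌋ + 1 - -⌊L⌋).toNat : ℕ) : ℝ) = 2 * (⌊L⌋ : ℝ) + 1 := by
      exact_mod_cast congrArg (Int.cast : ℤ → ℝ) h3
    rw [h4]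
    have h5 := Int.floor_le L
    linarith
  have h6 : ((bc_A L).card : ℝ) ≤ (((Icc (-⌊L⌋) ⌊L⌋) ×ˢ (Icc (-⌊L⌋) ⌊L⌋)).card : ℝ) := by
    exact_mod_cast h1
  rw [card_product, Nat.cast_mul] at h6
  have h7 : (0 : ℝ) ≤ (((Icc (-⌊L⌋) ⌊L⌋).card : ℕ) : ℝ) := Nat.cast_nonneg _
  nlinarith

theorem bc_round (R : ℕ) (hR : 1 ≤ R) (x B : ℤ) (h1 : 4 * (R : ℤ) ≤ x) (h2 : x ≤ B * R) :
    ∃ i : ℤ, 2 ≤ i ∧ i ≤ B ∧ 2 * |x - i * R| ≤ R := by
  have hR' : (0 : ℤ) < 2 * R := by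
    have : (1 : ℤ) ≤ R := by exact_mod_cast hR
    linarith
  refine ⟨(2 * x + R) / (2 * R), ?_, ?_, ?_⟩
  · rw [Int.le_ediv_iff_mul_le hR']
    linarith
  · rw [← Int.lt_add_one_iff, Int.ediv_lt_iff_lt_mul hR']
    nlinarith
  · have e1 := Int.mul_ediv_add_emod (2 * x + R) (2 * R)
    have e2 := Int.emod_nonneg (2 * x + R) hR'.ne'
    have e3 := Int.emod_lt_of_pos (2 * x + R) hR'
    set q := (2 * x + R) / (2 * R)
    set m := (2 * x + R) % (2 * R)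
    have e4 : 2 * (x - q * R) = m - R := by linarith
    have e5 : |2 * (x - q * R)| ≤ R := by
      rw [e4, abs_le]
      constructor <;> linarith
    rw [abs_mul] at e5
    exact e5

theorem bc_arith (X : ℕ) (hX : 1024 ≤ X) (hL : 1024 ≤ Real.log X) :
    (X : ℝ) / Real.log X ≤ (⌊(X : ℝ) / Real.sqrt (Real.log X) / 16⌋₊ : ℝ) ∧
    1 ≤ ⌊(X : ℝ) / Real.sqrt (Real.log X) / 16⌋₊ ∧
    16 * (⌊(X : ℝ) / Real.sqrt (Real.log X) / 16⌋₊ : ℝ) ≤ (X : ℝ) / Real.sqrt (Real.log X) ∧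
    (X : ℝ) / Real.sqrt (Real.log X) ≤ 32 * (⌊(X : ℝ) / Real.sqrt (Real.log X) / 16⌋₊ : ℝ) := by
  set L := Real.log X with hLd
  set q := Real.sqrt L with hq
  have hq0 : 0 ≤ q := Real.sqrt_nonneg L
  have hqq : q * q = L := Real.mul_self_sqrt (by linarith)
  have hq32 : 32 ≤ q := by
    by_contra h
    push Not at h
    nlinarith
  have hX' : (1024 : ℝ) ≤ X := by exact_mod_cast hX
  have hLX : L ≤ X := by
    have := Real.log_le_sub_one_of_pos (show (0 : ℝ) < X by linarith)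
    linarith
  have hqX : 32 * q ≤ X := by
    have h1 : 32 * q ≤ q * q := by nlinarith
    linarith
  have hU0 : 0 ≤ (X : ℝ) / q / 16 := by positivity
  have hf1 := Nat.floor_le hU0
  have hf2 := Nat.lt_floor_add_one ((X : ℝ) / q / 16)
  set R := ⌊(X : ℝ) / q / 16⌋₊ with hR
  have e1 : (X : ℝ) / L = X / q / q := by rw [div_div, hqq]
  have e2 : (X : ℝ) / q / q ≤ X / q / 32 := by
    apply div_le_div_of_nonneg_left _ (by norm_num) hq32
    positivity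
  have e3 : 32 ≤ (X : ℝ) / q := by
    rw [le_div_iff₀ (by linarith)]
    exact hqX
  have a1 : (X : ℝ) / L ≤ R := by
    rw [e1]
    refine e2.trans ?_
    linarith
  have a2 : 1 ≤ R := by
    by_contra h
    have h0 : R = 0 := by omega
    rw [h0, Nat.cast_zero] at hf2
    linarith
  have a2' : (1 : ℝ) ≤ R := by exact_mod_cast a2
  exact ⟨a1, a2, by linarith, by linarith⟩

theorem bc_pt (s X K R : ℕ) (hs : 50 ≤ s) (hK : 1 ≤ K) (hX : 1 ≤ X) (hL : 1 ≤ Real.log X)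
    (hR : 1 ≤ R)
    (h16 : 16 * (R : ℝ) ≤ (X : ℝ) / Real.sqrt (Real.log X))
    (h32 : (X : ℝ) / Real.sqrt (Real.log X) ≤ 32 * R) (P : M2) (hP : P ∈ Wd s (10 * K))
    (hS : P ∈ bc_S s X) :
    1 ≤ ∑ i ∈ (Icc (2 : ℤ) (2 ^ (110 * s))) ×ˢ (Icc (2 : ℤ) (2 ^ (110 * s))),
      ∑ a ∈ bc_A (Real.log X), 4 * (Real.log X / X) ^ 2 *
        (bmp R (i.1 * R) (i.2 * R) P * bc_F X a P) := by
  obtain ⟨hS1, hS2, hS3⟩ := hS
  obtain ⟨-, -, -, -, h5, h6⟩ := Wd_ratio s (10 * K) (by omega) P hP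
  set L := Real.log X with hLd
  set U := (X : ℝ) / Real.sqrt L with hU
  have hR' : (1 : ℝ) ≤ R := by exact_mod_cast hR
  have h5' : (P 1 1 : ℝ) < 2 * P 1 0 := by exact_mod_cast h5
  have h6' : (P 1 0 : ℝ) < 4 * P 1 1 := by exact_mod_cast h6
  have hpow : (0 : ℝ) < 2 ^ (102 * s) := by positivity
  have hB : ((2 : ℝ) ^ (102 * s) * 64) ≤ 2 ^ (110 * s) := by
    have : (2 : ℝ) ^ (102 * s) * 64 = 2 ^ (102 * s + 6) := by
      rw [pow_add]
      norm_num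
    rw [this]
    exact pow_le_pow_right₀ (by norm_num) (by omega)
  have hc1 : 4 * (R : ℤ) ≤ P 1 0 := by
    have : 4 * (R : ℝ) ≤ P 1 0 := by linarith
    exact_mod_cast this
  have hd1 : 4 * (R : ℤ) ≤ P 1 1 := by
    have : 4 * (R : ℝ) ≤ P 1 1 := by linarith
    exact_mod_cast this
  have hc0 : (P 1 0 : ℝ) ≤ 2 ^ (102 * s) * (32 * R) := hS2.trans (by
    apply mul_le_mul_of_nonneg_left h32 hpow.le)
  have hBR : ((2 : ℝ) ^ (102 * s) * 64) * R ≤ 2 ^ (110 * s) * R :=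
    mul_le_mul_of_nonneg_right hB (by linarith)
  have hc2 : P 1 0 ≤ (2 : ℤ) ^ (110 * s) * R := by
    have h7 : 0 ≤ (2 : ℝ) ^ (102 * s) * R := by positivity
    have : (P 1 0 : ℝ) ≤ 2 ^ (110 * s) * R := by linarith
    exact_mod_cast this
  have hd2 : P 1 1 ≤ (2 : ℤ) ^ (110 * s) * R := by
    have : (P 1 1 : ℝ) ≤ 2 ^ (110 * s) * R := by linarith
    exact_mod_cast this
  obtain ⟨i1, hi1, hi1', hi1''⟩ := bc_round R hR (P 1 0) _ hc1 hc2
  obtain ⟨i2, hi2, hi2', hi2''⟩ := bc_round R hR (P 1 1) _ hd1 hd2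
  have hbmp : 1 / 4 ≤ bmp R (i1 * R) (i2 * R) P := by
    have t1 := tri_ge_half R hR (i1 * R) (P 1 0) hi1''
    have t2 := tri_ge_half R hR (i2 * R) (P 1 1) hi2''
    unfold bmp
    nlinarith
  unfold Good at hS3
  push Not at hS3
  obtain ⟨a, ha0, ha1, ha2, ha3, ha4⟩ := hS3
  have hterm : ∀ (i : ℤ × ℤ) (a : ℤ × ℤ), 0 ≤ 4 * (L / X) ^ 2 *
      (bmp R (i.1 * R) (i.2 * R) P * bc_F X a P) := by
    intro i a
    have t1 := tri_nonneg R (i.1 * R) (P 1 0)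
    have t2 := tri_nonneg R (i.2 * R) (P 1 1)
    have t3 := bc_F_nonneg X a P
    unfold bmp
    positivity
  have hmain : 1 ≤ 4 * (L / X) ^ 2 * (bmp R (i1 * R) (i2 * R) P * bc_F X a P) := by
    have hXpos : (0 : ℝ) < X := by exact_mod_cast hX
    have hLpos : 0 < L := by linarith
    have hF : bc_F X a P = ‖Cor Lam X (lf P a) - Cor (LamR (RX X)) X (lf P a)‖ ^ 2 := by
      unfold bc_F
      rw [if_pos ha3]
    set N := ‖Cor Lam X (lf P a) - Cor (LamR (RX X)) X (lf P a)‖ with hN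
    have hN0 : 0 ≤ N := norm_nonneg _
    have e1 : 1 ≤ (L / X) * N := by
      have : (L / X) * (X / L) = 1 := by field_simp
      rw [← this]
      exact mul_le_mul_of_nonneg_left ha4.le (by positivity)
    have e2 : 1 ≤ ((L / X) * N) ^ 2 := one_le_pow₀ e1
    rw [hF]
    have e3 : 1 / 4 * N ^ 2 ≤ bmp R (i1 * R) (i2 * R) P * N ^ 2 :=
      mul_le_mul_of_nonneg_right hbmp (by positivity)
    calc (1 : ℝ) ≤ ((L / X) * N) ^ 2 := e2
      _ = 4 * (L / X) ^ 2 * (1 / 4 * N ^ 2) := by ring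
      _ ≤ _ := mul_le_mul_of_nonneg_left e3 (by positivity)
  refine hmain.trans ?_
  have hmem : ((i1, i2) : ℤ × ℤ) ∈
      (Icc (2 : ℤ) (2 ^ (110 * s))) ×ˢ (Icc (2 : ℤ) (2 ^ (110 * s))) :=
    mem_product.2 ⟨mem_Icc.2 ⟨hi1, hi1'⟩, mem_Icc.2 ⟨hi2, hi2'⟩⟩
  have hmem' : a ∈ bc_A L := (bc_mem_A L a).2 ⟨ha0, ha1, ha2⟩
  refine le_trans ?_ (single_le_sum (f := fun i : ℤ × ℤ => ∑ a ∈ bc_A L, 4 * (L / X) ^ 2 *
        (bmp R (i.1 * R) (i.2 * R) P * bc_F X a P))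
    (fun i _ => sum_nonneg fun a _ => hterm i a) hmem)
  exact single_le_sum (f := fun a => 4 * (L / X) ^ 2 *
        (bmp R (i1 * R) (i2 * R) P * bc_F X a P)) (fun a _ => hterm (i1, i2) a) hmem'

theorem bc_av (s : ℕ) (hs : 50 ≤ s) (C : ℝ) (hC : 0 < C) (X K : ℕ) (hK : 1 ≤ K)
    (hX : 1024 ≤ X) (hL : 1024 ≤ Real.log X)
    (hT : ∀ (K R : ℕ) (m1 m2 : ℤ), X / Real.log X ≤ R → 2 * (R : ℤ) ≤ m1 → 2 * (R : ℤ) ≤ m2 →
    m1 ≤ 2 ^ (110 * s) * R → m2 ≤ 2 ^ (110 * s) * R →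
    ∀ a : ℤ × ℤ, a ≠ 0 → |(a.1 : ℝ)| ≤ Real.log X → |(a.2 : ℝ)| ≤ Real.log X →
      Av s (10 * K) (fun P => bmp R m1 m2 P * bc_F X a P) ≤ C * X ^ 2 / (Real.log X) ^ 8) :
    Av s (10 * K) (Set.indicator (bc_S s X) (fun _ => (1 : ℝ))) ≤
      36 * C * (((Icc (2 : ℤ) (2 ^ (110 * s))) ×ˢ (Icc (2 : ℤ) (2 ^ (110 * s)))).card : ℝ) /
        (Real.log X) ^ 4 := by
  classical
  obtain ⟨hR1, hR2, hR3, hR4⟩ := bc_arith X hX hL
  set R := ⌊(X : ℝ) / Real.sqrt (Real.log X) / 16⌋₊ with hR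
  set I := (Icc (2 : ℤ) (2 ^ (110 * s))) ×ˢ (Icc (2 : ℤ) (2 ^ (110 * s))) with hI
  set L := Real.log X with hLd
  have hXpos : (0 : ℝ) < X := by
    have : (1024 : ℝ) ≤ X := by exact_mod_cast hX
    linarith
  have hLpos : 0 < L := by linarith
  have hterm : ∀ (i : ℤ × ℤ) (a : ℤ × ℤ) (P : M2), 0 ≤ 4 * (L / X) ^ 2 *
      (bmp R (i.1 * R) (i.2 * R) P * bc_F X a P) := by
    intro i a P
    have t1 := tri_nonneg R (i.1 * R) (P 1 0)
    have t2 := tri_nonneg R (i.2 * R) (P 1 1)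
    have t3 := bc_F_nonneg X a P
    unfold bmp
    positivity
  have h1 : Av s (10 * K) (Set.indicator (bc_S s X) (fun _ => (1 : ℝ))) ≤
      Av s (10 * K) (fun P => ∑ i ∈ I, ∑ a ∈ bc_A L, 4 * (L / X) ^ 2 *
        (bmp R (i.1 * R) (i.2 * R) P * bc_F X a P)) := by
    refine Av_mono s _ _ _ fun P hP => ?_
    by_cases hS : P ∈ bc_S s X
    · rw [Set.indicator_of_mem hS]
      exact bc_pt s X K R hs hK (by omega) (by linarith) hR2 hR3 hR4 P hP hS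
    · rw [Set.indicator_of_notMem hS]
      exact sum_nonneg fun i _ => sum_nonneg fun a _ => hterm i a P
  refine h1.trans ?_
  rw [Av_sum]
  have h2 : ∀ i ∈ I, Av s (10 * K) (fun P => ∑ a ∈ bc_A L, 4 * (L / X) ^ 2 *
        (bmp R (i.1 * R) (i.2 * R) P * bc_F X a P)) ≤ 36 * C / L ^ 4 := by
    intro i hi
    obtain ⟨hi1, hi2⟩ := mem_product.1 hi
    rw [mem_Icc] at hi1 hi2
    have hR0 : (0 : ℤ) ≤ R := Nat.cast_nonneg R
    rw [Av_sum]
    have h3 : ∀ a ∈ bc_A L, Av s (10 * K) (fun P => 4 * (L / X) ^ 2 *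
        (bmp R (i.1 * R) (i.2 * R) P * bc_F X a P)) ≤ 4 * C / L ^ 6 := by
      intro a ha
      obtain ⟨ha0, ha1, ha2⟩ := (bc_mem_A L a).1 ha
      have h4 := Av_smul s (10 * K) (4 * (L / X) ^ 2)
        (fun P => bmp R (i.1 * R) (i.2 * R) P * bc_F X a P)
      simp only [smul_eq_mul] at h4
      rw [h4]
      have h5 := hT K R (i.1 * R) (i.2 * R) hR1
        (mul_le_mul_of_nonneg_right hi1.1 hR0) (mul_le_mul_of_nonneg_right hi2.1 hR0)
        (mul_le_mul_of_nonneg_right hi1.2 hR0) (mul_le_mul_of_nonneg_right hi2.2 hR0) a ha0 ha1 ha2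
      refine (mul_le_mul_of_nonneg_left h5 (by positivity)).trans (le_of_eq ?_)
      field_simp
    refine (sum_le_card_nsmul _ _ _ h3).trans ?_
    rw [nsmul_eq_mul]
    have h6 := bc_card_A L (by linarith)
    refine (mul_le_mul_of_nonneg_right h6 (by positivity)).trans (le_of_eq ?_)
    field_simp
    ring
  refine (sum_le_card_nsmul _ _ _ h2).trans (le_of_eq ?_)
  rw [nsmul_eq_mul]
  ring

theorem bc_K (s X K : ℕ) (hs : 50 ≤ s) (hX : 1 ≤ X) (hL : 1 ≤ Real.log X)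
    (hL' : 102 * s ≤ Real.log X)
    (P : M2) (hP : P ∈ Wd s (10 * K)) (hS : P ∈ bc_S s X) : K ∈ Icc 1 ⌊Real.log X⌋₊ := by
  obtain ⟨hS1, hS2, -⟩ := hS
  set L := Real.log X with hLd
  have hXpos : (0 : ℝ) < X := by exact_mod_cast hX
  have hq : 1 ≤ Real.sqrt L := Real.one_le_sqrt.2 hL
  have hUX : (X : ℝ) / Real.sqrt L ≤ X := div_le_self hXpos.le hq
  have hU0 : 0 < (X : ℝ) / Real.sqrt L := by positivity
  have hK : 1 ≤ K := by
    by_contra h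
    have h0 : K = 0 := by omega
    subst h0
    have h1 : P = 1 := by
      have : P ∈ ({1} : Finset M2) := hP
      simpa using this
    rw [h1] at hS1
    simp at hS1
    linarith
  rw [mem_Icc]
  refine ⟨hK, Nat.le_floor ?_⟩
  have h1 := Wd_lower s (10 * K) (by omega) (by omega) P hP 1 0
  have h2 : (2 : ℝ) ^ (10 * s * (10 * K)) ≤ 8 ^ (10 * K) * P 1 0 := by exact_mod_cast h1
  have h3 : (2 : ℝ) ^ (10 * s * (10 * K)) ≤ 8 ^ (10 * K) * (2 ^ (102 * s) * X) := by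
    refine h2.trans (mul_le_mul_of_nonneg_left (hS2.trans ?_) (by positivity))
    exact mul_le_mul_of_nonneg_left hUX (by positivity)
  have h4 := Real.log_le_log (by positivity) h3
  rw [Real.log_mul (by positivity) (by positivity), Real.log_mul (by positivity) hXpos.ne',
    Real.log_pow, Real.log_pow, Real.log_pow] at h4
  have h8 : Real.log 8 = 3 * Real.log 2 := by
    rw [show (8 : ℝ) = 2 ^ 3 by norm_num, Real.log_pow]
    norm_num
  rw [h8] at h4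
  push_cast at h4
  have l1 := Real.log_two_gt_d9
  have l2 := Real.log_two_lt_d9
  have hs' : (50 : ℝ) ≤ s := by exact_mod_cast hs
  have hK' : (1 : ℝ) ≤ K := by exact_mod_cast hK
  have h5 : (100 * s - 30) * K * Real.log 2 ≤ 102 * s * Real.log 2 + L := by
    rw [hLd]
    linarith
  have h6 : 102 * (s : ℝ) * Real.log 2 ≤ L := by
    have : 102 * (s : ℝ) * Real.log 2 ≤ 102 * s * 1 := by
      apply mul_le_mul_of_nonneg_left _ (by positivity)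
      linarith
    linarith
  have h7 : 2 * (K : ℝ) ≤ (100 * s - 30) * K * Real.log 2 := by
    have e1 : (4 : ℝ) ≤ 100 * s - 30 := by linarith
    have e2 : 4 * (K : ℝ) ≤ (100 * s - 30) * K := mul_le_mul_of_nonneg_right e1 (by linarith)
    have e3 : 4 * (K : ℝ) * Real.log 2 ≤ (100 * s - 30) * K * Real.log 2 :=
      mul_le_mul_of_nonneg_right e2 (by linarith)
    nlinarith
  linarith

theorem bc_log (j : ℕ) (hj : 4 ≤ j) : Real.sqrt j / 2 ≤ Real.log (Xj j) := by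
  have hj' : (4 : ℝ) ≤ j := by exact_mod_cast hj
  have hq : 2 ≤ Real.sqrt j := by
    rw [show (2 : ℝ) = Real.sqrt 4 by
      rw [show (4 : ℝ) = 2 ^ 2 by norm_num, Real.sqrt_sq (by norm_num)]]
    exact Real.sqrt_le_sqrt hj'
  set q := Real.sqrt j with hqd
  have h1 : Real.exp q < Xj j + 1 := Nat.lt_floor_add_one _
  have h2 : Real.exp (q - 1) ≤ Xj j := by
    have e1 : Real.exp q = Real.exp (q - 1) * Real.exp 1 := by
      rw [← Real.exp_add]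
      congr 1
      ring
    have e2 : 1 ≤ Real.exp (q - 1) := Real.one_le_exp (by linarith)
    have e3 : 2 ≤ Real.exp 1 := by
      have := Real.add_one_le_exp (1 : ℝ)
      linarith
    nlinarith
  have h3 : q - 1 ≤ Real.log (Xj j) := by
    rw [← Real.log_exp (q - 1)]
    exact Real.log_le_log (Real.exp_pos _) h2
  linarith

theorem BC {Ω : Type} [MeasurableSpace Ω] (s : ℕ) (hs : 50 ≤ s) (μ : Measure Ω)
    [IsProbabilityMeasure μ] (w : Ω → ℕ → M2) (hw : IsModel s μ w) :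
    ∀ᵐ ω ∂μ, ∀ᶠ j : ℕ in Filter.atTop, ∀ K : ℕ,
      (Xj j : ℝ) / Real.sqrt (Real.log (Xj j)) ≤ Pk (w ω) (10 * K) 1 0 →
      (Pk (w ω) (10 * K) 1 0 : ℝ) ≤ 2 ^ (102 * s) * ((Xj j : ℝ) / Real.sqrt (Real.log (Xj j))) →
      Good (Xj j) (Pk (w ω) (10 * K)) := by
  classical
  obtain ⟨C, X0, hC, hT⟩ := TSq s hs
  have hlog : Filter.Tendsto (fun j => Real.log (Xj j)) Filter.atTop Filter.atTop :=
    Real.tendsto_log_atTop.comp (tendsto_natCast_atTop_atTop.comp Xj_tendsto)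
  have hev : ∀ᶠ j in Filter.atTop, X0 ≤ Xj j ∧ 1024 ≤ Xj j ∧ 1024 ≤ Real.log (Xj j) ∧
      102 * s ≤ Real.log (Xj j) ∧ 4 ≤ j := by
    filter_upwards [Xj_tendsto.eventually_ge_atTop X0, Xj_tendsto.eventually_ge_atTop 1024,
      hlog.eventually_ge_atTop 1024, hlog.eventually_ge_atTop (102 * s),
      Filter.eventually_ge_atTop 4] with j h1 h2 h3 h4 h5
    exact ⟨h1, h2, h3, h4, h5⟩
  obtain ⟨j0, hj0⟩ := Filter.eventually_atTop.1 hev
  set N : ℝ := (((Icc (2 : ℤ) (2 ^ (110 * s))) ×ˢ (Icc (2 : ℤ) (2 ^ (110 * s)))).card : ℝ)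
    with hN
  have hN0 : 0 ≤ N := Nat.cast_nonneg _
  let E : ℕ → Set Ω := fun j => if j0 ≤ j then
    ⋃ K ∈ Icc 1 ⌊Real.log (Xj j)⌋₊, {ω | Pk (w ω) (10 * K) ∈ bc_S s (Xj j)} else ∅
  have hE : ∀ j, μ (E j) ≤ ENNReal.ofReal (288 * C * N * (1 / (j : ℝ) ^ (3 / 2 : ℝ))) := by
    intro j
    by_cases hj : j0 ≤ j
    · obtain ⟨b1, b2, b3, b4, b5⟩ := hj0 j hj
      set L := Real.log (Xj j) with hLd
      have hLpos : 0 < L := by linarith
      have e1 : E j = ⋃ K ∈ Icc 1 ⌊L⌋₊, {ω | Pk (w ω) (10 * K) ∈ bc_S s (Xj j)} := if_pos hj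
      rw [e1]
      refine (measure_biUnion_finset_le _ _).trans ?_
      have e2 : ∀ K ∈ Icc 1 ⌊L⌋₊, μ {ω | Pk (w ω) (10 * K) ∈ bc_S s (Xj j)} ≤
          ENNReal.ofReal (36 * C * N / L ^ 4) := by
        intro K hK
        rw [mem_Icc] at hK
        rw [(hw.2 (10 * K) (bc_S s (Xj j))).2]
        exact ENNReal.ofReal_le_ofReal (bc_av s hs C hC (Xj j) K hK.1 b2 b3
          (fun K R m1 m2 c1 c2 c3 c4 c5 a c6 c7 c8 =>
            hT (Xj j) b1 K R m1 m2 c1 c2 c3 c4 c5 a c6 c7 c8))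
      refine (sum_le_card_nsmul _ _ _ e2).trans ?_
      rw [Nat.card_Icc, Nat.add_sub_cancel, nsmul_eq_mul,
        ← ENNReal.ofReal_natCast, ← ENNReal.ofReal_mul (Nat.cast_nonneg _)]
      apply ENNReal.ofReal_le_ofReal
      have e3 : ((⌊L⌋₊ : ℕ) : ℝ) ≤ L := Nat.floor_le hLpos.le
      have e4 : ((⌊L⌋₊ : ℕ) : ℝ) * (36 * C * N / L ^ 4) ≤ L * (36 * C * N / L ^ 4) :=
        mul_le_mul_of_nonneg_right e3 (by positivity)
      refine e4.trans ?_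
      have e5 : L * (36 * C * N / L ^ 4) = 36 * C * N * (1 / L ^ 3) := by
        field_simp
      have hjpos : (0 : ℝ) < j := by
        have : (4 : ℝ) ≤ j := by exact_mod_cast b5
        linarith
      have e6 : (j : ℝ) ^ (3 / 2 : ℝ) = Real.sqrt j ^ 3 := by
        rw [Real.sqrt_eq_rpow, ← Real.rpow_natCast, ← Real.rpow_mul hjpos.le]
        norm_num
      have hqpos : 0 < Real.sqrt j := Real.sqrt_pos.2 hjpos
      have e7 : 1 / L ^ 3 ≤ 8 * (1 / Real.sqrt j ^ 3) := by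
        have e8 := bc_log j b5
        have e9 : (Real.sqrt j / 2) ^ 3 ≤ L ^ 3 := pow_le_pow_left₀ (by positivity) e8 3
        have e10 : 1 / L ^ 3 ≤ 1 / (Real.sqrt j / 2) ^ 3 :=
          one_div_le_one_div_of_le (by positivity) e9
        refine e10.trans (le_of_eq ?_)
        field_simp
        norm_num
      rw [e5, e6]
      calc 36 * C * N * (1 / L ^ 3) ≤ 36 * C * N * (8 * (1 / Real.sqrt j ^ 3)) :=
            mul_le_mul_of_nonneg_left e7 (by positivity)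
        _ = 288 * C * N * (1 / Real.sqrt j ^ 3) := by ring
    · have e1 : E j = ∅ := if_neg hj
      rw [e1, measure_empty]
      exact bot_le
  have hsum : Summable (fun j : ℕ => 288 * C * N * (1 / (j : ℝ) ^ (3 / 2 : ℝ))) :=
    (Real.summable_one_div_nat_rpow.2 (by norm_num)).mul_left _
  have htop : ∑' j, μ (E j) ≠ ⊤ := by
    refine ne_top_of_le_ne_top ?_ (ENNReal.tsum_le_tsum hE)
    exact hsum.tsum_ofReal_ne_top
  filter_upwards [ae_eventually_notMem htop] with ω hω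
  filter_upwards [hω, Filter.eventually_ge_atTop j0] with j hj hjj K h1 h2
  obtain ⟨b1, b2, b3, b4, b5⟩ := hj0 j hjj
  by_contra hG
  apply hj
  have hS : Pk (w ω) (10 * K) ∈ bc_S s (Xj j) := ⟨h1, h2, hG⟩
  have hK := bc_K s (Xj j) K hs (by omega) (by linarith) b4 _
    (Pk_mem s (w ω) (hw.1 ω) (10 * K)) hS
  have e1 : E j = ⋃ K ∈ Icc 1 ⌊Real.log (Xj j)⌋₊,
    {ω | Pk (w ω) (10 * K) ∈ bc_S s (Xj j)} := if_pos hjj
  rw [e1]
  simp only [Set.mem_iUnion]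
  exact ⟨K, hK, hS⟩

end Pool.Agent.H1.PP
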