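import Pool.Agent.H1.PP.Defs
import Pool.Agent.H10.RP.Sine

/-!
# PP-06 Fej: a majorant of an interval with nonnegative small Fourier transform

PROOF.  `F x = max 0 (2 - |x| / Y)`.  `∑_{|x| ≤ 2Y} F x e(x θ) = (1/Y) |∑_{j < 2Y} e(j θ)|²` because the number of
`(i, j) ∈ [0, 2Y)²` with `i - j = x` is `2Y - |x|`.  Let `v` be the right hand side: `v ≤ (2Y)²/Y = 4Y`, and
`|∑_{j < 2Y} e(jθ)| ≤ 1/(2 ‖θ‖)` (`|1 - e(θ)| = 2 |sin πθ| ≥ 4 ‖θ‖`), so `v ≤ 1/(4 Y ‖θ‖²)`.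
-/

set_option autoImplicit false

open Finset
open scoped ComplexConjugate

namespace Pool.Agent.H1.PP

open Pool.Agent.H10.RP (ee nd Lam)

theorem fej_Icc (n : ℕ) (h : ℤ → ℂ) : ∑ x ∈ Icc (-((n : ℤ) + 1)) ((n : ℤ) + 1), h x =
    h (-((n : ℤ) + 1)) + (h ((n : ℤ) + 1) + ∑ x ∈ Icc (-(n : ℤ)) n, h x) := by
  have e : Icc (-((n : ℤ) + 1)) ((n : ℤ) + 1) =
      insert (-((n : ℤ) + 1)) (insert ((n : ℤ) + 1) (Icc (-(n : ℤ)) n)) := by
    ext x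
    simp only [mem_insert, mem_Icc]
    omega
  rw [e, sum_insert, sum_insert]
  · simp only [mem_Icc]
    omega
  · simp only [mem_insert, mem_Icc]
    omega

theorem fej_sym (n : ℕ) (h : ℤ → ℂ) : ∑ x ∈ Icc (-(n : ℤ)) n, h x =
    h 0 + ∑ j ∈ range n, (h ((j : ℤ) + 1) + h (-((j : ℤ) + 1))) := by
  induction n with
  | zero => simp
  | succ n ih =>
    rw [Nat.cast_succ, fej_Icc, ih, sum_range_succ]
    ring

/-- autocorrelation of an interval -/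
theorem fej_auto (N : ℕ) (g : ℤ → ℂ) :
    ∑ i ∈ range N, ∑ j ∈ range N, g ((i : ℤ) - j) =
      ∑ x ∈ Icc (-(N : ℤ)) N, (((N : ℝ) - |(x : ℝ)| : ℝ) : ℂ) * g x := by
  induction N with
  | zero => simp
  | succ N ih =>
    have h1 : ∑ i ∈ range (N + 1), ∑ j ∈ range (N + 1), g ((i : ℤ) - j) =
        (∑ i ∈ range N, ∑ j ∈ range N, g ((i : ℤ) - j)) + ∑ i ∈ range N, g ((i : ℤ) - N) +
          (∑ j ∈ range N, g ((N : ℤ) - j) + g 0) := by
      rw [sum_range_succ, sum_congr rfl (fun i _ => sum_range_succ _ N), sum_add_distrib,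
        sum_range_succ (fun j : ℕ => g ((N : ℤ) - j)), sub_self]
    have h2 : ∑ i ∈ range N, g ((i : ℤ) - N) = ∑ j ∈ range N, g (-((j : ℤ) + 1)) := by
      rw [← sum_range_reflect (fun j : ℕ => g (-((j : ℤ) + 1)))]
      refine sum_congr rfl fun i hi => ?_
      rw [mem_range] at hi
      congr 1
      omega
    have h3 : ∑ j ∈ range N, g ((N : ℤ) - j) = ∑ j ∈ range N, g ((j : ℤ) + 1) := by
      rw [← sum_range_reflect (fun j : ℕ => g ((j : ℤ) + 1))]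
      refine sum_congr rfl fun i hi => ?_
      rw [mem_range] at hi
      congr 1
      omega
    have h4 : ∑ x ∈ Icc (-(N : ℤ)) N, ((((N : ℝ) + 1) - |(x : ℝ)| : ℝ) : ℂ) * g x =
        ∑ x ∈ Icc (-(N : ℤ)) N, (((N : ℝ) - |(x : ℝ)| : ℝ) : ℂ) * g x +
          ∑ x ∈ Icc (-(N : ℤ)) N, g x := by
      rw [← sum_add_distrib]
      refine sum_congr rfl fun x _ => ?_
      push_cast
      ring
    have h5 : |(((N : ℤ) + 1 : ℤ) : ℝ)| = (N : ℝ) + 1 := by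
      push_cast
      exact abs_of_nonneg (by positivity)
    have h6 : |((-((N : ℤ) + 1) : ℤ) : ℝ)| = (N : ℝ) + 1 := by
      rw [Int.cast_neg, abs_neg, h5]
    rw [h1, h2, h3, ih, Nat.cast_succ, Nat.cast_succ, fej_Icc, h5, h6, h4, fej_sym N g,
      sum_add_distrib]
    simp only [sub_self, Complex.ofReal_zero, zero_mul, zero_add]
    ring

theorem fej_norm (N : ℕ) (θ : ℝ) :
    ∑ x ∈ Icc (-(N : ℤ)) N, (((N : ℝ) - |(x : ℝ)| : ℝ) : ℂ) * ee (x * θ) =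
      ((‖∑ j ∈ range N, ee (j * θ)‖ ^ 2 : ℝ) : ℂ) := by
  rw [← fej_auto N (fun x => ee (x * θ)), ← Complex.normSq_eq_norm_sq, ← Complex.mul_conj,
    map_sum, sum_mul_sum]
  refine sum_congr rfl fun i _ => sum_congr rfl fun j _ => ?_
  rw [Pool.Agent.H10.RP.conj_ee, ← Pool.Agent.H10.RP.ee_add]
  congr 1
  push_cast
  ring

theorem fej_le (N : ℕ) (θ : ℝ) : ‖∑ j ∈ range N, ee (j * θ)‖ ≤ N := by
  refine (norm_sum_le _ _).trans ?_
  rw [sum_congr rfl (fun (j : ℕ) _ => Pool.Agent.H10.RP.norm_ee ((j : ℝ) * θ))]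
  simp

theorem fej_nd (N : ℕ) (θ : ℝ) : ‖∑ j ∈ range N, ee (j * θ)‖ * (2 * nd θ) ≤ 1 := by
  have h1 : (∑ j ∈ range N, ee (j * θ)) * (ee θ - 1) = ee (N * θ) - 1 := by
    rw [sum_congr rfl (fun (j : ℕ) _ => Pool.Agent.H10.RP.ft_ee_nat_mul j θ), geom_sum_mul,
      Pool.Agent.H10.RP.ft_ee_nat_mul]
  have h2 : ‖∑ j ∈ range N, ee (j * θ)‖ * ‖ee θ - 1‖ ≤ 2 := by
    rw [← norm_mul, h1]
    refine (norm_sub_le _ _).trans ?_
    rw [Pool.Agent.H10.RP.norm_ee, norm_one]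
    norm_num
  have h3 := Pool.Agent.H10.RP.four_nd_le θ
  have h4 := norm_nonneg (∑ j ∈ range N, ee (j * θ))
  nlinarith [mul_le_mul_of_nonneg_left h3 h4]

theorem fejer_box (Y : ℕ) (hY : 1 ≤ Y) : ∃ F : ℤ → ℝ, (∀ x, 0 ≤ F x) ∧
    (∀ x, |x| ≤ (Y : ℤ) → 1 ≤ F x) ∧ (∀ x, (2 * Y : ℤ) ≤ |x| → F x = 0) ∧
    ∀ θ : ℝ, ∃ v : ℝ, 0 ≤ v ∧ v ≤ 4 * Y ∧ v * (4 * Y * nd θ ^ 2) ≤ 1 ∧
      ∑ x ∈ Icc (-(2 * Y : ℤ)) (2 * Y), (F x : ℂ) * ee (x * θ) = v := by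
  have hY0 : (0 : ℝ) < Y := by exact_mod_cast hY
  refine ⟨fun x => max 0 (2 - |(x : ℝ)| / Y), fun x => le_max_left _ _, ?_, ?_, ?_⟩
  · intro x hx
    refine le_trans ?_ (le_max_right _ _)
    have h1 : |(x : ℝ)| ≤ Y := by exact_mod_cast hx
    have h2 : |(x : ℝ)| / Y ≤ 1 := (div_le_one hY0).2 h1
    linarith
  · intro x hx
    refine max_eq_left ?_
    have h1 : 2 * (Y : ℝ) ≤ |(x : ℝ)| := by exact_mod_cast hx
    have h2 : 2 ≤ |(x : ℝ)| / Y := (le_div_iff₀ hY0).2 h1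
    linarith
  · intro θ
    have h0 := norm_nonneg (∑ j ∈ range (2 * Y), ee (j * θ))
    have h1 := fej_le (2 * Y) θ
    have h2 := fej_nd (2 * Y) θ
    have h3 : 0 ≤ nd θ := Pool.Agent.H10.RP.nd_nonneg θ
    refine ⟨‖∑ j ∈ range (2 * Y), ee (j * θ)‖ ^ 2 / Y, by positivity, ?_, ?_, ?_⟩
    · rw [div_le_iff₀ hY0]
      push_cast at h1
      nlinarith
    · have e : ‖∑ j ∈ range (2 * Y), ee (j * θ)‖ ^ 2 / Y * (4 * Y * nd θ ^ 2) =
          (‖∑ j ∈ range (2 * Y), ee (j * θ)‖ * (2 * nd θ)) ^ 2 := by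
        generalize ‖∑ j ∈ range (2 * Y), ee (j * θ)‖ = D
        field_simp
        ring
      rw [e]
      exact pow_le_one₀ (by positivity) h2
    · have e := fej_norm (2 * Y) θ
      push_cast at e
      push_cast
      rw [← e, sum_div]
      refine sum_congr rfl fun x hx => ?_
      rw [mem_Icc] at hx
      have h4 : |(x : ℝ)| ≤ 2 * Y := by
        rw [abs_le]
        constructor
        · exact_mod_cast hx.1
        · exact_mod_cast hx.2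
      have h5 : (0 : ℝ) ≤ 2 - |(x : ℝ)| / Y := by
        have : |(x : ℝ)| / Y ≤ 2 := (div_le_iff₀ hY0).2 h4
        linarith
      rw [max_eq_right h5]
      have h6 : (Y : ℂ) ≠ 0 := by exact_mod_cast hY0.ne'
      push_cast
      field_simp

end Pool.Agent.H1.PP
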