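import Pool.Agent.H1.PP.DetZ
import Pool.Agent.H1.PP.Fej

/-!
# PP-07 BL: the bilinear estimate

`T = 2^s`, `N = card (Lt s) ≥ T^20 / 320`, `Y = T^(90 n)`, `κ = T^(-85 n)`.

PROOF.  By `Av_split` (`10 n = 9 n + n`) and `dt_mul`, `Av (10 n) (ee (dt P ψ)) =
Av_{P ∈ 9n} Av_{R ∈ n} e(x · (R ψ))` where `x` is the second row of `P` (after `Av_comm`) and `R ψ = act R ψ`.
Cauchy (`Av_sq`): `|Av|² ≤ Av_{P ∈ 9n} |Av_R e(x · R ψ)|² = N^(-9n) ∑_{P ∈ Wd (9n)} |Av_R e(x · R ψ)|²`.  The second rows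
`x` of the words `P` are pairwise different (`row_inj`) with entries in `[0, Y]` (`Wd_upper`), so this is at most
`N^(-9n) ∑_{x ∈ [-2Y, 2Y]²} F(x1) F(x2) |Av_R e(x · R ψ)|²`
`= N^(-9n) Av_R Av_{R'} v1(R,R') v2(R,R')` with `F` from `fejer_box`, `v_i` the transform at
`θ_i = (R ψ)_i - (R' ψ)_i`.  Always `0 ≤ v1 v2 ≤ 16 Y²`.  If `nd θ_i > κ` for some `i` then
`v1 v2 ≤ 4 Y / (4 Y κ²) = 1/κ²`.

Assume `NearQ (T^(20 n)) (T^(-75 n)) ψ` fails.  Claim: if `det (R - R') ≠ 0` then `nd θ_i > κ` for some `i`.  Otherwise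
`(R - R') ψ = k + η` with `k` integer and `|η_i| ≤ κ`; with `e = det (R - R')` and `adj` the adjugate,
`ψ = adj (k + η) / e`, so with `q = |e| ≤ 2 (T^(10n)/2)² ≤ T^(20 n)` and `p = ± adj k` we get
`|ψ_i - p_i / q| ≤ (T^(10 n)/2 + T^(10n)/2) κ / |e| ≤ T^(-75 n)` (entries of `R - R'` are at most `T^(10 n)/2` in absolute
value by `Wd_nonneg`, `Wd_upper`), contradiction.  So by `det_zero_count`
`|Av|² ≤ N^(-9n) (16 Y² T^(11 n) N^(-n) + κ^(-2)) ≤ 16 * 320^(10 n) T^(-9 n) + 320^(9 n) T^(-10 n) ≤ T^(-4 n)`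
as `17 * 320^(10 n) ≤ T^(5 n)` (`320 < 2^9`, `s ≥ 50`).  Take square roots.
-/

set_option autoImplicit false

open Finset

namespace Pool.Agent.H1.PP

open Pool.Agent.H10.RP (ee nd Lam)

theorem bl_ee_add (x y : ℝ) : ee (x + y) = ee x * ee y := by
  unfold ee
  rw [← Complex.exp_add]
  congr 1
  push_cast
  ring

theorem bl_conj_ee (x : ℝ) : (starRingEnd ℂ) (ee x) = ee (-x) := by
  unfold ee
  rw [← Complex.exp_conj]
  congr 1
  have h2 : (starRingEnd ℂ) (2 : ℂ) = 2 := by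
    have := Complex.conj_ofReal 2
    simpa using this
  rw [map_mul, map_mul, map_mul, h2, Complex.conj_ofReal, Complex.conj_ofReal, Complex.conj_I]
  push_cast
  ring

theorem bl_normsq {ι : Type*} (W : Finset ι) (t : ι → ℝ) :
    ((‖∑ G ∈ W, ee (t G)‖ ^ 2 : ℝ) : ℂ) = ∑ p ∈ W ×ˢ W, ee (t p.1 - t p.2) := by
  have h1 : ((‖∑ G ∈ W, ee (t G)‖ ^ 2 : ℝ) : ℂ) =
      (∑ G ∈ W, ee (t G)) * (starRingEnd ℂ) (∑ G ∈ W, ee (t G)) := by
    rw [Complex.mul_conj, Complex.normSq_eq_norm_sq]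
  rw [h1, map_sum, Finset.sum_mul_sum, Finset.sum_product]
  refine Finset.sum_congr rfl fun G _ => Finset.sum_congr rfl fun G' _ => ?_
  rw [bl_conj_ee, ← bl_ee_add, sub_eq_add_neg]

theorem bl_box {ι : Type*} (W : Finset ι) (u v : ι → ℝ) (I : Finset ℤ) (F : ℤ → ℝ) (V : ℝ → ℝ)
    (hV : ∀ θ : ℝ, ∑ x ∈ I, (F x : ℂ) * ee (x * θ) = V θ) :
    ∑ q ∈ I ×ˢ I, F q.1 * F q.2 * ‖∑ G ∈ W, ee ((q.1 : ℝ) * u G + (q.2 : ℝ) * v G)‖ ^ 2 =
      ∑ p ∈ W ×ˢ W, V (u p.1 - u p.2) * V (v p.1 - v p.2) := by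
  have h : ((∑ q ∈ I ×ˢ I, F q.1 * F q.2 *
        ‖∑ G ∈ W, ee ((q.1 : ℝ) * u G + (q.2 : ℝ) * v G)‖ ^ 2 : ℝ) : ℂ) =
      ((∑ p ∈ W ×ˢ W, V (u p.1 - u p.2) * V (v p.1 - v p.2) : ℝ) : ℂ) := by
    rw [Complex.ofReal_sum, Complex.ofReal_sum]
    have h1 : ∀ q ∈ I ×ˢ I, ((F q.1 * F q.2 *
        ‖∑ G ∈ W, ee ((q.1 : ℝ) * u G + (q.2 : ℝ) * v G)‖ ^ 2 : ℝ) : ℂ) =
        ∑ p ∈ W ×ˢ W, ((F q.1 : ℂ) * ee (q.1 * (u p.1 - u p.2))) *
          ((F q.2 : ℂ) * ee (q.2 * (v p.1 - v p.2))) := by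
      intro q _
      rw [Complex.ofReal_mul, bl_normsq, Finset.mul_sum]
      refine Finset.sum_congr rfl fun p _ => ?_
      have h2 : ((q.1 : ℝ) * u p.1 + (q.2 : ℝ) * v p.1) - ((q.1 : ℝ) * u p.2 + (q.2 : ℝ) * v p.2) =
          q.1 * (u p.1 - u p.2) + q.2 * (v p.1 - v p.2) := by ring
      rw [h2, bl_ee_add]
      push_cast
      ring
    rw [Finset.sum_congr rfl h1, Finset.sum_comm]
    refine Finset.sum_congr rfl fun p _ => ?_
    rw [Complex.ofReal_mul, ← hV, ← hV, Finset.sum_mul_sum, Finset.sum_product]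
  exact_mod_cast h

theorem bl_sgn (e m : ℤ) (he : e ≠ 0) :
    ((e.sign * m : ℤ) : ℝ) / (e.natAbs : ℝ) = m / e := by
  have h1 : (e.natAbs : ℝ) = ((e.sign * e : ℤ) : ℝ) := by
    rw [Int.sign_mul_self_eq_natAbs]
    simp
  have h2 : ((e.sign : ℤ) : ℝ) ≠ 0 := by
    have : e.sign ≠ 0 := by
      rwa [Ne, Int.sign_eq_zero_iff_zero]
    exact_mod_cast this
  rw [h1]
  push_cast
  rw [mul_div_mul_left _ _ h2]

theorem bl_claim (s n : ℕ) (hs : 1 ≤ s) (hn : 1 ≤ n) (ψ : Fin 2 → ℝ)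
    (h : ¬ NearQ (2 ^ (20 * s * n)) (1 / 2 ^ (75 * s * n)) ψ)
    (G G' : M2) (hG : G ∈ Wd s n) (hG' : G' ∈ Wd s n) (hd : (G - G').det ≠ 0) :
    1 / 2 ^ (85 * s * n) < nd (act G ψ 0 - act G' ψ 0) ∨
      1 / 2 ^ (85 * s * n) < nd (act G ψ 1 - act G' ψ 1) := by
  by_contra hcon
  push Not at hcon
  obtain ⟨h0, h1⟩ := hcon
  apply h
  have hent : ∀ i j, |(G - G') i j| * 2 ≤ (2 : ℤ) ^ (10 * s * n) := by
    intro i j
    have a1 := Wd_nonneg s n G hG i j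
    have a2 := Wd_nonneg s n G' hG' i j
    have a3 := Wd_upper s n hs hn G hG i j
    have a4 := Wd_upper s n hs hn G' hG' i j
    rw [Matrix.sub_apply]
    rcases abs_cases (G i j - G' i j) with h | h <;> linarith [h.1]
  set M := G - G' with hM
  have hdet : M.det = M 0 0 * M 1 1 - M 0 1 * M 1 0 := Matrix.det_fin_two M
  set a := M 0 0 with ha
  set b := M 0 1 with hb
  set c := M 1 0 with hc
  set d := M 1 1 with hdd
  have hea := hent 0 0
  have heb := hent 0 1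
  have hec := hent 1 0
  have hed := hent 1 1
  rw [← ha] at hea
  rw [← hb] at heb
  rw [← hc] at hec
  rw [← hdd] at hed
  set e := M.det with he
  set θ0 := act G ψ 0 - act G' ψ 0 with hθ0
  set θ1 := act G ψ 1 - act G' ψ 1 with hθ1
  have t0 : θ0 = a * ψ 0 + b * ψ 1 := by
    rw [hθ0, ha, hb, hM]
    simp only [act, Matrix.sub_apply]
    push_cast
    ring
  have t1 : θ1 = c * ψ 0 + d * ψ 1 := by
    rw [hθ1, hc, hdd, hM]
    simp only [act, Matrix.sub_apply]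
    push_cast
    ring
  have heR : (e : ℝ) ≠ 0 := by exact_mod_cast hd
  have hdetR : (e : ℝ) = a * d - b * c := by rw [hdet]; push_cast; ring
  have hT : (0 : ℝ) < 2 ^ (10 * s * n) := by positivity
  have hea' : |(a : ℝ)| * 2 ≤ 2 ^ (10 * s * n) := by exact_mod_cast hea
  have heb' : |(b : ℝ)| * 2 ≤ 2 ^ (10 * s * n) := by exact_mod_cast heb
  have hec' : |(c : ℝ)| * 2 ≤ 2 ^ (10 * s * n) := by exact_mod_cast hec
  have hed' : |(d : ℝ)| * 2 ≤ 2 ^ (10 * s * n) := by exact_mod_cast hed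
  have he1 : (1 : ℝ) ≤ |(e : ℝ)| := by
    have := Int.one_le_abs hd
    exact_mod_cast this
  have key : ∀ x y : ℝ, |x| * 2 ≤ 2 ^ (10 * s * n) → |y| * 2 ≤ 2 ^ (10 * s * n) →
      |(x * (θ0 - round θ0) - y * (θ1 - round θ1)) / e| ≤ 1 / 2 ^ (75 * s * n) ∧
      |(x * (θ1 - round θ1) - y * (θ0 - round θ0)) / e| ≤ 1 / 2 ^ (75 * s * n) := by
    intro x y hx hy
    have hk : (2 : ℝ) ^ (10 * s * n) * (1 / 2 ^ (85 * s * n)) = 1 / 2 ^ (75 * s * n) := by
      have : (2 : ℝ) ^ (85 * s * n) = 2 ^ (10 * s * n) * 2 ^ (75 * s * n) := by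
        rw [← pow_add]; congr 1; ring
      rw [this]
      field_simp
    have h0' : |θ0 - round θ0| ≤ 1 / 2 ^ (85 * s * n) := h0
    have h1' : |θ1 - round θ1| ≤ 1 / 2 ^ (85 * s * n) := h1
    have gen : ∀ p q : ℝ, |p| ≤ 1 / 2 ^ (85 * s * n) → |q| ≤ 1 / 2 ^ (85 * s * n) →
        |(x * p - y * q) / e| ≤ 1 / 2 ^ (75 * s * n) := by
      intro p q hp hq
      rw [abs_div]
      have hnum : |x * p - y * q| ≤ 1 / 2 ^ (75 * s * n) := by
        calc |x * p - y * q| ≤ |x * p| + |y * q| := abs_sub _ _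
          _ = |x| * |p| + |y| * |q| := by rw [abs_mul, abs_mul]
          _ ≤ (2 ^ (10 * s * n) / 2) * (1 / 2 ^ (85 * s * n)) +
              (2 ^ (10 * s * n) / 2) * (1 / 2 ^ (85 * s * n)) := by
              apply add_le_add
              · exact mul_le_mul (by linarith) hp (abs_nonneg _) (by positivity)
              · exact mul_le_mul (by linarith) hq (abs_nonneg _) (by positivity)
          _ = 2 ^ (10 * s * n) * (1 / 2 ^ (85 * s * n)) := by ring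
          _ = 1 / 2 ^ (75 * s * n) := hk
      calc |x * p - y * q| / |(e : ℝ)| ≤ |x * p - y * q| / 1 :=
            div_le_div_of_nonneg_left (abs_nonneg _) one_pos he1
        _ ≤ 1 / 2 ^ (75 * s * n) := by rw [div_one]; exact hnum
    exact ⟨gen _ _ h0' h1', gen _ _ h1' h0'⟩
  refine ⟨e.natAbs, ?_, ?_, ![e.sign * (d * round θ0 - b * round θ1),
    e.sign * (a * round θ1 - c * round θ0)], ?_⟩
  · have := Int.natAbs_pos.mpr hd
    omega
  · have hq : ((e.natAbs : ℕ) : ℝ) = |(e : ℝ)| := by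
      rw [Nat.cast_natAbs]
      push_cast
      rfl
    rw [hq, hdetR]
    calc |(a : ℝ) * d - b * c| ≤ |(a : ℝ) * d| + |(b : ℝ) * c| := abs_sub _ _
      _ = |(a : ℝ)| * |(d : ℝ)| + |(b : ℝ)| * |(c : ℝ)| := by rw [abs_mul, abs_mul]
      _ ≤ (2 ^ (10 * s * n) / 2) * (2 ^ (10 * s * n) / 2) +
          (2 ^ (10 * s * n) / 2) * (2 ^ (10 * s * n) / 2) := by
          apply add_le_add
          · exact mul_le_mul (by linarith) (by linarith) (abs_nonneg _) (by positivity)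
          · exact mul_le_mul (by linarith) (by linarith) (abs_nonneg _) (by positivity)
      _ = (2 ^ (10 * s * n) * 2 ^ (10 * s * n)) / 2 := by ring
      _ ≤ 2 ^ (10 * s * n) * 2 ^ (10 * s * n) := by
          have : (0 : ℝ) ≤ 2 ^ (10 * s * n) * 2 ^ (10 * s * n) := by positivity
          linarith
      _ = 2 ^ (20 * s * n) := by rw [← pow_add]; congr 1; ring
  · intro i
    fin_cases i
    · have hrw : ψ 0 - ((e.sign * (d * round θ0 - b * round θ1) : ℤ) : ℝ) / (e.natAbs : ℝ) =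
          ((d : ℝ) * (θ0 - round θ0) - b * (θ1 - round θ1)) / e := by
        rw [bl_sgn e _ hd, eq_div_iff heR, sub_mul, div_mul_cancel₀ _ heR, hdetR, t0, t1]
        push_cast
        ring
      have := (key d b hed' heb').1
      rw [← hrw] at this
      simpa using this
    · have hrw : ψ 1 - ((e.sign * (a * round θ1 - c * round θ0) : ℤ) : ℝ) / (e.natAbs : ℝ) =
          ((a : ℝ) * (θ1 - round θ1) - c * (θ0 - round θ0)) / e := by
        rw [bl_sgn e _ hd, eq_div_iff heR, sub_mul, div_mul_cancel₀ _ heR, hdetR, t0, t1]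
        push_cast
        ring
      have := (key a c hea' hec').2
      rw [← hrw] at this
      simpa using this

theorem bl_final (t c M x : ℝ) (ht : 1 ≤ t) (hc : 1 ≤ c) (hM : t ^ 20 ≤ M * c)
    (h17 : 17 * c ^ 10 ≤ t ^ 5) (hM0 : 0 < M)
    (h : x ^ 2 * M ^ 10 ≤ 16 * (t ^ 90) ^ 2 * t ^ 11 + (t ^ 85) ^ 2 * M) : x ≤ 1 / t ^ 2 := by
  have ht0 : 0 < t := by linarith
  have hc0 : 0 < c := by linarith
  have h10 : (t ^ 20) ^ 10 ≤ (M * c) ^ 10 := pow_le_pow_left₀ (by positivity) hM 10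
  have h9 : (t ^ 20) ^ 9 ≤ (M * c) ^ 9 := pow_le_pow_left₀ (by positivity) hM 9
  -- bounds for the two terms
  have e1 : 16 * (t ^ 90) ^ 2 * t ^ 11 ≤ 16 * c ^ 10 / t ^ 9 * M ^ 10 := by
    rw [div_mul_eq_mul_div, le_div_iff₀ (by positivity)]
    calc 16 * (t ^ 90) ^ 2 * t ^ 11 * t ^ 9 = 16 * (t ^ 20) ^ 10 := by ring
      _ ≤ 16 * (M * c) ^ 10 := by linarith
      _ = 16 * c ^ 10 * M ^ 10 := by ring
  have e2 : (t ^ 85) ^ 2 * M ≤ c ^ 9 / t ^ 10 * M ^ 10 := by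
    rw [div_mul_eq_mul_div, le_div_iff₀ (by positivity)]
    calc (t ^ 85) ^ 2 * M * t ^ 10 = (t ^ 20) ^ 9 * M := by ring
      _ ≤ (M * c) ^ 9 * M := mul_le_mul_of_nonneg_right h9 hM0.le
      _ = c ^ 9 * M ^ 10 := by ring
  have e3 : x ^ 2 ≤ 16 * c ^ 10 / t ^ 9 + c ^ 9 / t ^ 10 := by
    have : x ^ 2 * M ^ 10 ≤ (16 * c ^ 10 / t ^ 9 + c ^ 9 / t ^ 10) * M ^ 10 := by
      rw [add_mul]; linarith
    exact le_of_mul_le_mul_right this (by positivity)
  have e4 : c ^ 9 / t ^ 10 ≤ c ^ 10 / t ^ 9 := by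
    apply div_le_div₀ (by positivity) (pow_le_pow_right₀ hc (by norm_num)) (by positivity)
    exact pow_le_pow_right₀ ht (by norm_num)
  have e5 : 17 * c ^ 10 / t ^ 9 ≤ 1 / t ^ 4 := by
    rw [div_le_div_iff₀ (by positivity) (by positivity)]
    calc 17 * c ^ 10 * t ^ 4 ≤ t ^ 5 * t ^ 4 := mul_le_mul_of_nonneg_right h17 (by positivity)
      _ = 1 * t ^ 9 := by ring
  have e6 : x ^ 2 ≤ (1 / t ^ 2) ^ 2 := by
    have : (1 / t ^ 2) ^ 2 = 1 / t ^ 4 := by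
      rw [div_pow, one_pow, ← pow_mul]
    rw [this]
    have e7 : 17 * c ^ 10 / t ^ 9 = 16 * c ^ 10 / t ^ 9 + c ^ 10 / t ^ 9 := by ring
    linarith
  exact le_of_sq_le_sq e6 (by positivity)

theorem BL (s : ℕ) (hs : 50 ≤ s) (n : ℕ) (hn : 1 ≤ n) (ψ : Fin 2 → ℝ) :
    ‖Av s (10 * n) (fun P => ee (dt P ψ))‖ ≤ 1 / 2 ^ (2 * s * n) ∨
      NearQ (2 ^ (20 * s * n)) (1 / 2 ^ (75 * s * n)) ψ := by
  by_cases hQ : NearQ (2 ^ (20 * s * n)) (1 / 2 ^ (75 * s * n)) ψ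
  · exact Or.inr hQ
  left
  have hs1 : 1 ≤ s := by omega
  set N : ℝ := ((Lt s).card : ℝ) with hN
  have hN0 : 0 < N := by
    have h1 := card_Lt_ge s hs
    have h2 : (0 : ℝ) < 2 ^ s := by positivity
    linarith
  set t : ℝ := 2 ^ (s * n) with ht
  set Y : ℕ := 2 ^ (90 * s * n) with hY
  have hY1 : 1 ≤ Y := Nat.one_le_two_pow
  have hYt : (Y : ℝ) = t ^ 90 := by
    rw [hY, ht, ← pow_mul]
    push_cast
    congr 1
    ring
  obtain ⟨F, hF0, hF1, -, hF⟩ := fejer_box Y hY1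
  choose V hV0 hV4 hVn hVs using hF
  set W := Wd s n with hW
  set u : M2 → ℝ := fun G => act G ψ 0 with hu
  set v : M2 → ℝ := fun G => act G ψ 1 with hv
  set I := Icc (-(2 * Y : ℤ)) (2 * Y) with hI
  -- the average as a double average
  have hdt : ∀ P G : M2, dt (P * G) ψ = (P 1 0 : ℝ) * u G + (P 1 1 : ℝ) * v G := by
    intro P G
    rw [dt_mul]
    rfl
  have e1 : Av s (10 * n) (fun P => ee (dt P ψ)) =
      Av s (9 * n) (fun P => (N ^ n)⁻¹ • ∑ G ∈ W, ee ((P 1 0 : ℝ) * u G + (P 1 1 : ℝ) * v G)) := by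
    have h10 : 10 * n = 9 * n + n := by ring
    rw [h10, Av_split, Av_comm]
    refine Av_congr s (9 * n) _ _ fun P _ => ?_
    rw [Av_eq_sum]
    simp only [hdt]
    rfl
  have e2 : ‖Av s (10 * n) (fun P => ee (dt P ψ))‖ ^ 2 ≤
      (N ^ (9 * n))⁻¹ * ∑ P ∈ Wd s (9 * n),
        ((N ^ n)⁻¹) ^ 2 * ‖∑ G ∈ W, ee ((P 1 0 : ℝ) * u G + (P 1 1 : ℝ) * v G)‖ ^ 2 := by
    rw [e1]
    refine (Av_sq s (9 * n) hs _).trans ?_
    rw [Av_eq_sum, smul_eq_mul]
    apply le_of_eq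
    congr 1
    refine Finset.sum_congr rfl fun P _ => ?_
    rw [norm_smul, mul_pow, Real.norm_of_nonneg (by positivity)]
  -- enlarge the sum over the second rows
  have e3 : ∑ P ∈ Wd s (9 * n), ‖∑ G ∈ W, ee ((P 1 0 : ℝ) * u G + (P 1 1 : ℝ) * v G)‖ ^ 2 ≤
      ∑ q ∈ I ×ˢ I, F q.1 * F q.2 * ‖∑ G ∈ W, ee ((q.1 : ℝ) * u G + (q.2 : ℝ) * v G)‖ ^ 2 := by
    have hinj : Set.InjOn (fun P : M2 => ((P 1 0, P 1 1) : ℤ × ℤ)) (Wd s (9 * n) : Set M2) := by
      intro P hP P' hP' hPP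
      simp only [Prod.mk.injEq] at hPP
      apply row_inj s (9 * n) P P' hP hP'
      funext j
      fin_cases j
      · exact hPP.1
      · exact hPP.2
    have hnn : ∀ i j, ∀ P ∈ Wd s (9 * n), 0 ≤ P i j ∧ P i j ≤ (Y : ℤ) := by
      intro i j P hP
      refine ⟨Wd_nonneg s _ P hP i j, ?_⟩
      have h1 := Wd_upper s (9 * n) hs1 (by omega) P hP i j
      have h2 := Wd_nonneg s _ P hP i j
      have h3 : (Y : ℤ) = 2 ^ (10 * s * (9 * n)) := by
        rw [hY]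
        push_cast
        congr 1
        ring
      rw [h3]
      linarith
    calc ∑ P ∈ Wd s (9 * n), ‖∑ G ∈ W, ee ((P 1 0 : ℝ) * u G + (P 1 1 : ℝ) * v G)‖ ^ 2
        = ∑ q ∈ (Wd s (9 * n)).image (fun P : M2 => ((P 1 0, P 1 1) : ℤ × ℤ)),
            ‖∑ G ∈ W, ee ((q.1 : ℝ) * u G + (q.2 : ℝ) * v G)‖ ^ 2 := by
          rw [Finset.sum_image hinj]
      _ ≤ ∑ q ∈ (Wd s (9 * n)).image (fun P : M2 => ((P 1 0, P 1 1) : ℤ × ℤ)),
            F q.1 * F q.2 * ‖∑ G ∈ W, ee ((q.1 : ℝ) * u G + (q.2 : ℝ) * v G)‖ ^ 2 := by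
          apply Finset.sum_le_sum
          intro q hq
          obtain ⟨P, hP, rfl⟩ := Finset.mem_image.mp hq
          have f1 : 1 ≤ F (P 1 0) := by
            apply hF1
            rw [abs_of_nonneg (hnn 1 0 P hP).1]
            exact (hnn 1 0 P hP).2
          have f2 : 1 ≤ F (P 1 1) := by
            apply hF1
            rw [abs_of_nonneg (hnn 1 1 P hP).1]
            exact (hnn 1 1 P hP).2
          have f3 : 1 ≤ F (P 1 0) * F (P 1 1) := one_le_mul_of_one_le_of_one_le f1 f2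
          exact le_mul_of_one_le_left (by positivity) f3
      _ ≤ _ := by
          apply Finset.sum_le_sum_of_subset_of_nonneg
          · intro q hq
            obtain ⟨P, hP, rfl⟩ := Finset.mem_image.mp hq
            rw [Finset.mem_product, hI]
            have g1 := hnn 1 0 P hP
            have g2 := hnn 1 1 P hP
            simp only [Finset.mem_Icc]
            refine ⟨⟨?_, ?_⟩, ⟨?_, ?_⟩⟩ <;> linarith [g1.1, g1.2, g2.1, g2.2]
          · intro q _ _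
            exact mul_nonneg (mul_nonneg (hF0 _) (hF0 _)) (by positivity)
  rw [bl_box W u v I F V hVs] at e3
  -- the terms
  have hprod : ∀ x y : ℝ, V x * V y ≤ 16 * (t ^ 90) ^ 2 := by
    intro x y
    have h1 := hV4 x
    have h2 := hV4 y
    rw [hYt] at h1 h2
    calc V x * V y ≤ (4 * t ^ 90) * (4 * t ^ 90) :=
          mul_le_mul h1 h2 (hV0 y) (le_trans (hV0 x) h1)
      _ = 16 * (t ^ 90) ^ 2 := by ring
  have ht0 : 0 < t := by rw [ht]; positivity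
  have hK : ∀ x : ℝ, 1 / 2 ^ (85 * s * n) < nd x → V x * (4 * t ^ 90) ≤ (t ^ 85) ^ 2 := by
    intro x hx
    have h1 := hVn x
    rw [hYt] at h1
    have hk : (2 : ℝ) ^ (85 * s * n) = t ^ 85 := by
      rw [ht, ← pow_mul]; congr 1; ring
    rw [hk] at hx
    have h2 : (1 / t ^ 85) ^ 2 ≤ nd x ^ 2 := pow_le_pow_left₀ (by positivity) hx.le 2
    have h3 : V x * (4 * t ^ 90) * (1 / t ^ 85) ^ 2 ≤ 1 := by
      calc V x * (4 * t ^ 90) * (1 / t ^ 85) ^ 2 ≤ V x * (4 * t ^ 90) * nd x ^ 2 :=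
            mul_le_mul_of_nonneg_left h2 (mul_nonneg (hV0 x) (by positivity))
        _ = V x * (4 * t ^ 90 * nd x ^ 2) := by ring
        _ ≤ 1 := h1
    rw [div_pow, one_pow, mul_one_div, div_le_one (by positivity)] at h3
    exact h3
  have hdet : ∀ G ∈ W, ∀ G' ∈ W, V (u G - u G') * V (v G - v G') ≤
      16 * (t ^ 90) ^ 2 * (if (G - G').det = 0 then (1 : ℝ) else 0) + (t ^ 85) ^ 2 := by
    intro G hG G' hG'
    by_cases hd : (G - G').det = 0
    · rw [if_pos hd, mul_one]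
      have := hprod (u G - u G') (v G - v G')
      have h2 : 0 ≤ (t ^ 85) ^ 2 := by positivity
      linarith
    · rw [if_neg hd, mul_zero, zero_add]
      rcases bl_claim s n hs1 hn ψ hQ G G' hG hG' hd with h | h
      · refine le_trans ?_ (hK _ h)
        apply mul_le_mul_of_nonneg_left _ (hV0 _)
        rw [← hYt]
        exact hV4 _
      · refine le_trans ?_ (hK _ h)
        rw [mul_comm]
        apply mul_le_mul_of_nonneg_left _ (hV0 _)
        rw [← hYt]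
        exact hV4 _
  have hcardW : (W.card : ℝ) = N ^ n := by
    rw [hW, card_Wd, hN]
    push_cast
    rfl
  have e4 : ∑ p ∈ W ×ˢ W, V (u p.1 - u p.2) * V (v p.1 - v p.2) ≤
      N ^ n * (16 * (t ^ 90) ^ 2 * t ^ 11 + (t ^ 85) ^ 2 * N ^ n) := by
    rw [Finset.sum_product]
    have h1 : ∀ G ∈ W, ∑ G' ∈ W, V (u G - u G') * V (v G - v G') ≤
        16 * (t ^ 90) ^ 2 * t ^ 11 + (t ^ 85) ^ 2 * N ^ n := by
      intro G hG
      refine (Finset.sum_le_sum (hdet G hG)).trans ?_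
      rw [Finset.sum_add_distrib, ← Finset.mul_sum, Finset.sum_const, nsmul_eq_mul, hcardW,
        Finset.sum_boole]
      have h2 := det_zero_count s hs n hn G hG
      have h3 : (2 : ℝ) ^ (11 * s * n) = t ^ 11 := by
        rw [ht, ← pow_mul]; congr 1; ring
      rw [h3] at h2
      have h4 : 16 * (t ^ 90) ^ 2 * (((W.filter (fun G' => (G - G').det = 0)).card : ℕ) : ℝ) ≤
          16 * (t ^ 90) ^ 2 * t ^ 11 := mul_le_mul_of_nonneg_left h2 (by positivity)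
      linarith
    calc ∑ G ∈ W, ∑ G' ∈ W, V (u G - u G') * V (v G - v G')
        ≤ ∑ G ∈ W, (16 * (t ^ 90) ^ 2 * t ^ 11 + (t ^ 85) ^ 2 * N ^ n) := Finset.sum_le_sum h1
      _ = _ := by rw [Finset.sum_const, nsmul_eq_mul, hcardW]
  -- put together
  set M : ℝ := N ^ n with hM
  have hM0 : 0 < M := by rw [hM]; positivity
  set x : ℝ := ‖Av s (10 * n) (fun P => ee (dt P ψ))‖ with hx
  have e5 : x ^ 2 * M ^ 10 ≤ 16 * (t ^ 90) ^ 2 * t ^ 11 + (t ^ 85) ^ 2 * M := by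
    rw [← Finset.mul_sum] at e2
    have h1 : x ^ 2 ≤ (M ^ 9)⁻¹ * ((M⁻¹) ^ 2 * (M * (16 * (t ^ 90) ^ 2 * t ^ 11 +
        (t ^ 85) ^ 2 * M))) := by
      refine e2.trans ?_
      have h9 : N ^ (9 * n) = M ^ 9 := by rw [hM, ← pow_mul]; congr 1; ring
      rw [h9]
      apply mul_le_mul_of_nonneg_left _ (by positivity)
      apply mul_le_mul_of_nonneg_left _ (by positivity)
      exact e3.trans e4
    have h2 : (M ^ 9)⁻¹ * ((M⁻¹) ^ 2 * (M * (16 * (t ^ 90) ^ 2 * t ^ 11 +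
        (t ^ 85) ^ 2 * M))) * M ^ 10 = 16 * (t ^ 90) ^ 2 * t ^ 11 + (t ^ 85) ^ 2 * M := by
      field_simp
    calc x ^ 2 * M ^ 10 ≤ _ := mul_le_mul_of_nonneg_right h1 (by positivity)
      _ = _ := h2
  have hres : x ≤ 1 / t ^ 2 := by
    apply bl_final t (320 ^ n) M x _ _ _ _ hM0 e5
    · rw [ht]; exact one_le_pow₀ (by norm_num)
    · exact one_le_pow₀ (by norm_num)
    · have h1 := card_Lt s hs
      rw [div_le_iff₀ (by norm_num)] at h1
      have h2 := pow_le_pow_left₀ (by positivity) h1 n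
      rw [mul_pow, ← pow_mul] at h2
      have h3 : t ^ 20 = 2 ^ (20 * s * n) := by
        rw [ht, ← pow_mul]; congr 1; ring
      rw [h3]
      exact h2
    · have h1 : (17 : ℝ) ≤ 2 ^ (5 * n) := by
        calc (17 : ℝ) ≤ 2 ^ 5 := by norm_num
          _ ≤ 2 ^ (5 * n) := pow_le_pow_right₀ (by norm_num) (by omega)
      have h2 : ((320 : ℝ) ^ n) ^ 10 ≤ 2 ^ (90 * n) := by
        calc ((320 : ℝ) ^ n) ^ 10 ≤ ((2 ^ 9) ^ n) ^ 10 := by
              apply pow_le_pow_left₀ (by positivity)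
              exact pow_le_pow_left₀ (by norm_num) (by norm_num) n
          _ = 2 ^ (90 * n) := by rw [← pow_mul, ← pow_mul]; congr 1; ring
      calc 17 * ((320 : ℝ) ^ n) ^ 10 ≤ 2 ^ (5 * n) * 2 ^ (90 * n) :=
            mul_le_mul h1 h2 (by positivity) (by positivity)
        _ = 2 ^ (95 * n) := by rw [← pow_add]; congr 1; ring
        _ ≤ t ^ 5 := by
            rw [ht, ← pow_mul]
            apply pow_le_pow_right₀ (by norm_num)
            nlinarith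
  have h2s : (2 : ℝ) ^ (2 * s * n) = t ^ 2 := by
    rw [ht, ← pow_mul]; congr 1; ring
  rw [h2s]
  exact hres

end Pool.Agent.H1.PP
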