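import Pool.Agent.H1.PP.Fej

/-!
# PP-08 Bmp: the tent as a finite sum of exponentials

PROOF.  Let `M` be an even integer with `M ≥ 2 (B + |m| + R + 2)`.  For `|x| ≤ B` put `y = x - m`, so `|y| < M/2`.
`tri R m x = (1/R) #{(i, j) ∈ [0, R)² : i - j = y} = (1/R) #{(i, j) : i - j ≡ y mod M}` (`|i - j - y| < M`)
`= (1/(R M)) ∑_{k} |D(k/M)|² e(- k y / M)`, `D(θ) = ∑_{i < R} e(i θ)`, `k` over a complete residue system
`-M/2 < k ≤ M/2`.  So the frequencies are `f_k = -k/M` and `τ_k = |D(k/M)|² e(k m / M) / (R M)`.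
`∑ |τ_k| = (1/(R M)) ∑_k |D(k/M)|² = (1/R) R = 1` (the value at `y = 0`).
`|D(k/M)| ≤ 1/(2 ‖k/M‖) = M/(2|k|)`, so `|τ_k| ≤ M/(4 R k²)`; `|f_k| > H/R` means `|k| > J = H M / R ≥ 2`, and
`∑_{|k| > J} M/(4 R k²) ≤ (M/(4R)) * 2 * (2/J) = 1/H` (`∑_{k > J} 1/k² ≤ 1/⌊J⌋ ≤ 2/J`).
-/

set_option autoImplicit false

open Finset

namespace Pool.Agent.H1.PP

open Pool.Agent.H10.RP (ee nd Lam)

theorem bmp_nd (x : ℝ) (hx : |x| ≤ 1 / 2) : |x| ≤ nd x := by
  unfold nd
  by_cases h : round x = 0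
  · rw [h]
    simp
  · have h1 : (1 : ℝ) ≤ |((round x : ℤ) : ℝ)| := by
      exact_mod_cast Int.one_le_abs h
    have h2 : |((round x : ℤ) : ℝ)| ≤ |x| + |x - round x| := by
      have h3 := abs_sub_abs_le_abs_sub ((round x : ℤ) : ℝ) x
      rw [abs_sub_comm] at h3
      linarith
    linarith

/-- the complete residue system `-K ≤ k < K` modulo `2 K` -/
theorem bmp_orth (K : ℕ) (hK : 1 ≤ K) (z : ℤ) (hz : |z| < 2 * K) :
    ∑ j ∈ range (2 * K), ee (((j : ℝ) - K) / (2 * K) * z) = if z = 0 then (2 * K : ℂ) else 0 := by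
  have h1 := Pool.Agent.H10.RP.sum_ee_mod (2 * K) (by omega) z
  have hK0 : (K : ℝ) ≠ 0 := by positivity
  have h2 : ∀ j ∈ range (2 * K), ee (((j : ℝ) - K) / (2 * K) * z) =
      ee (-((K : ℝ) * z / (2 * K))) * ee ((j : ℝ) * z / ((2 * K : ℕ) : ℝ)) := by
    intro j _
    rw [← Pool.Agent.H10.RP.ee_add]
    congr 1
    push_cast
    field_simp
    ring
  rw [sum_congr rfl h2, ← mul_sum, h1]
  by_cases h0 : z = 0
  · subst h0
    simp [Pool.Agent.H10.RP.ee_zero]
  · rw [if_neg h0, if_neg, mul_zero]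
    rintro ⟨t, ht⟩
    have ht0 : t ≠ 0 := by
      rintro rfl
      exact h0 (by rw [ht, mul_zero])
    have h3 : 1 ≤ |t| := Int.one_le_abs ht0
    rw [ht, abs_mul] at hz
    have h4 : |((2 * K : ℕ) : ℤ)| = 2 * K := by
      rw [abs_of_nonneg (by positivity)]
      push_cast
      ring
    rw [h4] at hz
    nlinarith

/-- the sum of `g (j)`, `g(K - j)` over the tail -/
theorem bmp_tail (L n : ℕ) (hL : 1 ≤ L) :
    ∑ j ∈ range n, (if L < j then ((j : ℝ) ^ 2)⁻¹ else 0) ≤ (L : ℝ)⁻¹ := by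
  rw [← sum_filter]
  rcases le_or_gt n L with h | h
  · have : (range n).filter (fun j => L < j) = ∅ := by
      ext j
      simp only [mem_filter, mem_range, notMem_empty, iff_false]
      omega
    rw [this, sum_empty]
    positivity
  · have h1 : ∑ j ∈ (range n).filter (fun j => L < j), ((j : ℝ) ^ 2)⁻¹ ≤
        ∑ j ∈ Ioc L n, ((j : ℝ) ^ 2)⁻¹ := by
      refine sum_le_sum_of_subset_of_nonneg ?_ (fun _ _ _ => by positivity)
      intro j
      simp only [mem_filter, mem_range, mem_Ioc]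
      omega
    have h2 := sum_Ioc_inv_sq_le_sub (α := ℝ) (k := L) (n := n) (by omega) h.le
    have h3 : (0 : ℝ) ≤ (n : ℝ)⁻¹ := by positivity
    linarith

theorem tri_expand (R : ℕ) (hR : 1 ≤ R) (m : ℤ) (B : ℕ) : ∃ (n : ℕ) (τ : ℕ → ℂ) (f : ℕ → ℝ),
    (∀ x : ℤ, |x| ≤ (B : ℤ) → (tri R m x : ℂ) = ∑ j ∈ range n, τ j * ee (f j * x)) ∧
    ∑ j ∈ range n, ‖τ j‖ ≤ 1 ∧
    ∀ H : ℝ, 1 ≤ H → ∑ j ∈ (range n).filter (fun j => H / R < |f j|), ‖τ j‖ ≤ 1 / H := by
  obtain ⟨K, hKdef⟩ : ∃ K : ℕ, K = B + m.natAbs + R + 2 := ⟨_, rfl⟩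
  have hK : 1 ≤ K := by omega
  have hK0 : (0 : ℝ) < K := by exact_mod_cast hK
  have hR0 : (0 : ℝ) < R := by exact_mod_cast hR
  let D : ℕ → ℝ := fun j => ‖∑ i ∈ range R, ee (i * (((j : ℝ) - K) / (2 * K)))‖
  have hD : ∀ j, ((D j ^ 2 : ℝ) : ℂ) = ∑ y ∈ Icc (-(R : ℤ)) R, (((R : ℝ) - |(y : ℝ)| : ℝ) : ℂ) *
      ee (y * (((j : ℝ) - K) / (2 * K))) := fun j => (fej_norm R _).symm
  -- the weighted sum of `D ^ 2`
  have key : ∀ z : ℤ, |z| + R < 2 * K → ∑ j ∈ range (2 * K),
      ((D j ^ 2 : ℝ) : ℂ) * ee (((j : ℝ) - K) / (2 * K) * z) =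
        (2 * K : ℂ) * ((max 0 ((R : ℝ) - |(z : ℝ)|) : ℝ) : ℂ) := by
    intro z hz
    have e1 : ∀ j ∈ range (2 * K), ((D j ^ 2 : ℝ) : ℂ) * ee (((j : ℝ) - K) / (2 * K) * z) =
        ∑ y ∈ Icc (-(R : ℤ)) R, (((R : ℝ) - |(y : ℝ)| : ℝ) : ℂ) *
          ee (((j : ℝ) - K) / (2 * K) * ((y + z : ℤ) : ℝ)) := by
      intro j _
      rw [hD, sum_mul]
      refine sum_congr rfl fun y _ => ?_
      rw [mul_assoc, ← Pool.Agent.H10.RP.ee_add]
      congr 2
      push_cast
      ring
    rw [sum_congr rfl e1, sum_comm]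
    have e2 : ∀ y ∈ Icc (-(R : ℤ)) R, ∑ j ∈ range (2 * K), (((R : ℝ) - |(y : ℝ)| : ℝ) : ℂ) *
        ee (((j : ℝ) - K) / (2 * K) * ((y + z : ℤ) : ℝ)) =
        if y = -z then (2 * K : ℂ) * (((R : ℝ) - |(y : ℝ)| : ℝ) : ℂ) else 0 := by
      intro y hy
      rw [mem_Icc] at hy
      have hyz : |y + z| < 2 * K := by
        have h1 : |y| ≤ R := abs_le.2 hy
        have h2 := abs_add_le y z
        linarith
      rw [← mul_sum, bmp_orth K hK _ hyz]
      by_cases h : y = -z
      · rw [if_pos h, if_pos (by omega), mul_comm]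
      · rw [if_neg h, if_neg (by omega), mul_zero]
    rw [sum_congr rfl e2, sum_ite_eq' (Icc (-(R : ℤ)) R) (-z)]
    by_cases h : -z ∈ Icc (-(R : ℤ)) R
    · rw [if_pos h]
      rw [mem_Icc] at h
      have h1 : |(z : ℝ)| ≤ R := by
        rw [abs_le]
        constructor
        · exact_mod_cast (by omega : -(R : ℤ) ≤ z)
        · exact_mod_cast (by omega : z ≤ (R : ℤ))
      rw [max_eq_right (by linarith), Int.cast_neg, abs_neg]
    · rw [if_neg h]
      rw [mem_Icc] at h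
      have h1 : (R : ℝ) ≤ |(z : ℝ)| := by
        have h2 : (R : ℤ) ≤ |z| := by
          by_contra h3
          push Not at h3
          rw [abs_lt] at h3
          exact h ⟨by omega, by omega⟩
        exact_mod_cast h2
      rw [max_eq_left (by linarith)]
      simp
  refine ⟨2 * K, fun j => ((D j ^ 2 / (R * (2 * K)) : ℝ) : ℂ) *
    ee (-(((j : ℝ) - K) / (2 * K) * m)), fun j => ((j : ℝ) - K) / (2 * K), ?_, ?_, ?_⟩
  · intro x hx
    have hz : |x - m| + R < 2 * K := by
      have h1 := abs_sub x m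
      have h2 : |m| = (m.natAbs : ℤ) := Int.abs_eq_natAbs m
      omega
    have h1 := key (x - m) hz
    have e1 : ∀ j ∈ range (2 * K), ((D j ^ 2 / (R * (2 * K)) : ℝ) : ℂ) *
        ee (-(((j : ℝ) - K) / (2 * K) * m)) * ee (((j : ℝ) - K) / (2 * K) * x) =
        (1 / (R * (2 * K)) : ℂ) * (((D j ^ 2 : ℝ) : ℂ) *
          ee (((j : ℝ) - K) / (2 * K) * ((x - m : ℤ) : ℝ))) := by
      intro j _
      rw [mul_assoc, ← Pool.Agent.H10.RP.ee_add]
      have e2 : -(((j : ℝ) - K) / (2 * K) * m) + ((j : ℝ) - K) / (2 * K) * x =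
          ((j : ℝ) - K) / (2 * K) * ((x - m : ℤ) : ℝ) := by
        push_cast
        ring
      rw [e2]
      push_cast
      ring
    rw [sum_congr rfl e1, ← mul_sum, h1]
    have hR1 : (R : ℂ) ≠ 0 := by exact_mod_cast hR0.ne'
    have hK1 : (K : ℂ) ≠ 0 := by exact_mod_cast hK0.ne'
    have e3 : tri R m x = max 0 ((R : ℝ) - |((x - m : ℤ) : ℝ)|) / R := by
      unfold tri
      have e4 : 1 - |(x : ℝ) - m| / R = ((R : ℝ) - |((x - m : ℤ) : ℝ)|) / R := by
        push_cast
        field_simp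
      have e5 := max_div_div_right hR0.le 0 ((R : ℝ) - |((x - m : ℤ) : ℝ)|)
      rw [zero_div] at e5
      rw [e4, e5]
    rw [e3]
    push_cast
    field_simp
  · have h1 := key 0 (by rw [abs_zero]; omega)
    have e1 : ∀ j ∈ range (2 * K), ‖((D j ^ 2 / (R * (2 * K)) : ℝ) : ℂ) *
        ee (-(((j : ℝ) - K) / (2 * K) * m))‖ = D j ^ 2 / (R * (2 * K)) := by
      intro j _
      rw [norm_mul, Pool.Agent.H10.RP.norm_ee, mul_one, Complex.norm_real, Real.norm_eq_abs,
        abs_of_nonneg (by positivity)]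
    rw [sum_congr rfl e1, ← sum_div, div_le_one (by positivity)]
    have h2 : ∑ j ∈ range (2 * K), D j ^ 2 = 2 * K * R := by
      have h3 : ((∑ j ∈ range (2 * K), D j ^ 2 : ℝ) : ℂ) = ((2 * K * R : ℝ) : ℂ) := by
        have h4 : ∀ j ∈ range (2 * K), ((D j ^ 2 : ℝ) : ℂ) *
            ee (((j : ℝ) - K) / (2 * K) * ((0 : ℤ) : ℝ)) = ((D j ^ 2 : ℝ) : ℂ) := by
          intro j _
          rw [Int.cast_zero, mul_zero, Pool.Agent.H10.RP.ee_zero, mul_one]
        rw [sum_congr rfl h4] at h1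
        rw [Complex.ofReal_sum, h1, Int.cast_zero, abs_zero, sub_zero, max_eq_right hR0.le]
        push_cast
        ring
      exact_mod_cast h3
    rw [h2]
    linarith
  · intro H hH
    have hH0 : 0 < H := by linarith
    obtain ⟨J, hJ⟩ : ∃ J : ℝ, J = H * (2 * K) / R := ⟨_, rfl⟩
    have hKR : (R : ℝ) ≤ K := by exact_mod_cast (by omega : R ≤ K)
    have hJ2 : 2 ≤ J := by
      rw [hJ, le_div_iff₀ hR0]
      nlinarith
    obtain ⟨L, hL⟩ : ∃ L : ℕ, L = ⌊J⌋₊ := ⟨_, rfl⟩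
    have hL1 : 1 ≤ L := by
      rw [hL]
      exact Nat.le_floor (by push_cast; linarith)
    have hLJ : J / 2 ≤ L := by
      have h1 := Nat.lt_floor_add_one J
      rw [← hL] at h1
      have h2 : (1 : ℝ) ≤ L := by exact_mod_cast hL1
      linarith
    have hL0 : (0 : ℝ) < L := by linarith
    let w : ℕ → ℝ := fun k => if L < k then ((k : ℝ) ^ 2)⁻¹ else 0
    have hterm : ∀ j ∈ range (2 * K), (if H / R < |((j : ℝ) - K) / (2 * K)| then
        ‖((D j ^ 2 / (R * (2 * K)) : ℝ) : ℂ) * ee (-(((j : ℝ) - K) / (2 * K) * m))‖ else 0) ≤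
        K / (2 * R) * w ((j : ℤ) - K).natAbs := by
      intro j hj
      rw [mem_range] at hj
      have hk : ((((j : ℤ) - K).natAbs : ℕ) : ℝ) = |(j : ℝ) - K| := by
        rw [Nat.cast_natAbs]
        push_cast
        rfl
      have hw0 : 0 ≤ w ((j : ℤ) - K).natAbs := by
        change 0 ≤ ite _ _ _
        split_ifs
        · positivity
        · exact le_rfl
      split_ifs with hc
      · have h1 : J < |(j : ℝ) - K| := by
          rw [abs_div, abs_of_pos (by positivity : (0 : ℝ) < 2 * K), div_lt_div_iff₀ hR0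
            (by positivity)] at hc
          rw [hJ, div_lt_iff₀ hR0]
          exact hc
        have h2 : L < ((j : ℤ) - K).natAbs := by
          rw [hL, Nat.floor_lt (by linarith), hk]
          exact h1
        have h3 : w ((j : ℤ) - K).natAbs = (|(j : ℝ) - K| ^ 2)⁻¹ := by
          change ite _ _ _ = _
          rw [if_pos h2, hk]
        have hpos : 0 < |(j : ℝ) - K| := by linarith
        rw [h3, norm_mul, Pool.Agent.H10.RP.norm_ee, mul_one, Complex.norm_real,
          Real.norm_eq_abs, abs_of_nonneg (by positivity)]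
        have h4 : |((j : ℝ) - K) / (2 * K)| ≤ 1 / 2 := by
          rw [abs_div, abs_of_pos (by positivity : (0 : ℝ) < 2 * K),
            div_le_div_iff₀ (by positivity) two_pos, one_mul]
          have h5 : |(j : ℝ) - K| ≤ K := by
            rw [abs_le]
            constructor
            · have := Nat.cast_nonneg (α := ℝ) j
              linarith
            · have : (j : ℝ) ≤ 2 * K := by exact_mod_cast hj.le
              linarith
          linarith
        have h5 := bmp_nd _ h4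
        have h6 : D j * (2 * nd (((j : ℝ) - K) / (2 * K))) ≤ 1 := fej_nd R _
        have hD0 : 0 ≤ D j := norm_nonneg _
        have h7 : D j * (|(j : ℝ) - K| / K) ≤ 1 := by
          have h8 : |(j : ℝ) - K| / K = 2 * |((j : ℝ) - K) / (2 * K)| := by
            rw [abs_div, abs_of_pos (by positivity : (0 : ℝ) < 2 * K)]
            field_simp
          rw [h8]
          nlinarith [mul_le_mul_of_nonneg_left h5 hD0]
        have h9 : D j * |(j : ℝ) - K| ≤ K := by
          have h10 : D j * (|(j : ℝ) - K| / K) = D j * |(j : ℝ) - K| / K := by ring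
          rw [h10, div_le_one hK0] at h7
          exact h7
        have h11 : D j ^ 2 * |(j : ℝ) - K| ^ 2 ≤ K ^ 2 := by
          rw [← mul_pow]
          exact pow_le_pow_left₀ (by positivity) h9 2
        rw [div_le_iff₀ (by positivity), ← div_eq_mul_inv, div_mul_eq_mul_div,
          le_div_iff₀ (by positivity)]
        have h12 : (K : ℝ) / (2 * R) * (R * (2 * K)) = K ^ 2 := by
          field_simp
        rw [h12]
        exact h11
      · positivity
    rw [sum_filter]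
    refine (sum_le_sum hterm).trans ?_
    rw [← mul_sum, two_mul K, sum_range_add]
    have h1 : ∑ j ∈ range K, w ((j : ℤ) - K).natAbs ≤ (L : ℝ)⁻¹ := by
      have e1 : ∑ j ∈ range K, w ((j : ℤ) - K).natAbs = ∑ j ∈ range (K + 1), w j := by
        rw [sum_range_succ' w K, ← sum_range_reflect (fun j : ℕ => w (j + 1))]
        have e2 : w 0 = 0 := if_neg (by omega)
        rw [e2, add_zero]
        refine sum_congr rfl fun i hi => ?_
        rw [mem_range] at hi
        congr 1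
        omega
      rw [e1]
      exact bmp_tail L (K + 1) hL1
    have h2 : ∑ j ∈ range K, w (((K + j : ℕ) : ℤ) - K).natAbs ≤ (L : ℝ)⁻¹ := by
      have e1 : ∑ j ∈ range K, w (((K + j : ℕ) : ℤ) - K).natAbs = ∑ j ∈ range K, w j := by
        refine sum_congr rfl fun i hi => ?_
        congr 1
        omega
      rw [e1]
      exact bmp_tail L K hL1
    have h3 : (K : ℝ) / (2 * R) * ((L : ℝ)⁻¹ + (L : ℝ)⁻¹) ≤ 1 / H := by
      have e1 : (K : ℝ) / (2 * R) * ((L : ℝ)⁻¹ + (L : ℝ)⁻¹) = K / (R * L) := by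
        field_simp
        ring
      rw [e1, div_le_div_iff₀ (by positivity) hH0, one_mul]
      have e2 : H * K / R ≤ L := by
        have : J / 2 = H * K / R := by
          rw [hJ]
          ring
        linarith
      rw [div_le_iff₀ hR0] at e2
      linarith
    refine le_trans (mul_le_mul_of_nonneg_left (add_le_add h1 h2) (by positivity)) h3

theorem tri_nonneg (R : ℕ) (m x : ℤ) : 0 ≤ tri R m x := le_max_left _ _

theorem tri_le_one (R : ℕ) (m x : ℤ) : tri R m x ≤ 1 := by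
  unfold tri
  refine max_le zero_le_one ?_
  have : 0 ≤ |(x : ℝ) - m| / R := by positivity
  linarith

theorem tri_ne_zero (R : ℕ) (hR : 1 ≤ R) (m x : ℤ) (h : tri R m x ≠ 0) : |x - m| < R := by
  by_contra h1
  push Not at h1
  apply h
  unfold tri
  have hR0 : (0 : ℝ) < R := by exact_mod_cast hR
  have h2 : (R : ℝ) ≤ |(x : ℝ) - m| := by exact_mod_cast h1
  have h3 : 1 ≤ |(x : ℝ) - m| / R := (one_le_div hR0).2 h2
  exact max_eq_left (by linarith)

theorem tri_ge_half (R : ℕ) (hR : 1 ≤ R) (m x : ℤ) (h : 2 * |x - m| ≤ R) : 1 / 2 ≤ tri R m x := by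
  unfold tri
  have hR0 : (0 : ℝ) < R := by exact_mod_cast hR
  have h2 : 2 * |(x : ℝ) - m| ≤ (R : ℝ) := by exact_mod_cast h
  have h3 : |(x : ℝ) - m| / R ≤ 1 / 2 := by
    rw [div_le_div_iff₀ hR0 two_pos]
    linarith
  refine le_trans ?_ (le_max_right _ _)
  linarith

end Pool.Agent.H1.PP
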