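import Pool.Agent.H1.PP.BL
import Pool.Agent.H1.PP.Bmp

/-!
# PP-09 BLp: the bilinear estimate with a bump

`T = 2^s`.  PROOF.  Let `B` bound all the entries `|(P * Γ) 1 j|`, `P ∈ Wd s (10 n)`.  Expand both tents by `tri_expand`
(`τ, f` for `m1`, `τ', f'` for `m2`):
`bmp (P Γ) e(dt (P Γ) ψ) = ∑_{j,k} τ_j τ'_k e(dt (P Γ) (ψ + (f_j, f'_k))) = ∑ τ_j τ'_k e(dt P (act Γ (ψ + (f_j, f'_k))))`.
Let `H = T^n`.  The terms with `|f_j| > H/R` or `|f'_k| > H/R` contribute at most `2/H = 2/T^n` in absolute value.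
For the others use `BL` at the vector `act Γ (ψ + φ)`, `φ = (f_j, f'_k)`, `|φ_i| ≤ H/R`.  If for one of them
`NearQ (T^(20 n)) (T^(-75 n)) (act Γ ψ + act Γ φ)` holds, then since `|(act Γ φ)_i| ≤ 2 mx Γ H / R ≤
4 * 8^(10 n) T^110 T^n / T^(100 n) ≤ T^(-75 n)` (that is `4 * 2^(30 n) * T^110 ≤ T^(24 n)`, true for `n ≥ 6`, `s ≥ 50`),
we get `NearQ (T^(20 n)) (2 T^(-75 n)) (act Γ ψ)`.  Otherwise all of them are at most `T^(-2 n)`, total
`≤ T^(-2n) + 2/T^n ≤ 3/T^n` (`∑ |τ_j| ∑ |τ'_k| ≤ 1`).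
-/

set_option autoImplicit false

open Finset

namespace Pool.Agent.H1.PP

open Pool.Agent.H10.RP (ee nd Lam)

theorem blp_act_add (Γ : M2) (ψ φ : Fin 2 → ℝ) (i : Fin 2) :
    act Γ (ψ + φ) i = act Γ ψ i + act Γ φ i := by
  unfold act
  simp only [Pi.add_apply]
  ring

theorem blp_bound (s n : ℕ) (hs : 50 ≤ s) (hn : 6 ≤ n) : 2 + 30 * n + 110 * s ≤ 24 * (s * n) := by
  have h1 : 50 * n ≤ s * n := Nat.mul_le_mul_right n hs
  have h2 : s * 6 ≤ s * n := Nat.mul_le_mul_left s hn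
  have h3 : 300 ≤ s * n := by
    calc 300 = 50 * 6 := by norm_num
      _ ≤ s * n := Nat.mul_le_mul hs hn
  omega

theorem blp_near (s n R : ℕ) (hs : 50 ≤ s) (hn : 6 ≤ n) (hR : 1 ≤ R) (Γ : M2)
    (hΓ0 : ∀ i j, 0 ≤ Γ i j)
    (hΓ : (2 : ℝ) ^ (100 * s * n) * mx Γ ≤ 8 ^ (10 * n) * 2 * 2 ^ (110 * s) * R)
    (ψ φ : Fin 2 → ℝ) (hφ : ∀ i, |φ i| ≤ 2 ^ (s * n) / R)
    (h : NearQ (2 ^ (20 * s * n)) (1 / 2 ^ (75 * s * n)) (act Γ (ψ + φ))) :
    NearQ (2 ^ (20 * s * n)) (2 / 2 ^ (75 * s * n)) (act Γ ψ) := by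
  obtain ⟨q, hq1, hq2, p, hp⟩ := h
  refine ⟨q, hq1, hq2, p, fun i => ?_⟩
  have hR0 : (0 : ℝ) < R := by exact_mod_cast hR
  have hmx : ∀ i j, |(Γ i j : ℝ)| ≤ mx Γ := fun i j => by
    rw [abs_of_nonneg (by exact_mod_cast hΓ0 i j)]
    exact_mod_cast le_mx Γ i j
  have hm0 : (0 : ℝ) ≤ mx Γ := (abs_nonneg _).trans (hmx 0 0)
  have h1 : |act Γ φ i| ≤ 2 * (mx Γ * (2 ^ (s * n) / R)) := by
    unfold act
    refine (abs_add_le _ _).trans ?_
    rw [abs_mul, abs_mul, two_mul]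
    exact add_le_add (mul_le_mul (hmx i 0) (hφ 0) (abs_nonneg _) hm0)
      (mul_le_mul (hmx i 1) (hφ 1) (abs_nonneg _) hm0)
  have h2 : 2 * (mx Γ * (2 ^ (s * n) / R)) ≤ (1 : ℝ) / 2 ^ (75 * s * n) := by
    rw [le_div_iff₀ (by positivity), ← mul_div_assoc, ← mul_div_assoc, div_mul_eq_mul_div,
      div_le_iff₀ hR0, one_mul]
    have e8 : (8 : ℝ) ^ (10 * n) = 2 ^ (30 * n) := by
      rw [show (8 : ℝ) = 2 ^ 3 by norm_num, ← pow_mul]
      congr 1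
      ring
    rw [e8] at hΓ
    have hb := blp_bound s n hs hn
    have h3 : (2 : ℝ) ^ (2 + 30 * n + 110 * s + 76 * (s * n)) ≤ 2 ^ (100 * (s * n)) :=
      pow_le_pow_right₀ (by norm_num) (by omega)
    have h4 : (2 : ℝ) ^ (100 * s * n) * (2 * (mx Γ * 2 ^ (s * n)) * 2 ^ (75 * s * n)) ≤
        2 ^ (100 * s * n) * R := by
      have h5 : (2 : ℝ) ^ (100 * s * n) * (2 * (mx Γ * 2 ^ (s * n)) * 2 ^ (75 * s * n)) =
          (2 ^ (100 * s * n) * mx Γ) * (2 * (2 ^ (s * n) * 2 ^ (75 * s * n))) := by ring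
      rw [h5]
      have h6 : (2 ^ (30 * n) * 2 * 2 ^ (110 * s) * (R : ℝ)) *
          (2 * (2 ^ (s * n) * 2 ^ (75 * s * n))) =
          2 ^ (2 + 30 * n + 110 * s + 76 * (s * n)) * R := by
        have e1 : 75 * s * n = 75 * (s * n) := by ring
        rw [e1, show 2 + 30 * n + 110 * s + 76 * (s * n) =
          1 + 1 + 30 * n + 110 * s + s * n + 75 * (s * n) by ring]
        rw [pow_add, pow_add, pow_add, pow_add, pow_add]
        ring
      refine (mul_le_mul_of_nonneg_right hΓ (by positivity)).trans ?_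
      rw [h6, show 100 * s * n = 100 * (s * n) by ring]
      exact mul_le_mul_of_nonneg_right h3 hR0.le
    exact le_of_mul_le_mul_left h4 (by positivity)
  have h3 := hp i
  rw [blp_act_add] at h3
  have h4 : act Γ ψ i - (p i : ℝ) / q = (act Γ ψ i + act Γ φ i - (p i : ℝ) / q) - act Γ φ i := by
    ring
  rw [h4]
  refine (abs_sub _ _).trans ?_
  have h5 : (2 : ℝ) / 2 ^ (75 * s * n) = 1 / 2 ^ (75 * s * n) + 1 / 2 ^ (75 * s * n) := by ring
  rw [h5]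
  exact add_le_add h3 (h1.trans h2)

theorem blp_double {n1 n2 : ℕ} (a : ℕ → ℝ) (b : ℕ → ℝ) (c : ℕ → ℕ → ℝ) (ha : ∀ j, 0 ≤ a j)
    (hb : ∀ k, 0 ≤ b k) (ha1 : ∑ j ∈ range n1, a j ≤ 1) (hb1 : ∑ k ∈ range n2, b k ≤ 1)
    (p : ℕ → Prop) [DecidablePred p] (r : ℕ → Prop) [DecidablePred r] (ε δ : ℝ) (hε : 0 ≤ ε)
    (hδ : 0 ≤ δ) (hp : ∑ j ∈ (range n1).filter p, a j ≤ δ)
    (hr : ∑ k ∈ (range n2).filter r, b k ≤ δ) (hc1 : ∀ j k, c j k ≤ 1)
    (hc : ∀ j k, ¬ p j → ¬ r k → c j k ≤ ε) :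
    ∑ j ∈ range n1, ∑ k ∈ range n2, a j * b k * c j k ≤ ε + 2 * δ := by
  have h1 : ∀ j ∈ range n1, ∀ k ∈ range n2, a j * b k * c j k ≤
      a j * b k * ε + (if p j then a j else 0) * b k + a j * (if r k then b k else 0) := by
    intro j _ k _
    have hab : 0 ≤ a j * b k := mul_nonneg (ha j) (hb k)
    by_cases h1 : p j
    · rw [if_pos h1]
      have h2 : a j * b k * c j k ≤ a j * b k := mul_le_of_le_one_right hab (hc1 j k)
      have h3 : 0 ≤ a j * (if r k then b k else 0) := by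
        split_ifs
        · exact hab
        · simp
      have h4 : 0 ≤ a j * b k * ε := mul_nonneg hab hε
      linarith
    · rw [if_neg h1]
      by_cases h2 : r k
      · rw [if_pos h2]
        have h3 : a j * b k * c j k ≤ a j * b k := mul_le_of_le_one_right hab (hc1 j k)
        have h4 : 0 ≤ a j * b k * ε := mul_nonneg hab hε
        linarith
      · rw [if_neg h2]
        have := mul_le_mul_of_nonneg_left (hc j k h1 h2) hab
        linarith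
  refine (sum_le_sum fun j hj => sum_le_sum fun k hk => h1 j hj k hk).trans ?_
  simp only [sum_add_distrib]
  have e1 : ∑ j ∈ range n1, ∑ k ∈ range n2, a j * b k * ε =
      (∑ j ∈ range n1, a j) * (∑ k ∈ range n2, b k) * ε := by
    rw [sum_mul_sum, sum_mul]
    refine sum_congr rfl fun j _ => ?_
    rw [sum_mul]
  have e2 : ∑ j ∈ range n1, ∑ k ∈ range n2, (if p j then a j else 0) * b k =
      (∑ j ∈ (range n1).filter p, a j) * (∑ k ∈ range n2, b k) := by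
    rw [sum_filter, sum_mul_sum]
  have e3 : ∑ j ∈ range n1, ∑ k ∈ range n2, a j * (if r k then b k else 0) =
      (∑ j ∈ range n1, a j) * (∑ k ∈ (range n2).filter r, b k) := by
    rw [sum_filter, sum_mul_sum]
  rw [e1, e2, e3]
  have hA : 0 ≤ ∑ j ∈ range n1, a j := sum_nonneg fun j _ => ha j
  have hB : 0 ≤ ∑ k ∈ range n2, b k := sum_nonneg fun j _ => hb j
  have hP : 0 ≤ ∑ j ∈ (range n1).filter p, a j := sum_nonneg fun j _ => ha j
  have hQ : 0 ≤ ∑ k ∈ (range n2).filter r, b k := sum_nonneg fun j _ => hb j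
  have f1 : (∑ j ∈ range n1, a j) * (∑ k ∈ range n2, b k) * ε ≤ ε := by
    have : (∑ j ∈ range n1, a j) * (∑ k ∈ range n2, b k) ≤ 1 := mul_le_one₀ ha1 hB hb1
    nlinarith
  have f2 : (∑ j ∈ (range n1).filter p, a j) * (∑ k ∈ range n2, b k) ≤ δ := by
    calc _ ≤ (∑ j ∈ (range n1).filter p, a j) * 1 := mul_le_mul_of_nonneg_left hb1 hP
      _ ≤ δ := by linarith
  have f3 : (∑ j ∈ range n1, a j) * (∑ k ∈ (range n2).filter r, b k) ≤ δ := by
    calc _ ≤ 1 * (∑ k ∈ (range n2).filter r, b k) := mul_le_mul_of_nonneg_right ha1 hQ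
      _ ≤ δ := by linarith
  linarith

theorem BLp (s : ℕ) (hs : 50 ≤ s) (n : ℕ) (hn : 6 ≤ n) (R : ℕ) (hR : 1 ≤ R) (m1 m2 : ℤ) (Γ : M2)
    (hΓ0 : ∀ i j, 0 ≤ Γ i j)
    (hΓ : (2 : ℝ) ^ (100 * s * n) * mx Γ ≤ 8 ^ (10 * n) * 2 * 2 ^ (110 * s) * R) (ψ : Fin 2 → ℝ) :
    ‖Av s (10 * n) (fun P => (bmp R m1 m2 (P * Γ) : ℂ) * ee (dt (P * Γ) ψ))‖ ≤ 3 / 2 ^ (s * n) ∨
      NearQ (2 ^ (20 * s * n)) (2 / 2 ^ (75 * s * n)) (act Γ ψ) := by
  by_cases hN : NearQ (2 ^ (20 * s * n)) (2 / 2 ^ (75 * s * n)) (act Γ ψ)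
  · exact Or.inr hN
  refine Or.inl ?_
  have hR0 : (0 : ℝ) < R := by exact_mod_cast hR
  obtain ⟨B, hB⟩ : ∃ B : ℕ, ∀ P ∈ Wd s (10 * n), ∀ j : Fin 2, |(P * Γ) 1 j| ≤ (B : ℤ) := by
    refine ⟨∑ P ∈ Wd s (10 * n), ∑ j : Fin 2, ((P * Γ) 1 j).natAbs, fun P hP j => ?_⟩
    rw [Int.abs_eq_natAbs]
    have h1 : ((P * Γ) 1 j).natAbs ≤ ∑ j : Fin 2, ((P * Γ) 1 j).natAbs :=
      single_le_sum (f := fun j => ((P * Γ) 1 j).natAbs) (fun _ _ => Nat.zero_le _) (mem_univ j)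
    have h2 := single_le_sum (f := fun P : M2 => ∑ j : Fin 2, ((P * Γ) 1 j).natAbs)
      (fun _ _ => Nat.zero_le _) hP
    exact_mod_cast h1.trans h2
  obtain ⟨n1, τ1, f1, h1e, h1s, h1t⟩ := tri_expand R hR m1 B
  obtain ⟨n2, τ2, f2, h2e, h2s, h2t⟩ := tri_expand R hR m2 B
  have e1 : Av s (10 * n) (fun P => (bmp R m1 m2 (P * Γ) : ℂ) * ee (dt (P * Γ) ψ)) =
      ∑ j ∈ range n1, ∑ k ∈ range n2, τ1 j * τ2 k *
        Av s (10 * n) (fun P => ee (dt P (act Γ (ψ + ![f1 j, f2 k])))) := by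
    have e2 : ∀ j k, τ1 j * τ2 k * Av s (10 * n)
        (fun P => ee (dt P (act Γ (ψ + ![f1 j, f2 k])))) =
        Av s (10 * n) (fun P => τ1 j * τ2 k * ee (dt P (act Γ (ψ + ![f1 j, f2 k])))) :=
      fun j k => (Av_cmul s (10 * n) _ _).symm
    simp only [e2]
    simp only [← Av_sum]
    apply Av_congr
    intro P hP
    unfold bmp
    rw [Complex.ofReal_mul, h1e _ (hB P hP 0), h2e _ (hB P hP 1), sum_mul_sum, sum_mul]
    refine sum_congr rfl fun j _ => ?_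
    rw [sum_mul]
    refine sum_congr rfl fun k _ => ?_
    have e3 : dt P (act Γ (ψ + ![f1 j, f2 k])) =
        f1 j * (P * Γ) 1 0 + (f2 k * (P * Γ) 1 1 + dt (P * Γ) ψ) := by
      rw [← dt_mul, dt_add]
      unfold dt
      simp only [Matrix.cons_val_zero, Matrix.cons_val_one]
      ring
    rw [e3, Pool.Agent.H10.RP.ee_add, Pool.Agent.H10.RP.ee_add]
    ring
  rw [e1]
  refine (norm_sum_le _ _).trans ?_
  refine (sum_le_sum fun j _ => norm_sum_le _ _).trans ?_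
  simp only [norm_mul]
  have hT : (1 : ℝ) ≤ 2 ^ (s * n) := one_le_pow₀ (by norm_num)
  refine (blp_double (fun j => ‖τ1 j‖) (fun k => ‖τ2 k‖)
    (fun j k => ‖Av s (10 * n) (fun P => ee (dt P (act Γ (ψ + ![f1 j, f2 k]))))‖)
    (fun _ => norm_nonneg _) (fun _ => norm_nonneg _) h1s h2s
    (fun j => (2 : ℝ) ^ (s * n) / R < |f1 j|) (fun k => (2 : ℝ) ^ (s * n) / R < |f2 k|)
    (1 / 2 ^ (2 * s * n)) (1 / 2 ^ (s * n)) (by positivity) (by positivity)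
    (h1t _ hT) (h2t _ hT) ?_ ?_).trans ?_
  · intro j k
    refine (norm_Av_le _ _ _).trans ?_
    simp only [Pool.Agent.H10.RP.norm_ee]
    rw [Av_const s (10 * n) hs]
  · intro j k hj hk
    push Not at hj hk
    rcases BL s hs n (by omega) (act Γ (ψ + ![f1 j, f2 k])) with h | h
    · exact h
    · exfalso
      apply hN
      refine blp_near s n R hs hn hR Γ hΓ0 hΓ ψ _ ?_ h
      intro i
      fin_cases i
      · exact hj
      · exact hk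
  · have h1 : (1 : ℝ) / 2 ^ (2 * s * n) ≤ 1 / 2 ^ (s * n) := by
      apply one_div_le_one_div_of_le (by positivity)
      exact pow_le_pow_right₀ (by norm_num) (by nlinarith [Nat.zero_le (s * n)])
    have h2 : (3 : ℝ) / 2 ^ (s * n) = 1 / 2 ^ (s * n) + 2 * (1 / 2 ^ (s * n)) := by ring
    rw [h2]
    linarith

end Pool.Agent.H1.PP
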