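import Pool.Agent.H1.PP.HSc

/-!
# PP-39 Cnt: from von Mangoldt weights to primes

PROOF.  Let `X` be large, `L = log X`, `δ = t L/X`, `H = card (HS α X δ) ≤ C (t + 1) L` (`HS_card`).
(1) `VL α X δ ≤ L² V α X δ + H * 2 * L² * #{prime powers n ≤ X, not prime} ≤ L² V α X δ + O(L^3 √X L²)`: for each `h` the pairs
`(n, n+h)` with both prime contribute at most `L²` each, the others have `n` or `n + h` a proper prime power (or a zero
term); the number of proper prime powers up to `X` is `≤ √X L` (crudely `∑_{k ≤ 2 L} X^(1/k)`).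
(2) Pairs of primes with `n ≤ X/L^4`: at most `H X/L^4`.  The others have `Λ(n) Λ(n+h) ≥ (L - 4 log L)²`, so
`(L - 4 log L)² (V α X δ - H X/L^4) ≤ VL α X δ`.
Divide by `X L`: `V α X δ * L/X` and `VL α X δ/(X L)` have the same limit (`H X L²/(L^4 X L) → 0`, `(1 - 4 log L/L)² → 1`).
-/

set_option autoImplicit false

open Finset

namespace Pool.Agent.H1.PP

open Pool.Agent.H10.RP (ee nd Lam)

open ArithmeticFunction (vonMangoldt)

theorem cnt_np (X : ℕ) (hX : 1 ≤ X) :
    ∑ n ∈ Icc 1 X, (if n.Prime then 0 else vonMangoldt n) ≤ 2 * Real.sqrt X * Real.log X := by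
  have h := Chebyshev.psi_sub_theta_le (x := (X : ℝ)) (by exact_mod_cast hX)
  rw [Chebyshev.psi_sub_theta_eq_sum_not_prime, Nat.floor_natCast] at h
  have h1 : ∑ n ∈ Icc 1 X, (if n.Prime then 0 else vonMangoldt n) =
      ∑ n ∈ (Ioc 0 X).filter (fun n => ¬ n.Prime), vonMangoldt n := by
    rw [Finset.sum_filter]
    apply Finset.sum_congr
    · ext n
      simp only [Finset.mem_Icc, Finset.mem_Ioc]
      omega
    · intro n _
      by_cases hp : n.Prime
      · rw [if_pos hp, if_neg (not_not.2 hp)]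
      · rw [if_neg hp, if_pos hp]
  rw [h1]
  exact h

theorem cnt_np_nonneg (n : ℕ) : (0 : ℝ) ≤ (if n.Prime then 0 else vonMangoldt n) := by
  split_ifs
  · exact le_rfl
  · exact ArithmeticFunction.vonMangoldt_nonneg

/-- prime pairs with difference `h` -/
noncomputable def cntA (X h : ℕ) : Finset ℕ :=
  (Icc 1 (X - h)).filter (fun n => n.Prime ∧ (n + h).Prime)

theorem cnt_upper (X h : ℕ) (hX : 1 ≤ X) (hh : h < X) :
    ∑ n ∈ Icc 1 (X - h), vonMangoldt n * vonMangoldt (n + h) ≤
      (Real.log X) ^ 2 * (cntA X h).card + 4 * (Real.log X) ^ 2 * Real.sqrt X := by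
  have hXr : (1 : ℝ) ≤ X := by exact_mod_cast hX
  have hL : 0 ≤ Real.log X := Real.log_nonneg hXr
  have hlog : ∀ m : ℕ, 1 ≤ m → m ≤ X → vonMangoldt m ≤ Real.log X := by
    intro m h1 h2
    refine ArithmeticFunction.vonMangoldt_le_log.trans ?_
    apply Real.log_le_log
    · exact_mod_cast h1
    · exact_mod_cast h2
  have hterm : ∀ n ∈ Icc 1 (X - h), vonMangoldt n * vonMangoldt (n + h) ≤
      ((if n.Prime ∧ (n + h).Prime then (Real.log X) ^ 2 else 0) +
        Real.log X * (if n.Prime then 0 else vonMangoldt n)) +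
        Real.log X * (if (n + h).Prime then 0 else vonMangoldt (n + h)) := by
    intro n hn
    rw [Finset.mem_Icc] at hn
    have e1 := hlog n hn.1 (by omega)
    have e2 := hlog (n + h) (by omega) (by omega)
    have n1 : 0 ≤ vonMangoldt n := ArithmeticFunction.vonMangoldt_nonneg
    have n2 : 0 ≤ vonMangoldt (n + h) := ArithmeticFunction.vonMangoldt_nonneg
    by_cases hp : n.Prime
    · by_cases hq : (n + h).Prime
      · rw [if_pos ⟨hp, hq⟩, if_pos hp, if_pos hq]
        nlinarith
      · rw [if_neg (fun hc => hq hc.2), if_pos hp, if_neg hq]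
        nlinarith
    · rw [if_neg (fun hc => hp hc.1), if_neg hp]
      have e3 : 0 ≤ Real.log X * (if (n + h).Prime then 0 else vonMangoldt (n + h)) :=
        mul_nonneg hL (cnt_np_nonneg _)
      nlinarith
  refine (Finset.sum_le_sum hterm).trans ?_
  rw [Finset.sum_add_distrib, Finset.sum_add_distrib, ← Finset.mul_sum, ← Finset.mul_sum]
  have s1 : ∑ n ∈ Icc 1 (X - h), (if n.Prime ∧ (n + h).Prime then (Real.log X) ^ 2 else 0) =
      (Real.log X) ^ 2 * (cntA X h).card := by
    rw [← Finset.sum_filter, Finset.sum_const, nsmul_eq_mul, mul_comm]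
    rfl
  have s2 : ∑ n ∈ Icc 1 (X - h), (if n.Prime then 0 else vonMangoldt n) ≤
      2 * Real.sqrt X * Real.log X := by
    refine le_trans ?_ (cnt_np X hX)
    apply Finset.sum_le_sum_of_subset_of_nonneg
    · apply Finset.Icc_subset_Icc_right
      omega
    · intro n _ _
      exact cnt_np_nonneg n
  have s3 : ∑ n ∈ Icc 1 (X - h), (if (n + h).Prime then 0 else vonMangoldt (n + h)) ≤
      2 * Real.sqrt X * Real.log X := by
    refine le_trans ?_ (cnt_np X hX)
    have e4 : ∑ n ∈ Icc 1 (X - h), (if (n + h).Prime then 0 else vonMangoldt (n + h)) =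
        ∑ m ∈ (Icc 1 (X - h)).image (fun n => n + h),
          (if m.Prime then 0 else vonMangoldt m) := by
      rw [Finset.sum_image]
      intro a _ b _ hab
      exact Nat.add_right_cancel hab
    rw [e4]
    apply Finset.sum_le_sum_of_subset_of_nonneg
    · intro m hm
      rw [Finset.mem_image] at hm
      obtain ⟨n, hn, rfl⟩ := hm
      rw [Finset.mem_Icc] at hn ⊢
      omega
    · intro n _ _
      exact cnt_np_nonneg n
  rw [s1]
  have s2' := mul_le_mul_of_nonneg_left s2 hL
  have s3' := mul_le_mul_of_nonneg_left s3 hL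
  nlinarith

theorem cnt_lower (X h : ℕ) (hX : 3 ≤ X) (hh : h < X)
    (hpos : 0 ≤ Real.log X - 4 * Real.log (Real.log X)) :
    (Real.log X - 4 * Real.log (Real.log X)) ^ 2 *
      ((cntA X h).card - X / (Real.log X) ^ 4) ≤
      ∑ n ∈ Icc 1 (X - h), vonMangoldt n * vonMangoldt (n + h) := by
  have hXr : (3 : ℝ) ≤ X := by exact_mod_cast hX
  have hL1 : 1 ≤ Real.log X := by
    rw [Real.le_log_iff_exp_le (by linarith)]
    linarith [Real.exp_one_lt_d9]
  set L := Real.log X with hL
  set z : ℝ := X / L ^ 4 with hz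
  have hz0 : 0 < z := by positivity
  have hlz : Real.log z = L - 4 * Real.log L := by
    rw [hz, Real.log_div (by linarith) (by positivity), Real.log_pow, ← hL]
    push_cast
    ring
  set A' : Finset ℕ := (cntA X h).filter (fun n : ℕ => z < (n : ℝ)) with hA'
  have hcard : ((cntA X h).card : ℝ) - z ≤ A'.card := by
    have h1 : (cntA X h).card = A'.card + ((cntA X h).filter (fun n : ℕ => ¬ z < (n : ℝ))).card := by
      rw [hA', Finset.card_filter_add_card_filter_not]
    have h2 : (((cntA X h).filter (fun n : ℕ => ¬ z < (n : ℝ))).card : ℝ) ≤ z := by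
      have h3 : (cntA X h).filter (fun n : ℕ => ¬ z < (n : ℝ)) ⊆ Icc 1 ⌊z⌋₊ := by
        intro n hn
        rw [Finset.mem_filter, cntA, Finset.mem_filter, Finset.mem_Icc, not_lt] at hn
        rw [Finset.mem_Icc]
        exact ⟨hn.1.1.1, Nat.le_floor hn.2⟩
      have h4 := Finset.card_le_card h3
      rw [Nat.card_Icc, Nat.add_sub_cancel] at h4
      have h5 : ((((cntA X h).filter (fun n : ℕ => ¬ z < (n : ℝ))).card : ℕ) : ℝ) ≤ (⌊z⌋₊ : ℝ) := by
        exact_mod_cast h4
      exact h5.trans (Nat.floor_le hz0.le)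
    rw [h1]
    push_cast
    linarith
  have hterm : ∀ n ∈ A', (L - 4 * Real.log L) ^ 2 ≤ vonMangoldt n * vonMangoldt (n + h) := by
    intro n hn
    rw [hA', Finset.mem_filter, cntA, Finset.mem_filter] at hn
    obtain ⟨⟨-, hp, hq⟩, hzn⟩ := hn
    rw [ArithmeticFunction.vonMangoldt_apply_prime hp,
      ArithmeticFunction.vonMangoldt_apply_prime hq, sq]
    have e1 : L - 4 * Real.log L ≤ Real.log n := by
      rw [← hlz]
      exact Real.log_le_log hz0 hzn.le
    have e2 : L - 4 * Real.log L ≤ Real.log ((n + h : ℕ) : ℝ) := by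
      refine e1.trans (Real.log_le_log (by linarith) ?_)
      push_cast
      have : (0 : ℝ) ≤ h := Nat.cast_nonneg h
      linarith
    exact mul_le_mul e1 e2 hpos (hpos.trans e1)
  have hsub : A' ⊆ Icc 1 (X - h) := by
    intro n hn
    rw [hA', Finset.mem_filter, cntA, Finset.mem_filter] at hn
    exact hn.1.1
  calc (L - 4 * Real.log L) ^ 2 * ((cntA X h).card - z)
      ≤ (L - 4 * Real.log L) ^ 2 * A'.card := mul_le_mul_of_nonneg_left hcard (sq_nonneg _)
    _ = ∑ n ∈ A', (L - 4 * Real.log L) ^ 2 := by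
        rw [Finset.sum_const, nsmul_eq_mul, mul_comm]
    _ ≤ ∑ n ∈ A', vonMangoldt n * vonMangoldt (n + h) := Finset.sum_le_sum hterm
    _ ≤ ∑ n ∈ Icc 1 (X - h), vonMangoldt n * vonMangoldt (n + h) := by
        apply Finset.sum_le_sum_of_subset_of_nonneg hsub
        intro n _ _
        exact mul_nonneg ArithmeticFunction.vonMangoldt_nonneg
          ArithmeticFunction.vonMangoldt_nonneg

theorem cnt_V (α : ℝ) (X : ℕ) (δ : ℝ) : V α X δ = ∑ h ∈ HS α X δ, ((cntA X h).card : ℝ) := rfl

theorem cnt_VL_upper (α : ℝ) (X : ℕ) (δ : ℝ) (hX : 1 ≤ X) :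
    VL α X δ ≤ (Real.log X) ^ 2 * V α X δ +
      4 * (Real.log X) ^ 2 * Real.sqrt X * (HS α X δ).card := by
  have h1 : VL α X δ ≤ ∑ h ∈ HS α X δ, ((Real.log X) ^ 2 * ((cntA X h).card : ℝ) +
      4 * (Real.log X) ^ 2 * Real.sqrt X) := by
    unfold VL
    apply Finset.sum_le_sum
    intro h hh
    rw [HS, Finset.mem_filter, Finset.mem_Ico] at hh
    exact cnt_upper X h hX hh.1.2
  refine h1.trans (le_of_eq ?_)
  rw [Finset.sum_add_distrib, ← Finset.mul_sum, Finset.sum_const, nsmul_eq_mul, cnt_V]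
  ring

theorem cnt_VL_lower (α : ℝ) (X : ℕ) (δ : ℝ) (hX : 3 ≤ X)
    (hpos : 0 ≤ Real.log X - 4 * Real.log (Real.log X)) :
    (Real.log X - 4 * Real.log (Real.log X)) ^ 2 *
      (V α X δ - (HS α X δ).card * (X / (Real.log X) ^ 4)) ≤ VL α X δ := by
  have h1 : ∑ h ∈ HS α X δ, (Real.log X - 4 * Real.log (Real.log X)) ^ 2 *
      (((cntA X h).card : ℝ) - X / (Real.log X) ^ 4) ≤ VL α X δ := by
    unfold VL
    apply Finset.sum_le_sum
    intro h hh
    rw [HS, Finset.mem_filter, Finset.mem_Ico] at hh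
    exact cnt_lower X h hX hh.1.2 hpos
  refine le_trans (le_of_eq ?_) h1
  rw [← Finset.mul_sum, Finset.sum_sub_distrib, Finset.sum_const, nsmul_eq_mul, cnt_V]

/-! ### limits -/

theorem cnt_lim1 : Filter.Tendsto (fun x : ℝ => Real.log x ^ 2 / Real.sqrt x) Filter.atTop
    (nhds 0) := by
  have h1 := (Real.tendsto_pow_log_div_mul_add_atTop 1 0 2 one_ne_zero).comp
    Real.tendsto_sqrt_atTop
  have h2 : Filter.Tendsto (fun x : ℝ => 4 * (Real.log (Real.sqrt x) ^ 2 /
      (1 * Real.sqrt x + 0))) Filter.atTop (nhds (4 * 0)) := h1.const_mul 4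
  rw [mul_zero] at h2
  refine h2.congr' ?_
  filter_upwards [Filter.eventually_ge_atTop 0] with x hx
  rw [Real.log_sqrt hx, one_mul, add_zero]
  ring

theorem cnt_lim2 : Filter.Tendsto (fun x : ℝ => Real.log x / Real.sqrt x) Filter.atTop
    (nhds 0) := by
  have h1 := (Real.tendsto_pow_log_div_mul_add_atTop 1 0 1 one_ne_zero).comp
    Real.tendsto_sqrt_atTop
  have h2 : Filter.Tendsto (fun x : ℝ => 2 * (Real.log (Real.sqrt x) ^ 1 /
      (1 * Real.sqrt x + 0))) Filter.atTop (nhds (2 * 0)) := h1.const_mul 2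
  rw [mul_zero] at h2
  refine h2.congr' ?_
  filter_upwards [Filter.eventually_ge_atTop 0] with x hx
  rw [Real.log_sqrt hx, one_mul, add_zero, pow_one]
  ring

theorem cnt_e1 (C t : ℝ) : Filter.Tendsto (fun x : ℝ => 4 * Real.log x *
    (C * (t * Real.log x + 1)) / Real.sqrt x) Filter.atTop (nhds 0) := by
  have h1 := (cnt_lim1.const_mul (4 * C * t)).add (cnt_lim2.const_mul (4 * C))
  rw [mul_zero, mul_zero, add_zero] at h1
  refine h1.congr fun x => ?_
  ring

theorem cnt_e2 (C t : ℝ) : Filter.Tendsto (fun x : ℝ => (C * (t * Real.log x + 1)) /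
    (Real.log x) ^ 3) Filter.atTop (nhds 0) := by
  have h1 : Filter.Tendsto (fun x : ℝ => (Real.log x)⁻¹) Filter.atTop (nhds 0) :=
    tendsto_inv_atTop_zero.comp Real.tendsto_log_atTop
  have h2 := ((h1.pow 2).const_mul (C * t)).add ((h1.pow 3).const_mul C)
  have h3 : C * t * 0 ^ 2 + C * 0 ^ 3 = 0 := by ring
  rw [h3] at h2
  refine h2.congr' ?_
  filter_upwards [Real.tendsto_log_atTop.eventually_gt_atTop 0] with x hx
  field_simp

theorem cnt_q : Filter.Tendsto (fun x : ℝ => (1 - 4 * (Real.log (Real.log x) / Real.log x)) ^ 2)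
    Filter.atTop (nhds 1) := by
  have h1 := (Real.tendsto_pow_log_div_mul_add_atTop 1 0 1 one_ne_zero).comp
    Real.tendsto_log_atTop
  have h2 : Filter.Tendsto (fun x : ℝ => (1 - 4 * (Real.log (Real.log x) ^ 1 /
      (1 * Real.log x + 0))) ^ 2) Filter.atTop (nhds ((1 - 4 * 0) ^ 2)) :=
    (tendsto_const_nhds.sub (h1.const_mul 4)).pow 2
  have h3 : ((1 : ℝ) - 4 * 0) ^ 2 = 1 := by norm_num
  rw [h3] at h2
  refine h2.congr fun x => ?_
  rw [one_mul, add_zero, pow_one]

theorem cnt_pos : ∀ᶠ x : ℝ in Filter.atTop, 0 < Real.log x - 4 * Real.log (Real.log x) := by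
  have h1 := (Real.tendsto_pow_log_div_mul_add_atTop 1 0 1 one_ne_zero).comp
    Real.tendsto_log_atTop
  have h2 : ∀ᶠ x : ℝ in Filter.atTop, Real.log (Real.log x) ^ 1 / (1 * Real.log x + 0) < 1 / 4 :=
    h1.eventually (gt_mem_nhds (by norm_num : (0 : ℝ) < 1 / 4))
  filter_upwards [h2, Real.tendsto_log_atTop.eventually_gt_atTop 0] with x hx hL
  rw [pow_one, one_mul, add_zero, div_lt_iff₀ hL] at hx
  linarith

theorem V_of_VL (α : ℝ) (hα : BadlyApprox α) (Y : ℕ → ℕ) (hY : Filter.Tendsto Y Filter.atTop Filter.atTop)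
    (t : ℝ) (ht : 0 < t)
    (h : Filter.Tendsto (fun j : ℕ => VL α (Y j) (t * Real.log (Y j) / Y j) / (Y j * Real.log (Y j)))
      Filter.atTop (nhds t)) :
    Filter.Tendsto (fun j : ℕ => V α (Y j) (t * Real.log (Y j) / Y j) * Real.log (Y j) / Y j)
      Filter.atTop (nhds t) := by
  obtain ⟨C, hC, hHS⟩ := HS_card α hα
  have hYr : Filter.Tendsto (fun j => (Y j : ℝ)) Filter.atTop Filter.atTop :=
    tendsto_natCast_atTop_atTop.comp hY
  have hlo := h.sub ((cnt_e1 C t).comp hYr)
  have hup := (h.div (cnt_q.comp hYr) one_ne_zero).add ((cnt_e2 C t).comp hYr)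
  rw [sub_zero] at hlo
  rw [div_one, add_zero] at hup
  have hev : ∀ᶠ j in Filter.atTop, 3 ≤ Y j ∧
      0 < Real.log (Y j) - 4 * Real.log (Real.log (Y j)) :=
    (hY.eventually_ge_atTop 3).and (hYr.eventually cnt_pos)
  refine tendsto_of_tendsto_of_tendsto_of_le_of_le' hlo hup ?_ ?_
  · filter_upwards [hev] with j hj
    obtain ⟨h3, -⟩ := hj
    have hXr : (3 : ℝ) ≤ Y j := by exact_mod_cast h3
    have hL1 : 1 ≤ Real.log (Y j) := by
      rw [Real.le_log_iff_exp_le (by linarith)]
      linarith [Real.exp_one_lt_d9]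
    have hu := cnt_VL_upper α (Y j) (t * Real.log (Y j) / Y j) (by omega)
    have hδ : 0 < t * Real.log (Y j) / Y j := by positivity
    have hH := hHS (Y j) (t * Real.log (Y j) / Y j) hδ
    simp only [Function.comp_apply, Pi.div_apply]
    set X : ℝ := (Y j : ℝ) with hX
    set L := Real.log X with hL
    set H : ℝ := ((HS α (Y j) (t * L / X)).card : ℝ) with hHd
    set Vv := V α (Y j) (t * L / X) with hV
    set VLv := VL α (Y j) (t * L / X) with hVL
    have hX0 : 0 < X := by linarith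
    have hL0 : 0 < L := by linarith
    have hH' : H ≤ C * (t * L + 1) := by
      have : t * L / X * X = t * L := div_mul_cancel₀ _ hX0.ne'
      rw [this] at hH
      exact hH
    have hs0 : 0 < Real.sqrt X := Real.sqrt_pos.2 hX0
    have hss : Real.sqrt X * Real.sqrt X = X := Real.mul_self_sqrt hX0.le
    rw [sub_le_iff_le_add, div_le_iff₀ (by positivity)]
    have e1 : (Vv * L / X + 4 * L * (C * (t * L + 1)) / Real.sqrt X) * (X * L) =
        L ^ 2 * Vv + 4 * L ^ 2 * Real.sqrt X * (C * (t * L + 1)) := by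
      have e2 : 4 * L * (C * (t * L + 1)) / Real.sqrt X * (X * L) =
          4 * L ^ 2 * (C * (t * L + 1)) * (X / Real.sqrt X) := by
        ring
      have e3 : X / Real.sqrt X = Real.sqrt X := by
        rw [div_eq_iff hs0.ne']
        exact hss.symm
      rw [add_mul, e2, e3]
      have e4 : Vv * L / X * (X * L) = L ^ 2 * Vv := by
        field_simp
      rw [e4]
      ring
    rw [e1]
    have e5 : 4 * L ^ 2 * Real.sqrt X * H ≤ 4 * L ^ 2 * Real.sqrt X * (C * (t * L + 1)) :=
      mul_le_mul_of_nonneg_left hH' (by positivity)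
    linarith
  · filter_upwards [hev] with j hj
    obtain ⟨h3, hp⟩ := hj
    have hXr : (3 : ℝ) ≤ Y j := by exact_mod_cast h3
    have hL1 : 1 ≤ Real.log (Y j) := by
      rw [Real.le_log_iff_exp_le (by linarith)]
      linarith [Real.exp_one_lt_d9]
    have hu := cnt_VL_lower α (Y j) (t * Real.log (Y j) / Y j) h3 hp.le
    have hδ : 0 < t * Real.log (Y j) / Y j := by positivity
    have hH := hHS (Y j) (t * Real.log (Y j) / Y j) hδ
    simp only [Function.comp_apply, Pi.div_apply]
    set X : ℝ := (Y j : ℝ) with hX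
    set L := Real.log X with hL
    set H : ℝ := ((HS α (Y j) (t * L / X)).card : ℝ) with hHd
    set Vv := V α (Y j) (t * L / X) with hV
    set VLv := VL α (Y j) (t * L / X) with hVL
    have hX0 : 0 < X := by linarith
    have hL0 : 0 < L := by linarith
    have hH' : H ≤ C * (t * L + 1) := by
      have : t * L / X * X = t * L := div_mul_cancel₀ _ hX0.ne'
      rw [this] at hH
      exact hH
    have hq0 : 0 < 1 - 4 * (Real.log L / L) := by
      have : 1 - 4 * (Real.log L / L) = (L - 4 * Real.log L) / L := by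
        field_simp
      rw [this]
      positivity
    have e1 : (1 - 4 * (Real.log L / L)) ^ 2 * (Vv * L / X - H / L ^ 3) ≤ VLv / (X * L) := by
      rw [le_div_iff₀ (by positivity)]
      refine le_trans (le_of_eq ?_) hu
      field_simp
    have e2 : Vv * L / X - H / L ^ 3 ≤ VLv / (X * L) / (1 - 4 * (Real.log L / L)) ^ 2 := by
      rw [le_div_iff₀ (by positivity), mul_comm]
      exact e1
    have e3 : H / L ^ 3 ≤ C * (t * L + 1) / L ^ 3 :=
      div_le_div_of_nonneg_right hH' (by positivity)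
    linarith

end Pool.Agent.H1.PP
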