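import Mathlib

/-!
# PP: definitions used in the final statement

Badly approximable numbers, Poissonian pair correlations, and the sequence `{p_n α}`.
-/

set_option autoImplicit false

namespace Pool.Agent.H1.PP

/-- badly approximable real numbers: irrational with `liminf n ‖n α‖ > 0` -/
def BadlyApprox (α : ℝ) : Prop :=
  Irrational α ∧ ∃ c : ℝ, 0 < c ∧ ∀ n : ℕ, 1 ≤ n → c ≤ n * |n * α - round (n * α)|

/-- Poissonian pair correlations: for every bounded interval `R` (with or without its endpoints),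
`(1/N) #{(m, n) ∈ [1, N]² : m ≠ n, x_m - x_n ∈ (1/N) R}` tends to the length of `R`. -/
def PPC (x : ℕ → ℝ) : Prop :=
  ∀ (a b : ℝ) (R : Set ℝ), a ≤ b → Set.Ioo a b ⊆ R → R ⊆ Set.Icc a b →
    Filter.Tendsto (fun N : ℕ => (Set.ncard {p : ℕ × ℕ | p.1 ∈ Set.Icc 1 N ∧ p.2 ∈ Set.Icc 1 N ∧
      p.1 ≠ p.2 ∧ (N : ℝ) * (x p.1 - x p.2) ∈ R} : ℝ) / N) Filter.atTop (nhds (b - a))

/-- the sequence `{p_n α}`, `n ≥ 1`, where `p_n` is the `n`-th prime -/
noncomputable def xs (α : ℝ) (n : ℕ) : ℝ := Int.fract ((Nat.nth Nat.Prime (n - 1) : ℝ) * α)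

end Pool.Agent.H1.PP
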