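import Mathlib
import Pool.Agent.H10.RP.Defs
import Pool.Agent.H1.PP.St

/-!
# PP: Poissonian pair correlations of `{p_n α}`: definitions

Project PP (MP_e95273_nt).  GOAL: the set of badly approximable `α` for which `({p_n α})_n` has
Poissonian pair correlations has Hausdorff dimension `1`.

From `Pool.Agent.H10.RP`: `ee x = exp (2πix)`, `nd x` = distance to the nearest integer,
`Lam n` = von Mangoldt as a complex number.

Throughout `s ≥ 50`, `T = 2 ^ s`, `Qh s = 2 ^ (10 s - 3)`, so that `8 * Qh s = T ^ 10`.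
-/

set_option autoImplicit false

open Finset

namespace Pool.Agent.H1.PP

open Pool.Agent.H10.RP (ee nd Lam)

/-! ### letters and words -/

/-- two by two integer matrices -/
abbrev M2 : Type := Matrix (Fin 2) (Fin 2) ℤ

/-- half of the size of the letters -/
def Qh (s : ℕ) : ℕ := 2 ^ (10 * s - 3)

/-- conditions on a letter `[[A, B], [C, D]]`: determinant one, `Q < C, D ≤ 2 Q`, `C < A < 2 C`,
`D ≤ B < 2 D`. -/
def IsLt (s : ℕ) (g : M2) : Prop :=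
  g 0 0 * g 1 1 = g 0 1 * g 1 0 + 1 ∧ (Qh s : ℤ) < g 1 0 ∧ g 1 0 ≤ 2 * Qh s ∧
    (Qh s : ℤ) < g 1 1 ∧ g 1 1 ≤ 2 * Qh s ∧ g 1 0 < g 0 0 ∧ g 0 0 < 2 * g 1 0 ∧
    g 1 1 ≤ g 0 1 ∧ g 0 1 < 2 * g 1 1

instance (s : ℕ) : DecidablePred (IsLt s) := fun g => by unfold IsLt; infer_instance

/-- the finite alphabet -/
noncomputable def Lt (s : ℕ) : Finset M2 :=
  (((Icc (0 : ℤ) (4 * Qh s) ×ˢ Icc (0 : ℤ) (4 * Qh s)) ×ˢ
    (Icc (0 : ℤ) (4 * Qh s) ×ˢ Icc (0 : ℤ) (4 * Qh s))).image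
      (fun t => (!![t.1.1, t.1.2; t.2.1, t.2.2] : M2))).filter (IsLt s)

/-- the products of `n` letters -/
noncomputable def Wd (s : ℕ) : ℕ → Finset M2
  | 0 => {1}
  | n + 1 => (Wd s n ×ˢ Lt s).image (fun t => t.1 * t.2)

/-- average over all products of `n` independent uniform letters -/
noncomputable def Av {E : Type*} [AddCommMonoid E] [Module ℝ E] (s : ℕ) : ℕ → (M2 → E) → E
  | 0, f => f 1
  | n + 1, f => ((Lt s).card : ℝ)⁻¹ • ∑ g ∈ Lt s, Av s n (fun P => f (P * g))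

/-- action on real vectors -/
noncomputable def act (P : M2) (ψ : Fin 2 → ℝ) : Fin 2 → ℝ :=
  fun i => (P i 0 : ℝ) * ψ 0 + (P i 1 : ℝ) * ψ 1

/-- the linear form given by the second row of `P` -/
noncomputable def dt (P : M2) (ψ : Fin 2 → ℝ) : ℝ := (P 1 0 : ℝ) * ψ 0 + (P 1 1 : ℝ) * ψ 1

/-- sup norm -/
noncomputable def nr (ψ : Fin 2 → ℝ) : ℝ := max |ψ 0| |ψ 1|

/-- largest entry -/
noncomputable def mx (P : M2) : ℤ := max (max (P 0 0) (P 0 1)) (max (P 1 0) (P 1 1))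

/-- determinant of two integer rows -/
def dd (p q : Fin 2 → ℤ) : ℤ := p 0 * q 1 - p 1 * q 0

/-- the cone spanned by the rows of `V'` lies before the cone spanned by the rows of `V` -/
def Sep (V' V : M2) : Prop :=
  1 ≤ dd (V' 0) (V 0) ∧ 1 ≤ dd (V' 0) (V 1) ∧ 0 ≤ dd (V' 1) (V 0) ∧ 1 ≤ dd (V' 1) (V 1)

/-- tent of radius `R` centred at `m` -/
noncomputable def tri (R : ℕ) (m x : ℤ) : ℝ := max 0 (1 - |(x : ℝ) - m| / R)

/-- bump in the second row -/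
noncomputable def bmp (R : ℕ) (m1 m2 : ℤ) (P : M2) : ℝ := tri R m1 (P 1 0) * tri R m2 (P 1 1)

/-- `ψ` is within `δ` of a rational vector of denominator at most `q0` -/
def NearQ (q0 δ : ℝ) (ψ : Fin 2 → ℝ) : Prop :=
  ∃ q : ℕ, 1 ≤ q ∧ (q : ℝ) ≤ q0 ∧ ∃ p : Fin 2 → ℤ, ∀ i, |ψ i - (p i : ℝ) / q| ≤ δ

/-! ### correlations -/

/-- exponential sum over `1 ≤ n ≤ X` -/
noncomputable def ES (f : ℕ → ℂ) (X : ℕ) (θ : ℝ) : ℂ := ∑ n ∈ Icc 1 X, f n * ee (θ * n)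

/-- correlation with shift `h` -/
noncomputable def Cor (f : ℕ → ℂ) (X : ℕ) (h : ℤ) : ℂ :=
  ∑ m ∈ Icc 1 X, ∑ n ∈ Icc 1 X, if (m : ℤ) - n = h then f m * (starRingEnd ℂ) (f n) else 0

/-- Ramanujan sum `c_q(h)` -/
noncomputable def cq (q : ℕ) (h : ℤ) : ℂ :=
  ∑ b ∈ (range q).filter (fun b => Nat.Coprime b q), ee ((b : ℝ) * h / q)

/-- truncated Ramanujan expansion of von Mangoldt -/
noncomputable def LamR (R : ℕ) (n : ℕ) : ℂ :=
  ∑ q ∈ Icc 1 R, ((ArithmeticFunction.moebius q : ℝ) / (Nat.totient q : ℝ) : ℂ) * cq q n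

/-- truncated singular series -/
noncomputable def SSr (R : ℕ) (h : ℤ) : ℂ :=
  ∑ q ∈ Icc 1 R, ((ArithmeticFunction.moebius q : ℝ) ^ 2 / (Nat.totient q : ℝ) ^ 2 : ℂ) * cq q h

/-- the cut-off `(log X)^4000` -/
noncomputable def RX (X : ℕ) : ℕ := ⌊(Real.log X) ^ 4000⌋₊

/-- linear form `a₁ C + a₂ D` with the second row of `P` -/
def lf (P : M2) (a : ℤ × ℤ) : ℤ := a.1 * P 1 0 + a.2 * P 1 1

/-- the shifts `h = a₁ C + a₂ D` with small coefficients behave as expected at scale `X` -/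
def Good (X : ℕ) (P : M2) : Prop :=
  ∀ a : ℤ × ℤ, a ≠ 0 → |(a.1 : ℝ)| ≤ Real.log X → |(a.2 : ℝ)| ≤ Real.log X → |lf P a| < X →
    ‖Cor Lam X (lf P a) - Cor (LamR (RX X)) X (lf P a)‖ ≤ X / Real.log X

/-! ### the random number -/

/-- the product of the first `k` letters -/
noncomputable def Pk (ω : ℕ → M2) : ℕ → M2
  | 0 => 1
  | k + 1 => Pk ω k * ω k

/-- `α` has the word `P` as a prefix, with remainder `β` -/
def Rep (P : M2) (β α : ℝ) : Prop :=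
  1 ≤ β ∧ β ≤ 2 ∧ α * ((P 1 0 : ℝ) * β + P 1 1) = (P 0 0 : ℝ) * β + P 0 1

/-- `C β + D` -/
noncomputable def sz (P : M2) (β : ℝ) : ℝ := (P 1 0 : ℝ) * β + P 1 1

/-- shifts `1 ≤ h < X` with `‖h α‖ < δ` -/
noncomputable def HS (α : ℝ) (X : ℕ) (δ : ℝ) : Finset ℕ :=
  (Ico 1 X).filter (fun h => nd (h * α) < δ)

/-- lattice points `a` with `0 < a₁ C + a₂ D < X` and `|a₂ β - a₁| < w` -/
noncomputable def Om (P : M2) (β : ℝ) (X : ℕ) (w : ℝ) : Finset (ℤ × ℤ) :=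
  ((Icc (-((2 * X + ⌈w⌉₊ : ℕ) : ℤ)) ((2 * X + ⌈w⌉₊ : ℕ) : ℤ)) ×ˢ
    (Icc (-((2 * X + ⌈w⌉₊ : ℕ) : ℤ)) ((2 * X + ⌈w⌉₊ : ℕ) : ℤ))).filter
      (fun a => 0 < lf P a ∧ lf P a < X ∧ |(a.2 : ℝ) * β - a.1| < w)

/-- number of pairs of primes `n, n + h ≤ X` with `‖h α‖ < δ`, `h ≥ 1` -/
noncomputable def V (α : ℝ) (X : ℕ) (δ : ℝ) : ℝ :=
  ∑ h ∈ HS α X δ, (((Icc 1 (X - h)).filter (fun n => n.Prime ∧ (n + h).Prime)).card : ℝ)

/-- the same with von Mangoldt weights -/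
noncomputable def VL (α : ℝ) (X : ℕ) (δ : ℝ) : ℝ :=
  ∑ h ∈ HS α X δ, ∑ n ∈ Icc 1 (X - h),
    ArithmeticFunction.vonMangoldt n * ArithmeticFunction.vonMangoldt (n + h)

/-- the scales `⌊exp √j⌋` -/
noncomputable def Xj (j : ℕ) : ℕ := ⌊Real.exp (Real.sqrt j)⌋₊

end Pool.Agent.H1.PP
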