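import Pool.Agent.H1.PP.AvL

/-!
# PP-05 DetZ: words `R'` with `det (R - R') = 0`

Fix `R = [[a, b], [c, d]] ∈ Wd s n`, `n ≥ 1`, `T = 2^s`, `G = T^(10 n)`.  Claim: at most `T^(11 n)` words `R' ∈ Wd s n`
satisfy `det (R - R') = 0`.

PROOF.  `R' = R` is one of them.  Let `R' ≠ R`.  By `row_inj` the second rows differ; write
`(second row of R) - (second row of R') = g • (y1, y2)` with `g ≥ 1` the gcd, `(y1, y2)` primitive.  The first row
difference is parallel to it, hence an integer multiple `m • (y1, y2)`.  `det R = det R' = 1` and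
`det (R - u ⊗ y) = det R - (y1 (d m - b g) + y2 (a g - c m))` give `m e = g f` with `e = d y1 - c y2`, `f = b y1 - a y2`.
`gcd (e, f) = 1` since `(e, f)` is the image of the primitive `(y1, y2)` under an integer matrix of determinant
`- (a d - b c) = -1`.  So `e ∣ g`; `e ≠ 0` (otherwise `g f = 0`, so `f = 0`, impossible).  Entries of words are in
`[0, G/2]`, so `g |y_i| ≤ G`, `g ≤ G`, `1 ≤ |e| ≤ g ≤ G`.

Counting: `R'` is determined by `(g, e, y1)`: `y2` is determined by `e = d y1 - c y2` (`c ≥ 1`), then the second row of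
`R'`, then `R'` by `row_inj`.  The pairs `(g, e)` with `1 ≤ g ≤ G`, `e ∣ g`: write `g = |e| k`; there are at most
`2 ∑_{1 ≤ e ≤ G} G / e ≤ 2 G (1 + log G)` of them.  For given `(g, e)`, `y1` lies in one residue class modulo `c`
(`d` is invertible modulo `c`) and `|y1| ≤ G`: at most `2 G / c + 1 ≤ 2 * 8^n + 1 ≤ 3 * 8^n` values (`Wd_lower`).
Total `≤ 1 + 6 * 8^n * G * (1 + log G)`, `log G ≤ 7 n s`, and `1 + 6 * 8^n * T^(10 n) (1 + 7 n s) ≤ T^(11 n)` since
`T^n = 2^(s n) ≥ 7 * 8^n (1 + 7 n s)` for `s ≥ 50`, `n ≥ 1`.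
-/

set_option autoImplicit false

open Finset

namespace Pool.Agent.H1.PP

open Pool.Agent.H10.RP (ee nd Lam)

/-- the algebra: a word with the same determinant condition is described by `(e, k, y1, y2)` -/
lemma detz_data (a b c d a' b' c' d' : ℤ) (h1 : a * d - b * c = 1) (h2 : a' * d' - b' * c' = 1)
    (h3 : (a - a') * (d - d') - (b - b') * (c - c') = 0) (hne : ¬ (c = c' ∧ d = d')) :
    ∃ e k y1 y2 : ℤ, e ≠ 0 ∧ 1 ≤ k ∧ e = d * y1 - c * y2 ∧ c - c' = |e| * k * y1 ∧
      d - d' = |e| * k * y2 := by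
  have hg : 0 < Int.gcd (c - c') (d - d') := by
    rw [Int.gcd_pos_iff]
    by_contra hcon
    push Not at hcon
    exact hne ⟨by linarith [hcon.1], by linarith [hcon.2]⟩
  obtain ⟨g, y1, y2, hg0, hco, hu, hv⟩ := Int.exists_gcd_one' hg
  have hgz : (0 : ℤ) < (g : ℤ) := by exact_mod_cast hg0
  obtain ⟨x1, x2, hx⟩ := Int.isCoprime_iff_gcd_eq_one.2 hco
  set G : ℤ := (g : ℤ) with hG
  have hpq : (a - a') * y2 = (b - b') * y1 := by
    rw [hu, hv] at h3
    have : G * ((a - a') * y2 - (b - b') * y1) = 0 := by linear_combination h3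
    rcases mul_eq_zero.1 this with h | h
    · exact absurd h hgz.ne'
    · linarith
  obtain ⟨m, hm⟩ : ∃ m : ℤ, m = x1 * (a - a') + x2 * (b - b') := ⟨_, rfl⟩
  have hm1 : a - a' = m * y1 := by
    rw [hm]
    linear_combination (-(a - a')) * hx - x2 * hpq * (-1)
  have hm2 : b - b' = m * y2 := by
    rw [hm]
    linear_combination (-(b - b')) * hx - x1 * hpq
  have hfe : G * (b * y1 - a * y2) = m * (d * y1 - c * y2) := by
    have ea : a' = a - m * y1 := by linarith
    have eb : b' = b - m * y2 := by linarith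
    have ec : c' = c - y1 * G := by linarith
    have ed : d' = d - y2 * G := by linarith
    rw [ea, eb, ec, ed] at h2
    linear_combination h2 - h1
  have hcop : IsCoprime (d * y1 - c * y2) (b * y1 - a * y2) := by
    refine ⟨x1 * a + x2 * b, -(x1 * c + x2 * d), ?_⟩
    linear_combination hx + (x1 * y1 + x2 * y2) * h1
  have hdvd : (d * y1 - c * y2) ∣ G := by
    refine hcop.dvd_of_dvd_mul_right ?_
    exact ⟨m, by rw [hfe]; ring⟩
  obtain ⟨k, hk⟩ := hdvd
  have he0 : d * y1 - c * y2 ≠ 0 := by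
    intro h0
    rw [h0, zero_mul] at hk
    exact hgz.ne' hk
  have hk0 : k ≠ 0 := by
    intro h0
    rw [h0, mul_zero] at hk
    exact hgz.ne' hk
  have habs : G = |d * y1 - c * y2| * |k| := by
    rw [← abs_mul, ← hk, abs_of_pos hgz]
  refine ⟨d * y1 - c * y2, |k|, y1, y2, he0, ?_, rfl, ?_, ?_⟩
  · have := abs_pos.2 hk0
    linarith
  · rw [← habs, hu]; ring
  · rw [← habs, hv]; ring

/-- pairs of positive integers with product at most `G` -/
noncomputable def detzD (G : ℕ) : Finset (Σ _ : ℕ, ℕ) := (Icc 1 G).sigma (fun x => Icc 1 (G / x))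

lemma detz_D (G : ℕ) : ((detzD G).card : ℝ) ≤ G * (1 + Real.log G) := by
  unfold detzD
  rw [Finset.card_sigma]
  push_cast
  have h1 : ∀ x ∈ Icc 1 G, ((Icc 1 (G / x)).card : ℝ) ≤ (G : ℝ) * (x : ℝ)⁻¹ := by
    intro x _
    rw [Nat.card_Icc, Nat.add_sub_cancel, ← div_eq_mul_inv]
    exact Nat.cast_div_le
  refine (Finset.sum_le_sum h1).trans ?_
  rw [← Finset.mul_sum]
  refine mul_le_mul_of_nonneg_left ?_ (Nat.cast_nonneg _)
  have h2 := harmonic_le_one_add_log G
  rw [harmonic_eq_sum_Icc] at h2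
  push_cast at h2
  exact h2

lemma detz_pow (y : ℕ) (hy : 12 ≤ y) : 7 * (1 + 20 * y) ≤ 2 ^ y := by
  induction y, hy using Nat.le_induction with
  | base => norm_num
  | succ y hy ih =>
    rw [pow_succ]
    have : 140 ≤ 2 ^ y := by
      calc 140 ≤ 7 * (1 + 20 * y) := by omega
        _ ≤ _ := ih
    omega

theorem det_zero_count (s : ℕ) (hs : 50 ≤ s) (n : ℕ) (hn : 1 ≤ n) (R : M2) (hR : R ∈ Wd s n) :
    (((Wd s n).filter (fun R' => (R - R').det = 0)).card : ℝ) ≤ 2 ^ (11 * s * n) := by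
  classical
  set G : ℕ := 2 ^ (10 * s * n) with hGdef
  have hG1 : 1 ≤ G := Nat.one_le_two_pow
  have hGz : ((G : ℕ) : ℤ) = 2 ^ (10 * s * n) := by rw [hGdef]; push_cast; rfl
  set F := ((Wd s n).filter (fun R' => (R - R').det = 0)).erase R with hF
  have hs1 : 1 ≤ s := by omega
  have hc1 : 1 ≤ R 1 0 := by
    have h1 := Wd_lower s n hs1 hn R hR 1 0
    by_contra hcon
    push Not at hcon
    have h2 : (8 : ℤ) ^ n * R 1 0 ≤ 0 := mul_nonpos_of_nonneg_of_nonpos (by positivity) (by linarith)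
    have h3 : (0 : ℤ) < 2 ^ (10 * s * n) := by positivity
    linarith
  have hGc : (G : ℤ) ≤ 8 ^ n * R 1 0 := by rw [hGz]; exact Wd_lower s n hs1 hn R hR 1 0
  have hdata : ∀ R' ∈ F, ∃ e k y1 y2 : ℤ, e ≠ 0 ∧ 1 ≤ k ∧ e = R 1 1 * y1 - R 1 0 * y2 ∧
      R 1 0 - R' 1 0 = |e| * k * y1 ∧ R 1 1 - R' 1 1 = |e| * k * y2 := by
    intro R' hR'
    obtain ⟨hne, hR'2⟩ := Finset.mem_erase.1 hR'
    obtain ⟨hR'm, hdet⟩ := Finset.mem_filter.1 hR'2
    rw [Matrix.det_fin_two] at hdet
    simp only [Matrix.sub_apply] at hdet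
    refine detz_data (R 0 0) (R 0 1) (R 1 0) (R 1 1) (R' 0 0) (R' 0 1) (R' 1 0) (R' 1 1)
      (Wd_det s n R hR) (Wd_det s n R' hR'm) hdet ?_
    rintro ⟨h1, h2⟩
    apply hne
    refine (row_inj s n R R' hR hR'm ?_).symm
    ext j
    fin_cases j
    · exact h1
    · exact h2
  choose! e k y1 y2 he hk hey hu hv using hdata
  have hsz : ∀ R' ∈ F, |e R'| * k R' ≤ G ∧ |y1 R'| ≤ G := by
    intro R' hR'
    obtain ⟨hne, hR'2⟩ := Finset.mem_erase.1 hR'
    obtain ⟨hR'm, hdet⟩ := Finset.mem_filter.1 hR'2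
    have n0 := Wd_nonneg s n R hR
    have n1 := Wd_nonneg s n R' hR'm
    have u0 := Wd_upper s n hs1 hn R hR
    have u1 := Wd_upper s n hs1 hn R' hR'm
    rw [← hGz] at u0 u1
    have b : ∀ j, |R 1 j - R' 1 j| ≤ G := by
      intro j
      rw [abs_le]
      have := n0 1 j
      have := n1 1 j
      have := u0 1 j
      have := u1 1 j
      constructor <;> linarith
    have hg1 : 1 ≤ |e R'| * k R' := by
      have h1 := abs_pos.2 (he R' hR')
      have h2 := hk R' hR'
      nlinarith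
    have b0 := b 0
    have b1 := b 1
    rw [hu R' hR', abs_mul, abs_of_pos (by linarith : 0 < |e R'| * k R')] at b0
    rw [hv R' hR', abs_mul, abs_of_pos (by linarith : 0 < |e R'| * k R')] at b1
    constructor
    · by_cases hy : y1 R' = 0
      · have hy2 : y2 R' ≠ 0 := by
          intro h0
          apply he R' hR'
          rw [hey R' hR', hy, h0]
          ring
        have := abs_pos.2 hy2
        nlinarith
      · have := abs_pos.2 hy
        nlinarith
    · have := abs_nonneg (y1 R')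
      nlinarith
  set Tg := (Finset.univ : Finset Bool) ×ˢ (detzD G ×ˢ Icc (-(8 ^ n : ℤ)) (8 ^ n)) with hTg
  set Ψ : M2 → Bool × ((Σ _ : ℕ, ℕ) × ℤ) := fun R' =>
    (decide (0 < e R'), (⟨(e R').natAbs, (k R').toNat⟩, y1 R' / R 1 0)) with hΨ
  have hmap : ∀ R' ∈ F, Ψ R' ∈ Tg := by
    intro R' hR'
    obtain ⟨s1, s2⟩ := hsz R' hR'
    rw [hTg, hΨ]
    simp only [Finset.mem_product, Finset.mem_univ, true_and]
    constructor
    · unfold detzD
      rw [Finset.mem_sigma]
      have h1 : 1 ≤ (e R').natAbs := Int.natAbs_pos.2 (he R' hR')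
      have h2 := hk R' hR'
      have h3 : (e R').natAbs * (k R').toNat ≤ G := by
        zify
        rw [Int.toNat_of_nonneg (by linarith)]
        exact s1
      have h4 : 1 ≤ (k R').toNat := by omega
      refine ⟨?_, ?_⟩
      · rw [Finset.mem_Icc]
        exact ⟨h1, le_trans (Nat.le_mul_of_pos_right _ h4) h3⟩
      · rw [Finset.mem_Icc]
        refine ⟨h4, ?_⟩
        rw [Nat.le_div_iff_mul_le h1]
        rw [Nat.mul_comm]
        exact h3
    · rw [Finset.mem_Icc]
      rw [abs_le] at s2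
      constructor
      · rw [Int.le_ediv_iff_mul_le (by linarith)]
        linarith
      · apply Int.ediv_le_of_le_mul (by linarith)
        linarith
  have hinj : Set.InjOn Ψ F := by
    intro A hA B hB hAB
    have hA' := Finset.mem_coe.1 hA
    have hB' := Finset.mem_coe.1 hB
    rw [hΨ] at hAB
    simp only [Prod.mk.injEq, Sigma.mk.injEq, heq_eq_eq, decide_eq_decide] at hAB
    obtain ⟨q1, ⟨q2, q3⟩, q4⟩ := hAB
    have hkA := hk A hA'
    have hkB := hk B hB'
    have hkk : k A = k B := by omega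
    have hee : e A = e B := by
      have h1 := he A hA'
      have h2 := he B hB'
      omega
    have c1 := hey A hA'
    have c2 := hey B hB'
    have hdet := Wd_det s n R hR
    have hdv : R 1 0 ∣ y1 A - y1 B := by
      have hcop : IsCoprime (R 1 0) (R 1 1) := ⟨-R 0 1, R 0 0, by linarith⟩
      refine hcop.dvd_of_dvd_mul_left ?_
      refine ⟨y2 A - y2 B, ?_⟩
      rw [hee] at c1
      linear_combination c2 - c1
    have hyy : y1 A = y1 B := by
      obtain ⟨t, ht⟩ := hdv
      have h1 : y1 A = y1 B + R 1 0 * t := by linarith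
      rw [h1, Int.add_mul_ediv_left _ _ (by linarith)] at q4
      have : t = 0 := by linarith
      rw [h1, this]
      ring
    have hyy2 : y2 A = y2 B := by
      have : R 1 0 * (y2 A - y2 B) = 0 := by
        rw [hee] at c1
        rw [hyy] at c1
        linear_combination c1 - c2
      rcases mul_eq_zero.1 this with h | h
      · linarith
      · linarith
    obtain ⟨hneA, hA2⟩ := Finset.mem_erase.1 hA'
    obtain ⟨hAm, _⟩ := Finset.mem_filter.1 hA2
    obtain ⟨hneB, hB2⟩ := Finset.mem_erase.1 hB'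
    obtain ⟨hBm, _⟩ := Finset.mem_filter.1 hB2
    refine row_inj s n A B hAm hBm ?_
    have u1 := hu A hA'
    have u2 := hu B hB'
    have v1 := hv A hA'
    have v2 := hv B hB'
    rw [hee, hkk, hyy] at u1
    rw [hee, hkk, hyy2] at v1
    ext j
    fin_cases j
    · show A 1 0 = B 1 0
      linarith
    · show A 1 1 = B 1 1
      linarith
  have hcard : F.card ≤ Tg.card := Finset.card_le_card_of_injOn Ψ hmap hinj
  have hTcard : Tg.card = 2 * ((detzD G).card * (2 * 8 ^ n + 1)) := by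
    rw [hTg, Finset.card_product, Finset.card_product, Finset.card_univ, Fintype.card_bool, Int.card_Icc]
    congr 2
    have : ((8 : ℤ) ^ n + 1 - -8 ^ n) = ((2 * 8 ^ n + 1 : ℕ) : ℤ) := by push_cast; ring
    rw [this, Int.toNat_natCast]
  have hD := detz_D G
  have hlog : Real.log G ≤ 10 * s * n := by
    rw [hGdef]
    push_cast
    rw [Real.log_pow]
    push_cast
    have h1 : Real.log 2 ≤ 1 := by
      have := Real.log_two_lt_d9
      linarith
    have h2 : (0 : ℝ) ≤ 10 * s * n := by positivity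
    nlinarith
  have hle : ((Wd s n).filter (fun R' => (R - R').det = 0)).card ≤ F.card + 1 := by
    rw [hF]
    have := Finset.pred_card_le_card_erase (s := (Wd s n).filter (fun R' => (R - R').det = 0)) (a := R)
    omega
  -- numerical part
  have hy : 12 ≤ (s - 3) * n := by
    calc 12 ≤ (s - 3) * 1 := by omega
      _ ≤ _ := Nat.mul_le_mul_left _ hn
  have hx : 10 * s * n ≤ 20 * ((s - 3) * n) := by
    have : s ≤ 2 * (s - 3) := by omega
    calc 10 * s * n = 10 * (s * n) := by ring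
      _ ≤ 10 * ((2 * (s - 3)) * n) := by gcongr
      _ = _ := by ring
  have hp := detz_pow _ hy
  have h8 : (8 : ℕ) ^ n * 2 ^ ((s - 3) * n) = 2 ^ (s * n) := by
    rw [show (8 : ℕ) = 2 ^ 3 by norm_num, ← pow_mul, ← pow_add, ← add_mul]
    congr 2
    omega
  have hnum : (7 : ℝ) * 8 ^ n * (1 + 10 * s * n) ≤ 2 ^ (s * n) := by
    have h1 : 7 * 8 ^ n * (1 + 10 * s * n) ≤ 2 ^ (s * n) := by
      rw [← h8]
      calc 7 * 8 ^ n * (1 + 10 * s * n) = 8 ^ n * (7 * (1 + 10 * s * n)) := by ring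
        _ ≤ 8 ^ n * (7 * (1 + 20 * ((s - 3) * n))) := by gcongr
        _ ≤ _ := Nat.mul_le_mul_left _ hp
    exact_mod_cast h1
  have hG1r : (1 : ℝ) ≤ G := by exact_mod_cast hG1
  have h8r : (1 : ℝ) ≤ 8 ^ n := one_le_pow₀ (by norm_num)
  have hfin : (((Wd s n).filter (fun R' => (R - R').det = 0)).card : ℝ) ≤ F.card + 1 := by
    exact_mod_cast hle
  have hFr : (F.card : ℝ) ≤ 2 * ((G * (1 + 10 * s * n)) * (2 * 8 ^ n + 1)) := by
    calc (F.card : ℝ) ≤ (Tg.card : ℝ) := by exact_mod_cast hcard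
      _ = 2 * (((detzD G).card : ℝ) * (2 * 8 ^ n + 1)) := by rw [hTcard]; push_cast; ring
      _ ≤ 2 * ((G * (1 + 10 * s * n)) * (2 * 8 ^ n + 1)) := by
        have : (G : ℝ) * (1 + Real.log G) ≤ G * (1 + 10 * s * n) := by gcongr
        have h2 : ((detzD G).card : ℝ) ≤ G * (1 + 10 * s * n) := hD.trans this
        gcongr
  have hpos : (0 : ℝ) ≤ 10 * s * n := by positivity
  calc (((Wd s n).filter (fun R' => (R - R').det = 0)).card : ℝ) ≤ F.card + 1 := hfin
    _ ≤ 2 * ((G * (1 + 10 * s * n)) * (2 * 8 ^ n + 1)) + 1 := by linarith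
    _ ≤ G * (7 * 8 ^ n * (1 + 10 * s * n)) := by
      have h1 : (1 : ℝ) ≤ G * (1 + 10 * s * n) := by nlinarith
      have h2 : (0 : ℝ) ≤ G * (1 + 10 * s * n) := by linarith
      nlinarith [mul_le_mul_of_nonneg_left h8r h2]
    _ ≤ G * 2 ^ (s * n) := by
      exact mul_le_mul_of_nonneg_left hnum (by linarith)
    _ = 2 ^ (11 * s * n) := by
      rw [hGdef]
      push_cast
      rw [← pow_add]
      congr 1
      ring

end Pool.Agent.H1.PP
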