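import Pool.Agent.H1.PP.FD
import Pool.Agent.H10.RP.FT

/-!
# PP-24 Disc: second moment of the correlation difference along random shifts

`q0 = 2^(20 s n')`, `δ0 = 16 * 2^(45 s n') / R`, `S_i(θ) = ES f_i X θ`, `M ≥ 2 X`.

PROOF.  For `0 ≤ j < M` let `g_j = |S_1(j/M)|² - |S_2(j/M)|²`.  Then `|g_j| ≤ E B`, and
`(1/M) ∑_j |g_j| ≤ (1/M) ∑_j (|S_1|² + |S_2|²) = ∑ (|f_1|² + |f_2|²) ≤ L` (Parseval, `M > X`).
For an integer `h` with `|h| < X`: `T(h) := (1/M) ∑_j g_j e(-h j/M) = Cor f_1 X h - Cor f_2 X h`, since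
`(1/M) ∑_j |S(j/M)|² e(-hj/M) = ∑_{m,n : M ∣ m - n - h} f(m) conj f(n)` and `|m - n - h| < 2 X ≤ M`.
Define `T(h)` by this formula for all `h`.  With `h = lf P a`:
`Av (bmp |T(lf P a)|²) = (1/M²) ∑_{j,j'} g_j g_{j'} Av (bmp e(-(j - j') (lf P a)/M))`, and
`-(j-j') (lf P a)/M = dt P ψ` with `ψ = -((j-j')/M) (a.1, a.2)`.  By `FD` the average is at most `5/2^(s n')` in absolute
value unless `NearQ q0 δ0 ψ` (then use the bound `1`: `0 ≤ bmp ≤ 1`).  The first type of pairs contributes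
`≤ (5/2^(s n')) L²`.  The second type: `≤ (1/M²) ∑_j |g_j| * E B * #{j' : NearQ q0 δ0 ψ} ≤ L E B * max_j #{j'} / M`.
Counting: fix `j`, and a coordinate with `a_i ≠ 0`, `|a_i| ≤ A0`.  `NearQ` gives `1 ≤ q ≤ q0` and `p` with
`|y a_i - p/q| ≤ δ0`, `y = -(j-j')/M ∈ (-1, 1)`.  `|p| ≤ q |a_i| + q δ0 ≤ q|a_i| + 1`: at most `2 q |a_i| + 3 ≤ 5 q |a_i|`
values of `p`; for each `(q, p)`, `y` lies in an interval of length `2 δ0/|a_i|`: at most `2 M δ0/|a_i| + 1` values of `j'`.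
Total `≤ ∑_{q ≤ q0} 5 q (2 M δ0 + |a_i|) ≤ 5 q0² (2 M δ0 + A0)`.
Finally restrict to `|lf P a| < X`.
-/

set_option autoImplicit false

open Finset

namespace Pool.Agent.H1.PP

open Pool.Agent.H10.RP (ee nd Lam norm_ee ee_zero ee_add conj_ee ee_int sum_ee_mod)

/-- expansion of the square of an exponential sum -/
theorem disc_sq (f : ℕ → ℂ) (X : ℕ) (θ : ℝ) : ((‖ES f X θ‖ ^ 2 : ℝ) : ℂ) =
    ∑ m ∈ Icc 1 X, ∑ n ∈ Icc 1 X, f m * (starRingEnd ℂ) (f n) * ee (θ * ((m : ℝ) - n)) := by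
  rw [← Complex.normSq_eq_norm_sq, ← Complex.mul_conj]
  unfold ES
  rw [map_sum, sum_mul_sum]
  refine sum_congr rfl fun m _ => sum_congr rfl fun n _ => ?_
  rw [map_mul, conj_ee]
  have : ee (θ * ((m : ℝ) - n)) = ee (θ * m) * ee (-(θ * n)) := by
    rw [← ee_add]; congr 1; ring
  rw [this]
  ring

theorem disc_cor (f : ℕ → ℂ) (X M : ℕ) (hX : 1 ≤ X) (hM : 2 * X ≤ M) (h : ℤ) (hh : |h| < (X : ℤ)) :
    ∑ j ∈ range M, ((‖ES f X ((j : ℝ) / M)‖ ^ 2 : ℝ) : ℂ) * ee (-((h : ℝ) * ((j : ℝ) / M))) =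
      M * Cor f X h := by
  have hM0 : 0 < M := by omega
  have hMr : (M : ℝ) ≠ 0 := by exact_mod_cast hM0.ne'
  simp only [disc_sq]
  unfold Cor
  rw [mul_sum]
  have e1 : ∀ j ∈ range M, (∑ m ∈ Icc 1 X, ∑ n ∈ Icc 1 X,
      f m * (starRingEnd ℂ) (f n) * ee ((j : ℝ) / M * ((m : ℝ) - n))) * ee (-((h : ℝ) * ((j : ℝ) / M))) =
      ∑ m ∈ Icc 1 X, ∑ n ∈ Icc 1 X, f m * (starRingEnd ℂ) (f n) *
        ee ((j : ℝ) * (((m : ℤ) - n - h : ℤ) : ℝ) / M) := by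
    intro j _
    rw [sum_mul]
    refine sum_congr rfl fun m _ => ?_
    rw [sum_mul]
    refine sum_congr rfl fun n _ => ?_
    rw [mul_assoc, ← ee_add]
    congr 2
    push_cast
    field_simp
    ring
  rw [sum_congr rfl e1, sum_comm]
  refine sum_congr rfl fun m hm => ?_
  rw [sum_comm, mul_sum]
  refine sum_congr rfl fun n hn => ?_
  rw [← mul_sum, sum_ee_mod M hM0]
  rw [mem_Icc] at hm hn
  rw [abs_lt] at hh
  by_cases hc : (m : ℤ) - n = h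
  · rw [if_pos hc, if_pos (by rw [hc, sub_self]; exact dvd_zero _)]
    ring
  · rw [if_neg hc, if_neg]
    · ring
    · rintro ⟨k, hk⟩
      have h1 : (m : ℤ) - n - h < M := by omega
      have h2 : -(M : ℤ) < (m : ℤ) - n - h := by omega
      rw [hk] at h1 h2
      have hMz : (0 : ℤ) < M := by exact_mod_cast hM0
      have h3 : k < 1 := by nlinarith
      have h4 : -1 < k := by nlinarith
      have h5 : k = 0 := by omega
      rw [h5, mul_zero] at hk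
      exact hc (by linarith)

theorem disc_parseval (f : ℕ → ℂ) (X M : ℕ) (hX : 1 ≤ X) (hM : 2 * X ≤ M) :
    ∑ j ∈ range M, ‖ES f X ((j : ℝ) / M)‖ ^ 2 = M * ∑ n ∈ Icc 1 X, ‖f n‖ ^ 2 := by
  have h := disc_cor f X M hX hM 0 (by simpa using (by exact_mod_cast hX : (0 : ℤ) < X))
  have e2 : Cor f X 0 = ((∑ n ∈ Icc 1 X, ‖f n‖ ^ 2 : ℝ) : ℂ) := by
    unfold Cor
    rw [Complex.ofReal_sum]
    refine sum_congr rfl fun m hm => ?_
    rw [sum_eq_single_of_mem m hm]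
    · rw [if_pos (by ring), Complex.mul_conj, Complex.normSq_eq_norm_sq]
    · intro b _ hb
      rw [if_neg]
      intro h0
      apply hb
      have : (m : ℤ) = b := by linarith
      exact_mod_cast this.symm
  rw [e2] at h
  have e3 : ∑ j ∈ range M, ((‖ES f X ((j : ℝ) / M)‖ ^ 2 : ℝ) : ℂ) * ee (-(((0 : ℤ) : ℝ) * ((j : ℝ) / M))) =
      ((∑ j ∈ range M, ‖ES f X ((j : ℝ) / M)‖ ^ 2 : ℝ) : ℂ) := by
    rw [Complex.ofReal_sum]
    refine sum_congr rfl fun j _ => ?_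
    simp [ee_zero]
  rw [e3] at h
  exact_mod_cast h

theorem disc_card (M : ℕ) (c r : ℝ) (hr : 0 ≤ r) :
    (((range M).filter (fun j : ℕ => |(j : ℝ) - c| ≤ r)).card : ℝ) ≤ 2 * r + 1 := by
  set S := (range M).filter (fun j : ℕ => |(j : ℝ) - c| ≤ r) with hS
  rcases S.eq_empty_or_nonempty with h | h
  · rw [h]; simp; positivity
  · have h1 := S.min'_mem h
    have h2 := S.max'_mem h
    have h3 : S ⊆ Icc (S.min' h) (S.max' h) := fun x hx =>
      mem_Icc.2 ⟨S.min'_le x hx, S.le_max' x hx⟩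
    have h4 := card_le_card h3
    rw [Nat.card_Icc] at h4
    have h5 : S.min' h ≤ S.max' h := S.min'_le _ h2
    have h6 : (S.card : ℝ) ≤ (S.max' h : ℝ) + 1 - S.min' h := by
      have : S.card + S.min' h ≤ S.max' h + 1 := by omega
      have := (Nat.cast_le (α := ℝ)).2 this
      push_cast at this
      linarith
    have h7 := (mem_filter.1 h1).2
    have h8 := (mem_filter.1 h2).2
    rw [abs_le] at h7 h8
    linarith [h7.1, h8.2]

open Classical in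
/-- counting for one coordinate -/
theorem disc_count (M Q : ℕ) (hM : 1 ≤ M) (j : ℕ) (hj : j < M) (a : ℤ) (ha : a ≠ 0) (δ : ℝ) (hδ : 0 ≤ δ)
    (hQδ : (Q : ℝ) * δ ≤ 1) :
    (((range M).filter (fun j' : ℕ => ∃ q : ℕ, 1 ≤ q ∧ q ≤ Q ∧ ∃ p : ℤ,
      |-(((j : ℝ) - j') / M) * a - (p : ℝ) / q| ≤ δ)).card : ℝ) ≤
      5 * (Q : ℝ) ^ 2 * (2 * M * δ + |(a : ℝ)|) := by
  have hMr : (0 : ℝ) < M := by exact_mod_cast hM
  have ha0 : (a : ℝ) ≠ 0 := by exact_mod_cast ha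
  have ha1 : (1 : ℝ) ≤ |(a : ℝ)| := by
    rw [← Int.cast_abs]
    exact_mod_cast Int.one_le_abs ha
  set A : ℕ := a.natAbs with hA
  have hAr : (A : ℝ) = |(a : ℝ)| := by rw [hA, Nat.cast_natAbs, Int.cast_abs]
  have hsub : (range M).filter (fun j' : ℕ => ∃ q : ℕ, 1 ≤ q ∧ q ≤ Q ∧ ∃ p : ℤ,
      |-(((j : ℝ) - j') / M) * a - (p : ℝ) / q| ≤ δ) ⊆
      (Icc 1 Q).biUnion (fun q : ℕ => (Icc (-((q * A + 1 : ℕ) : ℤ)) ((q * A + 1 : ℕ) : ℤ)).biUnion
        (fun p => (range M).filter (fun j' : ℕ =>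
          |(j' : ℝ) - ((j : ℝ) + (p : ℝ) * M / (q * a))| ≤ M * δ / |(a : ℝ)|))) := by
    intro j' hj'
    rw [mem_filter, mem_range] at hj'
    obtain ⟨hj1, q, hq1, hqQ, p, hp⟩ := hj'
    have hqr : (0 : ℝ) < q := by exact_mod_cast hq1
    rw [mem_biUnion]
    refine ⟨q, mem_Icc.2 ⟨hq1, hqQ⟩, ?_⟩
    rw [mem_biUnion]
    refine ⟨p, ?_, ?_⟩
    · have h1 : |((j : ℝ) - j') / M| ≤ 1 := by
        rw [abs_div, abs_of_pos hMr, div_le_one hMr, abs_le]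
        have e1 : (j : ℝ) < M := by exact_mod_cast hj
        have e2 : (j' : ℝ) < M := by exact_mod_cast hj1
        have e3 : (0 : ℝ) ≤ j := Nat.cast_nonneg _
        have e4 : (0 : ℝ) ≤ j' := Nat.cast_nonneg _
        constructor <;> linarith
      have h2 : |(p : ℝ) / q| ≤ |(a : ℝ)| + δ := by
        have e1 : (p : ℝ) / q = -(((j : ℝ) - j') / M) * a - (-(((j : ℝ) - j') / M) * a - (p : ℝ) / q) := by
          ring
        rw [e1]
        refine (abs_sub _ _).trans (add_le_add ?_ hp)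
        rw [abs_mul, abs_neg]
        calc |((j : ℝ) - j') / M| * |(a : ℝ)| ≤ 1 * |(a : ℝ)| := by gcongr
          _ = _ := one_mul _
      have h3 : |(p : ℝ)| ≤ q * A + 1 := by
        rw [abs_div, abs_of_pos hqr, div_le_iff₀ hqr] at h2
        have hq2 : (q : ℝ) * δ ≤ 1 := by
          refine le_trans ?_ hQδ
          have : (q : ℝ) ≤ Q := by exact_mod_cast hqQ
          gcongr
        rw [hAr]
        nlinarith
      have h4 : |p| ≤ ((q * A + 1 : ℕ) : ℤ) := by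
        have : (|p| : ℝ) ≤ ((q * A + 1 : ℕ) : ℝ) := by push_cast; exact h3
        have h5 : ((|p| : ℤ) : ℝ) ≤ (((q * A + 1 : ℕ) : ℤ) : ℝ) := by
          rw [Int.cast_abs]; exact_mod_cast this
        exact_mod_cast h5
      rw [mem_Icc]
      exact abs_le.1 h4
    · rw [mem_filter, mem_range]
      refine ⟨hj1, ?_⟩
      rw [le_div_iff₀ (by linarith), ← abs_mul]
      have e1 : ((j' : ℝ) - ((j : ℝ) + (p : ℝ) * M / (q * a))) * a =
          M * (-(((j : ℝ) - j') / M) * a - (p : ℝ) / q) := by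
        field_simp
        ring
      rw [e1, abs_mul, abs_of_pos hMr]
      gcongr
  have hcard := (Nat.cast_le (α := ℝ)).2 (card_le_card hsub)
  refine hcard.trans ?_
  have hr : 0 ≤ (M : ℝ) * δ / |(a : ℝ)| := by positivity
  calc (((Icc 1 Q).biUnion (fun q : ℕ => (Icc (-((q * A + 1 : ℕ) : ℤ)) ((q * A + 1 : ℕ) : ℤ)).biUnion
        (fun p => (range M).filter (fun j' : ℕ =>
          |(j' : ℝ) - ((j : ℝ) + (p : ℝ) * M / (q * a))| ≤ M * δ / |(a : ℝ)|)))).card : ℝ)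
      ≤ ∑ q ∈ Icc 1 Q, (((Icc (-((q * A + 1 : ℕ) : ℤ)) ((q * A + 1 : ℕ) : ℤ)).biUnion
        (fun p => (range M).filter (fun j' : ℕ =>
          |(j' : ℝ) - ((j : ℝ) + (p : ℝ) * M / (q * a))| ≤ M * δ / |(a : ℝ)|))).card : ℝ) := by
        exact_mod_cast card_biUnion_le
    _ ≤ ∑ q ∈ Icc 1 Q, ∑ p ∈ Icc (-((q * A + 1 : ℕ) : ℤ)) ((q * A + 1 : ℕ) : ℤ),
        ((((range M).filter (fun j' : ℕ =>
          |(j' : ℝ) - ((j : ℝ) + (p : ℝ) * M / (q * a))| ≤ M * δ / |(a : ℝ)|)).card : ℝ)) := by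
        refine sum_le_sum fun q _ => ?_
        exact_mod_cast card_biUnion_le
    _ ≤ ∑ q ∈ Icc 1 Q, ∑ p ∈ Icc (-((q * A + 1 : ℕ) : ℤ)) ((q * A + 1 : ℕ) : ℤ),
        (2 * (M * δ / |(a : ℝ)|) + 1) :=
        sum_le_sum fun q _ => sum_le_sum fun p _ => disc_card M _ _ hr
    _ ≤ ∑ q ∈ Icc 1 Q, (5 * Q * (2 * M * δ + |(a : ℝ)|)) := by
        refine sum_le_sum fun q hq => ?_
        rw [mem_Icc] at hq
        have hq1 : (1 : ℝ) ≤ q := by exact_mod_cast hq.1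
        have hqQ : (q : ℝ) ≤ Q := by exact_mod_cast hq.2
        rw [sum_const, nsmul_eq_mul, Int.card_Icc]
        have e1 : (((((q * A + 1 : ℕ) : ℤ) + 1 - -((q * A + 1 : ℕ) : ℤ)).toNat : ℕ) : ℝ) =
            2 * (q * |(a : ℝ)|) + 3 := by
          have : (((q * A + 1 : ℕ) : ℤ) + 1 - -((q * A + 1 : ℕ) : ℤ)).toNat = 2 * (q * A) + 3 := by
            omega
          rw [this, ← hAr]
          push_cast
          ring
        rw [e1]
        have e2 : 2 * ((q : ℝ) * |(a : ℝ)|) + 3 ≤ 5 * (q * |(a : ℝ)|) := by nlinarith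
        calc (2 * ((q : ℝ) * |(a : ℝ)|) + 3) * (2 * (M * δ / |(a : ℝ)|) + 1)
            ≤ (5 * (q * |(a : ℝ)|)) * (2 * (M * δ / |(a : ℝ)|) + 1) := by gcongr
          _ = 5 * q * (2 * M * δ + |(a : ℝ)|) := by
              field_simp
          _ ≤ _ := by gcongr
    _ = _ := by
        rw [sum_const, nsmul_eq_mul, Nat.card_Icc]
        push_cast
        ring

theorem disc (s : ℕ) (hs : 50 ≤ s) (R : ℕ) (hR : 1 ≤ R) (m1 m2 : ℤ) (h1 : 2 * (R : ℤ) ≤ m1)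
    (h2 : 2 * (R : ℤ) ≤ m2) (h1' : m1 ≤ 2 ^ (110 * s) * R) (h2' : m2 ≤ 2 ^ (110 * s) * R)
    (n' K : ℕ) (hn' : 11 ≤ n') (hK : n' ≤ K) (X M : ℕ) (hX : 1 ≤ X) (hM : 2 * X ≤ M) (f1 f2 : ℕ → ℂ)
    (L E B A0 : ℝ) (hL : ∑ n ∈ Icc 1 X, (‖f1 n‖ ^ 2 + ‖f2 n‖ ^ 2) ≤ L)
    (hE : ∀ θ, ‖ES f1 X θ - ES f2 X θ‖ ≤ E) (hB : ∀ θ, ‖ES f1 X θ‖ + ‖ES f2 X θ‖ ≤ B)
    (a : ℤ × ℤ) (ha : a ≠ 0) (hA1 : |(a.1 : ℝ)| ≤ A0) (hA2 : |(a.2 : ℝ)| ≤ A0)
    (hδ : (2 : ℝ) ^ (20 * s * n') * (16 * 2 ^ (45 * s * n') / R) ≤ 1) :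
    Av s (10 * K) (fun P => bmp R m1 m2 P *
      (if |lf P a| < (X : ℤ) then ‖Cor f1 X (lf P a) - Cor f2 X (lf P a)‖ ^ 2 else 0)) ≤
      5 / 2 ^ (s * n') * L ^ 2 +
        5 * ((2 : ℝ) ^ (20 * s * n')) ^ 2 * (32 * 2 ^ (45 * s * n') / R + A0 / M) * (E * B * L) := by
  classical
  have hM1 : 1 ≤ M := by omega
  have hMr : (0 : ℝ) < M := by exact_mod_cast hM1
  have hRr : (0 : ℝ) < R := by exact_mod_cast hR
  set q0 : ℕ := 2 ^ (20 * s * n') with hq0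
  have hq0r : ((q0 : ℕ) : ℝ) = 2 ^ (20 * s * n') := by rw [hq0]; push_cast; rfl
  set δ0 : ℝ := 16 * 2 ^ (45 * s * n') / R with hδ0
  have hδ0p : 0 ≤ δ0 := by positivity
  set ε0 : ℝ := 5 / 2 ^ (s * n') with hε0
  have hε0p : 0 ≤ ε0 := by positivity
  set g : ℕ → ℝ := fun j => ‖ES f1 X ((j : ℝ) / M)‖ ^ 2 - ‖ES f2 X ((j : ℝ) / M)‖ ^ 2 with hg
  have hE0 : 0 ≤ E := (norm_nonneg _).trans (hE 0)
  have hB0 : 0 ≤ B := (add_nonneg (norm_nonneg _) (norm_nonneg _)).trans (hB 0)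
  have hL0 : 0 ≤ L := le_trans (sum_nonneg fun _ _ => by positivity) hL
  have hg1 : ∀ j, |g j| ≤ E * B := by
    intro j
    have e1 : g j = (‖ES f1 X ((j : ℝ) / M)‖ - ‖ES f2 X ((j : ℝ) / M)‖) *
        (‖ES f1 X ((j : ℝ) / M)‖ + ‖ES f2 X ((j : ℝ) / M)‖) := by
      simp only [hg]; ring
    rw [e1, abs_mul]
    refine mul_le_mul ?_ ?_ (abs_nonneg _) hE0
    · exact (abs_norm_sub_norm_le _ _).trans (hE _)
    · rw [abs_of_nonneg (by positivity)]
      exact hB _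
  have hg2 : ∑ j ∈ range M, |g j| ≤ M * L := by
    calc ∑ j ∈ range M, |g j| ≤ ∑ j ∈ range M, (‖ES f1 X ((j : ℝ) / M)‖ ^ 2 +
          ‖ES f2 X ((j : ℝ) / M)‖ ^ 2) := by
          refine sum_le_sum fun j _ => ?_
          simp only [hg]
          refine (abs_sub _ _).trans ?_
          rw [abs_of_nonneg (by positivity), abs_of_nonneg (by positivity)]
      _ = M * ∑ n ∈ Icc 1 X, (‖f1 n‖ ^ 2 + ‖f2 n‖ ^ 2) := by
          rw [sum_add_distrib, disc_parseval f1 X M hX hM, disc_parseval f2 X M hX hM,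
            sum_add_distrib, mul_add]
      _ ≤ _ := by gcongr
  set ψ : ℕ → ℕ → Fin 2 → ℝ := fun j j' => ![-(((j : ℝ) - j') / M) * a.1, -(((j : ℝ) - j') / M) * a.2]
    with hψ
  have hdt : ∀ (P : M2) (j j' : ℕ), dt P (ψ j j') = -((lf P a : ℝ) * (((j : ℝ) - j') / M)) := by
    intro P j j'
    simp only [dt, hψ, lf, Matrix.cons_val_zero, Matrix.cons_val_one]
    push_cast
    ring
  set TT : M2 → ℂ := fun P => ∑ j ∈ range M, (g j : ℂ) * ee (-((lf P a : ℝ) * ((j : ℝ) / M))) with hTT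
  have hb0 : ∀ P, 0 ≤ bmp R m1 m2 P := fun P => mul_nonneg (tri_nonneg _ _ _) (tri_nonneg _ _ _)
  have hb1 : ∀ P, bmp R m1 m2 P ≤ 1 := fun P => by
    calc bmp R m1 m2 P ≤ 1 * 1 :=
      mul_le_mul (tri_le_one _ _ _) (tri_le_one _ _ _) (tri_nonneg _ _ _) zero_le_one
      _ = 1 := one_mul 1
  -- pointwise bound
  have hpt : ∀ P : M2, bmp R m1 m2 P *
      (if |lf P a| < (X : ℤ) then ‖Cor f1 X (lf P a) - Cor f2 X (lf P a)‖ ^ 2 else 0) ≤
      (1 / (M : ℝ) ^ 2) * (bmp R m1 m2 P * ‖TT P‖ ^ 2) := by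
    intro P
    split_ifs with hc
    · have e1 : TT P = M * (Cor f1 X (lf P a) - Cor f2 X (lf P a)) := by
        rw [mul_sub, ← disc_cor f1 X M hX hM _ hc, ← disc_cor f2 X M hX hM _ hc, ← sum_sub_distrib]
        simp only [hTT, hg]
        refine sum_congr rfl fun j _ => ?_
        push_cast
        ring
      rw [e1, norm_mul, Complex.norm_natCast]
      apply le_of_eq
      field_simp
    · have := hb0 P
      rw [mul_zero]
      positivity
  -- expansion of the square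
  have hexp : ∀ P : M2, ((bmp R m1 m2 P * ‖TT P‖ ^ 2 : ℝ) : ℂ) =
      ∑ j ∈ range M, ∑ j' ∈ range M, ((g j * g j' : ℝ) : ℂ) *
        ((bmp R m1 m2 P : ℂ) * ee (dt P (ψ j j'))) := by
    intro P
    rw [Complex.ofReal_mul, ← Complex.normSq_eq_norm_sq, ← Complex.mul_conj]
    simp only [hTT]
    rw [map_sum, sum_mul_sum, mul_sum]
    refine sum_congr rfl fun j _ => ?_
    rw [mul_sum]
    refine sum_congr rfl fun j' _ => ?_
    rw [map_mul, conj_ee, Complex.conj_ofReal, hdt]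
    have : ee (-((lf P a : ℝ) * (((j : ℝ) - j') / M))) =
        ee (-((lf P a : ℝ) * ((j : ℝ) / M))) * ee (-(-((lf P a : ℝ) * ((j' : ℝ) / M)))) := by
      rw [← ee_add]; congr 1; ring
    rw [this]
    push_cast
    ring
  have hkey : Av s (10 * K) (fun P => bmp R m1 m2 P * ‖TT P‖ ^ 2) ≤
      ∑ j ∈ range M, ∑ j' ∈ range M, |g j| * |g j'| *
        ‖Av s (10 * K) (fun P => (bmp R m1 m2 P : ℂ) * ee (dt P (ψ j j')))‖ := by
    have e1 : ((Av s (10 * K) (fun P => bmp R m1 m2 P * ‖TT P‖ ^ 2) : ℝ) : ℂ) =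
        ∑ j ∈ range M, ∑ j' ∈ range M, ((g j * g j' : ℝ) : ℂ) *
          Av s (10 * K) (fun P => (bmp R m1 m2 P : ℂ) * ee (dt P (ψ j j'))) := by
      rw [← Av_ofReal]
      simp only [hexp]
      rw [Av_sum]
      refine sum_congr rfl fun j _ => ?_
      rw [Av_sum]
      refine sum_congr rfl fun j' _ => ?_
      rw [Av_cmul]
    calc Av s (10 * K) (fun P => bmp R m1 m2 P * ‖TT P‖ ^ 2)
        ≤ ‖((Av s (10 * K) (fun P => bmp R m1 m2 P * ‖TT P‖ ^ 2) : ℝ) : ℂ)‖ := by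
          rw [Complex.norm_real]; exact le_abs_self _
      _ ≤ _ := by
          rw [e1]
          refine (norm_sum_le _ _).trans (sum_le_sum fun j _ => ?_)
          refine (norm_sum_le _ _).trans (sum_le_sum fun j' _ => ?_)
          rw [norm_mul, Complex.norm_real, Real.norm_eq_abs, abs_mul]
  -- each average
  have hav : ∀ j j', ‖Av s (10 * K) (fun P => (bmp R m1 m2 P : ℂ) * ee (dt P (ψ j j')))‖ ≤
      ε0 + (if NearQ (2 ^ (20 * s * n')) δ0 (ψ j j') then 1 else 0) := by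
    intro j j'
    rcases FD s hs R hR m1 m2 h1 h2 h1' h2' n' K hn' hK (ψ j j') with h | h
    · refine h.trans ?_
      have : (0 : ℝ) ≤ (if NearQ (2 ^ (20 * s * n')) δ0 (ψ j j') then 1 else 0) := by
        split_ifs <;> norm_num
      linarith
    · rw [if_pos h]
      have h3 : ‖Av s (10 * K) (fun P => (bmp R m1 m2 P : ℂ) * ee (dt P (ψ j j')))‖ ≤ 1 := by
        refine (norm_Av_le _ _ _).trans ?_
        refine (Av_mono s (10 * K) _ (fun _ => (1 : ℝ)) ?_).trans (le_of_eq (Av_const s (10 * K) hs 1))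
        intro P _
        rw [norm_mul, norm_ee, mul_one, Complex.norm_real, Real.norm_of_nonneg (hb0 P)]
        exact hb1 P
      linarith
  -- counting
  have hcnt : ∀ j ∈ range M, (((range M).filter (fun j' =>
      NearQ (2 ^ (20 * s * n')) δ0 (ψ j j'))).card : ℝ) ≤ 5 * (q0 : ℝ) ^ 2 * (2 * M * δ0 + A0) := by
    intro j hj
    rw [mem_range] at hj
    have hQδ : (q0 : ℝ) * δ0 ≤ 1 := by rw [hq0r]; exact hδ
    have main : ∀ (b : ℤ), b ≠ 0 → |(b : ℝ)| ≤ A0 → (∀ j', NearQ (2 ^ (20 * s * n')) δ0 (ψ j j') →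
        ∃ q : ℕ, 1 ≤ q ∧ q ≤ q0 ∧ ∃ p : ℤ, |-(((j : ℝ) - j') / M) * b - (p : ℝ) / q| ≤ δ0) →
        (((range M).filter (fun j' => NearQ (2 ^ (20 * s * n')) δ0 (ψ j j'))).card : ℝ) ≤
          5 * (q0 : ℝ) ^ 2 * (2 * M * δ0 + A0) := by
      intro b hb hbA hcon
      have h4 := disc_count M q0 hM1 j hj b hb δ0 hδ0p hQδ
      have h5 : (((range M).filter (fun j' => NearQ (2 ^ (20 * s * n')) δ0 (ψ j j'))).card : ℝ) ≤
          (((range M).filter (fun j' : ℕ => ∃ q : ℕ, 1 ≤ q ∧ q ≤ q0 ∧ ∃ p : ℤ,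
            |-(((j : ℝ) - j') / M) * b - (p : ℝ) / q| ≤ δ0)).card : ℝ) := by
        refine Nat.cast_le.2 (card_le_card ?_)
        intro j' hj'
        rw [mem_filter] at hj' ⊢
        exact ⟨hj'.1, hcon j' hj'.2⟩
      refine (h5.trans h4).trans ?_
      gcongr
    by_cases ha1 : a.1 = 0
    · have ha2 : a.2 ≠ 0 := fun h => ha (Prod.ext ha1 h)
      refine main a.2 ha2 hA2 fun j' hn => ?_
      obtain ⟨q, hq1, hq2, p, hp⟩ := hn
      refine ⟨q, hq1, ?_, p 1, ?_⟩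
      · rw [← hq0r] at hq2
        exact_mod_cast hq2
      · have := hp 1
        simpa [hψ] using this
    · refine main a.1 ha1 hA1 fun j' hn => ?_
      obtain ⟨q, hq1, hq2, p, hp⟩ := hn
      refine ⟨q, hq1, ?_, p 0, ?_⟩
      · rw [← hq0r] at hq2
        exact_mod_cast hq2
      · have := hp 0
        simpa [hψ] using this
  have hA0 : 0 ≤ A0 := (abs_nonneg _).trans hA1
  -- final summation
  have hfin : Av s (10 * K) (fun P => bmp R m1 m2 P * ‖TT P‖ ^ 2) ≤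
      ε0 * (M * L) ^ 2 + (M * L) * (E * B) * (5 * (q0 : ℝ) ^ 2 * (2 * M * δ0 + A0)) := by
    refine hkey.trans ?_
    have step : ∀ j ∈ range M, ∑ j' ∈ range M, |g j| * |g j'| *
        ‖Av s (10 * K) (fun P => (bmp R m1 m2 P : ℂ) * ee (dt P (ψ j j')))‖ ≤
        |g j| * (ε0 * (M * L) + (E * B) * (5 * (q0 : ℝ) ^ 2 * (2 * M * δ0 + A0))) := by
      intro j hj
      calc ∑ j' ∈ range M, |g j| * |g j'| *
            ‖Av s (10 * K) (fun P => (bmp R m1 m2 P : ℂ) * ee (dt P (ψ j j')))‖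
          ≤ ∑ j' ∈ range M, |g j| * (ε0 * |g j'| +
              (E * B) * (if NearQ (2 ^ (20 * s * n')) δ0 (ψ j j') then 1 else 0)) := by
            refine sum_le_sum fun j' _ => ?_
            rw [mul_assoc]
            refine mul_le_mul_of_nonneg_left ?_ (abs_nonneg _)
            calc |g j'| * ‖Av s (10 * K) (fun P => (bmp R m1 m2 P : ℂ) * ee (dt P (ψ j j')))‖
                ≤ |g j'| * (ε0 + (if NearQ (2 ^ (20 * s * n')) δ0 (ψ j j') then 1 else 0)) :=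
                  mul_le_mul_of_nonneg_left (hav j j') (abs_nonneg _)
              _ = ε0 * |g j'| + |g j'| * (if NearQ (2 ^ (20 * s * n')) δ0 (ψ j j') then 1 else 0) := by
                  ring
              _ ≤ _ := by
                  gcongr
                  exact hg1 j'
        _ = |g j| * (ε0 * ∑ j' ∈ range M, |g j'| + (E * B) *
              (((range M).filter (fun j' => NearQ (2 ^ (20 * s * n')) δ0 (ψ j j'))).card : ℝ)) := by
            rw [← mul_sum, sum_add_distrib, ← mul_sum, ← mul_sum, sum_boole]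
        _ ≤ _ := by
            gcongr
            exact hcnt j hj
    refine (sum_le_sum step).trans ?_
    rw [← sum_mul]
    calc (∑ j ∈ range M, |g j|) * (ε0 * (M * L) + (E * B) * (5 * (q0 : ℝ) ^ 2 * (2 * M * δ0 + A0)))
        ≤ (M * L) * (ε0 * (M * L) + (E * B) * (5 * (q0 : ℝ) ^ 2 * (2 * M * δ0 + A0))) := by
          gcongr
      _ = _ := by ring
  calc Av s (10 * K) (fun P => bmp R m1 m2 P *
        (if |lf P a| < (X : ℤ) then ‖Cor f1 X (lf P a) - Cor f2 X (lf P a)‖ ^ 2 else 0))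
      ≤ Av s (10 * K) (fun P => (1 / (M : ℝ) ^ 2) * (bmp R m1 m2 P * ‖TT P‖ ^ 2)) :=
        Av_mono _ _ _ _ fun P _ => hpt P
    _ = (1 / (M : ℝ) ^ 2) * Av s (10 * K) (fun P => bmp R m1 m2 P * ‖TT P‖ ^ 2) :=
        Av_smul s (10 * K) (1 / (M : ℝ) ^ 2) (fun P => bmp R m1 m2 P * ‖TT P‖ ^ 2)
    _ ≤ (1 / (M : ℝ) ^ 2) * (ε0 * (M * L) ^ 2 +
          (M * L) * (E * B) * (5 * (q0 : ℝ) ^ 2 * (2 * M * δ0 + A0))) := by gcongr
    _ = ε0 * L ^ 2 + 5 * (q0 : ℝ) ^ 2 * (2 * δ0 + A0 / M) * (E * B * L) := by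
        field_simp
    _ = _ := by
        rw [hq0r, hδ0]
        ring

end Pool.Agent.H1.PP
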