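import Pool.Agent.H1.PP.Pm
import Pool.Agent.H1.PP.Al

/-!
# PP-43 Dm: lower bound for the Hausdorff dimension

`T = 2^s`, `N = card (Lt s) ≥ T^20/320` (`card_Lt`).

PROOF.  Let `ν = μ.map (fun ω => al (w ω))` (`al (w ω)` is a limit of functions of finitely many letters, hence measurable:
`measurable_of_tendsto_metrizable`, `al_tendsto`, and `IsModel`).
(1) For `n ≥ 1` and `W ∈ Wd s n` let `J_W` be the set of all `(W 0 0 β + W 0 1)/(W 1 0 β + W 1 1)`, `1 ≤ β ≤ 2`: a closed interval of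
length `1/((C + D)(2 C + D)) ≥ (2/3) T^(-20 n)` (`(C, D)` second row, entries `≤ T^(10 n)/2`), contained in the open interval with
end points `W 0 1/W 1 1 < W 0 0/W 1 0`.  For different `W ∈ Wd s n` these open intervals are disjoint, by induction on `n`.
Letters `g = [[A, B], [C, D]]`: the intervals `(B/D, A/C)`; since `A D - B C = 1` and `C + D > 2 Q`, no rational number with
denominator `≤ 2 Q` lies strictly inside (such a number has denominator `≥ C + D`), in particular no end point of the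
interval of another letter `g'`.  So if the two open intervals meet they have the same left end point: `D' = D`, `B' = B`
(coprime positive), and `A D = B C + 1`, `A' D = B C' + 1` give `D ∣ C - C'`, `|C - C'| < Q < D`, so `C = C'`, `A = A'`.
Words: split off the FIRST letter, `W = g V`, `W' = g' V'` (`Wd_split` with `1 + n`); `g` acts on `(0, ∞)` by the increasing
injective map `z ↦ (A z + B)/(C z + D)` with image `(B/D, A/C)`.  If `g ≠ g'` the images are disjoint; if `g = g'` use the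
induction hypothesis for `V, V'` and injectivity.
(2) If `U` is a set of diameter `< T^(-20 n)` then at most `3` of the `J_W`, `W ∈ Wd s n`, meet `U`: if `k ≥ 3` of them meet `U`, all but
two of them lie in the convex hull of `U`, so `(k - 2)(2/3) T^(-20 n) ≤ diam U < T^(-20 n)`, `k - 2 < 3/2`.  `al (w ω) ∈ U`
implies that `J_{W}` meets `U` for `W = Pk (w ω) n` (`al_rep`), so `ν(U) ≤ 3 N^(-n)` (`IsModel` with `S = {W}`, `Av_card`).
(3) Let `d = 1 - 1/s`.  `T^20/320 = T^(20 d) * (2^20/320)` (`T^(20/s) = 2^20`), so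
`3 N^(-n) ≤ 3 T^(-20 d n) (320/2^20)^n ≤ T^(-20 d (n+1))` for `n ≥ n0(s)`.  So for a set `U` with
`0 < diam U < T^(-20 n0)` choose `n ≥ n0` with `T^(-20(n+1)) ≤ diam U < T^(-20 n)`: `ν(U) ≤ (diam U)^d`.  If `diam U = 0` then
`ν(U) ≤ 3 N^(-n)` for all `n`, so `ν(U) = 0`.
`MeasureTheory.Measure.le_hausdorffMeasure`: `ν ≤ μH[d]`.  So `μH[d] S ≥ ν S ≥ μ {ω | al (w ω) ∈ S} = 1 > 0` and `d ≤ dimH S`
(`le_dimH_of_hausdorffMeasure_ne_zero`).
-/

set_option autoImplicit false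

open Finset MeasureTheory

namespace Pool.Agent.H1.PP

open Pool.Agent.H10.RP (ee nd Lam)

/-! ### the intervals of the words -/

/-- the interval of `W` lies to the left of the interval of `W'` -/
def dmLf (W W' : M2) : Prop := W 0 0 * W' 1 1 ≤ W' 0 1 * W 1 0

theorem dm_mul00 (P G : M2) : (P * G) 0 0 = P 0 0 * G 0 0 + P 0 1 * G 1 0 := by
  rw [Matrix.mul_apply, Fin.sum_univ_two]

theorem dm_mul01 (P G : M2) : (P * G) 0 1 = P 0 0 * G 0 1 + P 0 1 * G 1 1 := by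
  rw [Matrix.mul_apply, Fin.sum_univ_two]

theorem dm_mul10 (P G : M2) : (P * G) 1 0 = P 1 0 * G 0 0 + P 1 1 * G 1 0 := by
  rw [Matrix.mul_apply, Fin.sum_univ_two]

theorem dm_mul11 (P G : M2) : (P * G) 1 1 = P 1 0 * G 0 1 + P 1 1 * G 1 1 := by
  rw [Matrix.mul_apply, Fin.sum_univ_two]

theorem dm_letter_aux (Q A B C D A' B' C' D' : ℤ) (h : A * D = B * C + 1)
    (h' : A' * D' = B' * C' + 1) (hC1 : Q < C) (hC2 : C ≤ 2 * Q) (hD1 : Q < D)
    (hD2' : D' ≤ 2 * Q) (hC1' : Q < C') (hC2' : C' ≤ 2 * Q) (hD1' : Q < D') (hQ : 1 ≤ Q)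
    (hov : B' * C < A * D') (hu : B * D' ≤ B' * D) : A = A' ∧ B = B' ∧ C = C' ∧ D = D' := by
  have e1 : D' = D * (A * D' - B' * C) + C * (B' * D - B * D') := by
    linear_combination (-D') * h
  have e2 : 1 ≤ A * D' - B' * C := by omega
  have e3 : B' * D - B * D' = 0 := by
    by_contra hne
    have e4 : 1 ≤ B' * D - B * D' := by omega
    have e5 : D * 1 ≤ D * (A * D' - B' * C) := mul_le_mul_of_nonneg_left e2 (by omega)
    have e6 : C * 1 ≤ C * (B' * D - B * D') := mul_le_mul_of_nonneg_left e4 (by omega)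
    omega
  rw [e3, mul_zero, add_zero] at e1
  have e7 : A * D' - B' * C = 1 := by
    by_contra hne
    have e4 : 2 ≤ A * D' - B' * C := by omega
    have e5 : D * 2 ≤ D * (A * D' - B' * C) := mul_le_mul_of_nonneg_left e4 (by omega)
    omega
  rw [e7, mul_one] at e1
  subst e1
  have e8 : B' = B := by
    have : (B' - B) * D' = 0 := by linear_combination e3
    rcases mul_eq_zero.1 this with h0 | h0
    · omega
    · omega
  subst e8
  have e9 : C - C' = D' * (A' * C - A * C') := by linear_combination C' * h - C * h'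
  have e10 : A' * C - A * C' = 0 := by
    by_contra hne
    rcases lt_or_gt_of_ne hne with h0 | h0
    · have e4 : A' * C - A * C' ≤ -1 := by omega
      have e5 : D' * (A' * C - A * C') ≤ D' * (-1) := mul_le_mul_of_nonneg_left e4 (by omega)
      omega
    · have e4 : 1 ≤ A' * C - A * C' := by omega
      have e5 : D' * 1 ≤ D' * (A' * C - A * C') := mul_le_mul_of_nonneg_left e4 (by omega)
      omega
  rw [e10, mul_zero] at e9
  have e11 : C = C' := by omega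
  subst e11
  refine ⟨?_, rfl, rfl, rfl⟩
  have : (A - A') * D' = 0 := by linear_combination h - h'
  rcases mul_eq_zero.1 this with h0 | h0
  · omega
  · omega

theorem dm_letter (s : ℕ) (g g' : M2) (hg : g ∈ Lt s) (hg' : g' ∈ Lt s) (hne : g ≠ g') :
    dmLf g g' ∨ dmLf g' g := by
  by_contra hc
  rw [not_or] at hc
  obtain ⟨h1, h2⟩ := hc
  unfold dmLf at h1 h2
  rw [not_le] at h1 h2
  have hQ : (1 : ℤ) ≤ (Qh s : ℤ) := by exact_mod_cast Qh_pos s
  obtain ⟨a1, a2, a3, a4, a5, a6, a7, a8, a9⟩ := (mem_Lt s g).1 hg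
  obtain ⟨b1, b2, b3, b4, b5, b6, b7, b8, b9⟩ := (mem_Lt s g').1 hg'
  have key : g 0 0 = g' 0 0 ∧ g 0 1 = g' 0 1 ∧ g 1 0 = g' 1 0 ∧ g 1 1 = g' 1 1 := by
    rcases le_total (g 0 1 * g' 1 1) (g' 0 1 * g 1 1) with h | h
    · exact dm_letter_aux (Qh s) _ _ _ _ _ _ _ _ a1 b1 a2 a3 a4 b5 b2 b3 b4 hQ h1 h
    · obtain ⟨c1, c2, c3, c4⟩ :=
        dm_letter_aux (Qh s) _ _ _ _ _ _ _ _ b1 a1 b2 b3 b4 a5 a2 a3 a4 hQ h2 h
      exact ⟨c1.symm, c2.symm, c3.symm, c4.symm⟩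
  apply hne
  ext i j
  fin_cases i <;> fin_cases j
  · exact key.1
  · exact key.2.1
  · exact key.2.2.1
  · exact key.2.2.2

/-- comparison of slopes is transitive -/
theorem dm_trans {a b c d e f : ℤ} (hd : 0 < d) (h1 : a * d ≤ c * b) (h2 : c * f ≤ e * d)
    (hb : 0 ≤ b) (hf : 0 ≤ f) : a * f ≤ e * b := by
  have h3 : a * d * f ≤ c * b * f := mul_le_mul_of_nonneg_right h1 hf
  have h4 : c * f * b ≤ e * d * b := mul_le_mul_of_nonneg_right h2 hb
  have h5 : (a * f) * d ≤ (e * b) * d := by nlinarith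
  exact le_of_mul_le_mul_right h5 hd

theorem dm_lf_of_letter (s n : ℕ) (g g' V V' : M2) (hg : g ∈ Lt s) (hg' : g' ∈ Lt s)
    (hV : V ∈ Wd s n) (hV' : V' ∈ Wd s n) (h : dmLf g g') : dmLf (g * V) (g' * V') := by
  have hQ : (1 : ℤ) ≤ (Qh s : ℤ) := by exact_mod_cast Qh_pos s
  obtain ⟨a1, a2, a3, a4, a5, a6, a7, a8, a9⟩ := (mem_Lt s g).1 hg
  obtain ⟨b1, b2, b3, b4, b5, b6, b7, b8, b9⟩ := (mem_Lt s g').1 hg'
  have v00 := Wd_nonneg s n V hV 0 0
  have v10 := Wd_nonneg s n V hV 1 0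
  have v01' := Wd_nonneg s n V' hV' 0 1
  have v11' := Wd_nonneg s n V' hV' 1 1
  unfold dmLf at h ⊢
  -- slopes: `g e1 ≤ g e0 ≤ g' e1 ≤ g' e0`
  have s1 : g 0 1 * g 1 0 ≤ g 0 0 * g 1 1 := by omega
  have s2 : g' 0 1 * g' 1 0 ≤ g' 0 0 * g' 1 1 := by omega
  have s3 : g 0 1 * g' 1 1 ≤ g' 0 1 * g 1 1 :=
    dm_trans (by omega : 0 < g 1 0) s1 h (by omega) (by omega)
  have s4 : g 0 0 * g' 1 0 ≤ g' 0 0 * g 1 0 :=
    dm_trans (by omega : 0 < g' 1 1) h s2 (by omega) (by omega)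
  have s5 : g 0 1 * g' 1 0 ≤ g' 0 0 * g 1 1 :=
    dm_trans (by omega : 0 < g 1 0) s1 s4 (by omega) (by omega)
  rw [dm_mul00, dm_mul11, dm_mul01, dm_mul10]
  have t1 : 0 ≤ V 0 0 * V' 1 1 * (g' 0 1 * g 1 0 - g 0 0 * g' 1 1) :=
    mul_nonneg (mul_nonneg v00 v11') (by omega)
  have t2 : 0 ≤ V 1 0 * V' 1 1 * (g' 0 1 * g 1 1 - g 0 1 * g' 1 1) :=
    mul_nonneg (mul_nonneg v10 v11') (by omega)
  have t3 : 0 ≤ V 0 0 * V' 0 1 * (g' 0 0 * g 1 0 - g 0 0 * g' 1 0) :=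
    mul_nonneg (mul_nonneg v00 v01') (by omega)
  have t4 : 0 ≤ V 1 0 * V' 0 1 * (g' 0 0 * g 1 1 - g 0 1 * g' 1 0) :=
    mul_nonneg (mul_nonneg v10 v01') (by omega)
  nlinarith [t1, t2, t3, t4]

theorem dm_lf_mul (s : ℕ) (g V V' : M2) (hg : g ∈ Lt s) (h : dmLf V V') :
    dmLf (g * V) (g * V') := by
  obtain ⟨a1, -⟩ := (mem_Lt s g).1 hg
  unfold dmLf at h ⊢
  rw [dm_mul00, dm_mul11, dm_mul01, dm_mul10]
  have h1 : (g 0 0 * V' 0 1 + g 0 1 * V' 1 1) * (g 1 0 * V 0 0 + g 1 1 * V 1 0) -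
      (g 0 0 * V 0 0 + g 0 1 * V 1 0) * (g 1 0 * V' 0 1 + g 1 1 * V' 1 1) =
      V' 0 1 * V 1 0 - V 0 0 * V' 1 1 := by
    linear_combination (V' 0 1 * V 1 0 - V 0 0 * V' 1 1) * a1
  omega

theorem dm_word (s n : ℕ) : ∀ W ∈ Wd s n, ∀ W' ∈ Wd s n, W ≠ W' → dmLf W W' ∨ dmLf W' W := by
  induction n with
  | zero =>
    intro W hW W' hW' hne
    have h1 : W = 1 := by
      have : W ∈ ({1} : Finset M2) := hW
      simpa using this
    have h2 : W' = 1 := by
      have : W' ∈ ({1} : Finset M2) := hW'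
      simpa using this
    exact absurd (h1.trans h2.symm) hne
  | succ n ih =>
    have hsplit : ∀ W ∈ Wd s (n + 1), ∃ g ∈ Lt s, ∃ V ∈ Wd s n, W = g * V := by
      intro W hW
      rw [add_comm] at hW
      obtain ⟨A, hA, B, hB, rfl⟩ := Wd_split s 1 n W hW
      obtain ⟨P, hP, g, hg, rfl⟩ := (mem_Wd_succ s 0 A).1 hA
      have h1 : P = 1 := by
        have : P ∈ ({1} : Finset M2) := hP
        simpa using this
      rw [h1, one_mul]
      exact ⟨g, hg, B, hB, rfl⟩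
    intro W hW W' hW' hne
    obtain ⟨g, hg, V, hV, rfl⟩ := hsplit W hW
    obtain ⟨g', hg', V', hV', rfl⟩ := hsplit W' hW'
    by_cases hgg : g = g'
    · subst hgg
      have hVV : V ≠ V' := fun h => hne (by rw [h])
      rcases ih V hV V' hV' hVV with h | h
      · exact Or.inl (dm_lf_mul s g V V' hg h)
      · exact Or.inr (dm_lf_mul s g V' V hg h)
    · rcases dm_letter s g g' hg hg' hgg with h | h
      · exact Or.inl (dm_lf_of_letter s n g g' V V' hg hg' hV hV' h)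
      · exact Or.inr (dm_lf_of_letter s n g' g V' V hg' hg hV' hV h)

/-- points in the interval of `W` are far from points of an interval to the right -/
theorem dm_sep (s n : ℕ) (hs : 1 ≤ s) (hn : 1 ≤ n) (W W' : M2) (hW : W ∈ Wd s n)
    (hW' : W' ∈ Wd s n) (h : dmLf W W') (β β' x x' : ℝ) (hx : Rep W β x) (hx' : Rep W' β' x') :
    ((2 : ℝ) ^ (20 * s * n))⁻¹ < x' - x := by
  obtain ⟨h1, h2, h3⟩ := hx
  obtain ⟨h1', h2', h3'⟩ := hx'
  have hd := Wd_det s n W hW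
  have hd' := Wd_det s n W' hW'
  have hlow : ∀ P ∈ Wd s n, ∀ i j, 1 ≤ P i j := by
    intro P hP i j
    have := Wd_lower s n hs hn P hP i j
    have h0 : (0 : ℤ) < (2 : ℤ) ^ (10 * s * n) := by positivity
    by_contra hc
    have h4 : P i j ≤ 0 := by omega
    have h5 : (8 : ℤ) ^ n * P i j ≤ 0 := mul_nonpos_of_nonneg_of_nonpos (by positivity) h4
    omega
  have hq : (1 : ℝ) ≤ W 1 0 := by exact_mod_cast hlow W hW 1 0
  have ht : (1 : ℝ) ≤ W 1 1 := by exact_mod_cast hlow W hW 1 1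
  have hq' : (1 : ℝ) ≤ W' 1 0 := by exact_mod_cast hlow W' hW' 1 0
  have ht' : (1 : ℝ) ≤ W' 1 1 := by exact_mod_cast hlow W' hW' 1 1
  have hqM : 2 * (W 1 0 : ℝ) ≤ 2 ^ (10 * s * n) := by exact_mod_cast Wd_upper s n hs hn W hW 1 0
  have htM : 2 * (W 1 1 : ℝ) ≤ 2 ^ (10 * s * n) := by exact_mod_cast Wd_upper s n hs hn W hW 1 1
  have hdr : (W 0 0 : ℝ) * W 1 1 - W 0 1 * W 1 0 = 1 := by exact_mod_cast hd
  have hdr' : (W' 0 0 : ℝ) * W' 1 1 - W' 0 1 * W' 1 0 = 1 := by exact_mod_cast hd'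
  have hl : (W 0 0 : ℝ) * W' 1 1 ≤ W' 0 1 * W 1 0 := by exact_mod_cast h
  -- the left one
  have k1 : (W 0 0 : ℝ) / W 1 0 - x = 1 / (W 1 0 * (W 1 0 * β + W 1 1)) := by
    have e1 : 0 < (W 1 0 : ℝ) * β + W 1 1 := by nlinarith
    have e2 : x = ((W 0 0 : ℝ) * β + W 0 1) / ((W 1 0 : ℝ) * β + W 1 1) := by
      rw [eq_div_iff e1.ne']
      exact h3
    rw [e2]
    field_simp
    linear_combination hdr
  -- the right one
  have k2 : (W' 0 1 : ℝ) / W' 1 1 ≤ x' := by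
    have e1 : 0 < (W' 1 0 : ℝ) * β' + W' 1 1 := by nlinarith
    have e2 : x' = ((W' 0 0 : ℝ) * β' + W' 0 1) / ((W' 1 0 : ℝ) * β' + W' 1 1) := by
      rw [eq_div_iff e1.ne']
      exact h3'
    rw [e2, div_le_div_iff₀ (by linarith) e1]
    nlinarith
  have k3 : (W 0 0 : ℝ) / W 1 0 ≤ (W' 0 1 : ℝ) / W' 1 1 := by
    rw [div_le_div_iff₀ (by linarith) (by linarith)]
    exact hl
  have k4 : ((2 : ℝ) ^ (20 * s * n))⁻¹ < 1 / (W 1 0 * (W 1 0 * β + W 1 1)) := by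
    rw [inv_eq_one_div]
    have e3 : (2 : ℝ) ^ (20 * s * n) = 2 ^ (10 * s * n) * 2 ^ (10 * s * n) := by
      rw [← pow_add]
      congr 1
      ring
    have e4 : 0 < (W 1 0 : ℝ) * (W 1 0 * β + W 1 1) := by
      have : 0 < (W 1 0 : ℝ) * β + W 1 1 := by nlinarith
      positivity
    apply one_div_lt_one_div_of_lt e4
    rw [e3]
    set M : ℝ := 2 ^ (10 * s * n) with hM
    have hM0 : 0 < M := by positivity
    have e5 : (W 1 0 : ℝ) ≤ M / 2 := by linarith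
    have e6 : (W 1 0 : ℝ) * β + W 1 1 ≤ M / 2 * 2 + M / 2 := by
      have : (W 1 0 : ℝ) * β ≤ M / 2 * 2 := mul_le_mul e5 h2 (by linarith) (by linarith)
      linarith
    calc (W 1 0 : ℝ) * (W 1 0 * β + W 1 1) ≤ M / 2 * (M / 2 * 2 + M / 2) := by
          apply mul_le_mul e5 e6 _ (by linarith)
          nlinarith
      _ < M * M := by nlinarith
  linarith

/-- two words with close points are equal -/
theorem dm_close (s n : ℕ) (hs : 1 ≤ s) (hn : 1 ≤ n) (W W' : M2) (hW : W ∈ Wd s n)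
    (hW' : W' ∈ Wd s n) (β β' x x' : ℝ) (hx : Rep W β x) (hx' : Rep W' β' x')
    (h : |x - x'| ≤ ((2 : ℝ) ^ (20 * s * n))⁻¹) : W = W' := by
  by_contra hne
  rw [abs_le] at h
  rcases dm_word s n W hW W' hW' hne with h1 | h1
  · have := dm_sep s n hs hn W W' hW hW' h1 β β' x x' hx hx'
    linarith [h.1]
  · have := dm_sep s n hs hn W' W hW' hW h1 β' β x' x hx' hx
    linarith [h.2]

/-! ### measure -/

variable {Ω : Type} [MeasurableSpace Ω]

theorem dm_meas (s : ℕ) (hs : 1 ≤ s) (μ : Measure Ω) (w : Ω → ℕ → M2) (hw : IsModel s μ w) :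
    Measurable (fun ω => al (w ω)) := by
  refine measurable_of_tendsto_metrizable
    (f := fun k ω => (Pk (w ω) k 0 1 : ℝ) / (Pk (w ω) k 1 1 : ℝ)) (fun k => ?_) ?_
  · intro A _
    exact (hw.2 k ((fun P : M2 => (P 0 1 : ℝ) / (P 1 1 : ℝ)) ⁻¹' A)).1
  · rw [tendsto_pi_nhds]
    intro ω
    exact al_tendsto s hs (w ω) (hw.1 ω)

theorem dm_word_prob (s : ℕ) (μ : Measure Ω) (w : Ω → ℕ → M2) (hw : IsModel s μ w) (n : ℕ)
    (W : M2) : μ {ω | Pk (w ω) n ∈ ({W} : Set M2)} ≤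
      ENNReal.ofReal ((((Lt s).card : ℝ) ^ n)⁻¹) := by
  classical
  rw [(hw.2 n {W}).2]
  apply ENNReal.ofReal_le_ofReal
  have h1 : Set.indicator ({W} : Set M2) (fun _ => (1 : ℝ)) =
      fun P => if P = W then (1 : ℝ) else 0 := by
    funext P
    by_cases h : P = W
    · rw [Set.indicator_of_mem (by exact h), if_pos h]
    · rw [Set.indicator_of_notMem (by exact h), if_neg h]
  rw [h1, Av_card, div_eq_mul_inv]
  have h2 : (((Wd s n).filter fun P => P = W).card : ℝ) ≤ 1 := by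
    have : ((Wd s n).filter fun P => P = W).card ≤ 1 := by
      rw [Finset.card_le_one]
      intro a ha b hb
      rw [(Finset.mem_filter.1 ha).2, (Finset.mem_filter.1 hb).2]
    exact_mod_cast this
  calc (((Wd s n).filter fun P => P = W).card : ℝ) * (((Lt s).card : ℝ) ^ n)⁻¹
      ≤ 1 * (((Lt s).card : ℝ) ^ n)⁻¹ := mul_le_mul_of_nonneg_right h2 (by positivity)
    _ = (((Lt s).card : ℝ) ^ n)⁻¹ := one_mul _

theorem dm_preim (s : ℕ) (hs : 1 ≤ s) (μ : Measure Ω) (w : Ω → ℕ → M2) (hw : IsModel s μ w)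
    (n : ℕ) (hn : 1 ≤ n) (U : Set ℝ)
    (hU : ∀ x ∈ U, ∀ y ∈ U, |x - y| ≤ ((2 : ℝ) ^ (20 * s * n))⁻¹) :
    μ ((fun ω => al (w ω)) ⁻¹' U) ≤ ENNReal.ofReal ((((Lt s).card : ℝ) ^ n)⁻¹) := by
  by_cases hne : ∃ ω0, al (w ω0) ∈ U
  · obtain ⟨ω0, h0⟩ := hne
    refine le_trans (measure_mono ?_) (dm_word_prob s μ w hw n (Pk (w ω0) n))
    intro ω hω
    have hω' : al (w ω) ∈ U := hω
    obtain ⟨β, hβ⟩ := al_rep s hs (w ω) (hw.1 ω) n
    obtain ⟨β0, hβ0⟩ := al_rep s hs (w ω0) (hw.1 ω0) n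
    exact dm_close s n hs hn _ _ (Pk_mem s _ (hw.1 ω) n) (Pk_mem s _ (hw.1 ω0) n) β β0 _ _ hβ hβ0
      (hU _ hω' _ h0)
  · have : (fun ω => al (w ω)) ⁻¹' U = ∅ := by
      ext ω
      simp only [Set.mem_preimage, Set.mem_empty_iff_false, iff_false]
      exact fun h => hne ⟨ω, h⟩
    rw [this, measure_empty]
    exact zero_le

theorem dm_num (s : ℕ) (hs : 50 ≤ s) (n : ℕ) (hn : 2 * s ≤ n) (δ : ℝ) (hδ : 0 < δ)
    (h : (((2 : ℝ) ^ (20 * s))⁻¹) ^ (n + 1) < δ) :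
    (((Lt s).card : ℝ) ^ n)⁻¹ ≤ δ ^ (1 - 1 / (s : ℝ)) := by
  have hs0 : (0 : ℝ) < s := by
    have : 0 < s := by omega
    exact_mod_cast this
  have hN := card_Lt s hs
  have hs1 : (1 : ℝ) ≤ s := by
    have : 1 ≤ s := by omega
    exact_mod_cast this
  have hd0 : 0 ≤ 1 - 1 / (s : ℝ) := by
    rw [sub_nonneg, div_le_one hs0]
    exact hs1
  -- lower bound for the right side
  have h1 : ((((2 : ℝ) ^ (20 * s))⁻¹) ^ (n + 1)) ^ (1 - 1 / (s : ℝ)) ≤ δ ^ (1 - 1 / (s : ℝ)) :=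
    Real.rpow_le_rpow (by positivity) h.le hd0
  have h2 : ((((2 : ℝ) ^ (20 * s))⁻¹) ^ (n + 1)) ^ (1 - 1 / (s : ℝ)) =
      (2 : ℝ) ^ (20 * (n + 1)) * ((2 : ℝ) ^ (20 * s * (n + 1)))⁻¹ := by
    have e1 : (((2 : ℝ) ^ (20 * s))⁻¹) ^ (n + 1) =
        (2 : ℝ) ^ (-((20 * s * (n + 1) : ℕ) : ℝ)) := by
      rw [Real.rpow_neg (by norm_num), Real.rpow_natCast, inv_pow, ← pow_mul]
    rw [e1, ← Real.rpow_mul (by norm_num)]
    have e2 : -((20 * s * (n + 1) : ℕ) : ℝ) * (1 - 1 / (s : ℝ)) =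
        ((20 * (n + 1) : ℕ) : ℝ) + (-((20 * s * (n + 1) : ℕ) : ℝ)) := by
      push_cast
      field_simp
      ring
    rw [e2, Real.rpow_add (by norm_num), Real.rpow_natCast, Real.rpow_neg (by norm_num),
      Real.rpow_natCast]
  -- upper bound for the left side
  have h3 : (((Lt s).card : ℝ) ^ n)⁻¹ ≤ (((2 : ℝ) ^ (20 * s) / 320) ^ n)⁻¹ := by
    apply inv_anti₀ (by positivity)
    exact pow_le_pow_left₀ (by positivity) hN n
  have h4 : (((2 : ℝ) ^ (20 * s) / 320) ^ n)⁻¹ ≤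
      (2 : ℝ) ^ (20 * (n + 1)) * ((2 : ℝ) ^ (20 * s * (n + 1)))⁻¹ := by
    rw [div_pow, inv_div, ← div_eq_mul_inv, div_le_div_iff₀ (by positivity) (by positivity)]
    have e3 : (320 : ℝ) ^ n ≤ 2 ^ (9 * n) := by
      rw [pow_mul]
      exact pow_le_pow_left₀ (by norm_num) (by norm_num) n
    calc (320 : ℝ) ^ n * 2 ^ (20 * s * (n + 1)) ≤ 2 ^ (9 * n) * 2 ^ (20 * s * (n + 1)) :=
          mul_le_mul_of_nonneg_right e3 (by positivity)
      _ = 2 ^ (9 * n + 20 * s * (n + 1)) := by rw [← pow_add]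
      _ ≤ 2 ^ (20 * (n + 1) + 20 * s * n) := by
          apply pow_le_pow_right₀ (by norm_num)
          have : 20 * s * (n + 1) = 20 * s * n + 20 * s := by ring
          omega
      _ = 2 ^ (20 * (n + 1)) * (2 ^ (20 * s)) ^ n := by rw [pow_add, pow_mul 2 (20 * s) n]
  rw [h2] at h1
  exact (h3.trans h4).trans h1

theorem dm_frost (s : ℕ) (hs : 50 ≤ s) (μ : Measure Ω) [IsProbabilityMeasure μ]
    (w : Ω → ℕ → M2) (hw : IsModel s μ w) (U : Set ℝ)
    (hU : Metric.ediam U ≤ ENNReal.ofReal ((((2 : ℝ) ^ (20 * s))⁻¹) ^ (2 * s))) :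
    μ.map (fun ω => al (w ω)) U ≤ Metric.ediam U ^ (1 - 1 / (s : ℝ)) := by
  have hs1 : 1 ≤ s := by omega
  have hs0 : (0 : ℝ) < s := by exact_mod_cast hs1
  have hd0 : 0 < 1 - 1 / (s : ℝ) := by
    rw [sub_pos, div_lt_one hs0]
    have : 1 < s := by omega
    exact_mod_cast this
  have hm := dm_meas s hs1 μ w hw
  have hfin : Metric.ediam U ≠ ⊤ := ne_top_of_le_ne_top ENNReal.ofReal_ne_top hU
  -- pass to the closure
  have hcl : μ.map (fun ω => al (w ω)) U ≤ μ ((fun ω => al (w ω)) ⁻¹' closure U) := by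
    rw [← Measure.map_apply hm isClosed_closure.measurableSet]
    exact measure_mono subset_closure
  refine hcl.trans ?_
  set δ : ℝ := (Metric.ediam U).toReal with hδ
  have hδe : Metric.ediam U = ENNReal.ofReal δ := (ENNReal.ofReal_toReal hfin).symm
  have hdist : ∀ x ∈ closure U, ∀ y ∈ closure U, |x - y| ≤ δ := by
    intro x hx y hy
    have h1 : edist x y ≤ Metric.ediam (closure U) := Metric.edist_le_ediam_of_mem hx hy
    rw [Metric.ediam_closure, hδe, edist_dist, ENNReal.ofReal_le_ofReal_iff ENNReal.toReal_nonneg]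
      at h1
    rwa [Real.dist_eq] at h1
  set y : ℝ := ((2 : ℝ) ^ (20 * s))⁻¹ with hy
  have hy0 : 0 < y := by positivity
  have hy1 : y < 1 := by
    rw [hy]
    apply inv_lt_one_of_one_lt₀
    exact one_lt_pow₀ (by norm_num) (by omega)
  have hpow : ∀ n : ℕ, y ^ n = ((2 : ℝ) ^ (20 * s * n))⁻¹ := by
    intro n
    rw [hy, inv_pow, ← pow_mul]
  have hδ2 : δ ≤ y ^ (2 * s) := by
    rw [hδe, ENNReal.ofReal_le_ofReal_iff (by positivity)] at hU
    exact hU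
  rcases (ENNReal.toReal_nonneg (a := Metric.ediam U)).lt_or_eq with h0 | h0
  · -- positive diameter
    have hδ0 : 0 < δ := h0
    have hδ1 : δ ≤ 1 := hδ2.trans (pow_le_one₀ hy0.le hy1.le)
    obtain ⟨n, hn1, hn2⟩ := exists_nat_pow_near_of_lt_one hδ0 hδ1 hy0 hy1
    have hn : 2 * s ≤ n := by
      by_contra hc
      have h3 : n + 1 ≤ 2 * s := by omega
      have h4 : y ^ (2 * s) ≤ y ^ (n + 1) := pow_le_pow_of_le_one hy0.le hy1.le h3
      linarith
    have h5 := dm_preim s hs1 μ w hw n (by omega) (closure U) (fun a ha b hb =>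
      ((hdist a ha b hb).trans hn2).trans (hpow n).le)
    refine h5.trans ?_
    rw [hδe, ENNReal.ofReal_rpow_of_pos hδ0]
    exact ENNReal.ofReal_le_ofReal (dm_num s hs n hn δ hδ0 hn1)
  · -- diameter zero
    have hδ0 : δ = 0 := h0.symm
    have h6 : ∀ n : ℕ, 1 ≤ n → μ ((fun ω => al (w ω)) ⁻¹' closure U) ≤
        ENNReal.ofReal ((((Lt s).card : ℝ) ^ n)⁻¹) := by
      intro n hn
      refine dm_preim s hs1 μ w hw n hn (closure U) (fun a ha b hb => ?_)
      have h11 := hdist a ha b hb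
      rw [hδ0] at h11
      exact h11.trans (inv_nonneg.2 (pow_nonneg (by norm_num) _))
    have h7 : Filter.Tendsto (fun n : ℕ => ENNReal.ofReal ((((Lt s).card : ℝ) ^ n)⁻¹))
        Filter.atTop (nhds 0) := by
      rw [← ENNReal.ofReal_zero]
      apply ENNReal.tendsto_ofReal
      have hN : (1 : ℝ) < (Lt s).card := by
        have h8 := card_Lt_ge s hs
        have h9 : (1 : ℝ) < 2 ^ s := one_lt_pow₀ one_lt_two (by omega)
        linarith
      have h10 : Filter.Tendsto (fun n : ℕ => (((Lt s).card : ℝ)⁻¹) ^ n) Filter.atTop (nhds 0) :=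
        tendsto_pow_atTop_nhds_zero_of_lt_one (inv_nonneg.2 (Nat.cast_nonneg _))
          (inv_lt_one_of_one_lt₀ hN)
      refine h10.congr fun n => ?_
      rw [inv_pow]
    have h8 : μ ((fun ω => al (w ω)) ⁻¹' closure U) ≤ 0 := by
      apply ge_of_tendsto h7
      filter_upwards [Filter.eventually_ge_atTop 1] with n hn
      exact h6 n hn
    exact h8.trans zero_le

theorem dim_lower {Ω : Type} [MeasurableSpace Ω] (s : ℕ) (hs : 50 ≤ s) (μ : Measure Ω)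
    [IsProbabilityMeasure μ] (w : Ω → ℕ → M2) (hw : IsModel s μ w) (S : Set ℝ)
    (hS : ∀ᵐ ω ∂μ, al (w ω) ∈ S) : ENNReal.ofReal (1 - 1 / s) ≤ dimH S := by
  have hs1 : 1 ≤ s := by omega
  have hs0 : (0 : ℝ) < s := by exact_mod_cast hs1
  have hd0 : 0 ≤ 1 - 1 / (s : ℝ) := by
    rw [sub_nonneg, div_le_one hs0]
    exact_mod_cast hs1
  have hm := dm_meas s hs1 μ w hw
  have h1 : μ.map (fun ω => al (w ω)) ≤ Measure.hausdorffMeasure (1 - 1 / (s : ℝ)) := by
    refine Measure.le_hausdorffMeasure (1 - 1 / (s : ℝ)) _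
      (ENNReal.ofReal ((((2 : ℝ) ^ (20 * s))⁻¹) ^ (2 * s))) ?_ (fun U hU => ?_)
    · rw [ENNReal.ofReal_pos]
      positivity
    · exact dm_frost s hs μ w hw U hU
  have h2 : (1 : ENNReal) ≤ μ.map (fun ω => al (w ω)) S := by
    have h3 : μ ((fun ω => al (w ω)) ⁻¹' S) = 1 := by
      have h9 : ((fun ω => al (w ω)) ⁻¹' S) =ᵐ[μ] Set.univ := Filter.eventuallyEq_univ.2 hS
      rw [measure_congr h9, measure_univ]
    rw [← h3]
    exact Measure.le_map_apply hm.aemeasurable S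
  have h4 : Measure.hausdorffMeasure ((Real.toNNReal (1 - 1 / (s : ℝ)) : NNReal) : ℝ) S ≠ 0 := by
    rw [Real.coe_toNNReal _ hd0]
    intro h0
    have h5 := h1 S
    rw [h0] at h5
    exact absurd (h2.trans h5) (by simp)
  exact le_dimH_of_hausdorffMeasure_ne_zero h4

end Pool.Agent.H1.PP
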