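import Pool.Agent.H1.PP.AvL

/-!
# PP-10 NC: few words contract a given vector

`T = 2^s`, `W β = act W β`.  The number of `W ∈ Wd s m` with `nr (W β) * 8 T^(20 i) < mx W * nr β` is at most
`N^m / T^i` (`N = card (Lt s) ≥ T`).

PROOF.  If `nr β = 0` the set is empty (both sides are `0`).  Let `nr β > 0`.

(a) `m ≤ i`: the set is empty.  For `m = 0`, `W = 1`, `mx W = 1`.  For `m ≥ 1`: `β = W⁻¹ (W β)` with `W⁻¹` the adjugate,
so `nr β ≤ 2 mx W * nr (W β)` and `mx W * nr β ≤ 2 (mx W)² nr (W β) ≤ (T^(20 m) / 2) nr (W β)` (`Wd_upper`).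

(b) `i = 0`: trivial (`card_Wd`).

(c) `m > i ≥ 1`: write `W = W1 * V`, `W1 ∈ Wd (m - i)`, `V ∈ Wd i` (`Wd_split`).  Claim: all `W` in the set have the same
`V`; then their number is at most `card (Wd s (m - i)) = N^(m-i) ≤ N^m / T^i`.  Suppose `W = W1 V`, `W' = W1' V'` in the
set with `V ≠ V'`; by `cone_sep` WLOG `Sep V' V`.  Let `u = W1 1`, `u' = W1' 1` be the second rows of `W1`, `W1'`
(`u_1 < 2 u_0`, positive, by `Wd_ratio`) and `r = W 1 = u_0 V_0 + u_1 V_1`, `r' = W' 1` (rows `V_0, V_1` of `V`).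
`dd r' r = ∑ u'_k u_l dd (V'_k) (V_l) ≥ u'_0 u_0 + u'_0 u_1 + u'_1 u_1`, hence
`(u_0 + u_1)(u'_0 + u'_1) ≤ 3 dd r' r` (as `u'_1 u_0 ≤ 2 u'_0 u_0`).  `|r|_∞ ≤ (u_0 + u_1) mx V ≤ (u_0 + u_1) T^(10 i)/2`, and
`mx W ≤ 2 |r|_∞` (`Wd_ratio`: the first row is less than twice the second).  So
`mx W * mx W' ≤ 4 |r|_∞ |r'|_∞ ≤ T^(20 i) (u_0+u_1)(u'_0+u'_1) ≤ 3 T^(20 i) dd r' r`.
On the other hand `β_0 dd r' r = ± ((r·β) r'_1 - (r'·β) r_1)`, `β_1 dd r' r = ± (...)`, so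
`nr β * dd r' r ≤ |r·β| |r'|_∞ + |r'·β| |r|_∞ < 2 mx W mx W' nr β / (8 T^(20 i))` because `|r·β| ≤ nr (W β)`.
Together `dd r' r < mx W mx W' / (4 T^(20 i)) ≤ (3/4) dd r' r`, contradiction.
-/

set_option autoImplicit false

open Finset

namespace Pool.Agent.H1.PP

open Pool.Agent.H10.RP (ee nd Lam)

lemma nc_nr0 (ψ : Fin 2 → ℝ) : |ψ 0| ≤ nr ψ := le_max_left _ _

lemma nc_nr1 (ψ : Fin 2 → ℝ) : |ψ 1| ≤ nr ψ := le_max_right _ _

lemma nc_nr_nonneg (ψ : Fin 2 → ℝ) : 0 ≤ nr ψ := (abs_nonneg _).trans (nc_nr0 ψ)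

lemma nc_inv (W : M2) (hdet : W 0 0 * W 1 1 - W 0 1 * W 1 0 = 1) (hn : ∀ i j, 0 ≤ W i j)
    (β : Fin 2 → ℝ) : nr β ≤ 2 * (mx W : ℝ) * nr (act W β) := by
  have hd : (W 0 0 : ℝ) * W 1 1 - W 0 1 * W 1 0 = 1 := by exact_mod_cast hdet
  have hle : ∀ i j, (W i j : ℝ) ≤ (mx W : ℝ) := fun i j => by exact_mod_cast le_mx W i j
  have h0 : ∀ i j, (0 : ℝ) ≤ (W i j : ℝ) := fun i j => by exact_mod_cast hn i j
  have y0 := nc_nr0 (act W β)
  have y1 := nc_nr1 (act W β)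
  have yn := nc_nr_nonneg (act W β)
  have key : ∀ a b x y : ℝ, 0 ≤ a → 0 ≤ b → a ≤ mx W → b ≤ mx W → |x| ≤ nr (act W β) →
      |y| ≤ nr (act W β) → |a * x - b * y| ≤ 2 * (mx W : ℝ) * nr (act W β) := by
    intro a b x y ha hb ha' hb' hx hy
    have hm : (0 : ℝ) ≤ mx W := ha.trans ha'
    calc |a * x - b * y| ≤ |a * x| + |b * y| := abs_sub _ _
      _ = a * |x| + b * |y| := by rw [abs_mul, abs_mul, abs_of_nonneg ha, abs_of_nonneg hb]
      _ ≤ mx W * nr (act W β) + mx W * nr (act W β) :=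
        add_le_add (mul_le_mul ha' hx (abs_nonneg _) hm) (mul_le_mul hb' hy (abs_nonneg _) hm)
      _ = _ := by ring
  have e0 : β 0 = (W 1 1 : ℝ) * act W β 0 - (W 0 1 : ℝ) * act W β 1 := by
    unfold act
    linear_combination -(β 0) * hd
  have e1 : β 1 = (W 0 0 : ℝ) * act W β 1 - (W 1 0 : ℝ) * act W β 0 := by
    unfold act
    linear_combination -(β 1) * hd
  refine max_le ?_ ?_
  · rw [e0]
    exact key _ _ _ _ (h0 _ _) (h0 _ _) (hle _ _) (hle _ _) y0 y1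
  · rw [e1]
    exact key _ _ _ _ (h0 _ _) (h0 _ _) (hle _ _) (hle _ _) y1 y0

/-- `mx (W1 * V)` in terms of the second row of `W1` -/
lemma nc_mx {s a i : ℕ} (hs : 1 ≤ s) (ha : 1 ≤ a) (hi : 1 ≤ i) {W1 V : M2} (hW1 : W1 ∈ Wd s a)
    (hV : V ∈ Wd s i) : mx (W1 * V) ≤ (W1 1 0 + W1 1 1) * (2 : ℤ) ^ (10 * s * i) := by
  have hW : W1 * V ∈ Wd s (a + i) := Wd_mul s a i W1 V hW1 hV
  obtain ⟨r1, r2, r3, r4, _, _⟩ := Wd_ratio s (a + i) (by omega) _ hW
  have n1 := Wd_nonneg s a W1 hW1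
  have u1 := Wd_upper s i hs hi V hV
  have e : ∀ j, (W1 * V) 1 j = W1 1 0 * V 0 j + W1 1 1 * V 1 j := fun j => by
    simp only [Matrix.mul_apply, Fin.sum_univ_two]
  have b : ∀ j, 2 * (W1 * V) 1 j ≤ (W1 1 0 + W1 1 1) * (2 : ℤ) ^ (10 * s * i) := by
    intro j
    rw [e j]
    nlinarith [mul_le_mul_of_nonneg_left (u1 0 j) (n1 1 0), mul_le_mul_of_nonneg_left (u1 1 j) (n1 1 1)]
  have nW := Wd_nonneg s (a + i) _ hW
  unfold mx
  refine max_le (max_le ?_ ?_) (max_le ?_ ?_)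
  · linarith [b 0]
  · linarith [b 1]
  · linarith [b 0, nW 1 0]
  · linarith [b 1, nW 1 1]

lemma nc_key {s a i : ℕ} (hs : 1 ≤ s) (ha : 1 ≤ a) (hi : 1 ≤ i) {W1 W1' V V' : M2}
    (hW1 : W1 ∈ Wd s a) (hW1' : W1' ∈ Wd s a) (hV : V ∈ Wd s i) (hV' : V' ∈ Wd s i)
    (hsep : Sep V' V) (β : Fin 2 → ℝ)
    (h : nr (act (W1 * V) β) * (8 * 2 ^ (20 * s * i)) < mx (W1 * V) * nr β)
    (h' : nr (act (W1' * V') β) * (8 * 2 ^ (20 * s * i)) < mx (W1' * V') * nr β) : False := by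
  obtain ⟨s1, s2, s3, s4⟩ := hsep
  have m1 := nc_mx hs ha hi hW1 hV
  have m2 := nc_mx hs ha hi hW1' hV'
  have n1 := Wd_nonneg s a W1 hW1
  have n2 := Wd_nonneg s a W1' hW1'
  have q1 := (Wd_ratio s a ha W1' hW1').2.2.2.2.1
  have hW : W1 * V ∈ Wd s (a + i) := Wd_mul s a i W1 V hW1 hV
  have hW' : W1' * V' ∈ Wd s (a + i) := Wd_mul s a i W1' V' hW1' hV'
  have nW := Wd_nonneg s (a + i) _ hW
  have nW' := Wd_nonneg s (a + i) _ hW'
  have pW := mx_pos s (a + i) _ hW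
  have pW' := mx_pos s (a + i) _ hW'
  set W := W1 * V with hWdef
  set W' := W1' * V' with hWdef'
  have hΔ : (W1 1 0 + W1 1 1) * (W1' 1 0 + W1' 1 1) ≤ 3 * dd (W' 1) (W 1) := by
    rw [hWdef, hWdef', rowd_dd_mul]
    have a1 := mul_le_mul_of_nonneg_left s1 (mul_nonneg (n2 1 0) (n1 1 0))
    have a2 := mul_le_mul_of_nonneg_left s2 (mul_nonneg (n2 1 0) (n1 1 1))
    have a3 := mul_nonneg (mul_nonneg (n2 1 1) (n1 1 0)) s3
    have a4 := mul_le_mul_of_nonneg_left s4 (mul_nonneg (n2 1 1) (n1 1 1))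
    have a5 := mul_le_mul_of_nonneg_right q1.le (n1 1 0)
    have a6 := mul_nonneg (n2 1 0) (n1 1 1)
    have a7 := mul_nonneg (n2 1 1) (n1 1 1)
    nlinarith
  have hK : (2 : ℤ) ^ (10 * s * i) * 2 ^ (10 * s * i) = 2 ^ (20 * s * i) := by
    rw [← pow_add]
    congr 1
    ring
  have hmm : mx W * mx W' ≤ 3 * 2 ^ (20 * s * i) * dd (W' 1) (W 1) := by
    have b1 : 0 ≤ (W1' 1 0 + W1' 1 1) * (2 : ℤ) ^ (10 * s * i) :=
      mul_nonneg (add_nonneg (n2 _ _) (n2 _ _)) (by positivity)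
    calc mx W * mx W' ≤ ((W1 1 0 + W1 1 1) * (2 : ℤ) ^ (10 * s * i)) *
          ((W1' 1 0 + W1' 1 1) * (2 : ℤ) ^ (10 * s * i)) :=
          mul_le_mul m1 m2 (by linarith) (mul_nonneg (add_nonneg (n1 _ _) (n1 _ _)) (by positivity))
      _ = ((W1 1 0 + W1 1 1) * (W1' 1 0 + W1' 1 1)) * (2 ^ (10 * s * i) * 2 ^ (10 * s * i)) := by ring
      _ ≤ (3 * dd (W' 1) (W 1)) * (2 ^ (10 * s * i) * 2 ^ (10 * s * i)) :=
          mul_le_mul_of_nonneg_right hΔ (by positivity)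
      _ = _ := by rw [hK]; ring
  have hΔpos : 0 < dd (W' 1) (W 1) := by
    by_contra hcon
    push Not at hcon
    have : 3 * 2 ^ (20 * s * i) * dd (W' 1) (W 1) ≤ 0 := mul_nonpos_of_nonneg_of_nonpos (by positivity) hcon
    nlinarith
  -- real part
  have hle : ∀ j, (W 1 j : ℝ) ≤ (mx W : ℝ) := fun j => by exact_mod_cast le_mx W 1 j
  have hle' : ∀ j, (W' 1 j : ℝ) ≤ (mx W' : ℝ) := fun j => by exact_mod_cast le_mx W' 1 j
  have h0 : ∀ j, (0 : ℝ) ≤ (W 1 j : ℝ) := fun j => by exact_mod_cast nW 1 j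
  have h0' : ∀ j, (0 : ℝ) ≤ (W' 1 j : ℝ) := fun j => by exact_mod_cast nW' 1 j
  have hmW : (0 : ℝ) < (mx W : ℝ) := by exact_mod_cast (lt_of_lt_of_le zero_lt_one pW)
  have hmW' : (0 : ℝ) < (mx W' : ℝ) := by exact_mod_cast (lt_of_lt_of_le zero_lt_one pW')
  have y1 := nc_nr1 (act W β)
  have y1' := nc_nr1 (act W' β)
  have yn := nc_nr_nonneg (act W β)
  have yn' := nc_nr_nonneg (act W' β)
  set Δ : ℝ := (dd (W' 1) (W 1) : ℝ) with hΔr
  have hΔr0 : 0 < Δ := by rw [hΔr]; exact_mod_cast hΔpos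
  have hΔe : Δ = (W' 1 0 : ℝ) * W 1 1 - W' 1 1 * W 1 0 := by
    rw [hΔr]
    unfold dd
    push_cast
    ring
  have key : ∀ x y a b : ℝ, 0 ≤ a → 0 ≤ b → a ≤ mx W → b ≤ mx W' → |x| ≤ nr (act W' β) →
      |y| ≤ nr (act W β) → |a * x - b * y| ≤ mx W * nr (act W' β) + mx W' * nr (act W β) := by
    intro x y a b ha hb ha' hb' hx hy
    calc |a * x - b * y| ≤ |a * x| + |b * y| := abs_sub _ _
      _ = a * |x| + b * |y| := by rw [abs_mul, abs_mul, abs_of_nonneg ha, abs_of_nonneg hb]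
      _ ≤ _ := add_le_add (mul_le_mul ha' hx (abs_nonneg _) hmW.le)
        (mul_le_mul hb' hy (abs_nonneg _) hmW'.le)
  have e0 : β 0 * Δ = (W 1 1 : ℝ) * act W' β 1 - (W' 1 1 : ℝ) * act W β 1 := by
    rw [hΔe]
    unfold act
    ring
  have e1 : β 1 * Δ = -((W 1 0 : ℝ) * act W' β 1 - (W' 1 0 : ℝ) * act W β 1) := by
    rw [hΔe]
    unfold act
    ring
  have hnr : nr β * Δ ≤ mx W * nr (act W' β) + mx W' * nr (act W β) := by
    have c0 : |β 0| * Δ ≤ mx W * nr (act W' β) + mx W' * nr (act W β) := by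
      have hab : |β 0| * Δ = |β 0 * Δ| := by rw [abs_mul, abs_of_pos hΔr0]
      rw [hab, e0]
      exact key _ _ _ _ (h0 _) (h0' _) (hle _) (hle' _) y1' y1
    have c1 : |β 1| * Δ ≤ mx W * nr (act W' β) + mx W' * nr (act W β) := by
      have hab : |β 1| * Δ = |β 1 * Δ| := by rw [abs_mul, abs_of_pos hΔr0]
      rw [hab, e1, abs_neg]
      exact key _ _ _ _ (h0 _) (h0' _) (hle _) (hle' _) y1' y1
    unfold nr at c0 c1 ⊢
    rcases max_choice |β 0| |β 1| with hm | hm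
    · rw [hm]; exact c0
    · rw [hm]; exact c1
  have hmmr : (mx W : ℝ) * mx W' ≤ 3 * 2 ^ (20 * s * i) * Δ := by
    rw [hΔr]
    exact_mod_cast hmm
  have hβ : 0 < nr β := by
    by_contra hcon
    have hb0 : nr β = 0 := le_antisymm (not_lt.1 hcon) (nc_nr_nonneg β)
    rw [hb0, mul_zero] at h
    have : 0 ≤ nr (act W β) * (8 * 2 ^ (20 * s * i)) := by positivity
    linarith
  have hKp : (0 : ℝ) < 2 ^ (20 * s * i) := by positivity
  have f1 : (8 * 2 ^ (20 * s * i)) * (nr β * Δ) ≤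
      mx W * (nr (act W' β) * (8 * 2 ^ (20 * s * i))) + mx W' * (nr (act W β) * (8 * 2 ^ (20 * s * i))) := by
    have := mul_le_mul_of_nonneg_left hnr (by positivity : (0 : ℝ) ≤ 8 * 2 ^ (20 * s * i))
    linarith
  have f2 := mul_lt_mul_of_pos_left h' hmW
  have f3 := mul_lt_mul_of_pos_left h hmW'
  have f4 : (8 * 2 ^ (20 * s * i)) * (nr β * Δ) < 2 * ((mx W : ℝ) * mx W') * nr β := by
    calc _ ≤ _ := f1
      _ < mx W * (mx W' * nr β) + mx W' * (mx W * nr β) := add_lt_add f2 f3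
      _ = _ := by ring
  have f5 : 2 * ((mx W : ℝ) * mx W') * nr β ≤ 2 * (3 * 2 ^ (20 * s * i) * Δ) * nr β :=
    mul_le_mul_of_nonneg_right (by linarith) hβ.le
  have f6 : 0 < 2 ^ (20 * s * i) * (nr β * Δ) := by positivity
  nlinarith

open Classical in
theorem NC (s : ℕ) (hs : 50 ≤ s) (m i : ℕ) (β : Fin 2 → ℝ) :
    (((Wd s m).filter (fun W => nr (act W β) * (8 * 2 ^ (20 * s * i)) < mx W * nr β)).card : ℝ) ≤
      ((Lt s).card : ℝ) ^ m / 2 ^ (s * i) := by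
  have hN := card_Lt_ge s hs
  have hN0 : (0 : ℝ) ≤ (Lt s).card := Nat.cast_nonneg _
  have hNp : (0 : ℝ) < (Lt s).card := lt_of_lt_of_le (by positivity) hN
  rcases le_or_gt m i with hmi | hmi
  · -- the set is empty
    have he : (Wd s m).filter (fun W => nr (act W β) * (8 * 2 ^ (20 * s * i)) < mx W * nr β) = ∅ := by
      rw [Finset.filter_eq_empty_iff]
      intro W hW hlt
      have h1 := nc_inv W (Wd_det s m W hW) (Wd_nonneg s m W hW) β
      have h2 : (mx W : ℝ) ≤ 2 ^ (10 * s * m) := by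
        have := mx_upper s m (by omega) W hW
        exact_mod_cast this
      have h3 : (1 : ℝ) ≤ mx W := by exact_mod_cast mx_pos s m W hW
      have h4 := nc_nr_nonneg (act W β)
      have h5 : (mx W : ℝ) * mx W ≤ 2 ^ (20 * s * i) := by
        calc (mx W : ℝ) * mx W ≤ 2 ^ (10 * s * m) * 2 ^ (10 * s * m) :=
              mul_le_mul h2 h2 (by linarith) (by positivity)
          _ = 2 ^ (20 * s * m) := by rw [← pow_add]; congr 1; ring
          _ ≤ 2 ^ (20 * s * i) := pow_le_pow_right₀ (by norm_num) (Nat.mul_le_mul_left _ hmi)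
      have h6 : (mx W : ℝ) * nr β ≤ nr (act W β) * (8 * 2 ^ (20 * s * i)) := by
        calc (mx W : ℝ) * nr β ≤ mx W * (2 * (mx W : ℝ) * nr (act W β)) :=
              mul_le_mul_of_nonneg_left h1 (by linarith)
          _ = 2 * ((mx W : ℝ) * mx W) * nr (act W β) := by ring
          _ ≤ 2 * 2 ^ (20 * s * i) * nr (act W β) := by gcongr
          _ ≤ nr (act W β) * (8 * 2 ^ (20 * s * i)) := by
            have : 0 ≤ nr (act W β) * 2 ^ (20 * s * i) := by positivity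
            nlinarith
      linarith
    rw [he, Finset.card_empty, Nat.cast_zero]
    positivity
  rcases Nat.eq_zero_or_pos i with hi | hi
  · have h1 : ((Wd s m).filter (fun W => nr (act W β) * (8 * 2 ^ (20 * s * i)) < mx W * nr β)).card ≤
        (Lt s).card ^ m := by
      rw [← card_Wd]
      exact Finset.card_filter_le _ _
    have h2 : ((Lt s).card : ℝ) ^ m / 2 ^ (s * i) = ((Lt s).card : ℝ) ^ m := by
      rw [hi, Nat.mul_zero, pow_zero, div_one]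
    rw [h2]
    exact_mod_cast h1
  · obtain ⟨a, ha1, rfl⟩ : ∃ a, 1 ≤ a ∧ m = a + i := ⟨m - i, by omega, by omega⟩
    set S := (Wd s (a + i)).filter (fun W => nr (act W β) * (8 * 2 ^ (20 * s * i)) < mx W * nr β) with hS
    have hbound : S.card ≤ (Lt s).card ^ a := by
      rcases S.eq_empty_or_nonempty with he | ⟨W0, hW0⟩
      · rw [he]
        simp
      · rw [← card_Wd]
        obtain ⟨hW0m, hW0c⟩ := Finset.mem_filter.1 hW0
        obtain ⟨A0, hA0, V0, hV0, rfl⟩ := Wd_split s a i W0 hW0m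
        have hsub : S ⊆ (Wd s a).image (fun A => A * V0) := by
          intro W hW
          obtain ⟨hWm, hWc⟩ := Finset.mem_filter.1 hW
          obtain ⟨A, hA, V, hV, rfl⟩ := Wd_split s a i W hWm
          have hVV : V = V0 := by
            by_contra hne
            rcases cone_sep s i V V0 hV hV0 hne with h | h
            · exact nc_key (by omega) ha1 hi hA hA0 hV hV0 h β hWc hW0c
            · exact nc_key (by omega) ha1 hi hA0 hA hV0 hV h β hW0c hWc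
          exact Finset.mem_image.2 ⟨A, hA, by rw [hVV]⟩
        exact (Finset.card_le_card hsub).trans Finset.card_image_le
    have h1 : (S.card : ℝ) ≤ ((Lt s).card : ℝ) ^ a := by exact_mod_cast hbound
    rw [le_div_iff₀ (by positivity), pow_add]
    refine mul_le_mul h1 ?_ (by positivity) (by positivity)
    rw [pow_mul]
    exact pow_le_pow_left₀ (by positivity) hN i

end Pool.Agent.H1.PP
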