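import Pool.Agent.H1.PP.BLp
import Pool.Agent.H1.PP.NC

/-!
# PP-11 FD: Fourier decay off the major arcs

`T = 2^s`, `f P = bmp R m1 m2 P * ee (dt P ψ)`, `|f| ≤ 1`.

PROOF.  Call `Γ ∈ Wd s (10 (K - n))` relevant at level `n` (`n' ≤ n ≤ K`) if `bmp R m1 m2 (P * Γ) ≠ 0` for some
`P ∈ Wd s (10 n)`.  Then (`tri_ne_zero`) `R < (P Γ) 1 j < (T^110 + 1) R ≤ 2 T^110 R` for `j = 0, 1`.  Since
`(P Γ) 1 j = P 1 0 Γ 0 j + P 1 1 Γ 1 j`, with the bounds `T^(100 n)/8^(10 n) ≤ P 1 k ≤ T^(100 n)/2`: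
(R1) `R ≤ T^(100 n) mx Γ`;   (R2) `T^(100 n) mx Γ ≤ 8^(10 n) * 2 T^110 R` (take the column of the largest entry).
(R2) is the hypothesis of `BLp`.

Statement `H(n)`: there are `q : ℕ`, `1 ≤ q ≤ T^(20 n)`, `p : Fin 2 → ℤ` with `nr (ψ - p/q) ≤ 16 T^(20 n') T^(25 n) / R`.

(1) Either `‖Av (10 K) f‖ ≤ 5/T^(n')` or `H(K)`.  If `Γ = 1` is not relevant at level `K` then `f = 0` on words.
Otherwise `BLp` with `Γ = 1`, `n = K`: either `‖Av‖ ≤ 3/T^K`, or `|ψ_i - p_i/q| ≤ 2/T^(75 K)`, `q ≤ T^(20 K)`; and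
`R ≤ T^(100 K)` by (R1), so `2/T^(75 K) ≤ 16 T^(20 n') T^(25 K) / R`.

(2) For `n' ≤ n < K`: `H(n+1)` implies `‖Av (10 K) f‖ ≤ 5/T^(n')` or `H(n)`.  Let `p/q` be from `H(n+1)`, `β = ψ - p/q`.
`Av (10 K) f = Av (10 (K - n)) (Γ ↦ Av (10 n) (P ↦ f (P Γ)))` (`Av_split`).  By `BLp` the inner average is `0` for
irrelevant `Γ`, at most `3/T^n` in absolute value for relevant `Γ` without
`(*) NearQ (T^(20 n)) (2/T^(75 n)) (act Γ ψ)`, and at most `1` always.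
If every relevant `Γ` with `(*)` satisfies `nr (act Γ β) * 8 T^(20 n') < mx Γ * nr β`, then by `NC` (`i = n'`)
`‖Av (10 K) f‖ ≤ 3/T^n + 1/T^(n') ≤ 5/T^(n')`.
Otherwise there is a relevant `Γ` with `(*)`, say `|act Γ ψ - p'/q'| ≤ 2/T^(75 n)`, `q' ≤ T^(20 n)`, and
`mx Γ * nr β ≤ nr (act Γ β) * 8 T^(20 n')`.  Claim `act Γ (p/q) = p'/q'`.  Indeed each coordinate of the difference is at
most `nr (act Γ β) + 2/T^(75 n)`, and `nr (act Γ β) ≤ 2 mx Γ nr β ≤ 2 (2 * 8^(10 n) T^110 R / T^(100 n)) *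
16 T^(20 n') T^(25 (n+1)) / R = 64 * 8^(10 n) T^(135 + 20 n' - 75 n)`, and the sum is less than
`T^(-40 n - 20) ≤ 1/(q q')` because `64 * 2^(30 n) T^(155 + 20 n' - 35 n) ≤ 64 * 2^(30 n) T^(155 - 15 n) < 1/4` for
`n ≥ n' ≥ 11`, `s ≥ 50`.  A rational number with denominator dividing `q q'` of absolute value less than `1/(q q')` is `0`.
Put `p'' = Γ⁻¹ p'` (integer, `Γ⁻¹` the adjugate): `ψ - p''/q' = ψ - p/q = β`.  And
`nr β ≤ nr (act Γ β) * 8 T^(20 n') / mx Γ ≤ (2/T^(75 n)) * 8 T^(20 n') * T^(100 n) / R` by (R1)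
(`act Γ β = act Γ ψ - p'/q'`).  This is `H(n)` with `q', p''`.

(3) Descend from `K` to `n'`: `H(n')` is `NearQ (T^(20 n')) (16 T^(45 n')/R) ψ`.
-/

set_option autoImplicit false

open Finset

namespace Pool.Agent.H1.PP

open Pool.Agent.H10.RP (ee nd Lam)

theorem fd_bmp_nonneg (R : ℕ) (m1 m2 : ℤ) (P : M2) : 0 ≤ bmp R m1 m2 P :=
  mul_nonneg (tri_nonneg _ _ _) (tri_nonneg _ _ _)

theorem fd_bmp_le_one (R : ℕ) (m1 m2 : ℤ) (P : M2) : bmp R m1 m2 P ≤ 1 := by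
  unfold bmp
  exact mul_le_one₀ (tri_le_one _ _ _) (tri_nonneg _ _ _) (tri_le_one _ _ _)

theorem fd_norm_ee (x : ℝ) : ‖ee x‖ = 1 := by
  unfold ee
  rw [Complex.norm_exp]
  simp

theorem fd_norm_le (R : ℕ) (m1 m2 : ℤ) (P : M2) (x : ℝ) :
    ‖(bmp R m1 m2 P : ℂ) * ee x‖ ≤ 1 := by
  rw [norm_mul, fd_norm_ee, mul_one, Complex.norm_real, Real.norm_eq_abs,
    abs_of_nonneg (fd_bmp_nonneg _ _ _ _)]
  exact fd_bmp_le_one _ _ _ _

theorem fd_bmp_ne (R : ℕ) (hR : 1 ≤ R) (m1 m2 : ℤ) (P : M2) (h : bmp R m1 m2 P ≠ 0) :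
    |P 1 0 - m1| < R ∧ |P 1 1 - m2| < R := by
  unfold bmp at h
  exact ⟨tri_ne_zero R hR _ _ (left_ne_zero_of_mul h), tri_ne_zero R hR _ _ (right_ne_zero_of_mul h)⟩

theorem fd_mx_eq (P : M2) : ∃ i j, mx P = P i j := by
  unfold mx
  rcases le_total (max (P 0 0) (P 0 1)) (max (P 1 0) (P 1 1)) with h | h
  · rw [max_eq_right h]
    rcases le_total (P 1 0) (P 1 1) with h' | h'
    · exact ⟨1, 1, max_eq_right h'⟩
    · exact ⟨1, 0, max_eq_left h'⟩
  · rw [max_eq_left h]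
    rcases le_total (P 0 0) (P 0 1) with h' | h'
    · exact ⟨0, 1, max_eq_right h'⟩
    · exact ⟨0, 0, max_eq_left h'⟩

theorem fd_ent (P G : M2) (i j : Fin 2) : (P * G) i j = P i 0 * G 0 j + P i 1 * G 1 j := by
  rw [Matrix.mul_apply, Fin.sum_univ_two]

theorem fd_rel (s : ℕ) (hs : 50 ≤ s) (R : ℕ) (hR : 1 ≤ R) (m1 m2 : ℤ) (h1 : 2 * (R : ℤ) ≤ m1)
    (h2 : 2 * (R : ℤ) ≤ m2) (h1' : m1 ≤ 2 ^ (110 * s) * R) (h2' : m2 ≤ 2 ^ (110 * s) * R)
    (n k : ℕ) (hn : 1 ≤ n) (P Γ : M2) (hP : P ∈ Wd s (10 * n)) (hΓ : Γ ∈ Wd s k)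
    (hb : bmp R m1 m2 (P * Γ) ≠ 0) :
    (R : ℝ) ≤ 2 ^ (100 * s * n) * mx Γ ∧
      (2 : ℝ) ^ (100 * s * n) * mx Γ ≤ 8 ^ (10 * n) * 2 * 2 ^ (110 * s) * R := by
  obtain ⟨hb0, hb1⟩ := fd_bmp_ne R hR m1 m2 _ hb
  have hΓ0 := Wd_nonneg s k Γ hΓ
  have hP0 := Wd_nonneg s (10 * n) P hP
  have hup := Wd_upper s (10 * n) (by omega) (by omega) P hP
  have hlo := Wd_lower s (10 * n) (by omega) (by omega) P hP
  have e1 : 10 * s * (10 * n) = 100 * s * n := by ring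
  rw [e1] at hup hlo
  have hRZ : (1 : ℤ) ≤ (R : ℤ) := by exact_mod_cast hR
  have hpow : (1 : ℤ) ≤ 2 ^ (110 * s) := one_le_pow₀ (by norm_num)
  have hentU : ∀ j, (P * Γ) 1 j ≤ 2 * (2 ^ (110 * s) * (R : ℤ)) := by
    intro j
    have hRR : (R : ℤ) ≤ 2 ^ (110 * s) * R := by nlinarith
    fin_cases j
    · have := (abs_lt.mp hb0).2
      simp only [Fin.zero_eta] at *
      linarith
    · have := (abs_lt.mp hb1).2
      simp only [Fin.mk_one] at *
      linarith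
  have hentL : (R : ℤ) ≤ (P * Γ) 1 0 := by
    have := (abs_lt.mp hb0).1
    linarith
  constructor
  · have h3 : (R : ℤ) ≤ 2 ^ (100 * s * n) * mx Γ := by
      refine hentL.trans ?_
      rw [fd_ent]
      have a1 := le_mx Γ 0 0
      have a2 := le_mx Γ 1 0
      have a3 := hup 1 0
      have a4 := hup 1 1
      have a5 : 0 ≤ mx Γ := (hΓ0 0 0).trans a1
      have b1 : P 1 0 * Γ 0 0 ≤ P 1 0 * mx Γ := mul_le_mul_of_nonneg_left a1 (hP0 1 0)
      have b2 : P 1 1 * Γ 1 0 ≤ P 1 1 * mx Γ := mul_le_mul_of_nonneg_left a2 (hP0 1 1)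
      have b3 : (P 1 0 + P 1 1) * mx Γ ≤ 2 ^ (100 * s * n) * mx Γ :=
        mul_le_mul_of_nonneg_right (by linarith) a5
      linarith
    exact_mod_cast h3
  · have h3 : 2 ^ (100 * s * n) * mx Γ ≤ 8 ^ (10 * n) * 2 * 2 ^ (110 * s) * (R : ℤ) := by
      obtain ⟨i, j, hij⟩ := fd_mx_eq Γ
      rw [hij]
      have c1 : P 1 i * Γ i j ≤ (P * Γ) 1 j := by
        rw [fd_ent]
        fin_cases i
        · simp only [Fin.zero_eta]
          have := mul_nonneg (hP0 1 1) (hΓ0 1 j)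
          linarith
        · simp only [Fin.mk_one]
          have := mul_nonneg (hP0 1 0) (hΓ0 0 j)
          linarith
      have c2 : 2 ^ (100 * s * n) * Γ i j ≤ 8 ^ (10 * n) * P 1 i * Γ i j :=
        mul_le_mul_of_nonneg_right (hlo 1 i) (hΓ0 i j)
      have c3 : (8 : ℤ) ^ (10 * n) * (P 1 i * Γ i j) ≤ 8 ^ (10 * n) * (2 * (2 ^ (110 * s) * (R : ℤ))) :=
        mul_le_mul_of_nonneg_left (c1.trans (hentU j)) (by positivity)
      linarith
    exact_mod_cast h3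

theorem fd_nr_le (φ : Fin 2 → ℝ) (c : ℝ) (h : ∀ i, |φ i| ≤ c) : nr φ ≤ c := max_le (h 0) (h 1)

theorem fd_le_nr (φ : Fin 2 → ℝ) (i : Fin 2) : |φ i| ≤ nr φ := by
  unfold nr
  fin_cases i
  · exact le_max_left _ _
  · exact le_max_right _ _

theorem fd_act_le (Γ : M2) (hΓ0 : ∀ i j, 0 ≤ Γ i j) (β : Fin 2 → ℝ) (i : Fin 2) :
    |act Γ β i| ≤ 2 * (mx Γ * nr β) := by
  unfold act
  have a : ∀ j, |(Γ i j : ℝ) * β j| ≤ mx Γ * nr β := by
    intro j
    rw [abs_mul, abs_of_nonneg (by exact_mod_cast hΓ0 i j : (0 : ℝ) ≤ (Γ i j : ℝ))]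
    exact mul_le_mul (by exact_mod_cast le_mx Γ i j) (fd_le_nr β j) (abs_nonneg _)
      (by exact_mod_cast (hΓ0 i j).trans (le_mx Γ i j))
  have b := abs_add_le ((Γ i 0 : ℝ) * β 0) ((Γ i 1 : ℝ) * β 1)
  have a0 := a 0
  have a1 := a 1
  linarith

/-- the arithmetic step: a contracting relevant word gives a good approximation at the next level -/
theorem fd_step (s : ℕ) (hs : 50 ≤ s) (R : ℕ) (hR : 1 ≤ R) (n' n : ℕ) (hn' : 11 ≤ n') (hn : n' ≤ n)
    (ψ : Fin 2 → ℝ) (Γ : M2) (hΓ0 : ∀ i j, 0 ≤ Γ i j)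
    (hdet : Γ 0 0 * Γ 1 1 - Γ 0 1 * Γ 1 0 = 1)
    (hmx : 1 ≤ mx Γ)
    (r1 : (R : ℝ) ≤ 2 ^ (100 * s * n) * mx Γ)
    (r2 : (2 : ℝ) ^ (100 * s * n) * mx Γ ≤ 8 ^ (10 * n) * 2 * 2 ^ (110 * s) * R)
    (q : ℕ) (hq : 1 ≤ q) (hq' : (q : ℝ) ≤ 2 ^ (20 * s * (n + 1))) (p : Fin 2 → ℤ)
    (hβ : nr (fun i => ψ i - (p i : ℝ) / q) ≤ 16 * 2 ^ (20 * s * n') * 2 ^ (25 * s * (n + 1)) / R)
    (hN : NearQ (2 ^ (20 * s * n)) (2 / 2 ^ (75 * s * n)) (act Γ ψ))
    (hc : mx Γ * nr (fun i => ψ i - (p i : ℝ) / q) ≤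
      nr (act Γ (fun i => ψ i - (p i : ℝ) / q)) * (8 * 2 ^ (20 * s * n'))) :
    ∃ q : ℕ, 1 ≤ q ∧ (q : ℝ) ≤ 2 ^ (20 * s * n) ∧ ∃ p : Fin 2 → ℤ,
      nr (fun i => ψ i - (p i : ℝ) / q) ≤ 16 * 2 ^ (20 * s * n') * 2 ^ (25 * s * n) / R := by
  obtain ⟨q', hq1, hq2, p', hp'⟩ := hN
  set β : Fin 2 → ℝ := fun i => ψ i - (p i : ℝ) / q with hβdef
  have hRpos : (0 : ℝ) < R := by exact_mod_cast hR
  have hqpos : (0 : ℝ) < q := by exact_mod_cast hq
  have hqpos' : (0 : ℝ) < q' := by exact_mod_cast hq1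
  have hmxpos : (0 : ℝ) < mx Γ := by exact_mod_cast hmx
  -- decomposition
  have hdec : ∀ i, act Γ ψ i = ((Γ i 0 * p 0 + Γ i 1 * p 1 : ℤ) : ℝ) / q + act Γ β i := by
    intro i
    unfold act
    simp only [hβdef]
    push_cast
    field_simp
    ring
  -- size of `act Γ β`
  have hact : ∀ i, |act Γ β i| * 2 ^ (75 * s * n) ≤
      2 ^ (6 + 30 * n + 135 * s + 20 * s * n') := by
    intro i
    have e1 := fd_act_le Γ hΓ0 β i
    have e2 : mx Γ * nr β * 2 ^ (75 * s * n) ≤ 2 ^ (5 + 30 * n + 135 * s + 20 * s * n') := by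
      have f1 : nr β * R ≤ 16 * 2 ^ (20 * s * n') * 2 ^ (25 * s * (n + 1)) := by
        have := mul_le_mul_of_nonneg_right hβ hRpos.le
        rwa [div_mul_cancel₀ _ hRpos.ne'] at this
      have f0 : 0 ≤ nr β := (abs_nonneg _).trans (fd_le_nr β 0)
      -- multiply by `2^(100sn)/...`
      have f2 : (2 : ℝ) ^ (100 * s * n) * mx Γ * nr β ≤
          8 ^ (10 * n) * 2 * 2 ^ (110 * s) * (16 * 2 ^ (20 * s * n') * 2 ^ (25 * s * (n + 1))) := by
        calc (2 : ℝ) ^ (100 * s * n) * mx Γ * nr β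
            ≤ 8 ^ (10 * n) * 2 * 2 ^ (110 * s) * R * nr β := mul_le_mul_of_nonneg_right r2 f0
          _ = 8 ^ (10 * n) * 2 * 2 ^ (110 * s) * (nr β * R) := by ring
          _ ≤ _ := mul_le_mul_of_nonneg_left f1 (by positivity)
      have g1 : (2 : ℝ) ^ (100 * s * n) = 2 ^ (75 * s * n) * 2 ^ (25 * s * n) := by
        rw [← pow_add]; congr 1; ring
      have g2 : (8 : ℝ) ^ (10 * n) * 2 * 2 ^ (110 * s) *
          (16 * 2 ^ (20 * s * n') * 2 ^ (25 * s * (n + 1))) =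
          2 ^ (25 * s * n) * 2 ^ (5 + 30 * n + 135 * s + 20 * s * n') := by
        have : (8 : ℝ) ^ (10 * n) = 2 ^ (30 * n) := by
          rw [show (8 : ℝ) = 2 ^ 3 by norm_num, ← pow_mul]; congr 1; ring
        rw [this, show (16 : ℝ) = 2 ^ 4 by norm_num]
        have : (2 : ℝ) ^ (30 * n) * 2 * 2 ^ (110 * s) * (2 ^ 4 * 2 ^ (20 * s * n') *
            2 ^ (25 * s * (n + 1))) = 2 ^ (30 * n + 1 + 110 * s + (4 + 20 * s * n' +
            25 * s * (n + 1))) := by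
          simp only [pow_add, pow_one]
        rw [this, ← pow_add]
        congr 1
        ring
      rw [g1, g2] at f2
      have g3 : (0 : ℝ) < 2 ^ (25 * s * n) := by positivity
      have f3 : (2 : ℝ) ^ (25 * s * n) * (mx Γ * nr β * 2 ^ (75 * s * n)) ≤
          2 ^ (25 * s * n) * 2 ^ (5 + 30 * n + 135 * s + 20 * s * n') := by
        calc _ = (2 : ℝ) ^ (75 * s * n) * 2 ^ (25 * s * n) * mx Γ * nr β := by ring
          _ ≤ _ := f2
      exact le_of_mul_le_mul_left f3 g3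
    calc |act Γ β i| * 2 ^ (75 * s * n) ≤ 2 * (mx Γ * nr β) * 2 ^ (75 * s * n) :=
          mul_le_mul_of_nonneg_right e1 (by positivity)
      _ = 2 * (mx Γ * nr β * 2 ^ (75 * s * n)) := by ring
      _ ≤ 2 * 2 ^ (5 + 30 * n + 135 * s + 20 * s * n') := by linarith
      _ = 2 ^ (6 + 30 * n + 135 * s + 20 * s * n') := by
          rw [show 6 + 30 * n + 135 * s + 20 * s * n' = (5 + 30 * n + 135 * s + 20 * s * n') + 1 by ring,
            pow_succ]
          ring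
  -- the two rational vectors agree
  have hz : ∀ i, (Γ i 0 * p 0 + Γ i 1 * p 1) * q' = p' i * q := by
    intro i
    have h1 : |((Γ i 0 * p 0 + Γ i 1 * p 1 : ℤ) : ℝ) / q - (p' i : ℝ) / q'| * 2 ^ (75 * s * n) ≤
        2 ^ (7 + 30 * n + 135 * s + 20 * s * n') := by
      have k1 : ((Γ i 0 * p 0 + Γ i 1 * p 1 : ℤ) : ℝ) / q - (p' i : ℝ) / q' =
          (act Γ ψ i - (p' i : ℝ) / q') - act Γ β i := by rw [hdec i]; ring
      have k2 : |act Γ ψ i - (p' i : ℝ) / q'| * 2 ^ (75 * s * n) ≤ 2 := by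
        have := mul_le_mul_of_nonneg_right (hp' i) (by positivity : (0 : ℝ) ≤ 2 ^ (75 * s * n))
        rwa [div_mul_cancel₀ _ (by positivity)] at this
      have k3 : |((Γ i 0 * p 0 + Γ i 1 * p 1 : ℤ) : ℝ) / q - (p' i : ℝ) / q'| ≤
          |act Γ ψ i - (p' i : ℝ) / q'| + |act Γ β i| := by
        rw [k1]; exact abs_sub _ _
      have k4 : (2 : ℝ) ≤ 2 ^ (6 + 30 * n + 135 * s + 20 * s * n') := by
        calc (2 : ℝ) = 2 ^ 1 := by norm_num
          _ ≤ _ := pow_le_pow_right₀ (by norm_num) (by omega)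
      have k5 : (2 : ℝ) ^ (7 + 30 * n + 135 * s + 20 * s * n') =
          2 ^ (6 + 30 * n + 135 * s + 20 * s * n') + 2 ^ (6 + 30 * n + 135 * s + 20 * s * n') := by
        rw [show 7 + 30 * n + 135 * s + 20 * s * n' = (6 + 30 * n + 135 * s + 20 * s * n') + 1 by ring,
          pow_succ]
        ring
      have k6 := mul_le_mul_of_nonneg_right k3 (by positivity : (0 : ℝ) ≤ 2 ^ (75 * s * n))
      have k7 := hact i
      rw [k5]
      nlinarith
    have h2 : |(((Γ i 0 * p 0 + Γ i 1 * p 1) * q' - p' i * q : ℤ) : ℝ)| * 2 ^ (75 * s * n) ≤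
        2 ^ (7 + 30 * n + 135 * s + 20 * s * n') * (q * q') := by
      have k1 : (((Γ i 0 * p 0 + Γ i 1 * p 1) * q' - p' i * q : ℤ) : ℝ) =
          (((Γ i 0 * p 0 + Γ i 1 * p 1 : ℤ) : ℝ) / q - (p' i : ℝ) / q') * (q * q') := by
        push_cast
        field_simp
      rw [k1, abs_mul, abs_of_pos (mul_pos hqpos hqpos')]
      calc _ = (|((Γ i 0 * p 0 + Γ i 1 * p 1 : ℤ) : ℝ) / q - (p' i : ℝ) / q'| *
          2 ^ (75 * s * n)) * (q * q') := by ring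
        _ ≤ _ := mul_le_mul_of_nonneg_right h1 (by positivity)
    have h3 : (2 : ℝ) ^ (7 + 30 * n + 135 * s + 20 * s * n') * (q * q') < 2 ^ (75 * s * n) := by
      have k1 : (q : ℝ) * q' ≤ 2 ^ (20 * s * (n + 1)) * 2 ^ (20 * s * n) :=
        mul_le_mul hq' hq2 hqpos'.le (by positivity)
      calc (2 : ℝ) ^ (7 + 30 * n + 135 * s + 20 * s * n') * (q * q')
          ≤ 2 ^ (7 + 30 * n + 135 * s + 20 * s * n') * (2 ^ (20 * s * (n + 1)) * 2 ^ (20 * s * n)) :=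
            mul_le_mul_of_nonneg_left k1 (by positivity)
        _ = 2 ^ (7 + 30 * n + 135 * s + 20 * s * n' + (20 * s * (n + 1) + 20 * s * n)) := by
            simp only [pow_add]
        _ < 2 ^ (75 * s * n) := by
            apply pow_lt_pow_right₀ (by norm_num)
            obtain ⟨a, rfl⟩ := Nat.exists_eq_add_of_le hn
            obtain ⟨b, rfl⟩ := Nat.exists_eq_add_of_le hn'
            obtain ⟨c, rfl⟩ := Nat.exists_eq_add_of_le hs
            nlinarith [Nat.zero_le (c * a), Nat.zero_le (c * b), Nat.zero_le a, Nat.zero_le b,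
              Nat.zero_le c]
    have h4 : |(((Γ i 0 * p 0 + Γ i 1 * p 1) * q' - p' i * q : ℤ) : ℝ)| < 1 := by
      by_contra hcon
      push Not at hcon
      have : (2 : ℝ) ^ (75 * s * n) ≤
          |(((Γ i 0 * p 0 + Γ i 1 * p 1) * q' - p' i * q : ℤ) : ℝ)| * 2 ^ (75 * s * n) := by
        have := mul_le_mul_of_nonneg_right hcon (by positivity : (0 : ℝ) ≤ 2 ^ (75 * s * n))
        rwa [one_mul] at this
      linarith
    have h5 : |(Γ i 0 * p 0 + Γ i 1 * p 1) * q' - p' i * q| < 1 := by exact_mod_cast h4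
    have := Int.abs_lt_one_iff.mp h5
    linarith
  -- the new vector
  refine ⟨q', hq1, hq2, fun i => if i = 0 then Γ 1 1 * p' 0 - Γ 0 1 * p' 1
    else Γ 0 0 * p' 1 - Γ 1 0 * p' 0, ?_⟩
  have hnew : (fun i => ψ i - (((fun i : Fin 2 => if i = 0 then Γ 1 1 * p' 0 - Γ 0 1 * p' 1
    else Γ 0 0 * p' 1 - Γ 1 0 * p' 0) i : ℤ) : ℝ) / q') = β := by
    funext i
    simp only [hβdef]
    congr 1
    rw [div_eq_div_iff hqpos'.ne' hqpos.ne']
    have z0 := hz 0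
    have z1 := hz 1
    have e0 : (Γ 1 1 * p' 0 - Γ 0 1 * p' 1) * q = p 0 * q' := by
      linear_combination (-Γ 1 1) * z0 + Γ 0 1 * z1 + p 0 * q' * hdet
    have e1 : (Γ 0 0 * p' 1 - Γ 1 0 * p' 0) * q = p 1 * q' := by
      linear_combination (-Γ 0 0) * z1 + Γ 1 0 * z0 + p 1 * q' * hdet
    fin_cases i
    · simp only [Fin.zero_eta, if_true]
      exact_mod_cast e0
    · simp only [Fin.mk_one, one_ne_zero, if_false]
      exact_mod_cast e1
  rw [hnew, le_div_iff₀ hRpos]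
  have a1 : nr (act Γ β) ≤ 2 / 2 ^ (75 * s * n) := by
    apply fd_nr_le
    intro i
    have k1 : act Γ β i = act Γ ψ i - (p' i : ℝ) / q' := by
      rw [hdec i]
      have : ((Γ i 0 * p 0 + Γ i 1 * p 1 : ℤ) : ℝ) / q = (p' i : ℝ) / q' := by
        rw [div_eq_div_iff hqpos.ne' hqpos'.ne']
        exact_mod_cast hz i
      rw [this]; ring
    rw [k1]
    exact hp' i
  have f0 : 0 ≤ nr β := (abs_nonneg _).trans (fd_le_nr β 0)
  have g1 : (2 : ℝ) ^ (100 * s * n) = 2 ^ (75 * s * n) * 2 ^ (25 * s * n) := by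
    rw [← pow_add]; congr 1; ring
  calc nr β * R ≤ nr β * (2 ^ (100 * s * n) * mx Γ) := mul_le_mul_of_nonneg_left r1 f0
    _ = 2 ^ (100 * s * n) * (mx Γ * nr β) := by ring
    _ ≤ 2 ^ (100 * s * n) * (nr (act Γ β) * (8 * 2 ^ (20 * s * n'))) :=
        mul_le_mul_of_nonneg_left hc (by positivity)
    _ ≤ 2 ^ (100 * s * n) * (2 / 2 ^ (75 * s * n) * (8 * 2 ^ (20 * s * n'))) := by
        apply mul_le_mul_of_nonneg_left _ (by positivity)
        exact mul_le_mul_of_nonneg_right a1 (by positivity)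
    _ = 16 * 2 ^ (20 * s * n') * 2 ^ (25 * s * n) := by
        rw [g1]
        field_simp
        ring

theorem FD (s : ℕ) (hs : 50 ≤ s) (R : ℕ) (hR : 1 ≤ R) (m1 m2 : ℤ) (h1 : 2 * (R : ℤ) ≤ m1)
    (h2 : 2 * (R : ℤ) ≤ m2) (h1' : m1 ≤ 2 ^ (110 * s) * R) (h2' : m2 ≤ 2 ^ (110 * s) * R)
    (n' K : ℕ) (hn' : 11 ≤ n') (hK : n' ≤ K) (ψ : Fin 2 → ℝ) :
    ‖Av s (10 * K) (fun P => (bmp R m1 m2 P : ℂ) * ee (dt P ψ))‖ ≤ 5 / 2 ^ (s * n') ∨
      NearQ (2 ^ (20 * s * n')) (16 * 2 ^ (45 * s * n') / R) ψ := by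
  classical
  by_cases hAv : ‖Av s (10 * K) (fun P => (bmp R m1 m2 P : ℂ) * ee (dt P ψ))‖ ≤ 5 / 2 ^ (s * n')
  · exact Or.inl hAv
  right
  have hRpos : (0 : ℝ) < R := by exact_mod_cast hR
  have hmono : ∀ n, n' ≤ n → (1 : ℝ) / 2 ^ (s * n) ≤ 1 / 2 ^ (s * n') := by
    intro n hn
    apply one_div_le_one_div_of_le (by positivity)
    exact pow_le_pow_right₀ (by norm_num) (Nat.mul_le_mul_left _ hn)
  -- level `K`
  have hbase : ∃ q : ℕ, 1 ≤ q ∧ (q : ℝ) ≤ 2 ^ (20 * s * K) ∧ ∃ p : Fin 2 → ℤ,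
      nr (fun i => ψ i - (p i : ℝ) / q) ≤ 16 * 2 ^ (20 * s * n') * 2 ^ (25 * s * K) / R := by
    by_cases hex : ∃ P ∈ Wd s (10 * K), bmp R m1 m2 (P * 1) ≠ 0
    · obtain ⟨P, hP, hb⟩ := hex
      have hW0 : (1 : M2) ∈ Wd s 0 := by simp [Wd]
      obtain ⟨r1, r2⟩ := fd_rel s hs R hR m1 m2 h1 h2 h1' h2' K 0 (by omega) P 1 hP hW0 hb
      have hmx1 : mx (1 : M2) = 1 := by simp [mx]
      rcases BLp s hs K (by omega) R hR m1 m2 1 (Wd_nonneg s 0 1 hW0) r2 ψ with h | h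
      · exfalso
        apply hAv
        simp only [mul_one] at h
        have := hmono K hK
        have e : (3 : ℝ) / 2 ^ (s * K) = 3 * (1 / 2 ^ (s * K)) := by ring
        have e' : (5 : ℝ) / 2 ^ (s * n') = 5 * (1 / 2 ^ (s * n')) := by ring
        have : (0 : ℝ) ≤ 1 / 2 ^ (s * n') := by positivity
        rw [e'] 
        rw [e] at h
        linarith
      · obtain ⟨q, hq, hq', p, hp⟩ := h
        refine ⟨q, hq, hq', p, ?_⟩
        apply fd_nr_le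
        intro i
        have hact1 : act 1 ψ i = ψ i := by
          have hall : ∀ i : Fin 2, act 1 ψ i = ψ i := by
            rw [Fin.forall_fin_two]
            constructor <;> simp [act]
          exact hall i
        have := hp i
        rw [hact1] at this
        refine this.trans ?_
        rw [hmx1] at r1
        rw [div_le_div_iff₀ (by positivity) hRpos]
        have e1 : (2 : ℝ) ^ (100 * s * K) = 2 ^ (25 * s * K) * 2 ^ (75 * s * K) := by
          rw [← pow_add]; congr 1; ring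
        have e2 : (1 : ℝ) ≤ 2 ^ (20 * s * n') := one_le_pow₀ (by norm_num)
        have e3 : (R : ℝ) ≤ 2 ^ (25 * s * K) * 2 ^ (75 * s * K) := by
          rw [← e1]; simpa using r1
        have e4 : (0 : ℝ) < 2 ^ (25 * s * K) * 2 ^ (75 * s * K) := by positivity
        calc 2 * (R : ℝ) ≤ 2 * (2 ^ (25 * s * K) * 2 ^ (75 * s * K)) := by linarith
          _ ≤ 16 * 2 ^ (20 * s * n') * (2 ^ (25 * s * K) * 2 ^ (75 * s * K)) := by nlinarith
          _ = _ := by ring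
    · exfalso
      push Not at hex
      apply hAv
      have : Av s (10 * K) (fun P => (bmp R m1 m2 P : ℂ) * ee (dt P ψ)) = 0 := by
        rw [Av_congr s (10 * K) _ (fun _ => (0 : ℂ)), Av_const s _ hs]
        intro P hP
        have := hex P hP
        rw [mul_one] at this
        simp [this]
      rw [this, norm_zero]
      positivity
  -- one step down
  have hstep : ∀ n, n' ≤ n → n < K →
      (∃ q : ℕ, 1 ≤ q ∧ (q : ℝ) ≤ 2 ^ (20 * s * (n + 1)) ∧ ∃ p : Fin 2 → ℤ,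
        nr (fun i => ψ i - (p i : ℝ) / q) ≤ 16 * 2 ^ (20 * s * n') * 2 ^ (25 * s * (n + 1)) / R) →
      ∃ q : ℕ, 1 ≤ q ∧ (q : ℝ) ≤ 2 ^ (20 * s * n) ∧ ∃ p : Fin 2 → ℤ,
        nr (fun i => ψ i - (p i : ℝ) / q) ≤ 16 * 2 ^ (20 * s * n') * 2 ^ (25 * s * n) / R := by
    intro n hn hnK hH
    obtain ⟨q, hq, hq', p, hβ⟩ := hH
    set β : Fin 2 → ℝ := fun i => ψ i - (p i : ℝ) / q with hβdef
    obtain ⟨k, hk⟩ : ∃ k, 10 * K = 10 * n + k := ⟨10 * K - 10 * n, by omega⟩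
    by_cases hcase : ∃ Γ ∈ Wd s k, (∃ P ∈ Wd s (10 * n), bmp R m1 m2 (P * Γ) ≠ 0) ∧
        NearQ (2 ^ (20 * s * n)) (2 / 2 ^ (75 * s * n)) (act Γ ψ) ∧
        mx Γ * nr β ≤ nr (act Γ β) * (8 * 2 ^ (20 * s * n'))
    · obtain ⟨Γ, hΓ, ⟨P, hP, hb⟩, hN, hc⟩ := hcase
      obtain ⟨r1, r2⟩ := fd_rel s hs R hR m1 m2 h1 h2 h1' h2' n k (by omega) P Γ hP hΓ hb
      exact fd_step s hs R hR n' n hn' hn ψ Γ (Wd_nonneg s k Γ hΓ) (Wd_det s k Γ hΓ)
        (mx_pos s k Γ hΓ) r1 r2 q hq hq' p hβ hN hc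
    · exfalso
      push Not at hcase
      apply hAv
      rw [hk, Av_split]
      have hb1 : ∀ Γ ∈ Wd s k, ‖Av s (10 * n) (fun P => (bmp R m1 m2 (P * Γ) : ℂ) *
          ee (dt (P * Γ) ψ))‖ ≤ 3 / 2 ^ (s * n) +
          (if nr (act Γ β) * (8 * 2 ^ (20 * s * n')) < mx Γ * nr β then (1 : ℝ) else 0) := by
        intro Γ hΓ
        by_cases hrel : ∃ P ∈ Wd s (10 * n), bmp R m1 m2 (P * Γ) ≠ 0
        · obtain ⟨P, hP, hb⟩ := id hrel
          obtain ⟨r1, r2⟩ := fd_rel s hs R hR m1 m2 h1 h2 h1' h2' n k (by omega) P Γ hP hΓ hb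
          rcases BLp s hs n (by omega) R hR m1 m2 Γ (Wd_nonneg s k Γ hΓ) r2 ψ with h | h
          · refine h.trans ?_
            have : (0 : ℝ) ≤ if nr (act Γ β) * (8 * 2 ^ (20 * s * n')) < mx Γ * nr β
              then (1 : ℝ) else 0 := by split_ifs <;> norm_num
            linarith
          · have h3 := hcase Γ hΓ hrel h
            rw [if_pos h3]
            have h4 : ‖Av s (10 * n) (fun P => (bmp R m1 m2 (P * Γ) : ℂ) *
                ee (dt (P * Γ) ψ))‖ ≤ 1 := by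
              refine (norm_Av_le _ _ _).trans ?_
              refine (Av_mono s (10 * n) _ (fun _ => (1 : ℝ)) ?_).trans ?_
              · intro P _
                exact fd_norm_le _ _ _ _ _
              · rw [Av_const s _ hs]
            have : (0 : ℝ) ≤ 3 / 2 ^ (s * n) := by positivity
            linarith
        · push Not at hrel
          have h0 : Av s (10 * n) (fun P => (bmp R m1 m2 (P * Γ) : ℂ) * ee (dt (P * Γ) ψ)) = 0 := by
            rw [Av_congr s (10 * n) _ (fun _ => (0 : ℂ)), Av_const s _ hs]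
            intro P hP
            simp [hrel P hP]
          rw [h0, norm_zero]
          have : (0 : ℝ) ≤ if nr (act Γ β) * (8 * 2 ^ (20 * s * n')) < mx Γ * nr β
            then (1 : ℝ) else 0 := by split_ifs <;> norm_num
          positivity
      have hb2 := (norm_Av_le s k (fun Γ => Av s (10 * n) (fun P => (bmp R m1 m2 (P * Γ) : ℂ) *
        ee (dt (P * Γ) ψ)))).trans (Av_mono s k _ _ hb1)
      refine hb2.trans ?_
      rw [Av_add, Av_const s _ hs, Av_card]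
      have hNC := NC s hs k n' β
      have hcard : (0 : ℝ) < ((Lt s).card : ℝ) ^ k := by
        have := card_Lt_ge s hs
        have h2s : (0 : ℝ) < 2 ^ s := by positivity
        have : (0 : ℝ) < (Lt s).card := by linarith
        positivity
      have h5 : ((((Wd s k).filter (fun W => nr (act W β) * (8 * 2 ^ (20 * s * n')) <
          mx W * nr β)).card : ℝ)) / ((Lt s).card : ℝ) ^ k ≤ 1 / 2 ^ (s * n') := by
        rw [div_le_div_iff₀ hcard (by positivity)]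
        have := mul_le_mul_of_nonneg_right hNC (by positivity : (0 : ℝ) ≤ 2 ^ (s * n'))
        rw [div_mul_cancel₀ _ (by positivity)] at this
        rw [one_mul]
        convert this using 3
      have h6 := hmono n hn
      have e : (3 : ℝ) / 2 ^ (s * n) = 3 * (1 / 2 ^ (s * n)) := by ring
      have e' : (5 : ℝ) / 2 ^ (s * n') = 5 * (1 / 2 ^ (s * n')) := by ring
      have : (0 : ℝ) ≤ 1 / 2 ^ (s * n') := by positivity
      rw [e, e']
      linarith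
  -- descent
  have hdesc : ∀ j, j ≤ K - n' → ∃ q : ℕ, 1 ≤ q ∧ (q : ℝ) ≤ 2 ^ (20 * s * (K - j)) ∧
      ∃ p : Fin 2 → ℤ, nr (fun i => ψ i - (p i : ℝ) / q) ≤
        16 * 2 ^ (20 * s * n') * 2 ^ (25 * s * (K - j)) / R := by
    intro j
    induction j with
    | zero => intro _; simpa using hbase
    | succ j ih =>
      intro hj
      have h := ih (by omega)
      have e : K - j = (K - (j + 1)) + 1 := by omega
      rw [e] at h
      exact hstep (K - (j + 1)) (by omega) (by omega) h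
  obtain ⟨q, hq, hq', p, hp⟩ := hdesc (K - n') le_rfl
  have e : K - (K - n') = n' := by omega
  rw [e] at hq' hp
  refine ⟨q, hq, hq', p, fun i => ?_⟩
  refine (fd_le_nr (fun i => ψ i - (p i : ℝ) / q) i).trans (hp.trans (le_of_eq ?_))
  have : (2 : ℝ) ^ (45 * s * n') = 2 ^ (20 * s * n') * 2 ^ (25 * s * n') := by
    rw [← pow_add]; congr 1; ring
  rw [this]
  ring

end Pool.Agent.H1.PP
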