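import Pool.Agent.H1.PP.HSc
import Pool.Agent.H90.PNT

/-!
# PP-40 Intp: interpolation between the scales

PROOF of `V_all`.  `Xj j = ⌊exp √j⌋`; `Xj (j+1)/Xj j → 1` and `log Xj (j+1)/log Xj j → 1`.  For large `X` choose `j` with
`Xj j ≤ X < Xj (j+1)` (`Nat.find`; `Xj` tends to infinity).  Let `0 < ε < t`.  `t log X/X ≤ (t+ε) log Xj (j+1)/Xj (j+1)` and
`t log X/X ≥ (t - ε) log Xj j/Xj j` for large `X` (`log x/x` is decreasing for `x ≥ e` and the ratio of its values at
`Xj j`, `Xj (j+1)` tends to `1`).  `V_mono`: `V α (Xj j) ((t-ε) ...) ≤ V α X (t log X/X) ≤ V α (Xj (j+1)) ((t+ε) ...)`.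
Multiply by `log X/X`, compare with `log Xj j/Xj j` and let `X → ∞`: the limits are between `t - ε` and `t + ε`.

PROOF of `V_prime`.  `p_N = Nat.nth Nat.Prime (N-1)`, `X = p_N`.  By the prime number theorem
(`Pool.Agent.H90.tendsto_primeCounting`: read its statement) `N = π(p_N)`, `N log p_N/p_N → 1`.  So
`1/N = (log X/X) (1 + o(1))`, `t/N` lies between `(t-ε) log X/X` and `(t+ε) log X/X`, and `V α X δ/N ~ V α X δ log X/X`.
-/

set_option autoImplicit false

open Finset

namespace Pool.Agent.H1.PP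

open Pool.Agent.H10.RP (ee nd Lam)

/-- change of scale -/
theorem intp_scale (α : ℝ) (a : ℕ → ℕ) (l q : ℕ → ℝ) (hl : ∀ᶠ n in Filter.atTop, 0 ≤ l n)
    (hq : Filter.Tendsto q Filter.atTop (nhds 1))
    (h : ∀ t : ℝ, 0 < t → Filter.Tendsto (fun n : ℕ => V α (a n) (t * l n) * l n)
      Filter.atTop (nhds t)) (t : ℝ) (ht : 0 < t) :
    Filter.Tendsto (fun n : ℕ => V α (a n) (t * (q n * l n)) * (q n * l n))
      Filter.atTop (nhds t) := by
  have hs : ∀ s : ℝ, 0 < s → Filter.Tendsto (fun n : ℕ => V α (a n) (s * l n) * l n * q n)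
      Filter.atTop (nhds s) := by
    intro s hs
    have h1 := (h s hs).mul hq
    rwa [mul_one] at h1
  have htq : Filter.Tendsto (fun n => t * q n) Filter.atTop (nhds t) := by
    have h1 := hq.const_mul t
    rwa [mul_one] at h1
  have hq0 : ∀ᶠ n in Filter.atTop, 0 < q n := hq.eventually (lt_mem_nhds one_pos)
  rw [tendsto_order]
  constructor
  · intro b hb
    obtain ⟨s, hs1, hs2⟩ := exists_between (max_lt hb ht)
    have hs0 : 0 < s := lt_of_le_of_lt (le_max_right _ _) hs1
    have hbs : b < s := lt_of_le_of_lt (le_max_left _ _) hs1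
    filter_upwards [hl, hq0, (hs s hs0).eventually (lt_mem_nhds hbs),
      htq.eventually (lt_mem_nhds hs2)] with n h1 h2 h3 h4
    refine h3.trans_le ?_
    have h5 : V α (a n) (s * l n) ≤ V α (a n) (t * (q n * l n)) :=
      V_mono α _ _ _ _ le_rfl (by rw [← mul_assoc]; exact mul_le_mul_of_nonneg_right h4.le h1)
    calc V α (a n) (s * l n) * l n * q n = V α (a n) (s * l n) * (q n * l n) := by ring
      _ ≤ _ := mul_le_mul_of_nonneg_right h5 (mul_nonneg h2.le h1)
  · intro b hb
    obtain ⟨s, hs1, hs2⟩ := exists_between hb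
    have hs0 : 0 < s := ht.trans hs1
    filter_upwards [hl, hq0, (hs s hs0).eventually (gt_mem_nhds hs2),
      htq.eventually (gt_mem_nhds hs1)] with n h1 h2 h3 h4
    refine lt_of_le_of_lt ?_ h3
    have h5 : V α (a n) (t * (q n * l n)) ≤ V α (a n) (s * l n) :=
      V_mono α _ _ _ _ le_rfl (by rw [← mul_assoc]; exact mul_le_mul_of_nonneg_right h4.le h1)
    calc V α (a n) (t * (q n * l n)) * (q n * l n) ≤ V α (a n) (s * l n) * (q n * l n) :=
          mul_le_mul_of_nonneg_right h5 (mul_nonneg h2.le h1)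
      _ = _ := by ring

theorem intp_exp_atTop : Filter.Tendsto (fun j : ℕ => Real.exp (Real.sqrt j)) Filter.atTop
    Filter.atTop :=
  Real.tendsto_exp_atTop.comp (Real.tendsto_sqrt_atTop.comp tendsto_natCast_atTop_atTop)

theorem intp_Xj_atTop : Filter.Tendsto Xj Filter.atTop Filter.atTop :=
  tendsto_nat_floor_atTop.comp intp_exp_atTop

theorem intp_Xj_div : Filter.Tendsto (fun j : ℕ => (Xj j : ℝ) / Real.exp (Real.sqrt j))
    Filter.atTop (nhds 1) :=
  (tendsto_nat_floor_div_atTop (R := ℝ)).comp intp_exp_atTop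

theorem intp_sqrt : Filter.Tendsto (fun j : ℕ => Real.sqrt ((j + 1 : ℕ) : ℝ) - Real.sqrt j)
    Filter.atTop (nhds 0) := by
  have h1 : Filter.Tendsto (fun j : ℕ => Real.sqrt ((j + 1 : ℕ) : ℝ) + Real.sqrt j)
      Filter.atTop Filter.atTop := by
    refine Filter.tendsto_atTop_mono (fun j => ?_)
      (Real.tendsto_sqrt_atTop.comp tendsto_natCast_atTop_atTop)
    exact le_add_of_nonneg_left (Real.sqrt_nonneg _)
  have h2 := h1.inv_tendsto_atTop
  refine h2.congr fun j => ?_
  have h3 : 0 < Real.sqrt ((j + 1 : ℕ) : ℝ) := Real.sqrt_pos.2 (by positivity)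
  have h4 : 0 ≤ Real.sqrt (j : ℝ) := Real.sqrt_nonneg _
  have h7 : (0 : ℝ) < Real.sqrt ((j + 1 : ℕ) : ℝ) + Real.sqrt j := by positivity
  rw [Pi.inv_apply]
  refine (eq_inv_of_mul_eq_one_left ?_).symm
  have h5 := Real.mul_self_sqrt (by positivity : (0 : ℝ) ≤ ((j + 1 : ℕ) : ℝ))
  have h6 := Real.mul_self_sqrt (by positivity : (0 : ℝ) ≤ (j : ℝ))
  push_cast at h5 ⊢
  nlinarith

theorem intp_Xj_pos (j : ℕ) : 1 ≤ Xj j := by
  unfold Xj
  apply Nat.le_floor
  rw [Nat.cast_one]
  exact Real.one_le_exp (Real.sqrt_nonneg _)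

theorem intp_Xj_mono {i j : ℕ} (h : i ≤ j) : Xj i ≤ Xj j := by
  unfold Xj
  apply Nat.floor_mono
  apply Real.exp_le_exp.2
  exact Real.sqrt_le_sqrt (by exact_mod_cast h)

theorem intp_ratio : Filter.Tendsto (fun j : ℕ => (Xj (j + 1) : ℝ) / Xj j)
    Filter.atTop (nhds 1) := by
  have h1 : Filter.Tendsto (fun j : ℕ => (Xj (j + 1) : ℝ) / Real.exp (Real.sqrt ((j + 1 : ℕ) : ℝ)))
      Filter.atTop (nhds 1) := intp_Xj_div.comp (Filter.tendsto_add_atTop_nat 1)
  have h2 := (Real.continuous_exp.tendsto 0).comp intp_sqrt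
  rw [Real.exp_zero] at h2
  have h3 := (h1.mul h2).mul (intp_Xj_div.inv₀ one_ne_zero)
  rw [mul_one, one_mul, inv_one] at h3
  refine h3.congr fun j => ?_
  have h4 : (0 : ℝ) < Xj j := by exact_mod_cast intp_Xj_pos j
  have h5 := Real.exp_pos (Real.sqrt ((j + 1 : ℕ) : ℝ))
  have h6 := Real.exp_pos (Real.sqrt (j : ℝ))
  rw [Function.comp_apply, Real.exp_sub]
  field_simp

theorem intp_log_atTop : Filter.Tendsto (fun j : ℕ => Real.log (Xj j)) Filter.atTop
    Filter.atTop :=
  Real.tendsto_log_atTop.comp (tendsto_natCast_atTop_atTop.comp intp_Xj_atTop)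

theorem intp_log_ratio : Filter.Tendsto (fun j : ℕ => Real.log (Xj j) / Real.log (Xj (j + 1)))
    Filter.atTop (nhds 1) := by
  have h1 : Filter.Tendsto (fun j : ℕ => Real.log (Xj (j + 1))) Filter.atTop Filter.atTop :=
    intp_log_atTop.comp (Filter.tendsto_add_atTop_nat 1)
  have h2 : Filter.Tendsto (fun j : ℕ => Real.log ((Xj (j + 1) : ℝ) / Xj j)) Filter.atTop
      (nhds 0) := by
    have h3 := (Real.continuousAt_log one_ne_zero).tendsto.comp intp_ratio
    rwa [Real.log_one] at h3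
  have h3 := (h2.div_atTop h1).const_sub 1
  rw [sub_zero] at h3
  refine h3.congr' ?_
  filter_upwards [h1.eventually_gt_atTop 0] with j hj
  have h4 : (0 : ℝ) < Xj j := by exact_mod_cast intp_Xj_pos j
  have h5 : (0 : ℝ) < Xj (j + 1) := by exact_mod_cast intp_Xj_pos (j + 1)
  rw [Real.log_div h5.ne' h4.ne']
  field_simp
  ring

theorem intp_idx : ∃ J : ℕ → ℕ, Filter.Tendsto J Filter.atTop Filter.atTop ∧
    ∀ X : ℕ, 1 ≤ X → Xj (J X) ≤ X ∧ X < Xj (J X + 1) := by
  have hex : ∀ X : ℕ, ∃ j, X < Xj (j + 1) := by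
    intro X
    obtain ⟨j, hj⟩ := ((intp_Xj_atTop.comp (Filter.tendsto_add_atTop_nat 1)).eventually_gt_atTop
      X).exists
    exact ⟨j, hj⟩
  refine ⟨fun X => Nat.find (hex X), ?_, ?_⟩
  · rw [Filter.tendsto_atTop]
    intro M
    filter_upwards [Filter.eventually_ge_atTop (Xj M)] with X hX
    by_contra hlt
    have h1 : Nat.find (hex X) + 1 ≤ M := by omega
    have h2 := Nat.find_spec (hex X)
    have h3 := intp_Xj_mono h1
    omega
  · intro X hX
    refine ⟨?_, Nat.find_spec (hex X)⟩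
    rcases Nat.eq_zero_or_pos (Nat.find (hex X)) with h0 | h0
    · simp only [h0]
      have h1 : Xj 0 = 1 := by
        unfold Xj
        simp
      omega
    · have h1 := Nat.find_min (hex X) (m := Nat.find (hex X) - 1) (by omega)
      rw [Nat.sub_add_cancel h0] at h1
      exact not_lt.1 h1

theorem V_all (α : ℝ) (h : ∀ t : ℝ, 0 < t → Filter.Tendsto
      (fun j : ℕ => V α (Xj j) (t * Real.log (Xj j) / Xj j) * Real.log (Xj j) / Xj j)
      Filter.atTop (nhds t)) (t : ℝ) (ht : 0 < t) :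
    Filter.Tendsto (fun X : ℕ => V α X (t * Real.log X / X) * Real.log X / X) Filter.atTop (nhds t) := by
  obtain ⟨J, hJ, hJX⟩ := intp_idx
  have hJ1 : Filter.Tendsto (fun X => J X + 1) Filter.atTop Filter.atTop :=
    (Filter.tendsto_add_atTop_nat 1).comp hJ
  have h' : ∀ s : ℝ, 0 < s → Filter.Tendsto
      (fun j : ℕ => V α (Xj j) (s * (Real.log (Xj j) / Xj j)) * (Real.log (Xj j) / Xj j))
      Filter.atTop (nhds s) := by
    intro s hs
    refine (h s hs).congr fun j => ?_
    rw [mul_div_assoc, mul_div_assoc]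
  -- facts for large `X`
  have hlog0 : ∀ᶠ X in Filter.atTop, 0 < Real.log (Xj (J X)) :=
    (intp_log_atTop.comp hJ).eventually_gt_atTop 0
  have hfacts : ∀ᶠ X : ℕ in Filter.atTop, (0 : ℝ) < Xj (J X) ∧ (Xj (J X) : ℝ) ≤ X ∧
      (X : ℝ) ≤ Xj (J X + 1) ∧ 0 < Real.log (Xj (J X)) ∧ Real.log (Xj (J X)) ≤ Real.log X ∧
      Real.log X ≤ Real.log (Xj (J X + 1)) := by
    filter_upwards [hlog0, Filter.eventually_ge_atTop 1] with X h1 h2
    obtain ⟨h3, h4⟩ := hJX X h2
    have h5 : (0 : ℝ) < Xj (J X) := by exact_mod_cast intp_Xj_pos (J X)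
    have h6 : (Xj (J X) : ℝ) ≤ X := by exact_mod_cast h3
    have h7 : (X : ℝ) ≤ Xj (J X + 1) := by exact_mod_cast h4.le
    exact ⟨h5, h6, h7, h1, Real.log_le_log h5 h6, Real.log_le_log (h5.trans_le h6) h7⟩
  have hr := intp_ratio.comp hJ
  have hlr := intp_log_ratio.comp hJ
  have hr' := hr.inv₀ one_ne_zero
  have hlr' := hlr.inv₀ one_ne_zero
  rw [inv_one] at hr' hlr'
  -- upper bound
  have hup : Filter.Tendsto (fun X : ℕ => V α (Xj (J X + 1)) (t * (Real.log X / X)) *
      (Real.log X / X)) Filter.atTop (nhds t) := by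
    have hq : Filter.Tendsto (fun X : ℕ => (Real.log X / X) /
        (Real.log (Xj (J X + 1)) / Xj (J X + 1))) Filter.atTop (nhds 1) := by
      refine tendsto_of_tendsto_of_tendsto_of_le_of_le' hlr hr ?_ ?_
      · filter_upwards [hfacts] with X ⟨h1, h2, h3, h4, h5, h6⟩
        have h7 : (0 : ℝ) < X := h1.trans_le h2
        have h8 : (0 : ℝ) < Xj (J X + 1) := h7.trans_le h3
        have h9 : 0 < Real.log X := h4.trans_le h5
        have h10 : 0 < Real.log (Xj (J X + 1)) := h9.trans_le h6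
        rw [Function.comp_apply, div_div_div_eq, div_le_div_iff₀ h10 (by positivity)]
        calc Real.log (Xj (J X)) * (X * Real.log (Xj (J X + 1))) ≤
            Real.log X * (Xj (J X + 1) * Real.log (Xj (J X + 1))) := by gcongr
          _ = _ := by ring
      · filter_upwards [hfacts] with X ⟨h1, h2, h3, h4, h5, h6⟩
        have h7 : (0 : ℝ) < X := h1.trans_le h2
        have h8 : (0 : ℝ) < Xj (J X + 1) := h7.trans_le h3
        have h9 : 0 < Real.log X := h4.trans_le h5
        have h10 : 0 < Real.log (Xj (J X + 1)) := h9.trans_le h6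
        rw [Function.comp_apply, div_div_div_eq, div_le_div_iff₀ (by positivity) h1]
        calc Real.log X * Xj (J X + 1) * Xj (J X) ≤
            Real.log (Xj (J X + 1)) * Xj (J X + 1) * X := by gcongr
          _ = _ := by ring
    have h1 := intp_scale α (fun X => Xj (J X + 1))
      (fun X => Real.log (Xj (J X + 1)) / Xj (J X + 1)) _
      (Filter.Eventually.of_forall fun X => div_nonneg
        (Real.log_nonneg (by exact_mod_cast intp_Xj_pos _)) (Nat.cast_nonneg _)) hq
      (fun s hs => (h' s hs).comp hJ1) t ht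
    refine h1.congr' ?_
    filter_upwards [hfacts] with X ⟨h1, h2, h3, h4, h5, h6⟩
    have h7 : (0 : ℝ) < X := h1.trans_le h2
    have h8 : (0 : ℝ) < Xj (J X + 1) := h7.trans_le h3
    have h9 : 0 < Real.log X := h4.trans_le h5
    have h10 : 0 < Real.log (Xj (J X + 1)) := h9.trans_le h6
    rw [div_mul_cancel₀ _ (by positivity)]
  -- lower bound
  have hlow : Filter.Tendsto (fun X : ℕ => V α (Xj (J X)) (t * (Real.log X / X)) *
      (Real.log X / X)) Filter.atTop (nhds t) := by
    have hq : Filter.Tendsto (fun X : ℕ => (Real.log X / X) /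
        (Real.log (Xj (J X)) / Xj (J X))) Filter.atTop (nhds 1) := by
      refine tendsto_of_tendsto_of_tendsto_of_le_of_le' hr' hlr' ?_ ?_
      · filter_upwards [hfacts] with X ⟨h1, h2, h3, h4, h5, h6⟩
        have h7 : (0 : ℝ) < X := h1.trans_le h2
        have h8 : (0 : ℝ) < Xj (J X + 1) := h7.trans_le h3
        have h9 : 0 < Real.log X := h4.trans_le h5
        rw [Function.comp_apply, inv_div, div_div_div_eq, div_le_div_iff₀ h8 (by positivity)]
        calc Xj (J X) * (X * Real.log (Xj (J X))) ≤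
            Xj (J X) * (Xj (J X + 1) * Real.log X) := by gcongr
          _ = _ := by ring
      · filter_upwards [hfacts] with X ⟨h1, h2, h3, h4, h5, h6⟩
        have h7 : (0 : ℝ) < X := h1.trans_le h2
        have h8 : (0 : ℝ) < Xj (J X + 1) := h7.trans_le h3
        have h9 : 0 < Real.log X := h4.trans_le h5
        rw [Function.comp_apply, inv_div, div_div_div_eq, div_le_div_iff₀ (by positivity) h4]
        calc Real.log X * Xj (J X) * Real.log (Xj (J X)) ≤
            Real.log (Xj (J X + 1)) * X * Real.log (Xj (J X)) := by gcongr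
          _ = _ := by ring
    have h1 := intp_scale α (fun X => Xj (J X))
      (fun X => Real.log (Xj (J X)) / Xj (J X)) _
      (Filter.Eventually.of_forall fun X => div_nonneg
        (Real.log_nonneg (by exact_mod_cast intp_Xj_pos _)) (Nat.cast_nonneg _)) hq
      (fun s hs => (h' s hs).comp hJ) t ht
    refine h1.congr' ?_
    filter_upwards [hfacts] with X ⟨h1, h2, h3, h4, h5, h6⟩
    rw [div_mul_cancel₀ _ (by positivity)]
  refine tendsto_of_tendsto_of_tendsto_of_le_of_le' hlow hup ?_ ?_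
  · filter_upwards [Filter.eventually_ge_atTop 1] with X hX
    have h0 : 0 ≤ Real.log X / X := div_nonneg (Real.log_nonneg (by exact_mod_cast hX))
      (Nat.cast_nonneg _)
    rw [mul_div_assoc, mul_div_assoc]
    exact mul_le_mul_of_nonneg_right (V_mono α _ _ _ _ (hJX X hX).1 le_rfl) h0
  · filter_upwards [Filter.eventually_ge_atTop 1] with X hX
    have h0 : 0 ≤ Real.log X / X := div_nonneg (Real.log_nonneg (by exact_mod_cast hX))
      (Nat.cast_nonneg _)
    rw [mul_div_assoc, mul_div_assoc]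
    exact mul_le_mul_of_nonneg_right (V_mono α _ _ _ _ (hJX X hX).2.le le_rfl) h0

theorem V_prime (α : ℝ) (h : ∀ t : ℝ, 0 < t → Filter.Tendsto
      (fun X : ℕ => V α X (t * Real.log X / X) * Real.log X / X) Filter.atTop (nhds t))
    (t : ℝ) (ht : 0 < t) :
    Filter.Tendsto (fun N : ℕ => V α (Nat.nth Nat.Prime (N - 1)) (t / N) / N) Filter.atTop (nhds t) := by
  have hp : Filter.Tendsto (fun N : ℕ => Nat.nth Nat.Prime (N - 1)) Filter.atTop Filter.atTop :=
    (Nat.nth_strictMono Nat.infinite_setOfPred_prime).tendsto_atTop.comp (Filter.tendsto_sub_atTop_nat 1)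
  have hc : Filter.Tendsto (fun N : ℕ => (N : ℝ) * (Real.log (Nat.nth Nat.Prime (N - 1)) /
      (Nat.nth Nat.Prime (N - 1) : ℕ))) Filter.atTop (nhds 1) := by
    have h1 := Pool.Agent.H90.tendsto_primeCounting.comp (tendsto_natCast_atTop_atTop.comp hp)
    refine h1.congr' ?_
    filter_upwards [Filter.eventually_ge_atTop 1] with N hN
    have h2 : Nat.primeCounting (Nat.nth Nat.Prime (N - 1)) = N := by
      rw [Nat.primeCounting, Nat.primeCounting', Nat.count_succ,
        Nat.count_nth_of_infinite Nat.infinite_setOfPred_prime,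
        if_pos (Nat.nth_mem_of_infinite Nat.infinite_setOfPred_prime _)]
      omega
    simp only [Function.comp_apply, Nat.floor_natCast]
    rw [h2, div_eq_mul_inv, inv_div]
  have hq := hc.inv₀ one_ne_zero
  rw [inv_one] at hq
  have h1 := intp_scale α (fun N => Nat.nth Nat.Prime (N - 1))
    (fun N => Real.log (Nat.nth Nat.Prime (N - 1)) / (Nat.nth Nat.Prime (N - 1) : ℕ)) _
    (Filter.Eventually.of_forall fun N => div_nonneg (Real.log_natCast_nonneg _)
      (Nat.cast_nonneg _)) hq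
    (fun s hs => by
      refine ((h s hs).comp hp).congr fun N => ?_
      rw [Function.comp_apply, mul_div_assoc, mul_div_assoc]) t ht
  refine h1.congr' ?_
  filter_upwards [Filter.eventually_ge_atTop 1] with N hN
  have h2 : 1 < Nat.nth Nat.Prime (N - 1) :=
    (Nat.nth_mem_of_infinite Nat.infinite_setOfPred_prime (N - 1)).one_lt
  have h3 : (1 : ℝ) < (Nat.nth Nat.Prime (N - 1) : ℕ) := by exact_mod_cast h2
  have h4 := Real.log_pos h3
  have h5 : (0 : ℝ) < N := by exact_mod_cast hN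
  have h6 : ((N : ℝ) * (Real.log (Nat.nth Nat.Prime (N - 1)) /
      (Nat.nth Nat.Prime (N - 1) : ℕ)))⁻¹ * (Real.log (Nat.nth Nat.Prime (N - 1)) /
      (Nat.nth Nat.Prime (N - 1) : ℕ)) = (N : ℝ)⁻¹ := by
    rw [mul_inv, mul_assoc, inv_mul_cancel₀ (by positivity), mul_one]
  rw [h6, ← div_eq_mul_inv, ← div_eq_mul_inv]

end Pool.Agent.H1.PP
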