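import Pool.Agent.H1.PP.Wr
import Pool.Agent.H1.PP.Intp

/-!
# PP-42 Ppc: Poissonian pair correlations from the counts

PROOF.  `F_N(t) = PC (xs α) N t / N → t` for every `t > 0` (`PC_sub_V`, `V_prime`).  By symmetry (exchange `m, n`) the number of
pairs with `-t < N (x_m - x_n) < 0` is the same, and `x_m ≠ x_n` for `m ≠ n` (`α` irrational, `p_m ≠ p_n`).  For an
interval with end points `a ≤ b` and `Ioo a b ⊆ R ⊆ Icc a b` we compare with the counts `D_N(u)` of the pairs with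
`-M < N (x_m - x_n) < u` for a fixed large `M`; `D_N(u)/N → u + M` for every `u ∈ (-M, M)`, and the count for `R` lies
between `D_N(b) - D_N(a + ε)` and `D_N(b + ε) - D_N(a)`.
-/

set_option autoImplicit false

open Finset

namespace Pool.Agent.H1.PP

open Pool.Agent.H10.RP (ee nd Lam)

/-- number of pairs with `u < N (x_m - x_n) < v` -/
noncomputable def ppcF (x : ℕ → ℝ) (N : ℕ) (u v : ℝ) : ℝ :=
  (((Icc 1 N ×ˢ Icc 1 N).filter (fun p : ℕ × ℕ => p.1 ≠ p.2 ∧ u < (N : ℝ) * (x p.1 - x p.2) ∧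
    (N : ℝ) * (x p.1 - x p.2) < v)).card : ℝ)

theorem ppcF_zero (x : ℕ → ℝ) (N : ℕ) (t : ℝ) : ppcF x N 0 t = PC x N t := rfl

theorem ppcF_symm (x : ℕ → ℝ) (N : ℕ) (u v : ℝ) : ppcF x N u v = ppcF x N (-v) (-u) := by
  unfold ppcF
  congr 1
  refine Finset.card_bij' (fun p _ => p.swap) (fun p _ => p.swap) ?_ ?_ ?_ ?_
  · intro p hp
    simp only [mem_filter, mem_product, Prod.fst_swap, Prod.snd_swap] at hp ⊢
    refine ⟨⟨hp.1.2, hp.1.1⟩, Ne.symm hp.2.1, ?_, ?_⟩ <;> nlinarith [hp.2.2.1, hp.2.2.2]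
  · intro p hp
    simp only [mem_filter, mem_product, Prod.fst_swap, Prod.snd_swap] at hp ⊢
    refine ⟨⟨hp.1.2, hp.1.1⟩, Ne.symm hp.2.1, ?_, ?_⟩ <;> nlinarith [hp.2.2.1, hp.2.2.2]
  · intro p _
    exact Prod.swap_swap p
  · intro p _
    exact Prod.swap_swap p

theorem ppcF_le_add (x : ℕ → ℝ) (N : ℕ) {u v v' w : ℝ} (h : v < v') :
    ppcF x N u w ≤ ppcF x N u v' + ppcF x N v w := by
  unfold ppcF
  rw [← Nat.cast_add, Nat.cast_le]
  refine le_trans (Finset.card_le_card ?_) (Finset.card_union_le _ _)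
  intro p hp
  simp only [mem_filter, mem_product, mem_union] at hp ⊢
  by_cases h1 : (N : ℝ) * (x p.1 - x p.2) < v'
  · exact Or.inl ⟨hp.1, hp.2.1, hp.2.2.1, h1⟩
  · exact Or.inr ⟨hp.1, hp.2.1, lt_of_lt_of_le h (not_lt.1 h1), hp.2.2.2⟩

theorem ppcF_add_le (x : ℕ → ℝ) (N : ℕ) {u v w : ℝ} (h1 : u ≤ v) (h2 : v ≤ w) :
    ppcF x N u v + ppcF x N v w ≤ ppcF x N u w := by
  unfold ppcF
  rw [← Nat.cast_add, Nat.cast_le, ← Finset.card_union_of_disjoint]
  · refine Finset.card_le_card ?_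
    intro p hp
    simp only [mem_filter, mem_product, mem_union] at hp ⊢
    rcases hp with hp | hp
    · exact ⟨hp.1, hp.2.1, hp.2.2.1, lt_of_lt_of_le hp.2.2.2 h2⟩
    · exact ⟨hp.1, hp.2.1, lt_of_le_of_lt h1 hp.2.2.1, hp.2.2.2⟩
  · rw [Finset.disjoint_left]
    intro p hp hq
    simp only [mem_filter, mem_product] at hp hq
    linarith [hp.2.2.2, hq.2.2.1]

theorem ppcF_split (x : ℕ → ℝ) (hx : ∀ m n : ℕ, 1 ≤ m → 1 ≤ n → m ≠ n → x m ≠ x n) (N : ℕ)
    {u v : ℝ} (hu : u ≤ 0) (hv : 0 ≤ v) : ppcF x N u v = ppcF x N u 0 + ppcF x N 0 v := by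
  refine le_antisymm ?_ (ppcF_add_le x N hu hv)
  unfold ppcF
  rw [← Nat.cast_add, Nat.cast_le]
  refine le_trans (Finset.card_le_card ?_) (Finset.card_union_le _ _)
  intro p hp
  simp only [mem_filter, mem_product, mem_union, mem_Icc] at hp ⊢
  have hN : (0 : ℝ) < N := by
    have : 1 ≤ N := hp.1.1.1.trans hp.1.1.2
    exact_mod_cast this
  have hne : (N : ℝ) * (x p.1 - x p.2) ≠ 0 :=
    mul_ne_zero hN.ne' (sub_ne_zero.2 (hx _ _ hp.1.1.1 hp.1.2.1 hp.2.1))
  rcases lt_or_gt_of_ne hne with h | h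
  · exact Or.inl ⟨hp.1, hp.2.1, hp.2.2.1, h⟩
  · exact Or.inr ⟨hp.1, hp.2.1, h, hp.2.2.2⟩

theorem ppc_squeeze {f : ℕ → ℝ} {L : ℝ}
    (h : ∀ ε : ℝ, 0 < ε → ∃ g k : ℕ → ℝ, (∀ᶠ n in Filter.atTop, g n ≤ f n) ∧
      (∀ᶠ n in Filter.atTop, f n ≤ k n) ∧ Filter.Tendsto g Filter.atTop (nhds (L - ε)) ∧
      Filter.Tendsto k Filter.atTop (nhds (L + ε))) :
    Filter.Tendsto f Filter.atTop (nhds L) := by
  rw [tendsto_order]
  constructor
  · intro a ha
    obtain ⟨g, k, h1, -, h3, -⟩ := h ((L - a) / 2) (by linarith)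
    have h4 := (tendsto_order.1 h3).1 a (by linarith)
    filter_upwards [h1, h4] with n hn hn'
    linarith
  · intro a ha
    obtain ⟨g, k, -, h2, -, h3⟩ := h ((a - L) / 2) (by linarith)
    have h4 := (tendsto_order.1 h3).2 a (by linarith)
    filter_upwards [h2, h4] with n hn hn'
    linarith

theorem ppc_E (x : ℕ → ℝ) (hx : ∀ m n : ℕ, 1 ≤ m → 1 ≤ n → m ≠ n → x m ≠ x n)
    (h : ∀ t : ℝ, 0 < t → Filter.Tendsto (fun N : ℕ => PC x N t / N) Filter.atTop (nhds t))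
    {M u : ℝ} (hM : 0 < M) (hu : -M < u) :
    Filter.Tendsto (fun N : ℕ => ppcF x N (-M) u / N) Filter.atTop (nhds (M + u)) := by
  have hneg : ∀ N, ppcF x N (-M) 0 = PC x N M := by
    intro N
    rw [ppcF_symm, neg_zero, neg_neg, ppcF_zero]
  rcases lt_trichotomy u 0 with hu0 | hu0 | hu0
  · refine ppc_squeeze fun ε hε => ?_
    refine ⟨fun N => (PC x N M - PC x N (-u + ε)) / N, fun N => (PC x N M - PC x N (-u)) / N + ε,
      Filter.Eventually.of_forall fun N => ?_, Filter.Eventually.of_forall fun N => ?_, ?_, ?_⟩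
    · have h1 := ppcF_le_add x N (u := 0) (v := -u) (v' := -u + ε) (w := M) (by linarith)
      rw [ppcF_zero, ppcF_zero] at h1
      have h2 : ppcF x N (-M) u = ppcF x N (-u) M := by rw [ppcF_symm, neg_neg]
      rw [h2]
      exact div_le_div_of_nonneg_right (by linarith) (Nat.cast_nonneg N)
    · have h1 := ppcF_add_le x N (u := 0) (v := -u) (w := M) (by linarith) (by linarith)
      rw [ppcF_zero, ppcF_zero] at h1
      have h2 : ppcF x N (-M) u = ppcF x N (-u) M := by rw [ppcF_symm, neg_neg]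
      rw [h2]
      have h3 : ppcF x N (-u) M / N ≤ (PC x N M - PC x N (-u)) / N :=
        div_le_div_of_nonneg_right (by linarith) (Nat.cast_nonneg N)
      linarith
    · have h1 := (h M hM).sub (h (-u + ε) (by linarith))
      have h2 : M - (-u + ε) = M + u - ε := by ring
      rw [h2] at h1
      refine h1.congr fun N => ?_
      rw [sub_div]
    · have h1 := ((h M hM).sub (h (-u) (by linarith))).add_const ε
      have h2 : M - -u + ε = M + u + ε := by ring
      rw [h2] at h1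
      refine h1.congr fun N => ?_
      rw [sub_div]
  · subst hu0
    rw [add_zero]
    refine (h M hM).congr fun N => ?_
    rw [hneg]
  · refine ((h M hM).add (h u hu0)).congr fun N => ?_
    rw [ppcF_split x hx N (by linarith) hu0.le, hneg, ppcF_zero, add_div]

theorem ppc_of_PC (x : ℕ → ℝ) (hx : ∀ m n : ℕ, 1 ≤ m → 1 ≤ n → m ≠ n → x m ≠ x n)
    (h : ∀ t : ℝ, 0 < t → Filter.Tendsto (fun N : ℕ => PC x N t / N) Filter.atTop (nhds t)) : PPC x := by
  intro a b R hab hR1 hR2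
  set M : ℝ := |a| + |b| + 1 with hMdef
  have hM : 0 < M := by positivity
  have ha : -M < a := by
    have := neg_abs_le a
    have := abs_nonneg b
    linarith
  have hb : -M < b := by linarith
  refine ppc_squeeze fun ε hε => ?_
  refine ⟨fun N => ppcF x N (-M) b / N - ppcF x N (-M) (a + ε) / N,
    fun N => ppcF x N (-M) (b + ε) / N - ppcF x N (-M) a / N,
    Filter.Eventually.of_forall fun N => ?_, Filter.Eventually.of_forall fun N => ?_, ?_, ?_⟩
  · have h1 := ppcF_le_add x N (u := -M) (v := a) (v' := a + ε) (w := b) (by linarith)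
    have h2 : ppcF x N a b ≤ (Set.ncard {p : ℕ × ℕ | p.1 ∈ Set.Icc 1 N ∧ p.2 ∈ Set.Icc 1 N ∧
        p.1 ≠ p.2 ∧ (N : ℝ) * (x p.1 - x p.2) ∈ R} : ℝ) := by
      unfold ppcF
      rw [Nat.cast_le, ← Set.ncard_coe_finset]
      refine Set.ncard_le_ncard ?_ ?_
      · intro p hp
        simp only [coe_filter, mem_product, mem_Icc, Set.mem_ofPred_eq] at hp
        exact ⟨hp.1.1, hp.1.2, hp.2.1, hR1 hp.2.2⟩
      · refine Set.Finite.subset ((Set.finite_Icc 1 N).prod (Set.finite_Icc 1 N)) ?_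
        intro p hp
        exact ⟨hp.1, hp.2.1⟩
    simp only
    rw [← sub_div]
    exact div_le_div_of_nonneg_right (by linarith) (Nat.cast_nonneg N)
  · have h2 : ppcF x N (-M) a + (Set.ncard {p : ℕ × ℕ | p.1 ∈ Set.Icc 1 N ∧ p.2 ∈ Set.Icc 1 N ∧
        p.1 ≠ p.2 ∧ (N : ℝ) * (x p.1 - x p.2) ∈ R} : ℝ) ≤ ppcF x N (-M) (b + ε) := by
      have h3 : Set.ncard {p : ℕ × ℕ | p.1 ∈ Set.Icc 1 N ∧ p.2 ∈ Set.Icc 1 N ∧
          p.1 ≠ p.2 ∧ (N : ℝ) * (x p.1 - x p.2) ∈ R} ≤
          ((Icc 1 N ×ˢ Icc 1 N).filter (fun p : ℕ × ℕ => p.1 ≠ p.2 ∧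
            a ≤ (N : ℝ) * (x p.1 - x p.2) ∧ (N : ℝ) * (x p.1 - x p.2) ≤ b)).card := by
        rw [← Set.ncard_coe_finset]
        refine Set.ncard_le_ncard ?_ (Finset.finite_toSet _)
        rintro p ⟨h4, h5, h6, h7⟩
        have h8 := hR2 h7
        simp only [coe_filter, mem_product, mem_Icc, Set.mem_ofPred_eq]
        exact ⟨⟨h4, h5⟩, h6, h8.1, h8.2⟩
      refine le_trans (add_le_add_right (Nat.cast_le.2 h3) _) ?_
      unfold ppcF
      rw [← Nat.cast_add, Nat.cast_le, ← Finset.card_union_of_disjoint]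
      · refine Finset.card_le_card ?_
        intro p hp
        simp only [mem_filter, mem_product, mem_union] at hp ⊢
        rcases hp with hp | hp
        · exact ⟨hp.1, hp.2.1, hp.2.2.1, by linarith [hp.2.2.2]⟩
        · exact ⟨hp.1, hp.2.1, by linarith [hp.2.2.1], by linarith [hp.2.2.2]⟩
      · rw [Finset.disjoint_left]
        intro p hp hq
        simp only [mem_filter, mem_product] at hp hq
        linarith [hp.2.2.2, hq.2.2.1]
    simp only
    rw [← sub_div]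
    exact div_le_div_of_nonneg_right (by linarith) (Nat.cast_nonneg N)
  · have h1 := (ppc_E x hx h hM hb).sub (ppc_E x hx h hM (u := a + ε) (by linarith))
    have h2 : M + b - (M + (a + ε)) = b - a - ε := by ring
    rw [h2] at h1
    exact h1
  · have h1 := (ppc_E x hx h hM (u := b + ε) (by linarith)).sub (ppc_E x hx h hM ha)
    have h2 : M + (b + ε) - (M + a) = b - a + ε := by ring
    rw [h2] at h1
    exact h1

theorem xs_inj (α : ℝ) (hα : Irrational α) (m n : ℕ) (hm : 1 ≤ m) (hn : 1 ≤ n) (hmn : m ≠ n) :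
    xs α m ≠ xs α n := by
  intro h
  unfold xs at h
  rw [Int.fract_eq_fract] at h
  obtain ⟨z, hz⟩ := h
  have hp : Nat.nth Nat.Prime (m - 1) ≠ Nat.nth Nat.Prime (n - 1) := by
    intro h1
    have := Nat.nth_injective Nat.infinite_setOfPred_prime h1
    omega
  have hd : ((Nat.nth Nat.Prime (m - 1) : ℝ) - Nat.nth Nat.Prime (n - 1)) ≠ 0 := by
    rw [sub_ne_zero]
    exact_mod_cast hp
  have h2 : α = ((z : ℚ) / ((Nat.nth Nat.Prime (m - 1) : ℚ) - (Nat.nth Nat.Prime (n - 1) : ℚ)) : ℚ) := by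
    push_cast
    rw [eq_div_iff hd]
    linarith
  exact hα ⟨_, h2.symm⟩

theorem ppc_of_V (α : ℝ) (hα : BadlyApprox α) (h : ∀ t : ℝ, 0 < t → Filter.Tendsto
      (fun X : ℕ => V α X (t * Real.log X / X) * Real.log X / X) Filter.atTop (nhds t)) :
    PPC (xs α) := by
  refine ppc_of_PC (xs α) (xs_inj α hα.1) fun t ht => ?_
  have h1 := (PC_sub_V α hα t ht).add (V_prime α h t ht)
  rw [zero_add] at h1
  refine h1.congr fun N => ?_
  rw [← add_div, sub_add_cancel]

end Pool.Agent.H1.PP
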