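import Pool.Agent.H1.PP.AsA
import Pool.Agent.H1.PP.AlB
import Pool.Agent.H1.PP.Cnt
import Pool.Agent.H1.PP.Ppc
import Pool.Agent.H1.PP.Dm

/-!
# PP-44 Final: the theorem

For each `s ≥ 50`: `exists_model`, `VL_lim`, `al_bad`, `V_of_VL` (with `Y = Xj`), `V_all`, `ppc_of_V` show that for almost every
`ω` the number `al (w ω)` is badly approximable with `PPC`, so the dimension is at least `1 - 1/s` (`dim_lower`).  The
dimension of a subset of the real line is at most `1` (`Real.dimH_univ` and monotonicity).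
-/

set_option autoImplicit false

open Finset MeasureTheory

namespace Pool.Agent.H1.PP

open Pool.Agent.H10.RP (ee nd Lam)

theorem main : dimH {α : ℝ | BadlyApprox α ∧ PPC (xs α)} = 1 := by
  apply le_antisymm
  · calc dimH {α : ℝ | BadlyApprox α ∧ PPC (xs α)} ≤ dimH (Set.univ : Set ℝ) :=
        dimH_mono (Set.subset_univ _)
      _ = 1 := Real.dimH_univ
  · have h1 : ∀ s : ℕ, 50 ≤ s → ENNReal.ofReal (1 - 1 / s) ≤
        dimH {α : ℝ | BadlyApprox α ∧ PPC (xs α)} := by
      intro s hs
      obtain ⟨Ω, _, μ, _, w, hw⟩ := exists_model s hs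
      refine dim_lower s hs μ w hw _ ?_
      filter_upwards [VL_lim s hs μ w hw] with ω hω
      have hb : BadlyApprox (al (w ω)) := al_bad s (by omega) (w ω) (hw.1 ω)
      refine ⟨hb, ppc_of_V _ hb ?_⟩
      exact V_all _ fun t ht => V_of_VL _ hb Xj Xj_tendsto t ht (hω t ht)
    have h2 : Filter.Tendsto (fun s : ℕ => ENNReal.ofReal (1 - 1 / (s : ℝ))) Filter.atTop (nhds 1) := by
      have h3 : Filter.Tendsto (fun s : ℕ => 1 - 1 / (s : ℝ)) Filter.atTop (nhds (1 - 0)) :=
        tendsto_const_nhds.sub tendsto_one_div_atTop_nhds_zero_nat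
      have h4 := ENNReal.tendsto_ofReal h3
      simpa using h4
    refine le_of_tendsto' (b := dimH {α : ℝ | BadlyApprox α ∧ PPC (xs α)})
      (h2.comp (Filter.tendsto_add_atTop_nat 50)) ?_
    intro s
    exact h1 (s + 50) (by omega)

end Pool.Agent.H1.PP
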