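import Pool.Agent.H1.PP.Defs
import Pool.Agent.H10.RP.Sine

/-!
# PP-38 HSc: few shifts

PROOF.  Let `c > 0` with `c ≤ n nd (n α)` for `n ≥ 1`.  If `h < h'` are in `HS α X δ` then `nd ((h'-h) α) < 2 δ`
(`nd` is subadditive), so `c/(h'-h) < 2 δ` and `h' - h > c/(2 δ)`.  So `HS α X δ ⊆ [1, X)` is `c/(2δ)`-separated and has at
most `2 δ X / c + 1` elements.
`HS_mono`, `V_mono`: monotonicity in `X` and `δ` (all terms are nonnegative).
-/

set_option autoImplicit false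

open Finset

namespace Pool.Agent.H1.PP

open Pool.Agent.H10.RP (ee nd Lam)

theorem HS_card (α : ℝ) (hα : BadlyApprox α) : ∃ C : ℝ, 0 < C ∧ ∀ (X : ℕ) (δ : ℝ), 0 < δ →
    ((HS α X δ).card : ℝ) ≤ C * (δ * X + 1) := by
  obtain ⟨-, c, hc, hcn⟩ := hα
  refine ⟨max (2 / c) 1, lt_max_of_lt_right one_pos, fun X δ hδ => ?_⟩
  have hg : 0 < c / (2 * δ) := by positivity
  have hsep : ∀ h ∈ HS α X δ, ∀ h' ∈ HS α X δ, h < h' → c / (2 * δ) < (h' : ℝ) - h := by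
    intro h hh h' hh' hlt
    simp only [HS, mem_filter, mem_Ico] at hh hh'
    have h1 : nd (((h' - h : ℕ) : ℝ) * α) < 2 * δ := by
      have e : ((h' - h : ℕ) : ℝ) * α = (h' : ℝ) * α + -((h : ℝ) * α) := by
        rw [Nat.cast_sub hlt.le]
        ring
      rw [e]
      refine (Pool.Agent.H10.RP.nd_add_le _ _).trans_lt ?_
      rw [Pool.Agent.H10.RP.nd_neg]
      linarith [hh.2, hh'.2]
    have h2 := hcn (h' - h) (by omega)
    have h3 : c ≤ ((h' - h : ℕ) : ℝ) * nd (((h' - h : ℕ) : ℝ) * α) := h2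
    have h4 : (0 : ℝ) < ((h' - h : ℕ) : ℝ) := by
      exact_mod_cast (by omega : 0 < h' - h)
    rw [div_lt_iff₀ (by positivity), ← Nat.cast_sub hlt.le]
    calc c ≤ ((h' - h : ℕ) : ℝ) * nd (((h' - h : ℕ) : ℝ) * α) := h3
      _ < ((h' - h : ℕ) : ℝ) * (2 * δ) := by gcongr
  have hinj : Set.InjOn (fun h : ℕ => ⌊(h : ℝ) / (c / (2 * δ))⌋₊) (HS α X δ : Set ℕ) := by
    have key : ∀ h ∈ HS α X δ, ∀ h' ∈ HS α X δ, h < h' →
        ⌊(h : ℝ) / (c / (2 * δ))⌋₊ < ⌊(h' : ℝ) / (c / (2 * δ))⌋₊ := by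
      intro h hh h' hh' hlt
      have h1 := hsep h hh h' hh' hlt
      rw [Nat.lt_iff_add_one_le, Nat.le_floor_iff (by positivity)]
      push_cast
      have h2 : (⌊(h : ℝ) / (c / (2 * δ))⌋₊ : ℝ) ≤ (h : ℝ) / (c / (2 * δ)) :=
        Nat.floor_le (by positivity)
      have h3 : (h : ℝ) / (c / (2 * δ)) + 1 ≤ (h' : ℝ) / (c / (2 * δ)) := by
        rw [div_add_one hg.ne']
        gcongr
        linarith
      linarith
    intro h hh h' hh' heq
    have heq' : ⌊(h : ℝ) / (c / (2 * δ))⌋₊ = ⌊(h' : ℝ) / (c / (2 * δ))⌋₊ := heq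
    rcases lt_trichotomy h h' with h1 | h1 | h1
    · have := key h hh h' hh' h1
      omega
    · exact h1
    · have := key h' hh' h hh h1
      omega
  have hmaps : ∀ h ∈ HS α X δ, ⌊(h : ℝ) / (c / (2 * δ))⌋₊ ∈ range (⌊(X : ℝ) / (c / (2 * δ))⌋₊ + 1) := by
    intro h hh
    simp only [HS, mem_filter, mem_Ico] at hh
    rw [mem_range, Nat.lt_succ_iff]
    apply Nat.floor_le_floor
    have : (h : ℝ) ≤ X := by exact_mod_cast hh.1.2.le
    gcongr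
  have hcard := card_le_card_of_injOn _ hmaps hinj
  rw [card_range] at hcard
  have h1 : ((HS α X δ).card : ℝ) ≤ (⌊(X : ℝ) / (c / (2 * δ))⌋₊ : ℝ) + 1 := by exact_mod_cast hcard
  have h2 : (⌊(X : ℝ) / (c / (2 * δ))⌋₊ : ℝ) ≤ (X : ℝ) / (c / (2 * δ)) :=
    Nat.floor_le (by positivity)
  have h3 : (X : ℝ) / (c / (2 * δ)) = 2 / c * (δ * X) := by
    field_simp
  have h2' := h2.trans h3.le
  have h4 : 2 / c * (δ * X) ≤ max (2 / c) 1 * (δ * X) := by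
    gcongr
    exact le_max_left _ _
  have h5 : (1 : ℝ) ≤ max (2 / c) 1 := le_max_right _ _
  have h6 : max (2 / c) 1 * (δ * X + 1) = max (2 / c) 1 * (δ * X) + max (2 / c) 1 := by ring
  linarith

theorem HS_mono (α : ℝ) (X X' : ℕ) (δ δ' : ℝ) (hX : X ≤ X') (hδ : δ ≤ δ') :
    HS α X δ ⊆ HS α X' δ' := by
  intro h hh
  simp only [HS, mem_filter, mem_Ico] at hh ⊢
  exact ⟨⟨hh.1.1, hh.1.2.trans_le hX⟩, hh.2.trans_le hδ⟩

theorem V_mono (α : ℝ) (X X' : ℕ) (δ δ' : ℝ) (hX : X ≤ X') (hδ : δ ≤ δ') : V α X δ ≤ V α X' δ' := by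
  unfold V
  refine (sum_le_sum (fun h _ => ?_)).trans
    (sum_le_sum_of_subset_of_nonneg (HS_mono α X X' δ δ' hX hδ) (fun h _ _ => Nat.cast_nonneg _))
  have h1 : (Icc 1 (X - h)).filter (fun n => n.Prime ∧ (n + h).Prime) ⊆
      (Icc 1 (X' - h)).filter (fun n => n.Prime ∧ (n + h).Prime) := by
    apply filter_subset_filter
    apply Icc_subset_Icc le_rfl
    omega
  exact_mod_cast card_le_card h1

theorem V_nonneg (α : ℝ) (X : ℕ) (δ : ℝ) : 0 ≤ V α X δ := by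
  exact sum_nonneg fun _ _ => Nat.cast_nonneg _

end Pool.Agent.H1.PP
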