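import Pool.Agent.H1.PP.Defs

/-!
# PP-26 LPa: shifts `h` with `‖h α‖` small are lattice points

`P = [[A, B], [C, D]]`, `A D - B C = 1`, `C, D > 0`, `Rep P β α`: `1 ≤ β ≤ 2`, `α (C β + D) = A β + B`, `s = sz P β = C β + D`.

PROOF.  For integers `a1, a2` put `h = a1 C + a2 D`, `m = a1 A + a2 B`; `(a1, a2) ↦ (h, m)` is a bijection of `ℤ²`
(determinant `C B - D A = -1`), and `s (h α - m) = a2 β - a1`.
`mem_Om`: with `u = lf P a`, `v = a2 β - a1` one has `s a2 = u + C v`, `s a1 = β u - D v`; so `0 < u < X`, `|v| < w`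
imply `|a2| ≤ X + w`, `|a1| ≤ 2 X + w` (`s ≥ C + D ≥ 2`, `C ≤ s`, `D ≤ s`), so the box in the definition of `Om` is no
restriction.
`HS_sum`: if `1 ≤ h < X` and `nd (h α) < δ ≤ 1/2`, take `m = round (h α)` and the corresponding `a`; conversely if
`|h α - m| < δ ≤ 1/2` then `m = round (h α)`.  So `a ↦ lf P a` is a bijection `Om P β X (δ s) → HS α X δ`.
-/

set_option autoImplicit false

open Finset

namespace Pool.Agent.H1.PP

open Pool.Agent.H10.RP (ee nd Lam)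

theorem lpa_cast (P : M2) (a : ℤ × ℤ) :
    ((lf P a : ℤ) : ℝ) = (a.1 : ℝ) * P 1 0 + (a.2 : ℝ) * P 1 1 := by
  unfold lf
  push_cast
  ring

theorem lpa_bound (P : M2) (β : ℝ) (X : ℕ) (w : ℝ) (hC : 0 < P 1 0) (hD : 0 < P 1 1) (hβ : 1 ≤ β)
    (hβ' : β ≤ 2) (a : ℤ × ℤ) (h1 : 0 < lf P a) (h2 : lf P a < X)
    (h3 : |(a.2 : ℝ) * β - a.1| < w) :
    1 ≤ sz P β ∧ |(a.1 : ℝ)| ≤ 2 * X / sz P β + w ∧ |(a.2 : ℝ)| ≤ X / sz P β + w := by
  have hCr : (1 : ℝ) ≤ (P 1 0 : ℝ) := by exact_mod_cast hC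
  have hDr : (1 : ℝ) ≤ (P 1 1 : ℝ) := by exact_mod_cast hD
  have hs : (P 1 0 : ℝ) + P 1 1 ≤ sz P β := by
    unfold sz
    nlinarith
  have hs1 : 1 ≤ sz P β := by linarith
  have hs0 : 0 < sz P β := by linarith
  have hu1 : (0 : ℝ) < (lf P a : ℤ) := by exact_mod_cast h1
  have hu2 : ((lf P a : ℤ) : ℝ) < X := by exact_mod_cast h2
  rw [lpa_cast] at hu1 hu2
  have hw : 0 < w := lt_of_le_of_lt (abs_nonneg _) h3
  rw [abs_lt] at h3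
  have e1 : sz P β * a.2 = ((a.1 : ℝ) * P 1 0 + (a.2 : ℝ) * P 1 1) + P 1 0 * ((a.2 : ℝ) * β - a.1) := by
    unfold sz
    ring
  have e2 : sz P β * a.1 = β * ((a.1 : ℝ) * P 1 0 + (a.2 : ℝ) * P 1 1) - P 1 1 * ((a.2 : ℝ) * β - a.1) := by
    unfold sz
    ring
  have k1 : (P 1 0 : ℝ) * ((a.2 : ℝ) * β - a.1) ≤ P 1 0 * w :=
    mul_le_mul_of_nonneg_left h3.2.le (by linarith)
  have k2 : -((P 1 0 : ℝ) * w) ≤ (P 1 0 : ℝ) * ((a.2 : ℝ) * β - a.1) := by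
    have := mul_le_mul_of_nonneg_left h3.1.le (by linarith : (0 : ℝ) ≤ P 1 0)
    linarith
  have k3 : (P 1 1 : ℝ) * ((a.2 : ℝ) * β - a.1) ≤ P 1 1 * w :=
    mul_le_mul_of_nonneg_left h3.2.le (by linarith)
  have k4 : -((P 1 1 : ℝ) * w) ≤ (P 1 1 : ℝ) * ((a.2 : ℝ) * β - a.1) := by
    have := mul_le_mul_of_nonneg_left h3.1.le (by linarith : (0 : ℝ) ≤ P 1 1)
    linarith
  have k5 : (P 1 0 : ℝ) * w ≤ sz P β * w := mul_le_mul_of_nonneg_right (by linarith) hw.le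
  have k6 : (P 1 1 : ℝ) * w ≤ sz P β * w := mul_le_mul_of_nonneg_right (by linarith) hw.le
  have k7 : β * ((a.1 : ℝ) * P 1 0 + (a.2 : ℝ) * P 1 1) ≤ 2 * X := by nlinarith
  have k8 : 0 ≤ β * ((a.1 : ℝ) * P 1 0 + (a.2 : ℝ) * P 1 1) := by positivity
  have hX0 : (0 : ℝ) ≤ X := Nat.cast_nonneg X
  refine ⟨hs1, ?_, ?_⟩
  · have e3 : 2 * X / sz P β + w = (2 * X + sz P β * w) / sz P β := by field_simp
    rw [e3, le_div_iff₀ hs0, ← abs_of_pos hs0, ← abs_mul, abs_of_pos hs0, mul_comm (a.1 : ℝ), abs_le]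
    constructor <;> linarith
  · have e3 : X / sz P β + w = (X + sz P β * w) / sz P β := by field_simp
    rw [e3, le_div_iff₀ hs0, ← abs_of_pos hs0, ← abs_mul, abs_of_pos hs0, mul_comm (a.2 : ℝ), abs_le]
    constructor <;> linarith

theorem mem_Om (P : M2) (β : ℝ) (X : ℕ) (w : ℝ) (hC : 0 < P 1 0) (hD : 0 < P 1 1) (hβ : 1 ≤ β)
    (hβ' : β ≤ 2) (a : ℤ × ℤ) :
    a ∈ Om P β X w ↔ 0 < lf P a ∧ lf P a < X ∧ |(a.2 : ℝ) * β - a.1| < w := by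
  unfold Om
  rw [mem_filter]
  refine ⟨fun h => h.2, fun h => ⟨?_, h⟩⟩
  obtain ⟨hs, h1, h2⟩ := lpa_bound P β X w hC hD hβ hβ' a h.1 h.2.1 h.2.2
  have hX0 : (0 : ℝ) ≤ X := Nat.cast_nonneg X
  have k1 : 2 * (X : ℝ) / sz P β ≤ 2 * X := div_le_self (by positivity) hs
  have k2 : (X : ℝ) / sz P β ≤ X := div_le_self hX0 hs
  have k3 : w ≤ ⌈w⌉₊ := Nat.le_ceil w
  have k4 : |(a.1 : ℝ)| ≤ ((2 * X + ⌈w⌉₊ : ℕ) : ℝ) := by push_cast; linarith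
  have k5 : |(a.2 : ℝ)| ≤ ((2 * X + ⌈w⌉₊ : ℕ) : ℝ) := by push_cast; linarith
  rw [mem_product, mem_Icc, mem_Icc]
  rw [abs_le] at k4 k5
  refine ⟨⟨?_, ?_⟩, ?_, ?_⟩
  · exact_mod_cast k4.1
  · exact_mod_cast k4.2
  · exact_mod_cast k5.1
  · exact_mod_cast k5.2

theorem Om_bound (P : M2) (β : ℝ) (X : ℕ) (w : ℝ) (hC : 0 < P 1 0) (hD : 0 < P 1 1) (hβ : 1 ≤ β)
    (hβ' : β ≤ 2) (a : ℤ × ℤ) (ha : a ∈ Om P β X w) :
    |(a.1 : ℝ)| ≤ 2 * X / sz P β + w ∧ |(a.2 : ℝ)| ≤ X / sz P β + w ∧ a ≠ 0 := by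
  rw [mem_Om P β X w hC hD hβ hβ'] at ha
  obtain ⟨hs, h1, h2⟩ := lpa_bound P β X w hC hD hβ hβ' a ha.1 ha.2.1 ha.2.2
  refine ⟨h1, h2, ?_⟩
  rintro rfl
  have := ha.1
  simp [lf] at this

theorem lpa_key (P : M2) (β α : ℝ) (hdet : P 0 0 * P 1 1 - P 0 1 * P 1 0 = 1) (hR : Rep P β α)
    (a : ℤ × ℤ) :
    sz P β * (((lf P a : ℤ) : ℝ) * α - ((a.1 * P 0 0 + a.2 * P 0 1 : ℤ) : ℝ)) =
      (a.2 : ℝ) * β - a.1 := by
  have hdetr : (P 0 0 : ℝ) * P 1 1 - P 0 1 * P 1 0 = 1 := by exact_mod_cast hdet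
  have h := hR.2.2
  have e : sz P β * α = (P 0 0 : ℝ) * β + P 0 1 := by
    unfold sz
    linarith
  have e2 : sz P β * (((lf P a : ℤ) : ℝ) * α - ((a.1 * P 0 0 + a.2 * P 0 1 : ℤ) : ℝ)) =
      ((lf P a : ℤ) : ℝ) * (sz P β * α) - sz P β * ((a.1 * P 0 0 + a.2 * P 0 1 : ℤ) : ℝ) := by ring
  rw [e2, e, lpa_cast]
  unfold sz
  push_cast
  linear_combination ((a.2 : ℝ) * β - a.1) * hdetr

theorem HS_sum (P : M2) (β α : ℝ) (X : ℕ) (δ : ℝ) (hdet : P 0 0 * P 1 1 - P 0 1 * P 1 0 = 1)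
    (hC : 0 < P 1 0) (hD : 0 < P 1 1) (hR : Rep P β α) (hδ : 0 < δ) (hδ' : δ ≤ 1 / 2) (F : ℤ → ℂ) :
    ∑ h ∈ HS α X δ, F h = ∑ a ∈ Om P β X (δ * sz P β), F (lf P a) := by
  have hβ := hR.1
  have hβ' := hR.2.1
  have hCr : (1 : ℝ) ≤ (P 1 0 : ℝ) := by exact_mod_cast hC
  have hDr : (1 : ℝ) ≤ (P 1 1 : ℝ) := by exact_mod_cast hD
  have hs0 : 0 < sz P β := by
    unfold sz
    nlinarith
  -- the distance to the integer of a lattice point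
  have hdist : ∀ a : ℤ × ℤ, |(a.2 : ℝ) * β - a.1| < δ * sz P β ↔
      |((lf P a : ℤ) : ℝ) * α - ((a.1 * P 0 0 + a.2 * P 0 1 : ℤ) : ℝ)| < δ := by
    intro a
    rw [← lpa_key P β α hdet hR a, abs_mul, abs_of_pos hs0, mul_comm (sz P β),
      mul_lt_mul_iff_left₀ hs0]
  symm
  refine sum_nbij (fun a => (lf P a).toNat) ?_ ?_ ?_ ?_
  · intro a ha
    rw [mem_Om P β X _ hC hD hβ hβ'] at ha
    obtain ⟨h1, h2, h3⟩ := ha
    rw [hdist] at h3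
    unfold HS
    rw [mem_filter, mem_Ico]
    refine ⟨⟨by omega, by omega⟩, ?_⟩
    have e : (((lf P a).toNat : ℕ) : ℝ) = ((lf P a : ℤ) : ℝ) := by
      have : (((lf P a).toNat : ℕ) : ℤ) = lf P a := Int.toNat_of_nonneg h1.le
      exact_mod_cast this
    unfold nd
    rw [e]
    exact lt_of_le_of_lt (round_le _ _) h3
  · intro a ha b hb hab
    rw [mem_coe, mem_Om P β X _ hC hD hβ hβ'] at ha hb
    have h1 : lf P a = lf P b := by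
      have e1 : (((lf P a).toNat : ℕ) : ℤ) = lf P a := Int.toNat_of_nonneg ha.1.le
      have e2 : (((lf P b).toNat : ℕ) : ℤ) = lf P b := Int.toNat_of_nonneg hb.1.le
      rw [← e1, ← e2]
      exact congrArg _ hab
    have h2 := (hdist a).1 ha.2.2
    have h3 := (hdist b).1 hb.2.2
    rw [← h1] at h3
    rw [abs_lt] at h2 h3
    have h4 : a.1 * P 0 0 + a.2 * P 0 1 = b.1 * P 0 0 + b.2 * P 0 1 := by
      have h5 : ((a.1 * P 0 0 + a.2 * P 0 1 : ℤ) : ℝ) < ((b.1 * P 0 0 + b.2 * P 0 1 : ℤ) : ℝ) + 1 := by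
        linarith
      have h6 : ((b.1 * P 0 0 + b.2 * P 0 1 : ℤ) : ℝ) < ((a.1 * P 0 0 + a.2 * P 0 1 : ℤ) : ℝ) + 1 := by
        linarith
      have h5' : (a.1 * P 0 0 + a.2 * P 0 1 : ℤ) < (b.1 * P 0 0 + b.2 * P 0 1 : ℤ) + 1 := by
        exact_mod_cast h5
      have h6' : (b.1 * P 0 0 + b.2 * P 0 1 : ℤ) < (a.1 * P 0 0 + a.2 * P 0 1 : ℤ) + 1 := by
        exact_mod_cast h6
      omega
    unfold lf at h1
    have k1 : a.1 = b.1 := by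
      linear_combination (-(a.1) + b.1) * hdet + P 1 1 * h4 - P 0 1 * h1
    have k2 : a.2 = b.2 := by
      linear_combination (-(a.2) + b.2) * hdet + P 0 0 * h1 - P 1 0 * h4
    exact Prod.ext k1 k2
  · intro h hh
    rw [mem_coe] at hh
    unfold HS at hh
    rw [mem_filter, mem_Ico] at hh
    obtain ⟨⟨h1, h2⟩, h3⟩ := hh
    set m : ℤ := round ((h : ℝ) * α) with hm
    have e1 : lf P (m * P 1 1 - h * P 0 1, h * P 0 0 - m * P 1 0) = h := by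
      unfold lf
      simp only
      linear_combination (h : ℤ) * hdet
    have e2 : (m * P 1 1 - h * P 0 1) * P 0 0 + (h * P 0 0 - m * P 1 0) * P 0 1 = m := by
      linear_combination m * hdet
    refine ⟨(m * P 1 1 - h * P 0 1, h * P 0 0 - m * P 1 0), ?_, ?_⟩
    · rw [mem_coe, mem_Om P β X _ hC hD hβ hβ', hdist, e1]
      refine ⟨by exact_mod_cast h1, by exact_mod_cast h2, ?_⟩
      simp only
      rw [e2]
      unfold nd at h3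
      exact_mod_cast h3
    · simp only [e1]
      simp
  · intro a ha
    rw [mem_Om P β X _ hC hD hβ hβ'] at ha
    have e : (((lf P a).toNat : ℕ) : ℤ) = lf P a := Int.toNat_of_nonneg ha.1.le
    rw [e]

end Pool.Agent.H1.PP
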