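import Pool.Agent.H1.PP.LPa

/-!
# PP-27 LPb: counting lattice points

PROOF of `Om_count`.  Let `u(z) = C z1 + D z2`, `v(z) = β z2 - z1` for `z ∈ ℝ²`; the linear map `z ↦ (u, v)` has determinant
`s = C β + D` in absolute value, so the area of `{0 < u < U, v ∈ (v0, v1)}` is `U (v1 - v0)/s`.  Attach to each integer point
`a` the unit square `a + [0,1)²`.  On it `u` varies in `[u(a), u(a) + C + D)`, `C + D ≤ s`, and `v` in
`(v(a) - 1, v(a) + 2)` (`β ≤ 2`).  So the squares of the points of `Om P β (Y+1) w` (`0 < u(a) ≤ Y`, `|v(a)| < w`) are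
disjoint and lie in `{0 < u < Y + s, -w - 1 < v < w + 2}`: `card ≤ (Y + s)(2 w + 3)/s = 2wY/s + 3Y/s + 2w + 3`.
Conversely every real `z` with `s ≤ u(z) ≤ Y`, `-w + 2 ≤ v(z) ≤ w - 1` lies in the square of the integer point
`⌊z⌋` which is in `Om P β (Y+1) w` (`u(⌊z⌋) > u(z) - C - D ≥ 0`): if `Y ≥ s` and `2 w ≥ 3`:
`card ≥ (Y - s)(2w - 3)/s ≥ 2wY/s - 3Y/s - 2w`; if `Y < s` or `2 w < 3` this lower bound is `≤ 0` or trivial as well:
`2wY/s - 2w < 0`, respectively `2wY/s - 3Y/s < 0`.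

PROOF of `Om_weighted`.  `∑_{a ∈ Om X} (X - lf P a) = ∑_{Y=1}^{X-1} card (Om P β (Y+1) w)` (count for each `a` the `Y` with
`lf P a ≤ Y ≤ X - 1`), and `∑_{Y=1}^{X-1} 2wY/s = w X (X-1)/s`.
-/

set_option autoImplicit false

open Finset

namespace Pool.Agent.H1.PP

open Pool.Agent.H10.RP (ee nd Lam)

open MeasureTheory in
/-- area of a parallelogram -/
theorem lpb_area (C D β u0 u1 v0 v1 : ℝ) (hs : 0 < C * β + D) (hu : u0 ≤ u1) :
    volume {z : Fin 2 → ℝ | C * z 0 + D * z 1 ∈ Set.Ioo u0 u1 ∧ β * z 1 - z 0 ∈ Set.Ioo v0 v1} =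
      ENNReal.ofReal ((u1 - u0) * (v1 - v0) / (C * β + D)) := by
  let A : Matrix (Fin 2) (Fin 2) ℝ := !![C, D; -1, β]
  have hdet : LinearMap.det (Matrix.toLin' A) = C * β + D := by
    rw [LinearMap.det_toLin', Matrix.det_fin_two_of]
    ring
  have h1 : {z : Fin 2 → ℝ | C * z 0 + D * z 1 ∈ Set.Ioo u0 u1 ∧
      β * z 1 - z 0 ∈ Set.Ioo v0 v1} =
      (Matrix.toLin' A) ⁻¹' (Set.pi Set.univ fun i => Set.Ioo (![u0, v0] i) (![u1, v1] i)) := by
    ext z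
    simp only [Set.mem_ofPred_eq, Set.mem_preimage, Set.mem_univ_pi, Fin.forall_fin_two]
    have e0 : Matrix.toLin' A z 0 = C * z 0 + D * z 1 := by
      simp [A, Matrix.toLin'_apply, Matrix.mulVec, dotProduct, Fin.sum_univ_two]
    have e1 : Matrix.toLin' A z 1 = β * z 1 - z 0 := by
      simp [A, Matrix.toLin'_apply, Matrix.mulVec, dotProduct, Fin.sum_univ_two]
      ring
    rw [e0, e1]
    simp
  rw [h1, Measure.addHaar_preimage_linearMap volume (by rw [hdet]; exact hs.ne'), hdet,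
    Real.volume_pi_Ioo, Fin.prod_univ_two]
  simp only [Matrix.cons_val_zero, Matrix.cons_val_one]
  rw [← ENNReal.ofReal_mul (by linarith), ← ENNReal.ofReal_mul (abs_nonneg _),
    abs_of_pos (inv_pos.2 hs)]
  congr 1
  field_simp

/-- the box in the definition of `Om` is harmless -/
theorem lpb_mem (P : M2) (β : ℝ) (X : ℕ) (w : ℝ) (hC : 0 < P 1 0) (hD : 0 < P 1 1) (hβ : 1 ≤ β)
    (hβ' : β ≤ 2) (hw : 0 ≤ w) (a : ℤ × ℤ) :
    a ∈ Om P β X w ↔ 0 < lf P a ∧ lf P a < X ∧ |(a.2 : ℝ) * β - a.1| < w := by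
  unfold Om
  rw [mem_filter, mem_product, mem_Icc, mem_Icc]
  refine ⟨fun h => h.2, fun h => ⟨?_, h⟩⟩
  obtain ⟨h1, h2, h3⟩ := h
  have hC' : (1 : ℝ) ≤ (P 1 0 : ℝ) := by exact_mod_cast hC
  have hD' : (1 : ℝ) ≤ (P 1 1 : ℝ) := by exact_mod_cast hD
  have h1' : (0 : ℝ) < (a.1 : ℝ) * (P 1 0 : ℝ) + (a.2 : ℝ) * (P 1 1 : ℝ) := by
    have := (Int.cast_lt (R := ℝ)).2 h1
    unfold lf at this
    push_cast at this
    exact this
  have h2' : (a.1 : ℝ) * (P 1 0 : ℝ) + (a.2 : ℝ) * (P 1 1 : ℝ) < X := by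
    have := (Int.cast_lt (R := ℝ)).2 h2
    unfold lf at this
    push_cast at this
    exact this
  rw [abs_lt] at h3
  obtain ⟨h3, h4⟩ := h3
  set C : ℝ := (P 1 0 : ℝ)
  set D : ℝ := (P 1 1 : ℝ)
  have hX : (0 : ℝ) ≤ X := Nat.cast_nonneg X
  have hs : 0 < C * β + D := by nlinarith
  have hs1 : 1 ≤ C * β + D := by nlinarith
  have hsC : C ≤ C * β + D := by nlinarith
  have hsD : D ≤ C * β + D := by nlinarith
  have e2 : (a.2 : ℝ) * (C * β + D) = (a.1 * C + a.2 * D) + C * (a.2 * β - a.1) := by ring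
  have e1 : (a.1 : ℝ) * (C * β + D) = β * (a.1 * C + a.2 * D) - D * (a.2 * β - a.1) := by ring
  have b1 : (a.2 : ℝ) ≤ X + w := by
    by_contra hcon
    push Not at hcon
    have : (X + w) * (C * β + D) < (a.2 : ℝ) * (C * β + D) := mul_lt_mul_of_pos_right hcon hs
    nlinarith
  have b2 : -w ≤ (a.2 : ℝ) := by
    by_contra hcon
    push Not at hcon
    have : (a.2 : ℝ) * (C * β + D) < (-w) * (C * β + D) := mul_lt_mul_of_pos_right hcon hs
    nlinarith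
  have b3 : (a.1 : ℝ) ≤ 2 * X + w := by
    by_contra hcon
    push Not at hcon
    have : (2 * X + w) * (C * β + D) < (a.1 : ℝ) * (C * β + D) :=
      mul_lt_mul_of_pos_right hcon hs
    nlinarith
  have b4 : -w ≤ (a.1 : ℝ) := by
    by_contra hcon
    push Not at hcon
    have : (a.1 : ℝ) * (C * β + D) < (-w) * (C * β + D) := mul_lt_mul_of_pos_right hcon hs
    nlinarith
  have hceil : w ≤ (⌈w⌉₊ : ℝ) := Nat.le_ceil w
  refine ⟨⟨?_, ?_⟩, ⟨?_, ?_⟩⟩ <;>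
  · rw [← Int.cast_le (R := ℝ)]
    push_cast
    linarith

/-- unit squares -/
def lpbSq (a : ℤ × ℤ) : Set (Fin 2 → ℝ) :=
  Set.pi Set.univ fun i => Set.Ico (![(a.1 : ℝ), (a.2 : ℝ)] i) (![(a.1 : ℝ) + 1, (a.2 : ℝ) + 1] i)

theorem lpb_mem_sq (a : ℤ × ℤ) (z : Fin 2 → ℝ) :
    z ∈ lpbSq a ↔ ((a.1 : ℝ) ≤ z 0 ∧ z 0 < a.1 + 1) ∧ ((a.2 : ℝ) ≤ z 1 ∧ z 1 < a.2 + 1) := by
  unfold lpbSq
  simp [Set.mem_univ_pi, Fin.forall_fin_two]

open MeasureTheory in
theorem lpb_sq_vol (a : ℤ × ℤ) : volume (lpbSq a) = 1 := by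
  unfold lpbSq
  rw [Real.volume_pi_Ico, Fin.prod_univ_two]
  simp

theorem lpb_sq_disj (a b : ℤ × ℤ) (hab : a ≠ b) : Disjoint (lpbSq a) (lpbSq b) := by
  rw [Set.disjoint_left]
  intro z hz hz'
  rw [lpb_mem_sq] at hz hz'
  obtain ⟨⟨h1, h2⟩, h3, h4⟩ := hz
  obtain ⟨⟨h5, h6⟩, h7, h8⟩ := hz'
  apply hab
  have e1 : a.1 = b.1 := by
    have h9 : (a.1 : ℝ) < b.1 + 1 := by linarith
    have h10 : (b.1 : ℝ) < a.1 + 1 := by linarith
    have h9' : a.1 < b.1 + 1 := by exact_mod_cast h9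
    have h10' : b.1 < a.1 + 1 := by exact_mod_cast h10
    omega
  have e2 : a.2 = b.2 := by
    have h9 : (a.2 : ℝ) < b.2 + 1 := by linarith
    have h10 : (b.2 : ℝ) < a.2 + 1 := by linarith
    have h9' : a.2 < b.2 + 1 := by exact_mod_cast h9
    have h10' : b.2 < a.2 + 1 := by exact_mod_cast h10
    omega
  exact Prod.ext e1 e2

open MeasureTheory in
theorem lpb_upper (P : M2) (β : ℝ) (Y : ℕ) (w : ℝ) (hC : 0 < P 1 0) (hD : 0 < P 1 1) (hβ : 1 ≤ β)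
    (hβ' : β ≤ 2) (hw : 0 ≤ w) :
    ((Om P β (Y + 1) w).card : ℝ) ≤ (Y + sz P β) * (2 * w + 3) / sz P β := by
  have hC' : (1 : ℝ) ≤ (P 1 0 : ℝ) := by exact_mod_cast hC
  have hD' : (1 : ℝ) ≤ (P 1 1 : ℝ) := by exact_mod_cast hD
  have hY : (0 : ℝ) ≤ Y := Nat.cast_nonneg Y
  have hs : 0 < (P 1 0 : ℝ) * β + (P 1 1 : ℝ) := by nlinarith
  have h1 := lpb_area (P 1 0 : ℝ) (P 1 1 : ℝ) β 0 (Y + sz P β) (-w - 1) (w + 2) hs
    (by unfold sz; linarith)
  have h2 : volume (⋃ a ∈ Om P β (Y + 1) w, lpbSq a) = ((Om P β (Y + 1) w).card : ENNReal) := by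
    rw [measure_biUnion_finset]
    · simp [lpb_sq_vol]
    · intro a _ b _ hab
      exact lpb_sq_disj a b hab
    · intro a _
      exact MeasurableSet.univ_pi fun i => measurableSet_Ico
  have h3 : (⋃ a ∈ Om P β (Y + 1) w, lpbSq a) ⊆
      {z : Fin 2 → ℝ | (P 1 0 : ℝ) * z 0 + (P 1 1 : ℝ) * z 1 ∈ Set.Ioo 0 (Y + sz P β) ∧
        β * z 1 - z 0 ∈ Set.Ioo (-w - 1) (w + 2)} := by
    intro z hz
    simp only [Set.mem_iUnion] at hz
    obtain ⟨a, ha, hz⟩ := hz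
    rw [lpb_mem P β _ w hC hD hβ hβ' hw] at ha
    rw [lpb_mem_sq] at hz
    obtain ⟨⟨z1, z2⟩, z3, z4⟩ := hz
    obtain ⟨a1, a2, a3⟩ := ha
    have a1' : (0 : ℝ) < (a.1 : ℝ) * (P 1 0 : ℝ) + (a.2 : ℝ) * (P 1 1 : ℝ) := by
      have := (Int.cast_lt (R := ℝ)).2 a1
      unfold lf at this
      push_cast at this
      exact this
    have a2' : (a.1 : ℝ) * (P 1 0 : ℝ) + (a.2 : ℝ) * (P 1 1 : ℝ) ≤ Y := by
      have a4 : lf P a ≤ (Y : ℤ) := by
        push_cast at a2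
        omega
      have := (Int.cast_le (R := ℝ)).2 a4
      unfold lf at this
      push_cast at this
      exact this
    rw [abs_lt] at a3
    obtain ⟨a3, a4⟩ := a3
    simp only [Set.mem_ofPred_eq, Set.mem_Ioo]
    unfold sz
    refine ⟨⟨?_, ?_⟩, ?_, ?_⟩
    · nlinarith
    · nlinarith
    · nlinarith
    · nlinarith
  have h4 := measure_mono (μ := volume) h3
  rw [h2, h1] at h4
  have h5 : (0 : ℝ) ≤ (Y + sz P β - 0) * (w + 2 - (-w - 1)) / ((P 1 0 : ℝ) * β + (P 1 1 : ℝ)) := by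
    refine div_nonneg (mul_nonneg ?_ ?_) hs.le
    · unfold sz
      linarith
    · linarith
  rw [← ENNReal.ofReal_natCast, ENNReal.ofReal_le_ofReal_iff h5] at h4
  refine h4.trans (le_of_eq ?_)
  unfold sz
  ring

open MeasureTheory in
theorem lpb_lower (P : M2) (β : ℝ) (Y : ℕ) (w : ℝ) (hC : 0 < P 1 0) (hD : 0 < P 1 1) (hβ : 1 ≤ β)
    (hβ' : β ≤ 2) (hw : 3 ≤ 2 * w) (hY : sz P β ≤ Y) :
    (Y - sz P β) * (2 * w - 3) / sz P β ≤ ((Om P β (Y + 1) w).card : ℝ) := by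
  have hC' : (1 : ℝ) ≤ (P 1 0 : ℝ) := by exact_mod_cast hC
  have hD' : (1 : ℝ) ≤ (P 1 1 : ℝ) := by exact_mod_cast hD
  have hs : 0 < (P 1 0 : ℝ) * β + (P 1 1 : ℝ) := by nlinarith
  have h1 := lpb_area (P 1 0 : ℝ) (P 1 1 : ℝ) β (sz P β) Y (-w + 2) (w - 1) hs hY
  have h2 : volume (⋃ a ∈ Om P β (Y + 1) w, lpbSq a) ≤
      ((Om P β (Y + 1) w).card : ENNReal) := by
    refine (measure_biUnion_finset_le _ _).trans (le_of_eq ?_)
    simp [lpb_sq_vol]
  have h3 : {z : Fin 2 → ℝ | (P 1 0 : ℝ) * z 0 + (P 1 1 : ℝ) * z 1 ∈ Set.Ioo (sz P β) Y ∧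
        β * z 1 - z 0 ∈ Set.Ioo (-w + 2) (w - 1)} ⊆ (⋃ a ∈ Om P β (Y + 1) w, lpbSq a) := by
    intro z hz
    simp only [Set.mem_ofPred_eq, Set.mem_Ioo] at hz
    obtain ⟨⟨z1, z2⟩, z3, z4⟩ := hz
    simp only [Set.mem_iUnion]
    have f1 := Int.floor_le (z 0)
    have f2 := Int.lt_floor_add_one (z 0)
    have f3 := Int.floor_le (z 1)
    have f4 := Int.lt_floor_add_one (z 1)
    refine ⟨(⌊z 0⌋, ⌊z 1⌋), ?_, ?_⟩
    · rw [lpb_mem P β _ w hC hD hβ hβ' (by linarith)]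
      unfold sz at z1
      refine ⟨?_, ?_, ?_⟩
      · rw [← Int.cast_lt (R := ℝ)]
        unfold lf
        push_cast
        nlinarith
      · have : lf P (⌊z 0⌋, ⌊z 1⌋) < (Y : ℤ) + 1 := by
          rw [← Int.cast_lt (R := ℝ)]
          unfold lf
          push_cast
          nlinarith
        push_cast
        exact this
      · rw [abs_lt]
        constructor
        · simp only
          nlinarith
        · simp only
          nlinarith
    · rw [lpb_mem_sq]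
      exact ⟨⟨f1, f2⟩, f3, f4⟩
  have h4 := (measure_mono (μ := volume) h3).trans h2
  rw [h1] at h4
  rw [← ENNReal.ofReal_natCast, ENNReal.ofReal_le_ofReal_iff (Nat.cast_nonneg _)] at h4
  refine (le_of_eq ?_).trans h4
  unfold sz
  ring

theorem Om_count (P : M2) (β : ℝ) (Y : ℕ) (w : ℝ) (hC : 0 < P 1 0) (hD : 0 < P 1 1) (hβ : 1 ≤ β)
    (hβ' : β ≤ 2) (hw : 0 ≤ w) :
    |((Om P β (Y + 1) w).card : ℝ) - 2 * w * Y / sz P β| ≤ 2 * w + 4 * Y / sz P β + 4 := by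
  have hC' : (1 : ℝ) ≤ (P 1 0 : ℝ) := by exact_mod_cast hC
  have hD' : (1 : ℝ) ≤ (P 1 1 : ℝ) := by exact_mod_cast hD
  have hs : 0 < sz P β := by unfold sz; nlinarith
  have hY : (0 : ℝ) ≤ Y := Nat.cast_nonneg Y
  have hYs : (0 : ℝ) ≤ Y / sz P β := div_nonneg hY hs.le
  have hup := lpb_upper P β Y w hC hD hβ hβ' hw
  have e1 : (Y + sz P β) * (2 * w + 3) / sz P β =
      2 * w * (Y / sz P β) + 3 * (Y / sz P β) + 2 * w + 3 := by
    field_simp
    ring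
  have e2 : 2 * w * Y / sz P β = 2 * w * (Y / sz P β) := by ring
  have e3 : 4 * Y / sz P β = 4 * (Y / sz P β) := by ring
  rw [e1] at hup
  rw [e2, e3, abs_le]
  constructor
  · by_cases h1 : sz P β ≤ Y
    · by_cases h2 : 3 ≤ 2 * w
      · have hlow := lpb_lower P β Y w hC hD hβ hβ' h2 h1
        have e4 : (Y - sz P β) * (2 * w - 3) / sz P β =
            2 * w * (Y / sz P β) - 3 * (Y / sz P β) - 2 * w + 3 := by
          field_simp
          ring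
        rw [e4] at hlow
        linarith
      · have h3 : (0 : ℝ) ≤ ((Om P β (Y + 1) w).card : ℝ) := Nat.cast_nonneg _
        nlinarith
    · have h3 : (0 : ℝ) ≤ ((Om P β (Y + 1) w).card : ℝ) := Nat.cast_nonneg _
      have h4 : Y / sz P β ≤ 1 := by
        rw [div_le_one hs]
        linarith
      nlinarith
  · linarith

theorem Om_weighted (P : M2) (β : ℝ) (X : ℕ) (w : ℝ) (hC : 0 < P 1 0) (hD : 0 < P 1 1) (hβ : 1 ≤ β)
    (hβ' : β ≤ 2) (hw : 0 ≤ w) (hX : 1 ≤ X) :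
    |∑ a ∈ Om P β X w, ((X : ℝ) - lf P a) - w * (X : ℝ) ^ 2 / sz P β| ≤
      X * (3 * w + 4 * X / sz P β + 4) := by
  have hC' : (1 : ℝ) ≤ (P 1 0 : ℝ) := by exact_mod_cast hC
  have hD' : (1 : ℝ) ≤ (P 1 1 : ℝ) := by exact_mod_cast hD
  have hs : 1 ≤ sz P β := by unfold sz; nlinarith
  have hX' : (1 : ℝ) ≤ X := by exact_mod_cast hX
  -- the weighted sum as a sum of cardinalities
  have h1 : ∑ a ∈ Om P β X w, ((X : ℝ) - lf P a) =
      ∑ Y ∈ Ico 1 X, ((Om P β (Y + 1) w).card : ℝ) := by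
    have h2 : ∀ a ∈ Om P β X w, ((X : ℝ) - lf P a) =
        ∑ Y ∈ Ico 1 X, if lf P a ≤ (Y : ℤ) then (1 : ℝ) else 0 := by
      intro a ha
      rw [lpb_mem P β _ w hC hD hβ hβ' hw] at ha
      obtain ⟨n, hn⟩ := Int.eq_ofNat_of_zero_le ha.1.le
      have h3 : (Ico 1 X).filter (fun Y : ℕ => lf P a ≤ (Y : ℤ)) = Ico n X := by
        ext Y
        rw [mem_filter, mem_Ico, mem_Ico, hn]
        have := ha.1
        rw [hn] at this
        constructor
        · rintro ⟨⟨h4, h5⟩, h6⟩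
          exact ⟨by exact_mod_cast h6, h5⟩
        · rintro ⟨h4, h5⟩
          refine ⟨⟨?_, h5⟩, by exact_mod_cast h4⟩
          have h7 : 0 < n := by exact_mod_cast this
          omega
      rw [← sum_filter, h3, sum_const, Nat.card_Ico, nsmul_eq_mul, mul_one, hn, Nat.cast_sub]
      · simp
      · have := ha.2.1
        rw [hn] at this
        have h7 : n < X := by exact_mod_cast this
        exact h7.le
    rw [sum_congr rfl h2, sum_comm]
    refine sum_congr rfl fun Y hY => ?_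
    rw [mem_Ico] at hY
    rw [← sum_filter, sum_const, nsmul_eq_mul, mul_one]
    congr 2
    ext a
    rw [mem_filter, lpb_mem P β _ w hC hD hβ hβ' hw, lpb_mem P β _ w hC hD hβ hβ' hw]
    constructor
    · rintro ⟨⟨h4, h5, h6⟩, h7⟩
      refine ⟨h4, ?_, h6⟩
      push_cast
      omega
    · rintro ⟨h4, h5, h6⟩
      push_cast at h5
      refine ⟨⟨h4, ?_, h6⟩, by omega⟩
      have : (Y : ℤ) < X := by exact_mod_cast hY.2
      omega
  have h3 : ∑ Y ∈ Ico 1 X, (2 * w * (Y : ℝ) / sz P β) =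
      w * (X : ℝ) ^ 2 / sz P β - w * X / sz P β := by
    have h4 : ∀ n : ℕ, 1 ≤ n → ∑ Y ∈ Ico 1 n, (2 * w * (Y : ℝ) / sz P β) =
        w * (n : ℝ) ^ 2 / sz P β - w * n / sz P β := by
      intro n hn
      induction n, hn using Nat.le_induction with
      | base => simp
      | succ n hn ih =>
        rw [sum_Ico_succ_top hn, ih]
        push_cast
        ring
    exact h4 X hX
  have h5 : |∑ Y ∈ Ico 1 X, ((Om P β (Y + 1) w).card : ℝ) -
      ∑ Y ∈ Ico 1 X, (2 * w * (Y : ℝ) / sz P β)| ≤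
      ∑ Y ∈ Ico 1 X, (2 * w + 4 * X / sz P β + 4) := by
    rw [← sum_sub_distrib]
    refine (abs_sum_le_sum_abs _ _).trans (sum_le_sum fun Y hY => ?_)
    rw [mem_Ico] at hY
    refine (Om_count P β Y w hC hD hβ hβ' hw).trans ?_
    have h6 : (Y : ℝ) ≤ X := by exact_mod_cast hY.2.le
    have h7 : 4 * (Y : ℝ) / sz P β ≤ 4 * X / sz P β := by
      apply div_le_div_of_nonneg_right _ (by linarith)
      linarith
    linarith
  rw [sum_const, Nat.card_Ico, nsmul_eq_mul, Nat.cast_sub hX] at h5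
  rw [h1]
  have h6 : 0 ≤ 2 * w + 4 * X / sz P β + 4 := by positivity
  have h7 : w * X / sz P β ≤ w * X := div_le_self (by positivity) hs
  have h8 : 0 ≤ w * X / sz P β := by positivity
  have h9 : |∑ Y ∈ Ico 1 X, ((Om P β (Y + 1) w).card : ℝ) - w * (X : ℝ) ^ 2 / sz P β| ≤
      |∑ Y ∈ Ico 1 X, ((Om P β (Y + 1) w).card : ℝ) -
        ∑ Y ∈ Ico 1 X, (2 * w * (Y : ℝ) / sz P β)| + w * X / sz P β := by
    rw [h3]
    have h10 : ∑ Y ∈ Ico 1 X, ((Om P β (Y + 1) w).card : ℝ) - w * (X : ℝ) ^ 2 / sz P β =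
        (∑ Y ∈ Ico 1 X, ((Om P β (Y + 1) w).card : ℝ) -
          (w * (X : ℝ) ^ 2 / sz P β - w * X / sz P β)) + (-(w * X / sz P β)) := by ring
    rw [h10]
    refine (abs_add_le _ _).trans ?_
    rw [abs_neg, abs_of_nonneg h8]
  refine h9.trans ?_
  push_cast at h5
  nlinarith

/-- crude bound for the number of points -/
theorem Om_card (P : M2) (β : ℝ) (X : ℕ) (w : ℝ) (hC : 0 < P 1 0) (hD : 0 < P 1 1) (hβ : 1 ≤ β)
    (hβ' : β ≤ 2) (hw : 0 ≤ w) :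
    ((Om P β X w).card : ℝ) ≤ (4 * X / sz P β + 2 * w + 1) ^ 2 := by
  have hC' : (1 : ℝ) ≤ (P 1 0 : ℝ) := by exact_mod_cast hC
  have hD' : (1 : ℝ) ≤ (P 1 1 : ℝ) := by exact_mod_cast hD
  have hs : 0 < sz P β := by unfold sz; nlinarith
  have hsC : (P 1 0 : ℝ) ≤ sz P β := by unfold sz; nlinarith
  have hX : (0 : ℝ) ≤ X := Nat.cast_nonneg X
  have hcard : ∀ x y : ℝ, x ≤ y + 1 → ((Icc ⌈x⌉ ⌊y⌋).card : ℝ) ≤ y - x + 1 := by
    intro x y hxy
    rw [Int.card_Icc]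
    by_cases h : 0 ≤ ⌊y⌋ + 1 - ⌈x⌉
    · have h1 : (((⌊y⌋ + 1 - ⌈x⌉).toNat : ℕ) : ℝ) = ((⌊y⌋ + 1 - ⌈x⌉ : ℤ) : ℝ) := by
        exact_mod_cast Int.toNat_of_nonneg h
      rw [h1]
      push_cast
      have h2 := Int.floor_le y
      have h3 := Int.le_ceil x
      linarith
    · rw [Int.toNat_of_nonpos (by omega)]
      push_cast
      linarith
  -- rows
  let t : Finset ℤ := Icc ⌈-w⌉ ⌊(X : ℝ) / sz P β + w⌋
  have ht : ∀ a ∈ Om P β X w, a.2 ∈ t := by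
    intro a ha
    rw [lpb_mem P β _ w hC hD hβ hβ' hw] at ha
    obtain ⟨a1, a2, a3⟩ := ha
    have a1' : (0 : ℝ) < (a.1 : ℝ) * (P 1 0 : ℝ) + (a.2 : ℝ) * (P 1 1 : ℝ) := by
      have := (Int.cast_lt (R := ℝ)).2 a1
      unfold lf at this
      push_cast at this
      exact this
    have a2' : (a.1 : ℝ) * (P 1 0 : ℝ) + (a.2 : ℝ) * (P 1 1 : ℝ) ≤ X := by
      have := (Int.cast_lt (R := ℝ)).2 a2
      unfold lf at this
      push_cast at this
      exact this.le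
    rw [abs_lt] at a3
    obtain ⟨a3, a4⟩ := a3
    have e2 : (a.2 : ℝ) * sz P β = (a.1 * (P 1 0 : ℝ) + a.2 * (P 1 1 : ℝ)) +
        (P 1 0 : ℝ) * (a.2 * β - a.1) := by unfold sz; ring
    rw [mem_Icc]
    constructor
    · rw [Int.ceil_le]
      by_contra hcon
      push Not at hcon
      have : (a.2 : ℝ) * sz P β < (-w) * sz P β := mul_lt_mul_of_pos_right hcon hs
      nlinarith
    · rw [Int.le_floor]
      by_contra hcon
      push Not at hcon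
      have h1 : ((X : ℝ) / sz P β + w) * sz P β < (a.2 : ℝ) * sz P β :=
        mul_lt_mul_of_pos_right hcon hs
      rw [add_mul, div_mul_cancel₀ _ hs.ne'] at h1
      nlinarith
  have hn : ∀ b ∈ t, ((Om P β X w).filter (fun a => a.2 = b)).card ≤ ⌊2 * w + 1⌋₊ := by
    intro b _
    rw [Nat.le_floor_iff (by linarith)]
    have h1 : ((Om P β X w).filter (fun a => a.2 = b)).card ≤
        (Icc ⌈(b : ℝ) * β - w⌉ ⌊(b : ℝ) * β + w⌋).card := by
      apply Finset.card_le_card_of_injOn (fun a => a.1)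
      · intro a ha
        rw [mem_coe, mem_filter, lpb_mem P β _ w hC hD hβ hβ' hw] at ha
        obtain ⟨⟨-, -, h3⟩, rfl⟩ := ha
        rw [abs_lt] at h3
        rw [mem_coe, mem_Icc, Int.ceil_le, Int.le_floor]
        constructor <;> linarith
      · intro a ha a' ha' haa
        rw [mem_coe, mem_filter] at ha ha'
        exact Prod.ext haa (ha.2.trans ha'.2.symm)
    have h2 := hcard ((b : ℝ) * β - w) ((b : ℝ) * β + w) (by linarith)
    have h3 : (((Om P β X w).filter (fun a => a.2 = b)).card : ℝ) ≤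
        ((Icc ⌈(b : ℝ) * β - w⌉ ⌊(b : ℝ) * β + w⌋).card : ℝ) := by exact_mod_cast h1
    linarith
  have h1 := Finset.card_le_mul_card_image_of_maps_to ht _ hn
  have h2 : ((Om P β X w).card : ℝ) ≤ (⌊2 * w + 1⌋₊ : ℝ) * (t.card : ℝ) := by exact_mod_cast h1
  have h3 : (⌊2 * w + 1⌋₊ : ℝ) ≤ 2 * w + 1 := Nat.floor_le (by linarith)
  have hXs : 0 ≤ (X : ℝ) / sz P β := div_nonneg hX hs.le
  have h4 : (t.card : ℝ) ≤ (X : ℝ) / sz P β + 2 * w + 1 := by
    have := hcard (-w) ((X : ℝ) / sz P β + w) (by linarith)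
    linarith
  have h5 : (⌊2 * w + 1⌋₊ : ℝ) * (t.card : ℝ) ≤
      (2 * w + 1) * ((X : ℝ) / sz P β + 2 * w + 1) :=
    mul_le_mul h3 h4 (Nat.cast_nonneg _) (by linarith)
  have e : 4 * (X : ℝ) / sz P β = 4 * ((X : ℝ) / sz P β) := by ring
  rw [e]
  nlinarith

end Pool.Agent.H1.PP
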