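import Pool.Agent.H1.PP.Defs
import Pool.Agent.H10.RP.Sine

/-!
# PP-22 LR: the truncated Ramanujan expansion

PROOFS.  `phi_sum`: `q/φ(q) = ∑_{d ∣ q} μ²(d)/φ(d)`, so
`∑_{q ≤ R} 1/φ(q) = ∑_{d ≤ R} (μ²(d)/φ(d)) ∑_{q ≤ R, d ∣ q} 1/q ≤ (1 + log R) ∑_{d} 1/(d φ(d))`, and `φ(d) ≥ √(d/2)`, so the last sum
is at most `1 + 1/2 + ∑_{d ≥ 3} √2 d^(-3/2) ≤ 1.5 + √2 * 2/√2 = 3.5 ≤ 4` (`∑_{d ≥ 3} d^(-3/2) ≤ 2/√2`).

`sum_ee_le`: geometric sum, `|1 - e(θ)| ≥ 4 ‖θ‖`.

`Cor_LamR`: expand both factors.  `LamR R m * conj (LamR R n) = ∑_{q,q'} (μ(q) μ(q')/(φ(q) φ(q'))) ∑_{b,b'} e(b m/q - b' n/q')`.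
With `m = n + h` the sum over the `X - |h|` admissible `n` (consecutive integers) of `e(b h/q) e((b/q - b'/q') n)`:
if `b/q = b'/q'` (then `q = q'`, `b = b'` since the fractions are reduced, `0 ≤ b < q`) we get `(X - |h|) e(b h/q)`, in
total `(X - |h|) SSr R h`.  Otherwise `‖b/q - b'/q'‖ ≥ 1/(q q') ≥ 1/R²`, the geometric sum is at most `R²/2`, and the
number of pairs `(b, b')` is `φ(q) φ(q')`, total `≤ R² * R²/2 ≤ R^4`.

`LamR_sq`: `∑ ‖LamR R n‖² = Cor (LamR R) X 0`, and `‖SSr R 0‖ ≤ ∑_{q ≤ R} 1/φ(q)` as `cq q 0 = φ(q)`.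
`cq_le`: `c_q(h) = ∑_{d ∣ (q,h)} d μ(q/d)`.
-/

set_option autoImplicit false

open Finset

namespace Pool.Agent.H1.PP

open Pool.Agent.H10.RP (ee nd Lam)

private lemma lr_sq_sum (R : ℕ) (hR : 1 ≤ R) : ∑ k ∈ Icc 1 R, (1 : ℝ) / (k : ℝ) ^ 2 ≤ 2 - 1 / R := by
  induction R, hR using Nat.le_induction with
  | base => norm_num
  | succ n hn ih =>
    rw [Finset.sum_Icc_succ_top (by omega)]
    have hn0 : (0 : ℝ) < n := by exact_mod_cast hn
    have h1 : (1 : ℝ) / ((n + 1 : ℕ) : ℝ) ^ 2 ≤ 1 / n - 1 / ((n + 1 : ℕ) : ℝ) := by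
      push_cast
      rw [div_sub_div _ _ hn0.ne' (by positivity), div_le_div_iff₀ (by positivity) (by positivity)]
      nlinarith
    linarith

private lemma lr_div_sum (R : ℕ) (F : ℕ → ℕ → ℝ) (hF : ∀ d k, 0 ≤ F d k) :
    ∑ q ∈ Icc 1 R, ∑ d ∈ q.divisors, F d (q / d) ≤ ∑ d ∈ Icc 1 R, ∑ k ∈ Icc 1 R, F d k := by
  classical
  have h1 : ∀ q ∈ Icc 1 R, ∑ d ∈ q.divisors, F d (q / d) =
      ∑ x ∈ (Icc 1 R ×ˢ Icc 1 R).filter (fun x => x.1 * x.2 ≤ R) with x.1 * x.2 = q, F x.1 x.2 := by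
    intro q hq
    rw [mem_Icc] at hq
    rw [← Nat.sum_divisorsAntidiagonal (fun d k => F d k)]
    apply Finset.sum_congr _ (fun _ _ => rfl)
    ext ⟨d, k⟩
    simp only [Nat.mem_divisorsAntidiagonal, mem_filter, mem_product, mem_Icc]
    constructor
    · rintro ⟨h1, h2⟩
      have hd : 0 < d := Nat.pos_of_ne_zero (by rintro rfl; simp at h1; omega)
      have hk : 0 < k := Nat.pos_of_ne_zero (by rintro rfl; simp at h1; omega)
      have h3 : d ≤ d * k := Nat.le_mul_of_pos_right d hk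
      have h4 : k ≤ d * k := Nat.le_mul_of_pos_left k hd
      refine ⟨⟨⟨⟨by omega, by omega⟩, by omega, by omega⟩, by omega⟩, h1⟩
    · rintro ⟨⟨_, _⟩, h2⟩
      exact ⟨h2, by omega⟩
  rw [Finset.sum_congr rfl h1, Finset.sum_fiberwise_of_maps_to, ← Finset.sum_product']
  · exact Finset.sum_le_sum_of_subset_of_nonneg (Finset.filter_subset _ _) (fun x _ _ => hF _ _)
  · rintro ⟨d, k⟩ hx
    simp only [mem_filter, mem_product, mem_Icc] at hx
    rw [mem_Icc]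
    refine ⟨Nat.one_le_iff_ne_zero.mpr (Nat.mul_ne_zero (by omega) (by omega)), hx.2⟩

private lemma lr_inv_tot (q : ℕ) (hq : 1 ≤ q) :
    (1 : ℝ) / Nat.totient q ≤ 1 / q * ∑ d ∈ q.divisors, (1 : ℝ) / Nat.totient d := by
  have hq0 : (0 : ℝ) < q := by exact_mod_cast hq
  have hφ : (0 : ℝ) < Nat.totient q := by exact_mod_cast Nat.totient_pos.mpr (by omega)
  have h1 : ∀ d ∈ q.divisors, ((q / d).totient : ℝ) / Nat.totient q ≤ (1 : ℝ) / Nat.totient d := by
    intro d hd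
    obtain ⟨k, rfl⟩ := Nat.dvd_of_mem_divisors hd
    have hd0 : 0 < d := Nat.pos_of_mem_divisors hd
    rw [Nat.mul_div_cancel_left k hd0]
    have hφd : (0 : ℝ) < Nat.totient d := by exact_mod_cast Nat.totient_pos.mpr hd0
    rw [div_le_div_iff₀ hφ hφd, one_mul, mul_comm]
    exact_mod_cast Nat.totient_super_multiplicative d k
  have h2 : (q : ℝ) / Nat.totient q ≤ ∑ d ∈ q.divisors, (1 : ℝ) / Nat.totient d := by
    refine le_trans (le_of_eq ?_) (Finset.sum_le_sum h1)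
    rw [← Finset.sum_div, Nat.sum_div_divisors q (fun x => (x.totient : ℝ)), ← Nat.cast_sum,
      Nat.sum_totient]
  calc (1 : ℝ) / Nat.totient q = 1 / q * (q / Nat.totient q) := by field_simp
    _ ≤ _ := mul_le_mul_of_nonneg_left h2 (by positivity)

private lemma lr_sum_dphi (R : ℕ) (hR : 1 ≤ R) :
    ∑ d ∈ Icc 1 R, (1 : ℝ) / d * (1 / Nat.totient d) ≤ 4 := by
  have hR0 : (0 : ℝ) < R := by exact_mod_cast hR
  have h1 : ∑ d ∈ Icc 1 R, (1 : ℝ) / d * (1 / Nat.totient d) ≤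
      ∑ d ∈ Icc 1 R, ∑ e ∈ d.divisors, (1 : ℝ) / (e : ℝ) ^ 2 * (1 / ((d / e : ℕ) : ℝ) ^ 2) := by
    apply Finset.sum_le_sum
    intro d hd
    rw [mem_Icc] at hd
    refine (mul_le_mul_of_nonneg_left (lr_inv_tot d hd.1) (by positivity)).trans ?_
    rw [← mul_assoc, Finset.mul_sum]
    apply Finset.sum_le_sum
    intro e he
    obtain ⟨k, rfl⟩ := Nat.dvd_of_mem_divisors he
    have he0 : 0 < e := Nat.pos_of_mem_divisors he
    rw [Nat.mul_div_cancel_left k he0]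
    have hφ : (1 : ℝ) ≤ Nat.totient e := by exact_mod_cast Nat.totient_pos.mpr he0
    have h2 : (1 : ℝ) / Nat.totient e ≤ 1 := by
      rw [div_le_one (by linarith)]; exact hφ
    refine (mul_le_mul_of_nonneg_left h2 (by positivity)).trans (le_of_eq ?_)
    push_cast
    have he1 : (e : ℝ) ≠ 0 := by exact_mod_cast he0.ne'
    have hk1 : (k : ℝ) ≠ 0 := by
      rintro h
      have : k = 0 := by exact_mod_cast h
      subst this
      simp at hd
    field_simp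
  refine h1.trans ((lr_div_sum R (fun e k => (1 : ℝ) / (e : ℝ) ^ 2 * (1 / (k : ℝ) ^ 2))
    (fun _ _ => by positivity)).trans ?_)
  rw [← Finset.sum_mul_sum]
  have h2 := lr_sq_sum R hR
  have h3 : (0 : ℝ) ≤ 1 / R := by positivity
  have h4 : (0 : ℝ) ≤ ∑ k ∈ Icc 1 R, (1 : ℝ) / (k : ℝ) ^ 2 := Finset.sum_nonneg fun _ _ => by positivity
  nlinarith

theorem phi_sum (R : ℕ) (hR : 1 ≤ R) :
    ∑ q ∈ Icc 1 R, (1 : ℝ) / Nat.totient q ≤ 4 * (1 + Real.log R) := by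
  have h1 : ∑ q ∈ Icc 1 R, (1 : ℝ) / Nat.totient q ≤
      ∑ q ∈ Icc 1 R, ∑ d ∈ q.divisors, (1 : ℝ) / d * (1 / Nat.totient d) * (1 / ((q / d : ℕ) : ℝ)) := by
    apply Finset.sum_le_sum
    intro q hq
    rw [mem_Icc] at hq
    refine (lr_inv_tot q hq.1).trans ?_
    rw [Finset.mul_sum]
    apply Finset.sum_le_sum
    intro d hd
    obtain ⟨k, rfl⟩ := Nat.dvd_of_mem_divisors hd
    have hd0 : 0 < d := Nat.pos_of_mem_divisors hd
    rw [Nat.mul_div_cancel_left k hd0]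
    apply le_of_eq
    push_cast
    ring
  refine h1.trans ((lr_div_sum R (fun d k => (1 : ℝ) / d * (1 / Nat.totient d) * (1 / (k : ℝ)))
    (fun _ _ => by positivity)).trans ?_)
  rw [← Finset.sum_mul_sum]
  have h2 : ∑ k ∈ Icc 1 R, (1 : ℝ) / (k : ℝ) ≤ 1 + Real.log R := by
    have := harmonic_le_one_add_log R
    rw [harmonic_eq_sum_Icc] at this
    push_cast at this
    simpa using this
  have h3 := lr_sum_dphi R hR
  have h4 : (0 : ℝ) ≤ ∑ k ∈ Icc 1 R, (1 : ℝ) / (k : ℝ) := Finset.sum_nonneg fun _ _ => by positivity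
  calc _ ≤ 4 * ∑ k ∈ Icc 1 R, (1 : ℝ) / (k : ℝ) := mul_le_mul_of_nonneg_right h3 h4
    _ ≤ _ := mul_le_mul_of_nonneg_left h2 (by norm_num)

private lemma lr_geom (θ : ℝ) (a b : ℤ) (hab : a ≤ b + 1) :
    (ee θ - 1) * ∑ n ∈ Icc a b, ee (θ * n) = ee (θ * (b + 1)) - ee (θ * a) := by
  obtain ⟨k, hk⟩ := Int.le.dest hab
  induction k generalizing b with
  | zero =>
    have hb : b = a - 1 := by simp at hk; omega
    subst hb
    rw [Finset.Icc_eq_empty (by omega)]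
    simp
  | succ k ih =>
    have hb := ih (b - 1) (by push_cast at hk; omega) (by push_cast at hk; omega)
    have hins : Icc a b = insert b (Icc a (b - 1)) := by
      ext x
      simp only [mem_Icc, mem_insert]
      push_cast at hk
      omega
    rw [hins, Finset.sum_insert (by simp), mul_add, hb]
    have h1 : (ee θ - 1) * ee (θ * b) = ee (θ * (b + 1)) - ee (θ * b) := by
      rw [sub_mul, ← Pool.Agent.H10.RP.ee_add, one_mul]
      congr 2
      ring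
    rw [h1]
    push_cast
    rw [sub_add_cancel]
    ring

/-- geometric sums over consecutive integers -/
theorem sum_ee_le (θ : ℝ) (a b : ℤ) : ‖∑ n ∈ Icc a b, ee (θ * n)‖ * (2 * nd θ) ≤ 1 := by
  by_cases hab : a ≤ b + 1
  · have h1 := congrArg norm (lr_geom θ a b hab)
    rw [norm_mul] at h1
    have h2 : ‖ee (θ * (b + 1)) - ee (θ * a)‖ ≤ 2 := by
      refine (norm_sub_le _ _).trans ?_
      rw [Pool.Agent.H10.RP.norm_ee, Pool.Agent.H10.RP.norm_ee]
      norm_num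
    have h3 := Pool.Agent.H10.RP.four_nd_le θ
    have h4 : 4 * nd θ * ‖∑ n ∈ Icc a b, ee (θ * n)‖ ≤ 2 :=
      (mul_le_mul_of_nonneg_right h3 (norm_nonneg _)).trans (h1.le.trans h2)
    linarith
  · rw [Finset.Icc_eq_empty (by omega)]
    simp

private lemma lr_sum_mu (g : ℕ) :
    ∑ e ∈ g.divisors, (ArithmeticFunction.moebius e : ℂ) = if g = 1 then 1 else 0 := by
  have h := congrArg (fun f : ArithmeticFunction ℤ => f g) ArithmeticFunction.moebius_mul_coe_zeta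
  simp only [ArithmeticFunction.coe_mul_zeta_apply, ArithmeticFunction.one_apply] at h
  have h2 := congrArg (fun z : ℤ => (z : ℂ)) h
  push_cast at h2
  exact h2

private lemma lr_cq (q : ℕ) (hq : 1 ≤ q) (h : ℤ) :
    cq q h = ∑ e ∈ q.divisors, (ArithmeticFunction.moebius e : ℂ) *
      (if ((q / e : ℕ) : ℤ) ∣ h then ((q / e : ℕ) : ℂ) else 0) := by
  classical
  have hq0 : (q : ℝ) ≠ 0 := by exact_mod_cast (by omega : q ≠ 0)
  unfold cq
  rw [Finset.sum_filter]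
  have h1 : ∀ b ∈ range q, (if Nat.Coprime b q then ee ((b : ℝ) * h / q) else 0) =
      ∑ e ∈ q.divisors, if e ∣ b then (ArithmeticFunction.moebius e : ℂ) * ee ((b : ℝ) * h / q) else 0 := by
    intro b _
    rw [← Finset.sum_filter, ← Finset.sum_mul]
    have h2 : q.divisors.filter (fun e => e ∣ b) = (Nat.gcd b q).divisors := by
      ext e
      simp only [mem_filter, Nat.mem_divisors, Nat.dvd_gcd_iff]
      constructor
      · rintro ⟨⟨h1, h2⟩, h3⟩
        exact ⟨⟨h3, h1⟩, Nat.gcd_ne_zero_right (by omega)⟩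
      · rintro ⟨⟨h1, h2⟩, h3⟩
        exact ⟨⟨h2, by omega⟩, h1⟩
    rw [h2, lr_sum_mu]
    by_cases hc : Nat.Coprime b q
    · rw [if_pos hc, if_pos hc, one_mul]
    · rw [if_neg hc, if_neg hc, zero_mul]
  rw [Finset.sum_congr rfl h1, Finset.sum_comm]
  refine Finset.sum_congr rfl fun e he => ?_
  obtain ⟨k, rfl⟩ := Nat.dvd_of_mem_divisors he
  have he0 : 0 < e := Nat.pos_of_mem_divisors he
  have hk0 : 0 < k := Nat.pos_of_ne_zero (by rintro rfl; simp at hq)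
  rw [Nat.mul_div_cancel_left k he0, ← Pool.Agent.H10.RP.sum_ee_mod k hk0 h, Finset.mul_sum,
    ← Finset.sum_filter]
  symm
  refine Finset.sum_bij (fun b _ => e * b) ?_ ?_ ?_ ?_
  · intro b hb
    rw [mem_range] at hb
    rw [mem_filter, mem_range]
    exact ⟨Nat.mul_lt_mul_of_pos_left hb he0, dvd_mul_right _ _⟩
  · intro b _ b' _ hbb
    exact Nat.eq_of_mul_eq_mul_left he0 hbb
  · intro b hb
    rw [mem_filter, mem_range] at hb
    obtain ⟨hb1, c, rfl⟩ := hb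
    exact ⟨c, mem_range.mpr (Nat.lt_of_mul_lt_mul_left hb1), rfl⟩
  · intro b _
    congr 2
    have he1 : (e : ℝ) ≠ 0 := by exact_mod_cast he0.ne'
    have hk1 : (k : ℝ) ≠ 0 := by exact_mod_cast hk0.ne'
    push_cast
    field_simp

theorem cq_le (q : ℕ) (hq : 1 ≤ q) (h : ℤ) :
    ‖cq q h‖ ≤ ∑ d ∈ (Nat.divisors q).filter (fun d : ℕ => (d : ℤ) ∣ h), (d : ℝ) := by
  rw [lr_cq q hq h, Finset.sum_filter, ← Nat.sum_div_divisors q
    (fun d : ℕ => if (d : ℤ) ∣ h then (d : ℝ) else 0)]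
  refine (norm_sum_le _ _).trans (Finset.sum_le_sum fun e _ => ?_)
  rw [norm_mul]
  have h1 : ‖(ArithmeticFunction.moebius e : ℂ)‖ ≤ 1 := by
    rw [Complex.norm_intCast]
    exact_mod_cast ArithmeticFunction.abs_moebius_le_one
  have h2 : ‖(if ((q / e : ℕ) : ℤ) ∣ h then ((q / e : ℕ) : ℂ) else 0)‖ =
      if ((q / e : ℕ) : ℤ) ∣ h then ((q / e : ℕ) : ℝ) else 0 := by
    split_ifs
    · rw [Complex.norm_natCast]
    · simp
  rw [h2]
  have h3 : (0 : ℝ) ≤ if ((q / e : ℕ) : ℤ) ∣ h then ((q / e : ℕ) : ℝ) else 0 := by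
    split_ifs <;> positivity
  calc _ ≤ 1 * _ := mul_le_mul_of_nonneg_right h1 h3
    _ = _ := one_mul _

theorem cq_zero (q : ℕ) : cq q 0 = Nat.totient q := by
  unfold cq
  have h1 : ∀ b ∈ (range q).filter (fun b => Nat.Coprime b q), ee ((b : ℝ) * (0 : ℤ) / q) = 1 := by
    intro b _
    simp [Pool.Agent.H10.RP.ee_zero]
  rw [Finset.sum_congr rfl h1, Finset.sum_const, nsmul_one]
  congr 1
  rw [Nat.totient_eq_card_coprime]
  congr 1
  ext b
  simp only [mem_filter, mem_range]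
  rw [Nat.coprime_comm]

/-! ### correlations of the truncated expansion -/

private noncomputable def lrI (R : ℕ) : Finset ((_ : ℕ) × ℕ) :=
  (Icc 1 R).sigma (fun q => (range q).filter (fun b => Nat.Coprime b q))

private noncomputable def lrw (q : ℕ) : ℂ :=
  ((ArithmeticFunction.moebius q : ℝ) / (Nat.totient q : ℝ) : ℂ)

private noncomputable def lrx (i : (_ : ℕ) × ℕ) : ℝ := (i.2 : ℝ) / i.1

private lemma lr_mem {R : ℕ} {i : (_ : ℕ) × ℕ} (hi : i ∈ lrI R) :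
    (1 ≤ i.1 ∧ i.1 ≤ R) ∧ i.2 < i.1 ∧ Nat.Coprime i.2 i.1 := by
  unfold lrI at hi
  rw [Finset.mem_sigma, mem_Icc, mem_filter, mem_range] at hi
  exact hi

private lemma lr_LamR (R n : ℕ) : LamR R n = ∑ i ∈ lrI R, lrw i.1 * ee (lrx i * n) := by
  unfold LamR lrI
  rw [Finset.sum_sigma]
  refine Finset.sum_congr rfl fun q _ => ?_
  unfold cq lrw lrx
  rw [Finset.mul_sum]
  refine Finset.sum_congr rfl fun b _ => ?_
  congr 2
  push_cast
  ring

private lemma lr_SSr (R : ℕ) (h : ℤ) : SSr R h = ∑ i ∈ lrI R, lrw i.1 * lrw i.1 * ee (lrx i * h) := by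
  unfold SSr lrI
  rw [Finset.sum_sigma]
  refine Finset.sum_congr rfl fun q _ => ?_
  unfold cq lrw lrx
  rw [Finset.mul_sum]
  refine Finset.sum_congr rfl fun b _ => ?_
  have e : (b : ℝ) / (q : ℝ) * h = (b : ℝ) * h / q := by ring
  simp only [e]
  ring

private lemma lr_conj (q : ℕ) : (starRingEnd ℂ) (lrw q) = lrw q := by
  unfold lrw
  simp

private noncomputable def lrT (X : ℕ) (h : ℤ) (x y : ℝ) : ℂ :=
  ∑ m ∈ Icc 1 X, ∑ n ∈ Icc 1 X, if (m : ℤ) - n = h then ee (x * m) * ee (-(y * n)) else 0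

private lemma lr_Cor (R X : ℕ) (h : ℤ) : Cor (LamR R) X h =
    ∑ i ∈ lrI R, ∑ j ∈ lrI R, lrw i.1 * lrw j.1 * lrT X h (lrx i) (lrx j) := by
  unfold Cor
  have h1 : ∀ m ∈ Icc 1 X, ∀ n ∈ Icc 1 X,
      (if (m : ℤ) - n = h then LamR R m * (starRingEnd ℂ) (LamR R n) else 0) =
      ∑ i ∈ lrI R, ∑ j ∈ lrI R, lrw i.1 * lrw j.1 *
        (if (m : ℤ) - n = h then ee (lrx i * m) * ee (-(lrx j * n)) else 0) := by
    intro m _ n _
    split_ifs with hmn
    · rw [lr_LamR, lr_LamR, map_sum, Finset.sum_mul_sum]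
      refine Finset.sum_congr rfl fun i _ => Finset.sum_congr rfl fun j _ => ?_
      rw [map_mul, lr_conj, Pool.Agent.H10.RP.conj_ee]
      ring
    · simp
  rw [Finset.sum_congr rfl fun m hm => Finset.sum_congr rfl fun n hn => h1 m hm n hn]
  have h2 : ∀ m ∈ Icc 1 X, ∑ n ∈ Icc 1 X, ∑ i ∈ lrI R, ∑ j ∈ lrI R, lrw i.1 * lrw j.1 *
        (if (m : ℤ) - n = h then ee (lrx i * m) * ee (-(lrx j * n)) else 0) =
      ∑ i ∈ lrI R, ∑ j ∈ lrI R, ∑ n ∈ Icc 1 X, lrw i.1 * lrw j.1 *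
        (if (m : ℤ) - n = h then ee (lrx i * m) * ee (-(lrx j * n)) else 0) := by
    intro m _
    rw [Finset.sum_comm]
    refine Finset.sum_congr rfl fun i _ => ?_
    rw [Finset.sum_comm]
  rw [Finset.sum_congr rfl h2, Finset.sum_comm]
  refine Finset.sum_congr rfl fun i _ => ?_
  rw [Finset.sum_comm]
  refine Finset.sum_congr rfl fun j _ => ?_
  unfold lrT
  rw [Finset.mul_sum]
  refine Finset.sum_congr rfl fun m _ => ?_
  rw [Finset.mul_sum]

private lemma lr_T (X : ℕ) (h : ℤ) (x y : ℝ) :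
    lrT X h x y = ee (x * h) * ∑ n ∈ Icc (max 1 (1 - h)) (min (X : ℤ) (X - h)), ee ((x - y) * n) := by
  classical
  unfold lrT
  rw [← Finset.sum_product', ← Finset.sum_filter, Finset.mul_sum]
  refine Finset.sum_bij (fun p _ => (p.2 : ℤ)) ?_ ?_ ?_ ?_
  · rintro ⟨m, n⟩ hp
    simp only [mem_filter, mem_product, mem_Icc] at hp
    simp only [mem_Icc]
    omega
  · rintro ⟨m, n⟩ hp ⟨m', n'⟩ hp' hnn
    simp only [mem_filter, mem_product, mem_Icc] at hp hp' hnn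
    ext
    · simp only; omega
    · simp only; omega
  · intro n hn
    rw [mem_Icc] at hn
    refine ⟨((n + h).toNat, n.toNat), ?_, ?_⟩
    · simp only [mem_filter, mem_product, mem_Icc]
      omega
    · simp only
      omega
  · rintro ⟨m, n⟩ hp
    simp only [mem_filter, mem_product, mem_Icc] at hp
    simp only
    rw [← Pool.Agent.H10.RP.ee_add, ← Pool.Agent.H10.RP.ee_add]
    congr 1
    have : (m : ℝ) = (n : ℝ) + h := by
      have : (m : ℤ) = n + h := by omega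
      exact_mod_cast this
    rw [this]
    push_cast
    ring

private lemma lr_card (X : ℕ) (h : ℤ) (hh : |h| < X) :
    ((Icc (max 1 (1 - h)) (min (X : ℤ) (X - h))).card : ℤ) = X - |h| := by
  rw [Int.card_Icc]
  rcases le_total 0 h with h0 | h0
  · rw [abs_of_nonneg h0] at hh ⊢
    rw [max_eq_left (by omega), min_eq_right (by omega)]
    omega
  · rw [abs_of_nonpos h0] at hh ⊢
    rw [max_eq_right (by omega), min_eq_left (by omega)]
    omega

private lemma lr_nd {R : ℕ} {i j : (_ : ℕ) × ℕ} (hi : i ∈ lrI R) (hj : j ∈ lrI R) (hij : i ≠ j) :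
    1 ≤ (R : ℝ) ^ 2 * nd (lrx i - lrx j) := by
  obtain ⟨⟨hi1, hi2⟩, hi3, hi4⟩ := lr_mem hi
  obtain ⟨⟨hj1, hj2⟩, hj3, hj4⟩ := lr_mem hj
  obtain ⟨q, b⟩ := i
  obtain ⟨q', b'⟩ := j
  simp only at hi1 hi2 hi3 hi4 hj1 hj2 hj3 hj4
  set N := round (lrx ⟨q, b⟩ - lrx ⟨q', b'⟩) with hN
  have hq0 : (0 : ℝ) < q := by exact_mod_cast hi1
  have hq0' : (0 : ℝ) < q' := by exact_mod_cast hj1
  have h1 : lrx ⟨q, b⟩ - lrx ⟨q', b'⟩ - N =
      (((b : ℤ) * q' - b' * q - N * (q * q') : ℤ) : ℝ) / (q * q') := by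
    unfold lrx
    push_cast
    field_simp
  have hne : ((b : ℤ) * q' - b' * q - N * (q * q') : ℤ) ≠ 0 := by
    intro h0
    have hN0 : N = 0 := by
      by_contra hN0
      have h2 : (b : ℤ) * q' < q * q' := by
        have : (b : ℤ) < q := by exact_mod_cast hi3
        have : (0 : ℤ) < q' := by exact_mod_cast hj1
        nlinarith
      have h3 : (b' : ℤ) * q < q * q' := by
        have : (b' : ℤ) < q' := by exact_mod_cast hj3
        have : (0 : ℤ) < q := by exact_mod_cast hi1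
        nlinarith
      have h4 : (0 : ℤ) ≤ (b : ℤ) * q' := by positivity
      have h5 : (0 : ℤ) ≤ (b' : ℤ) * q := by positivity
      have h6 : (0 : ℤ) < (q : ℤ) * q' := by
        have : (0 : ℤ) < q' := by exact_mod_cast hj1
        have : (0 : ℤ) < q := by exact_mod_cast hi1
        positivity
      rcases lt_or_gt_of_ne hN0 with h7 | h7
      · have : N * ((q : ℤ) * q') ≤ (-1) * ((q : ℤ) * q') :=
          mul_le_mul_of_nonneg_right (by omega) h6.le
        linarith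
      · have : 1 * ((q : ℤ) * q') ≤ N * ((q : ℤ) * q') :=
          mul_le_mul_of_nonneg_right (by omega) h6.le
        linarith
    rw [hN0] at h0
    have h2 : b * q' = b' * q := by
      have : (b : ℤ) * q' = b' * q := by linarith
      exact_mod_cast this
    have h3 : q ∣ q' := hi4.symm.dvd_of_dvd_mul_left (Dvd.intro_left _ h2.symm)
    have h4 : q' ∣ q := hj4.symm.dvd_of_dvd_mul_left (Dvd.intro_left _ h2)
    have h5 : q = q' := Nat.dvd_antisymm h3 h4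
    subst h5
    have h6 : b = b' := Nat.eq_of_mul_eq_mul_right (by omega) h2
    subst h6
    exact hij rfl
  have h2 : (1 : ℝ) ≤ |(((b : ℤ) * q' - b' * q - N * (q * q') : ℤ) : ℝ)| := by
    have := Int.one_le_abs hne
    exact_mod_cast this
  have h3 : nd (lrx ⟨q, b⟩ - lrx ⟨q', b'⟩) =
      |(((b : ℤ) * q' - b' * q - N * (q * q') : ℤ) : ℝ)| / (q * q') := by
    have h4 : nd (lrx ⟨q, b⟩ - lrx ⟨q', b'⟩) = |lrx ⟨q, b⟩ - lrx ⟨q', b'⟩ - N| := rfl
    rw [h4, h1, abs_div, abs_of_pos (by positivity : (0 : ℝ) < q * q')]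
  rw [h3, mul_div_assoc', le_div_iff₀ (by positivity), one_mul]
  have h4 : (q : ℝ) ≤ R := by exact_mod_cast hi2
  have h5 : (q' : ℝ) ≤ R := by exact_mod_cast hj2
  calc (q : ℝ) * q' ≤ R * R := mul_le_mul h4 h5 hq0'.le (by positivity)
    _ = (R : ℝ) ^ 2 * 1 := by ring
    _ ≤ _ := mul_le_mul_of_nonneg_left h2 (by positivity)

private lemma lr_Tij {R X : ℕ} (h : ℤ) {i j : (_ : ℕ) × ℕ} (hi : i ∈ lrI R) (hj : j ∈ lrI R)
    (hij : i ≠ j) : ‖lrT X h (lrx i) (lrx j)‖ ≤ (R : ℝ) ^ 2 := by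
  rw [lr_T, norm_mul, Pool.Agent.H10.RP.norm_ee, one_mul]
  have h1 := sum_ee_le (lrx i - lrx j) (max 1 (1 - h)) (min (X : ℤ) (X - h))
  have h2 := lr_nd hi hj hij
  set S := ‖∑ n ∈ Icc (max 1 (1 - h)) (min (X : ℤ) (X - h)), ee ((lrx i - lrx j) * n)‖ with hS
  have hS0 : 0 ≤ S := norm_nonneg _
  calc S = S * 1 := (mul_one _).symm
    _ ≤ S * ((R : ℝ) ^ 2 * nd (lrx i - lrx j)) := mul_le_mul_of_nonneg_left h2 hS0
    _ = (R : ℝ) ^ 2 * ((S * (2 * nd (lrx i - lrx j))) / 2) := by ring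
    _ ≤ (R : ℝ) ^ 2 * (1 / 2) := mul_le_mul_of_nonneg_left (by linarith) (by positivity)
    _ ≤ (R : ℝ) ^ 2 := by nlinarith [sq_nonneg (R : ℝ)]

private lemma lr_w_sum (R : ℕ) : ∑ i ∈ lrI R, ‖lrw i.1‖ ≤ R := by
  unfold lrI
  rw [Finset.sum_sigma]
  have h1 : ∀ q ∈ Icc 1 R, ∑ _b ∈ (range q).filter (fun b => Nat.Coprime b q), ‖lrw q‖ ≤ 1 := by
    intro q hq
    rw [mem_Icc] at hq
    rw [Finset.sum_const]
    have h2 : ((range q).filter (fun b => Nat.Coprime b q)).card = q.totient := by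
      rw [Nat.totient_eq_card_coprime]
      congr 1
      ext b
      simp only [mem_filter, mem_range]
      rw [Nat.coprime_comm]
    have hφ : (0 : ℝ) < Nat.totient q := by exact_mod_cast Nat.totient_pos.mpr (by omega)
    rw [h2, nsmul_eq_mul]
    unfold lrw
    rw [norm_div, Complex.norm_real, Complex.norm_real, Real.norm_eq_abs, Real.norm_eq_abs,
      abs_of_pos hφ, mul_div_cancel₀ _ hφ.ne']
    have := ArithmeticFunction.abs_moebius_le_one (n := q)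
    exact_mod_cast this
  refine (Finset.sum_le_sum h1).trans ?_
  rw [Finset.sum_const, Nat.card_Icc]
  simp

theorem Cor_LamR (R X : ℕ) (hR : 1 ≤ R) (h : ℤ) (hh : |h| < X) :
    ‖Cor (LamR R) X h - ((X : ℝ) - |(h : ℝ)| : ℝ) * SSr R h‖ ≤ (R : ℝ) ^ 4 := by
  classical
  have hdiag : ∀ i ∈ lrI R, lrT X h (lrx i) (lrx i) = ((X : ℝ) - |(h : ℝ)| : ℝ) * ee (lrx i * h) := by
    intro i _
    rw [lr_T]
    simp only [sub_self, zero_mul, Pool.Agent.H10.RP.ee_zero]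
    rw [Finset.sum_const, nsmul_one, mul_comm]
    congr 1
    have h1 := lr_card X h hh
    have h2 := congrArg (fun z : ℤ => (z : ℂ)) h1
    rw [Int.cast_natCast] at h2
    rw [h2]
    push_cast
    have h3 : ((|h| : ℤ) : ℂ) = ((|(h : ℝ)| : ℝ) : ℂ) := by
      rw [← Int.cast_abs]
      norm_cast
    rw [h3]
  have h1 : Cor (LamR R) X h - ((X : ℝ) - |(h : ℝ)| : ℝ) * SSr R h =
      ∑ i ∈ lrI R, ∑ j ∈ lrI R, if i = j then 0 else lrw i.1 * lrw j.1 * lrT X h (lrx i) (lrx j) := by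
    rw [lr_Cor, lr_SSr, Finset.mul_sum, ← Finset.sum_sub_distrib]
    refine Finset.sum_congr rfl fun i hi => ?_
    rw [← Finset.add_sum_erase _ _ hi, ← Finset.add_sum_erase (lrI R)
      (fun j => if i = j then 0 else lrw i.1 * lrw j.1 * lrT X h (lrx i) (lrx j)) hi]
    rw [if_pos rfl, zero_add, hdiag i hi]
    have h2 : ∑ j ∈ (lrI R).erase i, (if i = j then 0 else lrw i.1 * lrw j.1 * lrT X h (lrx i) (lrx j)) =
        ∑ j ∈ (lrI R).erase i, lrw i.1 * lrw j.1 * lrT X h (lrx i) (lrx j) := by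
      refine Finset.sum_congr rfl fun j hj => ?_
      rw [if_neg (Finset.ne_of_mem_erase hj).symm]
    rw [h2]
    ring
  rw [h1]
  calc ‖∑ i ∈ lrI R, ∑ j ∈ lrI R, if i = j then 0 else lrw i.1 * lrw j.1 * lrT X h (lrx i) (lrx j)‖
      ≤ ∑ i ∈ lrI R, ∑ j ∈ lrI R, ‖lrw i.1‖ * ‖lrw j.1‖ * (R : ℝ) ^ 2 := by
        refine (norm_sum_le _ _).trans (Finset.sum_le_sum fun i hi => ?_)
        refine (norm_sum_le _ _).trans (Finset.sum_le_sum fun j hj => ?_)
        split_ifs with hij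
        · rw [norm_zero]; positivity
        · rw [norm_mul, norm_mul]
          exact mul_le_mul_of_nonneg_left (lr_Tij h hi hj hij) (by positivity)
    _ = (∑ i ∈ lrI R, ‖lrw i.1‖) * (∑ j ∈ lrI R, ‖lrw j.1‖) * (R : ℝ) ^ 2 := by
        rw [Finset.sum_mul_sum, Finset.sum_mul]
        refine Finset.sum_congr rfl fun i _ => ?_
        rw [Finset.sum_mul]
    _ ≤ (R : ℝ) * R * (R : ℝ) ^ 2 := by
        have h2 := lr_w_sum R
        have h3 : 0 ≤ ∑ i ∈ lrI R, ‖lrw i.1‖ := Finset.sum_nonneg fun _ _ => norm_nonneg _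
        exact mul_le_mul_of_nonneg_right (mul_le_mul h2 h2 h3 (by positivity)) (by positivity)
    _ = (R : ℝ) ^ 4 := by ring

theorem LamR_sq (R X : ℕ) (hR : 1 ≤ R) (hX : 1 ≤ X) :
    ∑ n ∈ Icc 1 X, ‖LamR R n‖ ^ 2 ≤ X * (4 * (1 + Real.log R)) + (R : ℝ) ^ 4 := by
  classical
  have h1 : Cor (LamR R) X 0 = ((∑ n ∈ Icc 1 X, ‖LamR R n‖ ^ 2 : ℝ) : ℂ) := by
    unfold Cor
    push_cast
    refine Finset.sum_congr rfl fun m hm => ?_
    rw [Finset.sum_eq_single m]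
    · rw [if_pos (sub_self _), Complex.mul_conj, Complex.normSq_eq_norm_sq]
      push_cast
      rfl
    · intro n _ hn
      rw [if_neg]
      omega
    · intro h; exact absurd hm h
  have h2 := Cor_LamR R X hR 0 (by simpa using (by omega : 0 < X))
  have h3 : ‖SSr R 0‖ ≤ 4 * (1 + Real.log R) := by
    refine le_trans ?_ (phi_sum R hR)
    unfold SSr
    refine (norm_sum_le _ _).trans (Finset.sum_le_sum fun q hq => ?_)
    rw [mem_Icc] at hq
    have hφ : (0 : ℝ) < Nat.totient q := by exact_mod_cast Nat.totient_pos.mpr (by omega)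
    rw [cq_zero, norm_mul, norm_div, norm_pow, norm_pow, Complex.norm_real, Complex.norm_real,
      Complex.norm_natCast, Real.norm_eq_abs, Real.norm_eq_abs, abs_of_pos hφ]
    have h4 : |(ArithmeticFunction.moebius q : ℝ)| ≤ 1 := by
      have := ArithmeticFunction.abs_moebius_le_one (n := q)
      exact_mod_cast this
    have h5 : |(ArithmeticFunction.moebius q : ℝ)| ^ 2 ≤ 1 := pow_le_one₀ (abs_nonneg _) h4
    calc |(ArithmeticFunction.moebius q : ℝ)| ^ 2 / (Nat.totient q : ℝ) ^ 2 * (Nat.totient q : ℝ)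
        = |(ArithmeticFunction.moebius q : ℝ)| ^ 2 / (Nat.totient q : ℝ) := by field_simp
      _ ≤ 1 / (Nat.totient q : ℝ) := div_le_div_of_nonneg_right h5 hφ.le
  have h4 : ‖((∑ n ∈ Icc 1 X, ‖LamR R n‖ ^ 2 : ℝ) : ℂ)‖ ≤ X * ‖SSr R 0‖ + (R : ℝ) ^ 4 := by
    rw [← h1]
    calc ‖Cor (LamR R) X 0‖ = ‖(((X : ℝ) - |((0 : ℤ) : ℝ)| : ℝ) * SSr R 0) +
          (Cor (LamR R) X 0 - ((X : ℝ) - |((0 : ℤ) : ℝ)| : ℝ) * SSr R 0)‖ := by congr 1; ring
      _ ≤ ‖(((X : ℝ) - |((0 : ℤ) : ℝ)| : ℝ) * SSr R 0)‖ + (R : ℝ) ^ 4 :=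
          (norm_add_le _ _).trans (by gcongr)
      _ = _ := by
          rw [norm_mul]
          simp
  rw [Complex.norm_real, Real.norm_eq_abs] at h4
  refine (le_abs_self _).trans (h4.trans ?_)
  gcongr

end Pool.Agent.H1.PP
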