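import Pool.Agent.H1.PP.Defs

/-!
# PP-01 Let: the alphabet

Here `Q = Qh s`, a letter is `g = [[A, B], [C, D]]`.

PROOFS.
`mem_Lt`: unfold; for `IsLt s g` all entries lie in `[0, 4 Q]` (`A < 2 C ≤ 4 Q`, `B < 2 D ≤ 4 Q`), and
`g = !![g 0 0, g 0 1; g 1 0, g 1 1]` (`Matrix.eta_fin_two`).

`Lt_uniq`: `A D = B C + 1` and `A' D = B' C + 1` give `(A - A') D = (B - B') C`; `C` and `D` are coprime, so
`D ∣ B - B'`, and `|B - B'| < D` as `D ≤ B, B' < 2 D`.  So `B = B'` and then `A = A'`.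

`Lt_exists`: `C, D` coprime with `Q < C, D ≤ 2 Q` (`Q ≥ 1`, so `C, D ≥ 2`): let `B` be the integer with
`D ≤ B < 2 D`, `B C ≡ -1 mod D`, and `A = (B C + 1) / D`.  `A > C` since `A D > B C ≥ C D`.
`A D = B C + 1 ≤ (2 D - 1) C + 1 < 2 C D` as `C ≥ 2`, so `A < 2 C`.

`card_Lt`: by `Lt_exists` and `Lt_uniq` the number of letters is the number of coprime pairs
`(C, D) ∈ (Q, 2 Q]²`.  A pair which is not coprime has a common prime factor `p ≤ 2 Q`, and there are at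
most `(Q / p + 1)²` pairs of multiples of `p`.  `∑_p (Q/p + 1)² ≤ Q² ∑ 1/p² + 2 Q ∑_{p ≤ 2Q} 1/p + 2 Q`, with
`∑_p 1/p² ≤ 1/4 + 1/9 + ∑_{m ≥ 5} 1/m² ≤ 1/4 + 1/9 + 1/4 < 0.62` (`1/m² ≤ 1/(m-1) - 1/m`) and
`∑_{p ≤ 2Q} 1/p ≤ 1 + log (2 Q)`.  As `Q = 2^(10 s - 3) ≥ 2^497`, the last two terms are `≤ 0.1 Q²`.  So there are
at least `Q²/5 = T^20 / 320` letters (`64 Q² = T^20`).
-/

set_option autoImplicit false

open Finset

namespace Pool.Agent.H1.PP

open Pool.Agent.H10.RP (ee nd Lam)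

theorem mem_Lt (s : ℕ) (g : M2) : g ∈ Lt s ↔ IsLt s g := by
  unfold Lt
  rw [mem_filter]
  constructor
  · exact fun h => h.2
  · intro h
    refine ⟨?_, h⟩
    obtain ⟨-, h2, h3, h4, h5, h6, h7, h8, h9⟩ := h
    have hQ : (0 : ℤ) ≤ Qh s := by positivity
    rw [mem_image]
    refine ⟨((g 0 0, g 0 1), (g 1 0, g 1 1)), ?_, ?_⟩
    · simp only [mem_product, mem_Icc]
      refine ⟨⟨⟨?_, ?_⟩, ?_, ?_⟩, ⟨?_, ?_⟩, ?_, ?_⟩ <;> linarith
    · exact (Matrix.eta_fin_two g).symm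

theorem Qh_pos (s : ℕ) : 1 ≤ Qh s := Nat.one_le_two_pow

theorem Qh_eq (s : ℕ) (hs : 1 ≤ s) : 8 * Qh s = 2 ^ (10 * s) := by
  have e : 10 * s = 3 + (10 * s - 3) := by omega
  rw [Qh]
  conv_rhs => rw [e, pow_add]
  norm_num

theorem Lt_det (s : ℕ) (g : M2) (hg : g ∈ Lt s) : g.det = 1 := by
  rw [mem_Lt] at hg
  rw [Matrix.det_fin_two, hg.1]
  ring

theorem Lt_uniq (s : ℕ) (g g' : M2) (hg : g ∈ Lt s) (hg' : g' ∈ Lt s) (h : g 1 = g' 1) :
    g = g' := by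
  rw [mem_Lt] at hg hg'
  obtain ⟨d, h2, h3, h4, h5, h6, h7, h8, h9⟩ := hg
  obtain ⟨d', -, -, -, -, -, -, k8, k9⟩ := hg'
  have hC : g' 1 0 = g 1 0 := (congrFun h 0).symm
  have hD : g' 1 1 = g 1 1 := (congrFun h 1).symm
  rw [hC, hD] at d'
  rw [hD] at k8 k9
  have hQ : (0 : ℤ) ≤ Qh s := by positivity
  have hD0 : 0 < g 1 1 := by linarith
  have hcop : IsCoprime (g 1 1) (g 1 0) := ⟨g 0 0, -g 0 1, by rw [d]; ring⟩
  have hdvd : g 1 1 ∣ (g 0 1 - g' 0 1) * g 1 0 := ⟨g 0 0 - g' 0 0, by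
    have e : g 1 1 * (g 0 0 - g' 0 0) = g 0 0 * g 1 1 - g' 0 0 * g 1 1 := by ring
    rw [e, d, d']; ring⟩
  have hdvd2 : g 1 1 ∣ g 0 1 - g' 0 1 := hcop.dvd_of_dvd_mul_right hdvd
  have hB : g 0 1 - g' 0 1 = 0 := Int.eq_zero_of_abs_lt_dvd hdvd2 (by
    rw [abs_lt]; constructor <;> linarith)
  have hB' : g 0 1 = g' 0 1 := by linarith
  have hA : g 0 0 = g' 0 0 := by
    have e : g 0 0 * g 1 1 = g' 0 0 * g 1 1 := by rw [d, d', hB']
    exact mul_right_cancel₀ hD0.ne' e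
  rw [Matrix.eta_fin_two g, Matrix.eta_fin_two g', hA, hB', hC, hD]

theorem Lt_exists (s : ℕ) (C D : ℤ) (h : IsCoprime C D) (hC : (Qh s : ℤ) < C) (hC' : C ≤ 2 * Qh s)
    (hD : (Qh s : ℤ) < D) (hD' : D ≤ 2 * Qh s) : ∃ g ∈ Lt s, g 1 0 = C ∧ g 1 1 = D := by
  obtain ⟨u, v, huv⟩ := h
  have hQ : (1 : ℤ) ≤ Qh s := by exact_mod_cast Qh_pos s
  have hD0 : 0 < D := by linarith
  have hC2 : 2 ≤ C := by linarith
  have e1 : (-u) % D = -u - D * ((-u) / D) := by rw [Int.emod_def]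
  have e2 : 0 ≤ (-u) % D := Int.emod_nonneg _ hD0.ne'
  have e3 : (-u) % D < D := Int.emod_lt_of_pos _ hD0
  set w := (-u) % D with hw
  set t := (-u) / D with ht
  have e4 : (C + v - t * C) * D = (D + w) * C + 1 := by
    rw [e1]
    have : v * D = 1 - u * C := by linarith
    calc (C + v - t * C) * D = C * D + v * D - t * C * D := by ring
      _ = C * D + (1 - u * C) - t * C * D := by rw [this]
      _ = _ := by ring
  have hA : C < C + v - t * C := by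
    by_contra hcon
    push Not at hcon
    have h1 : (C + v - t * C) * D ≤ C * D := mul_le_mul_of_nonneg_right hcon hD0.le
    have h2 : 0 ≤ w * C := mul_nonneg e2 (by linarith)
    nlinarith
  have hA2 : C + v - t * C < 2 * C := by
    by_contra hcon
    push Not at hcon
    have h1 : 2 * C * D ≤ (C + v - t * C) * D := mul_le_mul_of_nonneg_right hcon hD0.le
    have h2 : w * C ≤ (D - 1) * C := mul_le_mul_of_nonneg_right (by linarith) (by linarith)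
    nlinarith
  refine ⟨!![C + v - t * C, D + w; C, D], ?_, rfl, rfl⟩
  rw [mem_Lt]
  refine ⟨e4, hC, hC', hD, hD', hA, hA2, ?_, ?_⟩
  · change D ≤ D + w
    linarith
  · change D + w < 2 * D
    linarith

/-- the multiples of `p` in `(Q, 2 Q]` -/
noncomputable def let_M (Q p : ℕ) : Finset ℕ := (Ioc Q (2 * Q)).filter (fun x => p ∣ x)

theorem let_M_card (Q p : ℕ) (hp : 0 < p) : ((let_M Q p).card : ℝ) ≤ (Q : ℝ) / p + 1 := by
  have h1 : (let_M Q p).card ≤ 2 * Q / p - Q / p := by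
    rw [← Nat.card_Ioc]
    refine Finset.card_le_card_of_injOn (fun x => x / p) ?_ ?_
    · intro x hx
      have hx' := Finset.mem_filter.mp (Finset.mem_coe.mp hx)
      rw [mem_Ioc] at hx'
      obtain ⟨⟨h1, h2⟩, k, rfl⟩ := hx'
      rw [Finset.mem_coe, mem_Ioc]
      simp only
      rw [Nat.mul_div_cancel_left k hp]
      exact ⟨(Nat.div_lt_iff_lt_mul hp).2 (by rw [mul_comm]; exact h1),
        (Nat.le_div_iff_mul_le hp).2 (by rw [mul_comm]; exact h2)⟩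
    · intro x hx y hy hxy
      have hx' := (Finset.mem_filter.mp (Finset.mem_coe.mp hx)).2
      have hy' := (Finset.mem_filter.mp (Finset.mem_coe.mp hy)).2
      simp only at hxy
      rw [← Nat.div_mul_cancel hx', ← Nat.div_mul_cancel hy', hxy]
  have hp' : (0 : ℝ) < p := by exact_mod_cast hp
  have h2 : Q / p ≤ 2 * Q / p := Nat.div_le_div_right (by omega)
  have h3 : ((2 * Q / p - Q / p : ℕ) : ℝ) = ((2 * Q / p : ℕ) : ℝ) - ((Q / p : ℕ) : ℝ) :=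
    Nat.cast_sub h2
  have h4 : ((2 * Q / p : ℕ) : ℝ) ≤ 2 * Q / p := by
    have := @Nat.cast_div_le ℝ _ _ _ (2 * Q) p
    push_cast at this
    exact this
  have h5 : (Q : ℝ) / p ≤ ((Q / p : ℕ) : ℝ) + 1 := by
    rw [div_le_iff₀ hp']
    have h6 : Q < (Q / p + 1) * p := by
      have := Nat.div_add_mod Q p
      have := Nat.mod_lt Q hp
      rw [add_mul, one_mul, mul_comm]
      omega
    exact_mod_cast h6.le
  have h1' : ((let_M Q p).card : ℝ) ≤ ((2 * Q / p - Q / p : ℕ) : ℝ) := by exact_mod_cast h1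
  rw [h3] at h1'
  have h7 : (2 : ℝ) * Q / p = Q / p + Q / p := by ring
  rw [h7] at h4
  linarith

/-- the primes up to `N` -/
noncomputable def let_P (N : ℕ) : Finset ℕ := (Icc 1 N).filter Nat.Prime

theorem let_inv (N : ℕ) : ∑ p ∈ let_P N, 1 / (p : ℝ) ≤ 1 + Real.log N := by
  have h := harmonic_le_one_add_log N
  rw [harmonic_eq_sum_Icc] at h
  push_cast at h
  refine le_trans ?_ h
  refine (Finset.sum_le_sum_of_subset_of_nonneg (Finset.filter_subset _ _)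
    (fun _ _ _ => by positivity)).trans (le_of_eq ?_)
  exact Finset.sum_congr rfl fun p _ => one_div _

theorem let_sq (N : ℕ) : ∑ p ∈ let_P N, 1 / (p : ℝ) ^ 2 ≤ 0.62 := by
  have hsub : let_P N ⊆ ({2, 3} : Finset ℕ) ∪ Ioc 4 (N + 4) := by
    intro p hp
    obtain ⟨h1, h2⟩ := Finset.mem_filter.mp hp
    rw [mem_Icc] at h1
    simp only [mem_union, mem_insert, mem_singleton, mem_Ioc]
    have h3 := h2.two_le
    have h4 : p ≠ 4 := by
      rintro rfl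
      revert h2
      decide
    omega
  refine (Finset.sum_le_sum_of_subset_of_nonneg hsub (fun _ _ _ => by positivity)).trans ?_
  have hdis : Disjoint ({2, 3} : Finset ℕ) (Ioc 4 (N + 4)) := by
    rw [Finset.disjoint_left]
    intro p hp hp'
    simp only [mem_insert, mem_singleton] at hp
    rw [mem_Ioc] at hp'
    omega
  rw [Finset.sum_union hdis]
  have h1 := sum_Ioc_inv_sq_le_sub (α := ℝ) (k := 4) (n := N + 4) (by norm_num) (by omega)
  have h2 : ∑ p ∈ Ioc 4 (N + 4), 1 / (p : ℝ) ^ 2 = ∑ p ∈ Ioc 4 (N + 4), ((p : ℝ) ^ 2)⁻¹ :=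
    Finset.sum_congr rfl fun p _ => one_div _
  have h3 : (0 : ℝ) ≤ ((N + 4 : ℕ) : ℝ)⁻¹ := by positivity
  rw [h2, Finset.sum_pair (by norm_num)]
  push_cast at h1 h3 ⊢
  norm_num at h1 ⊢
  linarith

/-- the pairs with a common factor -/
theorem let_bad (Q : ℕ) : ((((Ioc Q (2 * Q)) ×ˢ (Ioc Q (2 * Q))).filter
    (fun x => ¬ Nat.Coprime x.1 x.2)).card : ℝ) ≤
    0.62 * (Q : ℝ) ^ 2 + 2 * Q * (1 + Real.log (2 * Q)) + 2 * Q := by
  classical
  have hsub : ((Ioc Q (2 * Q)) ×ˢ (Ioc Q (2 * Q))).filter (fun x => ¬ Nat.Coprime x.1 x.2) ⊆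
      (let_P (2 * Q)).biUnion (fun p => let_M Q p ×ˢ let_M Q p) := by
    intro x hx
    obtain ⟨h1, h2⟩ := Finset.mem_filter.mp hx
    rw [mem_product] at h1
    rw [Nat.Prime.not_coprime_iff_dvd] at h2
    obtain ⟨p, hp, h3, h4⟩ := h2
    rw [mem_biUnion]
    refine ⟨p, ?_, ?_⟩
    · refine Finset.mem_filter.mpr ⟨mem_Icc.mpr ⟨hp.one_lt.le, ?_⟩, hp⟩
      have h5 := mem_Ioc.mp h1.1
      exact (Nat.le_of_dvd (by omega) h3).trans h5.2
    · rw [mem_product]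
      exact ⟨Finset.mem_filter.mpr ⟨h1.1, h3⟩, Finset.mem_filter.mpr ⟨h1.2, h4⟩⟩
  have h1 := (Finset.card_le_card hsub).trans Finset.card_biUnion_le
  have h2 : ((((Ioc Q (2 * Q)) ×ˢ (Ioc Q (2 * Q))).filter
      (fun x => ¬ Nat.Coprime x.1 x.2)).card : ℝ) ≤
      ∑ p ∈ let_P (2 * Q), ((let_M Q p).card : ℝ) ^ 2 := by
    have h3 : (∑ p ∈ let_P (2 * Q), (let_M Q p ×ˢ let_M Q p).card : ℝ) =
        ∑ p ∈ let_P (2 * Q), ((let_M Q p).card : ℝ) ^ 2 := by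
      refine Finset.sum_congr rfl fun p _ => ?_
      rw [card_product, sq]
      push_cast
      rfl
    rw [← h3]
    exact_mod_cast h1
  refine h2.trans ?_
  have h4 : ∑ p ∈ let_P (2 * Q), ((let_M Q p).card : ℝ) ^ 2 ≤
      ∑ p ∈ let_P (2 * Q), ((Q : ℝ) ^ 2 * (1 / (p : ℝ) ^ 2) + 2 * Q * (1 / (p : ℝ)) + 1) := by
    refine Finset.sum_le_sum fun p hp => ?_
    have hp0 : 0 < p := (Finset.mem_filter.mp hp).2.pos
    have hp' : (0 : ℝ) < p := by exact_mod_cast hp0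
    have h5 := let_M_card Q p hp0
    have h6 : ((let_M Q p).card : ℝ) ^ 2 ≤ ((Q : ℝ) / p + 1) ^ 2 := by gcongr
    refine h6.trans (le_of_eq ?_)
    field_simp
    ring
  refine h4.trans ?_
  rw [Finset.sum_add_distrib, Finset.sum_add_distrib, ← Finset.mul_sum, ← Finset.mul_sum,
    Finset.sum_const, nsmul_eq_mul, mul_one]
  have h7 := let_sq (2 * Q)
  have h8 := let_inv (2 * Q)
  push_cast at h8
  have h9 : ((let_P (2 * Q)).card : ℝ) ≤ 2 * Q := by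
    have : (let_P (2 * Q)).card ≤ 2 * Q := by
      refine (Finset.card_filter_le _ _).trans ?_
      rw [Nat.card_Icc]
      omega
    exact_mod_cast this
  have h10 : (Q : ℝ) ^ 2 * ∑ p ∈ let_P (2 * Q), 1 / (p : ℝ) ^ 2 ≤ (Q : ℝ) ^ 2 * 0.62 := by gcongr
  have h11 : 2 * (Q : ℝ) * ∑ p ∈ let_P (2 * Q), 1 / (p : ℝ) ≤ 2 * Q * (1 + Real.log (2 * Q)) := by
    gcongr
  linarith

theorem let_good (s : ℕ) : (((Ioc (Qh s) (2 * Qh s)) ×ˢ (Ioc (Qh s) (2 * Qh s))).filter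
    (fun x => Nat.Coprime x.1 x.2)).card ≤ (Lt s).card := by
  refine Finset.card_le_card_of_surjOn (fun g => ((g 1 0).toNat, (g 1 1).toNat)) ?_
  intro x hx
  obtain ⟨h1, h2⟩ := Finset.mem_filter.mp (Finset.mem_coe.mp hx)
  rw [mem_product, mem_Ioc, mem_Ioc] at h1
  obtain ⟨⟨a1, a2⟩, a3, a4⟩ := h1
  obtain ⟨g, hg, hC, hD⟩ := Lt_exists s (x.1 : ℤ) (x.2 : ℤ) (Nat.isCoprime_iff_coprime.2 h2)
    (by exact_mod_cast a1) (by exact_mod_cast a2) (by exact_mod_cast a3) (by exact_mod_cast a4)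
  refine ⟨g, hg, ?_⟩
  simp only
  rw [hC, hD]
  rfl

theorem card_Lt (s : ℕ) (hs : 50 ≤ s) : (2 : ℝ) ^ (20 * s) / 320 ≤ (Lt s).card := by
  set Q := Qh s with hQ
  have h1 : (((Lt s).card : ℕ) : ℝ) ≥ ((((Ioc Q (2 * Q)) ×ˢ (Ioc Q (2 * Q))).filter
    (fun x => Nat.Coprime x.1 x.2)).card : ℝ) := by exact_mod_cast let_good s
  have h2 := Finset.card_filter_add_card_filter_not (s := (Ioc Q (2 * Q)) ×ˢ (Ioc Q (2 * Q)))
    (fun x => Nat.Coprime x.1 x.2)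
  have h3 : ((Ioc Q (2 * Q)) ×ˢ (Ioc Q (2 * Q))).card = Q ^ 2 := by
    rw [card_product, Nat.card_Ioc, sq]
    congr 1 <;> omega
  rw [h3] at h2
  have h2' : ((((Ioc Q (2 * Q)) ×ˢ (Ioc Q (2 * Q))).filter
      (fun x => Nat.Coprime x.1 x.2)).card : ℝ) + ((((Ioc Q (2 * Q)) ×ˢ (Ioc Q (2 * Q))).filter
      (fun x => ¬ Nat.Coprime x.1 x.2)).card : ℝ) = (Q : ℝ) ^ 2 := by exact_mod_cast h2
  have h4 := let_bad Q
  have h5 : (8 : ℝ) * Q = 2 ^ (10 * s) := by exact_mod_cast Qh_eq s (by omega)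
  have h6 : (2 : ℝ) ^ (20 * s) = 64 * (Q : ℝ) ^ 2 := by
    have e : 20 * s = 10 * s + 10 * s := by ring
    rw [e, pow_add, ← h5]
    ring
  have hlog : Real.log (2 * Q) ≤ 10 * s := by
    have hQ0 : (0 : ℝ) < Q := by exact_mod_cast Qh_pos s
    have h7 : Real.log (2 * Q) ≤ Real.log ((2 : ℝ) ^ (10 * s)) := by
      apply Real.log_le_log (by positivity)
      rw [← h5]
      linarith
    rw [Real.log_pow] at h7
    have h8 := Real.log_two_lt_d9
    have h9 : (0 : ℝ) ≤ ((10 * s : ℕ) : ℝ) := by positivity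
    push_cast at h7 h9
    nlinarith
  have hbig : (1024 : ℝ) * (10 * s - 12) ≤ Q := by
    have h7 : 10 * s - 13 + 1 ≤ 2 ^ (10 * s - 13) := Nat.lt_two_pow_self
    have h8 : Q = 1024 * 2 ^ (10 * s - 13) := by
      rw [hQ, Qh]
      have e : 10 * s - 3 = 10 + (10 * s - 13) := by omega
      rw [e, pow_add]
      norm_num
    have h9 : 1024 * (10 * s - 13 + 1) ≤ Q := by
      rw [h8]
      exact Nat.mul_le_mul_left _ h7
    have h10 : 10 * s - 13 + 1 = 10 * s - 12 := by omega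
    rw [h10] at h9
    have h11 : ((1024 * (10 * s - 12) : ℕ) : ℝ) ≤ Q := by exact_mod_cast h9
    rw [Nat.cast_mul, Nat.cast_sub (by omega)] at h11
    push_cast at h11
    exact h11
  have hs' : (50 : ℝ) ≤ s := by exact_mod_cast hs
  rw [h6]
  have hQ0 : (0 : ℝ) < Q := by exact_mod_cast Qh_pos s
  have h12 : 2 * (Q : ℝ) * (1 + Real.log (2 * Q)) + 2 * Q ≤ 0.18 * (Q : ℝ) ^ 2 := by
    have h13 : 2 * (1 + Real.log (2 * Q)) + 2 ≤ 0.18 * (Q : ℝ) := by linarith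
    have h14 := mul_le_mul_of_nonneg_left h13 hQ0.le
    nlinarith
  linarith

theorem card_Lt_ge (s : ℕ) (hs : 50 ≤ s) : (2 : ℝ) ^ s ≤ (Lt s).card := by
  refine le_trans ?_ (card_Lt s hs)
  rw [le_div_iff₀ (by norm_num)]
  have e : 20 * s = s + 9 + (19 * s - 9) := by omega
  rw [e, pow_add, pow_add]
  have h1 : (1 : ℝ) ≤ 2 ^ (19 * s - 9) := one_le_pow₀ (by norm_num)
  have h2 : (0 : ℝ) < 2 ^ s := by positivity
  calc (2 : ℝ) ^ s * 320 ≤ 2 ^ s * 2 ^ 9 := by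
        apply mul_le_mul_of_nonneg_left _ h2.le
        norm_num
    _ ≤ 2 ^ s * 2 ^ 9 * 2 ^ (19 * s - 9) := le_mul_of_one_le_right (by positivity) h1

end Pool.Agent.H1.PP
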