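import Pool.Agent.H1.PP.LPa
import Pool.Agent.H1.PP.LR

/-!
# PP-28 SSa: singular series, small moduli

`P = [[A, B], [C, D]]`, `A D - B C = 1` (so `C, D` are coprime), `s = sz P β`, `q ≥ 2`, `b` coprime to `q`.

PROOF of `small_q`.  `u = lf P a = a1 C + a2 D`.  If `q ∤ C` then `nd (b C/q) ≥ 1/q`.  For fixed `a2` the `a1` with
`(a1, a2) ∈ Om` form a set of consecutive integers (`mem_Om`: intersection of the conditions `0 < u < X` and
`a2 β - w < a1 < a2 β + w`), and `X - u` is monotone in `a1` with values in `[0, X]`.  By summation by parts and `sum_ee_le`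
(`|∑ e(k θ)| ≤ 1/(2 nd θ) ≤ q/2`) the sum over `a1` is at most `2 X q/2 = X q` in absolute value (`X q/2` with care).  The
number of `a2` is at most `2 (X/s + w) + 1` (`Om_bound`).  If `q ∣ C` then `q ∤ D`; exchange the roles of `a1, a2`
(for fixed `a1` the `a2` are consecutive as well); the number of `a1` is at most `2 (2X/s + w) + 1`.
-/

set_option autoImplicit false

open Finset

namespace Pool.Agent.H1.PP

open Pool.Agent.H10.RP (ee nd Lam)

theorem ssa_abel_id (f g : ℕ → ℂ) (n : ℕ) :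
    ∑ k ∈ range (n + 1), f k * g k =
      ∑ k ∈ range n, (f k - f (k + 1)) * (∑ j ∈ range (k + 1), g j) +
        f n * ∑ j ∈ range (n + 1), g j := by
  induction n with
  | zero => simp
  | succ n ih =>
    rw [sum_range_succ, ih, sum_range_succ (fun k => (f k - f (k + 1)) * (∑ j ∈ range (k + 1), g j)),
      sum_range_succ g (n + 1)]
    ring

theorem ssa_abel (f : ℕ → ℝ) (g : ℕ → ℂ) (M : ℝ) (n : ℕ) (hf : ∀ k ≤ n, 0 ≤ f k)
    (hf' : ∀ k < n, f (k + 1) ≤ f k) (hg : ∀ k ≤ n, ‖∑ j ∈ range (k + 1), g j‖ ≤ M) :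
    ‖∑ k ∈ range (n + 1), (f k : ℂ) * g k‖ ≤ f 0 * M := by
  rw [ssa_abel_id (fun k => (f k : ℂ)) g n]
  have h1 : ‖∑ k ∈ range n, ((f k : ℂ) - (f (k + 1) : ℂ)) * (∑ j ∈ range (k + 1), g j)‖ ≤
      ∑ k ∈ range n, (f k - f (k + 1)) * M := by
    refine (norm_sum_le _ _).trans (sum_le_sum fun k hk => ?_)
    have hk' := mem_range.1 hk
    rw [norm_mul, ← Complex.ofReal_sub, Complex.norm_real, Real.norm_eq_abs,
      abs_of_nonneg (by have := hf' k hk'; linarith)]
    exact mul_le_mul_of_nonneg_left (hg k hk'.le) (by have := hf' k hk'; linarith)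
  have h2 : ‖(f n : ℂ) * ∑ j ∈ range (n + 1), g j‖ ≤ f n * M := by
    rw [norm_mul, Complex.norm_real, Real.norm_eq_abs, abs_of_nonneg (hf n le_rfl)]
    exact mul_le_mul_of_nonneg_left (hg n le_rfl) (hf n le_rfl)
  have h3 : ∑ k ∈ range n, (f k - f (k + 1)) * M = (f 0 - f n) * M := by
    rw [← sum_mul, sum_range_sub']
  calc _ ≤ _ := norm_add_le _ _
    _ ≤ (f 0 - f n) * M + f n * M := by
        refine add_le_add (h1.trans h3.le) h2
    _ = f 0 * M := by ring

theorem ssa_Icc (l : ℤ) (n : ℕ) (F : ℤ → ℂ) :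
    ∑ k ∈ Icc l (l + n), F k = ∑ j ∈ range (n + 1), F (l + j) := by
  induction n with
  | zero => simp
  | succ n ih =>
    rw [sum_range_succ, ← ih]
    have : Icc l (l + ((n + 1 : ℕ) : ℤ)) = insert (l + ((n + 1 : ℕ) : ℤ)) (Icc l (l + (n : ℤ))) := by
      ext x
      simp only [mem_Icc, mem_insert]
      push_cast
      omega
    rw [this, sum_insert (by simp), add_comm]

theorem ssa_ee_add (x y : ℝ) : ee (x + y) = ee x * ee y := by
  unfold ee
  rw [← Complex.exp_add]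
  congr 1
  push_cast
  ring

theorem ssa_norm_ee (x : ℝ) : ‖ee x‖ = 1 := by
  unfold ee
  have : 2 * Real.pi * x * Complex.I = ((2 * Real.pi * x : ℝ) : ℂ) * Complex.I := by push_cast; ring
  rw [this, Complex.norm_exp_ofReal_mul_I]

/-- a finite convex set of integers is an interval -/
theorem ssa_conv (S : Finset ℤ) (hne : S.Nonempty)
    (hconv : ∀ x ∈ S, ∀ y ∈ S, ∀ z, x ≤ z → z ≤ y → z ∈ S) :
    ∃ (l : ℤ) (n : ℕ), S = Icc l (l + n) := by
  refine ⟨S.min' hne, (S.max' hne - S.min' hne).toNat, ?_⟩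
  have h : S.min' hne ≤ S.max' hne := S.min'_le_max' hne
  rw [Int.toNat_of_nonneg (by linarith)]
  ext z
  rw [mem_Icc]
  constructor
  · intro hz
    exact ⟨S.min'_le z hz, by have := S.le_max' z hz; linarith⟩
  · rintro ⟨h1, h2⟩
    exact hconv _ (S.min'_mem hne) _ (S.max'_mem hne) z h1 (by linarith)

theorem ssa_row {ι : Type*} (S : Finset ι) (r : ι → ℤ) (hinj : Set.InjOn r S)
    (hconv : ∀ x ∈ S, ∀ y ∈ S, ∀ z, r x ≤ z → z ≤ r y → ∃ a ∈ S, r a = z) (F : ι → ℂ)
    (θ ω c e X q : ℝ) (hc : 0 ≤ c)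
    (hF : ∀ a ∈ S, F a = ((e - c * r a : ℝ) : ℂ) * ee (θ * r a + ω))
    (h0 : ∀ a ∈ S, 0 ≤ e - c * r a ∧ e - c * r a ≤ X) (hX : 0 ≤ X) (hq : 0 < q)
    (hnd : 1 / q ≤ nd θ) : ‖∑ a ∈ S, F a‖ ≤ X * (q / 2) := by
  classical
  rcases S.eq_empty_or_nonempty with rfl | hne
  · simpa using by positivity
  have h1 : ∑ a ∈ S, F a = ∑ k ∈ S.image r, ((e - c * k : ℝ) : ℂ) * ee (θ * k + ω) := by
    rw [sum_image hinj]
    exact sum_congr rfl hF
  obtain ⟨l, n, hln⟩ := ssa_conv (S.image r) (hne.image r) (by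
    intro x hx y hy z hxz hzy
    obtain ⟨x', hx', rfl⟩ := mem_image.1 hx
    obtain ⟨y', hy', rfl⟩ := mem_image.1 hy
    obtain ⟨a, ha, rfl⟩ := hconv x' hx' y' hy' z hxz hzy
    exact mem_image_of_mem r ha)
  have h0' : ∀ k ∈ S.image r, 0 ≤ e - c * k ∧ e - c * k ≤ X := by
    intro k hk
    obtain ⟨a, ha, rfl⟩ := mem_image.1 hk
    exact h0 a ha
  rw [hln] at h1 h0'
  rw [h1, ssa_Icc]
  have h2 : ∀ j : ℕ, ((e - c * ((l + (j : ℤ) : ℤ) : ℝ) : ℝ) : ℂ) * ee (θ * ((l + (j : ℤ) : ℤ) : ℝ) + ω) =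
      ee ω * (((e - c * ((l + (j : ℤ) : ℤ) : ℝ) : ℝ) : ℂ) * ee (θ * ((l + (j : ℤ) : ℤ) : ℝ))) := by
    intro j
    rw [ssa_ee_add]
    ring
  rw [sum_congr rfl (fun j _ => h2 j), ← mul_sum, norm_mul, ssa_norm_ee, one_mul]
  have hmem : ∀ j ≤ n, (l + (j : ℤ)) ∈ Icc l (l + (n : ℤ)) := by
    intro j hj
    rw [mem_Icc]
    constructor <;> omega
  have h3 := ssa_abel (fun j : ℕ => e - c * ((l + (j : ℤ) : ℤ) : ℝ))
    (fun j : ℕ => ee (θ * ((l + (j : ℤ) : ℤ) : ℝ))) (q / 2) n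
    (fun k hk => (h0' _ (hmem k hk)).1)
    (fun k hk => by
      push_cast
      nlinarith)
    (fun k hk => by
      have h4 := sum_ee_le θ l (l + k)
      rw [ssa_Icc l k (fun m => ee (θ * m))] at h4
      have h5 : ‖∑ j ∈ range (k + 1), ee (θ * ((l + (j : ℤ) : ℤ) : ℝ))‖ * (2 * (1 / q)) ≤ 1 :=
        le_trans (mul_le_mul_of_nonneg_left (by linarith) (norm_nonneg _)) h4
      have h6 : ‖∑ j ∈ range (k + 1), ee (θ * ((l + (j : ℤ) : ℤ) : ℝ))‖ * 2 / q ≤ 1 := by
        calc _ = ‖∑ j ∈ range (k + 1), ee (θ * ((l + (j : ℤ) : ℤ) : ℝ))‖ * (2 * (1 / q)) := by ring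
          _ ≤ 1 := h5
      rw [div_le_one hq] at h6
      linarith)
  refine h3.trans ?_
  refine mul_le_mul_of_nonneg_right ?_ (by positivity)
  exact (h0' _ (hmem 0 (Nat.zero_le _))).2

theorem ssa_fib {ι : Type*} (S : Finset ι) (p : ι → ℤ) (F : ι → ℂ) (Y K : ℝ) (hY0 : 0 ≤ Y)
    (hK0 : 0 ≤ K) (hY : ∀ a ∈ S, |(p a : ℝ)| ≤ Y)
    (hK : ∀ t : ℤ, ‖∑ a ∈ S.filter (fun a => p a = t), F a‖ ≤ K) :
    ‖∑ a ∈ S, F a‖ ≤ K * (2 * Y + 1) := by
  have hmaps : ∀ a ∈ S, p a ∈ Icc (-⌊Y⌋) ⌊Y⌋ := by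
    intro a ha
    have h := hY a ha
    rw [mem_Icc]
    rw [abs_le] at h
    constructor
    · have : -(p a) ≤ ⌊Y⌋ := Int.le_floor.2 (by push_cast; linarith)
      linarith
    · exact Int.le_floor.2 h.2
  rw [← sum_fiberwise_of_maps_to hmaps]
  refine (norm_sum_le _ _).trans ?_
  refine (sum_le_card_nsmul _ _ K (fun t _ => hK t)).trans ?_
  rw [nsmul_eq_mul, mul_comm]
  refine mul_le_mul_of_nonneg_left ?_ hK0
  rw [Int.card_Icc]
  have h0 : 0 ≤ ⌊Y⌋ := Int.floor_nonneg.2 hY0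
  have h1 : ((⌊Y⌋ + 1 - -⌊Y⌋).toNat : ℝ) = 2 * (⌊Y⌋ : ℝ) + 1 := by
    have : ((⌊Y⌋ + 1 - -⌊Y⌋).toNat : ℤ) = 2 * ⌊Y⌋ + 1 := by
      rw [Int.toNat_of_nonneg (by linarith)]
      ring
    exact_mod_cast this
  rw [h1]
  have := Int.floor_le Y
  linarith

theorem ssa_nd (q b : ℕ) (C : ℤ) (hq : 2 ≤ q) (hb : Nat.Coprime b q) (hC : ¬ ((q : ℤ) ∣ C)) :
    1 / (q : ℝ) ≤ nd ((b : ℝ) * C / q) := by
  unfold nd
  have hq0 : (0 : ℝ) < q := by positivity
  set m := round ((b : ℝ) * C / q) with hm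
  have h1 : (b : ℝ) * C / q - m = (((b : ℤ) * C - q * m : ℤ) : ℝ) / q := by
    push_cast
    field_simp
  rw [h1, abs_div, abs_of_pos hq0]
  refine div_le_div_of_nonneg_right ?_ hq0.le
  have h2 : (b : ℤ) * C - q * m ≠ 0 := by
    intro h
    apply hC
    have h3 : (q : ℤ) ∣ (b : ℤ) * C := ⟨m, by linarith⟩
    have h4 : IsCoprime (q : ℤ) (b : ℤ) := by
      rw [Nat.isCoprime_iff_coprime]
      exact hb.symm
    exact h4.dvd_of_dvd_mul_left h3
  rw [← Int.cast_abs]
  exact_mod_cast Int.one_le_abs h2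

theorem small_q (P : M2) (β : ℝ) (X : ℕ) (w : ℝ) (hdet : P 0 0 * P 1 1 - P 0 1 * P 1 0 = 1)
    (hC : 0 < P 1 0) (hD : 0 < P 1 1) (hβ : 1 ≤ β) (hβ' : β ≤ 2) (hw : 0 ≤ w) (q b : ℕ) (hq : 2 ≤ q)
    (hb : Nat.Coprime b q) :
    ‖∑ a ∈ Om P β X w, (((X : ℝ) - lf P a : ℝ) : ℂ) * ee ((b : ℝ) * (lf P a : ℤ) / q)‖ ≤
      X * q * (4 * X / sz P β + 2 * w + 1) := by
  have hCr : (0 : ℝ) < (P 1 0 : ℝ) := by exact_mod_cast hC
  have hDr : (0 : ℝ) < (P 1 1 : ℝ) := by exact_mod_cast hD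
  have hs : 0 < sz P β := by
    unfold sz
    have : 0 < β := by linarith
    positivity
  have hq0 : (0 : ℝ) < q := by positivity
  have hX0 : (0 : ℝ) ≤ X := Nat.cast_nonneg X
  have hXs : 0 ≤ (X : ℝ) / sz P β := by positivity
  have hlfr : ∀ a : ℤ × ℤ, ((lf P a : ℤ) : ℝ) = (a.1 : ℝ) * P 1 0 + (a.2 : ℝ) * P 1 1 := by
    intro a
    unfold lf
    push_cast
    ring
  by_cases hqC : (q : ℤ) ∣ P 1 0
  · have hqD : ¬ ((q : ℤ) ∣ P 1 1) := by
      intro h
      have h1 : (q : ℤ) ∣ 1 := by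
        rw [← hdet]
        exact dvd_sub (h.mul_left _) (hqC.mul_left _)
      have h2 := Int.le_of_dvd one_pos h1
      have : (2 : ℤ) ≤ q := by exact_mod_cast hq
      linarith
    have hnd := ssa_nd q b (P 1 1) hq hb hqD
    have key := ssa_fib (Om P β X w) Prod.fst
      (fun a => (((X : ℝ) - lf P a : ℝ) : ℂ) * ee ((b : ℝ) * (lf P a : ℤ) / q))
      (2 * X / sz P β + w) (X * (q / 2)) (by positivity) (by positivity)
      (fun a ha => (Om_bound P β X w hC hD hβ hβ' a ha).1)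
      (fun t => by
        refine ssa_row ((Om P β X w).filter (fun a => a.1 = t)) Prod.snd ?_ ?_ _
          ((b : ℝ) * P 1 1 / q) ((b : ℝ) * ((t : ℝ) * P 1 0) / q) (P 1 1) ((X : ℝ) - t * P 1 0)
          X q hDr.le ?_ ?_ hX0 hq0 hnd
        · intro x hx y hy hxy
          simp only [coe_filter, Set.mem_ofPred_eq] at hx hy
          exact Prod.ext (hx.2.trans hy.2.symm) hxy
        · intro x hx y hy z hxz hzy
          simp only [mem_filter] at hx hy
          obtain ⟨hx1, hx2⟩ := hx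
          obtain ⟨hy1, hy2⟩ := hy
          rw [mem_Om P β X w hC hD hβ hβ'] at hx1 hy1
          refine ⟨(t, z), ?_, rfl⟩
          rw [mem_filter, mem_Om P β X w hC hD hβ hβ']
          refine ⟨⟨?_, ?_, ?_⟩, rfl⟩
          · have := hx1.1
            unfold lf at this ⊢
            simp only at this ⊢
            rw [hx2] at this
            nlinarith
          · have := hy1.2.1
            unfold lf at this ⊢
            simp only at this ⊢
            rw [hy2] at this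
            nlinarith
          · have h1 := hx1.2.2
            have h2 := hy1.2.2
            rw [hx2] at h1
            rw [hy2] at h2
            rw [abs_lt] at h1 h2 ⊢
            have hxz' : (x.2 : ℝ) ≤ z := by exact_mod_cast hxz
            have hzy' : (z : ℝ) ≤ y.2 := by exact_mod_cast hzy
            simp only
            constructor
            · nlinarith [h1.1]
            · nlinarith [h2.2]
        · intro a ha
          simp only [mem_filter] at ha
          rw [hlfr a, ha.2]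
          congr 2
          · ring
          · ring
        · intro a ha
          simp only [mem_filter] at ha
          have h1 := (mem_Om P β X w hC hD hβ hβ' a).1 ha.1
          have h2 : (0 : ℝ) < (lf P a : ℤ) := by exact_mod_cast h1.1
          have h3 : ((lf P a : ℤ) : ℝ) < X := by exact_mod_cast h1.2.1
          rw [hlfr a, ha.2] at h2 h3
          constructor <;> nlinarith)
    refine key.trans ?_
    have h1 : (0 : ℝ) ≤ 4 * X / sz P β + 2 * w + 1 := by positivity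
    have h2 : (X : ℝ) * (q / 2) * (2 * (2 * X / sz P β + w) + 1) =
        X * q * (4 * X / sz P β + 2 * w + 1) / 2 := by ring
    rw [h2]
    have h3 : 0 ≤ (X : ℝ) * q * (4 * X / sz P β + 2 * w + 1) := by positivity
    linarith
  · have hnd := ssa_nd q b (P 1 0) hq hb hqC
    have key := ssa_fib (Om P β X w) Prod.snd
      (fun a => (((X : ℝ) - lf P a : ℝ) : ℂ) * ee ((b : ℝ) * (lf P a : ℤ) / q))
      (X / sz P β + w) (X * (q / 2)) (by positivity) (by positivity)
      (fun a ha => (Om_bound P β X w hC hD hβ hβ' a ha).2.1)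
      (fun t => by
        refine ssa_row ((Om P β X w).filter (fun a => a.2 = t)) Prod.fst ?_ ?_ _
          ((b : ℝ) * P 1 0 / q) ((b : ℝ) * ((t : ℝ) * P 1 1) / q) (P 1 0) ((X : ℝ) - t * P 1 1)
          X q hCr.le ?_ ?_ hX0 hq0 hnd
        · intro x hx y hy hxy
          simp only [coe_filter, Set.mem_ofPred_eq] at hx hy
          exact Prod.ext hxy (hx.2.trans hy.2.symm)
        · intro x hx y hy z hxz hzy
          simp only [mem_filter] at hx hy
          obtain ⟨hx1, hx2⟩ := hx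
          obtain ⟨hy1, hy2⟩ := hy
          rw [mem_Om P β X w hC hD hβ hβ'] at hx1 hy1
          refine ⟨(z, t), ?_, rfl⟩
          rw [mem_filter, mem_Om P β X w hC hD hβ hβ']
          refine ⟨⟨?_, ?_, ?_⟩, rfl⟩
          · have := hx1.1
            unfold lf at this ⊢
            simp only at this ⊢
            rw [hx2] at this
            nlinarith
          · have := hy1.2.1
            unfold lf at this ⊢
            simp only at this ⊢
            rw [hy2] at this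
            nlinarith
          · have h1 := hx1.2.2
            have h2 := hy1.2.2
            rw [hx2] at h1
            rw [hy2] at h2
            rw [abs_lt] at h1 h2 ⊢
            have hxz' : (x.1 : ℝ) ≤ z := by exact_mod_cast hxz
            have hzy' : (z : ℝ) ≤ y.1 := by exact_mod_cast hzy
            simp only
            constructor
            · linarith [h2.1]
            · linarith [h1.2]
        · intro a ha
          simp only [mem_filter] at ha
          rw [hlfr a, ha.2]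
          congr 2
          · ring
          · ring
        · intro a ha
          simp only [mem_filter] at ha
          have h1 := (mem_Om P β X w hC hD hβ hβ' a).1 ha.1
          have h2 : (0 : ℝ) < (lf P a : ℤ) := by exact_mod_cast h1.1
          have h3 : ((lf P a : ℤ) : ℝ) < X := by exact_mod_cast h1.2.1
          rw [hlfr a, ha.2] at h2 h3
          constructor <;> nlinarith)
    refine key.trans ?_
    have h2 : (X : ℝ) * (q / 2) * (2 * (X / sz P β + w) + 1) =
        X * q * (X / sz P β + w + 1 / 2) := by ring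
    rw [h2]
    refine mul_le_mul_of_nonneg_left ?_ (by positivity)
    have h3 : 4 * (X : ℝ) / sz P β = 4 * (X / sz P β) := by ring
    rw [h3]
    linarith

theorem small_cq (P : M2) (β : ℝ) (X : ℕ) (w : ℝ) (hdet : P 0 0 * P 1 1 - P 0 1 * P 1 0 = 1)
    (hC : 0 < P 1 0) (hD : 0 < P 1 1) (hβ : 1 ≤ β) (hβ' : β ≤ 2) (hw : 0 ≤ w) (q : ℕ) (hq : 2 ≤ q) :
    ‖∑ a ∈ Om P β X w, (((X : ℝ) - lf P a : ℝ) : ℂ) * cq q (lf P a)‖ ≤
      Nat.totient q * (X * q * (4 * X / sz P β + 2 * w + 1)) := by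
  have h1 : ∑ a ∈ Om P β X w, (((X : ℝ) - lf P a : ℝ) : ℂ) * cq q (lf P a) =
      ∑ b ∈ (range q).filter (fun b => Nat.Coprime b q),
        ∑ a ∈ Om P β X w, (((X : ℝ) - lf P a : ℝ) : ℂ) * ee ((b : ℝ) * (lf P a : ℤ) / q) := by
    rw [sum_comm]
    refine sum_congr rfl fun a _ => ?_
    unfold cq
    rw [mul_sum]
  rw [h1]
  refine (norm_sum_le _ _).trans ?_
  refine (sum_le_card_nsmul _ _ _ (fun b hb => small_q P β X w hdet hC hD hβ hβ' hw q b hq
    (mem_filter.1 hb).2)).trans ?_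
  rw [nsmul_eq_mul]
  refine le_of_eq ?_
  congr 2
  unfold Nat.totient
  congr 1
  ext b
  simp only [mem_filter, Nat.coprime_comm]

end Pool.Agent.H1.PP
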