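import Pool.Agent.H1.PP.LPa
import Pool.Agent.H1.PP.LR

/-!
# PP-29 SSb: singular series, large moduli

`Z = 4 X / s + 2 w + 1`.

PROOF of `div_count`.  By `Om_bound` the coordinates `a1`, `a2` of the points of `Om` take values in intervals containing at
most `Z` integers each.  Let `g = gcd (C, d)`.  `d ∣ a1 C + a2 D` implies `g ∣ a2 D`, so `g ∣ a2` (`C, D` coprime); and for given
`a2`, `a1 (C/g) ≡ - (a2/g) D mod d/g` determines `a1` modulo `d/g`.  So the number of points is at most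
`(Z/g + 1)(Z g/d + 1) = Z²/d + Z/g + Z g/d + 1 ≤ Z²/d + 2 Z + 1`.

`large_cq`: by `cq_le`, `∑_a |c_q(lf P a)| ≤ ∑_{d ∣ q} d (Z²/d + 2 Z + 1) = τ(q) Z² + (2 Z + 1) σ(q)`.
-/

set_option autoImplicit false

open Finset

namespace Pool.Agent.H1.PP

open Pool.Agent.H10.RP (ee nd Lam)

/-- integers of an interval in a residue class -/
theorem ssb_res (S : Finset ℤ) (Y : ℝ) (hY : 0 ≤ Y) (m : ℕ) (hm : 1 ≤ m)
    (hS : ∀ x ∈ S, |(x : ℝ)| ≤ Y) (hd : ∀ x ∈ S, ∀ y ∈ S, (m : ℤ) ∣ x - y) :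
    (S.card : ℝ) ≤ 2 * Y / m + 1 := by
  have hm0 : (0 : ℝ) < m := by exact_mod_cast hm
  rcases S.eq_empty_or_nonempty with rfl | hne
  · simp only [card_empty, Nat.cast_zero]
    positivity
  set x0 := S.min' hne with hx0
  have hmem0 := S.min'_mem hne
  have h1 : S.card ≤ (Icc (0 : ℤ) ⌊2 * Y / m⌋).card := by
    refine card_le_card_of_injOn (fun x => (x - x0) / m) ?_ ?_
    · intro x hx
      have h2 := S.min'_le x hx
      obtain ⟨k, hk⟩ := hd x hx x0 hmem0
      have h3 : (x - x0) / (m : ℤ) = k := by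
        rw [hk]
        exact Int.mul_ediv_cancel_left _ (by omega)
      simp only [coe_Icc, Set.mem_Icc, h3]
      have h4 : (x : ℝ) - x0 = m * k := by exact_mod_cast hk
      have h5 := abs_le.1 (hS x hx)
      have h6 := abs_le.1 (hS x0 hmem0)
      constructor
      · by_contra hneg
        push Not at hneg
        have : (m : ℤ) * k < 0 := by
          have : (0 : ℤ) < m := by omega
          nlinarith
        linarith
      · rw [Int.le_floor, le_div_iff₀ hm0]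
        linarith [h5.2, h6.1]
    · intro x hx y hy hxy
      obtain ⟨k, hk⟩ := hd x hx x0 hmem0
      obtain ⟨l, hl⟩ := hd y hy x0 hmem0
      have h3 : (x - x0) / (m : ℤ) = k := by
        rw [hk]
        exact Int.mul_ediv_cancel_left _ (by omega)
      have h4 : (y - x0) / (m : ℤ) = l := by
        rw [hl]
        exact Int.mul_ediv_cancel_left _ (by omega)
      simp only [h3, h4] at hxy
      subst hxy
      linarith
  have h0 : 0 ≤ ⌊2 * Y / m⌋ := Int.floor_nonneg.2 (by positivity)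
  rw [Int.card_Icc] at h1
  have h2 : (((⌊2 * Y / m⌋ + 1 - 0).toNat : ℕ) : ℝ) = (⌊2 * Y / m⌋ : ℝ) + 1 := by
    have : (((⌊2 * Y / m⌋ + 1 - 0).toNat : ℕ) : ℤ) = ⌊2 * Y / m⌋ + 1 := by
      rw [Int.toNat_of_nonneg (by linarith)]
      ring
    exact_mod_cast this
  calc (S.card : ℝ) ≤ (((⌊2 * Y / m⌋ + 1 - 0).toNat : ℕ) : ℝ) := by exact_mod_cast h1
    _ = (⌊2 * Y / m⌋ : ℝ) + 1 := h2
    _ ≤ 2 * Y / m + 1 := by linarith [Int.floor_le (2 * Y / m)]

theorem div_count (P : M2) (β : ℝ) (X : ℕ) (w : ℝ) (hdet : P 0 0 * P 1 1 - P 0 1 * P 1 0 = 1)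
    (hC : 0 < P 1 0) (hD : 0 < P 1 1) (hβ : 1 ≤ β) (hβ' : β ≤ 2) (hw : 0 ≤ w) (d : ℕ) (hd : 1 ≤ d) :
    (((Om P β X w).filter (fun a => (d : ℤ) ∣ lf P a)).card : ℝ) ≤
      (4 * X / sz P β + 2 * w + 1) ^ 2 / d + 2 * (4 * X / sz P β + 2 * w + 1) + 1 := by
  classical
  have hCr : (0 : ℝ) < (P 1 0 : ℝ) := by exact_mod_cast hC
  have hDr : (0 : ℝ) < (P 1 1 : ℝ) := by exact_mod_cast hD
  have hs : 0 < sz P β := by
    unfold sz
    have : 0 < β := by linarith
    positivity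
  have hX0 : (0 : ℝ) ≤ X := Nat.cast_nonneg X
  have hXs : 0 ≤ (X : ℝ) / sz P β := by positivity
  have hcop : IsCoprime (P 1 0) (P 1 1) := ⟨-(P 0 1), P 0 0, by linarith⟩
  set g : ℕ := Int.gcd (P 1 0) d with hg
  have hgd : g ∣ d := by
    have : (g : ℤ) ∣ (d : ℤ) := Int.gcd_dvd_right ..
    exact_mod_cast this
  have hgC : (g : ℤ) ∣ P 1 0 := Int.gcd_dvd_left ..
  have hg1 : 1 ≤ g := Nat.pos_of_ne_zero (by
    intro h
    rw [h] at hgd
    rw [zero_dvd_iff] at hgd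
    omega)
  obtain ⟨m, hm⟩ := hgd
  have hm1 : 1 ≤ m := Nat.pos_of_ne_zero (by
    intro h
    rw [h] at hm
    omega)
  obtain ⟨C', hC'⟩ := hgC
  have hgD : IsCoprime (g : ℤ) (P 1 1) := IsCoprime.of_isCoprime_of_dvd_left hcop ⟨C', hC'⟩
  have hC'm : IsCoprime C' (m : ℤ) := by
    rw [Int.isCoprime_iff_gcd_eq_one]
    have h1 : Int.gcd (g * C') ((g : ℤ) * m) = g * Int.gcd C' m := by
      rw [Int.gcd_mul_left]
      simp
    have h2 : Int.gcd ((g : ℤ) * C') ((g : ℤ) * m) = g := by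
      have h3 : ((g : ℤ) * m) = (d : ℤ) := by
        rw [hm]
        push_cast
        rfl
      rw [← hC', h3]
    rw [h1] at h2
    exact Nat.eq_of_mul_eq_mul_left hg1 (by rw [h2, mul_one])
  set S := (Om P β X w).filter (fun a => (d : ℤ) ∣ lf P a) with hS
  have hSmem : ∀ a ∈ S, a ∈ Om P β X w ∧ (d : ℤ) ∣ lf P a := fun a ha => mem_filter.1 ha
  -- second coordinates
  have hga : ∀ a ∈ S, (g : ℤ) ∣ a.2 := by
    intro a ha
    have h1 : (g : ℤ) ∣ lf P a := dvd_trans ⟨m, by rw [hm]; push_cast; rfl⟩ (hSmem a ha).2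
    unfold lf at h1
    have h2 : (g : ℤ) ∣ a.2 * P 1 1 := by
      have h3 : (g : ℤ) ∣ a.1 * P 1 0 := Dvd.dvd.mul_left ⟨C', hC'⟩ _
      exact (dvd_add_right h3).1 h1
    exact hgD.dvd_of_dvd_mul_right h2
  have hgr : (1 : ℝ) ≤ g := by exact_mod_cast hg1
  have hmr : (1 : ℝ) ≤ m := by exact_mod_cast hm1
  have hdr : (d : ℝ) = g * m := by rw [hm]; push_cast; rfl
  set Z : ℝ := 4 * X / sz P β + 2 * w + 1 with hZ
  have hZ1 : 1 ≤ Z := by
    have : 0 ≤ 4 * (X : ℝ) / sz P β := by positivity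
    linarith
  have c2 : ((S.image Prod.snd).card : ℝ) ≤ Z / g + 1 := by
    refine (ssb_res (S.image Prod.snd) (X / sz P β + w) (by positivity) g hg1 ?_ ?_).trans ?_
    · intro x hx
      obtain ⟨a, ha, rfl⟩ := mem_image.1 hx
      exact (Om_bound P β X w hC hD hβ hβ' a (hSmem a ha).1).2.1
    · intro x hx y hy
      obtain ⟨a, ha, rfl⟩ := mem_image.1 hx
      obtain ⟨b, hb, rfl⟩ := mem_image.1 hy
      exact dvd_sub (hga a ha) (hga b hb)
    · have : 2 * (X / sz P β + w) ≤ Z := by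
        have h1 : 4 * (X : ℝ) / sz P β = 4 * (X / sz P β) := by ring
        rw [hZ, h1]
        linarith
      have h2 : 2 * (X / sz P β + w) / (g : ℝ) ≤ Z / g := div_le_div_of_nonneg_right this (by linarith)
      linarith
  have c1 : ∀ t ∈ S.image Prod.snd, ((S.filter (fun a => a.2 = t)).card : ℝ) ≤ Z / m + 1 := by
    intro t _
    have h1 : (S.filter (fun a => a.2 = t)).card = ((S.filter (fun a => a.2 = t)).image Prod.fst).card := by
      rw [card_image_of_injOn]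
      intro x hx y hy hxy
      rw [mem_coe, mem_filter] at hx hy
      exact Prod.ext hxy (hx.2.trans hy.2.symm)
    rw [h1]
    refine (ssb_res _ (2 * X / sz P β + w) (by positivity) m hm1 ?_ ?_).trans ?_
    · intro x hx
      obtain ⟨a, ha, rfl⟩ := mem_image.1 hx
      exact (Om_bound P β X w hC hD hβ hβ' a (hSmem a (mem_filter.1 ha).1).1).1
    · intro x hx y hy
      obtain ⟨a, ha, rfl⟩ := mem_image.1 hx
      obtain ⟨b, hb, rfl⟩ := mem_image.1 hy
      have h2 := (hSmem a (mem_filter.1 ha).1).2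
      have h3 := (hSmem b (mem_filter.1 hb).1).2
      have h4 : (d : ℤ) ∣ (a.1 - b.1) * P 1 0 := by
        have h5 := dvd_sub h2 h3
        unfold lf at h5
        rw [(mem_filter.1 ha).2, (mem_filter.1 hb).2] at h5
        have h6 : a.1 * P 1 0 + t * P 1 1 - (b.1 * P 1 0 + t * P 1 1) = (a.1 - b.1) * P 1 0 := by ring
        rwa [h6] at h5
      rw [hm, hC'] at h4
      push_cast at h4
      have h7 : (g : ℤ) * (m : ℤ) ∣ (g : ℤ) * ((a.1 - b.1) * C') := by
        have : (a.1 - b.1) * ((g : ℤ) * C') = (g : ℤ) * ((a.1 - b.1) * C') := by ring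
        rwa [this] at h4
      have h8 : (m : ℤ) ∣ (a.1 - b.1) * C' := by
        refine Int.dvd_of_mul_dvd_mul_left ?_ h7
        omega
      exact hC'm.symm.dvd_of_dvd_mul_right h8
    · have : 2 * (2 * X / sz P β + w) ≤ Z := by
        have h1 : 4 * (X : ℝ) / sz P β = 4 * (X / sz P β) := by ring
        have h2 : 2 * (X : ℝ) / sz P β = 2 * (X / sz P β) := by ring
        rw [hZ, h1, h2]
        linarith
      have h2 : 2 * (2 * X / sz P β + w) / (m : ℝ) ≤ Z / m := div_le_div_of_nonneg_right this (by linarith)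
      linarith
  have key : (S.card : ℝ) ≤ (Z / g + 1) * (Z / m + 1) := by
    rw [card_eq_sum_card_image Prod.snd S]
    push_cast
    refine (sum_le_card_nsmul _ _ _ c1).trans ?_
    rw [nsmul_eq_mul]
    exact mul_le_mul_of_nonneg_right c2 (by positivity)
  refine key.trans ?_
  have h1 : (Z / g + 1) * (Z / m + 1) = Z ^ 2 / d + Z / g + Z / m + 1 := by
    rw [hdr]
    field_simp
    ring
  rw [h1]
  have h2 : Z / g ≤ Z := div_le_self (by linarith) hgr
  have h3 : Z / m ≤ Z := div_le_self (by linarith) hmr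
  linarith

theorem large_cq (P : M2) (β : ℝ) (X : ℕ) (w : ℝ) (hdet : P 0 0 * P 1 1 - P 0 1 * P 1 0 = 1)
    (hC : 0 < P 1 0) (hD : 0 < P 1 1) (hβ : 1 ≤ β) (hβ' : β ≤ 2) (hw : 0 ≤ w) (q : ℕ) (hq : 1 ≤ q) :
    ∑ a ∈ Om P β X w, ‖cq q (lf P a)‖ ≤
      (Nat.divisors q).card * (4 * X / sz P β + 2 * w + 1) ^ 2 +
        (2 * (4 * X / sz P β + 2 * w + 1) + 1) * ∑ d ∈ Nat.divisors q, (d : ℝ) := by
  have h1 : ∑ a ∈ Om P β X w, ‖cq q (lf P a)‖ ≤
      ∑ a ∈ Om P β X w, ∑ d ∈ Nat.divisors q, (if (d : ℤ) ∣ lf P a then (d : ℝ) else 0) := by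
    refine sum_le_sum fun a _ => ?_
    rw [← sum_filter]
    exact cq_le q hq (lf P a)
  refine h1.trans ?_
  rw [sum_comm]
  have h2 : ∀ d ∈ Nat.divisors q, ∑ a ∈ Om P β X w, (if (d : ℤ) ∣ lf P a then (d : ℝ) else 0) ≤
      (4 * X / sz P β + 2 * w + 1) ^ 2 + (2 * (4 * X / sz P β + 2 * w + 1) + 1) * d := by
    intro d hd
    have hd1 : 1 ≤ d := Nat.pos_of_mem_divisors hd
    have hdr : (0 : ℝ) < d := by exact_mod_cast hd1
    rw [← sum_filter, sum_const, nsmul_eq_mul]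
    refine (mul_le_mul_of_nonneg_right (div_count P β X w hdet hC hD hβ hβ' hw d hd1) hdr.le).trans ?_
    refine le_of_eq ?_
    field_simp
    ring
  refine (sum_le_sum h2).trans ?_
  rw [sum_add_distrib, sum_const, nsmul_eq_mul, ← mul_sum]

end Pool.Agent.H1.PP
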