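import Pool.Agent.H1.PP.Defs
import Pool.Agent.H14.PT.Div

/-!
# PP-30 SSc: convergence of the series of the singular series

PROOF.  `card_div`: `τ(q) = ∏ (k_p + 1) ≤ C_ε q^ε` (for `p^ε ≥ 2` use `k + 1 ≤ 2^k ≤ p^(ε k)`; the finitely many `p < 2^(1/ε)`
contribute at most a constant each, `(k+1) ≤ C p^(ε k)`).
`q ≤ φ(q) τ(q)`: at prime powers `p^(k-1) (p-1) (k+1) ≥ p^k` since `(p-1)(k+1) ≥ 2 (p-1) ≥ p`.
So `τ(q)/φ(q)² ≤ τ(q)³/q² ≤ C q^(3ε - 2)` is summable: `tail_tau`.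
`σ(q) ≤ q τ(q)`, so `σ(q)/φ(q)² ≤ τ(q)³/q ≤ C q^(3 ε' - 1)` and `∑_{q ≤ R} ≤ C R^(3ε') (1 + log R) ≤ C' R^ε`.
-/

set_option autoImplicit false

open Finset

namespace Pool.Agent.H1.PP

open Pool.Agent.H10.RP (ee nd Lam)

theorem card_div (ε : ℝ) (hε : 0 < ε) : ∃ C : ℝ, 0 < C ∧ ∀ q : ℕ, 1 ≤ q →
    ((Nat.divisors q).card : ℝ) ≤ C * (q : ℝ) ^ ε := by
  obtain ⟨C, hC, h⟩ := Pool.Agent.H14.PT.divisor_bound ε hε
  exact ⟨C, by linarith, fun q hq => h q (by omega)⟩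

theorem ssc_phi (q : ℕ) (hq : 1 ≤ q) :
    (q : ℝ) ≤ Nat.totient q * ((Nat.divisors q).card : ℝ) := by
  have h1 : q ≤ Nat.totient q * (Nat.divisors q).card := by
    calc q = ∑ d ∈ Nat.divisors q, Nat.totient d := (Nat.sum_totient q).symm
      _ ≤ ∑ d ∈ Nat.divisors q, Nat.totient q := by
          refine sum_le_sum fun d hd => ?_
          exact Nat.le_of_dvd (Nat.totient_pos.2 (by omega))
            (Nat.totient_dvd_of_dvd (Nat.dvd_of_mem_divisors hd))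
      _ = Nat.totient q * (Nat.divisors q).card := by rw [sum_const, smul_eq_mul, mul_comm]
  exact_mod_cast h1

/-- `1/φ(q)² ≤ τ(q)²/q²` -/
theorem ssc_inv (q : ℕ) (hq : 1 ≤ q) :
    1 / (Nat.totient q : ℝ) ^ 2 ≤ ((Nat.divisors q).card : ℝ) ^ 2 / (q : ℝ) ^ 2 := by
  have h1 := ssc_phi q hq
  have h2 : (0 : ℝ) < Nat.totient q := by exact_mod_cast Nat.totient_pos.2 (by omega)
  have h3 : (0 : ℝ) < q := by exact_mod_cast hq
  rw [div_le_div_iff₀ (by positivity) (by positivity), one_mul, ← mul_pow]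
  refine pow_le_pow_left₀ h3.le ?_ 2
  linarith

theorem tail_tau (ε : ℝ) (hε : 0 < ε) : ∃ Q0 : ℕ, 2 ≤ Q0 ∧ ∀ R : ℕ,
    ∑ q ∈ Icc Q0 R, ((Nat.divisors q).card : ℝ) / (Nat.totient q : ℝ) ^ 2 ≤ ε := by
  obtain ⟨C, hC, hdiv⟩ := card_div (1 / 6) (by norm_num)
  have hsum : Summable (fun n : ℕ => C ^ 3 * (1 / (n : ℝ) ^ (3 / 2 : ℝ))) :=
    (Real.summable_one_div_nat_rpow.2 (by norm_num)).mul_left _
  obtain ⟨s, hs⟩ := summable_iff_vanishing_norm.1 hsum ε hε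
  refine ⟨max 2 (s.sup id + 1), le_max_left _ _, fun R => ?_⟩
  have h1 := hs (Icc (max 2 (s.sup id + 1)) R) (by
    rw [disjoint_left]
    intro a ha hb
    have h2 : a ≤ s.sup id := le_sup (f := id) hb
    have h3 := (mem_Icc.1 ha).1
    have h4 : s.sup id + 1 ≤ a := le_trans (le_max_right _ _) h3
    omega)
  refine le_trans ?_ (le_trans (le_abs_self _) h1.le)
  refine sum_le_sum fun q hq => ?_
  have hq1 : 1 ≤ q := by
    have h3 := (mem_Icc.1 hq).1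
    have h4 : 2 ≤ q := le_trans (le_max_left _ _) h3
    omega
  have hq0 : (0 : ℝ) < q := by exact_mod_cast hq1
  have ht : (0 : ℝ) ≤ (Nat.divisors q).card := Nat.cast_nonneg _
  calc ((Nat.divisors q).card : ℝ) / (Nat.totient q : ℝ) ^ 2
      = ((Nat.divisors q).card : ℝ) * (1 / (Nat.totient q : ℝ) ^ 2) := by ring
    _ ≤ ((Nat.divisors q).card : ℝ) * (((Nat.divisors q).card : ℝ) ^ 2 / (q : ℝ) ^ 2) :=
        mul_le_mul_of_nonneg_left (ssc_inv q hq1) ht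
    _ = ((Nat.divisors q).card : ℝ) ^ 3 / (q : ℝ) ^ 2 := by ring
    _ ≤ (C * (q : ℝ) ^ (1 / 6 : ℝ)) ^ 3 / (q : ℝ) ^ 2 :=
        div_le_div_of_nonneg_right (pow_le_pow_left₀ ht (hdiv q hq1) 3) (by positivity)
    _ = C ^ 3 * (1 / (q : ℝ) ^ (3 / 2 : ℝ)) := by
        have e1 : ((q : ℝ) ^ (1 / 6 : ℝ)) ^ 3 = (q : ℝ) ^ (1 / 2 : ℝ) := by
          rw [← Real.rpow_natCast, ← Real.rpow_mul hq0.le]
          norm_num
        have e2 : (q : ℝ) ^ 2 = (q : ℝ) ^ (1 / 2 : ℝ) * (q : ℝ) ^ (3 / 2 : ℝ) := by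
          rw [← Real.rpow_add hq0]
          norm_num
        rw [mul_pow, e1, e2]
        have : (0 : ℝ) < (q : ℝ) ^ (1 / 2 : ℝ) := by positivity
        field_simp

theorem sum_sigma (ε : ℝ) (hε : 0 < ε) : ∃ C : ℝ, 0 < C ∧ ∀ R : ℕ, 1 ≤ R →
    ∑ q ∈ Icc 1 R, (∑ d ∈ Nat.divisors q, (d : ℝ)) / (Nat.totient q : ℝ) ^ 2 ≤ C * (R : ℝ) ^ ε := by
  obtain ⟨C, hC, hdiv⟩ := card_div (ε / 6) (by positivity)
  refine ⟨C ^ 3 * (1 + 1 / (ε / 2)), by positivity, fun R hR => ?_⟩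
  have hR1 : (1 : ℝ) ≤ R := by exact_mod_cast hR
  have hR0 : (0 : ℝ) < R := by linarith
  have hterm : ∀ q ∈ Icc 1 R, (∑ d ∈ Nat.divisors q, (d : ℝ)) / (Nat.totient q : ℝ) ^ 2 ≤
      C ^ 3 * (R : ℝ) ^ (ε / 2) * (1 / q) := by
    intro q hq
    have hq1 : 1 ≤ q := (mem_Icc.1 hq).1
    have hqR : (q : ℝ) ≤ R := by exact_mod_cast (mem_Icc.1 hq).2
    have hq0 : (0 : ℝ) < q := by exact_mod_cast hq1
    have ht : (0 : ℝ) ≤ (Nat.divisors q).card := Nat.cast_nonneg _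
    have hsig : ∑ d ∈ Nat.divisors q, (d : ℝ) ≤ (Nat.divisors q).card * (q : ℝ) := by
      refine (sum_le_card_nsmul _ _ (q : ℝ) fun d hd => ?_).trans (by rw [nsmul_eq_mul])
      exact_mod_cast Nat.divisor_le hd
    calc (∑ d ∈ Nat.divisors q, (d : ℝ)) / (Nat.totient q : ℝ) ^ 2
        = (∑ d ∈ Nat.divisors q, (d : ℝ)) * (1 / (Nat.totient q : ℝ) ^ 2) := by ring
      _ ≤ ((Nat.divisors q).card * (q : ℝ)) * (((Nat.divisors q).card : ℝ) ^ 2 / (q : ℝ) ^ 2) :=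
          mul_le_mul hsig (ssc_inv q hq1) (by positivity) (by positivity)
      _ = ((Nat.divisors q).card : ℝ) ^ 3 * (1 / q) := by field_simp
      _ ≤ (C * (q : ℝ) ^ (ε / 6)) ^ 3 * (1 / q) :=
          mul_le_mul_of_nonneg_right (pow_le_pow_left₀ ht (hdiv q hq1) 3) (by positivity)
      _ = C ^ 3 * (q : ℝ) ^ (ε / 2) * (1 / q) := by
          have e1 : ((q : ℝ) ^ (ε / 6)) ^ 3 = (q : ℝ) ^ (ε / 2) := by
            rw [← Real.rpow_natCast, ← Real.rpow_mul hq0.le]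
            congr 1
            push_cast
            ring
          rw [mul_pow, e1]
      _ ≤ C ^ 3 * (R : ℝ) ^ (ε / 2) * (1 / q) := by
          refine mul_le_mul_of_nonneg_right ?_ (by positivity)
          refine mul_le_mul_of_nonneg_left ?_ (by positivity)
          exact Real.rpow_le_rpow hq0.le hqR (by positivity)
  refine (sum_le_sum hterm).trans ?_
  rw [← mul_sum]
  have hharm : ∑ q ∈ Icc 1 R, (1 / (q : ℝ)) ≤ 1 + Real.log R := by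
    have h := harmonic_le_one_add_log R
    rw [harmonic_eq_sum_Icc] at h
    push_cast at h
    simpa [one_div] using h
  have hlog : Real.log R ≤ (R : ℝ) ^ (ε / 2) / (ε / 2) :=
    Real.log_le_rpow_div hR0.le (by positivity)
  have hpow : 1 ≤ (R : ℝ) ^ (ε / 2) := Real.one_le_rpow hR1 (by positivity)
  have h1 : 1 + Real.log R ≤ (1 + 1 / (ε / 2)) * (R : ℝ) ^ (ε / 2) := by
    have : (1 + 1 / (ε / 2)) * (R : ℝ) ^ (ε / 2) = (R : ℝ) ^ (ε / 2) + (R : ℝ) ^ (ε / 2) / (ε / 2) := by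
      ring
    rw [this]
    linarith
  have e3 : (R : ℝ) ^ ε = (R : ℝ) ^ (ε / 2) * (R : ℝ) ^ (ε / 2) := by
    rw [← Real.rpow_add hR0]
    congr 1
    ring
  calc C ^ 3 * (R : ℝ) ^ (ε / 2) * ∑ q ∈ Icc 1 R, (1 / (q : ℝ))
      ≤ C ^ 3 * (R : ℝ) ^ (ε / 2) * ((1 + 1 / (ε / 2)) * (R : ℝ) ^ (ε / 2)) :=
        mul_le_mul_of_nonneg_left (hharm.trans h1) (by positivity)
    _ = C ^ 3 * (1 + 1 / (ε / 2)) * (R : ℝ) ^ ε := by
        rw [e3]
        ring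

end Pool.Agent.H1.PP
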