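import Pool.Agent.H1.PP.LPb
import Pool.Agent.H1.PP.SSa
import Pool.Agent.H1.PP.SSb
import Pool.Agent.H1.PP.SSc

/-!
# PP-31 MT: the main term

Here `L = log X`, `U = X/√L`, `s0 = sz P β = C β + D`, `w = t (L/X) s0`, `Z = 4 X/s0 + 2 w + 1`, `R = RX X = ⌊L^4000⌋`.
From `U ≤ C ≤ W U`, `D < 2 C`: `U ≤ s0 ≤ 4 W U`, so `X/s0 ≤ √L`, `w ≤ 4 W t √L`, `Z ≤ c1 √L` with `c1 = c1(W, t)`.

PROOF.  For `a ∈ Om`, `0 < lf P a < X`, `Cor_LamR`: `Cor (LamR R) X (lf P a) = (X - lf P a) SSr R (lf P a) + O(R^4)`; the number of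
points is `≤ Z²` (`Om_card`), so the error is `≤ c1² L R^4 = o(X)`.
`∑_a (X - lf P a) SSr R (lf P a) = ∑_{q ≤ R} (μ(q)²/φ(q)²) ∑_a (X - lf P a) c_q(lf P a)`.
`q = 1`: `∑_a (X - lf P a) = w X²/s0 + O(X (3 w + 4 X/s0 + 4)) = t X L + O(X √L)` by `Om_weighted` (`w/s0 = t L/X`).
`2 ≤ q < Q0` (`Q0` a constant from `tail_tau`): by `small_cq` at most `∑_{q < Q0} (1/φ(q)) X q Z ≤ Q0² X Z = O(X √L)`.
`Q0 ≤ q ≤ R`: by `large_cq` at most `X (Z² ∑_{q ≥ Q0} τ(q)/φ(q)² + (2 Z + 1) ∑_{q ≤ R} σ(q)/φ(q)²)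
≤ X (c1² L ε' + (2 c1 √L + 1) C R^(1/16000))`, and `R^(1/16000) ≤ L^(1/4)` (`sum_sigma (1/16000)`).
Choose `ε' = ε/(4 c1²)`, then `X` large.
-/

set_option autoImplicit false

open Finset

namespace Pool.Agent.H1.PP

open Pool.Agent.H10.RP (ee nd Lam)

theorem mt_cq_one (h : ℤ) : cq 1 h = 1 := by
  have h1 : (range 1).filter (fun b => Nat.Coprime b 1) = {0} := by decide
  rw [cq, h1, sum_singleton]
  simp [ee]

theorem mt_ev (y0 K : ℝ) : ∃ X0 : ℕ, ∀ X : ℕ, X0 ≤ X →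
    y0 ≤ Real.sqrt (Real.sqrt (Real.log X)) ∧ 1 ≤ Real.sqrt (Real.sqrt (Real.log X)) ∧
      K * (Real.log X) ^ 16000 ≤ X := by
  have h1 : Filter.Tendsto (fun X : ℕ => Real.sqrt (Real.sqrt (Real.log X))) Filter.atTop
      Filter.atTop :=
    Real.tendsto_sqrt_atTop.comp (Real.tendsto_sqrt_atTop.comp
      (Real.tendsto_log_atTop.comp tendsto_natCast_atTop_atTop))
  have h2 : ∀ᶠ X : ℕ in Filter.atTop, K * (Real.log X) ^ 16000 ≤ X := by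
    have h3 := (Real.isLittleO_pow_log_id_atTop (n := 16000)).def
      (c := 1 / (|K| + 1)) (by positivity)
    have h4 := tendsto_natCast_atTop_atTop (R := ℝ) |>.eventually h3
    filter_upwards [h4] with X hX
    have h9 : ‖id (X : ℝ)‖ = X := Real.norm_of_nonneg (Nat.cast_nonneg X)
    rw [h9, Real.norm_eq_abs] at hX
    calc K * Real.log X ^ 16000 ≤ |K * Real.log X ^ 16000| := le_abs_self _
      _ = |K| * |Real.log X ^ 16000| := abs_mul _ _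
      _ ≤ (|K| + 1) * (1 / (|K| + 1) * X) := by gcongr; linarith
      _ = X := by
        have : |K| + 1 ≠ 0 := by positivity
        field_simp
  have h5 := (h1.eventually_ge_atTop y0).and ((h1.eventually_ge_atTop 1).and h2)
  exact Filter.eventually_atTop.1 h5

theorem mt_RX {X : ℕ} {y : ℝ} (hy : 1 ≤ y) (hL : Real.log X = y ^ 4) :
    1 ≤ RX X ∧ ((RX X : ℕ) : ℝ) ≤ (y ^ 4) ^ 4000 ∧
      ((RX X : ℕ) : ℝ) ^ ((1 : ℝ) / 16000) ≤ y := by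
  have h1 : (1 : ℝ) ≤ (y ^ 4) ^ 4000 := one_le_pow₀ (one_le_pow₀ hy)
  have h2 : ((RX X : ℕ) : ℝ) ≤ (y ^ 4) ^ 4000 := by
    rw [RX, hL]
    exact Nat.floor_le (by positivity)
  refine ⟨?_, h2, ?_⟩
  · rw [RX, hL]
    exact Nat.le_floor (by exact_mod_cast h1)
  · calc ((RX X : ℕ) : ℝ) ^ ((1 : ℝ) / 16000) ≤ ((y ^ 4) ^ 4000) ^ ((1 : ℝ) / 16000) :=
        Real.rpow_le_rpow (Nat.cast_nonneg _) h2 (by norm_num)
      _ = y := by
        rw [← pow_mul, ← Real.rpow_natCast, ← Real.rpow_mul (by linarith)]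
        norm_num

/-- the sum over `q ≥ 2` -/
theorem mt_tail (R Q0 : ℕ) (hQ0 : 2 ≤ Q0) (X Z e' S : ℝ) (hX : 0 ≤ X) (hZ : 0 ≤ Z)
    (T : ℕ → ℂ)
    (h1 : ∀ q, 2 ≤ q → ‖T q‖ ≤ Nat.totient q * (X * q * Z))
    (h2 : ∀ q, 1 ≤ q → ‖T q‖ ≤ X * ((Nat.divisors q).card * Z ^ 2 +
        (2 * Z + 1) * ∑ d ∈ Nat.divisors q, (d : ℝ)))
    (h3 : ∑ q ∈ Icc Q0 R, ((Nat.divisors q).card : ℝ) / (Nat.totient q : ℝ) ^ 2 ≤ e')
    (h4 : ∑ q ∈ Icc 1 R, (∑ d ∈ Nat.divisors q, (d : ℝ)) / (Nat.totient q : ℝ) ^ 2 ≤ S) :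
    ‖∑ q ∈ Icc 2 R, ((ArithmeticFunction.moebius q : ℝ) ^ 2 / (Nat.totient q : ℝ) ^ 2 : ℂ) * T q‖ ≤
      (Q0 : ℝ) ^ 2 * (X * Z) + X * (Z ^ 2 * e' + (2 * Z + 1) * S) := by
  have hc : ∀ q : ℕ, 1 ≤ q →
      ‖((ArithmeticFunction.moebius q : ℝ) ^ 2 / (Nat.totient q : ℝ) ^ 2 : ℂ)‖ ≤
        1 / (Nat.totient q : ℝ) ^ 2 := by
    intro q hq
    have e1 : ((ArithmeticFunction.moebius q : ℝ) ^ 2 / (Nat.totient q : ℝ) ^ 2 : ℂ) =
        (((ArithmeticFunction.moebius q : ℝ) ^ 2 / (Nat.totient q : ℝ) ^ 2 : ℝ) : ℂ) := by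
      push_cast
      rfl
    rw [e1, Complex.norm_real, Real.norm_eq_abs, abs_div, abs_pow, abs_pow]
    have h5 : |(Nat.totient q : ℝ)| = Nat.totient q := abs_of_nonneg (Nat.cast_nonneg _)
    rw [h5]
    have h6 : |((ArithmeticFunction.moebius q : ℤ) : ℝ)| ≤ 1 := by
      have := ArithmeticFunction.abs_moebius_le_one (n := q)
      exact_mod_cast this
    gcongr
    exact pow_le_one₀ (abs_nonneg _) h6
  have hφ : ∀ q : ℕ, 1 ≤ q → (1 : ℝ) ≤ Nat.totient q := by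
    intro q hq
    exact_mod_cast Nat.totient_pos.2 hq
  have key : ∀ q ∈ Icc 2 R,
      ‖((ArithmeticFunction.moebius q : ℝ) ^ 2 / (Nat.totient q : ℝ) ^ 2 : ℂ) * T q‖ ≤
      (if q < Q0 then (Q0 : ℝ) * (X * Z) else 0) +
      (if Q0 ≤ q then X * ((((Nat.divisors q).card : ℝ) / (Nat.totient q : ℝ) ^ 2) * Z ^ 2 +
        (2 * Z + 1) * ((∑ d ∈ Nat.divisors q, (d : ℝ)) / (Nat.totient q : ℝ) ^ 2)) else 0) := by
    intro q hq
    have hq2 : 2 ≤ q := (mem_Icc.1 hq).1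
    have hf := hφ q (by omega)
    rw [norm_mul]
    by_cases hlt : q < Q0
    · rw [if_pos hlt, if_neg (not_le.2 hlt), add_zero]
      calc _ ≤ 1 / (Nat.totient q : ℝ) ^ 2 * (Nat.totient q * (X * q * Z)) := by
            gcongr
            · exact hc q (by omega)
            · exact h1 q hq2
        _ = (1 / (Nat.totient q : ℝ)) * (q * (X * Z)) := by
            field_simp
        _ ≤ 1 * (Q0 * (X * Z)) := by
            gcongr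
            rw [div_le_one (by linarith)]
            exact hf
        _ = Q0 * (X * Z) := one_mul _
    · rw [if_neg hlt, if_pos (not_lt.1 hlt), zero_add]
      calc _ ≤ 1 / (Nat.totient q : ℝ) ^ 2 * (X * ((Nat.divisors q).card * Z ^ 2 +
              (2 * Z + 1) * ∑ d ∈ Nat.divisors q, (d : ℝ))) := by
            gcongr
            · exact hc q (by omega)
            · exact h2 q (by omega)
        _ = _ := by
            field_simp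
  refine (norm_sum_le _ _).trans ((sum_le_sum key).trans ?_)
  rw [sum_add_distrib]
  refine add_le_add ?_ ?_
  · rw [← sum_filter, sum_const, nsmul_eq_mul]
    have h5 : (((Icc 2 R).filter (fun q => q < Q0)).card : ℝ) ≤ Q0 := by
      have : (Icc 2 R).filter (fun q => q < Q0) ⊆ range Q0 := by
        intro q hq
        exact mem_range.2 (mem_filter.1 hq).2
      have h6 := card_le_card this
      rw [card_range] at h6
      exact_mod_cast h6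
    calc _ ≤ (Q0 : ℝ) * (Q0 * (X * Z)) := by gcongr
      _ = _ := by ring
  · rw [← sum_filter]
    have h5 : (Icc 2 R).filter (fun q => Q0 ≤ q) = Icc Q0 R := by
      ext q
      simp only [mem_filter, mem_Icc]
      omega
    rw [h5, ← mul_sum, sum_add_distrib, ← sum_mul, ← mul_sum, mul_comm (∑ i ∈ Icc Q0 R, _) (Z ^ 2)]
    have h6 : ∑ q ∈ Icc Q0 R, (∑ d ∈ Nat.divisors q, (d : ℝ)) / (Nat.totient q : ℝ) ^ 2 ≤ S := by
      refine le_trans (sum_le_sum_of_subset_of_nonneg ?_ ?_) h4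
      · exact Icc_subset_Icc_left (by omega)
      · intro q _ _
        positivity
    gcongr

theorem MT (W t ε : ℝ) (hW : 1 ≤ W) (ht : 0 < t) (hε : 0 < ε) : ∃ X0 : ℕ, ∀ X : ℕ, X0 ≤ X →
    ∀ (P : M2) (β : ℝ), P 0 0 * P 1 1 - P 0 1 * P 1 0 = 1 → 0 < P 1 1 → P 1 1 < 2 * P 1 0 →
    1 ≤ β → β ≤ 2 → X / Real.sqrt (Real.log X) ≤ P 1 0 →
    (P 1 0 : ℝ) ≤ W * (X / Real.sqrt (Real.log X)) →
    ‖∑ a ∈ Om P β X (t * Real.log X / X * sz P β), Cor (LamR (RX X)) X (lf P a) -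
      ((t * X * Real.log X : ℝ) : ℂ)‖ ≤ ε * X * Real.log X := by
  obtain ⟨c1, hc1⟩ : ∃ c1 : ℝ, c1 = 5 + 8 * W * t := ⟨_, rfl⟩
  have hWt : 0 < W * t := by positivity
  have hc1' : 5 ≤ c1 := by rw [hc1]; nlinarith
  obtain ⟨Q0, hQ0, htau⟩ := tail_tau (ε / (5 * c1 ^ 2)) (by positivity)
  obtain ⟨C0, hC0, hsig⟩ := sum_sigma (1 / 16000) (by norm_num)
  obtain ⟨c2, hc2⟩ : ∃ c2 : ℝ, c2 = 12 * W * t + 8 := ⟨_, rfl⟩
  have hc2' : 0 < c2 := by rw [hc2]; nlinarith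
  obtain ⟨X0, hX0⟩ := mt_ev (5 / ε * (c2 + Q0 ^ 2 * c1 + 3 * c1 * C0)) (5 / ε * c1 ^ 2)
  refine ⟨max X0 1, fun X hX P β hdet hD hDC hβ hβ' hU hW' => ?_⟩
  obtain ⟨hy1, hy2, hy3⟩ := hX0 X (le_trans (le_max_left _ _) hX)
  have hX1 : 1 ≤ X := le_trans (le_max_right _ _) hX
  have hXr : (1 : ℝ) ≤ X := by exact_mod_cast hX1
  obtain ⟨y, hy⟩ : ∃ y : ℝ, y = Real.sqrt (Real.sqrt (Real.log X)) := ⟨_, rfl⟩
  rw [← hy] at hy1 hy2
  have hy0 : 0 < y := by linarith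
  have hsq : Real.sqrt (Real.log X) = y ^ 2 := by
    rw [hy, Real.sq_sqrt (Real.sqrt_nonneg _)]
  have hlog0 : 0 < Real.log X := by
    by_contra hneg
    have h0 : Real.sqrt (Real.log X) = 0 := Real.sqrt_eq_zero_of_nonpos (not_lt.1 hneg)
    rw [h0] at hsq
    have : 0 < y ^ 2 := by positivity
    linarith
  have hL : Real.log X = y ^ 4 := by
    have h1 : Real.log X = (Real.sqrt (Real.log X)) ^ 2 := (Real.sq_sqrt hlog0.le).symm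
    rw [h1, hsq]
    ring
  obtain ⟨hR1, hR2, hR3⟩ := mt_RX hy2 hL
  rw [hsq] at hU hW'
  have hCr : (0 : ℝ) < P 1 0 := lt_of_lt_of_le (by positivity) hU
  have hC : 0 < P 1 0 := by exact_mod_cast hCr
  have hDr : (0 : ℝ) < P 1 1 := by exact_mod_cast hD
  have hDCr : (P 1 1 : ℝ) < 2 * P 1 0 := by exact_mod_cast hDC
  obtain ⟨s0, hs0⟩ : ∃ s0 : ℝ, s0 = sz P β := ⟨_, rfl⟩
  have hs0' : s0 = (P 1 0 : ℝ) * β + P 1 1 := by rw [hs0]; rfl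
  have hs1 : X / y ^ 2 ≤ s0 := by
    rw [hs0']
    nlinarith
  have hs2 : s0 ≤ 4 * W * (X / y ^ 2) := by
    rw [hs0']
    nlinarith
  have hs3 : 0 < s0 := lt_of_lt_of_le (by positivity) hs1
  obtain ⟨w, hw⟩ : ∃ w : ℝ, w = t * Real.log X / X * sz P β := ⟨_, rfl⟩
  rw [← hw]
  have hw' : w = t * y ^ 4 / X * s0 := by rw [hw, hL, hs0]
  have hw0 : 0 ≤ w := by rw [hw']; positivity
  have hw1 : w ≤ 4 * W * t * y ^ 2 := by
    rw [hw']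
    calc t * y ^ 4 / X * s0 ≤ t * y ^ 4 / X * (4 * W * (X / y ^ 2)) := by gcongr
      _ = 4 * W * t * y ^ 2 := by
        have : y ≠ 0 := hy0.ne'
        field_simp
  have hXs : X / s0 ≤ y ^ 2 := by
    rw [div_le_iff₀ hs3]
    have h1 : (X : ℝ) = y ^ 2 * (X / y ^ 2) := by field_simp
    calc (X : ℝ) = y ^ 2 * (X / y ^ 2) := h1
      _ ≤ y ^ 2 * s0 := mul_le_mul_of_nonneg_left hs1 (by positivity)
  have hy22 : 1 ≤ y ^ 2 := one_le_pow₀ hy2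
  obtain ⟨Z, hZ⟩ : ∃ Z : ℝ, Z = 4 * X / sz P β + 2 * w + 1 := ⟨_, rfl⟩
  have hZ0 : 0 ≤ Z := by rw [hZ, ← hs0]; positivity
  have hZ1 : Z ≤ c1 * y ^ 2 := by
    rw [hZ, ← hs0, hc1, mul_div_assoc]
    nlinarith
  have hcard := Om_card P β X w hC hD hβ hβ' hw0
  have hwt := Om_weighted P β X w hC hD hβ hβ' hw0 hX1
  have hmem := fun a => mem_Om P β X w hC hD hβ hβ' a
  rw [← hZ] at hcard
  obtain ⟨R, hR⟩ : ∃ R : ℕ, R = RX X := ⟨_, rfl⟩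
  rw [← hR] at hR1 hR2 hR3 ⊢
  -- first step
  have hA : ‖∑ a ∈ Om P β X w, Cor (LamR R) X (lf P a) -
      ∑ a ∈ Om P β X w, (((X : ℝ) - lf P a : ℝ) : ℂ) * SSr R (lf P a)‖ ≤
      Z ^ 2 * (R : ℝ) ^ 4 := by
    rw [← sum_sub_distrib]
    refine (norm_sum_le _ _).trans ?_
    refine (sum_le_sum (g := fun _ => (R : ℝ) ^ 4) fun a ha => ?_).trans ?_
    · obtain ⟨h1, h2, _⟩ := (hmem a).1 ha
      have h3 := Cor_LamR R X hR1 (lf P a) (by rw [abs_of_pos h1]; exact h2)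
      have h4 : |((lf P a : ℤ) : ℝ)| = (lf P a : ℝ) := abs_of_pos (by exact_mod_cast h1)
      rw [h4] at h3
      exact h3
    · rw [sum_const, nsmul_eq_mul]
      gcongr
  obtain ⟨T, hT⟩ : ∃ T : ℕ → ℂ, T = fun q =>
      ∑ a ∈ Om P β X w, (((X : ℝ) - lf P a : ℝ) : ℂ) * cq q (lf P a) := ⟨_, rfl⟩
  have hB : ∑ a ∈ Om P β X w, (((X : ℝ) - lf P a : ℝ) : ℂ) * SSr R (lf P a) =
      ((∑ a ∈ Om P β X w, ((X : ℝ) - lf P a) : ℝ) : ℂ) +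
      ∑ q ∈ Icc 2 R,
        ((ArithmeticFunction.moebius q : ℝ) ^ 2 / (Nat.totient q : ℝ) ^ 2 : ℂ) * T q := by
    have h1 : ∑ a ∈ Om P β X w, (((X : ℝ) - lf P a : ℝ) : ℂ) * SSr R (lf P a) =
        ∑ q ∈ Icc 1 R,
        ((ArithmeticFunction.moebius q : ℝ) ^ 2 / (Nat.totient q : ℝ) ^ 2 : ℂ) * T q := by
      rw [hT]
      simp only [SSr, mul_sum]
      rw [sum_comm]
      refine sum_congr rfl fun q _ => sum_congr rfl fun a _ => ?_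
      ring
    have h2 : Icc 1 R = insert 1 (Icc 2 R) := by
      ext q
      simp only [mem_insert, mem_Icc]
      omega
    rw [h1, h2, sum_insert (by simp)]
    congr 1
    rw [hT]
    simp only [mt_cq_one]
    simp
  have hT1 : ∀ q, 2 ≤ q → ‖T q‖ ≤ Nat.totient q * ((X : ℝ) * q * Z) := by
    intro q hq
    rw [hT, hZ]
    exact small_cq P β X w hdet hC hD hβ hβ' hw0 q hq
  have hT2 : ∀ q, 1 ≤ q → ‖T q‖ ≤ (X : ℝ) * ((Nat.divisors q).card * Z ^ 2 +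
        (2 * Z + 1) * ∑ d ∈ Nat.divisors q, (d : ℝ)) := by
    intro q hq
    have h1 := large_cq P β X w hdet hC hD hβ hβ' hw0 q hq
    rw [← hZ] at h1
    rw [hT]
    refine (norm_sum_le _ _).trans ?_
    refine le_trans (sum_le_sum (g := fun a => (X : ℝ) * ‖cq q (lf P a)‖) fun a ha => ?_) ?_
    · obtain ⟨h3, h4, _⟩ := (hmem a).1 ha
      rw [norm_mul, Complex.norm_real, Real.norm_eq_abs]
      have h5 : |(X : ℝ) - lf P a| ≤ X := by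
        have h6 : (0 : ℝ) < lf P a := by exact_mod_cast h3
        have h7 : (lf P a : ℝ) < X := by exact_mod_cast h4
        rw [abs_of_nonneg (by linarith)]
        linarith
      gcongr
    · rw [← mul_sum]
      gcongr
  have hS := hsig R hR1
  have hS' : ∑ q ∈ Icc 1 R, (∑ d ∈ Nat.divisors q, (d : ℝ)) / (Nat.totient q : ℝ) ^ 2 ≤ C0 * y := by
    refine hS.trans ?_
    gcongr
  have htail := mt_tail R Q0 hQ0 X Z (ε / (5 * c1 ^ 2)) (C0 * y) (by positivity) hZ0 T hT1 hT2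
    (htau R) hS'
  -- the numbers
  have hmain : w * (X : ℝ) ^ 2 / sz P β = t * X * Real.log X := by
    rw [← hs0, hw', hL]
    field_simp
  rw [hmain] at hwt
  have hy4 : 1 ≤ y ^ 4 := one_le_pow₀ hy2
  have e1 : Z ^ 2 * (R : ℝ) ^ 4 ≤ ε / 5 * (X * y ^ 4) := by
    have h1 : c1 ^ 2 * (y ^ 4) ^ 16000 ≤ ε / 5 * X := by
      rw [hL] at hy3
      have h2 : ε / 5 * (5 / ε * c1 ^ 2 * (y ^ 4) ^ 16000) ≤ ε / 5 * X := by gcongr
      calc c1 ^ 2 * (y ^ 4) ^ 16000 = ε / 5 * (5 / ε * c1 ^ 2 * (y ^ 4) ^ 16000) := by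
            field_simp
        _ ≤ _ := h2
    calc Z ^ 2 * (R : ℝ) ^ 4 ≤ (c1 * y ^ 2) ^ 2 * ((y ^ 4) ^ 4000) ^ 4 := by gcongr
      _ = c1 ^ 2 * (y ^ 4) ^ 16000 * y ^ 4 := by
        rw [← pow_mul (y ^ 4) 4000 4]
        ring
      _ ≤ ε / 5 * X * y ^ 4 := by gcongr
      _ = _ := by ring
  have hy1' : (c2 + Q0 ^ 2 * c1 + 3 * c1 * C0) ≤ ε / 5 * y := by
    have h2 : ε / 5 * (5 / ε * (c2 + Q0 ^ 2 * c1 + 3 * c1 * C0)) ≤ ε / 5 * y := by gcongr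
    calc _ = ε / 5 * (5 / ε * (c2 + Q0 ^ 2 * c1 + 3 * c1 * C0)) := by field_simp
      _ ≤ _ := h2
  have e2 : (X : ℝ) * (3 * w + 4 * X / sz P β + 4) ≤ X * (c2 * y ^ 2) := by
    rw [← hs0, hc2, mul_div_assoc]
    gcongr
    nlinarith
  have e3 : (Q0 : ℝ) ^ 2 * (X * Z) ≤ X * (Q0 ^ 2 * c1 * y ^ 2) := by
    calc (Q0 : ℝ) ^ 2 * (X * Z) ≤ (Q0 : ℝ) ^ 2 * (X * (c1 * y ^ 2)) := by gcongr
      _ = _ := by ring
  have e4 : (X : ℝ) * (Z ^ 2 * (ε / (5 * c1 ^ 2)) + (2 * Z + 1) * (C0 * y)) ≤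
      X * (ε / 5 * y ^ 4 + 3 * c1 * C0 * y ^ 3) := by
    refine mul_le_mul_of_nonneg_left (add_le_add ?_ ?_) (by positivity)
    · calc Z ^ 2 * (ε / (5 * c1 ^ 2)) ≤ (c1 * y ^ 2) ^ 2 * (ε / (5 * c1 ^ 2)) := by gcongr
        _ = ε / 5 * y ^ 4 := by
          field_simp
    · calc (2 * Z + 1) * (C0 * y) ≤ (2 * (c1 * y ^ 2) + c1 * y ^ 2) * (C0 * y) := by
            gcongr
            nlinarith
        _ = 3 * c1 * C0 * y ^ 3 := by ring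
  have e5 : c2 * y ^ 2 + Q0 ^ 2 * c1 * y ^ 2 + 3 * c1 * C0 * y ^ 3 ≤ ε / 5 * y ^ 4 := by
    have h1 : y ^ 2 ≤ y ^ 3 := pow_le_pow_right₀ hy2 (by norm_num)
    have h2 : 0 ≤ (Q0 : ℝ) ^ 2 * c1 := by positivity
    calc _ ≤ c2 * y ^ 3 + Q0 ^ 2 * c1 * y ^ 3 + 3 * c1 * C0 * y ^ 3 := by gcongr
      _ = (c2 + Q0 ^ 2 * c1 + 3 * c1 * C0) * y ^ 3 := by ring
      _ ≤ ε / 5 * y * y ^ 3 := by gcongr
      _ = _ := by ring
  have hwt' : ‖((∑ a ∈ Om P β X w, ((X : ℝ) - lf P a) : ℝ) : ℂ) -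
      ((t * X * Real.log X : ℝ) : ℂ)‖ ≤ X * (c2 * y ^ 2) := by
    rw [← Complex.ofReal_sub, Complex.norm_real, Real.norm_eq_abs]
    exact hwt.trans e2
  have hfin : ∑ a ∈ Om P β X w, Cor (LamR R) X (lf P a) - ((t * X * Real.log X : ℝ) : ℂ) =
      (∑ a ∈ Om P β X w, Cor (LamR R) X (lf P a) -
        ∑ a ∈ Om P β X w, (((X : ℝ) - lf P a : ℝ) : ℂ) * SSr R (lf P a)) +
      ((((∑ a ∈ Om P β X w, ((X : ℝ) - lf P a) : ℝ) : ℂ) - ((t * X * Real.log X : ℝ) : ℂ)) +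
      ∑ q ∈ Icc 2 R,
        ((ArithmeticFunction.moebius q : ℝ) ^ 2 / (Nat.totient q : ℝ) ^ 2 : ℂ) * T q) := by
    rw [hB]
    ring
  rw [hfin]
  refine (norm_add_le _ _).trans ?_
  have h7 := norm_add_le (((∑ a ∈ Om P β X w, ((X : ℝ) - lf P a) : ℝ) : ℂ) -
    ((t * X * Real.log X : ℝ) : ℂ)) (∑ q ∈ Icc 2 R,
        ((ArithmeticFunction.moebius q : ℝ) ^ 2 / (Nat.totient q : ℝ) ^ 2 : ℂ) * T q)
  have h8 : (X : ℝ) * (c2 * y ^ 2 + Q0 ^ 2 * c1 * y ^ 2 + 3 * c1 * C0 * y ^ 3) ≤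
      X * (ε / 5 * y ^ 4) := by gcongr
  have h9 : 0 ≤ ε * (X * y ^ 4) := by positivity
  have h10 : ε * X * Real.log X = ε * (X * y ^ 4) := by rw [hL]; ring
  have h11 : (X : ℝ) * (c2 * y ^ 2 + Q0 ^ 2 * c1 * y ^ 2 + 3 * c1 * C0 * y ^ 3) =
    X * (c2 * y ^ 2) + X * (Q0 ^ 2 * c1 * y ^ 2) + X * (3 * c1 * C0 * y ^ 3) := by ring
  have h12 : (X : ℝ) * (ε / 5 * y ^ 4 + 3 * c1 * C0 * y ^ 3) =
    ε * (X * y ^ 4) / 5 + X * (3 * c1 * C0 * y ^ 3) := by ring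
  have h13 : (X : ℝ) * (ε / 5 * y ^ 4) = ε * (X * y ^ 4) / 5 := by ring
  have h14 : ε / 5 * (X * y ^ 4) = ε * (X * y ^ 4) / 5 := by ring
  rw [h10]
  rw [h11, h13] at h8
  rw [h12] at e4
  rw [h14] at e1
  linarith [hA, h7, hwt', htail, e1, e3, e4, h8]

end Pool.Agent.H1.PP
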