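import Pool.Agent.H1.PP.Zt
import Pool.Agent.H90.Moll2

/-!
# PP-20 Pnt: the prime number theorem with error term `x / (log x)^A`

PROOF.  Let `Z s = (s-1) ζ(s)` (entire, `Z 1 = 1`) as in `Zt`, and
`h s = - Z'(s)/Z(s) - (Z(s) - 1)/(s - 1)` (with the second quotient read as `dslope Z 1 s`), holomorphic in the region of
`zeta_region`, with `h s = - ζ'/ζ(s) - ζ(s) = ∑ (Λ(n) - 1) n^(-s)` for `Re s > 1`, and
`‖h s‖ ≤ C (log (|t|+3))^4 + C (|t|+3)` in the region; better: `‖Z(s) - 1‖/‖s - 1‖ = ‖ζ(s) - 1/(s-1)‖ ≤ C log (|t|+3)` for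
`Re s ≥ 1 - c/log (|t|+3)` (summation by parts; `norm_LFunction_le_log` is the analogue for characters); alternatively
use a smoothing of higher order so that a polynomial bound is enough.
Smoothed sum: for `x ≥ 2` and an integer `k ≥ 4`,
`(1/k!) ∑_{n ≤ x} (Λ(n) - 1) (1 - n/x)^k = (1/2πi) ∫_{Re s = 2} h(s) x^s / (s (s+1) ... (s+k)) ds`; shift the contour to
`Re s = 1 - c/log (T+3)` for `|t| ≤ T`, `T = exp (√log x)`; the shifted integral is
`≤ C x exp (- c √log x) (log x)^4`, the rest is `≤ C x/T + C x^2/T^2`-type: move first to `Re s = 1 + 1/log x`.  (See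
`Pool/Agent/H90/Moll1.lean`, `Moll2.lean` for a contour shift with the kernel `1/s²`, `rect_shift`, `shift_bound`,
which can perhaps be used as they are with `f = h (1 + ·)`: `HH`, `EE`.)
Result: `∑_{n ≤ x} (Λ(n) - 1) (1 - n/x)^k ≪_B x (log x)^(-B)` for every `B`.
Unsmoothing: go down from `k` to `0` by differencing `∑_{n ≤ x} (x-n)^k a_n` at `x` and `x(1 ± (log x)^(-B'))`, using that
`∑ Λ(n) (x-n)^j` and `∑ (x-n)^j` are nondecreasing in `x`, `j ≥ 0` (or `|a_n| ≤ log x`).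
Any other proof is fine (for example from a bound for `∑ μ(n)` with `1/ζ`, which is holomorphic in the region, and
Dirichlet's hyperbola method).
-/

set_option autoImplicit false

open Finset

namespace Pool.Agent.H1.PP

open Pool.Agent.H10.RP (ee nd Lam)
open Pool.Agent.H90 (vl KK HH)
open Pool.Agent.H16 (kfun)

/-- `(s-1) ζ(s)` -/
noncomputable abbrev pntZ : ℂ → ℂ := DirichletCharacter.LFunctionTrivChar₁ 1

theorem pnt_triv : DirichletCharacter.LFunctionTrivChar 1 = riemannZeta :=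
  DirichletCharacter.LFunction_modOne_eq

theorem pnt_Z_one : pntZ 1 = 1 := by
  simp [pntZ, DirichletCharacter.LFunctionTrivChar₁]

theorem pnt_Z_ne (s : ℂ) (hs : s ≠ 1) : pntZ s = (s - 1) * riemannZeta s := by
  unfold pntZ
  rw [DirichletCharacter.LFunctionTrivChar₁, Function.update_of_ne hs, pnt_triv]

theorem pnt_Z_diff : Differentiable ℂ pntZ :=
  DirichletCharacter.differentiable_LFunctionTrivChar₁ 1

theorem pnt_Z_deriv (s : ℂ) (hs : s ≠ 1) :
    deriv pntZ s = (s - 1) * deriv riemannZeta s + riemannZeta s := by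
  have h := DirichletCharacter.deriv_LFunctionTrivChar₁_apply_of_ne_one 1 hs
  rw [pnt_triv] at h
  exact h

/-- the holomorphic function `-ζ'/ζ(1+w) - ζ(1+w)` -/
noncomputable def pntf (w : ℂ) : ℂ :=
  -(deriv pntZ (1 + w) / pntZ (1 + w)) - dslope pntZ 1 (1 + w)

/-- the coefficients `Λ(n) - 1` -/
noncomputable def pnta (n : ℕ) : ℂ := if n = 0 then 0 else Lam n - 1

theorem pnta_summable (s : ℂ) (hs : 1 < s.re) : LSeriesSummable pnta s := by
  have h1 : LSeriesSummable (fun n => ((ArithmeticFunction.vonMangoldt n : ℝ) : ℂ)) s :=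
    ArithmeticFunction.LSeriesSummable_vonMangoldt hs
  have h2 : LSeriesSummable (1 : ℕ → ℂ) s := LSeriesSummable_one_iff.mpr hs
  have h3 := h1.sub h2
  refine (LSeriesSummable_congr s ?_).mp h3
  intro n hn
  simp [pnta, hn, Lam]

theorem pnta_LSeries (w : ℂ) (hw : 0 < w.re) : LSeries pnta (1 + w) = pntf w := by
  have hs : 1 < (1 + w).re := by simpa using hw
  have h1 : LSeriesSummable (fun n => ((ArithmeticFunction.vonMangoldt n : ℝ) : ℂ)) (1 + w) :=
    ArithmeticFunction.LSeriesSummable_vonMangoldt hs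
  have h2 : LSeriesSummable (1 : ℕ → ℂ) (1 + w) := LSeriesSummable_one_iff.mpr hs
  have h3 := LSeries_sub h1 h2
  have h4 : LSeries pnta (1 + w) =
      LSeries ((fun n : ℕ => ((ArithmeticFunction.vonMangoldt n : ℝ) : ℂ)) - (1 : ℕ → ℂ)) (1 + w) := by
    apply LSeries_congr
    intro n hn
    simp [pnta, hn, Lam]
  have hw0 : w ≠ 0 := by
    intro h; rw [h] at hw; simp at hw
  have hne : (1 + w) ≠ 1 := by
    intro h
    exact hw0 (by linear_combination h)
  have hz : riemannZeta (1 + w) ≠ 0 := riemannZeta_ne_zero_of_one_le_re hs.le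
  rw [h4, h3, ArithmeticFunction.LSeries_vonMangoldt_eq_deriv_riemannZeta_div hs,
    LSeries_one_eq_riemannZeta hs]
  unfold pntf
  rw [dslope_of_ne _ hne, slope_def_field, pnt_Z_one, pnt_Z_deriv _ hne, pnt_Z_ne _ hne]
  have e : (1 + w - 1) = w := by ring
  rw [e]
  field_simp
  ring

theorem pnta_norm (n : ℕ) (hn : 1 ≤ n) : ‖pnta n‖ ≤ 1 + Real.log n := by
  unfold pnta Lam
  rw [if_neg (by omega)]
  have h1 : ArithmeticFunction.vonMangoldt n ≤ Real.log n := ArithmeticFunction.vonMangoldt_le_log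
  have h2 : 0 ≤ ArithmeticFunction.vonMangoldt n := ArithmeticFunction.vonMangoldt_nonneg
  refine (norm_sub_le _ _).trans ?_
  rw [Complex.norm_real, Real.norm_of_nonneg h2, norm_one]
  linarith

/-- bound on the right line -/
theorem pnta_sum_le (σ : ℝ) (h0 : 0 < σ) (h1 : σ ≤ 1) :
    Summable (fun n : ℕ => ‖LSeries.term pnta (1 + σ) n‖) ∧
      ∑' n : ℕ, ‖LSeries.term pnta (1 + σ) n‖ ≤ 12 / σ ^ 2 := by
  have hs : 1 < (1 + σ / 2 : ℂ).re := by simp; linarith
  obtain ⟨h2, h3⟩ := Pool.Agent.H90.tsum_norm_term_one_le (1 + σ / 2 : ℂ) hs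
  have hre : (1 + σ / 2 : ℂ).re = 1 + σ / 2 := by simp
  rw [hre] at h3
  have h4 : ∀ n : ℕ, ‖LSeries.term pnta (1 + σ) n‖ ≤
      3 / σ * ‖LSeries.term 1 (1 + σ / 2 : ℂ) n‖ := by
    intro n
    rcases Nat.eq_zero_or_pos n with h | h
    · subst h; simp
    · rw [LSeries.norm_term_eq, LSeries.norm_term_eq, if_neg (by omega), if_neg (by omega), hre]
      have e1 : (1 + σ : ℂ).re = 1 + σ := by simp
      rw [e1]
      simp only [Pi.one_apply, norm_one]
      have hn : (1 : ℝ) ≤ n := by exact_mod_cast h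
      have hn0 : (0 : ℝ) < n := by linarith
      have h5 : Real.log n ≤ n ^ (σ / 2) / (σ / 2) := Real.log_le_rpow_div hn0.le (by linarith)
      have h6 : 1 ≤ (n : ℝ) ^ (σ / 2) := Real.one_le_rpow hn (by linarith)
      have h7 : ‖pnta n‖ ≤ 3 / σ * (n : ℝ) ^ (σ / 2) := by
        refine (pnta_norm n h).trans ?_
        have e2 : (n : ℝ) ^ (σ / 2) / (σ / 2) = 2 / σ * (n : ℝ) ^ (σ / 2) := by field_simp
        rw [e2] at h5
        have e3 : 1 ≤ 1 / σ * (n : ℝ) ^ (σ / 2) := by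
          have : 1 ≤ 1 / σ := by rw [le_div_iff₀ h0]; linarith
          calc (1 : ℝ) = 1 * 1 := by ring
            _ ≤ 1 / σ * (n : ℝ) ^ (σ / 2) := by gcongr
        have e4 : 3 / σ * (n : ℝ) ^ (σ / 2) = 1 / σ * (n : ℝ) ^ (σ / 2) + 2 / σ * (n : ℝ) ^ (σ / 2) := by
          ring
        rw [e4]
        linarith
      have e5 : (n : ℝ) ^ (1 + σ) = (n : ℝ) ^ (1 + σ / 2) * (n : ℝ) ^ (σ / 2) := by
        rw [← Real.rpow_add hn0]
        congr 1
        ring
      rw [e5, mul_one_div, div_le_div_iff₀ (by positivity) (by positivity)]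
      have h8 : 0 < (n : ℝ) ^ (1 + σ / 2) := Real.rpow_pos_of_pos hn0 _
      calc ‖pnta n‖ * (n : ℝ) ^ (1 + σ / 2) ≤
          (3 / σ * (n : ℝ) ^ (σ / 2)) * (n : ℝ) ^ (1 + σ / 2) := by gcongr
        _ = _ := by ring
  have h5 : Summable (fun n : ℕ => ‖LSeries.term pnta (1 + σ) n‖) :=
    Summable.of_nonneg_of_le (fun _ => norm_nonneg _) h4 (h2.mul_left _)
  refine ⟨h5, ?_⟩
  calc ∑' n : ℕ, ‖LSeries.term pnta (1 + σ) n‖
      ≤ ∑' n : ℕ, 3 / σ * ‖LSeries.term 1 (1 + σ / 2 : ℂ) n‖ := h5.tsum_le_tsum h4 (h2.mul_left _)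
    _ = 3 / σ * ∑' n : ℕ, ‖LSeries.term 1 (1 + σ / 2 : ℂ) n‖ := tsum_mul_left
    _ ≤ 3 / σ * ((1 + σ / 2) / (1 + σ / 2 - 1) + 1) := by gcongr
    _ = 3 / σ * (2 / σ + 2) := by
        have e : 1 + σ / 2 - 1 = σ / 2 := by ring
        rw [e]
        congr 1
        field_simp
        ring
    _ ≤ 3 / σ * (4 / σ) := by
        gcongr
        have : 2 ≤ 2 / σ := by rw [le_div_iff₀ h0]; linarith
        have e : 4 / σ = 2 / σ + 2 / σ := by ring
        linarith
    _ = 12 / σ ^ 2 := by ring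

theorem pnta_LSeries_le (σ u : ℝ) (h0 : 0 < σ) (h1 : σ ≤ 1) :
    ‖LSeries pnta (1 + vl σ u)‖ ≤ 12 / σ ^ 2 := by
  obtain ⟨h2, h3⟩ := pnta_sum_le σ h0 h1
  have h4 : ∀ n : ℕ, ‖LSeries.term pnta (1 + vl σ u) n‖ = ‖LSeries.term pnta (1 + σ) n‖ := by
    intro n
    rw [LSeries.norm_term_eq, LSeries.norm_term_eq]
    simp
  unfold LSeries
  calc ‖∑' n, LSeries.term pnta (1 + vl σ u) n‖ ≤ ∑' n, ‖LSeries.term pnta (1 + vl σ u) n‖ := by
        apply norm_tsum_le_tsum_norm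
        simp_rw [h4]
        exact h2
    _ = ∑' n, ‖LSeries.term pnta (1 + σ) n‖ := by simp_rw [h4]
    _ ≤ _ := h3

theorem pnt_ds : ∃ K : ℝ, 1 ≤ K ∧ ∀ s : ℂ, 1 / 2 ≤ s.re → ‖dslope pntZ 1 s‖ ≤ K * (‖s‖ + 1) := by
  have hc : Continuous (dslope pntZ 1) := by
    rw [continuous_iff_continuousAt]
    intro s
    by_cases hs : s = 1
    · subst hs
      exact continuousAt_dslope_same.mpr pnt_Z_diff.differentiableAt
    · exact (continuousAt_dslope_of_ne hs).mpr pnt_Z_diff.continuous.continuousAt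
  obtain ⟨K, hK⟩ := (isCompact_closedBall (1 : ℂ) (1 / 4)).exists_bound_of_continuousOn
    hc.continuousOn
  refine ⟨max K 103, le_max_of_le_right (by norm_num), fun s hs => ?_⟩
  have hsn := norm_nonneg s
  by_cases h : s ∈ Metric.closedBall (1 : ℂ) (1 / 4)
  · calc _ ≤ K := hK s h
      _ ≤ max K 103 := le_max_left _ _
      _ = max K 103 * 1 := by ring
      _ ≤ _ := by
        gcongr
        linarith
  · rw [Metric.mem_closedBall, dist_eq_norm, not_le] at h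
    have hne : s ≠ 1 := by
      rintro rfl
      simp at h
      linarith
    rw [dslope_of_ne _ hne, slope_def_field, pnt_Z_one, norm_div]
    have h1 := Pool.Agent.H90.norm_LFunctionTrivChar₁_le (q := 1) s hs
    have h2 : ‖pntZ s - 1‖ ≤ 11 * (‖s‖ + 1) ^ 2 + 1 := by
      refine (norm_sub_le _ _).trans ?_
      rw [norm_one]
      have : ‖pntZ s‖ ≤ 11 * ((1 : ℕ) : ℝ) * (‖s‖ + 1) ^ 2 := h1
      simpa using this
    have h3 : ‖s‖ + 1 ≤ 9 * ‖s - 1‖ := by
      have : ‖s‖ ≤ ‖s - 1‖ + 1 := by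
        calc ‖s‖ = ‖(s - 1) + 1‖ := by congr 1; ring
          _ ≤ ‖s - 1‖ + ‖(1 : ℂ)‖ := norm_add_le _ _
          _ = _ := by simp
      linarith
    rw [div_le_iff₀ (by linarith)]
    have h4 : 1 ≤ 4 * ‖s - 1‖ := by linarith
    calc ‖pntZ s - 1‖ ≤ 11 * (‖s‖ + 1) ^ 2 + 1 := h2
      _ ≤ 103 * (‖s‖ + 1) * ‖s - 1‖ := by nlinarith
      _ ≤ max K 103 * (‖s‖ + 1) * ‖s - 1‖ := by
        gcongr
        exact le_max_right _ _

open MeasureTheory in
theorem pnt_smooth (Y₁ Y₂ σ : ℝ) (h1 : 0 < Y₁) (h2 : 0 < Y₂) (h12 : Y₁ ≤ Y₂) (hσ : 0 < σ)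
    (hσ1 : σ ≤ 1) :
    2 * Real.pi * ∑ m ∈ Finset.Icc 1 ⌊Y₂⌋₊, pnta m * (m : ℂ) ^ (-1 : ℂ) *
      ((kfun (m / Y₂) - kfun (m / Y₁) : ℝ) : ℂ) =
      ∫ u : ℝ, KK Y₁ Y₂ σ u * LSeries pnta (1 + vl σ u) := by
  set F : ℕ → ℝ → ℂ := fun m u => pnta m * (m : ℂ) ^ (-(1 + vl σ u)) * KK Y₁ Y₂ σ u with hF
  have ha0 : pnta 0 = 0 := by simp [pnta]
  have hKi := Pool.Agent.H90.KK_integrable Y₁ Y₂ σ h1 h2 hσ
  have hsplit : ∀ m : ℕ, m ≠ 0 → ∀ u, F m u =
      (pnta m * (m : ℂ) ^ (-1 : ℂ)) * (((m : ℝ) : ℂ) ^ (-(vl σ u)) * KK Y₁ Y₂ σ u) := by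
    intro m hm u
    have hm' : (m : ℂ) ≠ 0 := by exact_mod_cast hm
    simp only [hF]
    have : -(1 + vl σ u) = -1 + -(vl σ u) := by ring
    rw [this, Complex.cpow_add _ _ hm', Complex.ofReal_natCast]
    ring
  have hnorm : ∀ (m : ℕ) u, ‖F m u‖ ≤ ‖LSeries.term pnta (1 + σ) m‖ * ‖KK Y₁ Y₂ σ u‖ := by
    intro m u
    rcases Nat.eq_zero_or_pos m with h | h
    · subst h
      simp only [hF]
      rw [ha0]; simp
    · simp only [hF]
      rw [norm_mul, norm_mul, Complex.norm_natCast_cpow_of_pos h]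
      gcongr
      rw [LSeries.norm_term_eq, if_neg (by omega), div_eq_mul_inv, ← Real.rpow_neg (by positivity)]
      apply le_of_eq
      congr 2
      simp
  have hFint : ∀ m, Integrable (F m) := by
    intro m
    refine (hKi.norm.const_mul ‖LSeries.term pnta (1 + σ) m‖).mono' ?_ ?_
    · rcases Nat.eq_zero_or_pos m with h | h
      · subst h
        simp only [hF]
        rw [ha0]; simp only [zero_mul]
        exact aestronglyMeasurable_const
      · have hm' : (m : ℂ) ≠ 0 := by exact_mod_cast (by omega : m ≠ 0)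
        simp only [hF]
        apply AEStronglyMeasurable.mul _ hKi.aestronglyMeasurable
        apply Continuous.aestronglyMeasurable
        apply continuous_const.mul
        exact (continuous_const.add (Pool.Agent.H90.continuous_vl σ)).neg.const_cpow (Or.inl hm')
    · filter_upwards with u
      exact hnorm m u
  obtain ⟨hsum1, -⟩ := pnta_sum_le σ hσ hσ1
  have hFsum : Summable fun m => ∫ u, ‖F m u‖ := by
    refine Summable.of_nonneg_of_le (fun m => integral_nonneg fun u => norm_nonneg _) ?_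
      (hsum1.mul_right (∫ u, ‖KK Y₁ Y₂ σ u‖))
    intro m
    rw [← integral_const_mul]
    exact integral_mono (hFint m).norm (hKi.norm.const_mul _) (hnorm m)
  have hhs := hasSum_integral_of_summable_integral_norm hFint hFsum
  have htsum : ∀ u, ∑' m, F m u = KK Y₁ Y₂ σ u * LSeries pnta (1 + vl σ u) := by
    intro u
    unfold LSeries
    rw [← tsum_mul_left]
    congr 1
    funext m
    simp only [hF]
    rcases Nat.eq_zero_or_pos m with h | h
    · subst h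
      rw [ha0]; simp
    · rw [LSeries.term_of_ne_zero (by omega), Complex.cpow_neg, div_eq_mul_inv]
      ring
  simp_rw [htsum] at hhs
  have hval : ∀ m : ℕ, ∫ u, F m u = 2 * Real.pi * (pnta m * (m : ℂ) ^ (-1 : ℂ) *
      ((kfun (m / Y₂) - kfun (m / Y₁) : ℝ) : ℂ)) := by
    intro m
    rcases Nat.eq_zero_or_pos m with h | h
    · subst h
      simp only [hF]
      rw [ha0]; simp
    · simp_rw [hsplit m (by omega)]
      rw [integral_const_mul, Pool.Agent.H90.integral_KK Y₁ Y₂ σ m h1 h2 hσ (by exact_mod_cast h)]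
      ring
  simp_rw [hval] at hhs
  rw [← hhs.tsum_eq, tsum_eq_sum (s := Finset.Icc 1 ⌊Y₂⌋₊), Finset.mul_sum]
  intro m hm
  rcases Nat.eq_zero_or_pos m with h | h
  · subst h
    rw [ha0]; simp
  · have hmY : ⌊Y₂⌋₊ < m := by
      by_contra hcon
      exact hm (Finset.mem_Icc.mpr ⟨h, not_lt.mp hcon⟩)
    have hmY' : Y₂ < m := (Nat.floor_lt h2.le).mp hmY
    have hk0 : ∀ Y : ℝ, 0 < Y → Y ≤ Y₂ → kfun (m / Y) = 0 := by
      intro Y hY hYY
      unfold kfun
      apply max_eq_left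
      have : 1 ≤ (m : ℝ) / Y := by
        rw [le_div_iff₀ hY]
        linarith
      have := Real.log_nonneg this
      linarith
    rw [hk0 Y₂ h2 le_rfl, hk0 Y₁ h1 h12]
    simp

theorem pntf_diff (w : ℂ) (h : pntZ (1 + w) ≠ 0) : DifferentiableAt ℂ pntf w := by
  have h1 : Differentiable ℂ (deriv pntZ) := by
    rw [← differentiableOn_univ]
    exact pnt_Z_diff.differentiableOn.deriv isOpen_univ
  have h2 : Differentiable ℂ (dslope pntZ 1) := by
    rw [← differentiableOn_univ]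
    exact (Complex.differentiableOn_dslope Filter.univ_mem).mpr pnt_Z_diff.differentiableOn
  have h3 : DifferentiableAt ℂ (fun w : ℂ => 1 + w) w := by fun_prop
  have h4 : DifferentiableAt ℂ (fun w : ℂ => deriv pntZ (1 + w)) w :=
    DifferentiableAt.comp (g := deriv pntZ) w (h1 _) h3
  have h5 : DifferentiableAt ℂ (fun w : ℂ => pntZ (1 + w)) w :=
    DifferentiableAt.comp (g := pntZ) w (pnt_Z_diff _) h3
  have h6 : DifferentiableAt ℂ (fun w : ℂ => dslope pntZ 1 (1 + w)) w :=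
    DifferentiableAt.comp (g := dslope pntZ 1) w (h2 _) h3
  exact (h4.div h5 h).neg.sub h6

open MeasureTheory Set in
/-- contour shift for `pntf` -/
theorem pnt_shift : ∃ c K : ℝ, 0 < c ∧ c ≤ 1 / 4 ∧ 1 ≤ K ∧ ∀ Y₁ Y₂ σ T : ℝ, 1 ≤ Y₁ → Y₁ ≤ Y₂ → 0 < σ →
    σ ≤ 1 → 1 ≤ T → Real.log (T + 3) ^ 4 ≤ T →
    ‖2 * Real.pi * (∑ m ∈ Finset.Icc 1 ⌊Y₂⌋₊, pnta m * (m : ℂ) ^ (-1 : ℂ) *
      ((kfun (m / Y₂) - kfun (m / Y₁) : ℝ) : ℂ) -
        ((Real.log Y₂ - Real.log Y₁ : ℝ) : ℂ) * pntf 0)‖ ≤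
      K * (Y₂ ^ σ / σ ^ 2 / T + T ^ 2 * Real.log (T + 3) ^ 2 * Y₁ ^ (-(c / Real.log (T + 3)))) := by
  obtain ⟨c, C, hc, hc4, hC, hreg⟩ := zeta_region
  obtain ⟨K, hK, hds⟩ := pnt_ds
  set F0 := ‖pntf 0‖ with hF0
  have hF00 : 0 ≤ F0 := norm_nonneg _
  set K₂ := C + 4 * K + F0 with hK₂
  have hK₂1 : 1 ≤ K₂ := by rw [hK₂]; linarith
  refine ⟨c, 4 * (12 + F0) + 5 * K₂ + 4 * K₂ / c ^ 2, hc, hc4, ?_, ?_⟩
  · have : 0 ≤ 4 * K₂ / c ^ 2 := by positivity
    linarith
  intro Y₁ Y₂ σ T h1 h12 hσ hσ1 hT hlT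
  have hY1 : 0 < Y₁ := by linarith
  have hY2 : 0 < Y₂ := by linarith
  have hT0 : 0 < T := by linarith
  set l := Real.log (T + 3) with hl
  have hl1 : 1 ≤ l := by
    rw [hl, Real.le_log_iff_exp_le (by linarith)]
    have := Real.exp_one_lt_d9
    linarith
  set η := c / l with hη
  have hη0 : 0 < η := by positivity
  have hη4 : η ≤ 1 / 4 := by
    rw [hη, div_le_iff₀ (by linarith)]
    linarith
  have hmem : ∀ w ∈ Icc (-η) σ ×ℂ Icc (-T) T, 1 - c / Real.log (|(1 + w).im| + 3) ≤ (1 + w).re ∧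
      (1 + w).re ≤ 2 ∧ Real.log (|(1 + w).im| + 3) ≤ l ∧ 0 < Real.log (|(1 + w).im| + 3) ∧
      1 / 2 ≤ (1 + w).re ∧ ‖1 + w‖ ≤ T + 2 := by
    intro w hw
    rw [Complex.mem_reProdIm] at hw
    obtain ⟨⟨h3, h4⟩, h5, h6⟩ := hw
    have him : (1 + w).im = w.im := by simp
    have hre : (1 + w).re = 1 + w.re := by simp
    rw [him, hre]
    have h7 : |w.im| ≤ T := abs_le.mpr ⟨h5, h6⟩
    have h8 : Real.log (|w.im| + 3) ≤ l := Real.log_le_log (by positivity) (by linarith)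
    have h9 : 0 < Real.log (|w.im| + 3) := Real.log_pos (by linarith [abs_nonneg w.im])
    have h10 : η ≤ c / Real.log (|w.im| + 3) := by
      rw [hη]
      gcongr
    refine ⟨by linarith, by linarith, h8, h9, by linarith, ?_⟩
    calc ‖1 + w‖ ≤ |(1 + w).re| + |(1 + w).im| := Complex.norm_le_abs_re_add_abs_im _
      _ ≤ 2 + T := by
        rw [him, hre]
        apply add_le_add _ h7
        rw [abs_le]
        constructor <;> linarith
      _ = T + 2 := by ring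
  have hf : DifferentiableOn ℂ pntf (Icc (-η) σ ×ℂ Icc (-T) T) := by
    intro w hw
    obtain ⟨h3, h4, -⟩ := hmem w hw
    exact (pntf_diff w (hreg (1 + w) h3 h4).1).differentiableWithinAt
  have hM : ∀ w ∈ Icc (-η) σ ×ℂ Icc (-T) T, ‖pntf w - pntf 0‖ ≤ K₂ * T := by
    intro w hw
    obtain ⟨h3, h4, h5, h6, h7, h8⟩ := hmem w hw
    have h9 := (hreg (1 + w) h3 h4).2
    have h10 := hds (1 + w) h7
    have h11 : C * Real.log (|(1 + w).im| + 3) ^ 4 ≤ C * T := by
      gcongr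
      calc Real.log (|(1 + w).im| + 3) ^ 4 ≤ l ^ 4 := by gcongr
        _ ≤ T := hlT
    have h12 : ‖pntf w‖ ≤ C * T + K * (T + 3) := by
      unfold pntf
      refine (norm_sub_le _ _).trans ?_
      rw [norm_neg]
      apply add_le_add (h9.trans h11)
      refine h10.trans ?_
      exact mul_le_mul_of_nonneg_left (by linarith) (by linarith)
    calc ‖pntf w - pntf 0‖ ≤ ‖pntf w‖ + F0 := norm_sub_le _ _
      _ ≤ C * T + K * (T + 3) + F0 := by gcongr
      _ ≤ K₂ * T := by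
        rw [hK₂]
        nlinarith
  have hval : ∀ u, LSeries pnta (1 + vl σ u) = pntf (vl σ u) := fun u =>
    pnta_LSeries _ (by simpa using hσ)
  have hM0 : ∀ u, ‖pntf (vl σ u) - pntf 0‖ ≤ (12 + F0) / σ ^ 2 := by
    intro u
    have h3 := pnta_LSeries_le σ u hσ hσ1
    rw [hval] at h3
    calc ‖pntf (vl σ u) - pntf 0‖ ≤ ‖pntf (vl σ u)‖ + F0 := norm_sub_le _ _
      _ ≤ 12 / σ ^ 2 + F0 / σ ^ 2 := by
        apply add_le_add h3
        rw [le_div_iff₀ (by positivity)]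
        have : σ ^ 2 ≤ 1 := by nlinarith
        nlinarith
      _ = _ := by ring
  have hcont : Continuous (fun u : ℝ => pntf (vl σ u)) := by
    rw [continuous_iff_continuousAt]
    intro u
    have hre : 1 ≤ (1 + vl σ u).re := by simp; linarith
    have hne : (1 + vl σ u) ≠ 1 := by
      intro h
      have := congrArg Complex.re h
      simp at this
      linarith
    have hd : DifferentiableAt ℂ pntf (vl σ u) := by
      apply pntf_diff
      rw [pnt_Z_ne _ hne]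
      exact mul_ne_zero (sub_ne_zero.mpr hne) (riemannZeta_ne_zero_of_one_le_re hre)
    exact ContinuousAt.comp (f := fun u : ℝ => vl σ u) hd.continuousAt
      (Pool.Agent.H90.continuous_vl σ).continuousAt
  have hKi := Pool.Agent.H90.KK_integrable Y₁ Y₂ σ hY1 hY2 hσ
  have hint1 : Integrable (fun u : ℝ => KK Y₁ Y₂ σ u * pntf (vl σ u)) := by
    refine hKi.mul_bdd (c := 12 / σ ^ 2) hcont.aestronglyMeasurable (Filter.Eventually.of_forall ?_)
    intro u
    rw [← hval]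
    exact pnta_LSeries_le σ u hσ hσ1
  have hint2 : Integrable (fun u : ℝ => KK Y₁ Y₂ σ u * pntf 0) := hKi.mul_const _
  have hint : Integrable (fun u : ℝ => KK Y₁ Y₂ σ u * (pntf (vl σ u) - pntf 0)) := by
    have e : ∀ u, KK Y₁ Y₂ σ u * (pntf (vl σ u) - pntf 0) =
      KK Y₁ Y₂ σ u * pntf (vl σ u) - KK Y₁ Y₂ σ u * pntf 0 := fun u => by ring
    simp_rw [e]
    exact hint1.sub hint2
  have key := Pool.Agent.H90.shift_bound Y₁ Y₂ σ η T (K₂ * T) ((12 + F0) / σ ^ 2) h1 h12 hσ hη0 hT0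
    pntf hf hM hM0 hint
  have heq : 2 * Real.pi * (∑ m ∈ Finset.Icc 1 ⌊Y₂⌋₊, pnta m * (m : ℂ) ^ (-1 : ℂ) *
      ((kfun (m / Y₂) - kfun (m / Y₁) : ℝ) : ℂ) -
        ((Real.log Y₂ - Real.log Y₁ : ℝ) : ℂ) * pntf 0) =
      ∫ u : ℝ, KK Y₁ Y₂ σ u * (pntf (vl σ u) - pntf 0) := by
    have e : ∀ u, KK Y₁ Y₂ σ u * (pntf (vl σ u) - pntf 0) =
      KK Y₁ Y₂ σ u * pntf (vl σ u) - KK Y₁ Y₂ σ u * pntf 0 := fun u => by ring
    simp_rw [e]
    rw [integral_sub hint1 hint2, integral_mul_const]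
    have h3 := Pool.Agent.H90.integral_KK Y₁ Y₂ σ 1 hY1 hY2 hσ one_pos
    rw [Pool.Agent.H90.kfun_inv Y₂ (h1.trans h12), Pool.Agent.H90.kfun_inv Y₁ h1] at h3
    simp only [Complex.ofReal_one, Complex.one_cpow, one_mul] at h3
    rw [h3]
    have h4 := pnt_smooth Y₁ Y₂ σ hY1 hY2 h12 hσ hσ1
    simp_rw [hval] at h4
    rw [← h4]
    ring
  rw [heq]
  refine key.trans ?_
  have hP : 0 < Y₂ ^ σ := Real.rpow_pos_of_pos hY2 _
  have hQ : 0 < Y₁ ^ (-η) := Real.rpow_pos_of_pos hY1 _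
  have hσ2 : 1 ≤ 1 / σ ^ 2 := by
    rw [le_div_iff₀ (by positivity)]
    nlinarith
  have t1 : 2 * (2 * Y₂ ^ σ * ((12 + F0) / σ ^ 2)) / T = 4 * (12 + F0) * (Y₂ ^ σ / σ ^ 2 / T) := by
    field_simp
    ring
  have t2 : 2 * (σ + η) * (2 * Y₂ ^ σ * (K₂ * T) * (1 / T ^ 2)) ≤ 5 * K₂ * (Y₂ ^ σ / σ ^ 2 / T) := by
    have e1 : 2 * (σ + η) * (2 * Y₂ ^ σ * (K₂ * T) * (1 / T ^ 2)) =
        (σ + η) * (4 * K₂ * (Y₂ ^ σ / T)) := by
      field_simp
      ring
    have e2 : 5 * K₂ * (Y₂ ^ σ / σ ^ 2 / T) = (1 / σ ^ 2) * (5 * K₂ * (Y₂ ^ σ / T)) := by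
      field_simp
    rw [e1, e2]
    have e3 : 0 ≤ K₂ * (Y₂ ^ σ / T) := by positivity
    calc (σ + η) * (4 * K₂ * (Y₂ ^ σ / T)) ≤ (5 / 4) * (4 * K₂ * (Y₂ ^ σ / T)) := by
          apply mul_le_mul_of_nonneg_right (by linarith)
          linarith
      _ = 1 * (5 * K₂ * (Y₂ ^ σ / T)) := by ring
      _ ≤ _ := by
          apply mul_le_mul_of_nonneg_right hσ2
          linarith
  have t3 : 2 * T * (2 * Y₁ ^ (-η) * (K₂ * T) * (1 / η ^ 2)) =
      4 * K₂ / c ^ 2 * (T ^ 2 * l ^ 2 * Y₁ ^ (-η)) := by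
    rw [hη]
    field_simp
    ring
  rw [t1, t3]
  have p1 : 0 ≤ Y₂ ^ σ / σ ^ 2 / T := by positivity
  have p2 : 0 ≤ T ^ 2 * l ^ 2 * Y₁ ^ (-η) := by positivity
  have p3 : 0 ≤ 4 * K₂ / c ^ 2 := by positivity
  have p4 : 0 ≤ 4 * (12 + F0) + 5 * K₂ := by positivity
  nlinarith [mul_nonneg p3 p1, mul_nonneg p4 p2]

/-- `∑_{m ≤ n} (Λ(m) - 1)/m` -/
noncomputable def pntS (n : ℕ) : ℂ := ∑ m ∈ Icc 1 n, pnta m * (m : ℂ) ^ (-1 : ℂ)

theorem pnt_unsmooth (N : ℕ) (hN : 1 ≤ N) (Y : ℝ) (hY : (N : ℝ) ≤ Y) :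
    ‖∑ m ∈ Icc 1 ⌊Y⌋₊, pnta m * (m : ℂ) ^ (-1 : ℂ) * ((kfun (m / Y) - kfun (m / (N : ℝ)) : ℝ) : ℂ) -
      ((Real.log Y - Real.log N : ℝ) : ℂ) * pntS N‖ ≤
      (Real.log Y - Real.log N) * ((Y - N) * (1 + Real.log Y) / N) := by
  have hN1 : (1 : ℝ) ≤ N := by exact_mod_cast hN
  have hN0 : (0 : ℝ) < N := by linarith
  have hY0 : 0 < Y := by linarith
  have hlNY : Real.log N ≤ Real.log Y := Real.log_le_log hN0 hY
  have hlN : 0 ≤ Real.log N := Real.log_nonneg hN1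
  have hI : ∀ n : ℕ, Icc 1 n = Ioc 0 n := by
    intro n; ext m; simp only [mem_Icc, mem_Ioc]; omega
  have hfl : N ≤ ⌊Y⌋₊ := Nat.le_floor hY
  have hk : ∀ m : ℕ, 1 ≤ m → ∀ Z : ℝ, (m : ℝ) ≤ Z → kfun (m / Z) = Real.log Z - Real.log m := by
    intro m hm Z hmZ
    have hm0 : (0 : ℝ) < m := by exact_mod_cast hm
    have hZ0 : 0 < Z := by linarith
    unfold kfun
    rw [Real.log_div hm0.ne' hZ0.ne', neg_sub]
    apply max_eq_right
    have := Real.log_le_log hm0 hmZ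
    linarith
  unfold pntS
  rw [hI, hI, ← Finset.sum_Ioc_consecutive _ (Nat.zero_le N) hfl]
  have e1 : ∑ m ∈ Ioc 0 N, pnta m * (m : ℂ) ^ (-1 : ℂ) *
      ((kfun (m / Y) - kfun (m / (N : ℝ)) : ℝ) : ℂ) =
      ((Real.log Y - Real.log N : ℝ) : ℂ) * ∑ m ∈ Ioc 0 N, pnta m * (m : ℂ) ^ (-1 : ℂ) := by
    rw [Finset.mul_sum]
    apply Finset.sum_congr rfl
    intro m hm
    rw [mem_Ioc] at hm
    have hmN : (m : ℝ) ≤ N := by exact_mod_cast hm.2
    rw [hk m (by omega) Y (hmN.trans hY), hk m (by omega) N hmN]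
    have : Real.log Y - Real.log m - (Real.log N - Real.log m) = Real.log Y - Real.log N := by ring
    rw [this]
    ring
  rw [e1, add_sub_cancel_left]
  have e2 : ∀ m ∈ Ioc N ⌊Y⌋₊, ‖pnta m * (m : ℂ) ^ (-1 : ℂ) *
      ((kfun (m / Y) - kfun (m / (N : ℝ)) : ℝ) : ℂ)‖ ≤
      (Real.log Y - Real.log N) * ((1 + Real.log Y) / N) := by
    intro m hm
    rw [mem_Ioc] at hm
    have hm1 : 1 ≤ m := by omega
    have hm0 : (0 : ℝ) < m := by exact_mod_cast hm1
    have hNm : (N : ℝ) ≤ m := by exact_mod_cast hm.1.le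
    have hmY : (m : ℝ) ≤ Y := (Nat.le_floor_iff hY0.le).mp hm.2
    have h1 : kfun (m / (N : ℝ)) = 0 := by
      unfold kfun
      apply max_eq_left
      have : 1 ≤ (m : ℝ) / N := by
        rw [le_div_iff₀ hN0]
        linarith
      have := Real.log_nonneg this
      linarith
    rw [h1, hk m hm1 Y hmY, sub_zero, norm_mul, norm_mul, Complex.norm_natCast_cpow_of_pos hm1,
      Complex.norm_real]
    have h2 : Real.log N ≤ Real.log m := Real.log_le_log hN0 hNm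
    have h3 : Real.log m ≤ Real.log Y := Real.log_le_log hm0 hmY
    rw [Real.norm_of_nonneg (by linarith)]
    have h4 := pnta_norm m hm1
    have h5 : (m : ℝ) ^ (-1 : ℂ).re ≤ 1 / N := by
      have : (-1 : ℂ).re = -1 := by simp
      rw [this, Real.rpow_neg_one, ← one_div]
      exact one_div_le_one_div_of_le hN0 hNm
    have h6 : 0 ≤ (m : ℝ) ^ (-1 : ℂ).re := by positivity
    calc ‖pnta m‖ * (m : ℝ) ^ (-1 : ℂ).re * (Real.log Y - Real.log m) ≤
        (1 + Real.log Y) * (1 / N) * (Real.log Y - Real.log N) := by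
          apply mul_le_mul _ (by linarith) (by linarith) (mul_nonneg (by linarith) (by positivity))
          apply mul_le_mul (by linarith) h5 h6 (by linarith)
      _ = _ := by ring
  refine (norm_sum_le_of_le _ e2).trans ?_
  rw [Finset.sum_const, Nat.card_Ioc, nsmul_eq_mul, Nat.cast_sub hfl]
  have h7 : (⌊Y⌋₊ : ℝ) ≤ Y := Nat.floor_le hY0.le
  have h8 : 0 ≤ (Real.log Y - Real.log N) * ((1 + Real.log Y) / N) := by
    apply mul_nonneg (by linarith)
    apply div_nonneg (by linarith) hN0.le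
  calc ((⌊Y⌋₊ : ℝ) - N) * ((Real.log Y - Real.log N) * ((1 + Real.log Y) / N)) ≤
      (Y - N) * ((Real.log Y - Real.log N) * ((1 + Real.log Y) / N)) := by
        apply mul_le_mul_of_nonneg_right (by linarith) h8
    _ = _ := by ring

theorem pnt_asym (c : ℝ) (hc : 0 < c) (k m : ℕ) (hk : 1 ≤ k) : ∃ L₀ : ℝ, ∀ L : ℝ, L₀ ≤ L →
    Real.log (L ^ k + 3) ^ 4 ≤ L ^ k ∧ Real.log (L ^ k + 3) ≤ Real.sqrt L ∧
      L ^ m * Real.exp (-(c * Real.sqrt L)) ≤ 1 := by
  have hkr : (1 : ℝ) ≤ k := by exact_mod_cast hk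
  have h1 := (Real.isLittleO_pow_log_id_atTop (n := 4)).bound
    (show (0 : ℝ) < 1 / (2 * k) ^ 4 by positivity)
  have h2 := (isLittleO_log_rpow_atTop (r := 1 / 2) (by norm_num)).bound
    (show (0 : ℝ) < 1 / (2 * k) by positivity)
  have h3 : Filter.Tendsto (fun L : ℝ => (c * Real.sqrt L) ^ (2 * m) * Real.exp (-(c * Real.sqrt L)))
      Filter.atTop (nhds 0) := by
    have h4 := Real.tendsto_pow_mul_exp_neg_atTop_nhds_zero (2 * m)
    have h5 : Filter.Tendsto (fun L : ℝ => c * Real.sqrt L) Filter.atTop Filter.atTop :=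
      (Real.tendsto_sqrt_atTop).const_mul_atTop hc
    exact h4.comp h5
  have h4 : ∀ᶠ L : ℝ in Filter.atTop,
      (c * Real.sqrt L) ^ (2 * m) * Real.exp (-(c * Real.sqrt L)) < c ^ (2 * m) :=
    h3.eventually_lt_const (by positivity)
  obtain ⟨L₀, hL₀⟩ := Filter.eventually_atTop.mp
    ((h1.and (h2.and h4)).and (Filter.eventually_ge_atTop (3 : ℝ)))
  refine ⟨L₀, fun L hL => ?_⟩
  obtain ⟨⟨h5, h6, h7⟩, h8⟩ := hL₀ L hL
  have hL0 : 0 < L := by linarith
  have hlL : 0 < Real.log L := Real.log_pos (by linarith)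
  have hLk : L ≤ L ^ k := by
    calc L = L ^ 1 := (pow_one L).symm
      _ ≤ L ^ k := pow_le_pow_right₀ (by linarith) hk
  have h9 : Real.log (L ^ k + 3) ≤ 2 * k * Real.log L := by
    have : L ^ k + 3 ≤ (L ^ k) ^ 2 := by nlinarith
    calc Real.log (L ^ k + 3) ≤ Real.log ((L ^ k) ^ 2) := Real.log_le_log (by positivity) this
      _ = _ := by
        rw [Real.log_pow, Real.log_pow]
        push_cast
        ring
  have h10 : 0 ≤ Real.log (L ^ k + 3) := Real.log_nonneg (by linarith)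
  refine ⟨?_, ?_, ?_⟩
  · calc Real.log (L ^ k + 3) ^ 4 ≤ (2 * k * Real.log L) ^ 4 := by gcongr
      _ = (2 * k) ^ 4 * (Real.log L) ^ 4 := by ring
      _ ≤ (2 * k) ^ 4 * (1 / (2 * k) ^ 4 * L) := by
        gcongr
        rw [Real.norm_of_nonneg (by positivity), id, Real.norm_of_nonneg hL0.le] at h5
        exact h5
      _ = L := by field_simp
      _ ≤ L ^ k := hLk
  · rw [Real.norm_of_nonneg hlL.le, Real.norm_of_nonneg (by positivity)] at h6
    rw [Real.sqrt_eq_rpow]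
    calc Real.log (L ^ k + 3) ≤ 2 * k * Real.log L := h9
      _ ≤ 2 * k * (1 / (2 * k) * L ^ (1 / 2 : ℝ)) := by gcongr
      _ = _ := by field_simp
  · have e : (c * Real.sqrt L) ^ (2 * m) = c ^ (2 * m) * L ^ m := by
      rw [mul_pow, pow_mul (Real.sqrt L), Real.sq_sqrt hL0.le]
    rw [e, mul_assoc] at h7
    have hc2 : 0 < c ^ (2 * m) := by positivity
    by_contra hcon
    push Not at hcon
    nlinarith

theorem pnt_S (B : ℕ) : ∃ N₀ : ℕ, ∀ N : ℕ, N₀ ≤ N → ‖pntS N - pntf 0‖ ≤ 1 / (Real.log N) ^ B := by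
  obtain ⟨c, K, hc, hc4, hK, hshift⟩ := pnt_shift
  obtain ⟨L₀, hL₀⟩ := pnt_asym c hc (2 * B + 5) (6 * B + 14) (by omega)
  set L₁ := max L₀ (18 * K + 3) with hL₁
  obtain ⟨N₀, hN₀⟩ := exists_nat_ge (Real.exp L₁)
  refine ⟨max N₀ 1, fun N hN => ?_⟩
  have hN1 : 1 ≤ N := le_trans (le_max_right _ _) hN
  have hN1r : (1 : ℝ) ≤ N := by exact_mod_cast hN1
  have hN0 : (0 : ℝ) < N := by linarith
  have hNN : (N₀ : ℝ) ≤ N := by exact_mod_cast le_trans (le_max_left _ _) hN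
  set L := Real.log N with hL
  have hLL : L₁ ≤ L := by
    rw [hL, Real.le_log_iff_exp_le hN0]
    linarith
  have hLK : 18 * K + 3 ≤ L := (le_max_right _ _).trans hLL
  obtain ⟨ha, hb, hd⟩ := hL₀ L ((le_max_left _ _).trans hLL)
  have hL12 : 12 ≤ L := by linarith
  have hL0 : 0 < L := by linarith
  set T := L ^ (2 * B + 5) with hT
  set l := Real.log (T + 3) with hl
  set δ := 1 / L ^ (B + 2) with hδ
  have hLB : 1 ≤ L ^ (B + 2) := one_le_pow₀ (by linarith)
  have hδ0 : 0 < δ := by positivity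
  have hδ1 : δ ≤ 1 := by
    rw [hδ, div_le_one (by positivity)]
    exact hLB
  have hT1 : 1 ≤ T := one_le_pow₀ (by linarith)
  have hl1 : 1 ≤ l := by
    rw [hl, Real.le_log_iff_exp_le (by linarith)]
    have := Real.exp_one_lt_d9
    linarith
  set Y := (N : ℝ) * (1 + δ) with hY
  have hNY : (N : ℝ) ≤ Y := by rw [hY]; nlinarith
  have hY2N : Y ≤ 2 * N := by rw [hY]; nlinarith
  have hY0 : 0 < Y := by linarith
  have hlY : Real.log Y = L + Real.log (1 + δ) := by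
    rw [hY, Real.log_mul hN0.ne' (by positivity)]
  have hl1δ : Real.log (1 + δ) ≤ δ := by
    have := Real.log_le_sub_one_of_pos (show 0 < 1 + δ by linarith)
    linarith
  have hl2δ : δ / 2 ≤ Real.log (1 + δ) := by
    have h1 := Real.one_sub_inv_le_log_of_pos (show 0 < 1 + δ by linarith)
    have h2 : δ / 2 ≤ 1 - (1 + δ)⁻¹ := by
      rw [← one_div, le_sub_iff_add_le, ← le_sub_iff_add_le', div_le_iff₀ (by linarith)]
      nlinarith
    linarith
  have h1 := hshift N Y (1 / L) T hN1r hNY (by positivity) (by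
    rw [div_le_one hL0]; linarith) hT1 ha
  have h2 := pnt_unsmooth N hN1 Y hNY
  have e1 : Real.log Y - Real.log N = Real.log (1 + δ) := by rw [hlY]; ring
  rw [e1] at h1 h2
  set D := ∑ m ∈ Icc 1 ⌊Y⌋₊, pnta m * (m : ℂ) ^ (-1 : ℂ) *
      ((kfun (m / Y) - kfun (m / (N : ℝ)) : ℝ) : ℂ) with hD
  set lam := Real.log (1 + δ) with hlam
  have hlam0 : 0 < lam := by linarith
  -- the error term
  have hYσ : Y ^ (1 / L) ≤ 8 := by
    rw [Real.rpow_def_of_pos hY0, hlY]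
    have : (L + lam) * (1 / L) ≤ 2 := by
      rw [mul_one_div, div_le_iff₀ hL0]
      linarith
    calc Real.exp ((L + lam) * (1 / L)) ≤ Real.exp 2 := Real.exp_le_exp.mpr this
      _ = Real.exp 1 ^ 2 := by rw [← Real.exp_nat_mul]; norm_num
      _ ≤ 2.7182818286 ^ 2 := by
        gcongr
        exact Real.exp_one_lt_d9.le
      _ ≤ 8 := by norm_num
  have hpw : (N : ℝ) ^ (-(c / l)) ≤ Real.exp (-(c * Real.sqrt L)) := by
    rw [Real.rpow_def_of_pos hN0]
    apply Real.exp_le_exp.mpr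
    rw [← hL]
    have h3 : Real.sqrt L ≤ L / l := by
      rw [le_div_iff₀ (by linarith)]
      calc Real.sqrt L * l ≤ Real.sqrt L * Real.sqrt L := by gcongr
        _ = L := Real.mul_self_sqrt hL0.le
    have h4 : L * -(c / l) = -(c * (L / l)) := by ring
    rw [h4]
    apply neg_le_neg
    gcongr
  have hE : K * (Y ^ (1 / L) / (1 / L) ^ 2 / T + T ^ 2 * l ^ 2 * (N : ℝ) ^ (-(c / l))) ≤
      9 * K / L ^ (2 * B + 3) := by
    have p1 : Y ^ (1 / L) / (1 / L) ^ 2 / T ≤ 8 / L ^ (2 * B + 3) := by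
      have e2 : Y ^ (1 / L) / (1 / L) ^ 2 / T = Y ^ (1 / L) / L ^ (2 * B + 3) := by
        rw [hT]
        have : L ^ (2 * B + 5) = L ^ (2 * B + 3) * L ^ 2 := by rw [← pow_add]
        rw [this]
        field_simp
      rw [e2]
      gcongr
    have p2 : T ^ 2 * l ^ 2 * (N : ℝ) ^ (-(c / l)) ≤ 1 / L ^ (2 * B + 3) := by
      rw [le_div_iff₀ (by positivity)]
      have h3 : l ^ 2 ≤ L := by
        calc l ^ 2 ≤ Real.sqrt L ^ 2 := by gcongr
          _ = L := Real.sq_sqrt hL0.le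
      calc T ^ 2 * l ^ 2 * (N : ℝ) ^ (-(c / l)) * L ^ (2 * B + 3) ≤
          T ^ 2 * L * Real.exp (-(c * Real.sqrt L)) * L ^ (2 * B + 3) := by gcongr
        _ = L ^ (6 * B + 14) * Real.exp (-(c * Real.sqrt L)) := by
          rw [hT]
          have : L ^ (6 * B + 14) = (L ^ (2 * B + 5)) ^ 2 * L * L ^ (2 * B + 3) := by
            rw [← pow_mul, ← pow_succ, ← pow_add]
            congr 1
            ring
          rw [this]
          ring
        _ ≤ 1 := hd
    calc K * (Y ^ (1 / L) / (1 / L) ^ 2 / T + T ^ 2 * l ^ 2 * (N : ℝ) ^ (-(c / l))) ≤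
        K * (8 / L ^ (2 * B + 3) + 1 / L ^ (2 * B + 3)) := by gcongr
      _ = _ := by ring
  have h3 := h1.trans hE
  have h4 : ‖D - (lam : ℂ) * pntf 0‖ ≤ 9 * K / L ^ (2 * B + 3) := by
    rw [norm_mul] at h3
    have e3 : ‖(2 * Real.pi : ℂ)‖ = 2 * Real.pi := by
      rw [norm_mul, Complex.norm_real, Real.norm_of_nonneg Real.pi_pos.le]
      simp
    rw [e3] at h3
    have h5 := norm_nonneg (D - (lam : ℂ) * pntf 0)
    have h6 : 1 ≤ 2 * Real.pi := by linarith [Real.pi_gt_three]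
    nlinarith
  have h5 : ‖(lam : ℂ) * (pntS N - pntf 0)‖ ≤
      9 * K / L ^ (2 * B + 3) + lam * ((Y - N) * (1 + Real.log Y) / N) := by
    have e4 : (lam : ℂ) * (pntS N - pntf 0) = (D - (lam : ℂ) * pntf 0) - (D - (lam : ℂ) * pntS N) := by
      ring
    rw [e4]
    exact (norm_sub_le _ _).trans (add_le_add h4 h2)
  rw [norm_mul, Complex.norm_real, Real.norm_of_nonneg hlam0.le] at h5
  have e5 : (Y - N) * (1 + Real.log Y) / N = δ * (1 + Real.log Y) := by
    rw [hY]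
    field_simp
    ring
  rw [e5, hlY] at h5
  have h6 : δ * (1 + (L + lam)) ≤ 3 / L ^ (B + 1) := by
    rw [hδ, div_mul_eq_mul_div, one_mul, div_le_div_iff₀ (by positivity) (by positivity)]
    have : L ^ (B + 2) = L ^ (B + 1) * L := by rw [← pow_succ]
    rw [this]
    have h7 : 0 < L ^ (B + 1) := by positivity
    nlinarith
  have h7 : 9 * K / L ^ (2 * B + 3) ≤ lam * (18 * K / L ^ (B + 1)) := by
    have : δ / 2 * (18 * K / L ^ (B + 1)) = 9 * K / L ^ (2 * B + 3) := by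
      rw [hδ]
      have : L ^ (2 * B + 3) = L ^ (B + 2) * L ^ (B + 1) := by
        rw [← pow_add]
        congr 1
        ring
      rw [this]
      field_simp
      ring
    rw [← this]
    gcongr
  have h8 : lam * ‖pntS N - pntf 0‖ ≤ lam * ((18 * K + 3) / L ^ (B + 1)) := by
    calc lam * ‖pntS N - pntf 0‖ ≤
        9 * K / L ^ (2 * B + 3) + lam * (δ * (1 + (L + lam))) := h5
      _ ≤ lam * (18 * K / L ^ (B + 1)) + lam * (3 / L ^ (B + 1)) := by
        apply add_le_add h7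
        exact mul_le_mul_of_nonneg_left h6 hlam0.le
      _ = _ := by ring
  have h9 := le_of_mul_le_mul_left h8 hlam0
  refine h9.trans ?_
  rw [div_le_div_iff₀ (by positivity) (by positivity), one_mul, pow_succ, mul_comm (L ^ B)]
  gcongr

theorem pnt_abel (x : ℕ) : ∑ n ∈ range (x + 1), pnta n = x * pntS x - ∑ n ∈ range x, pntS n := by
  induction x with
  | zero => simp [pnta]
  | succ x ih =>
    rw [Finset.sum_range_succ, ih, Finset.sum_range_succ _ x]
    have h1 : pntS (x + 1) = pntS x + pnta (x + 1) * ((x + 1 : ℕ) : ℂ) ^ (-1 : ℂ) := by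
      unfold pntS
      rw [Finset.sum_Icc_succ_top (by omega)]
    have h2 : ((x + 1 : ℕ) : ℂ) ≠ 0 := by exact_mod_cast Nat.succ_ne_zero x
    have h3 : ((x + 1 : ℕ) : ℂ) * ((x + 1 : ℕ) : ℂ) ^ (-1 : ℂ) = 1 := by
      rw [Complex.cpow_neg_one, mul_inv_cancel₀ h2]
    rw [h1]
    push_cast at h3 ⊢
    linear_combination (-pnta (x + 1)) * h3

theorem pnt_sum (x : ℕ) : ∑ n ∈ range (x + 1), pnta n = ∑ n ∈ range x, Lam n + Lam x - x := by
  induction x with
  | zero => simp [pnta, Lam]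
  | succ x ih =>
    rw [Finset.sum_range_succ, ih, Finset.sum_range_succ _ x]
    have : pnta (x + 1) = Lam (x + 1) - 1 := by
      unfold pnta
      rw [if_neg (by omega)]
    rw [this]
    push_cast
    ring

theorem pnt_err (A : ℕ) : ∃ x0 : ℕ, ∀ x : ℕ, x0 ≤ x →
    ‖∑ n ∈ range x, Lam n - (x : ℂ)‖ ≤ x / (Real.log x) ^ A := by
  obtain ⟨N₀, hN₀⟩ := pnt_S (A + 1)
  set N₁ := max N₀ 3 with hN₁
  set r : ℕ → ℝ := fun n => ‖pntS n - pntf 0‖ with hr
  set R := ∑ n ∈ range N₁, r n + 1 with hR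
  have hr0 : ∀ n, 0 ≤ r n := fun n => norm_nonneg _
  have hR0 : 1 ≤ R := by
    have := Finset.sum_nonneg (s := range N₁) (fun n _ => hr0 n)
    linarith
  have hrR : ∀ n, r n ≤ R := by
    intro n
    by_cases hn : n < N₁
    · have := Finset.single_le_sum (s := range N₁) (fun n _ => hr0 n) (mem_range.mpr hn)
      linarith
    · push Not at hn
      have h1 := hN₀ n ((le_max_left _ _).trans hn)
      have h3 : (3 : ℝ) ≤ n := by exact_mod_cast (le_max_right _ _).trans hn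
      have h4 : 1 ≤ Real.log n := by
        rw [Real.le_log_iff_exp_le (by linarith)]
        have := Real.exp_one_lt_d9
        linarith
      have h5 : 1 ≤ Real.log n ^ (A + 1) := one_le_pow₀ h4
      have h6 : 1 / Real.log n ^ (A + 1) ≤ 1 := by
        rw [div_le_one (by linarith)]
        exact h5
      exact (h1.trans h6).trans hR0
  have hev : ∀ᶠ x : ℝ in Filter.atTop, Real.log x ^ (2 * (A + 1)) ≤ x := by
    have h1 := (Real.isLittleO_pow_log_id_atTop (n := 2 * (A + 1))).bound one_pos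
    filter_upwards [h1, Filter.eventually_ge_atTop (1 : ℝ)] with x hx hx1
    have := Real.log_nonneg hx1
    rw [Real.norm_of_nonneg (by positivity), id, Real.norm_of_nonneg (by linarith), one_mul] at hx
    exact hx
  have hev2 : ∀ᶠ x : ℝ in Filter.atTop, 2 ^ (A + 1) + 2 * R + 2 ≤ Real.log x :=
    Real.tendsto_log_atTop.eventually_ge_atTop _
  obtain ⟨X₀, hX₀⟩ := Filter.eventually_atTop.mp (hev.and hev2)
  obtain ⟨x₁, hx₁⟩ := exists_nat_ge X₀
  refine ⟨max x₁ (N₁ ^ 2 + 1), fun x hx => ?_⟩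
  obtain ⟨h1, h2⟩ := hX₀ x (hx₁.trans (by exact_mod_cast (le_max_left _ _).trans hx))
  have hxN : N₁ ^ 2 + 1 ≤ x := (le_max_right _ _).trans hx
  have hx1 : 1 ≤ x := by omega
  have hxr : (1 : ℝ) ≤ x := by exact_mod_cast hx1
  have hx0 : (0 : ℝ) < x := by linarith
  set ℓ := Real.log x with hℓ
  have h2A : (0 : ℝ) < 2 ^ (A + 1) := by positivity
  have hℓ1 : 1 ≤ ℓ := by linarith
  have hℓ0 : 0 < ℓ := by linarith
  have h3 : ℓ ^ (A + 1) ≤ Real.sqrt x := by
    apply Real.le_sqrt_of_sq_le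
    rw [← pow_mul, mul_comm (A + 1) 2]
    exact h1
  have h4 : ℓ ≤ ℓ ^ (A + 1) := by
    calc ℓ = ℓ ^ 1 := (pow_one _).symm
      _ ≤ ℓ ^ (A + 1) := pow_le_pow_right₀ hℓ1 (by omega)
  have heq : ∑ n ∈ range x, Lam n - (x : ℂ) =
      x * (pntS x - pntf 0) - ∑ n ∈ range x, (pntS n - pntf 0) - Lam x := by
    have e1 := pnt_abel x
    rw [pnt_sum x] at e1
    rw [Finset.sum_sub_distrib, Finset.sum_const, card_range, nsmul_eq_mul]
    linear_combination e1
  have h5 : ‖Lam x‖ ≤ ℓ := by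
    unfold Lam
    rw [Complex.norm_real, Real.norm_of_nonneg ArithmeticFunction.vonMangoldt_nonneg]
    exact ArithmeticFunction.vonMangoldt_le_log
  have hN1x : N₁ ≤ x := by nlinarith
  have h6 : r x ≤ 1 / ℓ ^ (A + 1) := hN₀ x (le_trans (le_max_left _ _) hN1x)
  have h7 : ∀ n ∈ range x, r n ≤ 2 ^ (A + 1) / ℓ ^ (A + 1) + if n ≤ Nat.sqrt x then R else 0 := by
    intro n hn
    by_cases hns : n ≤ Nat.sqrt x
    · rw [if_pos hns]
      have := hrR n
      have h8 : 0 ≤ (2 : ℝ) ^ (A + 1) / ℓ ^ (A + 1) := by positivity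
      linarith
    · rw [if_neg hns, add_zero]
      push Not at hns
      have h8 : x < n * n := Nat.sqrt_lt.mp hns
      have h9 : N₁ ≤ n := by
        by_contra hcon
        push Not at hcon
        nlinarith
      have h10 := hN₀ n (le_trans (le_max_left _ _) h9)
      have hn3 : (3 : ℝ) ≤ n := by exact_mod_cast (le_max_right _ _).trans h9
      have h11 : ℓ ≤ 2 * Real.log n := by
        have : (x : ℝ) ≤ (n : ℝ) ^ 2 := by
          rw [sq]
          exact_mod_cast h8.le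
        calc ℓ ≤ Real.log ((n : ℝ) ^ 2) := Real.log_le_log hx0 this
          _ = _ := by rw [Real.log_pow]; push_cast; ring
      have hln : 0 < Real.log n := Real.log_pos (by linarith)
      refine h10.trans ?_
      rw [div_le_div_iff₀ (by positivity) (by positivity), one_mul, ← mul_pow]
      gcongr
  have h8 : ∑ n ∈ range x, r n ≤ x * (2 ^ (A + 1) / ℓ ^ (A + 1)) + R * (Real.sqrt x + 1) := by
    refine (Finset.sum_le_sum h7).trans ?_
    rw [Finset.sum_add_distrib, Finset.sum_const, card_range, nsmul_eq_mul, ← Finset.sum_filter,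
      Finset.sum_const, nsmul_eq_mul]
    have h9 : (((range x).filter (fun n => n ≤ Nat.sqrt x)).card : ℝ) ≤ Real.sqrt x + 1 := by
      have h10 : ((range x).filter (fun n => n ≤ Nat.sqrt x)).card ≤ Nat.sqrt x + 1 := by
        calc _ ≤ (range (Nat.sqrt x + 1)).card := by
              apply Finset.card_le_card
              intro n hn
              rw [mem_filter] at hn
              rw [mem_range]
              omega
          _ = _ := card_range _
      have h11 : (Nat.sqrt x : ℝ) ≤ Real.sqrt x := Real.nat_sqrt_le_real_sqrt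
      calc _ ≤ ((Nat.sqrt x + 1 : ℕ) : ℝ) := by exact_mod_cast h10
        _ ≤ _ := by push_cast; linarith
    rw [mul_comm R]
    gcongr
  rw [heq]
  have h9 : ‖(x : ℂ) * (pntS x - pntf 0) - ∑ n ∈ range x, (pntS n - pntf 0) - Lam x‖ ≤
      x * r x + ∑ n ∈ range x, r n + ℓ := by
    refine (norm_sub_le _ _).trans (add_le_add ((norm_sub_le _ _).trans (add_le_add ?_ ?_)) h5)
    · rw [norm_mul, Complex.norm_natCast]
    · exact norm_sum_le _ _
  refine h9.trans ?_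
  have hs1 : 1 ≤ Real.sqrt x := by
    rw [Real.one_le_sqrt]
    exact hxr
  have hss : Real.sqrt x * Real.sqrt x = x := Real.mul_self_sqrt hx0.le
  have h10 : R * (Real.sqrt x + 1) + ℓ ≤ (2 * R + 1) * (x / ℓ ^ (A + 1)) := by
    have h11 : Real.sqrt x ≤ x / ℓ ^ (A + 1) := by
      rw [le_div_iff₀ (by positivity)]
      calc Real.sqrt x * ℓ ^ (A + 1) ≤ Real.sqrt x * Real.sqrt x := by gcongr
        _ = x := hss
    calc R * (Real.sqrt x + 1) + ℓ ≤ (2 * R + 1) * Real.sqrt x := by nlinarith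
      _ ≤ _ := by gcongr
  calc x * r x + ∑ n ∈ range x, r n + ℓ ≤
      x * (1 / ℓ ^ (A + 1)) + (x * (2 ^ (A + 1) / ℓ ^ (A + 1)) + R * (Real.sqrt x + 1)) + ℓ := by
        gcongr
    _ ≤ x * (1 / ℓ ^ (A + 1)) + x * (2 ^ (A + 1) / ℓ ^ (A + 1)) + (2 * R + 1) * (x / ℓ ^ (A + 1)) := by
        linarith
    _ = (2 ^ (A + 1) + 2 * R + 2) * (x / ℓ ^ (A + 1)) := by ring
    _ ≤ ℓ * (x / ℓ ^ (A + 1)) := by gcongr
    _ = x / ℓ ^ A := by
        rw [pow_succ]
        field_simp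

end Pool.Agent.H1.PP
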