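import Pool.Agent.H1.PP.Wrd

/-!
# PP-03 RowD: cones spanned by the rows of different words are separated

For integer rows `dd p q = p0 q1 - p1 q0`; `dd p q > 0` means that the ratio `p0 / p1` is larger than `q0 / q1`.
`dd (V 0) (V 1) = 1` for every word.  `Sep V' V` says that the cone of `V'` comes before that of `V`.

PROOF of `sep_letters`.  Let `g = [[A, B], [C, D]]`, `g' = [[A', B'], [C', D']]` be different letters.  If
`C' B - D' A ≥ 0` (that is `dd (g' 1) (g 0) ≥ 0`) then `Sep g' g`: `dd (g' 1) (g 1) ≥ 1` because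
`C'/D' ≥ A/B > C/D`; precisely `B (C' D - D' C) = D (C' B - D' A) + D' (A D - B C) ≥ D' > 0`; similarly
`dd (g' 0) (g 0) ≥ 1` as `A'/B' > C'/D' ≥ A/B` and `dd (g' 0) (g 1) ≥ 1`.  Symmetrically if `dd (g 1) (g' 0) ≥ 0`.
Otherwise `C'/D' < A/B` and `C/D < A'/B'`.  WLOG `C/D ≤ C'/D'` (exchange `g`, `g'`).  If `C/D < C'/D' < A/B` then
`D' = D (A D' - B C') + B (C' D - C D') ≥ D + B ≥ 2 D > 2 Q`, contradiction with `D' ≤ 2 Q`.  If `C/D = C'/D'` then
(coprime positive pairs) `C = C'`, `D = D'`, so `g = g'` by `Lt_uniq`, contradiction.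

PROOF of `cone_sep` by induction on `n` (words `V = W * g`, `V' = W' * g'`).  Rows: `V i = W i 0 • g 0 + W i 1 • g 1`.
If `g = g'` then `dd (V' i) (V j) = dd (W' i) (W j) * det g = dd (W' i) (W j)` and `W ≠ W'`: induction.  If `g ≠ g'`,
say `Sep g' g`: `dd (V' i) (V j) = ∑_{k,l} W' i k * W j l * dd (g' k) (g l) ≥ 0` (entries of words are `≥ 0`), and
`dd (V' 0) (V 0) ≥ W' 0 0 * W 0 0 ≥ 1`, `dd (V' 0) (V 1) ≥ W' 0 0 * W 1 1 ≥ 1`, `dd (V' 1) (V 1) ≥ W' 1 1 * W 1 1 ≥ 1`
(`Wd_diag`).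

`row_inj`: otherwise `dd (V' 1) (V 1) ≥ 1` or `dd (V 1) (V' 1) ≥ 1`, but `dd v v = 0`.
`Wd_inj`, `card_Wd`: from `cone_sep` for letters applied to the rows (as above, the second rows of `P * g` and
`P' * g'` differ if `g ≠ g'`), and `g` is invertible.
-/

set_option autoImplicit false

open Finset

namespace Pool.Agent.H1.PP

open Pool.Agent.H10.RP (ee nd Lam)

lemma rowd_lt {s : ℕ} {g : M2} (hg : g ∈ Lt s) : IsLt s g := (mem_Lt s g).1 hg

/-- one half of the case distinction -/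
lemma rowd_sep_of {s : ℕ} {g g' : M2} (hg : g ∈ Lt s) (hg' : g' ∈ Lt s)
    (h : 0 ≤ dd (g' 1) (g 0)) : Sep g' g := by
  obtain ⟨h1, h2, h3, h4, h5, h6, h7, h8, h9⟩ := rowd_lt hg
  obtain ⟨k1, k2, k3, k4, k5, k6, k7, k8, k9⟩ := rowd_lt hg'
  have hQ : (1 : ℤ) ≤ Qh s := by exact_mod_cast Qh_pos s
  unfold dd at h
  unfold Sep dd
  set A := g 0 0
  set B := g 0 1
  set C := g 1 0
  set D := g 1 1
  set A' := g' 0 0
  set B' := g' 0 1
  set C' := g' 1 0
  set D' := g' 1 1
  have hD : 0 < D := by linarith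
  have hD' : 0 < D' := by linarith
  have hB : 0 < B := by linarith
  have hB' : 0 < B' := by linarith
  have e1 : 0 < C' * D - D' * C := by
    have : B * (C' * D - D' * C) = D * (C' * B - D' * A) + D' := by
      linear_combination D' * h1
    by_contra hcon
    push Not at hcon
    nlinarith [mul_nonneg hD.le h]
  have e2 : 0 < A' * B - B' * A := by
    have : D' * (A' * B - B' * A) = B + B' * (C' * B - D' * A) := by
      linear_combination B * k1
    by_contra hcon
    push Not at hcon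
    nlinarith [mul_nonneg hB'.le h]
  have e3 : 0 < A' * D - B' * C := by
    have : D' * (A' * D - B' * C) = D + B' * (C' * D - D' * C) := by
      linear_combination D * k1
    by_contra hcon
    push Not at hcon
    nlinarith [mul_pos hB' e1]
  exact ⟨by linarith, by linarith, h, by linarith⟩

lemma rowd_no {s : ℕ} {g g' : M2} (hg : g ∈ Lt s) (hg' : g' ∈ Lt s)
    (h : dd (g' 1) (g 0) < 0) : dd (g' 1) (g 1) ≤ 0 := by
  obtain ⟨h1, h2, h3, h4, h5, h6, h7, h8, h9⟩ := rowd_lt hg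
  obtain ⟨k1, k2, k3, k4, k5, k6, k7, k8, k9⟩ := rowd_lt hg'
  unfold dd at h ⊢
  by_contra hcon
  push Not at hcon
  have e : g' 1 1 = g 1 1 * (g 0 0 * g' 1 1 - g 0 1 * g' 1 0) +
      g 0 1 * (g' 1 0 * g 1 1 - g' 1 1 * g 1 0) := by
    linear_combination -(g' 1 1) * h1
  have hD : 0 < g 1 1 := by linarith
  have hB : 0 < g 0 1 := by linarith
  have e1 : g 1 1 * 1 ≤ g 1 1 * (g 0 0 * g' 1 1 - g 0 1 * g' 1 0) :=
    mul_le_mul_of_nonneg_left (by linarith) hD.le
  have e2 : g 0 1 * 1 ≤ g 0 1 * (g' 1 0 * g 1 1 - g' 1 1 * g 1 0) :=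
    mul_le_mul_of_nonneg_left (by linarith) hB.le
  linarith

theorem sep_letters (s : ℕ) (g g' : M2) (hg : g ∈ Lt s) (hg' : g' ∈ Lt s) (hne : g ≠ g') :
    Sep g' g ∨ Sep g g' := by
  by_cases c1 : 0 ≤ dd (g' 1) (g 0)
  · exact Or.inl (rowd_sep_of hg hg' c1)
  by_cases c2 : 0 ≤ dd (g 1) (g' 0)
  · exact Or.inr (rowd_sep_of hg' hg c2)
  exfalso
  push Not at c1 c2
  have c3 := rowd_no hg hg' c1
  have c4 := rowd_no hg' hg c2
  have c5 : dd (g' 1) (g 1) = 0 := by
    unfold dd at c3 c4 ⊢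
    linarith
  obtain ⟨h1, h2, h3, h4, h5, h6, h7, h8, h9⟩ := rowd_lt hg
  obtain ⟨k1, k2, k3, k4, k5, k6, k7, k8, k9⟩ := rowd_lt hg'
  unfold dd at c1 c2 c5
  set e := g 0 0 * g' 1 1 - g 0 1 * g' 1 0 with he
  have e1 : g' 1 0 = g 1 0 * e := by
    rw [he]
    linear_combination -(g' 1 0) * h1 + g 0 0 * c5
  have e2 : g' 1 1 = g 1 1 * e := by
    rw [he]
    linear_combination -(g' 1 1) * h1 + g 0 1 * c5
  have e3 : 0 < e := by
    have : 0 < g' 1 0 := by linarith
    rw [e1] at this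
    by_contra hcon
    push Not at hcon
    have h10 : 0 < g 1 0 := by linarith
    nlinarith
  have e4 : e = 1 := by
    by_contra hcon
    have h10 : 2 ≤ e := by omega
    have h11 : 0 < g 1 0 := by linarith
    nlinarith
  rw [e4, mul_one] at e1 e2
  apply hne
  refine Lt_uniq s g g' hg hg' ?_
  funext j
  fin_cases j
  · exact e1.symm
  · exact e2.symm

lemma rowd_dd_mul (W' g' W g : M2) (i j : Fin 2) :
    dd ((W' * g') i) ((W * g) j) = W' i 0 * W j 0 * dd (g' 0) (g 0) +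
      W' i 0 * W j 1 * dd (g' 0) (g 1) + W' i 1 * W j 0 * dd (g' 1) (g 0) +
      W' i 1 * W j 1 * dd (g' 1) (g 1) := by
  unfold dd
  simp only [Matrix.mul_apply, Fin.sum_univ_two]
  ring

lemma rowd_dd_mul_same (W' W g : M2) (hg : g.det = 1) (i j : Fin 2) :
    dd ((W' * g) i) ((W * g) j) = dd (W' i) (W j) := by
  rw [Matrix.det_fin_two] at hg
  rw [rowd_dd_mul]
  unfold dd
  linear_combination (W' i 0 * W j 1 - W' i 1 * W j 0) * hg

lemma rowd_sep_mul {s n : ℕ} {W W' g g' : M2} (hW : W ∈ Wd s n) (hW' : W' ∈ Wd s n)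
    (h : Sep g' g) : Sep (W' * g') (W * g) := by
  obtain ⟨h1, h2, h3, h4⟩ := h
  have n0 := Wd_nonneg s n W hW
  have n1 := Wd_nonneg s n W' hW'
  obtain ⟨d1, d2⟩ := Wd_diag s n W hW
  obtain ⟨d3, d4⟩ := Wd_diag s n W' hW'
  have z : ∀ i j k l : Fin 2, 0 ≤ W' i k * W j l := fun i j k l => mul_nonneg (n1 _ _) (n0 _ _)
  refine ⟨?_, ?_, ?_, ?_⟩
  · rw [rowd_dd_mul]
    have a1 : 1 ≤ W' 0 0 * W 0 0 * dd (g' 0) (g 0) := by
      have := mul_le_mul (mul_le_mul d3 d1 zero_le_one (by linarith)) h1 zero_le_one (z 0 0 0 0)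
      simpa using this
    have a2 := mul_nonneg (z 0 0 0 1) (zero_le_one.trans h2)
    have a3 := mul_nonneg (z 0 0 1 0) h3
    have a4 := mul_nonneg (z 0 0 1 1) (zero_le_one.trans h4)
    linarith
  · rw [rowd_dd_mul]
    have a1 : 1 ≤ W' 0 0 * W 1 1 * dd (g' 0) (g 1) := by
      have := mul_le_mul (mul_le_mul d3 d2 zero_le_one (by linarith)) h2 zero_le_one (z 0 1 0 1)
      simpa using this
    have a2 := mul_nonneg (z 0 1 0 0) (zero_le_one.trans h1)
    have a3 := mul_nonneg (z 0 1 1 0) h3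
    have a4 := mul_nonneg (z 0 1 1 1) (zero_le_one.trans h4)
    linarith
  · rw [rowd_dd_mul]
    have a1 := mul_nonneg (z 1 0 0 0) (zero_le_one.trans h1)
    have a2 := mul_nonneg (z 1 0 0 1) (zero_le_one.trans h2)
    have a3 := mul_nonneg (z 1 0 1 0) h3
    have a4 := mul_nonneg (z 1 0 1 1) (zero_le_one.trans h4)
    linarith
  · rw [rowd_dd_mul]
    have a1 : 1 ≤ W' 1 1 * W 1 1 * dd (g' 1) (g 1) := by
      have := mul_le_mul (mul_le_mul d4 d2 zero_le_one (by linarith)) h4 zero_le_one (z 1 1 1 1)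
      simpa using this
    have a2 := mul_nonneg (z 1 1 0 0) (zero_le_one.trans h1)
    have a3 := mul_nonneg (z 1 1 0 1) (zero_le_one.trans h2)
    have a4 := mul_nonneg (z 1 1 1 0) h3
    linarith

theorem cone_sep (s n : ℕ) (V V' : M2) (hV : V ∈ Wd s n) (hV' : V' ∈ Wd s n) (hne : V ≠ V') :
    Sep V' V ∨ Sep V V' := by
  induction n generalizing V V' with
  | zero =>
    exfalso
    unfold Wd at hV hV'
    rw [Finset.mem_singleton] at hV hV'
    exact hne (hV.trans hV'.symm)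
  | succ n ih =>
    obtain ⟨W, hW, g, hg, rfl⟩ := (mem_Wd_succ s n V).1 hV
    obtain ⟨W', hW', g', hg', rfl⟩ := (mem_Wd_succ s n V').1 hV'
    by_cases hgg : g = g'
    · subst hgg
      have hWW : W ≠ W' := fun h => hne (by rw [h])
      have hdet := Lt_det s g hg
      rcases ih W W' hW hW' hWW with h | h
      · left
        unfold Sep
        simp only [rowd_dd_mul_same _ _ _ hdet]
        exact h
      · right
        unfold Sep
        simp only [rowd_dd_mul_same _ _ _ hdet]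
        exact h
    · rcases sep_letters s g g' hg hg' hgg with h | h
      · exact Or.inl (rowd_sep_mul hW hW' h)
      · exact Or.inr (rowd_sep_mul hW' hW h)

lemma rowd_dd_self (v : Fin 2 → ℤ) : dd v v = 0 := by
  unfold dd
  ring

theorem row_inj (s n : ℕ) (V V' : M2) (hV : V ∈ Wd s n) (hV' : V' ∈ Wd s n) (h : V 1 = V' 1) :
    V = V' := by
  by_contra hne
  rcases cone_sep s n V V' hV hV' hne with hs | hs
  · have := hs.2.2.2
    rw [h, rowd_dd_self] at this
    norm_num at this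
  · have := hs.2.2.2
    rw [h, rowd_dd_self] at this
    norm_num at this

theorem Wd_inj (s n : ℕ) (P P' g g' : M2) (hP : P ∈ Wd s n) (hP' : P' ∈ Wd s n) (hg : g ∈ Lt s)
    (hg' : g' ∈ Lt s) (h : P * g = P' * g') : P = P' ∧ g = g' := by
  have hgg : g = g' := by
    by_contra hne
    rcases sep_letters s g g' hg hg' hne with hs | hs
    · have := (rowd_sep_mul hP hP' hs).2.2.2
      rw [h, rowd_dd_self] at this
      norm_num at this
    · have := (rowd_sep_mul hP' hP hs).2.2.2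
      rw [h, rowd_dd_self] at this
      norm_num at this
  subst hgg
  refine ⟨?_, rfl⟩
  have h2 : P * g * g.adjugate = P' * g * g.adjugate := by rw [h]
  rw [Matrix.mul_assoc, Matrix.mul_assoc, Matrix.mul_adjugate, Lt_det s g hg, one_smul,
    Matrix.mul_one, Matrix.mul_one] at h2
  exact h2

theorem card_Wd (s n : ℕ) : (Wd s n).card = (Lt s).card ^ n := by
  induction n with
  | zero => simp [Wd]
  | succ n ih =>
    show ((Wd s n ×ˢ Lt s).image (fun t => t.1 * t.2)).card = _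
    rw [Finset.card_image_of_injOn, Finset.card_product, ih, pow_succ]
    rintro ⟨P, g⟩ hx ⟨P', g'⟩ hy hxy
    rw [Finset.mem_coe, Finset.mem_product] at hx hy
    obtain ⟨h1, h2⟩ := Wd_inj s n P P' g g' hx.1 hy.1 hx.2 hy.2 hxy
    rw [h1, h2]

end Pool.Agent.H1.PP
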