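import Pool.Agent.H1.PP.Defs

/-!
# PP-12 SgA: the product `ζ(s) L(s,χ) L(s,ψ) L(s,χψ)` has nonnegative coefficients

PROOF.  `a = ζ * χ * ψ * χψ` (Dirichlet convolution of arithmetic functions; `ζ = 1`).  It is multiplicative
(`IsMultiplicative.mul`), so it is enough that `a (p^k) ≥ 0`.  With `u = χ(p)`, `v = ψ(p)`, which lie in `{0, 1, -1}`
because `χ² = ψ² = 1`: the generating series of `a (p^k)` is `1/((1-x)(1-ux)(1-vx)(1-uvx))`.  Put
`c_k = ∑_{j ≤ k} u^j ≥ 0` (these are the values at `p^k` of `zetaMul χ`, `DirichletCharacter.zetaMul_nonneg`); then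
`a (p^k) = ∑_{i+j=k} c_i v^j c_j`.  For `v ∈ {0, 1}` this is `≥ 0` termwise.  By symmetry the same holds for
`u ∈ {0, 1}`.  For `u = v = -1`, `c_k = 1` for even `k` and `0` for odd `k`, and all terms are `≥ 0`.
LSeries: `LSeries (f * g) = LSeries f * LSeries g` for `Re s > 1` (`ArithmeticFunction.LSeries_mul'`),
`LSeries_zeta_eq_riemannZeta`, `DirichletCharacter.LFunction_eq_LSeries`.  The abscissa is at most `1` since the series is
summable for all real `x > 1`.  `a 1 = 1`.
-/

set_option autoImplicit false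

open Finset

namespace Pool.Agent.H1.PP

open Pool.Agent.H10.RP (ee nd Lam)

/-- the product of the four L-functions -/
noncomputable def FF {m : ℕ} [NeZero m] (χ ψ : DirichletCharacter ℂ m) (s : ℂ) : ℂ :=
  riemannZeta s * DirichletCharacter.LFunction χ s * DirichletCharacter.LFunction ψ s *
    DirichletCharacter.LFunction (χ * ψ) s

/-- the arithmetic function attached to a character -/
noncomputable def sga_X {m : ℕ} (χ : DirichletCharacter ℂ m) : ArithmeticFunction ℂ :=
  toArithmeticFunction (fun n => χ n)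

lemma sga_X_apply {m : ℕ} (χ : DirichletCharacter ℂ m) {n : ℕ} (hn : n ≠ 0) :
    sga_X χ n = χ n := by
  simp [sga_X, toArithmeticFunction, hn]

/-- the arithmetic function with Dirichlet series `FF` -/
noncomputable def sga_a {m : ℕ} (χ ψ : DirichletCharacter ℂ m) : ArithmeticFunction ℂ :=
  ((ArithmeticFunction.zeta : ArithmeticFunction ℂ) * sga_X χ) * (sga_X ψ * sga_X (χ * ψ))

lemma sga_symm {m : ℕ} (χ ψ : DirichletCharacter ℂ m) : sga_a χ ψ = sga_a ψ χ := by
  unfold sga_a
  rw [mul_comm ψ χ]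
  ring

lemma sga_twist {m : ℕ} (χ ψ : DirichletCharacter ℂ m) {n : ℕ} (hn : n ≠ 0) :
    (sga_X ψ * sga_X (χ * ψ)) n = ψ n * χ.zetaMul n := by
  have h1 : χ.zetaMul = (ArithmeticFunction.zeta : ArithmeticFunction ℂ) * sga_X χ := rfl
  rw [h1, ArithmeticFunction.mul_apply, ArithmeticFunction.mul_apply, Finset.mul_sum]
  apply Finset.sum_congr rfl
  intro x hx
  rw [Nat.mem_divisorsAntidiagonal] at hx
  have hx1 : x.1 ≠ 0 := fun h => hn (by rw [← hx.1, h, zero_mul])
  have hx2 : x.2 ≠ 0 := fun h => hn (by rw [← hx.1, h, mul_zero])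
  rw [sga_X_apply ψ hx1, sga_X_apply _ hx2, sga_X_apply _ hx2, ← hx.1,
    ArithmeticFunction.natCoe_apply, ArithmeticFunction.zeta_apply, if_neg hx1,
    MulChar.mul_apply]
  push_cast
  rw [map_mul]
  ring

open scoped ComplexOrder in
lemma sga_zetaMul_odd {m : ℕ} (χ : DirichletCharacter ℂ m) {p : ℕ} (hp : p.Prime)
    (h : χ p = -1) (k : ℕ) : χ.zetaMul (p ^ k) = if Even (k + 1) then 0 else 1 := by
  have h1 : χ.zetaMul = (ArithmeticFunction.zeta : ArithmeticFunction ℂ) * sga_X χ := rfl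
  rw [h1, ArithmeticFunction.coe_zeta_mul_apply, Nat.sum_divisors_prime_pow hp,
    ← neg_one_geom_sum]
  apply Finset.sum_congr rfl
  intro i _
  rw [sga_X_apply _ (pow_ne_zero i hp.ne_zero)]
  push_cast
  rw [map_pow, h]

open scoped ComplexOrder in
/-- the easy case -/
lemma sga_case {m : ℕ} (χ ψ : DirichletCharacter ℂ m) (hχ : χ ^ 2 = 1) {p : ℕ} (hp : p.Prime)
    (k : ℕ) (h : ∀ j, 0 ≤ ψ ((p ^ j : ℕ) : ZMod m) * χ.zetaMul (p ^ j)) :
    0 ≤ sga_a χ ψ (p ^ k) := by
  unfold sga_a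
  rw [ArithmeticFunction.mul_apply]
  apply Finset.sum_nonneg
  intro x hx
  have hx' := hx
  rw [Nat.mem_divisorsAntidiagonal] at hx'
  have hx2 : x.2 ∣ p ^ k := ⟨x.1, by rw [← hx'.1]; ring⟩
  obtain ⟨j, _, hj⟩ := (Nat.dvd_prime_pow hp).1 hx2
  rw [hj, sga_twist χ ψ (pow_ne_zero j hp.ne_zero)]
  exact mul_nonneg (DirichletCharacter.zetaMul_nonneg hχ x.1) (h j)

open scoped ComplexOrder in
lemma sga_pow {m : ℕ} (χ ψ : DirichletCharacter ℂ m) (hχ : χ ^ 2 = 1) {p : ℕ}
    (h : 0 ≤ ψ (p : ZMod m)) (j : ℕ) : 0 ≤ ψ ((p ^ j : ℕ) : ZMod m) * χ.zetaMul (p ^ j) := by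
  apply mul_nonneg _ (DirichletCharacter.zetaMul_nonneg hχ _)
  push_cast
  rw [map_pow]
  exact pow_nonneg h j

open scoped ComplexOrder in
lemma sga_prime_pow {m : ℕ} (χ ψ : DirichletCharacter ℂ m) (hχ : χ ^ 2 = 1)
    (hψ : ψ ^ 2 = 1) {p : ℕ} (hp : p.Prime) (k : ℕ) : 0 ≤ sga_a χ ψ (p ^ k) := by
  have h01 : (0 : ℂ) ≤ 1 := zero_le_one
  rcases MulChar.isQuadratic_iff_sq_eq_one.mpr hψ p with h | h | h
  · exact sga_case χ ψ hχ hp k (sga_pow χ ψ hχ (by rw [h]))
  · exact sga_case χ ψ hχ hp k (sga_pow χ ψ hχ (by rw [h]; exact h01))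
  · rcases MulChar.isQuadratic_iff_sq_eq_one.mpr hχ p with h' | h' | h'
    · rw [sga_symm]
      exact sga_case ψ χ hψ hp k (sga_pow ψ χ hψ (by rw [h']))
    · rw [sga_symm]
      exact sga_case ψ χ hψ hp k (sga_pow ψ χ hψ (by rw [h']; exact h01))
    · refine sga_case χ ψ hχ hp k (fun j => ?_)
      rw [sga_zetaMul_odd χ hp h']
      push_cast
      rw [map_pow, h]
      by_cases hj : Even (j + 1)
      · rw [if_pos hj, mul_zero]
      · rw [if_neg hj, mul_one, Even.neg_one_pow]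
        · exact h01
        · rw [Nat.even_add_one, not_not] at hj
          exact hj

lemma sga_mult {m : ℕ} (χ ψ : DirichletCharacter ℂ m) :
    (sga_a χ ψ).IsMultiplicative :=
  (ArithmeticFunction.isMultiplicative_zeta.natCast.mul
    (DirichletCharacter.isMultiplicative_toArithmeticFunction χ)).mul
    ((DirichletCharacter.isMultiplicative_toArithmeticFunction ψ).mul
      (DirichletCharacter.isMultiplicative_toArithmeticFunction (χ * ψ)))

lemma sga_summable {m : ℕ} (χ : DirichletCharacter ℂ m) {s : ℂ} (hs : 1 < s.re) :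
    LSeriesSummable (fun n => sga_X χ n) s := by
  refine LSeriesSummable_of_bounded_of_one_lt_re (m := 1) (fun n hn ↦ ?_) hs
  rw [sga_X_apply χ hn]
  exact DirichletCharacter.norm_le_one χ _

lemma sga_LSeries {m : ℕ} [NeZero m] (χ : DirichletCharacter ℂ m) {s : ℂ} (hs : 1 < s.re) :
    LSeries (fun n => sga_X χ n) s = DirichletCharacter.LFunction χ s := by
  rw [DirichletCharacter.LFunction_eq_LSeries χ hs]
  exact LSeries_congr (fun {n} hn => sga_X_apply χ hn) s

open scoped ComplexOrder in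
theorem FF_coeff {m : ℕ} [NeZero m] (χ ψ : DirichletCharacter ℂ m) (hχ : χ ^ 2 = 1) (hψ : ψ ^ 2 = 1) :
    ∃ a : ArithmeticFunction ℂ, (∀ n, 0 ≤ a n) ∧ a 1 = 1 ∧
      LSeries.abscissaOfAbsConv (fun n => a n) ≤ 1 ∧
      ∀ s : ℂ, 1 < s.re → LSeries (fun n => a n) s = FF χ ψ s := by
  have hsum : ∀ s : ℂ, 1 < s.re → LSeriesSummable (fun n => sga_a χ ψ n) s := by
    intro s hs
    exact ArithmeticFunction.LSeriesSummable_mul
      (ArithmeticFunction.LSeriesSummable_mul (ArithmeticFunction.LSeriesSummable_zeta_iff.mpr hs)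
        (sga_summable χ hs))
      (ArithmeticFunction.LSeriesSummable_mul (sga_summable ψ hs) (sga_summable (χ * ψ) hs))
  refine ⟨sga_a χ ψ, ?_, (sga_mult χ ψ).map_one, ?_, ?_⟩
  · intro n
    rcases eq_or_ne n 0 with rfl | hn
    · simp only [ArithmeticFunction.map_zero, le_refl]
    · rw [(sga_mult χ ψ).multiplicative_factorization _ hn]
      exact Finset.prod_nonneg
        fun p hp ↦ sga_prime_pow χ ψ hχ hψ (Nat.prime_of_mem_primeFactors hp) _
  · have := LSeries.abscissaOfAbsConv_le_of_forall_lt_LSeriesSummable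
      (f := fun n => sga_a χ ψ n) (x := 1) (fun y hy => hsum y (by simpa using hy))
    exact_mod_cast this
  · intro s hs
    unfold FF
    have e1 : LSeries (fun n => sga_a χ ψ n) s =
        LSeries (fun n => ((ArithmeticFunction.zeta : ArithmeticFunction ℂ) * sga_X χ) n) s *
        LSeries (fun n => (sga_X ψ * sga_X (χ * ψ)) n) s :=
      ArithmeticFunction.LSeries_mul'
        (ArithmeticFunction.LSeriesSummable_mul
          (ArithmeticFunction.LSeriesSummable_zeta_iff.mpr hs) (sga_summable χ hs))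
        (ArithmeticFunction.LSeriesSummable_mul (sga_summable ψ hs) (sga_summable (χ * ψ) hs))
    have e2 : LSeries (fun n => ((ArithmeticFunction.zeta : ArithmeticFunction ℂ) * sga_X χ) n) s =
        LSeries (fun n => (ArithmeticFunction.zeta : ArithmeticFunction ℂ) n) s *
        LSeries (fun n => sga_X χ n) s :=
      ArithmeticFunction.LSeries_mul'
        (ArithmeticFunction.LSeriesSummable_zeta_iff.mpr hs) (sga_summable χ hs)
    have e3 : LSeries (fun n => (sga_X ψ * sga_X (χ * ψ)) n) s =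
        LSeries (fun n => sga_X ψ n) s * LSeries (fun n => sga_X (χ * ψ) n) s :=
      ArithmeticFunction.LSeries_mul' (sga_summable ψ hs) (sga_summable (χ * ψ) hs)
    have e4 : LSeries (fun n => (ArithmeticFunction.zeta : ArithmeticFunction ℂ) n) s =
        riemannZeta s := by
      rw [← ArithmeticFunction.LSeries_zeta_eq_riemannZeta hs]
      rfl
    rw [e1, e2, e3, e4, sga_LSeries χ hs, sga_LSeries ψ hs, sga_LSeries (χ * ψ) hs]
    ring

end Pool.Agent.H1.PP
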