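import Pool.Agent.H1.PP.SgA
import Pool.Agent.H90.LBounds

/-!
# PP-13 SgB: the product without its pole

`lam χ ψ = L(1,χ) L(1,ψ) L(1,χψ)`, the residue of `FF χ ψ` at `1`.

PROOF.  `H s = L(s,χ) L(s,ψ) L(s,χψ)` is entire (`DirichletCharacter.differentiable_LFunction` for nontrivial
characters).  `(s-1) ζ(s)` extends to an entire function `Z` with `Z 1 = 1`
(`DirichletCharacter.LFunctionTrivChar₁ 1`, or `Function.update` with `riemannZeta_residue_one`;
for modulus `1` the L-function of the trivial character is `riemannZeta`).  So `s ↦ Z s * H s - lam` vanishes at `1` and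
`G = dslope (fun s => Z s * H s) 1` is differentiable on `ℂ` (`Differentiable.dslope`-type lemmas; `dslope` of an entire
function is entire), and `G s = (Z s H s - lam)/(s-1) = FF χ ψ s - lam/(s-1)` for `s ≠ 1`.
Bound: for `‖s - 2‖ = 3/2`: `Re s ≥ 1/2`, `‖s‖ ≤ 7/2`, `‖s - 1‖ ≥ 1/2`; `‖Z s‖ ≤ 11 (‖s‖+1)² ≤ 223`
(`norm_LFunctionTrivChar₁_le` with `q = 1`), the three L-functions are at most `16 m * 7/2 = 56 m` each
(`norm_LFunction_le`), and `‖lam‖ ≤ (16 m)³`.  So `‖G s‖ ≤ 2 (223 * 56³ m³ + 16³ m³) ≤ 10^8 m³`.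
-/

set_option autoImplicit false

open Finset

namespace Pool.Agent.H1.PP

open Pool.Agent.H10.RP (ee nd Lam)

/-- the residue at `1` of `FF χ ψ` -/
noncomputable def lam {m : ℕ} [NeZero m] (χ ψ : DirichletCharacter ℂ m) : ℂ :=
  DirichletCharacter.LFunction χ 1 * DirichletCharacter.LFunction ψ 1 *
    DirichletCharacter.LFunction (χ * ψ) 1

theorem FF_cont {m : ℕ} [NeZero m] (χ ψ : DirichletCharacter ℂ m) (hχ : χ ≠ 1) (hψ : ψ ≠ 1)
    (hχψ : χ * ψ ≠ 1) : ∃ G : ℂ → ℂ, Differentiable ℂ G ∧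
      (∀ s : ℂ, s ≠ 1 → G s = FF χ ψ s - lam χ ψ / (s - 1)) ∧
      ∀ s : ℂ, ‖s - 2‖ = 3 / 2 → ‖G s‖ ≤ 10 ^ 8 * (m : ℝ) ^ 3 := by
  set F : ℂ → ℂ := fun s => DirichletCharacter.LFunctionTrivChar₁ 1 s *
    (DirichletCharacter.LFunction χ s * DirichletCharacter.LFunction ψ s *
      DirichletCharacter.LFunction (χ * ψ) s) with hF
  have hFd : Differentiable ℂ F :=
    (DirichletCharacter.differentiable_LFunctionTrivChar₁ 1).mul
      (((DirichletCharacter.differentiable_LFunction hχ).mul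
        (DirichletCharacter.differentiable_LFunction hψ)).mul
          (DirichletCharacter.differentiable_LFunction hχψ))
  have hF1 : F 1 = lam χ ψ := by
    have h1 : DirichletCharacter.LFunctionTrivChar₁ 1 1 = 1 := by
      simp [DirichletCharacter.LFunctionTrivChar₁]
    simp only [hF]
    rw [h1, one_mul]
    rfl
  have hFs : ∀ s : ℂ, s ≠ 1 → F s = (s - 1) * FF χ ψ s := by
    intro s hs
    have h1 : DirichletCharacter.LFunctionTrivChar₁ 1 s = (s - 1) * riemannZeta s := by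
      unfold DirichletCharacter.LFunctionTrivChar₁
      rw [Function.update_of_ne hs]
      have h2 : DirichletCharacter.LFunctionTrivChar 1 = riemannZeta :=
        DirichletCharacter.LFunction_modOne_eq
      rw [h2]
    simp only [hF, FF]
    rw [h1]
    ring
  have hslope : ∀ s : ℂ, s ≠ 1 → dslope F 1 s = (F s - F 1) / (s - 1) := by
    intro s hs
    rw [dslope_of_ne _ hs, slope_def_field]
  refine ⟨dslope F 1, ?_, ?_, ?_⟩
  · rw [← differentiableOn_univ]
    exact (Complex.differentiableOn_dslope Filter.univ_mem).2 hFd.differentiableOn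
  · intro s hs
    have hs' : s - 1 ≠ 0 := sub_ne_zero.2 hs
    rw [hslope s hs, hF1, hFs s hs]
    field_simp
  · intro s hs
    have hm : (1 : ℝ) ≤ m := by exact_mod_cast Nat.pos_of_ne_zero (NeZero.ne m)
    have hre : 1 / 2 ≤ s.re := by
      have h1 := Complex.abs_re_le_norm (s - 2)
      rw [hs, abs_le, Complex.sub_re, Complex.re_ofNat] at h1
      linarith
    have hn : ‖s‖ ≤ 7 / 2 := by
      have h1 : ‖s‖ ≤ ‖s - 2‖ + ‖(2 : ℂ)‖ := by
        have := norm_add_le (s - 2) 2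
        simpa using this
      rw [hs, Complex.norm_ofNat] at h1
      linarith
    have hn1 : 1 / 2 ≤ ‖s - 1‖ := by
      have h1 : ‖s - 2‖ ≤ ‖s - 1‖ + ‖(1 : ℂ)‖ := by
        have := norm_sub_le (s - 1) 1
        have e : s - 1 - 1 = s - 2 := by ring
        rwa [e] at this
      rw [hs, norm_one] at h1
      linarith
    have hs1 : s ≠ 1 := by
      intro h
      rw [h, sub_self, norm_zero] at hn1
      linarith
    have hL : ∀ χ' : DirichletCharacter ℂ m, χ' ≠ 1 →
        ‖DirichletCharacter.LFunction χ' s‖ ≤ 56 * m := by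
      intro χ' h
      calc _ ≤ 16 * m * ‖s‖ := Pool.Agent.H90.norm_LFunction_le χ' h s hre
        _ ≤ 16 * m * (7 / 2) := by gcongr
        _ = 56 * m := by ring
    have hL1 : ∀ χ' : DirichletCharacter ℂ m, χ' ≠ 1 →
        ‖DirichletCharacter.LFunction χ' 1‖ ≤ 16 * m := by
      intro χ' h
      have h1 := Pool.Agent.H90.norm_LFunction_le χ' h 1 (by simp; norm_num)
      rwa [norm_one, mul_one] at h1
    have hZ : ‖DirichletCharacter.LFunctionTrivChar₁ 1 s‖ ≤ 223 := by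
      have h1 := Pool.Agent.H90.norm_LFunctionTrivChar₁_le (q := 1) s hre
      calc _ ≤ 11 * ((1 : ℕ) : ℝ) * (‖s‖ + 1) ^ 2 := h1
        _ ≤ 11 * ((1 : ℕ) : ℝ) * (7 / 2 + 1) ^ 2 := by gcongr
        _ ≤ 223 := by norm_num
    have hFn : ‖F s‖ ≤ 223 * (56 * m * (56 * m) * (56 * m)) := by
      simp only [hF]
      rw [norm_mul, norm_mul, norm_mul]
      have h1 := hL χ hχ
      have h2 := hL ψ hψ
      have h3 := hL (χ * ψ) hχψ
      gcongr
    have hlam : ‖F 1‖ ≤ 16 * m * (16 * m) * (16 * m) := by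
      rw [hF1, lam, norm_mul, norm_mul]
      have h1 := hL1 χ hχ
      have h2 := hL1 ψ hψ
      have h3 := hL1 (χ * ψ) hχψ
      gcongr
    rw [hslope s hs1, norm_div, div_le_iff₀ (by linarith)]
    have hm3 : 0 ≤ (m : ℝ) ^ 3 := by positivity
    calc ‖F s - F 1‖ ≤ ‖F s‖ + ‖F 1‖ := norm_sub_le _ _
      _ ≤ 223 * (56 * m * (56 * m) * (56 * m)) + 16 * m * (16 * m) * (16 * m) := by gcongr
      _ = (223 * 56 ^ 3 + 16 ^ 3) * (m : ℝ) ^ 3 := by ring
      _ ≤ 10 ^ 8 * (m : ℝ) ^ 3 * (1 / 2) := by nlinarith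
      _ ≤ 10 ^ 8 * (m : ℝ) ^ 3 * ‖s - 1‖ := by gcongr

end Pool.Agent.H1.PP
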