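import Pool.Agent.H1.PP.SgB

/-!
# PP-14 SgC: lower bound for the product to the left of `1` (Estermann)

PROOF.  Let `a` be from `FF_coeff`, `G` from `FF_cont`, `λ = lam χ ψ`, `B = 10^8 m³`.  On the ball `‖s - 2‖ < 3/2` the
entire function `G` is the sum of its Taylor series `G s = ∑ g_n (2 - s)^n`,
`g_n = (-1)^n iteratedDeriv n G 2 / n!`, with `|g_n| ≤ B (2/3)^n` (Cauchy on the circle of radius `3/2`).  Near `2`,
`G s = FF s - λ/(s-1)` and `1/(s-1) = 1/(1 - (2-s)) = ∑ (2-s)^n`, so `g_n = b_n - λ` with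
`b_n = (-1)^n iteratedDeriv n FF 2 / n!`, and `b_n` is real and `≥ 0` by
`ArithmeticFunction.iteratedDeriv_LSeries_alternating` (`FF` and the LSeries agree near `2`), `b_0 = FF 2 ≥ 1`
(`a 1 = 1`, `a n ≥ 0`).
For `7/8 ≤ β < 1` let `y = 2 - β ∈ (1, 9/8]`, `M` a natural number.  `FF β = G β - λ/(1-β)` and
`G β = ∑_{n<M} (b_n - λ) y^n + ∑_{n ≥ M} g_n y^n`, the tail is at most `B ∑_{n ≥ M} (3/4)^n = 4 B (3/4)^M` (`(2/3)(9/8) = 3/4`).
Real parts: `Re FF β ≥ 1 - |λ| (y^M - 1)/(y - 1) - 4 B (3/4)^M - |λ|/(1-β) = 1 - 4B(3/4)^M - |λ| y^M/(1-β)`.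
Take `M = ⌈log (8 B) / log (4/3)⌉`: `4 B (3/4)^M ≤ 1/2`, and `y^M ≤ exp ((1-β) M) ≤ exp ((1-β) (1 + log (8B)/log (4/3)))`
with `log (8 B) = log (8*10^8) + 3 log m` and `3/log (4/3) ≤ 10.5 ≤ 16`, `1 - β ≤ 1/8`:
`y^M ≤ C0 m^(16 (1-β))` with an absolute constant `C0`.
-/

set_option autoImplicit false

open Finset

namespace Pool.Agent.H1.PP

open Pool.Agent.H10.RP (ee nd Lam)

open scoped ComplexOrder in
/-- the argument of Estermann for an abstract function -/
lemma sgC_abs (F G : ℂ → ℂ) (l : ℂ) (B : ℝ) (hG : Differentiable ℂ G)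
    (hGF : ∀ s : ℂ, s ≠ 1 → G s = F s - l / (s - 1)) (hB : ∀ s : ℂ, ‖s - 2‖ = 3 / 2 → ‖G s‖ ≤ B)
    (hb : ∀ n : ℕ, 0 ≤ (-1) ^ n * iteratedDeriv n F 2) (hF1 : 1 ≤ (F 2).re) (β : ℝ)
    (h1 : 7 / 8 ≤ β) (h2 : β < 1) (M : ℕ) (hM : 1 ≤ M) :
    1 - 4 * B * (3 / 4) ^ M - ‖l‖ * (2 - β) ^ M / (1 - β) ≤ (F β).re := by
  set y : ℝ := 2 - β with hy
  have hy1 : 1 < y := by linarith
  have hy2 : y ≤ 9 / 8 := by linarith
  have hB0 : 0 ≤ B := by
    refine (norm_nonneg _).trans (hB (2 + 3 / 2) ?_)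
    have : (2 + 3 / 2 - 2 : ℂ) = ((3 / 2 : ℝ) : ℂ) := by push_cast; ring
    rw [this, Complex.norm_real]
    norm_num
  -- derivatives of `F`, `G`
  have hder : ∀ n : ℕ, iteratedDeriv n F 2 = iteratedDeriv n G 2 + l * ((-1) ^ n * (n.factorial : ℂ)) := by
    intro n
    have he : F =ᶠ[nhds 2] (G + fun s => l * (1 * s - 1)⁻¹) := by
      have h3 : ∀ᶠ s : ℂ in nhds 2, s ≠ 1 := by
        apply IsOpen.mem_nhds isOpen_ne
        norm_num
      filter_upwards [h3] with s hs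
      rw [Pi.add_apply, hGF s hs, one_mul]
      ring
    have hc1 : ContDiffAt ℂ n G 2 := hG.contDiff.contDiffAt
    have hne : (1 * (2 : ℂ) - 1) ≠ 0 := by norm_num
    have hc2 : ContDiffAt ℂ n (fun s : ℂ => l * (1 * s - 1)⁻¹) 2 := by
      apply ContDiffAt.mul contDiffAt_const
      exact ContDiffAt.inv (f := fun x : ℂ => 1 * x - 1) (by fun_prop) hne
    rw [he.iteratedDeriv_eq, iteratedDeriv_add hc1 hc2, iteratedDeriv_const_mul_field,
      iteratedDeriv_eq_iterate (f := fun s : ℂ => (1 * s - 1)⁻¹), iter_deriv_inv_linear_sub]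
    norm_num
  -- Taylor series
  have hball : (β : ℂ) ∈ Metric.ball (2 : ℂ) (3 / 2) := by
    rw [mem_ball_iff_norm]
    have : (β : ℂ) - 2 = ((β - 2 : ℝ) : ℂ) := by push_cast; ring
    rw [this, Complex.norm_real, Real.norm_eq_abs, abs_of_neg (by linarith)]
    linarith
  have hT := Complex.hasSum_taylorSeries_on_ball (hG.differentiableOn (s := Metric.ball (2 : ℂ) (3 / 2))) hball
  set g : ℕ → ℂ := fun n : ℕ => ((n.factorial : ℂ))⁻¹ • ((β : ℂ) - 2) ^ n • iteratedDeriv n G 2 with hg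
  have hgn : ∀ n, ‖g n‖ ≤ B * (3 / 4) ^ n := by
    intro n
    have h3 := Complex.norm_iteratedDeriv_le_of_forall_mem_sphere_norm_le (c := (2 : ℂ)) (R := 3 / 2)
      (C := B) n (by norm_num) hG.diffContOnCl (fun z hz => hB z (mem_sphere_iff_norm.1 hz))
    have h4 : ‖(β : ℂ) - 2‖ = y := by
      have : (β : ℂ) - 2 = ((β - 2 : ℝ) : ℂ) := by push_cast; ring
      rw [this, Complex.norm_real, Real.norm_eq_abs, abs_of_neg (by linarith)]
      linarith
    rw [hg]
    simp only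
    rw [norm_smul, norm_smul, norm_inv, norm_pow, h4, Complex.norm_natCast]
    have hf : (0 : ℝ) < n.factorial := by exact_mod_cast n.factorial_pos
    calc ((n.factorial : ℝ))⁻¹ * (y ^ n * ‖iteratedDeriv n G 2‖) ≤
        ((n.factorial : ℝ))⁻¹ * ((9 / 8) ^ n * (n.factorial * B / (3 / 2) ^ n)) := by
          gcongr
      _ = B * ((9 / 8) ^ n / (3 / 2) ^ n) := by field_simp
      _ = B * (3 / 4) ^ n := by
          rw [← div_pow]; norm_num
  have hgre : ∀ n, (g n).re = y ^ n * (((-1) ^ n * iteratedDeriv n F 2).re / n.factorial - l.re) := by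
    intro n
    have hf : ((n.factorial : ℝ) : ℂ) ≠ 0 := by exact_mod_cast n.factorial_ne_zero
    have h5 : g n = ((y ^ n : ℝ) : ℂ) * (((-1) ^ n * iteratedDeriv n F 2) / ((n.factorial : ℝ) : ℂ) - l) := by
      rw [hg]
      simp only [smul_eq_mul]
      rw [hder n]
      have h6 : (β : ℂ) - 2 = -1 * ((y : ℝ) : ℂ) := by rw [hy]; push_cast; ring
      have h7 : ((-1 : ℂ) ^ n) * (-1) ^ n = 1 := by rw [← mul_pow]; norm_num
      rw [h6, mul_pow]
      push_cast
      have hf' : (n.factorial : ℂ) ≠ 0 := by exact_mod_cast n.factorial_ne_zero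
      field_simp
      linear_combination (-(l * (n.factorial : ℂ))) * h7
    rw [h5, Complex.re_ofReal_mul, Complex.sub_re, Complex.div_ofReal_re]
  -- lower bound of the first terms
  have hsumre := Complex.hasSum_re hT
  have hre0 : ∀ n, 0 ≤ ((-1) ^ n * iteratedDeriv n F 2).re := fun n => (Complex.nonneg_iff.1 (hb n)).1
  have hpos : ∀ n, -(‖l‖ * y ^ n) + (if n = 0 then 1 else 0) ≤ (g n).re := by
    intro n
    rw [hgre n]
    have hl : l.re ≤ ‖l‖ := Complex.re_le_norm l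
    have hyn : 0 < y ^ n := by positivity
    split_ifs with h0
    · subst h0
      simp only [pow_zero, one_mul, iteratedDeriv_zero, Nat.factorial_zero, Nat.cast_one, div_one, mul_one]
      linarith
    · have h8 : 0 ≤ ((-1) ^ n * iteratedDeriv n F 2).re / n.factorial := div_nonneg (hre0 n) (by positivity)
      have h9 := mul_nonneg hyn.le h8
      have h10 := mul_le_mul_of_nonneg_left hl hyn.le
      rw [mul_sub]
      linarith
  have hfin : 1 - ‖l‖ * ((y ^ M - 1) / (y - 1)) ≤ ∑ n ∈ range M, (g n).re := by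
    have h11 : ∑ n ∈ range M, (-(‖l‖ * y ^ n) + (if n = 0 then 1 else 0)) =
        1 - ‖l‖ * ((y ^ M - 1) / (y - 1)) := by
      rw [Finset.sum_add_distrib, Finset.sum_neg_distrib, ← Finset.mul_sum, geom_sum_eq (by linarith)]
      have : ∑ n ∈ range M, (if n = 0 then (1 : ℝ) else 0) = 1 := by
        rw [Finset.sum_ite_eq']
        simp
        omega
      rw [this]; ring
    rw [← h11]
    exact Finset.sum_le_sum (fun n _ => hpos n)
  -- the tail
  have hgeo : HasSum (fun n : ℕ => B * (3 / 4 : ℝ) ^ (n + M)) (4 * B * (3 / 4) ^ M) := by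
    have h12 := (hasSum_geometric_of_lt_one (r := (3 / 4 : ℝ)) (by norm_num) (by norm_num)).mul_left
      (B * (3 / 4) ^ M)
    have e1 : (1 - 3 / 4 : ℝ)⁻¹ = 4 := by norm_num
    rw [e1] at h12
    have e2 : B * (3 / 4) ^ M * 4 = 4 * B * (3 / 4) ^ M := by ring
    rw [e2] at h12
    refine h12.congr_fun ?_ |> fun h => h
    intro n
    rw [pow_add]; ring
  have htail : -(4 * B * (3 / 4) ^ M) ≤ ∑' n, (g (n + M)).re := by
    have hs : Summable (fun n => (g (n + M)).re) := (summable_nat_add_iff M).2 hsumre.summable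
    have h13 : ∀ n, -(B * (3 / 4 : ℝ) ^ (n + M)) ≤ (g (n + M)).re := by
      intro n
      have h14 := hgn (n + M)
      have h15 := Complex.abs_re_le_norm (g (n + M))
      have h16 := (abs_le.1 (h15.trans h14)).1
      exact h16
    exact hasSum_le h13 hgeo.neg hs.hasSum
  have hsplit : (G β).re = ∑ n ∈ range M, (g n).re + ∑' n, (g (n + M)).re := by
    rw [← hsumre.tsum_eq]
    exact (hsumre.summable.sum_add_tsum_nat_add M).symm
  have hb1 : (β : ℂ) ≠ 1 := by
    intro h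
    have : β = 1 := by exact_mod_cast h
    linarith
  have hFG : (F β).re = (G β).re - ‖l‖ / (1 - β) + (‖l‖ / (1 - β) + (l / ((β : ℂ) - 1)).re) := by
    rw [hGF β hb1, Complex.sub_re]; ring
  have hlast : 0 ≤ ‖l‖ / (1 - β) + (l / ((β : ℂ) - 1)).re := by
    have h17 := Complex.abs_re_le_norm (l / ((β : ℂ) - 1))
    have h18 : ‖l / ((β : ℂ) - 1)‖ = ‖l‖ / (1 - β) := by
      have : (β : ℂ) - 1 = ((β - 1 : ℝ) : ℂ) := by push_cast; ring
      rw [norm_div, this, Complex.norm_real, Real.norm_eq_abs, abs_of_neg (by linarith)]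
      congr 1; ring
    rw [h18] at h17
    have := (abs_le.1 h17).1
    linarith
  rw [hFG, hsplit]
  have hb0 : 0 < 1 - β := by linarith
  have e3 : y - 1 = 1 - β := by rw [hy]; ring
  rw [e3] at hfin
  have e4 : ‖l‖ * y ^ M / (1 - β) = ‖l‖ * ((y ^ M - 1) / (1 - β)) + ‖l‖ / (1 - β) := by
    field_simp; ring
  rw [e4]
  linarith

open scoped ComplexOrder in
lemma sgC_two {m : ℕ} [NeZero m] (χ ψ : DirichletCharacter ℂ m) (hχ : χ ^ 2 = 1) (hψ : ψ ^ 2 = 1) :
    (∀ n : ℕ, 0 ≤ (-1) ^ n * iteratedDeriv n (FF χ ψ) 2) ∧ 1 ≤ (FF χ ψ 2).re := by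
  obtain ⟨a, ha0, ha1, habs, hL⟩ := FF_coeff χ ψ hχ hψ
  have h2 : LSeries.abscissaOfAbsConv (fun n => a n) < ((2 : ℝ) : EReal) := by
    refine lt_of_le_of_lt habs ?_
    have : ((1 : ℝ) : EReal) < ((2 : ℝ) : EReal) := by
      rw [EReal.coe_lt_coe_iff]; norm_num
    simpa using this
  have he : LSeries (fun n => a n) =ᶠ[nhds 2] FF χ ψ := by
    have h3 : ∀ᶠ s : ℂ in nhds 2, 1 < s.re := by
      apply (isOpen_lt continuous_const Complex.continuous_re).mem_nhds
      norm_num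
    filter_upwards [h3] with s hs
    exact hL s hs
  constructor
  · intro n
    have h4 := ArithmeticFunction.iteratedDeriv_LSeries_alternating a ha0 (x := 2) h2 n
    rw [← he.iteratedDeriv_eq n]
    simpa using h4
  · have h5 : LSeriesSummable (fun n => a n) 2 := by
      apply LSeriesSummable_of_abscissaOfAbsConv_lt_re
      simpa using h2
    have h6 : HasSum (fun n => (LSeries.term (fun n => a n) 2 n).re) (FF χ ψ 2).re := by
      rw [← hL 2 (by norm_num)]
      exact Complex.hasSum_re h5.hasSum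
    have h7 : (LSeries.term (fun n => a n) 2 1).re = 1 := by
      rw [LSeries.term_of_ne_zero one_ne_zero]
      simp [ha1]
    rw [← h7]
    apply le_hasSum h6
    intro n _
    have h8 := LSeries.term_nonneg (a := fun n => a n) (n := n) (ha0 n) 2
    have h9 := (Complex.nonneg_iff.1 h8).1
    simpa using h9

theorem FF_lower : ∃ C0 : ℝ, 0 < C0 ∧ ∀ (m : ℕ) [NeZero m] (χ ψ : DirichletCharacter ℂ m), χ ≠ 1 →
    ψ ≠ 1 → χ * ψ ≠ 1 → χ ^ 2 = 1 → ψ ^ 2 = 1 → ∀ β : ℝ, 7 / 8 ≤ β → β < 1 →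
      1 / 2 - C0 * ‖lam χ ψ‖ * (m : ℝ) ^ (16 * (1 - β)) / (1 - β) ≤ (FF χ ψ β).re := by
  refine ⟨Real.exp ((1 + 4 * Real.log (8 * 10 ^ 8)) / 8), Real.exp_pos _, ?_⟩
  intro m _ χ ψ hχ hψ hχψ hχ2 hψ2 β h1 h2
  obtain ⟨G, hG, hGF, hB⟩ := FF_cont χ ψ hχ hψ hχψ
  obtain ⟨hb, hF1⟩ := sgC_two χ ψ hχ2 hψ2
  set B : ℝ := 10 ^ 8 * (m : ℝ) ^ 3 with hBd
  have hm1 : (1 : ℝ) ≤ m := by exact_mod_cast NeZero.one_le
  have hm3 : (1 : ℝ) ≤ (m : ℝ) ^ 3 := one_le_pow₀ hm1
  have hB1 : 10 ^ 8 ≤ B := by rw [hBd]; nlinarith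
  have hL0 : 0 < Real.log (8 * B) := Real.log_pos (by linarith)
  set M : ℕ := ⌈4 * Real.log (8 * B)⌉₊ with hM
  have hM1 : 1 ≤ M := Nat.one_le_ceil_iff.2 (by linarith)
  have hMle : (M : ℝ) ≤ 4 * Real.log (8 * B) + 1 := (Nat.ceil_lt_add_one (by linarith)).le
  have hMge : 4 * Real.log (8 * B) ≤ M := Nat.le_ceil _
  have hmain := sgC_abs (FF χ ψ) G (lam χ ψ) B hG hGF hB hb hF1 β h1 h2 M hM1
  have h3 : 4 * B * (3 / 4) ^ M ≤ 1 / 2 := by
    have h4 : (3 / 4 : ℝ) ≤ Real.exp (-(1 / 4)) := by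
      have := Real.add_one_le_exp (-(1 / 4 : ℝ))
      linarith
    have h5 : (3 / 4 : ℝ) ^ M ≤ 1 / (8 * B) := by
      calc (3 / 4 : ℝ) ^ M ≤ Real.exp (-(1 / 4)) ^ M := pow_le_pow_left₀ (by norm_num) h4 M
        _ = Real.exp (M * (-(1 / 4))) := (Real.exp_nat_mul _ _).symm
        _ ≤ Real.exp (-Real.log (8 * B)) := Real.exp_le_exp.2 (by linarith)
        _ = 1 / (8 * B) := by rw [Real.exp_neg, Real.exp_log (by linarith), one_div]
    calc 4 * B * (3 / 4) ^ M ≤ 4 * B * (1 / (8 * B)) := mul_le_mul_of_nonneg_left h5 (by linarith)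
      _ = 1 / 2 := by
          have : B ≠ 0 := by linarith
          field_simp
          norm_num
  have hb0 : 0 < 1 - β := by linarith
  have h6 : (2 - β) ^ M ≤ Real.exp ((1 + 4 * Real.log (8 * 10 ^ 8)) / 8) * (m : ℝ) ^ (16 * (1 - β)) := by
    have h7 : 2 - β ≤ Real.exp (1 - β) := by
      have := Real.add_one_le_exp (1 - β)
      linarith
    have hlm : 0 ≤ Real.log m := Real.log_nonneg hm1
    have h8 : Real.log (8 * B) = Real.log (8 * 10 ^ 8) + 3 * Real.log m := by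
      rw [hBd, ← mul_assoc, Real.log_mul (by norm_num) (by positivity), Real.log_pow]
      push_cast
      ring
    calc (2 - β) ^ M ≤ Real.exp (1 - β) ^ M := pow_le_pow_left₀ (by linarith) h7 M
      _ = Real.exp (M * (1 - β)) := (Real.exp_nat_mul _ _).symm
      _ ≤ Real.exp ((1 + 4 * Real.log (8 * 10 ^ 8)) / 8 + Real.log m * (16 * (1 - β))) := by
          apply Real.exp_le_exp.2
          have h9 : (M : ℝ) * (1 - β) ≤ (4 * Real.log (8 * B) + 1) * (1 - β) :=
            mul_le_mul_of_nonneg_right hMle hb0.le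
          have h10 : 0 < Real.log (8 * 10 ^ 8) := Real.log_pos (by norm_num)
          rw [h8] at h9
          clear_value M
          clear hmain h3 hMge hMle hM1 h8 hL0
          generalize Real.log (8 * 10 ^ 8) = L at h9 h10 ⊢
          generalize Real.log (m : ℝ) = u at h9 hlm ⊢
          have h11 : (1 + 4 * L) * (1 - β) ≤ (1 + 4 * L) * (1 / 8) :=
            mul_le_mul_of_nonneg_left (by linarith) (by linarith)
          have h12 : 0 ≤ u * (1 - β) := mul_nonneg hlm hb0.le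
          have h14 : (4 * (L + 3 * u) + 1) * (1 - β) =
              (1 + 4 * L) * (1 - β) + 12 * (u * (1 - β)) := by ring
          have h15 : u * (16 * (1 - β)) = 16 * (u * (1 - β)) := by ring
          have h16 : (1 + 4 * L) * (1 / 8) = (1 + 4 * L) / 8 := by ring
          rw [h14] at h9
          rw [h15]
          rw [h16] at h11
          linarith
      _ = Real.exp ((1 + 4 * Real.log (8 * 10 ^ 8)) / 8) * (m : ℝ) ^ (16 * (1 - β)) := by
          rw [Real.exp_add, Real.rpow_def_of_pos (by linarith)]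
  have h13 : ‖lam χ ψ‖ * (2 - β) ^ M / (1 - β) ≤
      Real.exp ((1 + 4 * Real.log (8 * 10 ^ 8)) / 8) * ‖lam χ ψ‖ * (m : ℝ) ^ (16 * (1 - β)) / (1 - β) := by
    apply div_le_div_of_nonneg_right _ hb0.le
    calc ‖lam χ ψ‖ * (2 - β) ^ M ≤ ‖lam χ ψ‖ *
          (Real.exp ((1 + 4 * Real.log (8 * 10 ^ 8)) / 8) * (m : ℝ) ^ (16 * (1 - β))) :=
          mul_le_mul_of_nonneg_left h6 (norm_nonneg _)
      _ = _ := by ring
  linarith

end Pool.Agent.H1.PP
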