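import Pool.Agent.H1.PP.SgC
import Pool.Agent.H90.ZeroFreeLower

/-!
# PP-15 SgD: Siegel's theorem

PROOF.  WLOG `ε ≤ 1`.  Put `ε' = ε/64 (< 1/8)`.  A real character here is a nontrivial `χ` with `χ² = 1`.

Step 1: choose `f1`, a real character `χ1` mod `f1` and `β ∈ [1 - ε', 1)` such that `Re FF (χ1', ψ') β ≤ 0` for all
`f2`, all real `ψ` mod `f2`, where `χ1', ψ'` are the lifts to the modulus `m = f1 f2`
(`DirichletCharacter.changeLevel`), provided `χ1' ψ' ≠ 1`.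
Case A: some real character `χ1` mod some `f1` has a real zero `β ∈ [1-ε', 1)` of its L-function: then the lift has the
same zero (Euler factors, `DirichletCharacter.LFunction_changeLevel`) and `FF = 0` at `β`.
Case B: no such zero for any real character.  Take any real `χ1` (for instance modulo `4` or `3`), `β = 1 - ε'`.  For a real
character `L(σ)` is real for real `σ`, positive for large `σ` and nonzero on `[β, ∞)` (nonzero for `σ ≥ 1` always),
so `L(β) > 0` for each of the three L-functions; `ζ(β) < 0` for `β ∈ (0, 1)` close to 1: e.g.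
from the simple pole with residue one `(s-1) ζ(s) → 1` and no zeros of `ζ` in `[β, 1)` — if `ζ` has a zero at a real point of
`[1-ε', 1)` use this point as `β`: `FF = 0` there (or use the alternating series: `ζ` has no zero in `(0,1)`).

Step 2: by `FF_lower`, `‖lam χ1' ψ'‖ ≥ (1-β) m^(-16 (1-β)) / (2 C0) ≥ c m^(-16 ε')` (`c` depends on `ε` only).
`lam = L(1,χ1') L(1,ψ') L(1,χ1'ψ')`; `‖L(1,χ1')‖, ‖L(1,χ1'ψ')‖ ≤ 300 log (2 m)` for `m ≥ 3` (`norm_LFunction_le_log`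
at `s = 1`, `Q = m`), and `‖L(1,ψ')‖ = ‖L(1,ψ)‖ ∏_{p ∣ m} |1 - ψ(p)/p| ≤ ‖L(1,ψ)‖ 2^(number of primes dividing f1)`
since `ψ(p) = 0` for `p ∣ f2`.  As `(log (2m))² ≤ C m^(16 ε')`, `m = f1 f2`: `‖L(1,ψ)‖ ≥ c' f2^(-32 ε') ≥ c' f2^(-ε)`.

Step 3: the primitive `ψ` with `χ1' ψ' = 1`: then `χ1' = ψ'` (as `ψ'² = 1`), so `ψ` is the primitive character inducing
`χ1`: its conductor divides `f1`, so there are finitely many such `ψ`, and `L(1,ψ) ≠ 0`
(`DirichletCharacter.LFunction_apply_one_ne_zero`); take the minimum of the constants over all primitive real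
characters of modulus `≤ f1`.
-/

set_option autoImplicit false

open Finset

namespace Pool.Agent.H1.PP

open Pool.Agent.H10.RP (ee nd Lam)

open scoped ComplexOrder in
/-- the function is real on the real axis, to the left of `1` -/
lemma sgD_im (F G : ℂ → ℂ) (l : ℂ) (hl : l.im = 0) (hG : Differentiable ℂ G)
    (hGF : ∀ s : ℂ, s ≠ 1 → G s = F s - l / (s - 1))
    (hb : ∀ n : ℕ, 0 ≤ (-1) ^ n * iteratedDeriv n F 2) (β : ℝ)
    (h1 : 7 / 8 ≤ β) (h2 : β < 1) : (F β).im = 0 := by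
  set y : ℝ := 2 - β with hy
  have hder : ∀ n : ℕ, iteratedDeriv n F 2 = iteratedDeriv n G 2 + l * ((-1) ^ n * (n.factorial : ℂ)) := by
    intro n
    have he : F =ᶠ[nhds 2] (G + fun s => l * (1 * s - 1)⁻¹) := by
      have h3 : ∀ᶠ s : ℂ in nhds 2, s ≠ 1 := by
        apply IsOpen.mem_nhds isOpen_ne
        norm_num
      filter_upwards [h3] with s hs
      rw [Pi.add_apply, hGF s hs, one_mul]
      ring
    have hc1 : ContDiffAt ℂ n G 2 := hG.contDiff.contDiffAt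
    have hne : (1 * (2 : ℂ) - 1) ≠ 0 := by norm_num
    have hc2 : ContDiffAt ℂ n (fun s : ℂ => l * (1 * s - 1)⁻¹) 2 := by
      apply ContDiffAt.mul contDiffAt_const
      exact ContDiffAt.inv (f := fun x : ℂ => 1 * x - 1) (by fun_prop) hne
    rw [he.iteratedDeriv_eq, iteratedDeriv_add hc1 hc2, iteratedDeriv_const_mul_field,
      iteratedDeriv_eq_iterate (f := fun s : ℂ => (1 * s - 1)⁻¹), iter_deriv_inv_linear_sub]
    norm_num
  have hball : (β : ℂ) ∈ Metric.ball (2 : ℂ) (3 / 2) := by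
    rw [mem_ball_iff_norm]
    have : (β : ℂ) - 2 = ((β - 2 : ℝ) : ℂ) := by push_cast; ring
    rw [this, Complex.norm_real, Real.norm_eq_abs, abs_of_neg (by linarith)]
    linarith
  have hT := Complex.hasSum_taylorSeries_on_ball (hG.differentiableOn (s := Metric.ball (2 : ℂ) (3 / 2))) hball
  set g : ℕ → ℂ := fun n : ℕ => ((n.factorial : ℂ))⁻¹ • ((β : ℂ) - 2) ^ n • iteratedDeriv n G 2 with hg
  have hgim : ∀ n, (g n).im = 0 := by
    intro n
    have h5 : g n = ((y ^ n : ℝ) : ℂ) * (((-1) ^ n * iteratedDeriv n F 2) / ((n.factorial : ℝ) : ℂ) - l) := by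
      rw [hg]
      simp only [smul_eq_mul]
      rw [hder n]
      have h6 : (β : ℂ) - 2 = -1 * ((y : ℝ) : ℂ) := by rw [hy]; push_cast; ring
      have h7 : ((-1 : ℂ) ^ n) * (-1) ^ n = 1 := by rw [← mul_pow]; norm_num
      rw [h6, mul_pow]
      push_cast
      have hf' : (n.factorial : ℂ) ≠ 0 := by exact_mod_cast n.factorial_ne_zero
      field_simp
      linear_combination (-((y : ℂ) ^ n * l * (n.factorial : ℂ))) * h7
    have h8 : ((-1) ^ n * iteratedDeriv n F 2).im = 0 := (Complex.nonneg_iff.1 (hb n)).2.symm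
    rw [h5, Complex.im_ofReal_mul, Complex.sub_im, Complex.div_ofReal_im, h8, hl]
    simp
  have hGim : (G β).im = 0 := by
    have h9 := Complex.hasSum_im hT
    simp only [hgim] at h9
    exact h9.unique hasSum_zero
  have hb1 : (β : ℂ) ≠ 1 := by
    intro h
    have : β = 1 := by exact_mod_cast h
    linarith
  have h10 := congrArg Complex.im (hGF β hb1)
  rw [hGim, Complex.sub_im] at h10
  have h11 : (l / ((β : ℂ) - 1)).im = 0 := by
    have : (β : ℂ) - 1 = ((β - 1 : ℝ) : ℂ) := by push_cast; ring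
    rw [this, Complex.div_ofReal_im, hl, zero_div]
  rw [h11] at h10
  linarith

open scoped ComplexOrder in
lemma sgD_lam {m : ℕ} [NeZero m] (χ ψ : DirichletCharacter ℂ m) (hχ : χ ≠ 1) (hψ : ψ ≠ 1)
    (hχψ : χ * ψ ≠ 1) (hχ2 : χ ^ 2 = 1) (hψ2 : ψ ^ 2 = 1) :
    (lam χ ψ).im = 0 ∧ 0 < (lam χ ψ).re := by
  obtain ⟨a, ha0, ha1, habs, hL⟩ := FF_coeff χ ψ hχ2 hψ2
  obtain ⟨G, hG, hGF, -⟩ := FF_cont χ ψ hχ hψ hχψ
  have h1 : ∀ n : ℕ, 0 ≤ (1 / ((n : ℝ) + 1) : ℂ) * FF χ ψ (1 + 1 / ((n : ℝ) + 1)) := by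
    intro n
    have hn : (0 : ℝ) < 1 / ((n : ℝ) + 1) := by positivity
    have h2 : LSeries.abscissaOfAbsConv (fun n => a n) < ((1 + 1 / ((n : ℝ) + 1) : ℝ) : EReal) := by
      refine lt_of_le_of_lt habs ?_
      have : ((1 : ℝ) : EReal) < ((1 + 1 / ((n : ℝ) + 1) : ℝ) : EReal) := by
        rw [EReal.coe_lt_coe_iff]; linarith
      simpa using this
    have h3 := LSeries.positive (a := fun n => a n) (fun n => ha0 n) (by rw [ha1]; exact one_pos) h2
    have h4 : 1 < (((1 + 1 / ((n : ℝ) + 1) : ℝ)) : ℂ).re := by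
      rw [Complex.ofReal_re]; linarith
    rw [hL _ h4] at h3
    have h5 : (((1 + 1 / ((n : ℝ) + 1) : ℝ)) : ℂ) = 1 + 1 / ((n : ℝ) + 1) := by push_cast; ring
    rw [h5] at h3
    apply mul_nonneg _ h3.le
    have h6 : (1 / ((n : ℝ) + 1) : ℂ) = ((1 / ((n : ℝ) + 1) : ℝ) : ℂ) := by push_cast; ring
    rw [h6]
    exact_mod_cast hn.le
  have h2 : Filter.Tendsto (fun n : ℕ => (1 / ((n : ℝ) + 1) : ℂ) * FF χ ψ (1 + 1 / ((n : ℝ) + 1)))
      Filter.atTop (nhds (lam χ ψ)) := by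
    have h3 : ∀ n : ℕ, (1 / ((n : ℝ) + 1) : ℂ) * FF χ ψ (1 + 1 / ((n : ℝ) + 1)) =
        (1 / ((n : ℝ) + 1) : ℂ) * G (1 + 1 / ((n : ℝ) + 1)) + lam χ ψ := by
      intro n
      have hn : ((n : ℝ) + 1 : ℂ) ≠ 0 := by
        have : ((n : ℝ) + 1 : ℂ) = (((n : ℝ) + 1 : ℝ) : ℂ) := by push_cast; ring
        rw [this]
        exact_mod_cast (by positivity : ((n : ℝ) + 1) ≠ 0)
      have hne : (1 + 1 / ((n : ℝ) + 1) : ℂ) ≠ 1 := by
        intro h
        have h7 : (1 / ((n : ℝ) + 1) : ℂ) = 0 := by linear_combination h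
        exact one_div_ne_zero hn h7
      rw [hGF _ hne]
      field_simp
      ring
    simp_rw [h3]
    have h4 : Filter.Tendsto (fun n : ℕ => (1 / ((n : ℝ) + 1) : ℂ)) Filter.atTop (nhds 0) := by
      have h5 := tendsto_one_div_add_atTop_nhds_zero_nat (𝕜 := ℂ)
      simpa using h5
    have h5 : Filter.Tendsto (fun n : ℕ => G (1 + 1 / ((n : ℝ) + 1))) Filter.atTop (nhds (G 1)) := by
      have h6 := hG.continuous.tendsto (1 + 0)
      rw [add_zero] at h6
      refine h6.comp ?_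
      have h7 := h4.const_add 1
      rw [add_zero] at h7
      exact h7
    have h6 := (h4.mul h5).add_const (lam χ ψ)
    rw [zero_mul, zero_add] at h6
    exact h6
  have h3 : 0 ≤ lam χ ψ := ge_of_tendsto' h2 h1
  have h4 : lam χ ψ ≠ 0 := by
    unfold lam
    exact mul_ne_zero (mul_ne_zero (DirichletCharacter.LFunction_apply_one_ne_zero hχ)
      (DirichletCharacter.LFunction_apply_one_ne_zero hψ))
      (DirichletCharacter.LFunction_apply_one_ne_zero hχψ)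
  have h5 := Complex.nonneg_iff.1 h3
  refine ⟨h5.2.symm, lt_of_le_of_ne h5.1 ?_⟩
  intro h6
  exact h4 (Complex.ext h6.symm h5.2.symm)

/-- the sign of the product if there are no zeros -/
lemma sgD_sign {m : ℕ} [NeZero m] (χ ψ : DirichletCharacter ℂ m) (hχ : χ ≠ 1) (hψ : ψ ≠ 1)
    (hχψ : χ * ψ ≠ 1) (hχ2 : χ ^ 2 = 1) (hψ2 : ψ ^ 2 = 1) (β : ℝ) (h1 : 7 / 8 ≤ β) (h2 : β < 1)
    (hne : ∀ σ : ℝ, β ≤ σ → σ < 1 → FF χ ψ σ ≠ 0) : (FF χ ψ β).re ≤ 0 := by
  obtain ⟨hl0, hl1⟩ := sgD_lam χ ψ hχ hψ hχψ hχ2 hψ2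
  obtain ⟨hb, -⟩ := sgC_two χ ψ hχ2 hψ2
  obtain ⟨G, hG, hGF, -⟩ := FF_cont χ ψ hχ hψ hχψ
  by_contra hcon
  push Not at hcon
  have hre : ∀ σ : ℝ, σ < 1 → (1 - σ) * (G σ).re - (lam χ ψ).re = (1 - σ) * (FF χ ψ σ).re - 2 * (lam χ ψ).re + 2 * (lam χ ψ).re := by
    intro σ hσ
    have hb1 : (σ : ℂ) ≠ 1 := by
      intro h
      have : σ = 1 := by exact_mod_cast h
      linarith
    have h10 := congrArg Complex.re (hGF σ hb1)
    rw [Complex.sub_re] at h10
    have h11 : (lam χ ψ / ((σ : ℂ) - 1)).re = -((lam χ ψ).re / (1 - σ)) := by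
      have : (σ : ℂ) - 1 = ((-(1 - σ) : ℝ) : ℂ) := by push_cast; ring
      rw [this, Complex.div_ofReal_re]
      rw [div_neg]
    rw [h11] at h10
    rw [h10]
    have : 1 - σ ≠ 0 := by linarith
    field_simp
    ring
  set h : ℝ → ℝ := fun σ => (1 - σ) * (G σ).re - (lam χ ψ).re with hh
  have hcont : Continuous h := by
    have := hG.continuous
    fun_prop
  have h3 : h 1 < 0 := by
    simp only [hh]
    linarith
  have h4 : 0 < h β := by
    simp only [hh]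
    rw [hre β h2]
    have : 0 < (1 - β) * (FF χ ψ β).re := mul_pos (by linarith) hcon
    linarith
  obtain ⟨σ, ⟨hσ1, hσ2⟩, hσ⟩ := intermediate_value_Icc' h2.le hcont.continuousOn ⟨h3.le, h4.le⟩
  have hσ3 : σ < 1 := by
    refine lt_of_le_of_ne hσ2 ?_
    rintro rfl
    linarith
  have h5 : (FF χ ψ σ).re = 0 := by
    simp only [hh] at hσ
    rw [hre σ hσ3] at hσ
    have h6 : (1 - σ) * (FF χ ψ σ).re = 0 := by linarith
    rcases mul_eq_zero.1 h6 with h7 | h7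
    · linarith
    · exact h7
  have h6 : (FF χ ψ σ).im = 0 := sgD_im (FF χ ψ) G (lam χ ψ) hl0 hG hGF hb σ (by linarith) hσ3
  exact hne σ hσ1 hσ3 (Complex.ext h5 h6)

/-- choice of the auxiliary character -/
lemma sgD_step (δ : ℝ) (hδ : 0 < δ) (hδ8 : δ ≤ 1 / 8) (f1 : ℕ) (hf1 : NeZero f1)
    (χ1 : DirichletCharacter ℂ f1) (h1 : χ1 ≠ 1) (h12 : χ1 ^ 2 = 1) :
    ∃ (f : ℕ) (_ : NeZero f) (χ : DirichletCharacter ℂ f) (β : ℝ), χ ≠ 1 ∧ χ ^ 2 = 1 ∧ 1 - δ ≤ β ∧
      β < 1 ∧ ∀ (m : ℕ) [NeZero m] (h : f ∣ m) (ψ : DirichletCharacter ℂ m), ψ ≠ 1 → ψ ^ 2 = 1 →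
        DirichletCharacter.changeLevel h χ * ψ ≠ 1 →
        (FF (DirichletCharacter.changeLevel h χ) ψ β).re ≤ 0 := by
  by_cases hA : ∃ (f : ℕ) (_ : NeZero f) (χ : DirichletCharacter ℂ f) (β : ℝ), χ ≠ 1 ∧ χ ^ 2 = 1 ∧
      1 - δ ≤ β ∧ β < 1 ∧ DirichletCharacter.LFunction χ β = 0
  · obtain ⟨f, hf, χ, β, hχ, hχ2, hβ1, hβ2, hz⟩ := hA
    refine ⟨f, hf, χ, β, hχ, hχ2, hβ1, hβ2, ?_⟩
    intro m _ h ψ _ _ _
    unfold FF
    rw [DirichletCharacter.LFunction_changeLevel h χ (Or.inl hχ), hz]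
    simp
  by_cases hB : ∃ β : ℝ, 1 - δ ≤ β ∧ β < 1 ∧ riemannZeta β = 0
  · obtain ⟨β, hβ1, hβ2, hz⟩ := hB
    refine ⟨f1, hf1, χ1, β, h1, h12, hβ1, hβ2, ?_⟩
    intro m _ h ψ _ _ _
    unfold FF
    rw [hz]
    simp
  push Not at hA hB
  refine ⟨f1, hf1, χ1, 1 - δ, h1, h12, le_rfl, by linarith, ?_⟩
  intro m hm h ψ hψ hψ2 hne
  have hc : DirichletCharacter.changeLevel h χ1 ≠ 1 := fun h' =>
    h1 ((DirichletCharacter.changeLevel_eq_one_iff h).1 h')
  have hc2 : (DirichletCharacter.changeLevel h χ1) ^ 2 = 1 := by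
    rw [← map_pow, h12, map_one]
  have hp2 : (DirichletCharacter.changeLevel h χ1 * ψ) ^ 2 = 1 := by
    rw [mul_pow, hc2, hψ2, one_mul]
  apply sgD_sign _ _ hc hψ hne hc2 hψ2 (1 - δ) (by linarith) (by linarith)
  intro σ hσ1 hσ2
  unfold FF
  exact mul_ne_zero (mul_ne_zero (mul_ne_zero (hB σ hσ1 hσ2)
    (hA m hm _ σ hc hc2 hσ1 hσ2)) (hA m hm _ σ hψ hψ2 hσ1 hσ2)) (hA m hm _ σ hne hp2 hσ1 hσ2)

/-- finitely many characters -/
lemma sgD_fin (N : ℕ) : ∃ c : ℝ, 0 < c ∧ ∀ (f : ℕ) [NeZero f] (χ : DirichletCharacter ℂ f), f ≤ N →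
    χ ≠ 1 → c ≤ ‖DirichletCharacter.LFunction χ 1‖ := by
  induction N with
  | zero =>
    refine ⟨1, one_pos, ?_⟩
    intro f hf χ hfN _
    exact absurd (Nat.le_zero.1 hfN) (NeZero.ne f)
  | succ N ih =>
    obtain ⟨c, hc, h⟩ := ih
    have h2 : ∃ c' : ℝ, 0 < c' ∧ ∀ χ : DirichletCharacter ℂ (N + 1), χ ≠ 1 →
        c' ≤ ‖DirichletCharacter.LFunction χ 1‖ := by
      classical
      have hfin : Fintype (DirichletCharacter ℂ (N + 1)) := Fintype.ofFinite _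
      by_cases hne : (Finset.univ.filter (fun χ : DirichletCharacter ℂ (N + 1) => χ ≠ 1)).Nonempty
      · obtain ⟨χ0, h0, hmin⟩ := Finset.exists_min_image _
          (fun χ : DirichletCharacter ℂ (N + 1) => ‖DirichletCharacter.LFunction χ 1‖) hne
        refine ⟨‖DirichletCharacter.LFunction χ0 1‖, norm_pos_iff.2
          (DirichletCharacter.LFunction_apply_one_ne_zero (Finset.mem_filter.1 h0).2), ?_⟩
        intro χ hχ
        exact hmin χ (Finset.mem_filter.2 ⟨Finset.mem_univ _, hχ⟩)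
      · refine ⟨1, one_pos, ?_⟩
        intro χ hχ
        exact absurd ⟨χ, Finset.mem_filter.2 ⟨Finset.mem_univ _, hχ⟩⟩ hne
    obtain ⟨c', hc', h'⟩ := h2
    refine ⟨min c c', lt_min hc hc', ?_⟩
    intro f hf χ hfN hχ
    rcases Nat.lt_or_ge N f with h3 | h3
    · obtain rfl : f = N + 1 := by omega
      exact (min_le_right _ _).trans (h' χ hχ)
    · exact (min_le_left _ _).trans (h f χ h3 hχ)

/-- the Euler factors of the lift -/
lemma sgD_euler (f f2 : ℕ) [NeZero f] [NeZero f2] (ψ : DirichletCharacter ℂ f2) (hψ : ψ ≠ 1)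
    (m : ℕ) [NeZero m] (hm : m = f * f2) (h : f2 ∣ m) :
    ‖DirichletCharacter.LFunction (DirichletCharacter.changeLevel h ψ) 1‖ ≤
      2 ^ f.primeFactors.card * ‖DirichletCharacter.LFunction ψ 1‖ := by
  classical
  rw [DirichletCharacter.LFunction_changeLevel h ψ (Or.inl hψ), norm_mul, mul_comm, norm_prod]
  apply mul_le_mul_of_nonneg_right _ (norm_nonneg _)
  have h1 : ∀ p ∈ m.primeFactors, ‖1 - ψ p * (p : ℂ) ^ (-(1 : ℂ))‖ ≤
      if p ∈ f.primeFactors then 2 else 1 := by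
    intro p hp
    have hpp := Nat.prime_of_mem_primeFactors hp
    have hpd := Nat.dvd_of_mem_primeFactors hp
    split_ifs with hpf
    · have h2 : ‖ψ p * (p : ℂ) ^ (-(1 : ℂ))‖ ≤ 1 := by
        rw [norm_mul, Complex.norm_natCast_cpow_of_pos hpp.pos]
        have h3 := ψ.norm_le_one p
        have h4 : (p : ℝ) ^ (-(1 : ℂ)).re ≤ 1 := by
          apply Real.rpow_le_one_of_one_le_of_nonpos
          · exact_mod_cast hpp.one_le
          · simp
        have h5 : 0 ≤ (p : ℝ) ^ (-(1 : ℂ)).re := Real.rpow_nonneg (Nat.cast_nonneg p) _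
        calc ‖ψ p‖ * (p : ℝ) ^ (-(1 : ℂ)).re ≤ 1 * 1 := mul_le_mul h3 h4 h5 zero_le_one
          _ = 1 := one_mul 1
      calc ‖1 - ψ p * (p : ℂ) ^ (-(1 : ℂ))‖ ≤ ‖(1 : ℂ)‖ + ‖ψ p * (p : ℂ) ^ (-(1 : ℂ))‖ := norm_sub_le _ _
        _ ≤ 1 + 1 := by rw [norm_one]; linarith
        _ = 2 := by norm_num
    · have h2 : p ∣ f2 := by
        rw [hm] at hpd
        rcases (Nat.Prime.dvd_mul hpp).1 hpd with h3 | h3
        · exact absurd (Nat.mem_primeFactors.2 ⟨hpp, h3, NeZero.ne f⟩) hpf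
        · exact h3
      have h3 : ψ p = 0 := by
        apply MulChar.map_nonunit
        rw [ZMod.isUnit_iff_coprime]
        intro h4
        have h5 : p ∣ Nat.gcd p f2 := Nat.dvd_gcd dvd_rfl h2
        rw [h4] at h5
        exact hpp.one_lt.ne' (Nat.dvd_one.1 h5)
      rw [h3, zero_mul, sub_zero, norm_one]
  calc ∏ p ∈ m.primeFactors, ‖1 - ψ p * (p : ℂ) ^ (-(1 : ℂ))‖ ≤
      ∏ p ∈ m.primeFactors, (if p ∈ f.primeFactors then (2 : ℝ) else 1) :=
        Finset.prod_le_prod (fun _ _ => norm_nonneg _) h1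
    _ = 2 ^ (m.primeFactors.filter (fun p => p ∈ f.primeFactors)).card := by
        rw [Finset.prod_ite, Finset.prod_const, Finset.prod_const_one, mul_one]
    _ ≤ 2 ^ f.primeFactors.card := by
        apply pow_le_pow_right₀ (by norm_num)
        apply Finset.card_le_card
        intro p hp
        exact (Finset.mem_filter.1 hp).2

/-- upper bound at `1` -/
lemma sgD_upper {m : ℕ} [NeZero m] (χ : DirichletCharacter ℂ m) (hχ : χ ≠ 1) (a : ℝ) (ha : 0 < a) :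
    ‖DirichletCharacter.LFunction χ 1‖ ≤ 300 * (6 ^ a / a * (m : ℝ) ^ a) := by
  have hm1 : (1 : ℝ) ≤ m := by exact_mod_cast NeZero.one_le
  set l : ℝ := Real.log ((m + 2 : ℝ) * (|(1 : ℂ).im| + 2)) with hl
  have h0 : (m + 2 : ℝ) * (|(1 : ℂ).im| + 2) = 2 * m + 4 := by
    simp; ring
  have hl1 : 1 ≤ l := by
    rw [hl, h0, Real.le_log_iff_exp_le (by linarith)]
    have := Real.exp_one_lt_d9
    linarith
  have h1 := Pool.Agent.H90.norm_LFunction_le_log χ hχ (m + 2 : ℝ) (by linarith) 1 l hl hl1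
    (by
      rw [Complex.one_re]
      have : 0 < 1 / l := by positivity
      linarith) (by rw [Complex.one_re]; norm_num) (by rw [Complex.one_re]; norm_num)
  refine h1.trans ?_
  apply mul_le_mul_of_nonneg_left _ (by norm_num)
  rw [hl, h0]
  refine (Real.log_le_rpow_div (by linarith) ha).trans ?_
  rw [div_mul_eq_mul_div]
  apply div_le_div_of_nonneg_right _ ha.le
  rw [← Real.mul_rpow (by norm_num) (by linarith)]
  apply Real.rpow_le_rpow (by linarith) _ ha.le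
  linarith

theorem siegel (ε : ℝ) (hε : 0 < ε) : ∃ c : ℝ, 0 < c ∧ ∀ (f : ℕ) [NeZero f]
    (χ : DirichletCharacter ℂ f), χ.IsPrimitive → χ ≠ 1 → χ ^ 2 = 1 →
      c * (f : ℝ) ^ (-ε) ≤ ‖DirichletCharacter.LFunction χ 1‖ := by
  by_cases hex : ∃ (f1 : ℕ) (_ : NeZero f1) (χ1 : DirichletCharacter ℂ f1), χ1 ≠ 1 ∧ χ1 ^ 2 = 1
  swap
  · refine ⟨1, one_pos, ?_⟩
    intro f hf χ _ hχ hχ2
    exact absurd ⟨f, hf, χ, hχ, hχ2⟩ hex
  obtain ⟨f1, hf1, χ1, h1, h12⟩ := hex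
  obtain ⟨C0, hC0, hlow⟩ := FF_lower
  set e : ℝ := min ε 1 with he
  have he0 : 0 < e := lt_min hε one_pos
  have he1 : e ≤ 1 := min_le_right _ _
  have heε : e ≤ ε := min_le_left _ _
  set δ : ℝ := e / 64 with hδ
  have hδ0 : 0 < δ := by positivity
  have hδ8 : δ ≤ 1 / 64 := by rw [hδ]; linarith
  obtain ⟨f, hf, χ, β, hχ, hχ2, hβ1, hβ2, hstep⟩ := sgD_step δ hδ0 (by linarith) f1 hf1 χ1 h1 h12
  obtain ⟨c3, hc3, hfin⟩ := sgD_fin f
  have hb0 : 0 < 1 - β := by linarith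
  have hf0 : (1 : ℝ) ≤ f := by exact_mod_cast NeZero.one_le
  set A : ℝ := 300 * (6 ^ (8 * δ) / (8 * δ)) with hA
  have hA0 : 0 < A := by positivity
  set W : ℝ := 2 ^ f.primeFactors.card with hW
  have hW0 : 0 < W := by positivity
  set c1 : ℝ := (1 - β) / (2 * C0 * A ^ 2 * W) with hc1
  have hc10 : 0 < c1 := by positivity
  refine ⟨min (c1 * (f : ℝ) ^ (-(32 * δ))) c3, lt_min (by positivity) hc3, ?_⟩
  intro f2 hf2 ψ hprim hψ hψ2
  have hf20 : (1 : ℝ) ≤ f2 := by exact_mod_cast NeZero.one_le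
  have hpow1 : (f2 : ℝ) ^ (-ε) ≤ 1 :=
    Real.rpow_le_one_of_one_le_of_nonpos hf20 (by linarith)
  have hpow0 : 0 < (f2 : ℝ) ^ (-ε) := by positivity
  have hmne : NeZero (f * f2) := ⟨mul_ne_zero (NeZero.ne f) (NeZero.ne f2)⟩
  have hd1 : f ∣ f * f2 := dvd_mul_right f f2
  have hd2 : f2 ∣ f * f2 := dvd_mul_left f2 f
  by_cases hcase : DirichletCharacter.changeLevel hd1 χ * DirichletCharacter.changeLevel hd2 ψ = 1
  · -- the same primitive character
    have h3 : DirichletCharacter.changeLevel hd2 ψ = (DirichletCharacter.changeLevel hd1 χ)⁻¹ :=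
      (inv_eq_of_mul_eq_one_right hcase).symm
    have h4 : f2 = χ.conductor := by
      have h5 : (DirichletCharacter.changeLevel hd2 ψ).conductor = f2 := by
        rw [DirichletCharacter.conductor_changeLevel _ hd2]
        exact hprim
      rw [h3, DirichletCharacter.conductor_inv, DirichletCharacter.conductor_changeLevel _ hd1] at h5
      exact h5.symm
    have h5 : f2 ≤ f := by
      rw [h4]
      exact Nat.le_of_dvd (Nat.pos_of_ne_zero (NeZero.ne f)) (DirichletCharacter.conductor_dvd_level χ)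
    calc min (c1 * (f : ℝ) ^ (-(32 * δ))) c3 * (f2 : ℝ) ^ (-ε) ≤ c3 * 1 :=
          mul_le_mul (min_le_right _ _) hpow1 hpow0.le hc3.le
      _ = c3 := mul_one c3
      _ ≤ _ := hfin f2 ψ h5 hψ
  · have hc : DirichletCharacter.changeLevel hd1 χ ≠ 1 := fun h' =>
      hχ ((DirichletCharacter.changeLevel_eq_one_iff hd1).1 h')
    have hc2 : (DirichletCharacter.changeLevel hd1 χ) ^ 2 = 1 := by
      rw [← map_pow, hχ2, map_one]
    have hp : DirichletCharacter.changeLevel hd2 ψ ≠ 1 := fun h' =>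
      hψ ((DirichletCharacter.changeLevel_eq_one_iff hd2).1 h')
    have hp2 : (DirichletCharacter.changeLevel hd2 ψ) ^ 2 = 1 := by
      rw [← map_pow, hψ2, map_one]
    have h3 := hlow (f * f2) _ _ hc hp hcase hc2 hp2 β (by linarith) hβ2
    have h4 := hstep (f * f2) hd1 _ hp hp2 hcase
    have hm1 : (1 : ℝ) ≤ ((f * f2 : ℕ) : ℝ) := by exact_mod_cast NeZero.one_le
    set x : ℝ := ((f * f2 : ℕ) : ℝ) with hx
    have hx0 : 0 < x := by linarith
    set Λ : ℝ := ‖lam (DirichletCharacter.changeLevel hd1 χ) (DirichletCharacter.changeLevel hd2 ψ)‖ with hΛ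
    have hΛ0 : 0 ≤ Λ := norm_nonneg _
    have h5 : (1 - β) / 2 ≤ C0 * Λ * x ^ (16 * δ) := by
      have h6 : x ^ (16 * (1 - β)) ≤ x ^ (16 * δ) :=
        Real.rpow_le_rpow_of_exponent_le hm1 (by linarith)
      have h7 : 1 / 2 ≤ C0 * Λ * x ^ (16 * (1 - β)) / (1 - β) := by linarith
      rw [le_div_iff₀ hb0] at h7
      have h8 : C0 * Λ * x ^ (16 * (1 - β)) ≤ C0 * Λ * x ^ (16 * δ) :=
        mul_le_mul_of_nonneg_left h6 (by positivity)
      linarith
    have h6 : Λ ≤ A ^ 2 * (x ^ (8 * δ)) ^ 2 * (W * ‖DirichletCharacter.LFunction ψ 1‖) := by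
      have e1 := sgD_upper _ hc (8 * δ) (by positivity)
      have e2 := sgD_upper _ hcase (8 * δ) (by positivity)
      have e3 := sgD_euler f f2 ψ hψ (f * f2) rfl hd2
      have e4 : (300 : ℝ) * (6 ^ (8 * δ) / (8 * δ) * x ^ (8 * δ)) = A * x ^ (8 * δ) := by
        rw [hA]; ring
      rw [e4] at e1 e2
      rw [hΛ]
      unfold lam
      rw [norm_mul, norm_mul]
      have hx8 : 0 < x ^ (8 * δ) := by positivity
      calc _ ≤ (A * x ^ (8 * δ)) * (W * ‖DirichletCharacter.LFunction ψ 1‖) * (A * x ^ (8 * δ)) := by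
            gcongr
        _ = _ := by ring
    have h7 : (x ^ (8 * δ)) ^ 2 * x ^ (16 * δ) * x ^ (-(32 * δ)) = 1 := by
      rw [← Real.rpow_natCast, ← Real.rpow_mul hx0.le, ← Real.rpow_add hx0, ← Real.rpow_add hx0]
      have : 8 * δ * ((2 : ℕ) : ℝ) + 16 * δ + -(32 * δ) = 0 := by push_cast; ring
      rw [this, Real.rpow_zero]
    have h8 : c1 * x ^ (-(32 * δ)) ≤ ‖DirichletCharacter.LFunction ψ 1‖ := by
      set N : ℝ := ‖DirichletCharacter.LFunction ψ 1‖ with hN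
      have h9 : (1 - β) / 2 ≤ C0 * (A ^ 2 * (x ^ (8 * δ)) ^ 2 * (W * N)) * x ^ (16 * δ) := by
        refine h5.trans ?_
        gcongr
      have h10 : (1 - β) / 2 * x ^ (-(32 * δ)) ≤ C0 * A ^ 2 * W * N := by
        calc (1 - β) / 2 * x ^ (-(32 * δ)) ≤
            C0 * (A ^ 2 * (x ^ (8 * δ)) ^ 2 * (W * N)) * x ^ (16 * δ) * x ^ (-(32 * δ)) :=
              mul_le_mul_of_nonneg_right h9 (by positivity)
          _ = C0 * A ^ 2 * W * N * ((x ^ (8 * δ)) ^ 2 * x ^ (16 * δ) * x ^ (-(32 * δ))) := by ring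
          _ = C0 * A ^ 2 * W * N := by rw [h7, mul_one]
      rw [hc1, div_mul_eq_mul_div, div_le_iff₀ (by positivity)]
      linarith
    have h9 : x ^ (-(32 * δ)) = (f : ℝ) ^ (-(32 * δ)) * (f2 : ℝ) ^ (-(32 * δ)) := by
      rw [hx, Nat.cast_mul, Real.mul_rpow (by positivity) (by positivity)]
    have h10 : (f2 : ℝ) ^ (-ε) ≤ (f2 : ℝ) ^ (-(32 * δ)) := by
      apply Real.rpow_le_rpow_of_exponent_le hf20
      rw [hδ]
      linarith
    calc min (c1 * (f : ℝ) ^ (-(32 * δ))) c3 * (f2 : ℝ) ^ (-ε) ≤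
        (c1 * (f : ℝ) ^ (-(32 * δ))) * (f2 : ℝ) ^ (-(32 * δ)) :=
          mul_le_mul (min_le_left _ _) h10 hpow0.le (by positivity)
      _ = c1 * x ^ (-(32 * δ)) := by rw [h9]; ring
      _ ≤ _ := h8

end Pool.Agent.H1.PP
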