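import Pool.Agent.H1.PP.SgD
import Pool.Agent.H90.ZeroFreeMain

/-!
# PP-16 SgE: the exceptional modulus is larger than any power of `log Q`

PROOF.  Let `Bad Q f` (see `Pool.Agent.H90.Bad`): `q ≤ Q`, `χ` mod `q`, `χ ≠ 1`, `χ² = 1`, conductor `f`, `L(ρ,χ) = 0`,
`1 - κ/(50 l) ≤ Re ρ`, `|Im ρ| ≤ κ/(4 l)`, `l = log (Q (|Im ρ| + 2)) ≥ log Q`.  Suppose `f ≤ (log Q)^A`, `Q` large.
Let `χ*` be the primitive character mod `f` inducing `χ` (`DirichletCharacter.primitiveCharacter`); it is nontrivial,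
`χ*² = 1`, and `L(ρ,χ*) = 0` since `L(s,χ) = L(s,χ*) ∏_{p ∣ q} (1 - χ*(p) p^(-s))` and the factors do not vanish for
`Re s > 0`.  Then `‖L(1,χ*)‖ = ‖L(1,χ*) - L(ρ,χ*)‖ ≤ ‖1 - ρ‖ * sup ‖L'‖` over the segment, where
`‖L'(s,χ*)‖ ≤ C (log (f + 3))²` for `|s - 1| ≤ 1/(4 log (2 f + 4))` (Cauchy's estimate from
`Pool.Agent.H90.norm_LFunction_le_log`; or crudely `‖L'‖ ≤ C f` from the polynomial bound `norm_LFunction_le` and
Cauchy's estimate with radius `1/4`: the crude bound is NOT enough, use the logarithmic one), and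
`‖1 - ρ‖ ≤ 1/log Q ≤ f^(-1/A)` (for `A ≥ 1`, as `f ≤ (log Q)^A`).  By `siegel` with `ε = 1/(2A)`,
`c f^(-1/(2A)) ≤ C (log (f+3))² / log Q`.  Since `log Q ≥ f^(1/A)` and also `log Q → ∞`:
`c ≤ C (log (f+3))² f^(1/(2A)) / log Q ≤ C (log (f+3))² (log Q)^(1/2) / log Q ≤ C' (loglog Q)² (log Q)^(-1/2)`, false for
large `Q`.  (For `A = 0` use `A = 1`.)
-/

set_option autoImplicit false

open Finset

namespace Pool.Agent.H1.PP

open Pool.Agent.H10.RP (ee nd Lam)

/-- a Lipschitz estimate near `1` -/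
theorem sge_lip {f : ℕ} [NeZero f] (χ : DirichletCharacter ℂ f) (hχ : χ ≠ 1) (ρ : ℂ)
    (hρ : ‖ρ - 1‖ < 1 / (2 * Real.log (3 * ((f : ℝ) + 3)))) :
    ‖DirichletCharacter.LFunction χ ρ - DirichletCharacter.LFunction χ 1‖ ≤
      1200 * (Real.log (3 * ((f : ℝ) + 3))) ^ 2 * ‖ρ - 1‖ := by
  set Λ := Real.log (3 * ((f : ℝ) + 3)) with hΛ
  have hf1 : (1 : ℝ) ≤ f := by exact_mod_cast Nat.pos_of_ne_zero (NeZero.ne f)
  have hexp : Real.exp 1 ≤ 8 := by have := Real.exp_one_lt_d9; linarith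
  have hΛ1 : 1 ≤ Λ := by
    rw [hΛ, Real.le_log_iff_exp_le (by positivity)]
    linarith
  have hΛ0 : 0 < Λ := by linarith
  have hR : 1 / (2 * Λ) ≤ 1 / 2 := by
    rw [div_le_div_iff₀ (by positivity) (by norm_num)]
    linarith
  have hbd : ∀ z : ℂ, ‖z - 1‖ < 1 / (2 * Λ) →
      ‖DirichletCharacter.LFunction χ z‖ ≤ 300 * Λ := by
    intro z hz
    have h1 : |z.re - 1| ≤ ‖z - 1‖ := by
      have := Complex.abs_re_le_norm (z - 1)
      simpa using this
    have h2 : |z.im| ≤ ‖z - 1‖ := by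
      have := Complex.abs_im_le_norm (z - 1)
      simpa using this
    have h0 := abs_nonneg z.im
    set l := Real.log (((f : ℝ) + 3) * (|z.im| + 2)) with hl
    have hl1 : 1 ≤ l := by
      rw [hl, Real.le_log_iff_exp_le (by positivity)]
      nlinarith
    have hlΛ : l ≤ Λ := by
      apply Real.log_le_log (by positivity)
      nlinarith
    have h3 : 1 / (2 * Λ) ≤ 1 / l := by
      apply one_div_le_one_div_of_le (by linarith)
      linarith
    rw [abs_le] at h1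
    have h4 := Pool.Agent.H90.norm_LFunction_le_log χ hχ ((f : ℝ) + 3) (by linarith) z l hl hl1
      (by linarith) (by linarith) (by linarith)
    linarith
  have hmaps : Set.MapsTo (DirichletCharacter.LFunction χ) (Metric.ball 1 (1 / (2 * Λ)))
      (Metric.closedBall (DirichletCharacter.LFunction χ 1) (600 * Λ)) := by
    intro z hz
    rw [Metric.mem_ball, dist_eq_norm] at hz
    rw [Metric.mem_closedBall, dist_eq_norm]
    have h1 := hbd z hz
    have h2 := hbd 1 (by rw [sub_self, norm_zero]; positivity)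
    refine (norm_sub_le _ _).trans ?_
    linarith
  have hmem : ρ ∈ Metric.ball (1 : ℂ) (1 / (2 * Λ)) := by
    rw [Metric.mem_ball, dist_eq_norm]
    exact hρ
  have h := Complex.dist_le_div_mul_dist_of_mapsTo_ball
    (DirichletCharacter.differentiable_LFunction hχ).differentiableOn hmaps hmem
  rw [dist_eq_norm, dist_eq_norm] at h
  refine h.trans (le_of_eq ?_)
  field_simp
  ring

/-- the primitive character has the same zero -/
theorem sge_prim {q : ℕ} [NeZero q] (χ : DirichletCharacter ℂ q) (hχ : χ ≠ 1) (hχ2 : χ ^ 2 = 1)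
    (ρ : ℂ) (hρ : DirichletCharacter.LFunction χ ρ = 0) (hρ0 : 0 < ρ.re) [NeZero χ.conductor] :
    χ.primitiveCharacter ≠ 1 ∧ χ.primitiveCharacter ^ 2 = 1 ∧
      DirichletCharacter.LFunction χ.primitiveCharacter ρ = 0 := by
  have hprim : DirichletCharacter.changeLevel χ.conductor_dvd_level χ.primitiveCharacter = χ :=
    DirichletCharacter.changeLevel_primitiveCharacter χ
  have hp1 : χ.primitiveCharacter ≠ 1 := by
    intro h
    apply hχ
    rw [← hprim, h, map_one]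
  have hp2 : χ.primitiveCharacter ^ 2 = 1 := by
    apply (DirichletCharacter.changeLevel_eq_one_iff χ.conductor_dvd_level).mp
    rw [map_pow, hprim, hχ2]
  refine ⟨hp1, hp2, ?_⟩
  have hLeq := DirichletCharacter.LFunction_changeLevel χ.conductor_dvd_level χ.primitiveCharacter
    (s := ρ) (Or.inl hp1)
  rw [hprim, hρ] at hLeq
  rcases mul_eq_zero.mp hLeq.symm with h | h
  · exact h
  · exfalso
    rw [Finset.prod_eq_zero_iff] at h
    obtain ⟨p, hp, hp0⟩ := h
    have hpp : p.Prime := Nat.prime_of_mem_primeFactors hp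
    have h3 : χ.primitiveCharacter p * (p : ℂ) ^ (-ρ) = 1 := (sub_eq_zero.mp hp0).symm
    have h4 : ‖χ.primitiveCharacter (p : ZMod χ.conductor) * (p : ℂ) ^ (-ρ)‖ < 1 := by
      rw [norm_mul, Complex.norm_natCast_cpow_of_pos hpp.pos]
      have h5 : (p : ℝ) ^ (-ρ).re < 1 := by
        apply Real.rpow_lt_one_of_one_lt_of_neg
        · exact_mod_cast hpp.one_lt
        · simpa using hρ0
      have h6 := DirichletCharacter.norm_le_one χ.primitiveCharacter (p : ZMod χ.conductor)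
      have h7 : 0 ≤ (p : ℝ) ^ (-ρ).re := by positivity
      calc _ ≤ 1 * (p : ℝ) ^ (-ρ).re := by gcongr
        _ < 1 := by rw [one_mul]; exact h5
    rw [h3, norm_one] at h4
    exact lt_irrefl _ h4

theorem sge_asym (c : ℝ) (hc : 0 < c) (B : ℕ) : ∃ x₀ : ℝ, ∀ x : ℝ, x₀ ≤ x →
    1200 * (Real.log 12 + B * Real.log x) ^ 2 < c * x ^ (1 / 2 : ℝ) ∧
      Real.log 12 + B * Real.log x ≤ x := by
  have h1 : (fun _ : ℝ => Real.log 12) =o[Filter.atTop] fun x : ℝ => x ^ (1 / 8 : ℝ) := by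
    rw [Asymptotics.isLittleO_const_left]
    right
    exact tendsto_norm_atTop_atTop.comp (tendsto_rpow_atTop (by norm_num))
  have h2 : (fun x : ℝ => (B : ℝ) * Real.log x) =o[Filter.atTop] fun x : ℝ => x ^ (1 / 8 : ℝ) :=
    (isLittleO_log_rpow_atTop (by norm_num)).const_mul_left _
  have h3 := h1.add h2
  set δ := min 1 (c / 2400) with hδ
  have hδ0 : 0 < δ := lt_min one_pos (by positivity)
  have h4 := (h3.bound hδ0).and (Filter.eventually_ge_atTop (1 : ℝ))
  obtain ⟨x₀, hx₀⟩ := Filter.eventually_atTop.mp h4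
  refine ⟨x₀, fun x hx => ?_⟩
  obtain ⟨h5, h6⟩ := hx₀ x hx
  have hx0 : 0 < x := by linarith
  have h7 : (0 : ℝ) < x ^ (1 / 8 : ℝ) := Real.rpow_pos_of_pos hx0 _
  rw [Real.norm_of_nonneg h7.le, Real.norm_eq_abs] at h5
  have hδ1 : δ ≤ 1 := min_le_left _ _
  have hδ2 : δ ≤ c / 2400 := min_le_right _ _
  constructor
  · have h8 : (Real.log 12 + B * Real.log x) ^ 2 ≤ (δ * x ^ (1 / 8 : ℝ)) ^ 2 := by
      rw [← sq_abs (Real.log 12 + B * Real.log x)]
      gcongr
    have h9 : (x ^ (1 / 8 : ℝ)) ^ 2 = x ^ (1 / 4 : ℝ) := by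
      rw [← Real.rpow_natCast, ← Real.rpow_mul hx0.le]
      norm_num
    have h10 : x ^ (1 / 4 : ℝ) ≤ x ^ (1 / 2 : ℝ) :=
      Real.rpow_le_rpow_of_exponent_le h6 (by norm_num)
    have h11 : (0 : ℝ) < x ^ (1 / 2 : ℝ) := Real.rpow_pos_of_pos hx0 _
    rw [mul_pow, h9] at h8
    have h12 : δ ^ 2 ≤ c / 2400 := by nlinarith
    have h13 : δ ^ 2 * x ^ (1 / 4 : ℝ) ≤ c / 2400 * x ^ (1 / 2 : ℝ) := by gcongr
    have h14 := mul_pos hc h11
    linarith
  · have h8 : x ^ (1 / 8 : ℝ) ≤ x := by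
      have := Real.rpow_le_rpow_of_exponent_le h6 (show (1 / 8 : ℝ) ≤ 1 by norm_num)
      rwa [Real.rpow_one] at this
    have h9 := le_abs_self (Real.log 12 + B * Real.log x)
    nlinarith

theorem bad_pow (A : ℕ) : ∃ Q₀ : ℝ, ∀ Q : ℝ, Q₀ ≤ Q → ∀ f : ℕ, Pool.Agent.H90.Bad Q f →
    (Real.log Q) ^ A < f := by
  set B := max A 1 with hB
  have hB1 : 1 ≤ B := le_max_right _ _
  have hBr : (0 : ℝ) < B := by exact_mod_cast hB1
  obtain ⟨c, hc, hsieg⟩ := siegel (1 / (2 * B)) (by positivity)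
  obtain ⟨x₀, hx₀⟩ := sge_asym c hc B
  refine ⟨Real.exp (max x₀ 21), fun Q hQ f hbad => ?_⟩
  have hQ0 : 0 < Q := (Real.exp_pos _).trans_le hQ
  have hlQ : max x₀ 21 ≤ Real.log Q := by
    rw [Real.le_log_iff_exp_le hQ0]; exact hQ
  set L := Real.log Q with hL
  have hL21 : 21 ≤ L := (le_max_right _ _).trans hlQ
  have hL0 : 0 < L := by linarith
  obtain ⟨hu1, hu2⟩ := hx₀ L ((le_max_left _ _).trans hlQ)
  set u := Real.log 12 + B * Real.log L with hu
  obtain ⟨q, hq, hqQ, χ, hχ, hχ2, hf, ρ, hρ, h1, h2⟩ := hbad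
  by_contra hcon
  push Not at hcon
  have hfB : (f : ℝ) ≤ L ^ B := hcon.trans (pow_le_pow_right₀ (by linarith) (le_max_left _ _))
  set l := Real.log (Q * (|ρ.im| + 2)) with hl
  have hlL : L ≤ l := Pool.Agent.H90.log_Q_le Q ρ.im hQ0
  have hl0 : 0 < l := by linarith
  have hβ1 : ρ.re < 1 := by
    by_contra h
    exact DirichletCharacter.LFunction_ne_zero_of_one_le_re χ (Or.inl hχ) (by linarith) hρ
  have hdist : ‖ρ - 1‖ ≤ 1 / (4 * L) := by
    have e1 : Pool.Agent.H90.kap / 50 / l ≤ 1 / (8 * L) := by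
      unfold Pool.Agent.H90.kap
      rw [div_div, div_div, div_le_div_iff₀ (by positivity) (by positivity)]
      linarith
    have e2 : Pool.Agent.H90.kap / l / 4 ≤ 1 / (8 * L) := by
      unfold Pool.Agent.H90.kap
      rw [div_div, div_div, div_le_div_iff₀ (by positivity) (by positivity)]
      linarith
    have e3 : 1 / (4 * L) = 1 / (8 * L) + 1 / (8 * L) := by field_simp; norm_num
    calc ‖ρ - 1‖ ≤ |(ρ - 1).re| + |(ρ - 1).im| := Complex.norm_le_abs_re_add_abs_im _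
      _ ≤ 1 / (8 * L) + 1 / (8 * L) := by
          apply add_le_add
          · rw [Complex.sub_re, Complex.one_re, abs_sub_comm, abs_of_pos (by linarith)]
            linarith
          · have : |(ρ - 1).im| = |ρ.im| := by simp
            rw [this]
            exact h2.trans e2
      _ = 1 / (4 * L) := e3.symm
  have hρ0 : 0 < ρ.re := by
    have e1 : |(ρ - 1).re| ≤ ‖ρ - 1‖ := Complex.abs_re_le_norm _
    rw [Complex.sub_re, Complex.one_re, abs_le] at e1
    have e2 : 1 / (4 * L) ≤ 1 / 4 := by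
      rw [div_le_div_iff₀ (by positivity) (by norm_num)]
      linarith
    linarith [e1.1]
  have hcn : NeZero χ.conductor := ⟨DirichletCharacter.conductor_ne_zero χ⟩
  obtain ⟨p1, p2, p3⟩ := sge_prim χ hχ hχ2 ρ hρ hρ0
  have hf' : (χ.conductor : ℝ) = f := by rw [hf]
  have hfpos : (1 : ℝ) ≤ f := by
    rw [← hf']
    exact_mod_cast Nat.pos_of_ne_zero (NeZero.ne χ.conductor)
  have hLB : 1 ≤ L ^ B := one_le_pow₀ (by linarith)
  have hΛ : Real.log (3 * ((χ.conductor : ℝ) + 3)) ≤ u := by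
    rw [hf', hu, ← Real.log_pow, ← Real.log_mul (by norm_num) (by positivity)]
    apply Real.log_le_log (by positivity)
    linarith
  have hΛ0 : 0 < Real.log (3 * ((χ.conductor : ℝ) + 3)) := by
    apply Real.log_pos
    rw [hf']
    linarith
  have hlip := sge_lip χ.primitiveCharacter p1 ρ (by
    refine lt_of_le_of_lt hdist ?_
    apply one_div_lt_one_div_of_lt (by positivity)
    linarith)
  rw [p3, zero_sub, norm_neg] at hlip
  have hs := hsieg χ.conductor χ.primitiveCharacter χ.primitiveCharacter_isPrimitive p1 p2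
  rw [hf'] at hs
  have h3 : L ^ (-(1 / 2) : ℝ) ≤ (f : ℝ) ^ (-(1 / (2 * (B : ℝ)))) := by
    have e1 : (L ^ B) ^ (-(1 / (2 * (B : ℝ)))) = L ^ (-(1 / 2) : ℝ) := by
      rw [← Real.rpow_natCast, ← Real.rpow_mul hL0.le]
      congr 1
      field_simp
    rw [← e1]
    exact Real.rpow_le_rpow_of_nonpos (by linarith) hfB (by
      have : 0 < 1 / (2 * (B : ℝ)) := by positivity
      linarith)
  have hu0 : 0 < u := hΛ0.trans_le hΛ
  have h4 : c * L ^ (-(1 / 2) : ℝ) ≤ 1200 * u ^ 2 * (1 / (4 * L)) := by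
    calc c * L ^ (-(1 / 2) : ℝ) ≤ c * (f : ℝ) ^ (-(1 / (2 * (B : ℝ)))) := by gcongr
      _ ≤ 1200 * (Real.log (3 * ((χ.conductor : ℝ) + 3))) ^ 2 * ‖ρ - 1‖ := hs.trans hlip
      _ ≤ 1200 * u ^ 2 * (1 / (4 * L)) := by gcongr
  have h5 : L ^ (-(1 / 2) : ℝ) * L = L ^ (1 / 2 : ℝ) := by
    conv_lhs => rw [← Real.rpow_one L]
    rw [← Real.rpow_mul hL0.le, ← Real.rpow_add hL0]
    norm_num
  have h6 : c * L ^ (1 / 2 : ℝ) ≤ 300 * u ^ 2 := by
    have h7 := mul_le_mul_of_nonneg_right h4 hL0.le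
    rw [mul_assoc, h5] at h7
    have h8 : 1200 * u ^ 2 * (1 / (4 * L)) * L = 300 * u ^ 2 := by
      field_simp
      ring
    rwa [h8] at h7
  have h9 := sq_nonneg u
  linarith

end Pool.Agent.H1.PP
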