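import Pool.Agent.H1.PP.SwC
import Pool.Agent.H1.PP.LR
import Pool.Agent.H10.RP.Vino

/-!
# PP-23 Sup: uniform approximation of the exponential sum over primes

`R = ⌊(log X)^k⌋`, `k ≥ 2 A + 26`, `L = log X`, `P = R³`, `X` large.  `S(θ) = ES Lam X θ`, `S'(θ) = ES (LamR R) X θ`.

PROOF.  Dirichlet: `|θ - b/q| ≤ P/(q X)`, `1 ≤ q ≤ X/P`, `(b, q) = 1`.  Note
`S'(θ) = ∑_{r ≤ R} (μ(r)/φ(r)) ∑_{b' mod r}^* ∑_{n ≤ X} e((b'/r + θ) n)`, and `|∑_{n ≤ X} e(y n)| ≤ min (X, 1/(2‖y‖))` (`sum_ee_le`).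

Case 1, `q > P`: `|θ - b/q| ≤ 1/q²`, `vinog` with `x = X + 1`:
`|S| ≤ C (X/√q + X^(5/6) + √(X q)) L^12 ≤ C (2 X P^(-1/2) + X^(5/6)) L^12 * 2 ≤ X L^(-A)/2` (`P^(1/2) ≥ L^(3k/2)/2`).  In `S'` for `r ≤ R`:
`‖b'/r + θ‖ ≥ 1/(q r) - |θ - b/q| ≥ 1/(qr) - P/(qX) ≥ 1/(2 q r)` (`q > P > R ≥ r`, so `-b/q ≠ b'/r` mod `1`; `2 r P ≤ X`), so
the inner sum is `≤ q r ≤ X R / P` and `|S'| ≤ ∑_{r ≤ R} X R/P ≤ X R²/P = X/R`.

Case 2, `q ≤ P`, `θ = b/q + β`, `|β| ≤ P/(qX)`.  `S(θ) = (μ(q)/φ(q)) ∑_{n ≤ X} e(β n) + E` with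
`|E| ≤ (1 + 2π |β| X) max_{y ≤ X} |∑_{n ≤ y} (Λ(n) e(b n/q) - μ(q)/φ(q))|` (summation by parts) `≤ 8 P X L^(-B)` by `SW_exp` with
`B = 3 k + A + 3` (for `y ≤ X/L^B` use the trivial bound `2 y log X + y`; `q ≤ L^(3k)`; `log y ≥ L/2` otherwise).
If `q ≤ R`: in `S'` the term `r = q`, `b' ≡ -b` gives `(μ(q)/φ(q)) ∑_n e(β n)`, all others have
`‖b'/r + θ‖ ≥ 1/(qr) - P/(qX) ≥ 1/(2 q r)` and contribute `≤ ∑_r q r ≤ R^3`.  Careful with the sign: `LamR` is
`∑_r (μ(r)/φ(r)) c_r(n)` and `c_r(n)` is invariant under `b' ↦ -b'`.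
If `R < q ≤ P`: no term is close, `|S'| ≤ P R²`, and the main term of `S` is `≤ X/φ(q) ≤ X √2/√R ≤ X L^(-A)/4`
(`φ(q) ≥ √(q/2)`).
-/

set_option autoImplicit false

open Finset

namespace Pool.Agent.H1.PP

open Pool.Agent.H10.RP (ee nd Lam)

/-! ### Euler's function -/

theorem sup_tot_odd (m : ℕ) : Odd m → m ≤ (Nat.totient m) ^ 2 := by
  induction m using Nat.recOnPosPrimePosCoprime with
  | prime_pow p n hp hn =>
    intro hodd
    have hp2 : p ≠ 2 := by
      rintro rfl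
      have : Even (2 ^ n) := (Nat.even_pow.2 ⟨even_two, by omega⟩)
      exact (Nat.not_even_iff_odd.2 hodd) this
    have hp3 : 3 ≤ p := by
      have := hp.two_le
      omega
    obtain ⟨j, rfl⟩ : ∃ j, n = j + 1 := ⟨n - 1, by omega⟩
    obtain ⟨r, rfl⟩ : ∃ r, p = r + 1 := ⟨p - 1, by omega⟩
    rw [Nat.totient_prime_pow hp hn, Nat.add_sub_cancel, Nat.add_sub_cancel]
    have h1 : r + 1 ≤ r ^ 2 := by nlinarith
    have h2 : 1 ≤ (r + 1) ^ j := Nat.one_le_pow _ _ (by omega)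
    calc (r + 1) ^ (j + 1) = (r + 1) ^ j * 1 * (r + 1) := by ring
      _ ≤ (r + 1) ^ j * (r + 1) ^ j * r ^ 2 := by gcongr
      _ = _ := by ring
  | zero => intro h; simp at h
  | one => intro _; simp
  | coprime a b ha hb hab iha ihb =>
    intro hodd
    rw [Nat.odd_mul] at hodd
    rw [Nat.totient_mul hab, mul_pow]
    exact Nat.mul_le_mul (iha hodd.1) (ihb hodd.2)

theorem sup_tot (q : ℕ) (hq : 1 ≤ q) : q ≤ 2 * (Nat.totient q) ^ 2 := by
  obtain ⟨k, m, hm, rfl⟩ := Nat.exists_eq_two_pow_mul_odd (show q ≠ 0 by omega)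
  have hcop : Nat.Coprime (2 ^ k) m := Nat.Coprime.pow_left _ (Nat.coprime_two_left.2 hm)
  have h1 := sup_tot_odd m hm
  have h2 : 2 ^ k ≤ 2 * (Nat.totient (2 ^ k)) ^ 2 := by
    rcases Nat.eq_zero_or_pos k with rfl | hk
    · simp
    · obtain ⟨j, rfl⟩ : ∃ j, k = j + 1 := ⟨k - 1, by omega⟩
      rw [Nat.totient_prime_pow Nat.prime_two hk, Nat.add_sub_cancel]
      have h3 : 1 ≤ 2 ^ j := Nat.one_le_two_pow
      calc 2 ^ (j + 1) = 2 * (2 ^ j * 1) := by ring
        _ ≤ 2 * (2 ^ j * 2 ^ j) := by gcongr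
        _ = _ := by ring
  rw [Nat.totient_mul hcop, mul_pow]
  calc 2 ^ k * m ≤ (2 * (Nat.totient (2 ^ k)) ^ 2) * (Nat.totient m) ^ 2 :=
        Nat.mul_le_mul h2 h1
    _ = _ := by ring

/-! ### geometric sums -/

/-- the geometric sum -/
noncomputable def supG (X : ℕ) (y : ℝ) : ℂ := ∑ n ∈ Icc 1 X, ee (y * n)

theorem supG_eq (X : ℕ) (y : ℝ) : supG X y = ∑ n ∈ Icc (1 : ℤ) X, ee (y * n) := by
  unfold supG
  refine Finset.sum_nbij' (fun n => (n : ℤ)) (fun n => n.toNat) ?_ ?_ ?_ ?_ ?_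
  · intro n hn
    rw [Finset.mem_Icc] at hn ⊢
    exact ⟨by exact_mod_cast hn.1, by exact_mod_cast hn.2⟩
  · intro n hn
    rw [Finset.mem_Icc] at hn ⊢
    omega
  · intro n _
    simp
  · intro n hn
    rw [Finset.mem_Icc] at hn
    have : 0 ≤ n := by omega
    simp [this]
  · intro n _
    simp

theorem supG_le (X : ℕ) (y δ : ℝ) (hδ : 0 < δ) (h : δ ≤ nd y) : ‖supG X y‖ ≤ 1 / (2 * δ) := by
  rw [supG_eq, le_div_iff₀ (by positivity)]
  refine le_trans ?_ (sum_ee_le y 1 X)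
  exact mul_le_mul_of_nonneg_left (by linarith) (norm_nonneg _)

theorem supG_congr (X : ℕ) (y y' : ℝ) (h : ∃ m : ℤ, y - y' = m) : supG X y = supG X y' := by
  obtain ⟨m, hm⟩ := h
  unfold supG
  refine Finset.sum_congr rfl fun n _ => Pool.Agent.H10.RP.ee_congr ⟨m * n, ?_⟩
  push_cast
  rw [← hm]; ring

/-- the part with denominator `r` -/
noncomputable def supT (X : ℕ) (θ : ℝ) (r : ℕ) : ℂ :=
  ((ArithmeticFunction.moebius r : ℝ) / (Nat.totient r : ℝ) : ℂ) *
    ∑ b ∈ (range r).filter (fun b => Nat.Coprime b r), supG X ((b : ℝ) / r + θ)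

theorem sup_expand (R X : ℕ) (θ : ℝ) : ES (LamR R) X θ = ∑ r ∈ Icc 1 R, supT X θ r := by
  unfold ES LamR supT supG cq
  simp only [Finset.sum_mul, Finset.mul_sum]
  rw [Finset.sum_comm]
  refine Finset.sum_congr rfl fun r _ => ?_
  rw [Finset.sum_comm]
  refine Finset.sum_congr rfl fun b _ => Finset.sum_congr rfl fun n _ => ?_
  rw [mul_assoc, ← Pool.Agent.H10.RP.ee_add]
  congr 2
  push_cast
  ring

theorem sup_card (r : ℕ) : ((range r).filter (fun b => Nat.Coprime b r)).card = Nat.totient r := by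
  unfold Nat.totient
  congr 1
  refine Finset.filter_congr fun b _ => Nat.coprime_comm

theorem sup_mu (r : ℕ) : ‖((ArithmeticFunction.moebius r : ℝ) / (Nat.totient r : ℝ) : ℂ)‖ ≤
    1 / (Nat.totient r : ℝ) := by
  rw [norm_div, Complex.norm_real, Complex.norm_real, Real.norm_eq_abs, Real.norm_eq_abs,
    abs_of_nonneg (Nat.cast_nonneg (Nat.totient r) : (0 : ℝ) ≤ (Nat.totient r : ℝ))]
  refine div_le_div_of_nonneg_right ?_ (Nat.cast_nonneg _)
  have h := ArithmeticFunction.abs_moebius_le_one (n := r)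
  exact_mod_cast h

theorem sup_avg (r : ℕ) (hr : 1 ≤ r) (S : Finset ℕ)
    (hS : S ⊆ (range r).filter (fun b => Nat.Coprime b r)) (f : ℕ → ℂ) (M : ℝ) (hM : 0 ≤ M)
    (h : ∀ b ∈ S, ‖f b‖ ≤ M) :
    ‖((ArithmeticFunction.moebius r : ℝ) / (Nat.totient r : ℝ) : ℂ) * ∑ b ∈ S, f b‖ ≤ M := by
  have hφ : (0 : ℝ) < Nat.totient r := by exact_mod_cast Nat.totient_pos.2 hr
  rw [norm_mul]
  have h1 : ‖∑ b ∈ S, f b‖ ≤ (Nat.totient r : ℝ) * M := by
    refine (norm_sum_le _ _).trans ((Finset.sum_le_sum h).trans ?_)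
    rw [Finset.sum_const, nsmul_eq_mul]
    refine mul_le_mul_of_nonneg_right ?_ hM
    have h2 := Finset.card_le_card hS
    rw [sup_card] at h2
    exact_mod_cast h2
  calc _ ≤ 1 / (Nat.totient r : ℝ) * ((Nat.totient r : ℝ) * M) :=
        mul_le_mul (sup_mu r) h1 (norm_nonneg _) (by positivity)
    _ = M := by field_simp

theorem sup_div {q r : ℕ} (hq : 1 ≤ q) (hr : 1 ≤ r) {a : ℤ} (ha : IsCoprime a (q : ℤ)) {b : ℕ}
    (hb : Nat.Coprime b r) (h : ((q : ℤ) * r) ∣ (b : ℤ) * q + a * r) :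
    r = q ∧ (q : ℤ) ∣ a + b := by
  have hb' : IsCoprime (b : ℤ) (r : ℤ) := Nat.isCoprime_iff_coprime.2 hb
  have h1 : (q : ℤ) ∣ r := by
    have h2 : (q : ℤ) ∣ a * r := by
      have h3 := (dvd_mul_right (q : ℤ) r).trans h
      exact (dvd_add_right (dvd_mul_left (q : ℤ) b)).1 h3
    exact ha.symm.dvd_of_dvd_mul_left h2
  have h2 : (r : ℤ) ∣ q := by
    have h3 : (r : ℤ) ∣ (b : ℤ) * q := by
      have h4 := (dvd_mul_left (r : ℤ) q).trans h
      exact (dvd_add_left (dvd_mul_left (r : ℤ) a)).1 h4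
    exact hb'.symm.dvd_of_dvd_mul_left h3
  have h3 : r = q := Nat.dvd_antisymm (by exact_mod_cast h2) (by exact_mod_cast h1)
  subst h3
  refine ⟨rfl, ?_⟩
  have h4 : (b : ℤ) * r + a * r = (r : ℤ) * (a + b) := by ring
  rw [h4] at h
  exact Int.dvd_of_mul_dvd_mul_left (by exact_mod_cast (by omega : r ≠ 0)) h

theorem sup_nd {q r : ℕ} (hq : 1 ≤ q) (hr : 1 ≤ r) {a : ℤ} {b : ℕ} {β : ℝ}
    (hne : ¬ ((q : ℤ) * r) ∣ (b : ℤ) * q + a * r) (hβ : |β| ≤ 1 / (2 * q * r)) :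
    1 / (2 * q * r : ℝ) ≤ nd ((b : ℝ) / r + ((a : ℝ) / q + β)) := by
  have hq0 : (0 : ℝ) < q := by exact_mod_cast hq
  have hr0 : (0 : ℝ) < r := by exact_mod_cast hr
  unfold nd
  set m := round ((b : ℝ) / r + ((a : ℝ) / q + β)) with hm
  have h1 : (1 : ℝ) ≤ |((((b : ℤ) * q + a * r - q * r * m : ℤ)) : ℝ)| := by
    have h2 : (b : ℤ) * q + a * r - q * r * m ≠ 0 := by
      intro h3
      apply hne
      exact ⟨m, by linarith⟩
    have h3 := Int.one_le_abs h2
    exact_mod_cast h3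
  have h2 : ((((b : ℤ) * q + a * r - q * r * m : ℤ)) : ℝ) =
      (q * r) * (((b : ℝ) / r + ((a : ℝ) / q + β) - m) - β) := by
    push_cast
    field_simp
    ring
  rw [h2, abs_mul, abs_of_pos (by positivity)] at h1
  have h3 : |((b : ℝ) / r + ((a : ℝ) / q + β) - m) - β| ≤
      |(b : ℝ) / r + ((a : ℝ) / q + β) - m| + |β| := abs_sub _ _
  have h4 : 1 / (q * r : ℝ) ≤ |((b : ℝ) / r + ((a : ℝ) / q + β) - m) - β| := by
    rw [div_le_iff₀ (by positivity)]; linarith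
  have h5 : 1 / (q * r : ℝ) = 1 / (2 * q * r) + 1 / (2 * q * r) := by
    field_simp; ring
  linarith

theorem sup_one {q r : ℕ} (hq : 1 ≤ q) (hr : 1 ≤ r) {a : ℤ} {b : ℕ} {β : ℝ} (X : ℕ)
    (hne : ¬ ((q : ℤ) * r) ∣ (b : ℤ) * q + a * r) (hβ : |β| ≤ 1 / (2 * q * r)) :
    ‖supG X ((b : ℝ) / r + ((a : ℝ) / q + β))‖ ≤ q * r := by
  have hq0 : (0 : ℝ) < q := by exact_mod_cast hq
  have hr0 : (0 : ℝ) < r := by exact_mod_cast hr
  refine (supG_le X _ _ (by positivity) (sup_nd hq hr hne hβ)).trans (le_of_eq ?_)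
  field_simp

/-- the Ramanujan model at a point close to a fraction -/
theorem sup_ram {q R : ℕ} (hq : 1 ≤ q) (hR : 1 ≤ R) {a : ℤ} (ha : IsCoprime a (q : ℤ)) {β : ℝ}
    (X : ℕ) (hβ : |β| ≤ 1 / (2 * q * R)) :
    ‖ES (LamR R) X ((a : ℝ) / q + β) - (if q ≤ R then
      ((ArithmeticFunction.moebius q : ℝ) / (Nat.totient q : ℝ) : ℂ) * supG X β else 0)‖ ≤
      q * (R : ℝ) ^ 2 := by
  have hq0 : (0 : ℝ) < q := by exact_mod_cast hq
  have hR0 : (0 : ℝ) < R := by exact_mod_cast hR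
  have hβr : ∀ r ∈ Icc 1 R, |β| ≤ 1 / (2 * q * (r : ℝ)) := by
    intro r hr
    rw [Finset.mem_Icc] at hr
    have hr0 : (0 : ℝ) < r := by exact_mod_cast hr.1
    have hrR : (r : ℝ) ≤ R := by exact_mod_cast hr.2
    refine hβ.trans (one_div_le_one_div_of_le (by positivity) ?_)
    exact mul_le_mul_of_nonneg_left hrR (by positivity)
  have hmain : (if q ≤ R then
      ((ArithmeticFunction.moebius q : ℝ) / (Nat.totient q : ℝ) : ℂ) * supG X β else 0) =
      ∑ r ∈ Icc 1 R, (if r = q then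
        ((ArithmeticFunction.moebius q : ℝ) / (Nat.totient q : ℝ) : ℂ) * supG X β else 0) := by
    rw [Finset.sum_ite_eq']
    by_cases h : q ≤ R
    · rw [if_pos h, if_pos (Finset.mem_Icc.2 ⟨hq, h⟩)]
    · rw [if_neg h, if_neg (fun h' => h (Finset.mem_Icc.1 h').2)]
  rw [hmain, sup_expand, ← Finset.sum_sub_distrib]
  refine (norm_sum_le _ _).trans ?_
  have hbd : ∀ r ∈ Icc 1 R, ‖supT X ((a : ℝ) / q + β) r - (if r = q then
        ((ArithmeticFunction.moebius q : ℝ) / (Nat.totient q : ℝ) : ℂ) * supG X β else 0)‖ ≤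
      q * R := by
    intro r hr
    have hr' := Finset.mem_Icc.1 hr
    have hrR : (r : ℝ) ≤ R := by exact_mod_cast hr'.2
    have hqr : (q : ℝ) * r ≤ q * R := mul_le_mul_of_nonneg_left hrR hq0.le
    by_cases hrq : r = q
    · rw [if_pos hrq]
      subst hrq
      -- the close term
      set b0 : ℕ := ((-a) % (r : ℤ)).toNat with hb0
      have hrz : (0 : ℤ) < r := by exact_mod_cast hr'.1
      have hb0z : (b0 : ℤ) = (-a) % (r : ℤ) := Int.toNat_of_nonneg (Int.emod_nonneg _ hrz.ne')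
      have hb0lt : b0 < r := by
        have := Int.emod_lt_of_pos (-a) hrz
        omega
      have hdvd : (r : ℤ) ∣ a + b0 := by
        rw [hb0z]
        have h1 := Int.emod_add_mul_ediv (-a) (r : ℤ)
        exact ⟨-((-a) / (r : ℤ)), by linarith⟩
      have hb0c : Nat.Coprime b0 r := by
        rw [← Nat.isCoprime_iff_coprime]
        obtain ⟨t, ht⟩ := hdvd
        have h1 : (b0 : ℤ) = -a + r * t := by linarith
        rw [h1]
        exact (IsCoprime.add_mul_left_left_iff).2 ha.neg_left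
      have hmem : b0 ∈ (range r).filter (fun b => Nat.Coprime b r) :=
        Finset.mem_filter.2 ⟨Finset.mem_range.2 hb0lt, hb0c⟩
      have hG : supG X ((b0 : ℝ) / r + ((a : ℝ) / r + β)) = supG X β := by
        apply supG_congr
        obtain ⟨t, ht⟩ := hdvd
        refine ⟨t, ?_⟩
        have h1 : (a : ℝ) + b0 = r * t := by exact_mod_cast ht
        field_simp
        linarith
      have hsplit : supT X ((a : ℝ) / r + β) r -
          ((ArithmeticFunction.moebius r : ℝ) / (Nat.totient r : ℝ) : ℂ) * supG X β =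
          ((ArithmeticFunction.moebius r : ℝ) / (Nat.totient r : ℝ) : ℂ) *
            ∑ b ∈ ((range r).filter (fun b => Nat.Coprime b r)).erase b0,
              supG X ((b : ℝ) / r + ((a : ℝ) / r + β)) := by
        unfold supT
        rw [← Finset.add_sum_erase _ _ hmem, hG]
        ring
      rw [hsplit]
      refine sup_avg r hr'.1 _ (Finset.erase_subset _ _) _ _ (by positivity) fun b hb => ?_
      refine (sup_one hr'.1 hr'.1 X ?_ (hβr r hr)).trans hqr
      intro hd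
      rw [Finset.mem_erase, Finset.mem_filter, Finset.mem_range] at hb
      have h1 := (sup_div hr'.1 hr'.1 ha hb.2.2 hd).2
      have h2 : (r : ℤ) ∣ (b : ℤ) - b0 := by
        have := dvd_sub h1 hdvd
        rwa [add_sub_add_left_eq_sub] at this
      apply hb.1
      have h3 : |(b : ℤ) - b0| < r := by
        rw [abs_lt]
        constructor <;> omega
      have h4 := Int.eq_zero_of_abs_lt_dvd h2 h3
      omega
    · rw [if_neg hrq, sub_zero]
      unfold supT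
      refine sup_avg r hr'.1 _ (Finset.Subset.refl _) _ _ (by positivity) fun b hb => ?_
      refine (sup_one hq hr'.1 X ?_ (hβr r hr)).trans hqr
      intro hd
      exact hrq (sup_div hq hr'.1 ha (Finset.mem_filter.1 hb).2 hd).1
  refine (Finset.sum_le_sum hbd).trans (le_of_eq ?_)
  rw [Finset.sum_const, Nat.card_Icc, nsmul_eq_mul, Nat.add_sub_cancel]
  ring

/-- summation by parts for the primes -/
theorem sup_primes {q : ℕ} (a : ℤ) (β : ℝ) (X : ℕ) (M : ℝ)
    (hM : ∀ y : ℕ, y ≤ X + 1 → ‖∑ n ∈ range y, Lam n * ee ((a : ℝ) * n / q) -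
      ((ArithmeticFunction.moebius q : ℝ) / (Nat.totient q : ℝ) : ℂ) * y‖ ≤ M) :
    ‖ES Lam X ((a : ℝ) / q + β) -
      ((ArithmeticFunction.moebius q : ℝ) / (Nat.totient q : ℝ) : ℂ) * supG X β‖ ≤
      M * (1 + 2 * Real.pi * |β| * (X + 1 : ℕ)) + 1 := by
  set w : ℂ := ((ArithmeticFunction.moebius q : ℝ) / (Nat.totient q : ℝ) : ℂ) with hw
  have h1 := Pool.Agent.H10.RP.abel_ee (fun n => Lam n * ee ((a : ℝ) * n / q) - w) (X + 1) M β
    (by
      intro y hy
      have := hM y hy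
      rwa [Finset.sum_sub_distrib, Finset.sum_const, Finset.card_range, nsmul_eq_mul,
        mul_comm (y : ℂ)])
  have h2 : ∑ n ∈ range (X + 1), (Lam n * ee ((a : ℝ) * n / q) - w) * ee (β * n) =
      (ES Lam X ((a : ℝ) / q + β) - w * supG X β) - w := by
    rw [Finset.range_eq_Ico, Finset.sum_eq_sum_Ico_succ_bot (by omega)]
    have h0 : Lam 0 = 0 := by simp [Lam]
    have h3 : Ico (0 + 1) (X + 1) = Icc 1 X := by
      ext n; simp only [Finset.mem_Ico, Finset.mem_Icc]; omega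
    rw [h3, h0]
    unfold ES supG
    rw [Finset.mul_sum, ← Finset.sum_sub_distrib]
    simp only [Nat.cast_zero, mul_zero, zero_mul, zero_sub, Pool.Agent.H10.RP.ee_zero, mul_one]
    rw [add_comm, sub_eq_add_neg (∑ n ∈ Icc 1 X, _) w]
    congr 1
    refine Finset.sum_congr rfl fun n _ => ?_
    have h4 : ((a : ℝ) / q + β) * n = (a : ℝ) * n / q + β * n := by ring
    rw [h4, Pool.Agent.H10.RP.ee_add]
    ring
  rw [h2] at h1
  have hw1 : ‖w‖ ≤ 1 := by
    refine (sup_mu q).trans ?_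
    rcases Nat.eq_zero_or_pos (Nat.totient q) with h | h
    · rw [h]; norm_num
    · rw [div_le_one (by exact_mod_cast h)]
      exact_mod_cast h
  calc ‖ES Lam X ((a : ℝ) / q + β) - w * supG X β‖ =
      ‖((ES Lam X ((a : ℝ) / q + β) - w * supG X β) - w) + w‖ := by rw [sub_add_cancel]
    _ ≤ _ := (norm_add_le _ _).trans (add_le_add h1 hw1)

theorem sup_event (m : ℕ) (x0 K : ℝ) : ∃ L1 : ℝ, 4 ≤ L1 ∧ ∀ L : ℝ, L1 ≤ L →
    L ^ m ≤ Real.exp (L / 6) ∧ x0 ≤ Real.exp (L / 2) ∧ K ≤ L := by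
  have e1 := (isLittleO_pow_exp_pos_mul_atTop m (b := 1 / 6) (by norm_num)).bound
    (c := 1) one_pos
  have e2 : Filter.Tendsto (fun L : ℝ => Real.exp (L / 2)) Filter.atTop Filter.atTop :=
    Real.tendsto_exp_atTop.comp (Filter.tendsto_id.atTop_div_const (by norm_num))
  have e3 := e2.eventually_ge_atTop x0
  obtain ⟨L1, hL1⟩ := Filter.eventually_atTop.1
    (e1.and (e3.and ((Filter.eventually_ge_atTop K).and (Filter.eventually_ge_atTop (4 : ℝ)))))
  refine ⟨max L1 4, le_max_right _ _, fun L hL => ?_⟩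
  obtain ⟨h1, h2, h3, h4⟩ := hL1 L ((le_max_left _ _).trans hL)
  refine ⟨?_, h2, h3⟩
  rw [one_mul, Real.norm_of_nonneg (by positivity), Real.norm_of_nonneg (by positivity)] at h1
  refine h1.trans (le_of_eq ?_)
  congr 1
  ring

/-- comparison of powers -/
theorem sup_pw {x L c : ℝ} (hx : 0 ≤ x) (hL : 1 ≤ L) (hc : c ≤ L) {A j : ℕ} (hj : A + 1 ≤ j) :
    c * (x / L ^ j) ≤ x / L ^ A := by
  have hL0 : 0 < L := by linarith
  have h1 : L ^ (A + 1) ≤ L ^ j := pow_le_pow_right₀ hL hj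
  have h2 : x / L ^ j ≤ x / L ^ (A + 1) := div_le_div_of_nonneg_left hx (by positivity) h1
  have h3 : 0 ≤ x / L ^ j := by positivity
  calc c * (x / L ^ j) ≤ L * (x / L ^ j) := mul_le_mul_of_nonneg_right hc h3
    _ ≤ L * (x / L ^ (A + 1)) := mul_le_mul_of_nonneg_left h2 hL0.le
    _ = x / L ^ A := by rw [pow_succ]; field_simp

/-- the bound for all the initial sums of the primes twisted by a fraction -/
theorem sup_M {q X B1 x0 : ℕ} {L : ℝ} {a : ℤ} (hL4 : 4 ≤ L) (hLX : Real.exp L = X)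
    (hT1 : L ^ B1 ≤ Real.exp (L / 6)) (hx0 : (x0 : ℝ) ≤ Real.exp (L / 2)) (hB1 : 1 ≤ B1)
    (hsw : ∀ x : ℕ, x0 ≤ x → (q : ℝ) ≤ (Real.log x) ^ (2 * B1) →
      ‖∑ n ∈ range x, Lam n * ee ((a : ℝ) * n / q) -
        ((ArithmeticFunction.moebius q : ℝ) / (Nat.totient q : ℝ) : ℂ) * x‖ ≤
        x / (Real.log x) ^ (2 * B1))
    (hq : (q : ℝ) ≤ L ^ B1) (y : ℕ) (hy : y ≤ X + 1) :
    ‖∑ n ∈ range y, Lam n * ee ((a : ℝ) * n / q) -
      ((ArithmeticFunction.moebius q : ℝ) / (Nat.totient q : ℝ) : ℂ) * y‖ ≤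
      2 * (X / L ^ (B1 - 1)) := by
  have hL0 : (0 : ℝ) < L := by linarith
  have hX1 : (1 : ℝ) ≤ X := by rw [← hLX]; exact Real.one_le_exp hL0.le
  have hX0 : (0 : ℝ) < X := by linarith
  have hyR : (y : ℝ) ≤ X + 1 := by exact_mod_cast hy
  have hstep : (X : ℝ) / L ^ B1 * L = X / L ^ (B1 - 1) := by
    obtain ⟨c, rfl⟩ : ∃ c, B1 = c + 1 := ⟨B1 - 1, by omega⟩
    rw [Nat.add_sub_cancel, pow_succ]
    field_simp
  by_cases hyT : (X : ℝ) / L ^ B1 ≤ y
  · -- large y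
    have h1 : Real.exp (L / 2) ≤ (X : ℝ) / L ^ B1 := by
      rw [le_div_iff₀ (by positivity), ← hLX]
      calc Real.exp (L / 2) * L ^ B1 ≤ Real.exp (L / 2) * Real.exp (L / 6) :=
            mul_le_mul_of_nonneg_left hT1 (Real.exp_pos _).le
        _ = Real.exp (L / 2 + L / 6) := (Real.exp_add _ _).symm
        _ ≤ Real.exp L := Real.exp_le_exp.2 (by linarith)
    have h2 : Real.exp (L / 2) ≤ y := h1.trans hyT
    have hy0 : (0 : ℝ) < y := (Real.exp_pos _).trans_le h2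
    have h3 : L / 2 ≤ Real.log y := (Real.le_log_iff_exp_le hy0).2 h2
    have h4 : x0 ≤ y := by exact_mod_cast hx0.trans h2
    have h5 : L ^ B1 ≤ (Real.log y) ^ (2 * B1) := by
      rw [pow_mul]
      refine pow_le_pow_left₀ hL0.le ?_ _
      nlinarith
    refine (hsw y h4 (hq.trans h5)).trans ?_
    have h6 : (y : ℝ) / (Real.log y) ^ (2 * B1) ≤ (X + 1) / L ^ B1 :=
      div_le_div₀ (by linarith) hyR (by positivity) h5
    refine h6.trans ?_
    rw [← hstep]
    have h7 : (X + 1 : ℝ) / L ^ B1 ≤ 2 * X / L ^ B1 :=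
      div_le_div_of_nonneg_right (by linarith) (by positivity)
    have h8 : (2 * X : ℝ) / L ^ B1 = 2 * (X / L ^ B1) := by ring
    have h9 : (0 : ℝ) ≤ X / L ^ B1 := by positivity
    nlinarith
  · -- small y
    push Not at hyT
    have h1 : ‖∑ n ∈ range y, Lam n * ee ((a : ℝ) * n / q)‖ ≤ y * L := by
      refine (norm_sum_le _ _).trans ?_
      calc ∑ n ∈ range y, ‖Lam n * ee ((a : ℝ) * n / q)‖ ≤ ∑ n ∈ range y, L := by
            refine Finset.sum_le_sum fun n hn => ?_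
            rw [norm_mul, Pool.Agent.H10.RP.norm_ee, mul_one]
            unfold Lam
            rw [Complex.norm_real, Real.norm_eq_abs,
              abs_of_nonneg ArithmeticFunction.vonMangoldt_nonneg]
            rcases Nat.eq_zero_or_pos n with rfl | hn0
            · simpa using hL0.le
            · refine ArithmeticFunction.vonMangoldt_le_log.trans ?_
              rw [← Real.log_exp L, hLX]
              refine Real.log_le_log (by exact_mod_cast hn0) ?_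
              rw [Finset.mem_range] at hn
              exact_mod_cast (by omega : n ≤ X)
        _ = y * L := by rw [Finset.sum_const, Finset.card_range, nsmul_eq_mul]
    have h2 : ‖((ArithmeticFunction.moebius q : ℝ) / (Nat.totient q : ℝ) : ℂ) * y‖ ≤ y := by
      rw [norm_mul, Complex.norm_natCast]
      have h3 : ‖((ArithmeticFunction.moebius q : ℝ) / (Nat.totient q : ℝ) : ℂ)‖ ≤ 1 := by
        refine (sup_mu q).trans ?_
        rcases Nat.eq_zero_or_pos (Nat.totient q) with h | h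
        · rw [h]; norm_num
        · rw [div_le_one (by exact_mod_cast h)]
          exact_mod_cast h
      calc _ ≤ 1 * (y : ℝ) := mul_le_mul_of_nonneg_right h3 (Nat.cast_nonneg _)
        _ = y := one_mul _
    refine (norm_sub_le _ _).trans ((add_le_add h1 h2).trans ?_)
    rw [← hstep]
    have h9 : (0 : ℝ) ≤ X / L ^ B1 := by positivity
    nlinarith

theorem sup_norm (A k : ℕ) (hk : 2 * A + 26 ≤ k) : ∃ X0 : ℕ, ∀ X : ℕ, X0 ≤ X → ∀ θ : ℝ,
    ‖ES Lam X θ - ES (LamR ⌊(Real.log X) ^ k⌋₊) X θ‖ ≤ X / (Real.log X) ^ A := by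
  obtain ⟨C, hC, hvin⟩ := Pool.Agent.H10.RP.vinog
  obtain ⟨x0, hsw⟩ := SW_exp (2 * (3 * k + A + 6))
  obtain ⟨L1, hL14, hL1⟩ := sup_event (5 * k + A + 20) x0 (64 + 50000 * C)
  refine ⟨max 3 ⌈Real.exp L1⌉₊, fun X hX θ => ?_⟩
  have hX3 : 3 ≤ X := (le_max_left _ _).trans hX
  have hX3' : (3 : ℝ) ≤ X := by exact_mod_cast hX3
  have hX0 : (0 : ℝ) < X := by linarith
  set L := Real.log X with hL
  have hLX : Real.exp L = X := Real.exp_log hX0
  have hLL : L1 ≤ L := by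
    rw [hL, Real.le_log_iff_exp_le hX0]
    exact (Nat.le_ceil _).trans (by exact_mod_cast (le_max_right _ _).trans hX)
  obtain ⟨hpow, hx0, hCL⟩ := hL1 L hLL
  have hL4 : 4 ≤ L := hL14.trans hLL
  have hL1' : 1 ≤ L := by linarith
  have hL0 : 0 < L := by linarith
  have hmX : L ^ (5 * k + A + 20) ≤ X :=
    hpow.trans (by rw [← hLX]; exact Real.exp_le_exp.2 (by linarith))
  set R := ⌊L ^ k⌋₊ with hR
  have hRle : (R : ℝ) ≤ L ^ k := Nat.floor_le (by positivity)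
  have hLk : L ≤ L ^ k := le_self_pow₀ hL1' (by omega)
  have hR2 : L ^ k ≤ 2 * R := by
    have := Nat.lt_floor_add_one (L ^ k)
    rw [← hR] at this
    linarith
  have hR1 : 1 ≤ R := by
    have : (0 : ℝ) < R := by linarith
    exact_mod_cast this
  have hR1' : (1 : ℝ) ≤ R := by exact_mod_cast hR1
  have hR0 : (0 : ℝ) < R := by linarith
  have hR3 : (R : ℝ) ^ 3 ≤ L ^ (3 * k) := by
    calc (R : ℝ) ^ 3 ≤ (L ^ k) ^ 3 := pow_le_pow_left₀ (by positivity) hRle 3
      _ = L ^ (3 * k) := by rw [← pow_mul, mul_comm]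
  have hR3X : R ^ 3 ≤ X := by
    have : ((R ^ 3 : ℕ) : ℝ) ≤ X := by
      push_cast
      exact hR3.trans ((pow_le_pow_right₀ hL1' (by omega)).trans hmX)
    exact_mod_cast this
  have hR4X : 2 * R ^ 4 ≤ X := by
    have : ((2 * R ^ 4 : ℕ) : ℝ) ≤ X := by
      push_cast
      calc 2 * (R : ℝ) ^ 4 ≤ L * (L ^ k) ^ 4 := by gcongr; linarith
        _ = L ^ (4 * k + 1) := by ring
        _ ≤ L ^ (5 * k + A + 20) := pow_le_pow_right₀ hL1' (by omega)
        _ ≤ X := hmX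
    exact_mod_cast this
  have hR30 : 0 < R ^ 3 := by positivity
  obtain ⟨N, hN⟩ : ∃ N, N = X / R ^ 3 := ⟨_, rfl⟩
  have hN1 : 0 < N := by rw [hN]; exact Nat.div_pos hR3X hR30
  have hN2 : X < R ^ 3 * (N + 1) := by rw [hN]; exact Nat.lt_mul_div_succ X hR30
  have hN3 : N * R ^ 3 ≤ X := by rw [hN]; exact Nat.div_mul_le_self X (R ^ 3)
  have hN2R : 2 * R < N + 1 := by
    have h1 : R ^ 3 * (2 * R) < R ^ 3 * (N + 1) := by
      calc R ^ 3 * (2 * R) = 2 * R ^ 4 := by ring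
        _ ≤ X := hR4X
        _ < _ := hN2
    exact Nat.lt_of_mul_lt_mul_left h1
  obtain ⟨ρ, hρ1, hρ2⟩ := Real.exists_rat_abs_sub_le_and_den_le θ hN1
  have hρc : (ρ : ℝ) = (ρ.num : ℝ) / ρ.den := Rat.cast_def ρ
  rw [hρc] at hρ1
  have hcop0 : IsCoprime ρ.num (ρ.den : ℤ) := by
    rw [Int.isCoprime_iff_gcd_eq_one]
    exact ρ.reduced
  have hq1 : 1 ≤ ρ.den := ρ.pos
  generalize ρ.den = q at hρ1 hρ2 hcop0 hq1
  generalize ρ.num = a at hρ1 hcop0
  have hq0 : (0 : ℝ) < q := by exact_mod_cast hq1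
  obtain ⟨β, hβd⟩ : ∃ β : ℝ, β = θ - (a : ℝ) / q := ⟨_, rfl⟩
  have hθ : θ = (a : ℝ) / q + β := by rw [hβd]; ring
  have hβ : |β| ≤ 1 / (((N : ℝ) + 1) * q) := by rw [hβd]; exact hρ1
  have hN2R' : (2 : ℝ) * R ≤ N + 1 := by exact_mod_cast hN2R.le
  have hβ2 : |β| ≤ 1 / (2 * q * R) := by
    refine hβ.trans (one_div_le_one_div_of_le (by positivity) ?_)
    calc (2 : ℝ) * q * R = (2 * R) * q := by ring
      _ ≤ (N + 1) * q := mul_le_mul_of_nonneg_right hN2R' hq0.le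
  have hram := sup_ram hq1 hR1 hcop0 X hβ2
  rw [← hθ] at hram
  have hGX : ‖supG X β‖ ≤ X := by
    unfold supG
    refine (norm_sum_le _ _).trans ?_
    simp [Pool.Agent.H10.RP.norm_ee]
  have hfin : ∀ c : ℝ, c ≤ L → ∀ j : ℕ, A + 1 ≤ j → c * ((X : ℝ) / L ^ j) ≤ X / L ^ A :=
    fun c hc j hj => sup_pw hX0.le hL1' hc hj
  have hdec : ∀ i j : ℕ, i ≤ j → (X : ℝ) / L ^ j ≤ X / L ^ i := fun i j hij =>
    div_le_div_of_nonneg_left hX0.le (by positivity) (pow_le_pow_right₀ hL1' hij)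
  by_cases hqP : q ≤ R ^ 3
  · -- second case
    have hqP' : (q : ℝ) ≤ (R : ℝ) ^ 3 := by exact_mod_cast hqP
    have hqL : (q : ℝ) ≤ L ^ (3 * k + A + 6) :=
      (hqP'.trans hR3).trans (pow_le_pow_right₀ hL1' (by omega))
    have hT1 : L ^ (3 * k + A + 6) ≤ Real.exp (L / 6) :=
      (pow_le_pow_right₀ hL1' (by omega)).trans hpow
    have hpr := sup_primes a β X _ (sup_M (q := q) (X := X) (B1 := 3 * k + A + 6) (x0 := x0)
      (L := L) (a := a) hL4 hLX hT1 hx0 (by omega)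
      (fun x hx hq => hsw x hx q hq1 hq a hcop0) hqL)
    rw [← hθ] at hpr
    have hβX : |β| * ((X : ℝ) + 1) ≤ 2 * (R : ℝ) ^ 3 := by
      have h1 : |β| ≤ 1 / ((N : ℝ) + 1) := by
        refine hβ.trans (one_div_le_one_div_of_le (by positivity) ?_)
        have : (1 : ℝ) ≤ q := by exact_mod_cast hq1
        nlinarith
      have h2 : (X : ℝ) ≤ R ^ 3 * (N + 1) := by exact_mod_cast hN2.le
      calc |β| * ((X : ℝ) + 1) ≤ 1 / ((N : ℝ) + 1) * (2 * (R ^ 3 * (N + 1))) :=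
            mul_le_mul h1 (by linarith) (by linarith) (by positivity)
        _ = 2 * (R : ℝ) ^ 3 := by field_simp
    have hfac : 1 + 2 * Real.pi * |β| * ((X + 1 : ℕ) : ℝ) ≤ 17 * L ^ (3 * k) := by
      have h1 : Real.pi ≤ 4 := Real.pi_le_four
      have h2 : (1 : ℝ) ≤ L ^ (3 * k) := one_le_pow₀ hL1'
      have h3 : 0 ≤ |β| * ((X : ℝ) + 1) := by positivity
      push_cast
      calc 1 + 2 * Real.pi * |β| * ((X : ℝ) + 1) = 1 + 2 * Real.pi * (|β| * ((X : ℝ) + 1)) := by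
            ring
        _ ≤ 1 + 2 * 4 * (2 * (R : ℝ) ^ 3) := by
            have := mul_le_mul h1 hβX h3 (by norm_num)
            nlinarith
        _ ≤ 17 * L ^ (3 * k) := by linarith
    have hM : 2 * ((X : ℝ) / L ^ (3 * k + A + 6 - 1)) *
        (1 + 2 * Real.pi * |β| * ((X + 1 : ℕ) : ℝ)) ≤ 34 * (X / L ^ (A + 1)) := by
      have h0 : (0 : ℝ) ≤ 2 * ((X : ℝ) / L ^ (3 * k + A + 6 - 1)) := by positivity
      refine (mul_le_mul_of_nonneg_left hfac h0).trans ?_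
      have h1 : 3 * k + A + 6 - 1 = 3 * k + (A + 5) := by omega
      rw [h1, pow_add]
      have h2 : 2 * ((X : ℝ) / (L ^ (3 * k) * L ^ (A + 5))) * (17 * L ^ (3 * k)) =
          34 * (X / L ^ (A + 5)) := by field_simp; ring
      rw [h2]
      exact mul_le_mul_of_nonneg_left (hdec _ _ (by omega)) (by norm_num)
    have hone : (1 : ℝ) ≤ X / L ^ (A + 1) := by
      rw [le_div_iff₀ (by positivity), one_mul]
      exact (pow_le_pow_right₀ hL1' (by omega)).trans hmX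
    have hqR : (q : ℝ) * (R : ℝ) ^ 2 ≤ X / L ^ (A + 1) := by
      rw [le_div_iff₀ (by positivity)]
      calc (q : ℝ) * (R : ℝ) ^ 2 * L ^ (A + 1) ≤ (R : ℝ) ^ 3 * (R : ℝ) ^ 2 * L ^ (A + 1) := by
            gcongr
        _ = (R : ℝ) ^ 5 * L ^ (A + 1) := by ring
        _ ≤ (L ^ k) ^ 5 * L ^ (A + 1) := by gcongr
        _ = L ^ (5 * k + A + 1) := by ring
        _ ≤ L ^ (5 * k + A + 20) := pow_le_pow_right₀ hL1' (by omega)
        _ ≤ X := hmX
    have hmain : ‖((ArithmeticFunction.moebius q : ℝ) / (Nat.totient q : ℝ) : ℂ) * supG X β -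
        (if q ≤ R then
          ((ArithmeticFunction.moebius q : ℝ) / (Nat.totient q : ℝ) : ℂ) * supG X β else 0)‖ ≤
        2 * (X / L ^ (A + 1)) := by
      split_ifs with hqR'
      · rw [sub_self, norm_zero]; positivity
      · rw [sub_zero, norm_mul]
        have hφ0 : (0 : ℝ) < Nat.totient q := by exact_mod_cast Nat.totient_pos.2 hq1
        have h1 : (q : ℝ) ≤ 2 * (Nat.totient q : ℝ) ^ 2 := by exact_mod_cast sup_tot q hq1
        have h2 : (R : ℝ) ≤ q := by exact_mod_cast (not_le.1 hqR').le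
        have h3 : L ^ (2 * A + 26) ≤ L ^ k := pow_le_pow_right₀ hL1' hk
        have h4 : L ^ (A + 13) / 2 ≤ (Nat.totient q : ℝ) := by
          by_contra h
          push Not at h
          have h5 := pow_lt_pow_left₀ h hφ0.le (two_ne_zero)
          have h6 : (L ^ (A + 13) / 2) ^ 2 = L ^ (2 * A + 26) / 4 := by ring
          rw [h6] at h5
          linarith
        calc ‖((ArithmeticFunction.moebius q : ℝ) / (Nat.totient q : ℝ) : ℂ)‖ * ‖supG X β‖ ≤
              1 / (Nat.totient q : ℝ) * X :=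
              mul_le_mul (sup_mu q) hGX (norm_nonneg _) (by positivity)
          _ ≤ 1 / (L ^ (A + 13) / 2) * X :=
              mul_le_mul_of_nonneg_right (one_div_le_one_div_of_le (by positivity) h4) hX0.le
          _ = 2 * (X / L ^ (A + 13)) := by field_simp
          _ ≤ 2 * (X / L ^ (A + 1)) :=
              mul_le_mul_of_nonneg_left (hdec _ _ (by omega)) (by norm_num)
    generalize hw : ((ArithmeticFunction.moebius q : ℝ) / (Nat.totient q : ℝ) : ℂ) * supG X β = w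
      at hpr hram hmain
    have hsplit : ES Lam X θ - ES (LamR R) X θ = (ES Lam X θ - w) -
        (ES (LamR R) X θ - (if q ≤ R then w else 0)) + (w - (if q ≤ R then w else 0)) := by ring
    rw [hsplit]
    refine (norm_add_le _ _).trans ?_
    refine (add_le_add (norm_sub_le _ _) le_rfl).trans ?_
    have h38 := hfin 38 (by linarith) (A + 1) le_rfl
    linarith
  · -- first case
    push Not at hqP
    have hqP' : (R : ℝ) ^ 3 ≤ q := by exact_mod_cast hqP.le
    have hRR3 : R ≤ R ^ 3 := Nat.le_self_pow (by norm_num) R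
    have hnq : ¬ q ≤ R := by omega
    rw [if_neg hnq, sub_zero] at hram
    have hqN : (q : ℝ) ≤ N := by exact_mod_cast hρ2
    have hN3' : (N : ℝ) * (R : ℝ) ^ 3 ≤ X := by exact_mod_cast hN3
    have hXR : (X : ℝ) / R ≤ 2 * (X / L ^ k) := by
      rw [div_le_iff₀ hR0]
      have h1 : 2 * ((X : ℝ) / L ^ k) * R = X * (2 * R) / L ^ k := by ring
      rw [h1, le_div_iff₀ (by positivity)]
      exact mul_le_mul_of_nonneg_left hR2 hX0.le
    have hS' : ‖ES (LamR R) X θ‖ ≤ 2 * (X / L ^ k) := by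
      refine hram.trans (le_trans ?_ hXR)
      rw [le_div_iff₀ hR0]
      calc (q : ℝ) * (R : ℝ) ^ 2 * R = q * (R : ℝ) ^ 3 := by ring
        _ ≤ N * (R : ℝ) ^ 3 := by gcongr
        _ ≤ X := hN3'
    have hθq : |θ - (a : ℝ) / q| ≤ 1 / (q : ℝ) ^ 2 := by
      rw [← hβd]
      refine hβ.trans (one_div_le_one_div_of_le (by positivity) ?_)
      rw [pow_two]
      exact mul_le_mul_of_nonneg_right (by linarith) hq0.le
    have hv := hvin (X + 1) (by omega) θ q hq1 a hcop0 hθq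
    have hES : ∑ n ∈ range (X + 1), Lam n * ee (θ * n) = ES Lam X θ := by
      rw [Finset.range_eq_Ico, Finset.sum_eq_sum_Ico_succ_bot (by omega)]
      have h0 : Lam 0 = 0 := by simp [Lam]
      have h3 : Ico (0 + 1) (X + 1) = Icc 1 X := by
        ext n; simp only [Finset.mem_Ico, Finset.mem_Icc]; omega
      rw [h3, h0, zero_mul, zero_add]
      rfl
    rw [hES] at hv
    have hsq : (R : ℝ) ≤ Real.sqrt q := by
      refine Real.le_sqrt_of_sq_le (le_trans ?_ hqP')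
      exact pow_le_pow_right₀ hR1' (by norm_num)
    have t1 : (((X + 1 : ℕ) : ℝ)) / Real.sqrt q ≤ 4 * (X / L ^ k) := by
      calc (((X + 1 : ℕ) : ℝ)) / Real.sqrt q ≤ (2 * X) / R := by
            push_cast
            exact div_le_div₀ (by positivity) (by linarith) hR0 hsq
        _ = 2 * (X / R) := by ring
        _ ≤ 4 * (X / L ^ k) := by linarith
    have t2 : (((X + 1 : ℕ) : ℝ)) ^ (5 / 6 : ℝ) ≤ 2 * (X / L ^ k) := by
      have h1 : (((X + 1 : ℕ) : ℝ)) ≤ 2 * X := by push_cast; linarith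
      have h2 : (((X + 1 : ℕ) : ℝ)) ^ (5 / 6 : ℝ) ≤ (2 * X) ^ (5 / 6 : ℝ) :=
        Real.rpow_le_rpow (Nat.cast_nonneg _) h1 (by norm_num)
      rw [Real.mul_rpow (by norm_num) hX0.le] at h2
      have h3 : (2 : ℝ) ^ (5 / 6 : ℝ) ≤ 2 := by
        calc (2 : ℝ) ^ (5 / 6 : ℝ) ≤ 2 ^ (1 : ℝ) :=
              Real.rpow_le_rpow_of_exponent_le (by norm_num) (by norm_num)
          _ = 2 := Real.rpow_one 2
      have h4 : (X : ℝ) ^ (5 / 6 : ℝ) ≤ X / L ^ k := by
        rw [le_div_iff₀ (by positivity), ← hLX, ← Real.exp_mul]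
        calc Real.exp (L * (5 / 6)) * L ^ k ≤ Real.exp (L * (5 / 6)) * Real.exp (L / 6) := by
              refine mul_le_mul_of_nonneg_left ?_ (Real.exp_pos _).le
              exact (pow_le_pow_right₀ hL1' (by omega)).trans hpow
          _ = Real.exp L := by rw [← Real.exp_add]; congr 1; ring
      exact h2.trans (mul_le_mul h3 h4 (by positivity) (by norm_num))
    have t3 : Real.sqrt ((((X + 1 : ℕ) : ℝ)) * q) ≤ 4 * (X / L ^ k) := by
      have h1 : Real.sqrt ((((X + 1 : ℕ) : ℝ)) * q) ≤ 2 * (X / R) := by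
        rw [Real.sqrt_le_left (by positivity)]
        have h2 : (q : ℝ) * (R : ℝ) ^ 2 ≤ X := by
          calc (q : ℝ) * (R : ℝ) ^ 2 ≤ N * (R : ℝ) ^ 3 :=
                mul_le_mul hqN (pow_le_pow_right₀ hR1' (by norm_num)) (by positivity)
                  (by positivity)
            _ ≤ X := hN3'
        have h3 : (2 * ((X : ℝ) / R)) ^ 2 = 4 * X * X / R ^ 2 := by field_simp; ring
        rw [h3, le_div_iff₀ (by positivity)]
        push_cast
        calc ((X : ℝ) + 1) * q * (R : ℝ) ^ 2 = ((X : ℝ) + 1) * ((q : ℝ) * (R : ℝ) ^ 2) := by ring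
          _ ≤ (4 * (X : ℝ)) * X := mul_le_mul (by linarith) h2 (by positivity) (by positivity)
      linarith
    have t4 : (Real.log ((X + 1 : ℕ) : ℝ)) ^ 12 ≤ 4096 * L ^ 12 := by
      have h1 : Real.log ((X + 1 : ℕ) : ℝ) ≤ 2 * L := by
        have h2 : (((X + 1 : ℕ) : ℝ)) ≤ (X : ℝ) ^ 2 := by push_cast; nlinarith
        have h3 := Real.log_le_log (by positivity) h2
        rwa [Real.log_pow] at h3
      have h0 : 0 ≤ Real.log ((X + 1 : ℕ) : ℝ) := Real.log_natCast_nonneg _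
      calc (Real.log ((X + 1 : ℕ) : ℝ)) ^ 12 ≤ (2 * L) ^ 12 := pow_le_pow_left₀ h0 h1 12
        _ = 4096 * L ^ 12 := by ring
    have hS : ‖ES Lam X θ‖ ≤ 40960 * C * (X / L ^ (A + 1)) := by
      refine hv.trans ?_
      calc C * ((((X + 1 : ℕ) : ℝ)) / Real.sqrt q + (((X + 1 : ℕ) : ℝ)) ^ (5 / 6 : ℝ) +
            Real.sqrt ((((X + 1 : ℕ) : ℝ)) * q)) * (Real.log ((X + 1 : ℕ) : ℝ)) ^ 12 ≤
            C * (10 * (X / L ^ k)) * (4096 * L ^ 12) := by
              refine mul_le_mul ?_ t4 (by positivity) (by positivity)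
              exact mul_le_mul_of_nonneg_left (by linarith) hC.le
        _ = 40960 * C * (X / L ^ k * L ^ 12) := by ring
        _ ≤ 40960 * C * (X / L ^ (A + 1)) := by
              refine mul_le_mul_of_nonneg_left ?_ (by positivity)
              obtain ⟨c, hc⟩ : ∃ c, k = c + 12 := ⟨k - 12, by omega⟩
              have h1 : (X : ℝ) / L ^ k * L ^ 12 = X / L ^ c := by
                rw [hc, pow_add]; field_simp
              rw [h1]
              exact hdec _ _ (by omega)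
    have hS'' : ‖ES (LamR R) X θ‖ ≤ 2 * (X / L ^ (A + 1)) :=
      hS'.trans (mul_le_mul_of_nonneg_left (hdec _ _ (by omega)) (by norm_num))
    have hfin' := hfin (40960 * C + 2) (by linarith) (A + 1) le_rfl
    refine (norm_sub_le _ _).trans ?_
    linarith

end Pool.Agent.H1.PP
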