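import Pool.Agent.H1.PP.SwA
import Pool.Agent.H10.RP.CharSum

/-!
# PP-18 SwB: character sums over primes, all moduli up to a power of the logarithm

PROOF.  First the analogue of `char_tent` (`Pool/Agent/H10/RP/CharT.lean`): for all `A B` there is `L0` such that for
`ℓ ≥ L0`, `1 ≤ N ≤ ℓ^B`, `χ ≠ 1` mod `N`:
`‖∑_{n ≤ exp ℓ} χ(n) Λ(n) tent (exp ℓ / 3) n‖ ≤ exp ℓ * ℓ^(-A)`.  Same proof with `smallP` in place of `smallS`: `q₁ ∤ N` because
`1 ≤ N ≤ ℓ^B < q₁`; and `log N ≤ B log ℓ ≤ ℓ/(2 (log ℓ)²)` for large `ℓ`.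
Then copy `cs_sharp` and `char_sharp` of `Pool/Agent/H10/RP/CharSum.lean` (the lemmas before them can be cited), the only
difference is that the condition on the prime factors of `N` disappears.  (The tent sums are used there for arguments
`u` close to `log x`, for instance `u ≥ (log x)/2`; use `B = 2 A + 2` so that `N ≤ (log x)^A ≤ u^B`.)
-/

set_option autoImplicit false

open Finset

namespace Pool.Agent.H1.PP

open Pool.Agent.H10.RP (ee nd Lam)

section Aux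

open Pool.Agent.H10.RP Pool.Agent.H16 Filter Topology

theorem swb_tent (A : ℝ) (B : ℕ) : ∃ L0 : ℝ, ∀ ℓ : ℝ, L0 ≤ ℓ → ∀ N : ℕ, 1 ≤ N →
    Real.log N ≤ ℓ / (2 * (Real.log ℓ) ^ 2) → (N : ℝ) ≤ ℓ ^ B →
    ∀ χ : DirichletCharacter ℂ N, χ ≠ 1 →
    ‖∑ n ∈ Icc 1 ⌊Real.exp ℓ⌋₊, χ (n : ℕ) * Lam n * ((tent (Real.exp ℓ / 3) n : ℝ) : ℂ)‖ ≤
      Real.exp ℓ * ℓ ^ (-A) := by
  obtain ⟨L0, hL0⟩ := smallP (max A 0) 0 (le_max_right _ _) le_rfl B
  refine ⟨max L0 1, fun ℓ hℓ N hN hlog hNB χ hχ => ?_⟩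
  have hℓ1 : 1 ≤ ℓ := (le_max_right _ _).trans hℓ
  obtain ⟨q₁, hq1, hS⟩ := hL0 ℓ ((le_max_left _ _).trans hℓ)
  have hnd : ¬ q₁ ∣ N := by
    intro hd
    have h1 : (q₁ : ℝ) ≤ N := by exact_mod_cast Nat.le_of_dvd hN hd
    linarith
  have hB0 : ∀ n : ℕ, Real.exp (0.74 * ℓ) < n → (1 : ArithmeticFunction ℂ) n = 0 := by
    intro n hn
    have h1 : n ≠ 1 := by
      rintro rfl
      have h2 : (1 : ℝ) ≤ Real.exp (0.74 * ℓ) := Real.one_le_exp (by positivity)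
      simp only [Nat.cast_one] at hn
      linarith
    exact ArithmeticFunction.one_apply_ne h1
  have hB1 : ∀ n : ℕ, ‖(1 : ArithmeticFunction ℂ) n‖ ≤ 1 := by
    intro n
    rw [ArithmeticFunction.one_apply]
    split_ifs
    · simp
    · simp
  have hD : ∀ d ∈ ({1} : Finset ℕ), 1 ≤ d ∧ (d : ℝ) ≤ ℓ ^ (0 : ℝ) ∧ Nat.Coprime d N ∧
      ¬ q₁ ∣ N * d := by
    intro d hd
    rw [mem_singleton] at hd
    subst hd
    refine ⟨le_rfl, by simp, Nat.coprime_one_left _, by rwa [mul_one]⟩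
  have hmain := hS N hN hlog {1} hD 1 hB1 hB0
  rw [sum_singleton, one_mul] at hmain
  have hA : Real.exp ℓ * ℓ ^ (-(max A 0)) ≤ Real.exp ℓ * ℓ ^ (-A) :=
    mul_le_mul_of_nonneg_left
      (Real.rpow_le_rpow_of_exponent_le hℓ1 (neg_le_neg (le_max_left _ _))) (Real.exp_pos _).le
  have key : ∀ (M : ℕ) (hM : M = N * 1) (ψ : DirichletCharacter ℂ M), ψ ≠ 1 →
      ‖∑ n ∈ Icc 1 ⌊Real.exp ℓ⌋₊, ψ (n : ℕ) * Lam n * ((tent (Real.exp ℓ / 3) n : ℝ) : ℂ)‖ ≤
        Real.exp ℓ * ℓ ^ (-(max A 0)) := by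
    intro M hM
    subst hM
    intro ψ hψ
    refine le_trans ?_ hmain
    have hmem : ψ ∈ fam N 1 := (mem_fam N 1 ψ).mpr ⟨hψ, one_dvd _⟩
    exact single_le_sum (f := fun ξ : DirichletCharacter ℂ (N * 1) =>
      ‖∑ n ∈ Icc 1 ⌊Real.exp ℓ⌋₊, (ξ (n : ℕ) * LamC n) *
        ((tent (Real.exp ℓ / 3) n : ℝ) : ℂ)‖) (fun _ _ => norm_nonneg _) hmem
  exact (key N (mul_one N).symm χ hχ).trans hA

theorem swb_sharp (A : ℝ) (hA : 1 ≤ A) : ∃ x0 : ℕ, ∀ x : ℕ, x0 ≤ x →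
    ∀ N : ℕ, 1 ≤ N →
    (N : ℝ) ≤ (Real.log x) ^ A →
    ∀ χ : DirichletCharacter ℂ N, χ ≠ 1 →
    ‖∑ n ∈ range x, χ (n : ℕ) * Lam n‖ ≤ x * (Real.log x) ^ (-A) ∧ 1 ≤ Real.log x := by
  obtain ⟨L0, hL0⟩ := swb_tent (2 * A + 10) ⌈2 * A⌉₊
  obtain ⟨U, hU⟩ := cs_event A hA L0
  have hx0 : ∃ x0 : ℕ, 1 ≤ x0 ∧ U ≤ Real.log x0 := by
    refine ⟨⌈Real.exp U⌉₊, ?_, ?_⟩
    · exact Nat.one_le_ceil_iff.2 (Real.exp_pos _)
    · rw [Real.le_log_iff_exp_le]
      · exact Nat.le_ceil _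
      · exact_mod_cast Nat.ceil_pos.2 (Real.exp_pos _)
  obtain ⟨x0, hx01, hx0U⟩ := hx0
  refine ⟨x0, fun x hx N hN hNA χ hχ => ?_⟩
  have hxpos : (0 : ℝ) < x := by
    have : 0 < x := by omega
    exact_mod_cast this
  set u := Real.log x with hu
  have hexp : Real.exp u = x := by rw [hu, Real.exp_log hxpos]
  have hUu : U ≤ u := by
    refine hx0U.trans (Real.log_le_log ?_ ?_)
    · exact_mod_cast hx01
    · exact_mod_cast hx
  obtain ⟨hu4, huL, hulog, hfin⟩ := hU u hUu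
  have hu0 : (0 : ℝ) < u := by linarith
  refine ⟨?_, by linarith⟩
  set c : ℕ → ℂ := fun n => χ (n : ℕ) * Lam n with hcdef
  set M : ℕ := ⌈Real.exp (u + 3)⌉₊ with hM
  have hc : ∀ n ∈ Icc 1 M, ‖c n‖ ≤ Real.log n := by
    intro n _
    rw [hcdef]
    simp only
    rw [norm_mul]
    unfold Lam
    rw [Complex.norm_real, Real.norm_eq_abs,
      abs_of_nonneg ArithmeticFunction.vonMangoldt_nonneg]
    calc ‖χ n‖ * ArithmeticFunction.vonMangoldt n ≤ 1 * ArithmeticFunction.vonMangoldt n :=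
          mul_le_mul_of_nonneg_right (DirichletCharacter.norm_le_one χ _)
            ArithmeticFunction.vonMangoldt_nonneg
      _ ≤ Real.log n := by rw [one_mul]; exact ArithmeticFunction.vonMangoldt_le_log
  have hlog3 : (0 : ℝ) < Real.log 3 := Real.log_pos (by norm_num)
  have hlog3' : Real.log 3 ≤ 2 := by
    rw [Real.log_le_iff_le_exp (by norm_num)]
    have := Real.add_one_le_exp (2 : ℝ)
    linarith
  have hD : ∀ v, u / 2 ≤ v → v ≤ u + 1 →
      ‖csg M c (v + 1) - 2 * csg M c v + csg M c (v - 1)‖ ≤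
        (3 * (u / 2) ^ (-(2 * A + 10))) * Real.exp v := by
    intro v hv1 hv2
    set ℓ := v + Real.log 3 with hℓ
    have hev : Real.exp ℓ / 3 = Real.exp v := by
      rw [hℓ, Real.exp_add, Real.exp_log (by norm_num)]; field_simp
    have hℓ1 : u / 2 ≤ ℓ := by linarith
    have hℓ2 : ℓ ≤ u + 3 := by linarith
    have hℓ3 : 1 < ℓ := by linarith
    have hfl : ⌊Real.exp ℓ⌋₊ ≤ M := by
      have h1 := Nat.floor_le (Real.exp_pos ℓ).le
      have h2 := Nat.le_ceil (Real.exp (u + 3))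
      have h3 := Real.exp_le_exp.2 hℓ2
      exact_mod_cast (h1.trans h3).trans h2
    rw [cs_second, ← hev, cs_trunc M c ℓ hfl]
    have hcond : Real.log N ≤ ℓ / (2 * (Real.log ℓ) ^ 2) := by
      have hlogℓ : 0 < Real.log ℓ := Real.log_pos hℓ3
      have hlogℓ' : Real.log ℓ ≤ Real.log (2 * u) :=
        Real.log_le_log (by linarith) (by linarith)
      have hlogu : 0 ≤ Real.log u := Real.log_nonneg (by linarith)
      have hlogu' : Real.log u ≤ Real.log (2 * u) := Real.log_le_log hu0 (by linarith)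
      have hlogN : Real.log N ≤ A * Real.log u := by
        have hN0 : (0 : ℝ) < N := by exact_mod_cast hN
        have := Real.log_le_log hN0 hNA
        rwa [Real.log_rpow hu0] at this
      rw [le_div_iff₀ (by positivity)]
      calc Real.log N * (2 * Real.log ℓ ^ 2)
          ≤ (A * Real.log (2 * u)) * (2 * Real.log (2 * u) ^ 2) := by
            refine mul_le_mul (hlogN.trans ?_) ?_ (by positivity) ?_
            · exact mul_le_mul_of_nonneg_left hlogu' (by linarith)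
            · gcongr
            · exact mul_nonneg (by linarith) (hlogu.trans hlogu')
        _ = (4 * A * Real.log (2 * u) ^ 3) / 2 := by ring
        _ ≤ u / 2 := by linarith
        _ ≤ ℓ := hℓ1
    have hNB : (N : ℝ) ≤ ℓ ^ ⌈2 * A⌉₊ := by
      have g1 : u ≤ ℓ ^ (2 : ℝ) := by
        rw [Real.rpow_two]
        nlinarith
      have g2 : u ^ A ≤ (ℓ ^ (2 : ℝ)) ^ A := Real.rpow_le_rpow hu0.le g1 (by linarith)
      rw [← Real.rpow_mul (by linarith)] at g2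
      have g3 : ℓ ^ (2 * A) ≤ ℓ ^ ((⌈2 * A⌉₊ : ℕ) : ℝ) :=
        Real.rpow_le_rpow_of_exponent_le hℓ3.le (Nat.le_ceil _)
      rw [Real.rpow_natCast] at g3
      exact hNA.trans (g2.trans g3)
    have h := hL0 ℓ (by linarith) N hN hcond hNB χ hχ
    refine h.trans ?_
    have h1 : ℓ ^ (-(2 * A + 10)) ≤ (u / 2) ^ (-(2 * A + 10)) :=
      Real.rpow_le_rpow_of_nonpos (by linarith) hℓ1 (by linarith)
    calc Real.exp ℓ * ℓ ^ (-(2 * A + 10)) ≤ Real.exp ℓ * (u / 2) ^ (-(2 * A + 10)) :=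
          mul_le_mul_of_nonneg_left h1 (Real.exp_pos _).le
      _ = 3 * (u / 2) ^ (-(2 * A + 10)) * (Real.exp ℓ / 3) := by ring
  have hδ1 : u ^ (-(A + 2)) ≤ 1 := by
    apply Real.rpow_le_one_of_one_le_of_nonpos (by linarith) (by linarith)
  have hgen := cs_generic M c hc u (3 * (u / 2) ^ (-(2 * A + 10))) (u ^ (-(A + 2))) (by linarith)
    (by positivity) (by positivity) hδ1 hD
  have hset : (Icc 1 M).filter (fun n : ℕ => Real.log (n : ℝ) ≤ u) = Icc 1 x := by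
    ext n
    rw [Finset.mem_filter, Finset.mem_Icc, Finset.mem_Icc]
    constructor
    · rintro ⟨⟨h1, _⟩, h3⟩
      refine ⟨h1, ?_⟩
      have : (n : ℝ) ≤ x := by
        rw [← hexp]
        exact (Real.log_le_iff_le_exp (by exact_mod_cast h1)).1 h3
      exact_mod_cast this
    · rintro ⟨h1, h2⟩
      have h2' : (n : ℝ) ≤ x := by exact_mod_cast h2
      refine ⟨⟨h1, ?_⟩, ?_⟩
      · have h3 : (n : ℝ) ≤ M := by
          calc (n : ℝ) ≤ x := h2'
            _ = Real.exp u := hexp.symm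
            _ ≤ Real.exp (u + 3) := Real.exp_le_exp.2 (by linarith)
            _ ≤ M := Nat.le_ceil _
        exact_mod_cast h3
      · rw [Real.log_le_iff_le_exp (by exact_mod_cast h1), hexp]
        exact h2'
  rw [hset] at hgen
  have hx1 : 1 ≤ x := by omega
  have hrange : ∑ n ∈ range x, c n = ∑ n ∈ Icc 1 x, c n - c x := by
    have h1 : ∑ n ∈ range (x + 1), c n = ∑ n ∈ range x, c n + c x := Finset.sum_range_succ _ _
    have h2 : ∑ n ∈ range (x + 1), c n = ∑ n ∈ Icc 1 x, c n := by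
      rw [Finset.range_eq_Ico, Finset.sum_eq_sum_Ico_succ_bot (by omega)]
      have h0 : c 0 = 0 := by simp [hcdef, Lam]
      rw [h0, zero_add]
      rfl
    rw [← h2, h1]; ring
  have hcx : ‖c x‖ ≤ u := by
    refine hc x ?_
    have hmem : x ∈ (Icc 1 M).filter (fun n : ℕ => Real.log (n : ℝ) ≤ u) := by
      rw [hset, Finset.mem_Icc]; exact ⟨hx1, le_rfl⟩
    exact (Finset.mem_filter.1 hmem).1
  have hdiv : 2 / u ^ (-(A + 2)) = 2 * u ^ (A + 2) := by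
    rw [Real.rpow_neg hu0.le]; field_simp
  rw [hdiv] at hgen
  calc ‖∑ n ∈ range x, c n‖ = ‖∑ n ∈ Icc 1 x, c n - c x‖ := by rw [hrange]
    _ ≤ ‖∑ n ∈ Icc 1 x, c n‖ + ‖c x‖ := norm_sub_le _ _
    _ ≤ _ := (add_le_add hgen hcx).trans hfin
    _ = x * u ^ (-A) := by rw [hexp]

end Aux

theorem char_all (A : ℕ) : ∃ x0 : ℕ, ∀ x : ℕ, x0 ≤ x → ∀ N : ℕ, 1 ≤ N →
    (N : ℝ) ≤ (Real.log x) ^ A → ∀ χ : DirichletCharacter ℂ N, χ ≠ 1 →
    ‖∑ n ∈ range x, χ (n : ℕ) * Lam n‖ ≤ x / (Real.log x) ^ A := by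
  obtain ⟨x0, hx0⟩ := swb_sharp (max (A : ℝ) 1) (le_max_right _ _)
  refine ⟨max x0 3, fun x hx N hN hNA χ hχ => ?_⟩
  have hx3 : (3 : ℝ) ≤ x := by exact_mod_cast (le_max_right x0 3).trans hx
  have hlog : 1 ≤ Real.log x := by
    rw [Real.le_log_iff_exp_le (by linarith)]
    exact (Real.exp_one_lt_d9.le.trans (by norm_num)).trans hx3
  rw [← Real.rpow_natCast] at hNA
  have h1 : (N : ℝ) ≤ (Real.log x) ^ (max (A : ℝ) 1) :=
    hNA.trans (Real.rpow_le_rpow_of_exponent_le hlog (le_max_left _ _))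
  refine (hx0 x ((le_max_left _ _).trans hx) N hN h1 χ hχ).1.trans ?_
  rw [div_eq_mul_inv, ← Real.rpow_natCast, ← Real.rpow_neg (by linarith)]
  refine mul_le_mul_of_nonneg_left ?_ (by linarith)
  exact Real.rpow_le_rpow_of_exponent_le hlog (neg_le_neg (le_max_left _ _))

end Pool.Agent.H1.PP
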