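import Pool.Agent.H1.PP.SwB
import Pool.Agent.H1.PP.Pnt
import Pool.Agent.H10.RP.APs

/-!
# PP-21 SwC: Siegel-Walfisz for exponential sums at rationals

PROOF.  For `b` coprime to `q`: the `n` with `(n, q) > 1` contribute at most `∑_{p ∣ q} log x + ... ≤ 2 (log x)²`
(prime powers of primes dividing `q`; see `aps_noncop`).  For `(n, q) = 1`,
`e(b n/q) = (1/φ(q)) ∑_χ χ̄(n) ∑_{a mod q} χ(a) e(a b / q)`, so
`∑_{n<x, (n,q)=1} Λ(n) e(b n/q) = (1/φ(q)) ∑_χ τ_b(χ) ∑_{n<x} χ̄(n) Λ(n)` with `τ_b(χ) = ∑_a χ(a) e(ab/q)`, `|τ_b(χ)| ≤ q` (trivial bound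
suffices).  Nontrivial `χ`: at most `q x / (log x)^(2A+4)` in total by `char_all (2A+4)`-type bound (`q ≤ (log x)^A`).
Trivial `χ`: `τ_b = c_q(b) = μ(q)` (Ramanujan sum with `(b,q)=1`; see `ramanujan_zero` for non-squarefree `q`) and
`∑_{n<x,(n,q)=1} Λ(n) = x + O(x/(log x)^(2A+4)) + O((log x)²)` by `pnt_err`.
`|μ(q)/φ(q)| ≤ 1`.  For `q = 1` this is `pnt_err`.
-/

set_option autoImplicit false

open Finset

namespace Pool.Agent.H1.PP

open Pool.Agent.H10.RP (ee nd Lam)

open Pool.Agent.H10.RP (norm_ee ee_congr aps_char aps_ev aps_Lam_sum sum_ee_mod)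

theorem swc_fiber (n : ℕ) (hn : 1 ≤ n) (F : ℝ → ℂ) :
    ∑ r ∈ range n, F ((r : ℝ) / n) =
      ∑ d ∈ n.divisors, ∑ r ∈ (range d).filter (fun r => r.Coprime d), F ((r : ℝ) / d) := by
  rw [← Nat.sum_div_divisors n
    (fun d => ∑ r ∈ (range d).filter (fun r => r.Coprime d), F ((r : ℝ) / d))]
  have hmaps : ∀ r ∈ range n, Nat.gcd r n ∈ n.divisors := fun r _ =>
    Nat.mem_divisors.2 ⟨Nat.gcd_dvd_right _ _, by omega⟩
  rw [← Finset.sum_fiberwise_of_maps_to hmaps]
  refine Finset.sum_congr rfl fun d hd => ?_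
  rw [Nat.mem_divisors] at hd
  obtain ⟨⟨m, hm⟩, _⟩ := hd
  have hd0 : 0 < d := by
    rcases Nat.eq_zero_or_pos d with h | h
    · subst h; simp at hm; omega
    · exact h
  have hm0 : 0 < m := by
    rcases Nat.eq_zero_or_pos m with h | h
    · subst h; simp at hm; omega
    · exact h
  have hdiv : n / d = m := by rw [hm]; exact Nat.mul_div_cancel_left m hd0
  rw [hdiv]
  symm
  refine Finset.sum_bij (fun r _ => d * r) ?_ ?_ ?_ ?_
  · intro r hr
    rw [mem_filter, mem_range] at hr ⊢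
    refine ⟨?_, ?_⟩
    · rw [hm]; exact Nat.mul_lt_mul_of_pos_left hr.1 hd0
    · rw [hm, Nat.gcd_mul_left, hr.2, mul_one]
  · intro r _ r' _ h
    exact Nat.eq_of_mul_eq_mul_left hd0 h
  · intro r hr
    rw [mem_filter, mem_range] at hr
    obtain ⟨r', hr'⟩ : d ∣ r := by rw [← hr.2]; exact Nat.gcd_dvd_left _ _
    refine ⟨r', ?_, hr'.symm⟩
    rw [mem_filter, mem_range]
    refine ⟨?_, ?_⟩
    · have h1 := hr.1
      rw [hr', hm] at h1
      exact lt_of_mul_lt_mul_left h1 (Nat.zero_le _)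
    · have h1 := hr.2
      rw [hr', hm, Nat.gcd_mul_left] at h1
      exact Nat.eq_of_mul_eq_mul_left hd0 (by rw [h1, mul_one])
  · intro r _
    congr 1
    rw [hm]
    push_cast
    have : (d : ℝ) ≠ 0 := by exact_mod_cast hd0.ne'
    rw [mul_div_mul_left _ _ this]

theorem swc_ram (q : ℕ) (hq : 1 ≤ q) (b : ℤ) (hb : IsCoprime b (q : ℤ)) :
    ∑ r ∈ (range q).filter (fun r => r.Coprime q), ee ((b : ℝ) * r / q) =
      (ArithmeticFunction.moebius q : ℂ) := by
  set f : ℕ → ℂ := fun n => ∑ r ∈ (range n).filter (fun r => r.Coprime n), ee ((b : ℝ) * (r / n))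
    with hf
  set g : ℕ → ℂ := fun n => if (n : ℤ) ∣ b then (n : ℂ) else 0 with hg
  have h1 : ∀ n > 0, ∑ i ∈ n.divisors, f i = g n := by
    intro n hn
    have h2 := swc_fiber n hn (fun x => ee ((b : ℝ) * x))
    rw [hf, hg]
    simp only
    rw [← h2]
    rw [← sum_ee_mod n hn b]
    refine Finset.sum_congr rfl fun r _ => ?_
    congr 1
    ring
  have h2 := (ArithmeticFunction.sum_eq_iff_sum_mul_moebius_eq.mp h1) q hq
  have h3 : f q = ∑ r ∈ (range q).filter (fun r => r.Coprime q), ee ((b : ℝ) * r / q) := by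
    rw [hf]
    refine Finset.sum_congr rfl fun r _ => ?_
    rw [mul_div_assoc]
  rw [← h3, ← h2]
  rw [Finset.sum_eq_single (q, 1)]
  · simp [hg]
  · rintro ⟨d, e⟩ hde hne
    rw [Nat.mem_divisorsAntidiagonal] at hde
    simp only [hg]
    rw [if_neg, mul_zero]
    intro he
    apply hne
    have h4 : (e : ℤ) ∣ (q : ℤ) := by
      exact_mod_cast (⟨d, by rw [← hde.1]; ring⟩ : e ∣ q)
    have h5 := hb.isUnit_of_dvd' he h4
    rw [Int.isUnit_iff] at h5
    have h6 : e = 1 := by omega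
    subst h6
    have h7 : d = q := by simpa using hde.1
    rw [h7]
  · intro h
    exfalso
    apply h
    rw [Nat.mem_divisorsAntidiagonal]
    exact ⟨by simp, by omega⟩

theorem swc_noncop (x : ℕ) (hx : 2 ≤ x) (N : ℕ) (hN : 1 ≤ N) :
    ∑ n ∈ (range x).filter (fun n => ¬ n.Coprime N), ArithmeticFunction.vonMangoldt n ≤
      4 * N * (Real.log x) ^ 2 := by
  have hx0 : (0 : ℝ) < x := by exact_mod_cast (by omega : 0 < x)
  have hlog : Real.log 2 ≤ Real.log x := Real.log_le_log (by norm_num) (by exact_mod_cast hx)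
  have hlog2 : (1 : ℝ) / 2 < Real.log 2 := by
    have := Real.log_two_gt_d9
    linarith
  have hlx : 0 < Real.log x := by linarith
  set Y := (N.primeFactors ×ˢ range (Nat.log 2 x + 1)).image (fun pk : ℕ × ℕ => pk.1 ^ pk.2)
    with hY
  have h1 : ∑ n ∈ (range x).filter (fun n => ¬ n.Coprime N), ArithmeticFunction.vonMangoldt n ≤
      ∑ n ∈ Y, Real.log x := by
    have h2 : ∑ n ∈ (range x).filter (fun n => ¬ n.Coprime N), ArithmeticFunction.vonMangoldt n =
        ∑ n ∈ ((range x).filter (fun n => ¬ n.Coprime N)).filter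
          (fun n => ArithmeticFunction.vonMangoldt n ≠ 0), ArithmeticFunction.vonMangoldt n := by
      rw [Finset.sum_filter_ne_zero]
    rw [h2]
    have hsub : ((range x).filter (fun n => ¬ n.Coprime N)).filter
          (fun n => ArithmeticFunction.vonMangoldt n ≠ 0) ⊆ Y := by
      intro n hn
      rw [mem_filter, mem_filter, mem_range] at hn
      obtain ⟨⟨hnx, hnN⟩, hn0⟩ := hn
      rw [ArithmeticFunction.vonMangoldt_ne_zero_iff, isPrimePow_nat_iff] at hn0
      obtain ⟨p, k, hp, hk, rfl⟩ := hn0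
      rw [Nat.Prime.not_coprime_iff_dvd] at hnN
      obtain ⟨ℓ, hℓ, h3, h4⟩ := hnN
      have h5 : ℓ ∣ p := hℓ.dvd_of_dvd_pow h3
      rw [Nat.prime_dvd_prime_iff_eq hℓ hp] at h5
      subst h5
      rw [hY, Finset.mem_image]
      refine ⟨(ℓ, k), ?_, rfl⟩
      rw [mem_product]
      refine ⟨Nat.mem_primeFactors.2 ⟨hℓ, h4, by omega⟩, ?_⟩
      rw [mem_range]
      have h6 : 2 ^ k ≤ x := (Nat.pow_le_pow_left hℓ.two_le k).trans hnx.le
      have := Nat.le_log_of_pow_le (by norm_num) h6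
      omega
    calc ∑ n ∈ ((range x).filter (fun n => ¬ n.Coprime N)).filter
          (fun n => ArithmeticFunction.vonMangoldt n ≠ 0), ArithmeticFunction.vonMangoldt n
        ≤ ∑ n ∈ ((range x).filter (fun n => ¬ n.Coprime N)).filter
          (fun n => ArithmeticFunction.vonMangoldt n ≠ 0), Real.log x := by
          refine Finset.sum_le_sum fun n hn => ?_
          rw [mem_filter, mem_filter, mem_range] at hn
          have h3 : n ≠ 0 := by
            rintro rfl
            simp at hn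
          refine ArithmeticFunction.vonMangoldt_le_log.trans (Real.log_le_log ?_ ?_)
          · exact_mod_cast Nat.pos_of_ne_zero h3
          · exact_mod_cast hn.1.1.le
      _ ≤ ∑ n ∈ Y, Real.log x :=
          Finset.sum_le_sum_of_subset_of_nonneg hsub (fun _ _ _ => hlx.le)
  refine h1.trans ?_
  rw [Finset.sum_const, nsmul_eq_mul]
  have h2 : (Y.card : ℝ) ≤ N.primeFactors.card * ((Nat.log 2 x : ℝ) + 1) := by
    have h3 : Y.card ≤ N.primeFactors.card * (Nat.log 2 x + 1) := by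
      refine Finset.card_image_le.trans ?_
      rw [Finset.card_product, Finset.card_range]
    exact_mod_cast h3
  have h4 : (Nat.log 2 x : ℝ) * Real.log 2 ≤ Real.log x := by
    rw [← Real.log_pow]
    apply Real.log_le_log (by positivity)
    exact_mod_cast Nat.pow_log_le_self 2 (by omega)
  have h5 : (Nat.log 2 x : ℝ) + 1 ≤ 4 * Real.log x := by
    have h6 : (0 : ℝ) ≤ (Nat.log 2 x : ℝ) := Nat.cast_nonneg _
    nlinarith
  calc (Y.card : ℝ) * Real.log x ≤ (N.primeFactors.card * ((Nat.log 2 x : ℝ) + 1)) * Real.log x := by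
        gcongr
    _ ≤ (N.primeFactors.card * (4 * Real.log x)) * Real.log x := by gcongr
    _ = 4 * N.primeFactors.card * (Real.log x) ^ 2 := by ring
    _ ≤ 4 * N * (Real.log x) ^ 2 := by
        have h7 : N.primeFactors.card ≤ N := by
          have h8 : N.primeFactors ⊆ Finset.Icc 1 N := by
            intro p hp
            rw [Nat.mem_primeFactors] at hp
            rw [Finset.mem_Icc]
            exact ⟨hp.1.one_lt.le, Nat.le_of_dvd hN hp.2.1⟩
          have h9 := Finset.card_le_card h8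
          simpa using h9
        gcongr

theorem swc_split (N : ℕ) (hN : 1 ≤ N) (a : ℤ)
    (ha : IsCoprime a (N : ℤ)) (y : ℕ) (E : ℝ)
    (hE : ∀ r : ℕ, r.Coprime N →
      |∑ n ∈ (range y).filter (fun n => n % N = r % N), ArithmeticFunction.vonMangoldt n -
        (∑ n ∈ range y, ArithmeticFunction.vonMangoldt n) / N.totient| ≤ E) :
    ‖∑ n ∈ range y, Lam n * ee ((a : ℝ) * n / N) - (ArithmeticFunction.moebius N : ℂ) *
      (((∑ n ∈ range y, ArithmeticFunction.vonMangoldt n) / (N.totient : ℝ) : ℝ) : ℂ)‖ ≤ N * E +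
      ∑ n ∈ (range y).filter (fun n => ¬ n.Coprime N), ArithmeticFunction.vonMangoldt n := by
  have hE0 : 0 ≤ E := (abs_nonneg _).trans (hE 1 (Nat.coprime_one_left N))
  have hN0 : (N : ℝ) ≠ 0 := by
    have : (0 : ℝ) < N := by exact_mod_cast hN
    exact this.ne'
  set D := (∑ n ∈ range y, ArithmeticFunction.vonMangoldt n) / (N.totient : ℝ) with hD
  set S : ℕ → ℝ := fun r =>
    ∑ n ∈ (range y).filter (fun n => n % N = r % N), ArithmeticFunction.vonMangoldt n with hS
  have h1 : ∑ n ∈ range y, Lam n * ee ((a : ℝ) * n / N) =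
      ∑ n ∈ (range y).filter (fun n => n.Coprime N), Lam n * ee ((a : ℝ) * n / N) +
      ∑ n ∈ (range y).filter (fun n => ¬ n.Coprime N), Lam n * ee ((a : ℝ) * n / N) :=
    (Finset.sum_filter_add_sum_filter_not _ _ _).symm
  have h2 : ‖∑ n ∈ (range y).filter (fun n => ¬ n.Coprime N), Lam n * ee ((a : ℝ) * n / N)‖ ≤
      ∑ n ∈ (range y).filter (fun n => ¬ n.Coprime N), ArithmeticFunction.vonMangoldt n := by
    refine (norm_sum_le _ _).trans (Finset.sum_le_sum fun n _ => ?_)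
    rw [norm_mul, norm_ee, mul_one]
    unfold Lam
    rw [Complex.norm_real, Real.norm_of_nonneg ArithmeticFunction.vonMangoldt_nonneg]
  have h3 : ∑ n ∈ (range y).filter (fun n => n.Coprime N), Lam n * ee ((a : ℝ) * n / N) =
      ∑ r ∈ (range N).filter (fun r => r.Coprime N), ee ((a : ℝ) * r / N) * (S r : ℂ) := by
    have hmaps : ∀ n ∈ (range y).filter (fun n => n.Coprime N),
        n % N ∈ (range N).filter (fun r => r.Coprime N) := by
      intro n hn
      rw [mem_filter] at hn ⊢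
      refine ⟨mem_range.2 (Nat.mod_lt _ hN), ?_⟩
      have h4 : Nat.gcd (n % N) N = Nat.gcd n N := (Nat.mod_modEq n N).gcd_eq
      unfold Nat.Coprime
      rw [h4]
      exact hn.2
    rw [← Finset.sum_fiberwise_of_maps_to hmaps]
    refine Finset.sum_congr rfl fun r hr => ?_
    rw [mem_filter, mem_range] at hr
    have h5 : ((range y).filter (fun n => n.Coprime N)).filter (fun n => n % N = r) =
        (range y).filter (fun n => n % N = r % N) := by
      ext n
      rw [mem_filter, mem_filter, mem_filter, Nat.mod_eq_of_lt hr.1]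
      constructor
      · rintro ⟨⟨h6, -⟩, h7⟩
        exact ⟨h6, h7⟩
      · rintro ⟨h6, h7⟩
        refine ⟨⟨h6, ?_⟩, h7⟩
        have h4 : Nat.gcd (n % N) N = Nat.gcd n N := (Nat.mod_modEq n N).gcd_eq
        unfold Nat.Coprime
        rw [← h4, h7]
        exact hr.2
    rw [h5, hS]
    simp only
    rw [← aps_Lam_sum, Finset.mul_sum]
    refine Finset.sum_congr rfl fun n hn => ?_
    rw [mem_filter, Nat.mod_eq_of_lt hr.1] at hn
    rw [mul_comm]
    congr 1
    apply ee_congr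
    have h6 := Nat.mod_add_div n N
    rw [hn.2] at h6
    obtain ⟨t, ht⟩ : ∃ t : ℕ, t = n / N := ⟨_, rfl⟩
    rw [← ht] at h6
    refine ⟨a * (t : ℤ), ?_⟩
    rw [← h6]
    push_cast
    field_simp
    ring
  have h4 : ∑ r ∈ (range N).filter (fun r => r.Coprime N), ee ((a : ℝ) * r / N) * (S r : ℂ) =
      ∑ r ∈ (range N).filter (fun r => r.Coprime N), ee ((a : ℝ) * r / N) * ((S r - D : ℝ) : ℂ) +
      (ArithmeticFunction.moebius N : ℂ) * (D : ℂ) := by
    rw [← swc_ram N hN a ha, Finset.sum_mul, ← Finset.sum_add_distrib]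
    refine Finset.sum_congr rfl fun r _ => ?_
    push_cast
    ring
  rw [h1, h3, h4]
  have h5 : ∀ u v w : ℂ, u + v + w - v = u + w := fun u v w => by ring
  rw [h5]
  refine (norm_add_le _ _).trans (add_le_add ?_ h2)
  refine (norm_sum_le _ _).trans ?_
  have h7 : ∀ r ∈ (range N).filter (fun r => r.Coprime N),
      ‖ee ((a : ℝ) * r / N) * ((S r - D : ℝ) : ℂ)‖ ≤ E := by
    intro r hr
    rw [mem_filter] at hr
    rw [norm_mul, norm_ee, one_mul, Complex.norm_real, Real.norm_eq_abs]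
    exact hE r hr.2
  refine (Finset.sum_le_card_nsmul _ _ _ h7).trans ?_
  rw [nsmul_eq_mul]
  apply mul_le_mul_of_nonneg_right _ hE0
  have h8 : ((range N).filter (fun r => r.Coprime N)).card ≤ N := by
    refine (Finset.card_filter_le _ _).trans ?_
    rw [card_range]
  exact_mod_cast h8

theorem SW_exp (A : ℕ) : ∃ x0 : ℕ, ∀ x : ℕ, x0 ≤ x → ∀ q : ℕ, 1 ≤ q → (q : ℝ) ≤ (Real.log x) ^ A →
    ∀ b : ℤ, IsCoprime b (q : ℤ) →
    ‖∑ n ∈ range x, Lam n * ee ((b : ℝ) * n / q) -
      ((ArithmeticFunction.moebius q : ℝ) / (Nat.totient q : ℝ) : ℂ) * x‖ ≤ x / (Real.log x) ^ A := by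
  set K := 2 * A + 2 with hK
  obtain ⟨x1, hx1⟩ := char_all K
  obtain ⟨x2, hx2⟩ := pnt_err K
  obtain ⟨x3, hx3⟩ := Filter.eventually_atTop.1 (aps_ev 16 ((3 * A + 2 : ℕ) : ℝ) 1 one_pos)
  have hlogt : Filter.Tendsto (fun x : ℕ => Real.log x) Filter.atTop Filter.atTop :=
    Real.tendsto_log_atTop.comp tendsto_natCast_atTop_atTop
  obtain ⟨x4, hx4⟩ := Filter.eventually_atTop.1
    (hlogt.eventually (Filter.eventually_ge_atTop (2 : ℝ)))
  refine ⟨max (max x1 x2) (max (max x3 x4) 2), ?_⟩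
  intro x hx q hq hqA b hb
  have g1 : x1 ≤ x := (le_max_left _ _).trans ((le_max_left _ _).trans hx)
  have g2 : x2 ≤ x := (le_max_right _ _).trans ((le_max_left _ _).trans hx)
  have g3 : x3 ≤ x := (le_max_left _ _).trans ((le_max_left _ _).trans
    ((le_max_right _ _).trans hx))
  have g4 : x4 ≤ x := (le_max_right _ _).trans ((le_max_left _ _).trans
    ((le_max_right _ _).trans hx))
  have g5 : 2 ≤ x := (le_max_right _ _).trans ((le_max_right _ _).trans hx)
  set L := Real.log x with hL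
  have hL2 : 2 ≤ L := hx4 x g4
  have hL0 : 0 < L := by linarith
  have hL1 : 1 ≤ L := by linarith
  have hx0 : (0 : ℝ) < x := by exact_mod_cast (by omega : 0 < x)
  have hq1 : (1 : ℝ) ≤ q := by exact_mod_cast hq
  have hqK : (q : ℝ) ≤ L ^ K := hqA.trans (pow_le_pow_right₀ hL1 (by omega))
  set NC := ∑ n ∈ (range x).filter (fun n => ¬ n.Coprime q), ArithmeticFunction.vonMangoldt n
    with hNC
  have hNC1 : NC ≤ 4 * q * L ^ 2 := swc_noncop x g5 q hq
  have hE : ∀ r : ℕ, r.Coprime q →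
      |∑ n ∈ (range x).filter (fun n => n % q = r % q), ArithmeticFunction.vonMangoldt n -
        (∑ n ∈ range x, ArithmeticFunction.vonMangoldt n) / q.totient| ≤ NC + x / L ^ K :=
    fun r hr => aps_char q hq r hr x (x / L ^ K) (by positivity)
      (fun χ hχ => hx1 x g1 q hq hqK χ hχ)
  have h1 := swc_split q hq b hb x _ hE
  have h2 := hx2 x g2
  rw [aps_Lam_sum] at h2
  have hφ : (1 : ℝ) ≤ q.totient := by exact_mod_cast Nat.totient_pos.2 hq
  have hφC : ((q.totient : ℝ) : ℂ) ≠ 0 := by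
    have : (q.totient : ℝ) ≠ 0 := by linarith
    exact_mod_cast this
  set P := ∑ n ∈ range x, ArithmeticFunction.vonMangoldt n with hP
  have hμ : ‖((ArithmeticFunction.moebius q : ℝ) / (Nat.totient q : ℝ) : ℂ)‖ ≤ 1 := by
    rw [norm_div, Complex.norm_real, Complex.norm_real, Real.norm_eq_abs,
      Real.norm_of_nonneg (by linarith : (0 : ℝ) ≤ (q.totient : ℝ)), div_le_one (by linarith)]
    refine le_trans ?_ hφ
    have h3 : |ArithmeticFunction.moebius q| ≤ 1 := ArithmeticFunction.abs_moebius_le_one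
    exact_mod_cast h3
  have h3 : ∑ n ∈ range x, Lam n * ee ((b : ℝ) * n / q) -
      ((ArithmeticFunction.moebius q : ℝ) / (Nat.totient q : ℝ) : ℂ) * x =
      (∑ n ∈ range x, Lam n * ee ((b : ℝ) * n / q) - (ArithmeticFunction.moebius q : ℂ) *
        ((P / (q.totient : ℝ) : ℝ) : ℂ)) +
      ((ArithmeticFunction.moebius q : ℝ) / (Nat.totient q : ℝ) : ℂ) * ((P : ℂ) - x) := by
    push_cast
    ring
  rw [h3]
  refine (norm_add_le _ _).trans ?_
  have h4 : ‖((ArithmeticFunction.moebius q : ℝ) / (Nat.totient q : ℝ) : ℂ) * ((P : ℂ) - x)‖ ≤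
      x / L ^ K := by
    rw [norm_mul]
    calc _ ≤ 1 * (x / L ^ K) := mul_le_mul hμ h2 (norm_nonneg _) zero_le_one
      _ = x / L ^ K := one_mul _
  have hxK : 0 ≤ x / L ^ K := by positivity
  have hLA : 0 < L ^ A := by positivity
  have h5 : q * (NC + x / L ^ K) + NC + x / L ^ K ≤ 8 * (L ^ A) ^ 2 * L ^ 2 + 2 * L ^ A * (x / L ^ K) := by
    have e1 : q * NC ≤ q * (4 * q * L ^ 2) := mul_le_mul_of_nonneg_left hNC1 (by linarith)
    have e2 : q * (4 * q * L ^ 2) ≤ 4 * (L ^ A) ^ 2 * L ^ 2 := by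
      have e3 : (q : ℝ) ^ 2 ≤ (L ^ A) ^ 2 := pow_le_pow_left₀ (by linarith) hqA 2
      calc q * (4 * q * L ^ 2) = 4 * (q : ℝ) ^ 2 * L ^ 2 := by ring
        _ ≤ 4 * (L ^ A) ^ 2 * L ^ 2 := by gcongr
    have e4 : NC ≤ 4 * (L ^ A) ^ 2 * L ^ 2 := by
      refine hNC1.trans (le_trans ?_ e2)
      have : 0 ≤ 4 * (q : ℝ) * L ^ 2 := by positivity
      exact le_mul_of_one_le_left this hq1
    have e5 : q * (x / L ^ K) ≤ L ^ A * (x / L ^ K) := mul_le_mul_of_nonneg_right hqA hxK
    have e6 : x / L ^ K ≤ L ^ A * (x / L ^ K) :=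
      le_mul_of_one_le_left hxK (one_le_pow₀ hL1)
    linarith
  have h6 : 2 * L ^ A * (x / L ^ K) ≤ (x / L ^ A) / 2 := by
    have e1 : L ^ K = L ^ A * L ^ A * L ^ 2 := by rw [hK, ← pow_add, ← pow_add]; congr 1; ring
    rw [e1]
    have e2 : 2 * L ^ A * (x / (L ^ A * L ^ A * L ^ 2)) = (x / L ^ A) * (2 / L ^ 2) := by
      field_simp
    rw [e2]
    have e3 : 2 / L ^ 2 ≤ 1 / 2 := by
      rw [div_le_div_iff₀ (by positivity) (by norm_num)]
      nlinarith
    have e4 : 0 ≤ x / L ^ A := by positivity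
    calc (x / L ^ A) * (2 / L ^ 2) ≤ (x / L ^ A) * (1 / 2) := mul_le_mul_of_nonneg_left e3 e4
      _ = (x / L ^ A) / 2 := by ring
  have h7 : 8 * (L ^ A) ^ 2 * L ^ 2 ≤ (x / L ^ A) / 2 := by
    have e1 := hx3 x g3
    rw [Real.rpow_one, Real.rpow_natCast] at e1
    rw [div_div, le_div_iff₀ (by positivity)]
    calc 8 * (L ^ A) ^ 2 * L ^ 2 * (L ^ A * 2) = 16 * L ^ (3 * A + 2) := by
          rw [show 3 * A + 2 = A + A + A + 2 by ring, pow_add, pow_add, pow_add]
          ring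
      _ ≤ x := e1
  linarith


end Pool.Agent.H1.PP
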