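import Pool.Agent.H1.PP.Disc
import Pool.Agent.H1.PP.Sup

/-!
# PP-25 TSq: the second moment at scale `X`

PROOF.  `T = 2^s`, `L = log X`, `X` large in terms of `s`.  `f1 = Lam`, `f2 = LamR (RX X)`, `RX X = ⌊L^4000⌋`.
If `T^(100 K) < R` (or `10 K = 0`) then `bmp R m1 m2 P = 0` for all words (`Wd_upper`: entries `≤ T^(100 K)/2 < R < m - R`;
for `K = 0`, `P = 1` has `P 1 0 = 0`), the average is `0`.
Otherwise let `n'` be the least natural number with `T^(n') ≥ L^20`, so `T^(n') ≤ T L^20`; `n' ≥ 11` for `X` large, and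
`K ≥ n'` because `T^(100 n') ≤ T^100 L^2000 < X/L ≤ R ≤ T^(100 K)`.  Apply `disc` with `M = 2 X` and
* `L_disc = 3 X L`: `∑ |Λ|² ≤ L ψ(X) ≤ 2 X L` and `LamR_sq`: `X * 4 (1 + 4000 log L) + L^16000 ≤ X L`;
* `E = X / L^1800` by `sup_norm 1800 4000`;  `B = 5 X`: `|S_1| ≤ ψ(X) ≤ 2 X` (Chebyshev; `Real` bound for
  `Chebyshev.psi` in Mathlib, or `pnt_err 1`), `|S_2| ≤ |S_1| + E ≤ 3 X`;
* `A0 = L`, `hδ`: `T^(20 n') * 16 T^(45 n') / R ≤ 16 T^65 L^1300 * L/X ≤ 1`.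
Result: first term `≤ 5 L^(-20) * 9 X² L² = 45 X² L^(-18)`.  Second term
`≤ 5 T^(40 n') (32 T^(45 n') L/X + L/(2X)) * (X L^(-1800)) (5X) (3 X L) ≤ C(T) X² L^(1700 + 2 - 1800)`.
Both are at most `C X²/L^8`.
-/

set_option autoImplicit false

open Finset

namespace Pool.Agent.H1.PP

open Pool.Agent.H10.RP (ee nd Lam)

open Filter in
theorem tsq_pow (k : ℕ) (c : ℝ) : ∀ᶠ L : ℝ in atTop, c * L ^ k ≤ Real.exp L := by
  have h := (Real.tendsto_exp_div_pow_atTop k).eventually_ge_atTop c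
  filter_upwards [h, eventually_gt_atTop 0] with L h1 h2
  rwa [le_div_iff₀ (by positivity)] at h1

open Filter in
theorem tsq_log (c : ℝ) : ∀ᶠ L : ℝ in atTop, c * Real.log L ≤ L := by
  have h := (Real.isLittleO_log_id_atTop.const_mul_left c).bound (zero_lt_one)
  filter_upwards [h, eventually_gt_atTop 0] with L h1 h2
  rw [one_mul, id, Real.norm_of_nonneg h2.le] at h1
  exact (le_abs_self _).trans h1

open Filter in
theorem tsq_event (s : ℕ) : ∀ᶠ X : ℕ in atTop, 1 ≤ Real.log X ∧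
    4 * (1 + 4000 * Real.log (Real.log X)) ≤ Real.log X / 2 ∧
    2 * (Real.log X) ^ 16000 ≤ X ∧ 2 ^ (11 * s) ≤ Real.log X ∧ (Real.log X) ^ 2001 ≤ X ∧
    16 * (2 ^ s * (Real.log X) ^ 20) ^ 65 * Real.log X ≤ X := by
  have hl : Tendsto (fun X : ℕ => Real.log X) atTop atTop :=
    Real.tendsto_log_atTop.comp tendsto_natCast_atTop_atTop
  have e1 := hl.eventually (eventually_ge_atTop (1 : ℝ))
  have e2 := hl.eventually (tsq_log 64000)
  have e2' := hl.eventually (eventually_ge_atTop (16 : ℝ))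
  have e3 := hl.eventually (tsq_pow 16000 2)
  have e4 := hl.eventually (eventually_ge_atTop ((2 : ℝ) ^ (11 * s)))
  have e5 := hl.eventually (tsq_pow 2001 1)
  have e6 := hl.eventually (tsq_pow 1301 (16 * (2 ^ s) ^ 65))
  filter_upwards [e1, e2, e2', e3, e4, e5, e6, eventually_gt_atTop 0] with X h1 h2 h2' h3 h4 h5 h6 h0
  have hX : (0 : ℝ) < X := by exact_mod_cast h0
  rw [Real.exp_log hX] at h3 h5 h6
  refine ⟨h1, by linarith, h3, h4, by linarith, ?_⟩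
  calc 16 * (2 ^ s * (Real.log X) ^ 20) ^ 65 * Real.log X
      = 16 * (2 ^ s) ^ 65 * (Real.log X) ^ 1301 := by ring
    _ ≤ (X : ℝ) := h6

/-- `|Λ|²` in mean and the sup norm of the exponential sum -/
theorem tsq_lam_sq (X : ℕ) (hX : 1 ≤ X) : ∑ n ∈ Icc 1 X, ‖Lam n‖ ^ 2 ≤ 6 * X * Real.log X := by
  have h1 : ∀ n ∈ Icc 1 X, ‖Lam n‖ ^ 2 ≤ Real.log X * ArithmeticFunction.vonMangoldt n := by
    intro n hn
    rw [mem_Icc] at hn
    have e0 : 0 ≤ ArithmeticFunction.vonMangoldt n := ArithmeticFunction.vonMangoldt_nonneg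
    have e1 : ‖Lam n‖ = ArithmeticFunction.vonMangoldt n := by
      unfold Pool.Agent.H10.RP.Lam
      rw [Complex.norm_real, Real.norm_of_nonneg e0]
    have e2 : ArithmeticFunction.vonMangoldt n ≤ Real.log X := by
      refine ArithmeticFunction.vonMangoldt_le_log.trans ?_
      apply Real.log_le_log
      · exact_mod_cast (by omega : 0 < n)
      · exact_mod_cast hn.2
    rw [e1, sq]
    gcongr
  refine (sum_le_sum h1).trans ?_
  rw [← mul_sum]
  have h2 : ∑ n ∈ Icc 1 X, ArithmeticFunction.vonMangoldt n ≤ 6 * X := by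
    have h3 := Chebyshev.psi_le_const_mul_self (x := (X : ℝ)) (Nat.cast_nonneg X)
    have h4 : Chebyshev.psi (X : ℝ) = ∑ n ∈ Icc 1 X, ArithmeticFunction.vonMangoldt n := by
      rw [Chebyshev.psi_eq_sum_Icc, Nat.floor_natCast]
      symm
      apply sum_subset
      · intro n hn
        rw [mem_Icc] at hn ⊢
        omega
      · intro n hn hn'
        rw [mem_Icc] at hn hn'
        have : n = 0 := by omega
        simp [this]
    rw [← h4]
    refine h3.trans ?_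
    have h5 : Real.log 4 ≤ 2 := by
      rw [show (4 : ℝ) = 2 ^ 2 by norm_num, Real.log_pow]
      have := Real.log_two_lt_d9
      push_cast
      linarith
    have hXr : (0 : ℝ) ≤ X := Nat.cast_nonneg X
    nlinarith
  have h0 : 0 ≤ Real.log X := Real.log_natCast_nonneg X
  nlinarith

theorem tsq_ES (X : ℕ) (θ : ℝ) : ‖ES Lam X θ‖ ≤ 6 * X := by
  have h2 : ∑ n ∈ Icc 1 X, ArithmeticFunction.vonMangoldt n ≤ 6 * X := by
    have h3 := Chebyshev.psi_le_const_mul_self (x := (X : ℝ)) (Nat.cast_nonneg X)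
    have h4 : Chebyshev.psi (X : ℝ) = ∑ n ∈ Icc 1 X, ArithmeticFunction.vonMangoldt n := by
      rw [Chebyshev.psi_eq_sum_Icc, Nat.floor_natCast]
      symm
      apply sum_subset
      · intro n hn
        rw [mem_Icc] at hn ⊢
        omega
      · intro n hn hn'
        rw [mem_Icc] at hn hn'
        have : n = 0 := by omega
        simp [this]
    rw [← h4]
    refine h3.trans ?_
    have h5 : Real.log 4 ≤ 2 := by
      rw [show (4 : ℝ) = 2 ^ 2 by norm_num, Real.log_pow]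
      have := Real.log_two_lt_d9
      push_cast
      linarith
    have hXr : (0 : ℝ) ≤ X := Nat.cast_nonneg X
    nlinarith
  refine le_trans ?_ h2
  unfold ES
  refine (norm_sum_le _ _).trans (le_of_eq (sum_congr rfl fun n _ => ?_))
  rw [norm_mul, Pool.Agent.H10.RP.norm_ee, mul_one]
  unfold Pool.Agent.H10.RP.Lam
  rw [Complex.norm_real, Real.norm_of_nonneg ArithmeticFunction.vonMangoldt_nonneg]

theorem tsq_bmp (s K R : ℕ) (hs : 1 ≤ s) (m1 m2 : ℤ) (h1 : 2 * (R : ℤ) ≤ m1)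
    (hK : (2 : ℝ) ^ (10 * s * (10 * K)) ≤ R) (P : M2) (hP : P ∈ Wd s (10 * K)) : bmp R m1 m2 P = 0 := by
  have e1 : P 1 0 ≤ (2 : ℤ) ^ (10 * s * (10 * K)) := (le_mx P 1 0).trans (mx_upper s (10 * K) hs P hP)
  have e2 : (2 : ℤ) ^ (10 * s * (10 * K)) ≤ R := by exact_mod_cast hK
  have hR : 1 ≤ R := by
    have : (1 : ℤ) ≤ 2 ^ (10 * s * (10 * K)) := one_le_pow₀ (by norm_num)
    omega
  have e3 : tri R m1 (P 1 0) = 0 := by
    by_contra hne
    have := tri_ne_zero R hR m1 (P 1 0) hne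
    rw [abs_lt] at this
    omega
  unfold bmp
  rw [e3, zero_mul]


theorem TSq (s : ℕ) (hs : 50 ≤ s) : ∃ (C : ℝ) (X0 : ℕ), 0 < C ∧ ∀ X : ℕ, X0 ≤ X →
    ∀ (K R : ℕ) (m1 m2 : ℤ), X / Real.log X ≤ R → 2 * (R : ℤ) ≤ m1 → 2 * (R : ℤ) ≤ m2 →
    m1 ≤ 2 ^ (110 * s) * R → m2 ≤ 2 ^ (110 * s) * R →
    ∀ a : ℤ × ℤ, a ≠ 0 → |(a.1 : ℝ)| ≤ Real.log X → |(a.2 : ℝ)| ≤ Real.log X →
      Av s (10 * K) (fun P => bmp R m1 m2 P *
        (if |lf P a| < (X : ℤ) then
          ‖Cor Lam X (lf P a) - Cor (LamR (RX X)) X (lf P a)‖ ^ 2 else 0)) ≤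
        C * X ^ 2 / (Real.log X) ^ 8 := by
  obtain ⟨X1, hX1⟩ := sup_norm 1800 4000 (by norm_num)
  obtain ⟨X2, hX2⟩ := Filter.eventually_atTop.1 (tsq_event s)
  refine ⟨245 + 15015 * (2 ^ s) ^ 85, max (max X1 X2) 1, by positivity, ?_⟩
  intro X hX K R m1 m2 hRX h1 h2 h1' h2' a ha hA1 hA2
  have hXX1 : X1 ≤ X := (le_max_left _ _).trans ((le_max_left _ _).trans hX)
  have hXX2 : X2 ≤ X := (le_max_right _ _).trans ((le_max_left _ _).trans hX)
  have hX1' : 1 ≤ X := (le_max_right _ _).trans hX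
  obtain ⟨hL1, hc1, hc2, hc3, hc4, hc5⟩ := hX2 X hXX2
  set L := Real.log X with hL
  have hXr : (1 : ℝ) ≤ X := by exact_mod_cast hX1'
  have hX0 : (0 : ℝ) < X := by linarith
  have hL0 : 0 < L := by linarith
  have hT1 : (1 : ℝ) < 2 ^ s := one_lt_pow₀ (by norm_num) (by omega)
  have hT0 : (0 : ℝ) < 2 ^ s := by positivity
  have hRL : X ≤ R * L := by rwa [div_le_iff₀ hL0] at hRX
  have hR2000 : L ^ 2000 ≤ R := by
    refine le_trans ?_ hRX
    rw [le_div_iff₀ hL0]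
    calc L ^ 2000 * L = L ^ 2001 := by ring
      _ ≤ (X : ℝ) := hc4
  have hR1 : (1 : ℝ) ≤ R := (one_le_pow₀ hL1).trans hR2000
  have hR0 : (0 : ℝ) < R := by linarith
  have hRn : 1 ≤ R := by exact_mod_cast hR1
  have hCpos : 0 ≤ (245 + 15015 * (2 ^ s : ℝ) ^ 85) * X ^ 2 / L ^ 8 := by positivity
  -- the choice of n'
  obtain ⟨n₀, hn₀⟩ := pow_unbounded_of_one_lt (L ^ 20) hT1
  have hex : ∃ n : ℕ, L ^ 20 ≤ ((2 : ℝ) ^ s) ^ n := ⟨n₀, hn₀.le⟩
  classical
  set n' := Nat.find hex with hn'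
  have hn1 : L ^ 20 ≤ ((2 : ℝ) ^ s) ^ n' := Nat.find_spec hex
  have hn11 : 11 ≤ n' := by
    by_contra hlt
    push Not at hlt
    have e1 : ((2 : ℝ) ^ s) ^ n' ≤ ((2 : ℝ) ^ s) ^ 10 := pow_le_pow_right₀ hT1.le (by omega)
    have e2 : ((2 : ℝ) ^ s) ^ 10 < L := by
      refine lt_of_lt_of_le ?_ hc3
      rw [← pow_mul]
      exact pow_lt_pow_right₀ (by norm_num) (by omega)
    have e3 : L ≤ L ^ 20 := le_self_pow₀ hL1 (by norm_num)
    linarith
  have hn2 : ((2 : ℝ) ^ s) ^ (n' - 1) < L ^ 20 := by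
    have := Nat.find_min hex (m := n' - 1) (by omega)
    push Not at this
    exact this
  have hn3 : ((2 : ℝ) ^ s) ^ n' ≤ 2 ^ s * L ^ 20 := by
    have e1 : n' = (n' - 1) + 1 := by omega
    calc ((2 : ℝ) ^ s) ^ n' = ((2 : ℝ) ^ s) ^ (n' - 1) * 2 ^ s := by
          conv_lhs => rw [e1, pow_succ]
      _ ≤ L ^ 20 * 2 ^ s := by gcongr
      _ = _ := mul_comm _ _
  -- case of short words
  rcases Nat.lt_or_ge K n' with hK | hK
  · have hb : ∀ P ∈ Wd s (10 * K), bmp R m1 m2 P = 0 := by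
      intro P hP
      refine tsq_bmp s K R (by omega) m1 m2 h1 ?_ P hP
      calc (2 : ℝ) ^ (10 * s * (10 * K)) = (((2 : ℝ) ^ s) ^ K) ^ 100 := by ring
        _ ≤ (((2 : ℝ) ^ s) ^ (n' - 1)) ^ 100 := by
            gcongr
            · exact hT1.le
            · omega
        _ ≤ (L ^ 20) ^ 100 := by gcongr
        _ = L ^ 2000 := by ring
        _ ≤ (R : ℝ) := hR2000
    have e0 : Av s (10 * K) (fun P => bmp R m1 m2 P *
        (if |lf P a| < (X : ℤ) then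
          ‖Cor Lam X (lf P a) - Cor (LamR (RX X)) X (lf P a)‖ ^ 2 else 0)) =
        Av s (10 * K) (fun _ => (0 : ℝ)) := Av_congr _ _ _ _ fun P hP => by rw [hb P hP, zero_mul]
    rw [e0, Av_const s (10 * K) hs]
    exact hCpos
  · -- long words
    have hRXle : ((RX X : ℕ) : ℝ) ≤ L ^ 4000 := Nat.floor_le (by positivity)
    have hRX1 : 1 ≤ RX X := by
      apply Nat.le_floor
      push_cast
      exact one_le_pow₀ hL1
    have hRX0 : (0 : ℝ) < (RX X : ℕ) := by exact_mod_cast hRX1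
    have hlogR : Real.log (RX X) ≤ 4000 * Real.log L := by
      calc Real.log (RX X) ≤ Real.log (L ^ 4000) := Real.log_le_log hRX0 hRXle
        _ = _ := by rw [Real.log_pow]; push_cast; ring
    have hsq : ∑ n ∈ Icc 1 X, (‖Lam n‖ ^ 2 + ‖LamR (RX X) n‖ ^ 2) ≤ 7 * X * L := by
      rw [sum_add_distrib]
      have e1 := tsq_lam_sq X hX1'
      have e2 := LamR_sq (RX X) X hRX1 hX1'
      have e3 : ((RX X : ℕ) : ℝ) ^ 4 ≤ X * (L / 2) := by
        calc ((RX X : ℕ) : ℝ) ^ 4 ≤ (L ^ 4000) ^ 4 := by gcongr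
          _ = L ^ 16000 := by ring
          _ ≤ X / 2 := by linarith
          _ ≤ X * (L / 2) := by nlinarith
      have e4 : (X : ℝ) * (4 * (1 + Real.log (RX X))) ≤ X * (L / 2) := by
        apply mul_le_mul_of_nonneg_left _ hX0.le
        linarith
      calc ∑ n ∈ Icc 1 X, ‖Lam n‖ ^ 2 + ∑ n ∈ Icc 1 X, ‖LamR (RX X) n‖ ^ 2
          ≤ 6 * X * L + (X * (4 * (1 + Real.log (RX X))) + ((RX X : ℕ) : ℝ) ^ 4) := add_le_add e1 e2
        _ ≤ 6 * X * L + (X * (L / 2) + X * (L / 2)) := by gcongr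
        _ = 7 * X * L := by ring
    have hE : ∀ θ, ‖ES Lam X θ - ES (LamR (RX X)) X θ‖ ≤ X / L ^ 1800 := hX1 X hXX1
    have hE1 : (X : ℝ) / L ^ 1800 ≤ X := div_le_self hX0.le (one_le_pow₀ hL1)
    have hB : ∀ θ, ‖ES Lam X θ‖ + ‖ES (LamR (RX X)) X θ‖ ≤ 13 * X := by
      intro θ
      have e1 := tsq_ES X θ
      have e2 : ‖ES (LamR (RX X)) X θ‖ ≤ ‖ES Lam X θ‖ + X / L ^ 1800 := by
        have e3 : ES (LamR (RX X)) X θ = ES Lam X θ - (ES Lam X θ - ES (LamR (RX X)) X θ) := by ring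
        calc ‖ES (LamR (RX X)) X θ‖ = ‖ES Lam X θ - (ES Lam X θ - ES (LamR (RX X)) X θ)‖ := by
              rw [← e3]
          _ ≤ ‖ES Lam X θ‖ + ‖ES Lam X θ - ES (LamR (RX X)) X θ‖ := norm_sub_le _ _
          _ ≤ _ := by gcongr; exact hE θ
      linarith
    have hT65 : ((2 : ℝ) ^ s) ^ (65 * n') ≤ (2 ^ s * L ^ 20) ^ 65 := by
      rw [mul_comm 65 n', pow_mul]
      gcongr
    have hδ : (2 : ℝ) ^ (20 * s * n') * (16 * 2 ^ (45 * s * n') / R) ≤ 1 := by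
      rw [mul_div_assoc', div_le_one hR0]
      calc (2 : ℝ) ^ (20 * s * n') * (16 * 2 ^ (45 * s * n')) = 16 * ((2 : ℝ) ^ s) ^ (65 * n') := by
            ring
        _ ≤ 16 * (2 ^ s * L ^ 20) ^ 65 := by gcongr
        _ ≤ (X : ℝ) / L := by
            rw [le_div_iff₀ hL0]
            exact hc5
        _ ≤ (R : ℝ) := hRX
    have hd := disc s hs R hRn m1 m2 h1 h2 h1' h2' n' K hn11 hK X (2 * X) hX1' le_rfl Lam
      (LamR (RX X)) (7 * X * L) (X / L ^ 1800) (13 * X) L hsq hE hB a ha hA1 hA2 hδ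
    refine hd.trans ?_
    have hpow : (2 : ℝ) ^ (s * n') = ((2 : ℝ) ^ s) ^ n' := by rw [pow_mul]
    have t1 : 5 / 2 ^ (s * n') * (7 * X * L) ^ 2 ≤ 245 * X ^ 2 / L ^ 8 := by
      rw [hpow]
      calc 5 / ((2 : ℝ) ^ s) ^ n' * (7 * X * L) ^ 2 ≤ 5 / L ^ 20 * (7 * X * L) ^ 2 := by gcongr
        _ = 245 * X ^ 2 / L ^ 18 := by field_simp; ring
        _ ≤ 245 * X ^ 2 / L ^ 8 := by
            apply div_le_div_of_nonneg_left (by positivity) (by positivity)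
            exact pow_le_pow_right₀ hL1 (by norm_num)
    have t2 : 5 * ((2 : ℝ) ^ (20 * s * n')) ^ 2 * (32 * 2 ^ (45 * s * n') / R + L / ((2 * X : ℕ) : ℝ)) *
        (X / L ^ 1800 * (13 * X) * (7 * X * L)) ≤ 15015 * (2 ^ s) ^ 85 * X ^ 2 / L ^ 8 := by
      have u1 : 1 / (R : ℝ) ≤ L / X := by
        rw [div_le_div_iff₀ hR0 hX0]
        linarith
      have u2 : (1 : ℝ) ≤ 2 ^ (45 * s * n') := one_le_pow₀ (by norm_num)
      have u3 : 32 * 2 ^ (45 * s * n') / R + L / ((2 * X : ℕ) : ℝ) ≤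
          33 * 2 ^ (45 * s * n') * (L / X) := by
        have v1 : 32 * 2 ^ (45 * s * n') / (R : ℝ) = 32 * 2 ^ (45 * s * n') * (1 / R) := by ring
        have v2 : L / ((2 * X : ℕ) : ℝ) ≤ 1 * (L / X) := by
          rw [one_mul]
          apply div_le_div_of_nonneg_left hL0.le hX0
          push_cast
          linarith
        have v3 : 0 ≤ L / (X : ℝ) := by positivity
        calc 32 * 2 ^ (45 * s * n') / (R : ℝ) + L / ((2 * X : ℕ) : ℝ)
            ≤ 32 * 2 ^ (45 * s * n') * (L / X) + 1 * (L / X) := by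
              rw [v1]; gcongr
          _ ≤ 32 * 2 ^ (45 * s * n') * (L / X) + 2 ^ (45 * s * n') * (L / X) := by gcongr
          _ = _ := by ring
      have u4 : ((2 : ℝ) ^ s) ^ (85 * n') ≤ (2 ^ s) ^ 85 * L ^ 1700 := by
        calc ((2 : ℝ) ^ s) ^ (85 * n') = (((2 : ℝ) ^ s) ^ n') ^ 85 := by rw [mul_comm 85 n', pow_mul]
          _ ≤ (2 ^ s * L ^ 20) ^ 85 := by gcongr
          _ = _ := by rw [mul_pow, ← pow_mul L 20 85]
      calc 5 * ((2 : ℝ) ^ (20 * s * n')) ^ 2 * (32 * 2 ^ (45 * s * n') / R + L / ((2 * X : ℕ) : ℝ)) *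
            (X / L ^ 1800 * (13 * X) * (7 * X * L))
          ≤ 5 * ((2 : ℝ) ^ (20 * s * n')) ^ 2 * (33 * 2 ^ (45 * s * n') * (L / X)) *
            (X / L ^ 1800 * (13 * X) * (7 * X * L)) := by gcongr
        _ = 15015 * ((2 : ℝ) ^ s) ^ (85 * n') * X ^ 2 * (L ^ 2 / L ^ 1800) := by
            have w : ((2 : ℝ) ^ (20 * s * n')) ^ 2 * 2 ^ (45 * s * n') = ((2 : ℝ) ^ s) ^ (85 * n') := by
              ring
            rw [← w]
            field_simp
            ring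
        _ ≤ 15015 * ((2 ^ s) ^ 85 * L ^ 1700) * X ^ 2 * (L ^ 2 / L ^ 1800) := by gcongr
        _ = 15015 * (2 ^ s) ^ 85 * X ^ 2 / L ^ 98 := by
            have w : L ^ 1700 * (L ^ 2 / L ^ 1800) = 1 / L ^ 98 := by
              rw [mul_div_assoc', div_eq_div_iff (by positivity) (by positivity)]
              ring
            calc 15015 * ((2 ^ s : ℝ) ^ 85 * L ^ 1700) * X ^ 2 * (L ^ 2 / L ^ 1800)
                = 15015 * (2 ^ s) ^ 85 * X ^ 2 * (L ^ 1700 * (L ^ 2 / L ^ 1800)) := by ring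
              _ = _ := by rw [w]; ring
        _ ≤ 15015 * (2 ^ s) ^ 85 * X ^ 2 / L ^ 8 := by
            apply div_le_div_of_nonneg_left (by positivity) (by positivity)
            exact pow_le_pow_right₀ hL1 (by norm_num)
    calc _ ≤ 245 * X ^ 2 / L ^ 8 + 15015 * (2 ^ s) ^ 85 * X ^ 2 / L ^ 8 := add_le_add t1 t2
      _ = _ := by ring

end Pool.Agent.H1.PP
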