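import Pool.Agent.H1.PP.HSc
import Pool.Agent.H90.PNT
import Pool.Agent.H10.RP.Sine

/-!
# PP-41 Wr: from the symmetric count to one-sided differences of the sequence

`p_n = Nat.nth Nat.Prime (n-1)`, `x_n = {p_n α}`, `δ = t/N < 1/2`, `X = p_N`.

PROOF.  For a real `y` let `r(y) = y - round y ∈ [-1/2, 1/2]`.  `α` is irrational, so `r(h α) ≠ 0, ±1/2` for integers `h ≠ 0`.
(1) Ordered pairs `(m, n)`, `m ≠ n` in `[1, N]`, with `0 < r((p_m - p_n) α) < δ`: there are exactly `V α (p_N) δ`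
of them.  Indeed a pair counted by `V` is `(h, n')` with `n', n' + h ≤ p_N` primes, `|r(h α)| < δ`; if `r(h α) > 0` it
corresponds to `(m, n)` with `p_m = n' + h`, `p_n = n'`, and if `r(h α) < 0` to the reversed pair.
(2) If `x_m - x_n ∈ (0, δ)` then `r((p_m - p_n) α) = x_m - x_n`.  Conversely if `r = r((p_m - p_n) α) ∈ (0, δ)` then
`x_m - x_n ∈ {r, r - 1}`, and in the second case `x_m < δ`, `x_n > 1 - δ`.  The number of such pairs is at most
`#{m ≤ N : nd (p_m α) < δ}² ≤ (card (HS α (p_N + 1) δ))² ≤ C² (δ (p_N + 1) + 1)²` (`HS_card`).  Since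
`p_N = O(N log N)` (prime number theorem or Chebyshev), this is `O((log N)²) = o(N)`.
-/

set_option autoImplicit false

open Finset

namespace Pool.Agent.H1.PP

open Pool.Agent.H10.RP (ee nd Lam)

/-- number of pairs with `0 < N (x_m - x_n) < t` -/
noncomputable def PC (x : ℕ → ℝ) (N : ℕ) (t : ℝ) : ℝ :=
  (((Icc 1 N ×ˢ Icc 1 N).filter (fun p : ℕ × ℕ => p.1 ≠ p.2 ∧ 0 < (N : ℝ) * (x p.1 - x p.2) ∧
    (N : ℝ) * (x p.1 - x p.2) < t)).card : ℝ)

/-- signed distance to the nearest integer -/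
noncomputable def wrR (y : ℝ) : ℝ := y - round y

theorem wrR_abs (y : ℝ) : |wrR y| = nd y := rfl

theorem wrR_of (k : ℤ) (d : ℝ) (h1 : -(1 / 2) ≤ d) (h2 : d < 1 / 2) : wrR (k + d) = d := by
  unfold wrR
  have h : round d = 0 := round_eq_zero_iff.2 ⟨h1, h2⟩
  rw [round_intCast_add, h]
  push_cast
  ring

theorem wrR_neg (y δ : ℝ) (hδ : δ < 1 / 2) (h : |wrR y| < δ) : wrR (-y) = -wrR y := by
  rw [abs_lt] at h
  have h1 : -y = ((-round y : ℤ) : ℝ) + (-wrR y) := by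
    unfold wrR
    push_cast
    ring
  have h2 := wrR_of (-round y) (-wrR y) (by linarith [h.2]) (by linarith [h.1])
  rw [h1, h2]

theorem wrR_ne (α : ℝ) (hα : Irrational α) (p q : ℕ) (hpq : p ≠ q) :
    wrR (((p : ℝ) - q) * α) ≠ 0 := by
  intro h
  unfold wrR at h
  have h1 : ((p : ℝ) - q) ≠ 0 := by
    rw [sub_ne_zero]
    exact_mod_cast hpq
  apply hα
  refine ⟨(round (((p : ℝ) - q) * α) : ℚ) / ((p : ℚ) - q), ?_⟩
  push_cast
  rw [div_eq_iff h1, mul_comm α]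
  linarith

/-- primes up to `X` -/
def wrP (X : ℕ) : Finset ℕ := (Icc 1 X).filter Nat.Prime

/-- difference of the fractional parts -/
noncomputable def wrd (α : ℝ) (a : ℕ × ℕ) : ℝ := Int.fract ((a.1 : ℝ) * α) - Int.fract ((a.2 : ℝ) * α)

noncomputable def wrZ (α : ℝ) (X : ℕ) (δ : ℝ) : Finset (ℕ × ℕ) :=
  (wrP X ×ˢ wrP X).filter (fun a => 0 < wrd α a ∧ wrd α a < δ)

noncomputable def wrS (α : ℝ) (X : ℕ) (δ : ℝ) : Finset (ℕ × ℕ) :=
  (wrP X ×ˢ wrP X).filter (fun a => 0 < wrR (((a.1 : ℝ) - a.2) * α) ∧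
    wrR (((a.1 : ℝ) - a.2) * α) < δ)

noncomputable def wrU (α : ℝ) (X : ℕ) (δ : ℝ) : Finset (ℕ × ℕ) :=
  (wrP X ×ˢ wrP X).filter (fun a => a.2 < a.1 ∧ nd (((a.1 : ℝ) - a.2) * α) < δ)

noncomputable def wrB (α : ℝ) (X : ℕ) (δ : ℝ) : Finset ℕ :=
  (wrP X).filter (fun p => nd ((p : ℝ) * α) < δ)

theorem wr_split (α : ℝ) (a : ℕ × ℕ) : ((a.1 : ℝ) - a.2) * α =
    ((⌊(a.1 : ℝ) * α⌋ - ⌊(a.2 : ℝ) * α⌋ : ℤ) : ℝ) + wrd α a := by
  unfold wrd Int.fract
  push_cast
  ring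

theorem wrZ_sub (α : ℝ) (X : ℕ) (δ : ℝ) (hδ : δ < 1 / 2) : wrZ α X δ ⊆ wrS α X δ := by
  intro a ha
  rw [wrZ, Finset.mem_filter] at ha
  rw [wrS, Finset.mem_filter, wr_split, wrR_of _ _ (by linarith [ha.2.1]) (by linarith [ha.2.2])]
  exact ha

theorem wrS_sub (α : ℝ) (X : ℕ) (δ : ℝ) (hδ : δ < 1 / 2) :
    wrS α X δ ⊆ wrZ α X δ ∪ (wrB α X δ ×ˢ wrB α X δ) := by
  intro a ha
  rw [wrS, Finset.mem_filter, Finset.mem_product] at ha
  obtain ⟨⟨hp, hq⟩, h1, h2⟩ := ha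
  set y := ((a.1 : ℝ) - a.2) * α with hy
  have hsp := wr_split α a
  have f1 := Int.fract_nonneg ((a.1 : ℝ) * α)
  have f2 := Int.fract_lt_one ((a.1 : ℝ) * α)
  have f3 := Int.fract_nonneg ((a.2 : ℝ) * α)
  have f4 := Int.fract_lt_one ((a.2 : ℝ) * α)
  -- `wrd - wrR` is an integer
  obtain ⟨k, hk⟩ : ∃ k : ℤ, wrd α a - wrR y = k := by
    refine ⟨round y - (⌊(a.1 : ℝ) * α⌋ - ⌊(a.2 : ℝ) * α⌋), ?_⟩
    unfold wrR
    rw [hy, hsp]
    push_cast
    ring
  have hk1 : (-2 : ℝ) < k := by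
    rw [← hk]
    unfold wrd
    linarith
  have hk2 : (k : ℝ) < 1 := by
    rw [← hk]
    unfold wrd
    linarith
  have hk1' : (-2 : ℤ) < k := by exact_mod_cast hk1
  have hk2' : k < 1 := by exact_mod_cast hk2
  rw [Finset.mem_union]
  rcases (by omega : k = 0 ∨ k = -1) with h0 | h0
  · left
    rw [h0, Int.cast_zero, sub_eq_zero] at hk
    rw [wrZ, Finset.mem_filter, Finset.mem_product, hk]
    exact ⟨⟨hp, hq⟩, h1, h2⟩
  · right
    rw [h0] at hk
    push_cast at hk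
    have g1 : Int.fract ((a.1 : ℝ) * α) < δ := by
      unfold wrd at hk
      linarith
    have g2 : 1 - Int.fract ((a.2 : ℝ) * α) < δ := by
      unfold wrd at hk
      linarith
    rw [Finset.mem_product, wrB, Finset.mem_filter, Finset.mem_filter]
    refine ⟨⟨hp, ?_⟩, hq, ?_⟩
    · refine lt_of_le_of_lt (Pool.Agent.H10.RP.nd_le _ ⌊(a.1 : ℝ) * α⌋) ?_
      have : (a.1 : ℝ) * α - ⌊(a.1 : ℝ) * α⌋ = Int.fract ((a.1 : ℝ) * α) := rfl
      rw [this, abs_of_nonneg f1]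
      exact g1
    · refine lt_of_le_of_lt (Pool.Agent.H10.RP.nd_le _ (⌊(a.2 : ℝ) * α⌋ + 1)) ?_
      have : (a.2 : ℝ) * α - ((⌊(a.2 : ℝ) * α⌋ + 1 : ℤ) : ℝ) =
          Int.fract ((a.2 : ℝ) * α) - 1 := by
        unfold Int.fract
        push_cast
        ring
      rw [this, abs_of_nonpos (by linarith)]
      linarith

theorem wr_card_SU (α : ℝ) (hα : Irrational α) (X : ℕ) (δ : ℝ) (hδ : δ < 1 / 2) :
    (wrS α X δ).card = (wrU α X δ).card := by
  have e1 := Finset.card_filter_add_card_filter_not (s := wrS α X δ) (fun a => a.2 < a.1)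
  have e2 := Finset.card_filter_add_card_filter_not (s := wrU α X δ)
    (fun a => 0 < wrR (((a.1 : ℝ) - a.2) * α))
  have e3 : (wrS α X δ).filter (fun a => a.2 < a.1) =
      (wrU α X δ).filter (fun a => 0 < wrR (((a.1 : ℝ) - a.2) * α)) := by
    ext a
    rw [Finset.mem_filter, Finset.mem_filter, wrS, wrU, Finset.mem_filter, Finset.mem_filter,
      ← wrR_abs]
    constructor
    · rintro ⟨⟨h1, h2, h3⟩, h4⟩
      refine ⟨⟨h1, h4, ?_⟩, h2⟩
      rw [abs_of_pos h2]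
      exact h3
    · rintro ⟨⟨h1, h2, h3⟩, h4⟩
      rw [abs_of_pos h4] at h3
      exact ⟨⟨h1, h4, h3⟩, h2⟩
  have e4 : ((wrS α X δ).filter (fun a => ¬ a.2 < a.1)).card =
      ((wrU α X δ).filter (fun a => ¬ 0 < wrR (((a.1 : ℝ) - a.2) * α))).card := by
    apply Finset.card_nbij' Prod.swap Prod.swap
    · intro a ha
      rw [Finset.mem_coe, Finset.mem_filter, wrS, Finset.mem_filter, Finset.mem_product] at ha
      obtain ⟨⟨⟨hp, hq⟩, h2, h3⟩, h4⟩ := ha
      have hne : a.1 ≠ a.2 := by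
        intro h
        rw [h, sub_self, zero_mul] at h2
        unfold wrR at h2
        simp at h2
      have hy : ((a.2 : ℝ) - a.1) * α = -(((a.1 : ℝ) - a.2) * α) := by ring
      have habs : |wrR (((a.1 : ℝ) - a.2) * α)| < δ := by
        rw [abs_of_pos h2]
        exact h3
      have hneg := wrR_neg _ δ hδ habs
      rw [Finset.mem_coe, Finset.mem_filter, wrU, Finset.mem_filter, Finset.mem_product]
      simp only [Prod.fst_swap, Prod.snd_swap]
      rw [hy, ← wrR_abs, hneg, abs_neg]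
      refine ⟨⟨⟨hq, hp⟩, by omega, habs⟩, by linarith⟩
    · intro a ha
      rw [Finset.mem_coe, Finset.mem_filter, wrU, Finset.mem_filter, Finset.mem_product] at ha
      obtain ⟨⟨⟨hp, hq⟩, h2, h3⟩, h4⟩ := ha
      have hy : ((a.2 : ℝ) - a.1) * α = -(((a.1 : ℝ) - a.2) * α) := by ring
      have hneg := wrR_neg _ δ hδ h3
      have hne := wrR_ne α hα a.1 a.2 (by omega)
      have h5 : wrR (((a.1 : ℝ) - a.2) * α) < 0 := lt_of_le_of_ne (not_lt.1 h4) hne
      rw [← wrR_abs, abs_of_neg h5] at h3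
      rw [Finset.mem_coe, Finset.mem_filter, wrS, Finset.mem_filter, Finset.mem_product]
      simp only [Prod.fst_swap, Prod.snd_swap]
      rw [hy, hneg]
      refine ⟨⟨⟨hq, hp⟩, by linarith, h3⟩, by omega⟩
    · intro a _
      exact Prod.swap_swap a
    · intro a _
      exact Prod.swap_swap a
  rw [← e1, ← e2, e3, e4]

theorem wr_V (α : ℝ) (X : ℕ) (δ : ℝ) : V α X δ = ((wrU α X δ).card : ℝ) := by
  have hmaps : ((wrU α X δ : Finset (ℕ × ℕ)) : Set (ℕ × ℕ)).MapsTo (fun a => a.1 - a.2)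
      (HS α X δ : Finset ℕ) := by
    intro a ha
    rw [Finset.mem_coe, wrU, Finset.mem_filter, Finset.mem_product, wrP, Finset.mem_filter,
      Finset.mem_filter, Finset.mem_Icc, Finset.mem_Icc] at ha
    obtain ⟨⟨⟨⟨hp1, hp2⟩, -⟩, ⟨hq1, hq2⟩, -⟩, h2, h3⟩ := ha
    have hgoal : a.1 - a.2 ∈ HS α X δ := by
      rw [HS, Finset.mem_filter, Finset.mem_Ico, Nat.cast_sub h2.le]
      exact ⟨by omega, h3⟩
    exact hgoal
  rw [Finset.card_eq_sum_card_fiberwise hmaps, V]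
  push_cast
  apply Finset.sum_congr rfl
  intro h hh
  rw [HS, Finset.mem_filter, Finset.mem_Ico] at hh
  obtain ⟨⟨hh1, hh2⟩, hh3⟩ := hh
  congr 1
  apply Finset.card_nbij' (fun n => (n + h, n)) (fun a => a.2)
  · intro n hn
    rw [Finset.mem_coe, Finset.mem_filter, Finset.mem_Icc] at hn
    obtain ⟨⟨hn1, hn2⟩, hn3, hn4⟩ := hn
    have e : (((n + h : ℕ) : ℝ) - (n : ℝ)) * α = (h : ℝ) * α := by
      push_cast
      ring
    have hgoal : (n + h, n) ∈ (wrU α X δ).filter (fun a => a.1 - a.2 = h) := by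
      rw [Finset.mem_filter, wrU, Finset.mem_filter, Finset.mem_product, wrP,
        Finset.mem_filter, Finset.mem_filter, Finset.mem_Icc, Finset.mem_Icc]
      have g1 : 1 ≤ n + h := by omega
      have g2 : n + h ≤ X := by omega
      have g3 : n ≤ X := by omega
      have g4 : n < n + h := by omega
      have g5 : n + h - n = h := by omega
      refine ⟨⟨⟨⟨⟨g1, g2⟩, hn4⟩, ⟨hn1, g3⟩, hn3⟩, g4, ?_⟩, g5⟩
      change nd ((((n + h : ℕ) : ℝ) - (n : ℝ)) * α) < δ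
      rw [e]
      exact hh3
    exact hgoal
  · intro a ha
    rw [Finset.mem_coe, Finset.mem_filter, wrU, Finset.mem_filter, Finset.mem_product, wrP,
      Finset.mem_filter, Finset.mem_filter, Finset.mem_Icc, Finset.mem_Icc] at ha
    obtain ⟨⟨⟨⟨⟨hp1, hp2⟩, hp3⟩, ⟨hq1, hq2⟩, hq3⟩, h2, h3⟩, h4⟩ := ha
    have e : a.2 + h = a.1 := by omega
    have hgoal : a.2 ∈ (Icc 1 (X - h)).filter (fun n => n.Prime ∧ (n + h).Prime) := by
      rw [Finset.mem_filter, Finset.mem_Icc]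
      refine ⟨⟨hq1, by omega⟩, hq3, ?_⟩
      rw [e]
      exact hp3
    exact hgoal
  · intro n _
    rfl
  · intro a ha
    rw [Finset.mem_coe, Finset.mem_filter, wrU, Finset.mem_filter] at ha
    obtain ⟨⟨-, h2, -⟩, h4⟩ := ha
    apply Prod.ext
    · change a.2 + h = a.1
      omega
    · rfl

theorem wr_primes (N : ℕ) (hN : 1 ≤ N) (p : ℕ) : p ∈ wrP (Nat.nth Nat.Prime (N - 1)) ↔
    ∃ m ∈ Icc 1 N, Nat.nth Nat.Prime (m - 1) = p := by
  have hinf := Nat.infinite_setOfPred_prime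
  rw [wrP, Finset.mem_filter, Finset.mem_Icc]
  constructor
  · rintro ⟨⟨h1, h2⟩, h3⟩
    refine ⟨Nat.count Nat.Prime p + 1, ?_, ?_⟩
    · rw [Finset.mem_Icc]
      have h4 : Nat.count Nat.Prime p ≤ Nat.count Nat.Prime (Nat.nth Nat.Prime (N - 1)) :=
        Nat.count_monotone _ h2
      rw [Nat.count_nth_of_infinite hinf] at h4
      omega
    · rw [Nat.add_sub_cancel]
      exact Nat.nth_count h3
  · rintro ⟨m, hm, rfl⟩
    rw [Finset.mem_Icc] at hm
    have h1 := Nat.prime_nth_prime (m - 1)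
    refine ⟨⟨h1.one_lt.le, ?_⟩, h1⟩
    exact (Nat.nth_strictMono hinf).monotone (by omega)

theorem wr_PC (α : ℝ) (N : ℕ) (hN : 1 ≤ N) (t : ℝ) :
    PC (xs α) N t = ((wrZ α (Nat.nth Nat.Prime (N - 1)) (t / N)).card : ℝ) := by
  have hinf := Nat.infinite_setOfPred_prime
  have hN0 : (0 : ℝ) < N := by exact_mod_cast hN
  unfold PC
  congr 1
  apply Finset.card_nbij (fun a => (Nat.nth Nat.Prime (a.1 - 1), Nat.nth Nat.Prime (a.2 - 1)))
  · intro a ha
    rw [Finset.mem_coe, Finset.mem_filter, Finset.mem_product] at ha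
    obtain ⟨⟨h1, h2⟩, h3, h4, h5⟩ := ha
    rw [Finset.mem_coe, wrZ, Finset.mem_filter, Finset.mem_product]
    refine ⟨⟨(wr_primes N hN _).2 ⟨a.1, h1, rfl⟩, (wr_primes N hN _).2 ⟨a.2, h2, rfl⟩⟩, ?_, ?_⟩
    · change 0 < xs α a.1 - xs α a.2
      exact (mul_pos_iff_of_pos_left hN0).1 h4
    · change xs α a.1 - xs α a.2 < t / N
      rw [lt_div_iff₀ hN0, mul_comm]
      exact h5
  · intro a ha b hb hab
    rw [Finset.mem_coe, Finset.mem_filter, Finset.mem_product, Finset.mem_Icc, Finset.mem_Icc]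
      at ha hb
    have hinj := (Nat.nth_strictMono hinf).injective
    have h1 := hinj (congrArg Prod.fst hab)
    have h2 := hinj (congrArg Prod.snd hab)
    apply Prod.ext
    · omega
    · omega
  · intro b hb
    rw [Finset.mem_coe, wrZ, Finset.mem_filter, Finset.mem_product] at hb
    obtain ⟨⟨h1, h2⟩, h4, h5⟩ := hb
    obtain ⟨m, hm, hm'⟩ := (wr_primes N hN _).1 h1
    obtain ⟨n, hn, hn'⟩ := (wr_primes N hN _).1 h2
    have hd : wrd α b = xs α m - xs α n := by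
      unfold wrd xs
      rw [hm', hn']
    rw [hd] at h4 h5
    refine ⟨(m, n), ?_, Prod.ext hm' hn'⟩
    rw [Finset.mem_coe, Finset.mem_filter, Finset.mem_product]
    refine ⟨⟨hm, hn⟩, ?_, mul_pos hN0 h4, ?_⟩
    · intro h
      change m = n at h
      rw [h, sub_self] at h4
      exact lt_irrefl _ h4
    · rw [lt_div_iff₀ hN0, mul_comm] at h5
      exact h5

theorem wr_bound (α : ℝ) (hα : BadlyApprox α) : ∃ C : ℝ, 0 < C ∧ ∀ (N : ℕ) (t : ℝ), 1 ≤ N →
    0 < t → t / N < 1 / 2 → |PC (xs α) N t - V α (Nat.nth Nat.Prime (N - 1)) (t / N)| ≤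
      (C * (t / N * (Nat.nth Nat.Prime (N - 1) + 1) + 1)) ^ 2 := by
  obtain ⟨C, hC, hHS⟩ := HS_card α hα
  refine ⟨C, hC, fun N t hN ht hδ => ?_⟩
  have hN0 : (0 : ℝ) < N := by exact_mod_cast hN
  set X := Nat.nth Nat.Prime (N - 1) with hX
  set δ := t / N with hδd
  have hδ0 : 0 < δ := by positivity
  rw [wr_PC α N hN t, wr_V, ← wr_card_SU α hα.1 X δ hδ]
  have h1 : (wrZ α X δ).card ≤ (wrS α X δ).card := Finset.card_le_card (wrZ_sub α X δ hδ)
  have h2 : (wrS α X δ).card ≤ (wrZ α X δ).card + (wrB α X δ).card * (wrB α X δ).card := by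
    refine (Finset.card_le_card (wrS_sub α X δ hδ)).trans ?_
    refine (Finset.card_union_le _ _).trans ?_
    rw [Finset.card_product]
  have h3 : (wrB α X δ).card ≤ (HS α (X + 1) δ).card := by
    apply Finset.card_le_card
    intro p hp
    rw [wrB, Finset.mem_filter, wrP, Finset.mem_filter, Finset.mem_Icc] at hp
    rw [HS, Finset.mem_filter, Finset.mem_Ico]
    exact ⟨by omega, hp.2⟩
  have h4 := hHS (X + 1) δ hδ0
  have h3' : ((wrB α X δ).card : ℝ) ≤ C * (δ * (X + 1) + 1) := by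
    refine le_trans (by exact_mod_cast h3) (h4.trans (le_of_eq ?_))
    push_cast
    ring
  have h1' : ((wrZ α X δ).card : ℝ) ≤ (wrS α X δ).card := by exact_mod_cast h1
  have h2' : ((wrS α X δ).card : ℝ) ≤ (wrZ α X δ).card + (wrB α X δ).card * (wrB α X δ).card := by
    exact_mod_cast h2
  have hB0 : (0 : ℝ) ≤ (wrB α X δ).card := Nat.cast_nonneg _
  rw [abs_sub_comm, abs_of_nonneg (by linarith)]
  have h5 : ((wrB α X δ).card : ℝ) * (wrB α X δ).card ≤ (C * (δ * (X + 1) + 1)) ^ 2 := by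
    rw [sq]
    exact mul_le_mul h3' h3' hB0 (hB0.trans h3')
  linarith

theorem wr_lim (C t : ℝ) : Filter.Tendsto (fun x : ℝ => 2 * C ^ 2 * (4 * t * Real.log x + 1) ^ 2 *
    Real.log x / x) Filter.atTop (nhds 0) := by
  have h1 := (Real.tendsto_pow_log_div_mul_add_atTop 1 0 1 one_ne_zero).const_mul (2 * C ^ 2)
  have h2 := (Real.tendsto_pow_log_div_mul_add_atTop 1 0 2 one_ne_zero).const_mul
    (16 * C ^ 2 * t)
  have h3 := (Real.tendsto_pow_log_div_mul_add_atTop 1 0 3 one_ne_zero).const_mul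
    (32 * C ^ 2 * t ^ 2)
  have h4 := (h1.add h2).add h3
  rw [mul_zero, mul_zero, mul_zero, add_zero, add_zero] at h4
  refine h4.congr fun x => ?_
  rw [one_mul, add_zero]
  ring

theorem PC_sub_V (α : ℝ) (hα : BadlyApprox α) (t : ℝ) (ht : 0 < t) :
    Filter.Tendsto (fun N : ℕ => (PC (xs α) N t - V α (Nat.nth Nat.Prime (N - 1)) (t / N)) / N)
      Filter.atTop (nhds 0) := by
  obtain ⟨C, hC, hb⟩ := wr_bound α hα
  have hinf := Nat.infinite_setOfPred_prime
  have hp : Filter.Tendsto (fun N : ℕ => Nat.nth Nat.Prime (N - 1)) Filter.atTop Filter.atTop :=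
    (Nat.nth_strictMono hinf).tendsto_atTop.comp (Filter.tendsto_sub_atTop_nat 1)
  have hpr : Filter.Tendsto (fun N : ℕ => (Nat.nth Nat.Prime (N - 1) : ℝ)) Filter.atTop
      Filter.atTop := tendsto_natCast_atTop_atTop.comp hp
  have hpnt : ∀ᶠ N : ℕ in Filter.atTop,
      1 / 2 < (Nat.primeCounting ⌊(Nat.nth Nat.Prime (N - 1) : ℝ)⌋₊ : ℝ) /
        ((Nat.nth Nat.Prime (N - 1) : ℝ) / Real.log (Nat.nth Nat.Prime (N - 1))) :=
    (Pool.Agent.H90.tendsto_primeCounting.comp hpr).eventually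
      (lt_mem_nhds (by norm_num : (1 / 2 : ℝ) < 1))
  have hsmall : ∀ᶠ N : ℕ in Filter.atTop, t / (N : ℝ) < 1 / 2 := by
    have h1 : Filter.Tendsto (fun N : ℕ => t / (N : ℝ)) Filter.atTop (nhds 0) :=
      tendsto_const_div_atTop_nhds_zero_nat t
    exact h1.eventually (gt_mem_nhds (by norm_num : (0 : ℝ) < 1 / 2))
  rw [tendsto_zero_iff_norm_tendsto_zero]
  refine squeeze_zero' (Filter.Eventually.of_forall fun N => norm_nonneg _) ?_
    ((wr_lim C t).comp hpr)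
  filter_upwards [hpnt, hsmall, Filter.eventually_ge_atTop 1,
    hp.eventually_ge_atTop 3] with N h1 h2 h3 h4
  have hN0 : (0 : ℝ) < N := by exact_mod_cast h3
  have hcount : Nat.primeCounting ⌊(Nat.nth Nat.Prime (N - 1) : ℝ)⌋₊ = N := by
    rw [Nat.floor_natCast]
    change Nat.count Nat.Prime (Nat.nth Nat.Prime (N - 1) + 1) = N
    rw [Nat.count_nth_succ_of_infinite hinf]
    omega
  rw [hcount] at h1
  have hbd := hb N t h3 ht h2
  rw [norm_div, Real.norm_eq_abs, Real.norm_eq_abs, abs_of_pos hN0]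
  change |PC (xs α) N t - V α (Nat.nth Nat.Prime (N - 1)) (t / N)| / N ≤
    2 * C ^ 2 * (4 * t * Real.log (Nat.nth Nat.Prime (N - 1)) + 1) ^ 2 *
      Real.log (Nat.nth Nat.Prime (N - 1)) / (Nat.nth Nat.Prime (N - 1))
  set X : ℝ := (Nat.nth Nat.Prime (N - 1) : ℝ) with hX
  have hX3 : (3 : ℝ) ≤ X := by
    rw [hX]
    exact_mod_cast h4
  have hL1 : 1 ≤ Real.log X := by
    rw [Real.le_log_iff_exp_le (by linarith)]
    linarith [Real.exp_one_lt_d9]
  set L := Real.log X with hL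
  -- `X ≤ 2 L N`
  have h5 : X ≤ 2 * L * N := by
    have h6 : 0 < X / L := by positivity
    rw [lt_div_iff₀ h6] at h1
    have h7 : X / L < 2 * N := by linarith
    rw [div_lt_iff₀ (by linarith)] at h7
    nlinarith
  have h8 : t / N * (X + 1) + 1 ≤ 4 * t * L + 1 := by
    have h9 : t / N * (X + 1) ≤ 4 * t * L := by
      rw [div_mul_eq_mul_div, div_le_iff₀ hN0]
      have h10 : X + 1 ≤ 4 * L * N := by
        have : 1 ≤ X := by linarith
        nlinarith
      have := mul_le_mul_of_nonneg_left h10 ht.le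
      linarith
    linarith
  have h11 : (C * (t / N * (X + 1) + 1)) ^ 2 ≤ (C * (4 * t * L + 1)) ^ 2 := by
    apply pow_le_pow_left₀ (by positivity)
    exact mul_le_mul_of_nonneg_left h8 hC.le
  have h12 : |PC (xs α) N t - V α (Nat.nth Nat.Prime (N - 1)) (t / N)| ≤
      (C * (4 * t * L + 1)) ^ 2 := hbd.trans h11
  rw [div_le_div_iff₀ hN0 (by linarith)]
  calc |PC (xs α) N t - V α (Nat.nth Nat.Prime (N - 1)) (t / N)| * X
      ≤ (C * (4 * t * L + 1)) ^ 2 * (2 * L * N) :=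
        mul_le_mul h12 h5 (by linarith) (sq_nonneg _)
    _ = 2 * C ^ 2 * (4 * t * L + 1) ^ 2 * L * N := by ring

end Pool.Agent.H1.PP
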