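import Pool.Agent.H1.PP.Let

/-!
# PP-02 Wrd: words (products of letters)

PROOFS.  Inductions on `n` from `Wd s (n+1) = image (P, g) ↦ P * g`.

`Wd_lower`: entries of a letter are `> Q` and `2^(10 s) = 8 Q`; every entry of `P * g` is a sum of two
products of positive entries.  `Wd_upper`: letter entries are `< 4 Q`, so `2 * entry ≤ 8 Q`, and an entry of
`P * g` is at most `2 * max P * max g`.

`Wd_ratio` (`n ≥ 1`): for a letter: `C < A < 2 C`, `D ≤ B < 2 D`, `D ≤ 2 Q < 2 C`, `C ≤ 2 Q < 2 D`.  Induction: write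
`P * g` with `P ∈ Wd s n`, `n ≥ 1`: the rows of `P * g` are `p * g`, `p = (p0, p1)` the rows of `P`; comparison of the
first and the second row follows from the comparison for `P` (all entries of `g` are positive).
`(P g) 1 1 = p0 B + p1 D < 2 (p0 A + p1 C)` since `B < 2 A` (`B C < A D ≤ 2 A C`: `D < 2 C`) and `D < 2 C`.
`(P g) 1 0 = p0 A + p1 C < 4 (p0 B + p1 D)` since `A D = B C + 1`, `C < 2 D` so `A < 2 B + 1 ≤ 4 B`, and `C < 4 D`.
-/

set_option autoImplicit false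

open Finset

namespace Pool.Agent.H1.PP

open Pool.Agent.H10.RP (ee nd Lam)

lemma wrd_mul (P g : M2) (i j : Fin 2) : (P * g) i j = P i 0 * g 0 j + P i 1 * g 1 j := by
  rw [Matrix.mul_apply, Fin.sum_univ_two]

lemma wrd_lt {s : ℕ} {g : M2} (hg : g ∈ Lt s) : IsLt s g := (mem_Lt s g).1 hg

lemma wrd_lt_lower {s : ℕ} {g : M2} (hg : g ∈ Lt s) (i j : Fin 2) : (Qh s : ℤ) < g i j := by
  obtain ⟨h1, h2, h3, h4, h5, h6, h7, h8, h9⟩ := wrd_lt hg
  fin_cases i <;> fin_cases j <;> simp <;> linarith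

lemma wrd_lt_upper {s : ℕ} {g : M2} (hg : g ∈ Lt s) (i j : Fin 2) : 2 * g i j ≤ 8 * (Qh s : ℤ) := by
  obtain ⟨h1, h2, h3, h4, h5, h6, h7, h8, h9⟩ := wrd_lt hg
  fin_cases i <;> fin_cases j <;> simp <;> linarith

lemma wrd_lt_pos {s : ℕ} {g : M2} (hg : g ∈ Lt s) (i j : Fin 2) : 1 ≤ g i j := by
  have h1 := wrd_lt_lower hg i j
  have h2 : (1 : ℤ) ≤ Qh s := by exact_mod_cast Qh_pos s
  linarith

theorem mem_Wd_succ (s n : ℕ) (P : M2) :
    P ∈ Wd s (n + 1) ↔ ∃ P' ∈ Wd s n, ∃ g ∈ Lt s, P = P' * g := by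
  show P ∈ (Wd s n ×ˢ Lt s).image (fun t => t.1 * t.2) ↔ _
  rw [Finset.mem_image]
  constructor
  · rintro ⟨⟨P', g⟩, h1, h2⟩
    have h3 := Finset.mem_product.1 h1
    exact ⟨P', h3.1, g, h3.2, h2.symm⟩
  · rintro ⟨P', h1, g, h2, h3⟩
    exact ⟨(P', g), Finset.mem_product.2 ⟨h1, h2⟩, h3.symm⟩

lemma wrd_one (s : ℕ) (P : M2) : P ∈ Wd s 1 ↔ P ∈ Lt s := by
  rw [mem_Wd_succ]
  constructor
  · rintro ⟨P', h1, g, h2, h3⟩
    have h4 : P' = 1 := Finset.mem_singleton.1 h1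
    rw [h3, h4, one_mul]
    exact h2
  · intro h
    exact ⟨1, Finset.mem_singleton.2 rfl, P, h, (one_mul P).symm⟩

theorem Wd_mul (s m n : ℕ) (P G : M2) (hP : P ∈ Wd s m) (hG : G ∈ Wd s n) : P * G ∈ Wd s (m + n) := by
  induction n generalizing G with
  | zero =>
    have : G = 1 := Finset.mem_singleton.1 hG
    rw [this, mul_one]
    exact hP
  | succ n ih =>
    obtain ⟨G', hG', g, hg, rfl⟩ := (mem_Wd_succ s n G).1 hG
    rw [← mul_assoc]
    exact (mem_Wd_succ s (m + n) _).2 ⟨P * G', ih G' hG', g, hg, rfl⟩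

theorem Wd_split (s m n : ℕ) (P : M2) (hP : P ∈ Wd s (m + n)) :
    ∃ A ∈ Wd s m, ∃ B ∈ Wd s n, P = A * B := by
  induction n generalizing P with
  | zero => exact ⟨P, hP, 1, Finset.mem_singleton.2 rfl, (mul_one P).symm⟩
  | succ n ih =>
    obtain ⟨P', hP', g, hg, rfl⟩ := (mem_Wd_succ s (m + n) P).1 hP
    obtain ⟨A, hA, B, hB, rfl⟩ := ih P' hP'
    exact ⟨A, hA, B * g, (mem_Wd_succ s n _).2 ⟨B, hB, g, hg, rfl⟩, mul_assoc _ _ _⟩

theorem Wd_det (s n : ℕ) (P : M2) (hP : P ∈ Wd s n) : P 0 0 * P 1 1 - P 0 1 * P 1 0 = 1 := by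
  induction n generalizing P with
  | zero =>
    have : P = 1 := Finset.mem_singleton.1 hP
    rw [this]
    simp
  | succ n ih =>
    obtain ⟨P', hP', g, hg, rfl⟩ := (mem_Wd_succ s n P).1 hP
    have h1 := ih P' hP'
    have h2 := (wrd_lt hg).1
    rw [wrd_mul, wrd_mul, wrd_mul, wrd_mul]
    linear_combination (g 0 0 * g 1 1 - g 0 1 * g 1 0) * h1 + h2

theorem Wd_nonneg (s n : ℕ) (P : M2) (hP : P ∈ Wd s n) (i j : Fin 2) : 0 ≤ P i j := by
  induction n generalizing P i j with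
  | zero =>
    have : P = 1 := Finset.mem_singleton.1 hP
    rw [this]
    fin_cases i <;> fin_cases j <;> simp
  | succ n ih =>
    obtain ⟨P', hP', g, hg, rfl⟩ := (mem_Wd_succ s n P).1 hP
    rw [wrd_mul]
    have h1 := ih P' hP' i 0
    have h2 := ih P' hP' i 1
    have h3 := wrd_lt_pos hg 0 j
    have h4 := wrd_lt_pos hg 1 j
    exact add_nonneg (mul_nonneg h1 (by linarith)) (mul_nonneg h2 (by linarith))

theorem Wd_diag (s n : ℕ) (P : M2) (hP : P ∈ Wd s n) : 1 ≤ P 0 0 ∧ 1 ≤ P 1 1 := by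
  induction n generalizing P with
  | zero =>
    have : P = 1 := Finset.mem_singleton.1 hP
    rw [this]
    simp
  | succ n ih =>
    obtain ⟨P', hP', g, hg, rfl⟩ := (mem_Wd_succ s n P).1 hP
    rw [wrd_mul, wrd_mul]
    obtain ⟨h1, h2⟩ := ih P' hP'
    have h3 := Wd_nonneg s n P' hP'
    have h4 := wrd_lt_pos hg
    have a1 := mul_nonneg (h3 0 1) (by linarith [h4 1 0] : (0 : ℤ) ≤ g 1 0)
    have a2 := mul_nonneg (h3 1 0) (by linarith [h4 0 1] : (0 : ℤ) ≤ g 0 1)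
    have a3 : 1 * 1 ≤ P' 0 0 * g 0 0 := mul_le_mul h1 (h4 0 0) (by norm_num) (by linarith)
    have a4 : 1 * 1 ≤ P' 1 1 * g 1 1 := mul_le_mul h2 (h4 1 1) (by norm_num) (by linarith)
    constructor <;> linarith

lemma wrd_Q (s : ℕ) (hs : 1 ≤ s) : (8 : ℤ) * Qh s = 2 ^ (10 * s) := by
  exact_mod_cast Qh_eq s hs

theorem Wd_lower (s n : ℕ) (hs : 1 ≤ s) (hn : 1 ≤ n) (P : M2) (hP : P ∈ Wd s n) (i j : Fin 2) :
    (2 : ℤ) ^ (10 * s * n) ≤ 8 ^ n * P i j := by
  induction n, hn using Nat.le_induction generalizing P i j with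
  | base =>
    have h1 := wrd_lt_lower ((wrd_one s P).1 hP) i j
    rw [mul_one, pow_one, ← wrd_Q s hs]
    linarith
  | succ n hn ih =>
    obtain ⟨P', hP', g, hg, rfl⟩ := (mem_Wd_succ s n P).1 hP
    rw [wrd_mul]
    have h1 := ih P' hP' i 0
    have h2 := Wd_nonneg s n P' hP' i 1
    have h3 := wrd_lt_lower hg 0 j
    have h4 := wrd_lt_pos hg 1 j
    have h5 : (0 : ℤ) ≤ Qh s := by positivity
    have h6 := Wd_nonneg s n P' hP' i 0
    have e : (2 : ℤ) ^ (10 * s * (n + 1)) = 2 ^ (10 * s * n) * (8 * Qh s) := by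
      rw [wrd_Q s hs, ← pow_add]
      congr 1
    rw [e]
    have a1 : (2 : ℤ) ^ (10 * s * n) * (8 * Qh s) ≤ (8 ^ n * P' i 0) * (8 * g 0 j) :=
      mul_le_mul h1 (by linarith) (by positivity) (by positivity)
    have a2 : 0 ≤ (8 : ℤ) ^ (n + 1) * (P' i 1 * g 1 j) :=
      mul_nonneg (by positivity) (mul_nonneg h2 (by linarith))
    rw [mul_add]
    have e2 : (8 : ℤ) ^ (n + 1) * (P' i 0 * g 0 j) = (8 ^ n * P' i 0) * (8 * g 0 j) := by
      rw [pow_succ]; ring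
    linarith

theorem Wd_upper (s n : ℕ) (hs : 1 ≤ s) (hn : 1 ≤ n) (P : M2) (hP : P ∈ Wd s n) (i j : Fin 2) :
    2 * P i j ≤ (2 : ℤ) ^ (10 * s * n) := by
  induction n, hn using Nat.le_induction generalizing P i j with
  | base =>
    have h1 := wrd_lt_upper ((wrd_one s P).1 hP) i j
    rw [mul_one, ← wrd_Q s hs]
    linarith
  | succ n hn ih =>
    obtain ⟨P', hP', g, hg, rfl⟩ := (mem_Wd_succ s n P).1 hP
    rw [wrd_mul]
    have h1 := ih P' hP' i 0
    have h2 := ih P' hP' i 1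
    have h3 := wrd_lt_upper hg 0 j
    have h4 := wrd_lt_upper hg 1 j
    have h3' := wrd_lt_pos hg 0 j
    have h4' := wrd_lt_pos hg 1 j
    have e : (2 : ℤ) ^ (10 * s * (n + 1)) = 2 ^ (10 * s * n) * (8 * Qh s) := by
      rw [wrd_Q s hs, ← pow_add]
      congr 1
    rw [e]
    have a1 : (2 * P' i 0) * (2 * g 0 j) ≤ 2 ^ (10 * s * n) * (8 * Qh s) :=
      mul_le_mul h1 h3 (by linarith) (by positivity)
    have a2 : (2 * P' i 1) * (2 * g 1 j) ≤ 2 ^ (10 * s * n) * (8 * Qh s) :=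
      mul_le_mul h2 h4 (by linarith) (by positivity)
    linarith

theorem Wd_ratio (s n : ℕ) (hn : 1 ≤ n) (P : M2) (hP : P ∈ Wd s n) :
    P 1 0 < P 0 0 ∧ P 0 0 < 2 * P 1 0 ∧ P 1 1 ≤ P 0 1 ∧ P 0 1 < 2 * P 1 1 ∧
      P 1 1 < 2 * P 1 0 ∧ P 1 0 < 4 * P 1 1 := by
  induction n, hn using Nat.le_induction generalizing P with
  | base =>
    obtain ⟨h1, h2, h3, h4, h5, h6, h7, h8, h9⟩ := wrd_lt ((wrd_one s P).1 hP)
    have hQ : (1 : ℤ) ≤ Qh s := by exact_mod_cast Qh_pos s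
    refine ⟨h6, h7, h8, h9, by linarith, by linarith⟩
  | succ n hn ih =>
    obtain ⟨P', hP', g, hg, rfl⟩ := (mem_Wd_succ s n P).1 hP
    obtain ⟨q1, q2, q3, q4, q5, q6⟩ := ih P' hP'
    have d1 := (Wd_diag s n P' hP').2
    obtain ⟨h1, h2, h3, h4, h5, h6, h7, h8, h9⟩ := wrd_lt hg
    have hQ : (1 : ℤ) ≤ Qh s := by exact_mod_cast Qh_pos s
    have p00 := wrd_lt_pos hg 0 0
    have p01 := wrd_lt_pos hg 0 1
    have p10 := wrd_lt_pos hg 1 0
    have p11 := wrd_lt_pos hg 1 1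
    have hB : g 0 1 < 2 * g 0 0 := by
      by_contra hcon
      push Not at hcon
      nlinarith
    have hA : g 0 0 < 4 * g 0 1 := by
      by_contra hcon
      push Not at hcon
      nlinarith
    rw [wrd_mul, wrd_mul, wrd_mul, wrd_mul]
    refine ⟨?_, ?_, ?_, ?_, ?_, ?_⟩ <;> nlinarith

theorem le_mx (P : M2) (i j : Fin 2) : P i j ≤ mx P := by
  unfold mx
  fin_cases i <;> fin_cases j
  · exact le_trans (le_max_left _ _) (le_max_left _ _)
  · exact le_trans (le_max_right _ _) (le_max_left _ _)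
  · exact le_trans (le_max_left _ _) (le_max_right _ _)
  · exact le_trans (le_max_right _ _) (le_max_right _ _)

theorem mx_pos (s n : ℕ) (P : M2) (hP : P ∈ Wd s n) : 1 ≤ mx P :=
  le_trans (Wd_diag s n P hP).1 (le_mx P 0 0)

theorem mx_upper (s n : ℕ) (hs : 1 ≤ s) (P : M2) (hP : P ∈ Wd s n) :
    mx P ≤ (2 : ℤ) ^ (10 * s * n) := by
  rcases Nat.eq_zero_or_pos n with h | h
  · subst h
    have : P = 1 := Finset.mem_singleton.1 hP
    rw [this]
    simp [mx]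
  · have h1 : ∀ i j, P i j ≤ (2 : ℤ) ^ (10 * s * n) := fun i j => by
      have := Wd_upper s n hs h P hP i j
      have := Wd_nonneg s n P hP i j
      linarith
    unfold mx
    exact max_le (max_le (h1 _ _) (h1 _ _)) (max_le (h1 _ _) (h1 _ _))

theorem act_mul (P G : M2) (ψ : Fin 2 → ℝ) : act (P * G) ψ = act P (act G ψ) := by
  funext i
  simp only [act, wrd_mul]
  push_cast
  ring

theorem dt_mul (P G : M2) (ψ : Fin 2 → ℝ) : dt (P * G) ψ = dt P (act G ψ) := by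
  simp only [act, dt, wrd_mul]
  push_cast
  ring

theorem dt_add (P : M2) (ψ φ : Fin 2 → ℝ) : dt P (ψ + φ) = dt P ψ + dt P φ := by
  simp only [dt, Pi.add_apply]
  ring

theorem act_add (P : M2) (ψ φ : Fin 2 → ℝ) : act P (ψ + φ) = act P ψ + act P φ := by
  funext i
  simp only [act, Pi.add_apply]
  ring

end Pool.Agent.H1.PP
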