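import Pool.Agent.H1.PP.Defs
import Pool.Agent.H90.ZFRegion
import Pool.Agent.H90.ZeroFree

/-!
# PP-19 Zt: zero-free region of zeta and bound for the logarithmic derivative

`Z s = DirichletCharacter.LFunctionTrivChar₁ 1 s`, that is `(s-1) ζ(s)` for `s ≠ 1` and `1` at `s = 1`.

PROOF.  `t = Im s`, `l = log (|t| + 3)`.
Growth: `‖Z s‖ ≤ 11 (‖s‖+1)²` for `Re s ≥ 1/2` (`norm_LFunctionTrivChar₁_le`, `q = 1`).
Zero-free region: for `|t| ≥ 1`, from `three_four_one` with `χ = 1` mod `1`, `DL_le_principal` and the version with a zero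
(`landau_zero` applied to `Z` on the disc of radius `1/2` about `σ + i t`, `σ = 1 + c'/l`), in the usual way: a zero
`β + i t` gives `4/(σ-β) ≤ 3/(σ-1) + C l`, so `β ≤ 1 - c/l`.  For `|t| ≤ 1`: `Z` has no zero on `Re s ≥ 1`
(`riemannZeta_ne_zero_of_one_le_re`, `Z 1 = 1`), so by compactness there is a neighbourhood of
`{Re s ∈ [1, 2], |t| ≤ 1}` without zeros.
Logarithmic derivative: let `s0` be a point with `Re s0 = 1 + c/l`, `Im s0 = t`; on the disc of radius
`2c/l` about `s0` shrunk to the zero-free region, `Z ≠ 0`, `log |Z(z)/Z(s0)| ≤ C l` (growth, and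
`|Z(s0)| ≥ c'' |s0 - 1| / l`: lower bound `norm_LFunction_ge` or `|ζ(s0)| ≥ (σ-1)/(2σ)`), so Borel-Caratheodory
(`norm_logDeriv_le` in `Pool/Agent/H90/Landau.lean`, or `norm_deriv_le_of_re_le`) gives `|Z'/Z| ≤ C l * l = C l²` on
the disc of half the radius; this covers `1 - c/(2 l) ≤ Re s ≤ 1 + c/l`.  For `Re s ≥ 1 + c/l`:
`|ζ'/ζ(s)| ≤ -ζ'/ζ(Re s) ≤ 1/(Re s - 1) + C ≤ C l` and `Z'/Z = ζ'/ζ + 1/(s-1)`; near `s = 1` use that `Z'/Z` is
continuous near `1`.  The exponent `4` below is generous.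
-/

set_option autoImplicit false

open Finset

namespace Pool.Agent.H1.PP

open Pool.Agent.H10.RP (ee nd Lam)

open Pool.Agent.H90 in
theorem zt_bc (g : ℂ → ℂ) (c : ℂ) (R A a : ℝ) (hR : 0 < R)
    (hg : DifferentiableOn ℂ g (Metric.ball c R)) (h0 : ∀ z ∈ Metric.ball c R, g z ≠ 0)
    (hA : ∀ z ∈ Metric.ball c R, ‖g z‖ ≤ A) (ha : 0 < a) (hac : a ≤ ‖g c‖) (haA : a < A)
    (z : ℂ) (hz : ‖z - c‖ ≤ R / 2) : ‖deriv g z / g z‖ ≤ 12 * Real.log (A / a) / R := by
  have hM : 0 < Real.log (A / a) := Real.log_pos (by rw [lt_div_iff₀ ha]; linarith)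
  set M := Real.log (A / a) with hMdef
  have hmaps : Set.MapsTo (fun w : ℂ => c + w) (Metric.ball 0 R) (Metric.ball c R) := by
    intro w hw
    simp only [Metric.mem_ball, dist_zero_right] at hw
    simpa [Metric.mem_ball, dist_eq_norm] using hw
  set G : ℂ → ℂ := fun w => g (c + w) with hG
  have hGd : DifferentiableOn ℂ G (Metric.ball 0 R) := hg.comp (by fun_prop) hmaps
  obtain ⟨h, hhd, hh0, hh⟩ := exists_log_ball G R hR hGd (fun w hw => h0 _ (hmaps hw))
  have hG0 : G 0 = g c := by simp [hG]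
  have hgc : 0 < ‖g c‖ := ha.trans_le hac
  have hre : ∀ w ∈ Metric.ball (0 : ℂ) R, (h w).re ≤ M := by
    intro w hw
    have h2 := hA _ (hmaps hw)
    have h3 : ‖G w‖ ≤ A := h2
    rw [hh w hw, norm_mul, Complex.norm_exp, hG0] at h3
    rw [hMdef, Real.le_log_iff_exp_le (div_pos (ha.trans haA) ha), le_div_iff₀ ha]
    calc Real.exp (h w).re * a ≤ Real.exp (h w).re * ‖g c‖ := by gcongr
      _ ≤ A := by rw [mul_comm]; exact h3
  have hw0R : ‖z - c‖ < R := by linarith
  have hw0 : z - c ∈ Metric.ball (0 : ℂ) R := by simpa using hw0R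
  have hbc : ‖h (z - c)‖ ≤ 2 * M := by
    refine (Complex.borelCaratheodory_zero hM hhd hre hR hw0 hh0).trans ?_
    rw [div_le_iff₀ (by linarith)]
    have : 0 ≤ 2 * M := by positivity
    nlinarith
  have hmaps2 : Set.MapsTo (fun w : ℂ => (z - c) + w) (Metric.ball 0 (R / 2)) (Metric.ball 0 R) := by
    intro w hw
    simp only [Metric.mem_ball, dist_zero_right] at hw ⊢
    calc ‖z - c + w‖ ≤ ‖z - c‖ + ‖w‖ := norm_add_le _ _
      _ < R := by linarith
  have hkd : DifferentiableOn ℂ (fun w => h ((z - c) + w) - h (z - c)) (Metric.ball 0 (R / 2)) :=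
    (hhd.comp (by fun_prop) hmaps2).sub_const _
  have hk := norm_deriv_le_of_re_le (fun w => h ((z - c) + w) - h (z - c)) (R / 2) (by positivity)
    hkd (by simp) (3 * M) (by positivity) (fun w hw => by
      have h1 := hre _ (hmaps2 hw)
      have h2 := (neg_abs_le (h (z - c)).re)
      have h3 := Complex.abs_re_le_norm (h (z - c))
      simp only [Complex.sub_re]
      linarith)
  have e1 : deriv (fun w => h ((z - c) + w) - h (z - c)) 0 = deriv h (z - c) := by
    rw [deriv_sub_const, deriv_comp_const_add, add_zero]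
  rw [e1] at hk
  have hda : HasDerivAt h (deriv h (z - c)) (z - c) :=
    (hhd.differentiableAt (Metric.isOpen_ball.mem_nhds hw0)).hasDerivAt
  have hda2 : HasDerivAt (fun w => G 0 * Complex.exp (h w))
      (G 0 * (Complex.exp (h (z - c)) * deriv h (z - c))) (z - c) := (hda.cexp).const_mul (G 0)
  have h4 : G =ᶠ[nhds (z - c)] fun w => G 0 * Complex.exp (h w) := by
    filter_upwards [Metric.isOpen_ball.mem_nhds hw0] with w hw using hh w hw
  have e2 : deriv G (z - c) = G (z - c) * deriv h (z - c) := by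
    rw [h4.deriv_eq, hda2.deriv, hh _ hw0]
    ring
  have e3 : deriv G (z - c) = deriv g z := by
    have : deriv G (z - c) = deriv g (c + (z - c)) := deriv_comp_const_add _ _ _
    rw [this]
    congr 1
    ring
  have e4 : G (z - c) = g z := by
    simp only [hG]
    congr 1
    ring
  have hgz : g z ≠ 0 := by
    rw [← e4]
    exact h0 _ (hmaps hw0)
  rw [e3, e4] at e2
  rw [e2, mul_div_cancel_left₀ _ hgz]
  refine hk.trans (le_of_eq ?_)
  field_simp
  ring

open Pool.Agent.H90 in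
theorem zt_DL_zero (s₀ ρ : ℂ) (h1 : 1 < s₀.re) (h2 : s₀.re ≤ 2) (hρ : ‖s₀ - ρ‖ < 1 / 4)
    (hZ : DirichletCharacter.LFunctionTrivChar₁ 1 ρ = 0) :
    DL (1 : DirichletCharacter ℂ 1) s₀ ≤ (1 / (s₀ - 1)).re +
      8 * Real.log (176 * (1 * (|s₀.im| + 2)) ^ 2 / (s₀.re - 1) ^ 2) -
      (s₀.re - ρ.re) / ‖s₀ - ρ‖ ^ 2 * (1 - 4 * ‖s₀ - ρ‖ ^ 2) := by
  have hη : 0 < s₀.re - 1 := by linarith
  have hs1 : s₀ ≠ 1 := by
    rintro rfl
    simp at h1
  have hA : ∀ z ∈ Metric.closedBall s₀ (1 / 2), ‖DirichletCharacter.LFunctionTrivChar₁ 1 z‖ ≤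
      44 * (1 * (|s₀.im| + 2)) ^ 2 := by
    intro z hz
    obtain ⟨h3, h4⟩ := norm_le_of_mem s₀ z h1 h2 hz
    have h0 := abs_nonneg s₀.im
    have h5 := norm_LFunctionTrivChar₁_le (q := 1) z h3
    calc _ ≤ 11 * ((1 : ℕ) : ℝ) * (‖z‖ + 1) ^ 2 := h5
      _ ≤ 11 * ((1 : ℕ) : ℝ) * (2 * (|s₀.im| + 2)) ^ 2 := by
          have h5 : ‖z‖ + 1 ≤ 2 * (|s₀.im| + 2) := by linarith
          gcongr
      _ = 44 * (1 * (|s₀.im| + 2)) ^ 2 := by push_cast; ring
  have hval : DirichletCharacter.LFunctionTrivChar₁ 1 s₀ =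
      (s₀ - 1) * DirichletCharacter.LFunction (1 : DirichletCharacter ℂ 1) s₀ := by
    unfold DirichletCharacter.LFunctionTrivChar₁
    rw [Function.update_of_ne hs1]
  have hLne : DirichletCharacter.LFunction (1 : DirichletCharacter ℂ 1) s₀ ≠ 0 :=
    DirichletCharacter.LFunction_ne_zero_of_one_le_re _ (Or.inr hs1) h1.le
  have ha : (s₀.re - 1) ^ 2 / 4 ≤ ‖DirichletCharacter.LFunctionTrivChar₁ 1 s₀‖ := by
    rw [hval, norm_mul]
    have h3 := norm_LFunction_ge (1 : DirichletCharacter ℂ 1) s₀ h1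
    have h4 : s₀.re - 1 ≤ ‖s₀ - 1‖ := by
      have := (le_abs_self _).trans (Complex.abs_re_le_norm (s₀ - 1))
      simpa using this
    have h5 : (s₀.re - 1) / 4 ≤ (s₀.re - 1) / (2 * s₀.re) := by
      gcongr
      linarith
    calc (s₀.re - 1) ^ 2 / 4 = (s₀.re - 1) * ((s₀.re - 1) / 4) := by ring
      _ ≤ _ := by
          gcongr
          exact h5.trans h3
  have hz : ∀ z ∈ Metric.ball s₀ (1 / 2 / 2), DirichletCharacter.LFunctionTrivChar₁ 1 z = 0 →
      z.re ≤ s₀.re := by
    intro z _ hz0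
    by_contra hcon
    have hz1 : z ≠ 1 := by
      rintro rfl
      simp only [Complex.one_re] at hcon
      linarith
    unfold DirichletCharacter.LFunctionTrivChar₁ at hz0
    rw [Function.update_of_ne hz1] at hz0
    rcases mul_eq_zero.mp hz0 with h | h
    · exact hz1 (sub_eq_zero.mp h)
    · exact DirichletCharacter.LFunction_ne_zero_of_one_le_re _ (Or.inr hz1) (by linarith) h
  have hρb : ρ ∈ Metric.ball s₀ (1 / 2 / 2) := by
    rw [Metric.mem_ball, dist_comm, dist_eq_norm]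
    norm_num
    linarith
  have hL := landau_zero (DirichletCharacter.LFunctionTrivChar₁ 1) s₀ ρ (1 / 2) _ _ (by norm_num)
    ((DirichletCharacter.differentiable_LFunctionTrivChar₁ 1).differentiableOn) hA (by positivity) ha hz
    hρb hZ
  have hder := DirichletCharacter.deriv_LFunctionTrivChar₁_apply_of_ne_one 1 hs1
  have e1 : deriv (DirichletCharacter.LFunctionTrivChar₁ 1) s₀ /
      DirichletCharacter.LFunctionTrivChar₁ 1 s₀ = 1 / (s₀ - 1) -
      (-deriv (DirichletCharacter.LFunction (1 : DirichletCharacter ℂ 1)) s₀ /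
        DirichletCharacter.LFunction (1 : DirichletCharacter ℂ 1) s₀) := by
    rw [hder, hval]
    have : DirichletCharacter.LFunctionTrivChar 1 = DirichletCharacter.LFunction (1 : DirichletCharacter ℂ 1) := rfl
    rw [this]
    have hs1' : s₀ - 1 ≠ 0 := sub_ne_zero.mpr hs1
    field_simp
    ring
  rw [e1, Complex.sub_re] at hL
  have e : 44 * (1 * (|s₀.im| + 2)) ^ 2 / ((s₀.re - 1) ^ 2 / 4) =
      176 * (1 * (|s₀.im| + 2)) ^ 2 / (s₀.re - 1) ^ 2 := by
    field_simp; ring
  have e2 : 1 - ‖s₀ - ρ‖ ^ 2 / (1 / 2) ^ 2 = 1 - 4 * ‖s₀ - ρ‖ ^ 2 := by ring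
  have e3 : (4 : ℝ) / (1 / 2) = 8 := by norm_num
  rw [e, e2, e3] at hL
  unfold DL
  linarith

theorem zt_one_le (z : ℂ) (hz : 1 ≤ z.re) : DirichletCharacter.LFunctionTrivChar₁ 1 z ≠ 0 := by
  by_cases h : z = 1
  · rw [h]
    exact DirichletCharacter.LFunctionTrivChar₁_apply_one_ne_zero _
  · unfold DirichletCharacter.LFunctionTrivChar₁
    rw [Function.update_of_ne h]
    exact mul_ne_zero (sub_ne_zero.2 h)
      (DirichletCharacter.LFunction_ne_zero_of_one_le_re _ (Or.inr h) hz)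

theorem zt_inv_re (η t : ℝ) (hη : 0 < η) (ht : 1 ≤ |t|) :
    (1 / (((1 + η : ℝ) : ℂ) + t * Complex.I - 1)).re ≤ η := by
  have : ((1 + η : ℝ) : ℂ) + t * Complex.I - 1 = (η : ℂ) + t * Complex.I := by push_cast; ring
  rw [this, one_div, Complex.inv_re, Complex.normSq_add_mul_I]
  simp only [Complex.add_re, Complex.ofReal_re, Complex.mul_re, Complex.I_re, mul_zero,
    Complex.ofReal_im, Complex.I_im, mul_one, sub_self, add_zero]
  have h1 : 1 ≤ t ^ 2 := by
    rw [← sq_abs]
    nlinarith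
  have h2 : 1 ≤ η ^ 2 + t ^ 2 := by nlinarith [sq_nonneg η]
  exact div_le_self hη.le h2

open Pool.Agent.H90 in
theorem zt_log_kap (l : ℝ) (hl : 21 ≤ l) : Real.log (l / kap) ≤ l := by
  have hk := kap_pos
  have h1 : Real.log (l / kap) = Real.log 2 + Real.log (l / 2) + Real.log 20000 := by
    rw [← Real.log_mul (by norm_num) (by positivity), ← Real.log_mul (by positivity) (by norm_num)]
    congr 1
    unfold kap
    ring
  have h2 : Real.log (l / 2) ≤ l / 2 - 1 := Real.log_le_sub_one_of_pos (by positivity)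
  have h3 := log_le_of_pow (C := 20000) (by norm_num) 15 (by norm_num)
  have h4 := log_two_le'
  norm_num at h3
  rw [h1]
  linarith

open Pool.Agent.H90 in
theorem zt_large (ρ : ℂ) (hρ : DirichletCharacter.LFunctionTrivChar₁ 1 ρ = 0) (l : ℝ)
    (hl : l = Real.log (|ρ.im| + 2)) (hl7 : 21 ≤ l) : ρ.re < 1 - kap / 50 / l := by
  by_contra hcon
  push Not at hcon
  have hk := kap_pos
  have hlk := zt_log_kap l hl7
  have hl0 : 0 < l := by linarith
  set η : ℝ := kap / l with hη
  have hη0 : 0 < η := by positivity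
  have hηl : η * l = kap := by rw [hη]; field_simp
  have hη1 : η ≤ 1 / 140000 := by
    rw [hη, div_le_iff₀ hl0]
    unfold kap
    linarith
  have hlη : Real.log (1 / η) ≤ l := by
    have : 1 / η = l / kap := by rw [hη, one_div_div]
    rw [this]; exact hlk
  have hβ1 : ρ.re < 1 := by
    by_contra h
    exact zt_one_le ρ (by linarith) hρ
  set γ := ρ.im with hγ
  have hγ1 : 1 ≤ |γ| := by
    have h1 : Real.exp l = |γ| + 2 := by
      rw [hl]
      exact Real.exp_log (by positivity)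
    have h2 := Real.add_one_le_exp l
    linarith
  set x : ℝ := 1 + η - ρ.re with hx
  have hx1 : η < x := by rw [hx]; linarith
  have hx2 : x ≤ 1.02 * η := by
    have : kap / 50 / l = 0.02 * η := by rw [hη]; ring
    rw [hx]; linarith
  have hx0 : 0 < x := by linarith
  have hX0 : 0 < 1 * (|γ| + 2) := by positivity
  have hl' : Real.log (1 * (|γ| + 2)) = l := by rw [one_mul, hl]
  have hcast : ((1 : ℕ) : ℝ) ≤ 1 := by simp
  have D0 := DL_le_principal (q := 1) 1 hcast ((1 + η : ℝ) : ℂ) (by simpa using hη0)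
    (by simp only [Complex.ofReal_re]; linarith)
  rw [inv_re_real] at D0
  have e0 : (((1 + η : ℝ) : ℂ).re - 1) = η := by simp
  rw [e0] at D0
  have D0' : Real.log (176 * (1 * (|((1 + η : ℝ) : ℂ).im| + 2)) ^ 2 / η ^ 2) ≤ 5 * l := by
    calc _ ≤ Real.log (176 * (1 * (|γ| + 2)) ^ 2 / η ^ 2) := by
          apply Real.log_le_log
          · positivity
          · simp only [Complex.ofReal_im, abs_zero]
            gcongr
            exact abs_nonneg γ
      _ = Real.log 176 + 2 * Real.log (1 * (|γ| + 2)) + 2 * Real.log (1 / η) :=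
          log_h2 _ _ _ (by norm_num) hX0 hη0
      _ ≤ 5 * l := by
          rw [hl']
          have := log_le_of_pow (C := 176) (by norm_num) 8 (by norm_num)
          norm_num at this
          linarith
  have hs0re : (((1 + η : ℝ) : ℂ) + γ * Complex.I).re = 1 + η := by simp
  have hs0im : (((1 + η : ℝ) : ℂ) + γ * Complex.I).im = γ := by simp
  have hdiff : (((1 + η : ℝ) : ℂ) + γ * Complex.I) - ρ = ((x : ℝ) : ℂ) := by
    apply Complex.ext
    · simp [hx]
    · simp [hγ]
  have hnorm : ‖(((1 + η : ℝ) : ℂ) + γ * Complex.I) - ρ‖ = x := by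
    rw [hdiff, Complex.norm_real, Real.norm_eq_abs, abs_of_pos hx0]
  have D1 := zt_DL_zero (((1 + η : ℝ) : ℂ) + γ * Complex.I) ρ (by rw [hs0re]; linarith)
    (by rw [hs0re]; linarith) (by rw [hnorm]; linarith) hρ
  rw [hnorm, hs0re, hs0im] at D1
  have e1 : (1 + η - 1) = η := by ring
  rw [e1] at D1
  have D1' : Real.log (176 * (1 * (|γ| + 2)) ^ 2 / η ^ 2) ≤ 5 * l := by
    rw [log_h2 _ _ _ (by norm_num) hX0 hη0, hl']
    have := log_le_of_pow (C := 176) (by norm_num) 8 (by norm_num)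
    norm_num at this
    linarith
  have D1'' : (1 + η - ρ.re) / x ^ 2 * (1 - 4 * x ^ 2) = 1 / x - 4 * x := by
    rw [← hx]
    field_simp
  rw [D1''] at D1
  have D1p := zt_inv_re η γ hη0 hγ1
  have hs2re : (((1 + η : ℝ) : ℂ) + 2 * γ * Complex.I).re = 1 + η := by simp
  have hs2im : (((1 + η : ℝ) : ℂ) + 2 * γ * Complex.I).im = 2 * γ := by simp
  have habs2 : |2 * γ| + 2 ≤ 2 * (|γ| + 2) := by
    rw [abs_mul, abs_two]; linarith
  have D2 := DL_le_principal (q := 1) 1 hcast (((1 + η : ℝ) : ℂ) + 2 * γ * Complex.I)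
        (by rw [hs2re]; linarith) (by rw [hs2re]; linarith)
  rw [hs2re, hs2im, e1] at D2
  have D2p : (1 / (((1 + η : ℝ) : ℂ) + 2 * γ * Complex.I - 1)).re ≤ η := by
    have h := zt_inv_re η (2 * γ) hη0 (by rw [abs_mul, abs_two]; linarith)
    have e : (((2 * γ : ℝ) : ℝ) : ℂ) = 2 * (γ : ℂ) := by push_cast; ring
    rw [e] at h
    exact h
  have D2' : Real.log (176 * (1 * (|2 * γ| + 2)) ^ 2 / η ^ 2) ≤ 5 * l := by
    calc _ ≤ Real.log (176 * (2 * (1 * (|γ| + 2))) ^ 2 / η ^ 2) := by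
          apply Real.log_le_log (by positivity)
          have : 1 * (|2 * γ| + 2) ≤ 2 * (1 * (|γ| + 2)) := by linarith
          gcongr
      _ = Real.log (704 * (1 * (|γ| + 2)) ^ 2 / η ^ 2) := by congr 1; ring
      _ = Real.log 704 + 2 * Real.log (1 * (|γ| + 2)) + 2 * Real.log (1 / η) :=
          log_h2 _ _ _ (by norm_num) hX0 hη0
      _ ≤ 5 * l := by
          rw [hl']
          have := log_le_of_pow (C := 704) (by norm_num) 10 (by norm_num)
          norm_num at this
          linarith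
  have hmain := three_four_one (1 : DirichletCharacter ℂ 1) (1 + η) γ (by linarith)
  rw [one_pow] at hmain
  have h1 : 4 / x ≤ 3 / η + 320 * l + 16 * x + 5 * η := by
    have e3 : 3 * (1 / η) = 3 / η := by ring
    have e4 : 4 * (1 / x) = 4 / x := by ring
    linarith
  have h2 : 320 * l = 320 * kap / η := by rw [← hηl]; field_simp
  rw [h2, ← add_div] at h1
  have h3 : 4 / (1.02 * η) ≤ 4 / x := by gcongr
  have h4 : 4 / (1.02 * η) ≤ (3 + 320 * kap) / η + 16 * x + 5 * η := h3.trans h1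
  have h5 : 4 / (1.02 * η) = (4 / 1.02) / η := by field_simp
  rw [h5] at h4
  have h6 : (4 / 1.02 - (3 + 320 * kap)) / η ≤ 16 * x + 5 * η := by
    rw [sub_div]; linarith
  rw [div_le_iff₀ hη0] at h6
  have h7 : (16 * x + 5 * η) * η ≤ 0.01 := by
    have : (16 * x + 5 * η) * η ≤ 22 * (1 / 140000) * (1 / 140000) := by
      have : 16 * x + 5 * η ≤ 22 * η := by linarith
      calc (16 * x + 5 * η) * η ≤ (22 * η) * η := by gcongr
        _ ≤ _ := by gcongr
    clear * - this
    norm_num at this ⊢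
    linarith
  have h8 : (4 / 1.02 - (3 + 320 * kap)) ≤ 0.01 := h6.trans h7
  unfold kap at h8
  norm_num at h8

theorem zt_compact (T : ℝ) : ∃ ε : ℝ, 0 < ε ∧ ∀ z : ℂ, |z.im| ≤ T → 1 - ε ≤ z.re →
    DirichletCharacter.LFunctionTrivChar₁ 1 z ≠ 0 := by
  have hK : IsCompact (Set.Icc (1 : ℝ) 1 ×ℂ Set.Icc (-T) T) :=
    isCompact_Icc.reProdIm isCompact_Icc
  have hU : IsOpen {z : ℂ | DirichletCharacter.LFunctionTrivChar₁ 1 z ≠ 0} :=
    isOpen_ne_fun (DirichletCharacter.differentiable_LFunctionTrivChar₁ 1).continuous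
      continuous_const
  obtain ⟨δ, hδ, hsub⟩ := hK.exists_thickening_subset_open hU (by
    intro z hz
    exact zt_one_le z hz.1.1)
  refine ⟨δ / 2, by positivity, fun z hz h1 => ?_⟩
  by_cases h2 : 1 ≤ z.re
  · exact zt_one_le z h2
  · push Not at h2
    apply hsub
    rw [Metric.mem_thickening_iff]
    refine ⟨⟨1, z.im⟩, ⟨by simp, by simpa [abs_le] using hz⟩, ?_⟩
    rw [dist_eq_norm]
    have h3 : z - ⟨1, z.im⟩ = ((z.re - 1 : ℝ) : ℂ) := by
      apply Complex.ext
      · simp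
      · simp
    rw [h3, Complex.norm_real, Real.norm_eq_abs, abs_of_neg (by linarith)]
    linarith

theorem zt_log_one (t : ℝ) : 1 ≤ Real.log (|t| + 3) := by
  rw [Real.le_log_iff_exp_le (by positivity)]
  have := Real.exp_one_lt_d9
  have h := abs_nonneg t
  linarith

open Pool.Agent.H90 in
theorem zt_zero_free : ∃ c : ℝ, 0 < c ∧ c ≤ 1 / 4 ∧ ∀ z : ℂ,
    1 - c / Real.log (|z.im| + 3) ≤ z.re → DirichletCharacter.LFunctionTrivChar₁ 1 z ≠ 0 := by
  obtain ⟨ε, hε, h⟩ := zt_compact (Real.exp 21)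
  have hk := kap_pos
  refine ⟨min (kap / 50) ε, lt_min (by positivity) hε,
    (min_le_left _ _).trans (by unfold kap; norm_num), fun z hz => ?_⟩
  have hl := zt_log_one z.im
  have hl0 : 0 < Real.log (|z.im| + 3) := by linarith
  by_cases h1 : |z.im| ≤ Real.exp 21
  · apply h z h1
    have h2 : min (kap / 50) ε / Real.log (|z.im| + 3) ≤ ε := by
      rw [div_le_iff₀ hl0]
      have := min_le_right (kap / 50) ε
      nlinarith
    linarith
  · push Not at h1
    intro h0
    have h2 : 21 ≤ Real.log (|z.im| + 2) := by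
      rw [Real.le_log_iff_exp_le (by positivity)]
      linarith
    have h3 := zt_large z h0 _ rfl h2
    have h4 : Real.log (|z.im| + 2) ≤ Real.log (|z.im| + 3) :=
      Real.log_le_log (by positivity) (by linarith)
    have h5 : min (kap / 50) ε / Real.log (|z.im| + 3) ≤ kap / 50 / Real.log (|z.im| + 2) := by
      have := min_le_left (kap / 50) ε
      gcongr
    linarith

open Pool.Agent.H90 in
theorem zeta_region : ∃ c C : ℝ, 0 < c ∧ c ≤ 1 / 4 ∧ 0 < C ∧ ∀ s : ℂ,
    1 - c / Real.log (|s.im| + 3) ≤ s.re → s.re ≤ 2 →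
      DirichletCharacter.LFunctionTrivChar₁ 1 s ≠ 0 ∧
      ‖deriv (DirichletCharacter.LFunctionTrivChar₁ 1) s / DirichletCharacter.LFunctionTrivChar₁ 1 s‖ ≤
        C * (Real.log (|s.im| + 3)) ^ 4 := by
  obtain ⟨c0, hc0, hc04, hz⟩ := zt_zero_free
  set c : ℝ := c0 / 8 with hc
  have hcpos : 0 < c := by positivity
  have hc4 : c ≤ 1 / 32 := by rw [hc]; linarith
  set K : ℝ := Real.log 176 + 4 + 2 * Real.log (1 / c) with hK
  have hK0 : 0 < K := by
    have h1 : 0 < Real.log 176 := Real.log_pos (by norm_num)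
    have h2 : 0 ≤ Real.log (1 / c) := Real.log_nonneg (by
      rw [le_div_iff₀ hcpos]; linarith)
    rw [hK]
    linarith
  refine ⟨c, 3 * K / c, hcpos, by linarith, by positivity, fun s hs hs2 => ?_⟩
  set l := Real.log (|s.im| + 3) with hl
  have hl1 : 1 ≤ l := zt_log_one s.im
  have hl0 : 0 < l := by linarith
  have hcl : c / l ≤ c := by
    rw [div_le_iff₀ hl0]
    nlinarith
  have hcl0 : 0 < c / l := by positivity
  -- monotonicity
  have hsne : DirichletCharacter.LFunctionTrivChar₁ 1 s ≠ 0 := by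
    apply hz
    have : c / l ≤ c0 / l := by
      rw [hc]
      gcongr
      linarith
    linarith
  refine ⟨hsne, ?_⟩
  set σ : ℝ := max s.re (1 + c / l) with hσ
  set s₀ : ℂ := ⟨σ, s.im⟩ with hs₀
  have hσ1 : 1 + c / l ≤ σ := le_max_right _ _
  have hσ2 : σ ≤ 2 := max_le hs2 (by linarith)
  have hdist : ‖s - s₀‖ ≤ (4 * c / l) / 2 := by
    have h3 : s - s₀ = ((s.re - σ : ℝ) : ℂ) := by
      apply Complex.ext
      · simp [hs₀]
      · simp [hs₀]
    rw [h3, Complex.norm_real, Real.norm_eq_abs, abs_le]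
    have e : 4 * c / l / 2 = 2 * (c / l) := by ring
    rw [e]
    constructor
    · have : σ ≤ s.re + 2 * (c / l) := max_le (by linarith) (by linarith)
      linarith
    · have : s.re ≤ σ := le_max_left _ _
      linarith
  -- the points of the ball
  have hball : ∀ z ∈ Metric.ball s₀ (4 * c / l), 1 - 3 * (c / l) ≤ z.re ∧ z.re ≤ 3 ∧
      |z.im| ≤ |s.im| + 1 := by
    intro z hzb
    rw [Metric.mem_ball, dist_eq_norm] at hzb
    have h1 := (Complex.abs_re_le_norm (z - s₀)).trans hzb.le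
    have h2 := (Complex.abs_im_le_norm (z - s₀)).trans hzb.le
    have e : 4 * c / l = 4 * (c / l) := by ring
    rw [e] at h1 h2
    simp only [Complex.sub_re, Complex.sub_im, hs₀] at h1 h2
    rw [abs_le] at h1
    refine ⟨by linarith, by linarith, ?_⟩
    have h3 : |z.im| ≤ |z.im - s.im| + |s.im| := by
      have := abs_add_le (z.im - s.im) s.im
      simpa using this
    linarith
  have hnz : ∀ z ∈ Metric.ball s₀ (4 * c / l), DirichletCharacter.LFunctionTrivChar₁ 1 z ≠ 0 := by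
    intro z hzb
    obtain ⟨h1, h2, h3⟩ := hball z hzb
    apply hz
    have h4 : Real.log (|z.im| + 3) ≤ 2 * l := by
      have h5 : |z.im| + 3 ≤ (|s.im| + 3) ^ 2 := by
        have := abs_nonneg s.im
        nlinarith
      calc Real.log (|z.im| + 3) ≤ Real.log ((|s.im| + 3) ^ 2) :=
            Real.log_le_log (by positivity) h5
        _ = 2 * l := by rw [Real.log_pow]; push_cast; rfl
    have h6 : 3 * (c / l) ≤ c0 / Real.log (|z.im| + 3) := by
      have h7 := zt_log_one z.im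
      rw [le_div_iff₀ (by linarith)]
      calc 3 * (c / l) * Real.log (|z.im| + 3) ≤ 3 * (c / l) * (2 * l) := by gcongr
        _ = 6 * c := by field_simp; ring
        _ ≤ c0 := by rw [hc]; linarith
    linarith
  have hA : ∀ z ∈ Metric.ball s₀ (4 * c / l), ‖DirichletCharacter.LFunctionTrivChar₁ 1 z‖ ≤
      44 * (|s.im| + 3) ^ 2 := by
    intro z hzb
    obtain ⟨h1, h2, h3⟩ := hball z hzb
    have h4 := norm_LFunctionTrivChar₁_le (q := 1) z (by linarith)
    have h5 : ‖z‖ ≤ |z.re| + |z.im| := Complex.norm_le_abs_re_add_abs_im z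
    rw [abs_of_pos (by linarith)] at h5
    calc _ ≤ 11 * ((1 : ℕ) : ℝ) * (‖z‖ + 1) ^ 2 := h4
      _ ≤ 11 * ((1 : ℕ) : ℝ) * (2 * (|s.im| + 3)) ^ 2 := by
          have h6 : ‖z‖ + 1 ≤ 2 * (|s.im| + 3) := by
            have := abs_nonneg s.im
            linarith
          gcongr
      _ = 44 * (|s.im| + 3) ^ 2 := by push_cast; ring
  have hs0re : s₀.re = σ := rfl
  have hs01 : s₀ ≠ 1 := by
    intro h
    have : s₀.re = 1 := by rw [h]; simp
    rw [hs0re] at this
    linarith
  have ha : (c / l) ^ 2 / 4 ≤ ‖DirichletCharacter.LFunctionTrivChar₁ 1 s₀‖ := by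
    have hval : DirichletCharacter.LFunctionTrivChar₁ 1 s₀ =
        (s₀ - 1) * DirichletCharacter.LFunction (1 : DirichletCharacter ℂ 1) s₀ := by
      unfold DirichletCharacter.LFunctionTrivChar₁
      rw [Function.update_of_ne hs01]
    rw [hval, norm_mul]
    have h3 := norm_LFunction_ge (1 : DirichletCharacter ℂ 1) s₀ (by rw [hs0re]; linarith)
    have h4 : s₀.re - 1 ≤ ‖s₀ - 1‖ := by
      have := (le_abs_self _).trans (Complex.abs_re_le_norm (s₀ - 1))
      simpa using this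
    rw [hs0re] at h3 h4
    have h5 : (c / l) / 4 ≤ (σ - 1) / (2 * σ) := by
      rw [div_le_div_iff₀ (by norm_num) (by linarith)]
      nlinarith
    calc (c / l) ^ 2 / 4 = (c / l) * ((c / l) / 4) := by ring
      _ ≤ _ := by
          apply mul_le_mul _ (h5.trans h3) (by positivity) (norm_nonneg _)
          linarith
  have haA : (c / l) ^ 2 / 4 < 44 * (|s.im| + 3) ^ 2 := by
    have h1 : (c / l) ^ 2 ≤ 1 := by
      have : c / l ≤ 1 := by linarith
      nlinarith
    have h2 : 9 ≤ (|s.im| + 3) ^ 2 := by nlinarith [abs_nonneg s.im]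
    linarith
  have hmain := zt_bc (DirichletCharacter.LFunctionTrivChar₁ 1) s₀ (4 * c / l)
    (44 * (|s.im| + 3) ^ 2) ((c / l) ^ 2 / 4) (by positivity)
    ((DirichletCharacter.differentiable_LFunctionTrivChar₁ 1).differentiableOn) hnz hA
    (by positivity) ha haA s hdist
  refine hmain.trans ?_
  have hlog : Real.log (44 * (|s.im| + 3) ^ 2 / ((c / l) ^ 2 / 4)) ≤ K * l := by
    have e : 44 * (|s.im| + 3) ^ 2 / ((c / l) ^ 2 / 4) =
        176 * (|s.im| + 3) ^ 2 / (c / l) ^ 2 := by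
      field_simp
      ring
    rw [e, log_h2 176 (|s.im| + 3) (c / l) (by norm_num) (by positivity) (by positivity)]
    have e2 : 1 / (c / l) = l * (1 / c) := by field_simp
    rw [e2, Real.log_mul (by positivity) (by positivity)]
    have h1 : Real.log l ≤ l := (Real.log_le_sub_one_of_pos hl0).trans (by linarith)
    have h2 : 0 < Real.log 176 := Real.log_pos (by norm_num)
    have h3 : 0 ≤ Real.log (1 / c) := Real.log_nonneg (by
      rw [le_div_iff₀ hcpos]; linarith)
    rw [hK, ← hl]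
    nlinarith
  calc 12 * Real.log (44 * (|s.im| + 3) ^ 2 / ((c / l) ^ 2 / 4)) / (4 * c / l)
      ≤ 12 * (K * l) / (4 * c / l) := by gcongr
    _ = 3 * K / c * l ^ 2 := by field_simp; ring
    _ ≤ 3 * K / c * l ^ 4 := by
        have : l ^ 2 ≤ l ^ 4 := pow_le_pow_right₀ hl1 (by norm_num)
        gcongr

end Pool.Agent.H1.PP
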